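import Mathlib

set_option autoImplicit false

namespace Pool.Agent.MC

open Finset Real ArithmeticFunction

lemma sum_log_eq (N : ℕ) :
    ∑ n ∈ Ioc 0 N, Real.log n = ∑ n ∈ Ioc 0 N, vonMangoldt n * ((N / n : ℕ) : ℝ) := by
  have h := sum_Ioc_mul_zeta_eq_sum (R := ℝ) vonMangoldt N
  rw [vonMangoldt_mul_zeta] at h
  simpa [ArithmeticFunction.log_apply] using h

lemma log_factorial_eq (N : ℕ) : Real.log (Nat.factorial N) = ∑ n ∈ Ioc 0 N, Real.log n := by
  induction N with
  | zero => simp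
  | succ k ih =>
    rw [Nat.factorial_succ, Nat.cast_mul, Real.log_mul (by positivity) (by positivity), ih,
      Finset.sum_Ioc_succ_top (Nat.zero_le k)]
    ring

lemma log_factorial_lower (N : ℕ) (hN : 1 ≤ N) :
    (N : ℝ) * Real.log N - N ≤ Real.log (Nat.factorial N) := by
  have h := Stirling.le_log_factorial_stirling (n := N) (by omega)
  have h1 : 0 ≤ Real.log N := Real.log_nonneg (by exact_mod_cast hN)
  have h2 : 0 ≤ Real.log (2 * π) := by
    apply Real.log_nonneg
    have := Real.two_le_pi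
    linarith
  linarith

lemma log_factorial_upper (N : ℕ) (hN : 1 ≤ N) :
    Real.log (Nat.factorial N) ≤ (N : ℝ) * Real.log N := by
  have h : (Nat.factorial N : ℝ) ≤ (N : ℝ) ^ N := by exact_mod_cast Nat.factorial_le_pow N
  calc Real.log (Nat.factorial N) ≤ Real.log ((N : ℝ) ^ N) :=
        Real.log_le_log (by positivity) h
    _ = (N : ℝ) * Real.log N := by rw [Real.log_pow]

/-- Mertens' first theorem, lower bound. -/
lemma mertens_lower (N : ℕ) (hN : 1 ≤ N) :
    Real.log N - 1 ≤ ∑ n ∈ Ioc 0 N, vonMangoldt n / n := by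
  have hNR : (0 : ℝ) < N := by exact_mod_cast hN
  have h1 := log_factorial_lower N hN
  rw [log_factorial_eq, sum_log_eq] at h1
  have h2 : ∑ n ∈ Ioc 0 N, vonMangoldt n * ((N / n : ℕ) : ℝ)
      ≤ N * ∑ n ∈ Ioc 0 N, vonMangoldt n / n := by
    rw [Finset.mul_sum]
    refine Finset.sum_le_sum fun n _ => ?_
    have : ((N / n : ℕ) : ℝ) ≤ (N : ℝ) / n := Nat.cast_div_le
    calc vonMangoldt n * ((N / n : ℕ) : ℝ) ≤ vonMangoldt n * ((N : ℝ) / n) :=
          mul_le_mul_of_nonneg_left this vonMangoldt_nonneg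
      _ = N * (vonMangoldt n / n) := by ring
  have h3 : (N : ℝ) * (Real.log N - 1) ≤ N * ∑ n ∈ Ioc 0 N, vonMangoldt n / n := by
    linarith
  exact le_of_mul_le_mul_left h3 hNR

/-- Mertens' first theorem, upper bound. -/
lemma mertens_upper (N : ℕ) (hN : 1 ≤ N) :
    ∑ n ∈ Ioc 0 N, vonMangoldt n / n ≤ Real.log N + (Real.log 4 + 4) := by
  have hNR : (0 : ℝ) < N := by exact_mod_cast hN
  have h1 := log_factorial_upper N hN
  rw [log_factorial_eq, sum_log_eq] at h1
  have hpsi : ∑ n ∈ Ioc 0 N, vonMangoldt n ≤ (Real.log 4 + 4) * N := by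
    have := Chebyshev.psi_le_const_mul_self (x := (N : ℝ)) hNR.le
    unfold Chebyshev.psi at this
    rwa [Nat.floor_natCast] at this
  have h2 : (N : ℝ) * ∑ n ∈ Ioc 0 N, vonMangoldt n / n
      ≤ ∑ n ∈ Ioc 0 N, vonMangoldt n * ((N / n : ℕ) : ℝ) + ∑ n ∈ Ioc 0 N, vonMangoldt n := by
    rw [Finset.mul_sum, ← Finset.sum_add_distrib]
    refine Finset.sum_le_sum fun n hn => ?_
    simp only [Finset.mem_Ioc] at hn
    have hn0 : (0 : ℝ) < n := by exact_mod_cast hn.1
    have : (N : ℝ) / n ≤ ((N / n : ℕ) : ℝ) + 1 := by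
      have := Nat.lt_floor_add_one ((N : ℝ) / n)
      rw [Nat.floor_div_eq_div] at this
      linarith
    calc (N : ℝ) * (vonMangoldt n / n) = vonMangoldt n * ((N : ℝ) / n) := by ring
      _ ≤ vonMangoldt n * (((N / n : ℕ) : ℝ) + 1) :=
          mul_le_mul_of_nonneg_left this vonMangoldt_nonneg
      _ = _ := by ring
  have h3 : (N : ℝ) * ∑ n ∈ Ioc 0 N, vonMangoldt n / n
      ≤ N * (Real.log N + (Real.log 4 + 4)) := by
    linarith
  exact le_of_mul_le_mul_left h3 hNR

/-- the sum of `Λ(n)/n` over non-primes is bounded -/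
lemma exists_nonprime_bound : ∃ C : ℝ, 0 ≤ C ∧ ∀ N : ℕ,
    ∑ n ∈ (Ioc 0 N).filter (fun n => ¬ n.Prime), vonMangoldt n / n ≤ C := by
  have hs := vonMangoldt.summable_residueClass_non_primes_div (0 : ZMod 1)
  refine ⟨∑' n : ℕ, (if n.Prime then 0 else vonMangoldt.residueClass (0 : ZMod 1) n) / n, ?_, ?_⟩
  · refine tsum_nonneg fun n => ?_
    have : 0 ≤ vonMangoldt.residueClass (0 : ZMod 1) n := vonMangoldt.residueClass_nonneg _ n
    split_ifs <;> positivity
  · intro N
    have h1 : ∑ n ∈ (Ioc 0 N).filter (fun n => ¬ n.Prime), vonMangoldt n / n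
        = ∑ n ∈ (Ioc 0 N).filter (fun n => ¬ n.Prime),
          (if n.Prime then 0 else vonMangoldt.residueClass (0 : ZMod 1) n) / n := by
      refine Finset.sum_congr rfl fun n hn => ?_
      rw [if_neg (Finset.mem_filter.mp hn).2]
      congr 1
      unfold vonMangoldt.residueClass
      rw [Set.indicator_of_mem]
      exact Subsingleton.elim _ _
    rw [h1]
    refine hs.sum_le_tsum _ fun n _ => ?_
    have : 0 ≤ vonMangoldt.residueClass (0 : ZMod 1) n := vonMangoldt.residueClass_nonneg _ n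
    split_ifs <;> positivity

/-- lower bound for `∑ log p / p` over an interval -/
lemma exists_sum_log_div_lower : ∃ C : ℝ, 0 ≤ C ∧ ∀ y z : ℕ, 1 ≤ y → y ≤ z →
    Real.log z - Real.log y - C ≤ ∑ p ∈ (Ioc y z).filter Nat.Prime, Real.log p / p := by
  obtain ⟨C, hC0, hC⟩ := exists_nonprime_bound
  refine ⟨C + 1 + (Real.log 4 + 4), ?_, ?_⟩
  · have : 0 ≤ Real.log 4 := Real.log_nonneg (by norm_num)
    linarith
  · intro y z hy hyz
    have h1 := mertens_lower z (by omega)
    have h2 := mertens_upper y hy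
    have h3 := hC z
    have hsplit : ∑ n ∈ Ioc 0 z, vonMangoldt n / n
        = ∑ n ∈ Ioc 0 y, vonMangoldt n / n + ∑ n ∈ Ioc y z, vonMangoldt n / n := by
      rw [← Finset.sum_union]
      · congr 1
        ext n
        simp only [Finset.mem_union, Finset.mem_Ioc]
        omega
      · rw [Finset.disjoint_left]
        intro n hn hn'
        simp only [Finset.mem_Ioc] at hn hn'
        omega
    have hsplit2 : ∑ n ∈ Ioc y z, vonMangoldt n / n
        = ∑ n ∈ (Ioc y z).filter Nat.Prime, vonMangoldt n / n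
          + ∑ n ∈ (Ioc y z).filter (fun n => ¬ n.Prime), vonMangoldt n / n :=
      (Finset.sum_filter_add_sum_filter_not _ _ _).symm
    have h4 : ∑ n ∈ (Ioc y z).filter (fun n => ¬ n.Prime), vonMangoldt n / n ≤ C := by
      refine le_trans ?_ h3
      refine Finset.sum_le_sum_of_subset_of_nonneg ?_ ?_
      · intro n hn
        simp only [Finset.mem_filter, Finset.mem_Ioc] at hn ⊢
        exact ⟨⟨by omega, hn.1.2⟩, hn.2⟩
      · intro n _ _
        have : 0 ≤ vonMangoldt n := vonMangoldt_nonneg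
        positivity
    have h5 : ∑ n ∈ (Ioc y z).filter Nat.Prime, vonMangoldt n / n
        = ∑ p ∈ (Ioc y z).filter Nat.Prime, Real.log p / p := by
      refine Finset.sum_congr rfl fun p hp => ?_
      rw [vonMangoldt_apply_prime (Finset.mem_filter.mp hp).2]
    linarith

end Pool.Agent.MC
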