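import Mathlib

set_option autoImplicit false

namespace Pool.Agent.MC

open Complex Metric Set

/-- A nonzero solution of a first order linear equation on a ball has no zeros. -/
lemma ne_zero_of_ode (c : ℂ) (r : ℝ) (L J : ℂ → ℂ) (hr : 0 < r)
    (hL : DifferentiableOn ℂ L (ball c r)) (hJ : DifferentiableOn ℂ J (ball c r))
    (hode : ∀ z ∈ ball c r, deriv L z = - J z * L z) (hc : L c ≠ 0) :
    ∀ z ∈ ball c r, L z ≠ 0 := by
  obtain ⟨A, hA⟩ := hJ.isExactOn_ball
  have hcr : c ∈ ball c r := mem_ball_self hr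
  have hLd : ∀ z ∈ ball c r, HasDerivAt L (deriv L z) z := fun z hz =>
    (hL.differentiableAt (isOpen_ball.mem_nhds hz)).hasDerivAt
  have hG : ∀ z ∈ ball c r, HasDerivAt (fun w => L w * Complex.exp (A w)) 0 z := by
    intro z hz
    have h1 := (hLd z hz).mul ((hA z hz).cexp)
    convert! h1 using 1
    rw [hode z hz]
    ring
  intro z hz h0
  have hconst := isOpen_ball.is_const_of_deriv_eq_zero (convex_ball c r).isPreconnected
    (f := fun w => L w * Complex.exp (A w))
    (fun w hw => (hG w hw).differentiableAt.differentiableWithinAt)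
    (fun w hw => (hG w hw).deriv) hz hcr
  simp only [h0, zero_mul] at hconst
  have := mul_ne_zero hc (Complex.exp_ne_zero (A c))
  exact this hconst.symm

/-- Bound for the logarithmic derivative of a nonvanishing function on a ball. -/
lemma logDeriv_bound (f : ℂ → ℂ) (s0 : ℂ) (R M ε : ℝ) (hM : 0 < M) (hε : 0 < ε) (hεR : ε ≤ R)
    (hf : DifferentiableOn ℂ f (ball s0 R)) (hf0 : ∀ z ∈ ball s0 R, f z ≠ 0)
    (hb : ∀ z ∈ ball s0 R, ‖f z‖ ≤ Real.exp M * ‖f s0‖) (s : ℂ) (hs : dist s s0 ≤ R - ε) :
    ‖deriv f s / f s‖ ≤ 8 * M * R / ε ^ 2 := by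
  have hR : 0 < R := by linarith
  have hs0 : s0 ∈ ball s0 R := mem_ball_self hR
  have hfd : ∀ z ∈ ball s0 R, HasDerivAt f (deriv f z) z := fun z hz =>
    (hf.differentiableAt (isOpen_ball.mem_nhds hz)).hasDerivAt
  have hdf : DifferentiableOn ℂ (deriv f) (ball s0 R) := hf.deriv isOpen_ball
  have hh : DifferentiableOn ℂ (fun z => deriv f z / f z) (ball s0 R) := hdf.div hf hf0
  obtain ⟨g0, hg0⟩ := hh.isExactOn_ball
  set g : ℂ → ℂ := fun z => g0 z - g0 s0 with hg
  have hgd : ∀ z ∈ ball s0 R, HasDerivAt g (deriv f z / f z) z := fun z hz =>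
    (hg0 z hz).sub_const _
  have hconst : ∀ z ∈ ball s0 R, f z = f s0 * Complex.exp (g z) := by
    intro z hz
    have h1 : ∀ w ∈ ball s0 R, HasDerivAt (fun w => f w * Complex.exp (- g w)) 0 w := by
      intro w hw
      have h2 := (hfd w hw).mul ((hgd w hw).neg.cexp)
      convert! h2 using 1
      have := hf0 w hw
      field_simp
      ring
    have h2 := isOpen_ball.is_const_of_deriv_eq_zero (convex_ball s0 R).isPreconnected
      (f := fun w => f w * Complex.exp (- g w))
      (fun w hw => (h1 w hw).differentiableAt.differentiableWithinAt)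
      (fun w hw => (h1 w hw).deriv) hz hs0
    have h3 : g s0 = 0 := by simp [hg]
    simp only [h3, neg_zero, Complex.exp_zero, mul_one] at h2
    rw [← h2, mul_assoc, ← Complex.exp_add, neg_add_cancel, Complex.exp_zero, mul_one]
  have hre : ∀ z ∈ ball s0 R, (g z).re ≤ M := by
    intro z hz
    have h1 := hb z hz
    rw [hconst z hz, norm_mul, Complex.norm_exp, mul_comm] at h1
    have h2 : 0 < ‖f s0‖ := norm_pos_iff.mpr (hf0 s0 hs0)
    have h3 := le_of_mul_le_mul_right h1 h2
    exact Real.exp_le_exp.mp h3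
  -- Borel-Caratheodory
  have hBC : ∀ z ∈ ball s0 R, ‖g z‖ ≤ 2 * M * dist z s0 / (R - dist z s0) := by
    intro z hz
    have h1 := Complex.borelCaratheodory_zero (f := fun w => g (s0 + w)) (M := M) (R := R)
      (z := z - s0) hM ?_ ?_ hR ?_ ?_
    · simp only [add_sub_cancel] at h1
      rw [dist_eq_norm]
      exact h1
    · intro w hw
      have hw' : s0 + w ∈ ball s0 R := by
        rw [mem_ball, dist_eq_norm, add_sub_cancel_left]
        simpa using hw
      have h2 := (hgd _ hw').differentiableAt
      exact (h2.comp w (by fun_prop)).differentiableWithinAt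
    · intro w hw
      have hw' : s0 + w ∈ ball s0 R := by
        rw [mem_ball, dist_eq_norm, add_sub_cancel_left]
        simpa using hw
      exact hre _ hw'
    · rw [mem_ball, dist_zero_right, ← dist_eq_norm]
      exact hz
    · simp [hg]
  -- Cauchy estimate
  have hsR : dist s s0 < R := by linarith
  have hds : deriv g s = deriv f s / f s := (hgd s hsR).deriv
  rw [← hds]
  have hsub : closedBall s (ε / 2) ⊆ ball s0 R := by
    intro w hw
    rw [mem_closedBall] at hw
    rw [mem_ball]
    calc dist w s0 ≤ dist w s + dist s s0 := dist_triangle _ _ _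
      _ ≤ ε / 2 + (R - ε) := by gcongr
      _ < R := by linarith
  have hC : ∀ z ∈ sphere s (ε / 2), ‖g z‖ ≤ 4 * M * R / ε := by
    intro z hz
    rw [mem_sphere] at hz
    have h1 : dist z s0 ≤ R - ε / 2 := by
      calc dist z s0 ≤ dist z s + dist s s0 := dist_triangle _ _ _
        _ ≤ ε / 2 + (R - ε) := by rw [hz]; gcongr
        _ = R - ε / 2 := by ring
    have h2 : z ∈ ball s0 R := by rw [mem_ball]; linarith
    refine (hBC z h2).trans ?_
    have h3 : 0 < R - dist z s0 := by linarith
    rw [div_le_div_iff₀ h3 hε]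
    have h4 : dist z s0 ≤ R := by linarith
    have h5 : ε / 2 ≤ R - dist z s0 := by linarith
    calc 2 * M * dist z s0 * ε ≤ 2 * M * R * ε := by gcongr
      _ = 4 * M * R * (ε / 2) := by ring
      _ ≤ 4 * M * R * (R - dist z s0) := by gcongr
  have hdiff : DiffContOnCl ℂ g (ball s (ε / 2)) := by
    apply DifferentiableOn.diffContOnCl
    rw [closure_ball s (by positivity)]
    intro w hw
    exact (hgd w (hsub hw)).differentiableAt.differentiableWithinAt
  have h1 := Complex.norm_deriv_le_of_forall_mem_sphere_norm_le (by positivity : 0 < ε / 2) hdiff hC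
  refine h1.trans (le_of_eq ?_)
  field_simp
  ring

end Pool.Agent.MC
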