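import Mathlib

set_option autoImplicit false

namespace Pool.Agent.MC

open Complex MeasureTheory Set Filter Topology Asymptotics

/-- Mellin type transform on `(1, ∞)` -/
noncomputable def MT (f : ℝ → ℂ) (s : ℂ) : ℂ := ∫ t in Ioi (1 : ℝ), f t * (t : ℂ) ^ (-(s + 1))

lemma continuousOn_cpow_Ioi (w : ℂ) : ContinuousOn (fun t : ℝ => (t : ℂ) ^ w) (Ioi 0) := by
  intro t ht
  have ht0 : (0 : ℝ) < t := ht
  exact (Complex.continuousAt_ofReal_cpow_const t w (Or.inr ht0.ne')).continuousWithinAt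

lemma MT_bound_aux (f : ℝ → ℂ) (C σ0 : ℝ) (hb : ∀ t : ℝ, 1 < t → ‖f t‖ ≤ C * t ^ σ0) (s : ℂ)
    (t : ℝ) (ht : 1 < t) : ‖f t * (t : ℂ) ^ (-(s + 1))‖ ≤ C * t ^ (σ0 - s.re - 1) := by
  have ht0 : 0 < t := by linarith
  rw [norm_mul, Complex.norm_cpow_eq_rpow_re_of_pos ht0]
  have h1 : (-(s + 1)).re = - s.re - 1 := by simp; ring
  rw [h1]
  calc ‖f t‖ * t ^ (- s.re - 1) ≤ (C * t ^ σ0) * t ^ (- s.re - 1) := by
        gcongr
        exact hb t ht
    _ = C * t ^ (σ0 - s.re - 1) := by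
        rw [mul_assoc, ← Real.rpow_add ht0]
        congr 2
        ring

lemma MT_integrable (f : ℝ → ℂ) (C σ0 : ℝ) (hf : Measurable f)
    (hb : ∀ t : ℝ, 1 < t → ‖f t‖ ≤ C * t ^ σ0) (s : ℂ) (hs : σ0 < s.re) :
    IntegrableOn (fun t : ℝ => f t * (t : ℂ) ^ (-(s + 1))) (Ioi 1) := by
  have h1 : IntegrableOn (fun t : ℝ => C * t ^ (σ0 - s.re - 1)) (Ioi 1) :=
    (integrableOn_Ioi_rpow_of_lt (by linarith) one_pos).const_mul C
  refine Integrable.mono' h1 ?_ ?_
  · refine hf.aestronglyMeasurable.mul ?_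
    refine ContinuousOn.aestronglyMeasurable ?_ measurableSet_Ioi
    exact (continuousOn_cpow_Ioi _).mono (Ioi_subset_Ioi zero_le_one)
  · refine (ae_restrict_iff' measurableSet_Ioi).mpr (ae_of_all _ fun t ht => ?_)
    exact MT_bound_aux f C σ0 hb s t ht

lemma MT_norm_le (f : ℝ → ℂ) (C σ0 : ℝ) (hb : ∀ t : ℝ, 1 < t → ‖f t‖ ≤ C * t ^ σ0) (s : ℂ)
    (hs : σ0 < s.re) : ‖MT f s‖ ≤ C / (s.re - σ0) := by
  have h1 : IntegrableOn (fun t : ℝ => C * t ^ (σ0 - s.re - 1)) (Ioi 1) :=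
    (integrableOn_Ioi_rpow_of_lt (by linarith) one_pos).const_mul C
  have h2 : ‖MT f s‖ ≤ ∫ t in Ioi (1 : ℝ), C * t ^ (σ0 - s.re - 1) := by
    refine norm_integral_le_of_norm_le h1 ?_
    refine (ae_restrict_iff' measurableSet_Ioi).mpr (ae_of_all _ fun t ht => ?_)
    exact MT_bound_aux f C σ0 hb s t ht
  refine h2.trans (le_of_eq ?_)
  rw [integral_const_mul, integral_Ioi_rpow_of_lt (by linarith) one_pos, Real.one_rpow]
  have h3 : s.re - σ0 ≠ 0 := by linarith
  have h4 : σ0 - s.re - 1 + 1 ≠ 0 := by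
    intro h; apply h3; linarith
  field_simp
  ring

lemma MT_eq_mellin (f : ℝ → ℂ) (s : ℂ) : MT f s = mellin (indicator (Ioi 1) f) (-s) := by
  unfold MT mellin
  rw [← integral_indicator measurableSet_Ioi, ← integral_indicator measurableSet_Ioi]
  congr 1
  ext t
  by_cases h1 : (1 : ℝ) < t
  · have h0 : (0 : ℝ) < t := by linarith
    rw [indicator_of_mem (mem_Ioi.mpr h1), indicator_of_mem (mem_Ioi.mpr h0),
      indicator_of_mem (mem_Ioi.mpr h1), smul_eq_mul, mul_comm]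
    congr 2
    ring
  · rw [indicator_of_notMem (by simpa using h1)]
    by_cases h0 : (0 : ℝ) < t
    · rw [indicator_of_mem (mem_Ioi.mpr h0), indicator_of_notMem (by simpa using h1), smul_zero]
    · rw [indicator_of_notMem (by simpa using h0)]

lemma locInt_indicator (f : ℝ → ℂ) (C σ0 : ℝ) (hf : Measurable f)
    (hb : ∀ t : ℝ, 1 < t → ‖f t‖ ≤ C * t ^ σ0) :
    LocallyIntegrableOn (indicator (Ioi 1) f) (Ioi 0) := by
  have hC : 0 ≤ C := by
    have := hb 2 (by norm_num)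
    by_contra hneg
    push Not at hneg
    have h2 : C * (2 : ℝ) ^ σ0 < 0 := mul_neg_of_neg_of_pos hneg (by positivity)
    linarith [norm_nonneg (f 2)]
  have h1 : LocallyIntegrableOn (fun t : ℝ => C * t ^ σ0) (Ioi (0 : ℝ)) volume := by
    refine ContinuousOn.locallyIntegrableOn ?_ measurableSet_Ioi
    intro t ht
    have ht0 : (0 : ℝ) < t := ht
    exact (continuousAt_const.mul (Real.continuousAt_rpow_const t σ0 (Or.inl ht0.ne'))).continuousWithinAt
  refine h1.mono (hf.indicator measurableSet_Ioi).aestronglyMeasurable (ae_of_all _ fun t => ?_)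
  by_cases h1 : (1 : ℝ) < t
  · rw [indicator_of_mem (mem_Ioi.mpr h1)]
    exact (hb t h1).trans (Real.le_norm_self _)
  · rw [indicator_of_notMem (by simpa using h1), norm_zero]
    exact norm_nonneg _

lemma MT_differentiableAt (f : ℝ → ℂ) (C σ0 : ℝ) (hf : Measurable f)
    (hb : ∀ t : ℝ, 1 < t → ‖f t‖ ≤ C * t ^ σ0) (s : ℂ) (hs : σ0 < s.re) :
    DifferentiableAt ℂ (MT f) s := by
  have h0 : MT f = fun z => mellin (indicator (Ioi 1) f) (-z) := by
    ext z
    exact MT_eq_mellin f z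
  rw [h0]
  have h1 : DifferentiableAt ℂ (mellin (indicator (Ioi 1) f)) (-s) := by
    refine mellin_differentiableAt_of_isBigO_rpow (a := -σ0) (b := (-s).re - 1)
      (locInt_indicator f C σ0 hf hb) ?_ (by simp; exact hs) ?_ (by linarith)
    · rw [neg_neg]
      refine IsBigO.of_bound C ?_
      filter_upwards [eventually_gt_atTop 1] with t ht
      rw [indicator_of_mem (mem_Ioi.mpr ht), Real.norm_of_nonneg (by positivity)]
      exact hb t ht
    · refine IsBigO.of_bound 1 ?_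
      have : Iio (1 : ℝ) ∈ 𝓝[>] (0 : ℝ) := mem_nhdsWithin_of_mem_nhds (Iio_mem_nhds one_pos)
      filter_upwards [this] with t ht
      have ht1 : ¬ (1 < t) := not_lt.mpr (le_of_lt ht)
      rw [indicator_of_notMem (by simpa using ht1), norm_zero]
      positivity
  have h2 : HasDerivAt (fun z : ℂ => mellin (indicator (Ioi 1) f) (-z))
      (deriv (mellin (indicator (Ioi 1) f)) (-s) * (-1)) s :=
    HasDerivAt.comp s h1.hasDerivAt (hasDerivAt_neg s)
  exact h2.differentiableAt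

lemma MT_sub (f g : ℝ → ℂ) (s : ℂ)
    (hf : IntegrableOn (fun t : ℝ => f t * (t : ℂ) ^ (-(s + 1))) (Ioi 1))
    (hg : IntegrableOn (fun t : ℝ => g t * (t : ℂ) ^ (-(s + 1))) (Ioi 1)) :
    MT (fun t => f t - g t) s = MT f s - MT g s := by
  unfold MT
  rw [← integral_sub hf hg]
  congr 1
  ext t
  ring

lemma MT_const_mul (f : ℝ → ℂ) (c s : ℂ) : MT (fun t => c * f t) s = c * MT f s := by
  unfold MT
  rw [← integral_const_mul]
  congr 1
  ext t
  ring

lemma MT_id_integrable (s : ℂ) (hs : 1 < s.re) :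
    IntegrableOn (fun t : ℝ => (t : ℂ) * (t : ℂ) ^ (-(s + 1))) (Ioi 1) := by
  refine MT_integrable (fun t => (t : ℂ)) 1 1 (by fun_prop) ?_ s hs
  intro t ht
  rw [Real.rpow_one, one_mul, Complex.norm_real, Real.norm_of_nonneg (by linarith)]

lemma MT_id (s : ℂ) (hs : 1 < s.re) : MT (fun t => (t : ℂ)) s = 1 / (s - 1) := by
  unfold MT
  have h1 : ∫ t in Ioi (1 : ℝ), (t : ℂ) * (t : ℂ) ^ (-(s + 1)) = ∫ t in Ioi (1 : ℝ), (t : ℂ) ^ (-s) := by
    refine setIntegral_congr_fun measurableSet_Ioi fun t ht => ?_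
    have ht0 : (t : ℂ) ≠ 0 := by
      have h2 : (1 : ℝ) < t := ht
      have : t ≠ 0 := by linarith
      exact_mod_cast this
    nth_rewrite 1 [← Complex.cpow_one (t : ℂ)]
    rw [← Complex.cpow_add _ _ ht0]
    congr 1
    ring
  rw [h1, integral_Ioi_cpow_of_lt (by simp; exact hs) one_pos, Complex.ofReal_one, Complex.one_cpow]
  have h3 : s - 1 ≠ 0 := by
    intro h
    have h4 : s = 1 := by linear_combination h
    rw [h4] at hs
    simp at hs
  have h4 : -s + 1 ≠ 0 := by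
    intro h
    apply h3
    linear_combination -h
  field_simp
  ring

end Pool.Agent.MC
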