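import Mathlib
import Pool.Agent.Lib.MP_9cfc0a_nt.An1
import Pool.Agent.Lib.MP_9cfc0a_nt.An2

set_option autoImplicit false

namespace Pool.Agent.MC

open Complex MeasureTheory Set Filter Topology Asymptotics

lemma sum_period (d : ℕ) [NeZero d] (f : ZMod d → ℂ) (m : ℕ) :
    ∑ k ∈ Finset.Ico m (m + d), f (k : ZMod d) = ∑ a, f a := by
  classical
  have hinj : Set.InjOn (fun k : ℕ => (k : ZMod d)) (Finset.Ico m (m + d)) := by
    intro k hk k' hk' h
    simp only at h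
    rw [Finset.mem_coe, Finset.mem_Ico] at hk hk'
    have h1 := (ZMod.natCast_eq_natCast_iff k k' d).mp h
    refine Nat.ModEq.eq_of_abs_lt h1 ?_
    rw [abs_lt]
    constructor <;> omega
  have himg : (Finset.Ico m (m + d)).image (fun k : ℕ => (k : ZMod d)) = Finset.univ := by
    apply Finset.eq_univ_of_card
    rw [Finset.card_image_of_injOn hinj, Nat.card_Ico, ZMod.card]
    omega
  rw [← himg, Finset.sum_image hinj]

lemma periodic_sum_bound (d : ℕ) [NeZero d] (f : ZMod d → ℂ) (hf : ∀ a, ‖f a‖ ≤ 1) (N : ℕ) :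
    ‖∑ k ∈ Finset.Icc 1 N, f (k : ZMod d) - ((N : ℂ) / d) * ∑ a, f a‖ ≤ 2 * d := by
  have hd0 : (d : ℂ) ≠ 0 := Nat.cast_ne_zero.mpr (NeZero.ne d)
  have hdR : (0 : ℝ) < d := by exact_mod_cast Nat.pos_of_ne_zero (NeZero.ne d)
  have hM : ‖∑ a, f a‖ ≤ d := by
    refine (norm_sum_le _ _).trans ?_
    calc ∑ a, ‖f a‖ ≤ ∑ _a : ZMod d, (1 : ℝ) := Finset.sum_le_sum fun a _ => hf a
      _ = d := by simp [ZMod.card]
  induction N using Nat.strong_induction_on with
  | _ N ih =>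
    rcases lt_or_ge N d with h | h
    · have h1 : ‖∑ k ∈ Finset.Icc 1 N, f (k : ZMod d)‖ ≤ d := by
        refine (norm_sum_le _ _).trans ?_
        calc ∑ k ∈ Finset.Icc 1 N, ‖f (k : ZMod d)‖ ≤ ∑ _k ∈ Finset.Icc 1 N, (1 : ℝ) :=
              Finset.sum_le_sum fun a _ => hf _
          _ = N := by simp
          _ ≤ d := by exact_mod_cast h.le
      have h2 : ‖((N : ℂ) / d) * ∑ a, f a‖ ≤ d := by
        rw [norm_mul, norm_div, Complex.norm_natCast, Complex.norm_natCast]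
        calc (N : ℝ) / d * ‖∑ a, f a‖ ≤ 1 * d := by
              gcongr
              rw [div_le_one hdR]
              exact_mod_cast h.le
          _ = d := one_mul _
      calc _ ≤ ‖∑ k ∈ Finset.Icc 1 N, f (k : ZMod d)‖ + ‖((N : ℂ) / d) * ∑ a, f a‖ := norm_sub_le _ _
        _ ≤ d + d := add_le_add h1 h2
        _ = 2 * d := by ring
    · have hpos : 0 < d := Nat.pos_of_ne_zero (NeZero.ne d)
      have h1 := ih (N - d) (by omega)
      have h2 : ∑ k ∈ Finset.Icc 1 N, f (k : ZMod d)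
          = ∑ k ∈ Finset.Icc 1 (N - d), f (k : ZMod d) + ∑ a, f a := by
        rw [← sum_period d f (N - d + 1)]
        have h3 : Finset.Icc 1 N = Finset.Ico 1 (N + 1) := by
          ext x; simp only [Finset.mem_Icc, Finset.mem_Ico]; omega
        have h4 : Finset.Icc 1 (N - d) = Finset.Ico 1 (N - d + 1) := by
          ext x; simp only [Finset.mem_Icc, Finset.mem_Ico]; omega
        rw [h3, h4, show N - d + 1 + d = N + 1 by omega]
        rw [Finset.sum_Ico_consecutive _ (by omega) (by omega)]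
      rw [h2]
      have h3 : ((N - d : ℕ) : ℂ) = (N : ℂ) - d := by rw [Nat.cast_sub h]
      rw [h3] at h1
      have h5 : ∑ k ∈ Finset.Icc 1 (N - d), f (k : ZMod d) + ∑ a, f a - (N : ℂ) / d * ∑ a, f a
          = ∑ k ∈ Finset.Icc 1 (N - d), f (k : ZMod d) - ((N : ℂ) - d) / d * ∑ a, f a := by
        field_simp
        ring
      rw [h5]
      exact h1

/-- partial sums -/
noncomputable def SumC (f : ℕ → ℂ) (t : ℝ) : ℂ := ∑ k ∈ Finset.Icc 1 ⌊t⌋₊, f k

lemma SumC_measurable (f : ℕ → ℂ) : Measurable (SumC f) := by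
  have h1 : SumC f = (fun n : ℕ => ∑ k ∈ Finset.Icc 1 n, f k) ∘ (fun t : ℝ => ⌊t⌋₊) := rfl
  rw [h1]
  exact (measurable_from_top).comp Nat.measurable_floor

/-- density of the partial sums of a character -/
noncomputable def densC (d : ℕ) [NeZero d] (χ : DirichletCharacter ℂ d) : ℂ := (∑ a, χ a) / d

noncomputable def RC (d : ℕ) [NeZero d] (χ : DirichletCharacter ℂ d) (t : ℝ) : ℂ :=
  SumC (fun n => χ n) t - densC d χ * t

lemma norm_densC_le (d : ℕ) [NeZero d] (χ : DirichletCharacter ℂ d) : ‖densC d χ‖ ≤ 1 := by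
  have hdR : (0 : ℝ) < d := by exact_mod_cast Nat.pos_of_ne_zero (NeZero.ne d)
  unfold densC
  rw [norm_div, Complex.norm_natCast, div_le_one hdR]
  refine (norm_sum_le _ _).trans ?_
  calc ∑ a, ‖χ a‖ ≤ ∑ _a : ZMod d, (1 : ℝ) := Finset.sum_le_sum fun a _ => χ.norm_le_one a
    _ = d := by simp [ZMod.card]

lemma densC_eq_zero (d : ℕ) [NeZero d] (χ : DirichletCharacter ℂ d) (hχ : χ ≠ 1) :
    densC d χ = 0 := by
  unfold densC
  rw [MulChar.sum_eq_zero_of_ne_one hχ, zero_div]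

lemma RC_bound (d : ℕ) [NeZero d] (χ : DirichletCharacter ℂ d) (t : ℝ) (ht : 1 < t) :
    ‖RC d χ t‖ ≤ (2 * d + 1) * t ^ (0 : ℝ) := by
  rw [Real.rpow_zero, mul_one]
  unfold RC SumC
  have h1 := periodic_sum_bound d (fun a => χ a) (fun a => χ.norm_le_one a) ⌊t⌋₊
  have h2 : ‖((⌊t⌋₊ : ℂ) - (t : ℂ))‖ ≤ 1 := by
    rw [← Complex.ofReal_natCast, ← Complex.ofReal_sub, Complex.norm_real, Real.norm_eq_abs, abs_le]
    have h3 := Nat.floor_le (show 0 ≤ t by linarith)
    have h4 := Nat.lt_floor_add_one t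
    constructor <;> linarith
  have h3 : ∑ k ∈ Finset.Icc 1 ⌊t⌋₊, χ k - densC d χ * t
      = (∑ k ∈ Finset.Icc 1 ⌊t⌋₊, χ k - ((⌊t⌋₊ : ℂ) / d) * ∑ a, χ a)
        + densC d χ * ((⌊t⌋₊ : ℂ) - (t : ℂ)) := by
    unfold densC
    ring
  rw [h3]
  calc _ ≤ ‖∑ k ∈ Finset.Icc 1 ⌊t⌋₊, χ k - ((⌊t⌋₊ : ℂ) / d) * ∑ a, χ a‖
        + ‖densC d χ * ((⌊t⌋₊ : ℂ) - (t : ℂ))‖ := norm_add_le _ _
    _ ≤ 2 * d + 1 * 1 := by
        rw [norm_mul]
        gcongr
        exact norm_densC_le d χ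
    _ = 2 * d + 1 := by ring

lemma RC_measurable (d : ℕ) [NeZero d] (χ : DirichletCharacter ℂ d) : Measurable (RC d χ) := by
  unfold RC
  exact (SumC_measurable _).sub (by fun_prop)

/-- Representation of the L-function for `1 < Re s`. -/
lemma LFunction_eq_MT (d : ℕ) [NeZero d] (χ : DirichletCharacter ℂ d) (s : ℂ) (hs : 1 < s.re) :
    χ.LFunction s = s * MT (RC d χ) s + densC d χ * (s / (s - 1)) := by
  rw [DirichletCharacter.LFunction_eq_LSeries χ hs]
  have hO : (fun n : ℕ => ∑ k ∈ Finset.Icc 1 n, χ k) =O[atTop] fun n : ℕ => (n : ℝ) ^ (1 : ℝ) := by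
    refine IsBigO.of_bound 1 (Eventually.of_forall fun n => ?_)
    rw [Real.rpow_one, Real.norm_of_nonneg (Nat.cast_nonneg n), one_mul]
    refine (norm_sum_le _ _).trans ?_
    calc ∑ k ∈ Finset.Icc 1 n, ‖χ k‖ ≤ ∑ _k ∈ Finset.Icc 1 n, (1 : ℝ) :=
          Finset.sum_le_sum fun a _ => χ.norm_le_one _
      _ = n := by simp
  have h1 := LSeries_eq_mul_integral (fun n : ℕ => χ n) zero_le_one hs
    (DirichletCharacter.LSeriesSummable_of_one_lt_re χ hs) hO
  rw [h1]
  have h2 : ∫ t in Ioi (1 : ℝ), (∑ k ∈ Finset.Icc 1 ⌊t⌋₊, χ k) * (t : ℂ) ^ (-(s + 1))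
      = MT (RC d χ) s + densC d χ * (1 / (s - 1)) := by
    have hR := MT_integrable (RC d χ) _ 0 (RC_measurable d χ) (RC_bound d χ) s (by linarith)
    have hI := MT_id_integrable s hs
    have hI' : IntegrableOn (fun t : ℝ => (densC d χ * (t : ℂ)) * (t : ℂ) ^ (-(s + 1))) (Ioi 1) := by
      have := hI.const_mul (densC d χ)
      refine this.congr (ae_of_all _ fun t => ?_)
      simp only
      ring
    rw [← MT_id s hs, ← MT_const_mul]
    unfold MT
    rw [← integral_add hR hI']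
    congr 1
    ext t
    unfold RC SumC
    ring
  rw [h2]
  ring

/-- identity theorem on half planes -/
lemma eqOn_halfplane (f g : ℂ → ℂ) (a b : ℝ) (hab : a ≤ b)
    (hf : DifferentiableOn ℂ f {s | a < s.re}) (hg : DifferentiableOn ℂ g {s | a < s.re})
    (h : ∀ s, b < s.re → f s = g s) (s : ℂ) (hs : a < s.re) : f s = g s := by
  have hopen : IsOpen {s : ℂ | a < s.re} := isOpen_lt continuous_const Complex.continuous_re
  have hopenb : IsOpen {s : ℂ | b < s.re} := isOpen_lt continuous_const Complex.continuous_re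
  have hconv : Convex ℝ {s : ℂ | a < s.re} := convex_halfSpace_re_gt a
  have hmem : ((b + 1 : ℝ) : ℂ) ∈ {s : ℂ | a < s.re} := by
    simp only [Set.mem_ofPred_eq, Complex.ofReal_re]; linarith
  have hmemb : ((b + 1 : ℝ) : ℂ) ∈ {s : ℂ | b < s.re} := by
    simp only [Set.mem_ofPred_eq, Complex.ofReal_re]; linarith
  have h1 := (hf.analyticOnNhd hopen).eqOn_of_preconnected_of_eventuallyEq
    (hg.analyticOnNhd hopen) hconv.isPreconnected hmem
    (Filter.eventually_of_mem (hopenb.mem_nhds hmemb) fun z hz => h z hz)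
  exact h1 hs

lemma MT_RC_differentiableOn (d : ℕ) [NeZero d] (χ : DirichletCharacter ℂ d) :
    DifferentiableOn ℂ (MT (RC d χ)) {s | 0 < s.re} := fun s hs =>
  (MT_differentiableAt (RC d χ) _ 0 (RC_measurable d χ) (RC_bound d χ) s hs).differentiableWithinAt

lemma MT_RC_norm_le (d : ℕ) [NeZero d] (χ : DirichletCharacter ℂ d) (s : ℂ) (hs : 1 / 2 ≤ s.re) :
    ‖MT (RC d χ) s‖ ≤ 4 * d + 2 := by
  have h1 := MT_norm_le (RC d χ) _ 0 (RC_bound d χ) s (by linarith)
  refine h1.trans ?_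
  rw [sub_zero, div_le_iff₀ (by linarith)]
  have : (0 : ℝ) ≤ d := Nat.cast_nonneg d
  nlinarith

/-- The L-function, multiplied by `s - 1` for the trivial character. -/
noncomputable def FF (d : ℕ) [NeZero d] (χ : DirichletCharacter ℂ d) : ℂ → ℂ := by
  classical
  exact if χ = 1 then DirichletCharacter.LFunctionTrivChar₁ d else χ.LFunction

lemma FF_one (d : ℕ) [NeZero d] : FF d 1 = DirichletCharacter.LFunctionTrivChar₁ d := by
  unfold FF
  simp

lemma FF_of_ne (d : ℕ) [NeZero d] (χ : DirichletCharacter ℂ d) (hχ : χ ≠ 1) :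
    FF d χ = χ.LFunction := by
  unfold FF
  simp [hχ]

lemma FF_differentiable (d : ℕ) [NeZero d] (χ : DirichletCharacter ℂ d) :
    Differentiable ℂ (FF d χ) := by
  by_cases h : χ = 1
  · subst h
    rw [FF_one]
    exact DirichletCharacter.differentiable_LFunctionTrivChar₁ d
  · rw [FF_of_ne d χ h]
    exact DirichletCharacter.differentiable_LFunction h

lemma FF_one_apply (d : ℕ) [NeZero d] (s : ℂ) (hs : s ≠ 1) :
    FF d 1 s = (s - 1) * (1 : DirichletCharacter ℂ d).LFunction s := by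
  rw [FF_one, DirichletCharacter.LFunctionTrivChar₁, Function.update_of_ne hs]

lemma FF_eq_MT (d : ℕ) [NeZero d] (χ : DirichletCharacter ℂ d) (hχ : χ ≠ 1) (s : ℂ) (hs : 0 < s.re) :
    FF d χ s = s * MT (RC d χ) s := by
  refine eqOn_halfplane (FF d χ) (fun s => s * MT (RC d χ) s) 0 1 zero_le_one
    (FF_differentiable d χ).differentiableOn
    (differentiableOn_id.mul (MT_RC_differentiableOn d χ)) (fun z hz => ?_) s hs
  rw [FF_of_ne d χ hχ, LFunction_eq_MT d χ z hz, densC_eq_zero d χ hχ, zero_mul, add_zero]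

lemma FF_one_eq_MT (d : ℕ) [NeZero d] (s : ℂ) (hs : 0 < s.re) :
    FF d 1 s = s * (s - 1) * MT (RC d 1) s + densC d 1 * s := by
  refine eqOn_halfplane (FF d 1) (fun s => s * (s - 1) * MT (RC d 1) s + densC d 1 * s) 0 1
    zero_le_one (FF_differentiable d 1).differentiableOn
    (((differentiableOn_id.mul (differentiableOn_id.sub_const 1)).mul
      (MT_RC_differentiableOn d 1)).add (differentiableOn_id.const_mul _)) (fun z hz => ?_) s hs
  have hz1 : z ≠ 1 := by
    intro h; rw [h] at hz; simp at hz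
  have hz2 : z - 1 ≠ 0 := sub_ne_zero.mpr hz1
  rw [FF_one_apply d z hz1, LFunction_eq_MT d 1 z hz]
  field_simp

lemma FF_bound (d : ℕ) [NeZero d] (χ : DirichletCharacter ℂ d) (s : ℂ) (hs : 1 / 2 ≤ s.re) :
    ‖FF d χ s‖ ≤ (4 * d + 3) * (‖s‖ + 1) ^ 2 := by
  have hdR : (0 : ℝ) ≤ d := Nat.cast_nonneg d
  have hn : 0 ≤ ‖s‖ := norm_nonneg s
  by_cases h : χ = 1
  · subst h
    rw [FF_one_eq_MT d s (by linarith)]
    have h1 := MT_RC_norm_le d 1 s hs
    have h2 : ‖s - 1‖ ≤ ‖s‖ + 1 := (norm_sub_le _ _).trans (by simp)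
    calc _ ≤ ‖s * (s - 1) * MT (RC d 1) s‖ + ‖densC d 1 * s‖ := norm_add_le _ _
      _ ≤ (‖s‖ + 1) * (‖s‖ + 1) * (4 * d + 2) + 1 * ((‖s‖ + 1) * (‖s‖ + 1)) := by
          rw [norm_mul, norm_mul, norm_mul]
          gcongr
          · linarith
          · exact norm_densC_le d 1
          · nlinarith
      _ = (4 * d + 3) * (‖s‖ + 1) ^ 2 := by ring
  · rw [FF_eq_MT d χ h s (by linarith), norm_mul]
    have h1 := MT_RC_norm_le d χ s hs
    calc ‖s‖ * ‖MT (RC d χ) s‖ ≤ (‖s‖ + 1) ^ 2 * (4 * d + 3) := by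
          gcongr
          · nlinarith
          · linarith
      _ = _ := by ring

lemma LFunction_lower (d : ℕ) [NeZero d] (χ : DirichletCharacter ℂ d) (s : ℂ) (hs : s.re = 2) :
    1 / 3 ≤ ‖χ.LFunction s‖ := by
  rw [DirichletCharacter.LFunction_eq_LSeries χ (by linarith)]
  have hsum := DirichletCharacter.LSeriesSummable_of_one_lt_re χ (s := s) (by linarith)
  set g : ℕ → ℂ := LSeries.term (fun n => χ n) s with hg
  have hs0 : s ≠ 0 := by
    intro h; rw [h] at hs; simp at hs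
  have h1 : LSeries (fun n => χ n) s = 1 + ∑' n, g (n + 2) := by
    unfold LSeries
    rw [← hg, ← Summable.sum_add_tsum_nat_add 2 hsum]
    congr 1
    rw [Finset.sum_range_succ, Finset.sum_range_one, LSeries.term_zero,
      LSeries.term_of_ne_zero one_ne_zero]
    simp
  have h2 := hasSum_zeta_two
  have h3 : HasSum (fun n : ℕ => (1 : ℝ) / ((n + 2 : ℕ) : ℝ) ^ 2) (Real.pi ^ 2 / 6 - 1) := by
    have h4 := (hasSum_nat_add_iff' 2).mpr h2
    rw [Finset.sum_range_succ, Finset.sum_range_one] at h4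
    norm_num at h4 ⊢
    exact h4
  have h4 : ‖∑' n, g (n + 2)‖ ≤ Real.pi ^ 2 / 6 - 1 := by
    refine tsum_of_norm_bounded h3 fun n => ?_
    rw [hg, LSeries.term_of_ne_zero (by omega), norm_div]
    have hpos : (0 : ℝ) < ((n + 2 : ℕ) : ℝ) := by positivity
    have h5 : ‖((n + 2 : ℕ) : ℂ) ^ s‖ = ((n + 2 : ℕ) : ℝ) ^ 2 := by
      rw [← Complex.ofReal_natCast, Complex.norm_cpow_eq_rpow_re_of_pos hpos, hs]
      norm_num
    rw [h5]
    gcongr
    exact χ.norm_le_one _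
  have hpi : Real.pi ^ 2 ≤ 10 := by
    have h5 := Real.pi_lt_d2
    have h6 := Real.pi_pos
    nlinarith
  rw [h1]
  have h5 : ‖(1 : ℂ)‖ ≤ ‖1 + ∑' n, g (n + 2)‖ + ‖∑' n, g (n + 2)‖ := by
    calc ‖(1 : ℂ)‖ = ‖(1 + ∑' n, g (n + 2)) - ∑' n, g (n + 2)‖ := by rw [add_sub_cancel_right]
      _ ≤ _ := norm_sub_le _ _
  rw [norm_one] at h5
  linarith

lemma FF_lower (d : ℕ) [NeZero d] (χ : DirichletCharacter ℂ d) (s : ℂ) (hs : s.re = 2) :
    1 / 3 ≤ ‖FF d χ s‖ := by
  have h1 := LFunction_lower d χ s hs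
  by_cases h : χ = 1
  · subst h
    have hs1 : s ≠ 1 := by
      intro h; rw [h] at hs; norm_num at hs
    rw [FF_one_apply d s hs1, norm_mul]
    have h2 : 1 ≤ ‖s - 1‖ := by
      have h3 := Complex.abs_re_le_norm (s - 1)
      rw [Complex.sub_re, hs, Complex.one_re] at h3
      norm_num at h3
      exact h3
    nlinarith [norm_nonneg ((1 : DirichletCharacter ℂ d).LFunction s)]
  · rw [FF_of_ne d χ h]
    exact h1

end Pool.Agent.MC
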