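import Mathlib

set_option autoImplicit false

namespace Pool.Agent.MC

open Finset MeasureTheory Real

/-- The additive character `e(x) = exp(2 pi i x)`. -/
noncomputable def ee (x : ℝ) : ℂ := Complex.exp (2 * π * x * Complex.I)

lemma ee_add (x y : ℝ) : ee (x + y) = ee x * ee y := by
  unfold ee
  rw [← Complex.exp_add]
  congr 1
  push_cast
  ring

lemma ee_zero : ee 0 = 1 := by simp [ee]

lemma ee_int (n : ℤ) : ee (n : ℝ) = 1 := by
  unfold ee
  have := Complex.exp_int_mul_two_pi_mul_I n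
  rw [← this]
  congr 1
  push_cast
  ring

lemma ee_nat (n : ℕ) : ee (n : ℝ) = 1 := by
  have := ee_int (n : ℤ)
  simpa using this

lemma ee_add_int (x : ℝ) (n : ℤ) : ee (x + n) = ee x := by
  rw [ee_add, ee_int, mul_one]

lemma norm_ee (x : ℝ) : ‖ee x‖ = 1 := by
  unfold ee
  rw [show (2 * (π : ℂ) * (x : ℂ) * Complex.I) = ((2 * π * x : ℝ) : ℂ) * Complex.I by
    push_cast; ring]
  exact Complex.norm_exp_ofReal_mul_I _

lemma ee_ne_zero (x : ℝ) : ee x ≠ 0 := by
  unfold ee
  exact Complex.exp_ne_zero _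

lemma conj_ee (x : ℝ) : (starRingEnd ℂ) (ee x) = ee (-x) := by
  unfold ee
  rw [← Complex.exp_conj]
  congr 1
  rw [show (2 * (π : ℂ) * (x : ℂ) * Complex.I) = ((2 * π * x : ℝ) : ℂ) * Complex.I by
    push_cast; ring]
  rw [map_mul, Complex.conj_ofReal, Complex.conj_I]
  push_cast
  ring

lemma ee_neg (x : ℝ) : ee (-x) = (ee x)⁻¹ := by
  unfold ee
  rw [← Complex.exp_neg]
  congr 1
  push_cast
  ring

lemma ee_nat_mul (n : ℕ) (x : ℝ) : ee (n * x) = (ee x) ^ n := by
  unfold ee
  rw [← Complex.exp_nat_mul]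
  congr 1
  push_cast
  ring

lemma continuous_ee : Continuous ee := by
  unfold ee
  fun_prop

lemma integral_ee_int (k : ℤ) :
    ∫ x in (0:ℝ)..1, ee (k * x) = if k = 0 then 1 else 0 := by
  split_ifs with h
  · subst h
    simp [ee]
  · unfold ee
    have hc : (2 * (π : ℂ) * k * Complex.I) ≠ 0 := by
      have : (k : ℂ) ≠ 0 := by exact_mod_cast h
      have hpi : (π : ℂ) ≠ 0 := by exact_mod_cast Real.pi_ne_zero
      simp [this, hpi, Complex.I_ne_zero]
    have := @integral_exp_mul_complex 0 1 (2 * (π : ℂ) * k * Complex.I) hc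
    have h2 : ∀ x : ℝ, Complex.exp (2 * π * ((k * x : ℝ) : ℂ) * Complex.I)
        = Complex.exp ((2 * (π : ℂ) * k * Complex.I) * x) := by
      intro x
      congr 1
      push_cast
      ring
    simp_rw [h2]
    rw [this]
    have h3 : Complex.exp ((2 * (π : ℂ) * k * Complex.I) * ((1:ℝ):ℂ)) = 1 := by
      have := Complex.exp_int_mul_two_pi_mul_I k
      rw [← this]
      congr 1
      push_cast
      ring
    rw [h3]
    simp

/-- The exponential sum `S_f(α) = ∑_{n < B} f(n) e(n α)`. -/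
noncomputable def expSum (f : ℕ → ℂ) (B : ℕ) (α : ℝ) : ℂ :=
  ∑ n ∈ range B, f n * ee (n * α)

lemma continuous_expSum (f : ℕ → ℂ) (B : ℕ) : Continuous (expSum f B) := by
  unfold expSum
  refine continuous_finsetSum _ fun n _ => ?_
  refine continuous_const.mul (continuous_ee.comp ?_)
  fun_prop

lemma expSum_add_int (f : ℕ → ℂ) (B : ℕ) (α : ℝ) (k : ℤ) :
    expSum f B (α + k) = expSum f B α := by
  unfold expSum
  refine Finset.sum_congr rfl fun n _ => ?_
  have : (n : ℝ) * (α + k) = n * α + ((n * k : ℤ) : ℝ) := by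
    push_cast
    ring
  rw [this, ee_add_int]

lemma periodic_expSum (f : ℕ → ℂ) (B : ℕ) : Function.Periodic (expSum f B) 1 := by
  intro x
  have := expSum_add_int f B x 1
  simpa using this

lemma norm_sq_sum_eq {ι : Type*} (s : Finset ι) (z : ι → ℂ) :
    ((‖∑ i ∈ s, z i‖ ^ 2 : ℝ) : ℂ) = ∑ i ∈ s, ∑ j ∈ s, z i * (starRingEnd ℂ) (z j) := by
  rw [← Complex.normSq_eq_norm_sq, Complex.normSq_eq_conj_mul_self, mul_comm, map_sum,
    Finset.sum_mul_sum]

/-- Parseval for exponential sums. -/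
lemma parseval (f : ℕ → ℂ) (B : ℕ) :
    ∫ x in (0:ℝ)..1, ‖expSum f B x‖ ^ 2 = ∑ n ∈ range B, ‖f n‖ ^ 2 := by
  have hcomplex : ((∫ x in (0:ℝ)..1, ‖expSum f B x‖ ^ 2 : ℝ) : ℂ)
      = ((∑ n ∈ range B, ‖f n‖ ^ 2 : ℝ) : ℂ) := by
    rw [← intervalIntegral.integral_ofReal]
    have h1 : ∀ x : ℝ, ((‖expSum f B x‖ ^ 2 : ℝ) : ℂ)
        = ∑ i ∈ range B, ∑ j ∈ range B, (f i * (starRingEnd ℂ) (f j)) * ee (((i : ℤ) - (j : ℤ) : ℤ) * x) := by
      intro x
      unfold expSum
      rw [norm_sq_sum_eq]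
      refine Finset.sum_congr rfl fun i _ => Finset.sum_congr rfl fun j _ => ?_
      rw [map_mul, conj_ee]
      have : ee (((i : ℤ) - (j : ℤ) : ℤ) * x) = ee (i * x) * ee (-(j * x)) := by
        rw [← ee_add]
        congr 1
        push_cast
        ring
      rw [this]
      ring
    have h2 : ∫ x in (0:ℝ)..1, ((‖expSum f B x‖ ^ 2 : ℝ) : ℂ)
        = ∑ i ∈ range B, ∑ j ∈ range B, (f i * (starRingEnd ℂ) (f j)) *
            ∫ x in (0:ℝ)..1, ee (((i : ℤ) - (j : ℤ) : ℤ) * x) := by
      simp_rw [h1]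
      rw [intervalIntegral.integral_finsetSum]
      · refine Finset.sum_congr rfl fun i _ => ?_
        rw [intervalIntegral.integral_finsetSum]
        · refine Finset.sum_congr rfl fun j _ => ?_
          rw [intervalIntegral.integral_const_mul]
        · intro j _
          refine Continuous.intervalIntegrable ?_ _ _
          exact continuous_const.mul (continuous_ee.comp (by fun_prop))
      · intro i _
        refine Continuous.intervalIntegrable ?_ _ _
        refine continuous_finsetSum _ fun j _ => ?_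
        exact continuous_const.mul (continuous_ee.comp (by fun_prop))
    rw [h2]
    simp_rw [integral_ee_int]
    push_cast
    refine Finset.sum_congr rfl fun i hi => ?_
    rw [Finset.sum_eq_single i]
    · simp only [sub_self, if_true, mul_one]
      rw [Complex.mul_conj, Complex.normSq_eq_norm_sq]
      push_cast
      rfl
    · intro j _ hj
      have : ((i : ℤ) - (j : ℤ)) ≠ 0 := by
        intro h
        apply hj
        omega
      simp [this]
    · intro h
      exact absurd hi h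
  exact_mod_cast hcomplex

lemma integral_norm_sq_shift (f : ℕ → ℂ) (B : ℕ) (u : ℝ) :
    ∫ x in u..(u + 1), ‖expSum f B x‖ ^ 2 = ∑ n ∈ range B, ‖f n‖ ^ 2 := by
  have hper : Function.Periodic (fun x => ‖expSum f B x‖ ^ 2) 1 := by
    intro x
    simp only [periodic_expSum f B x]
  have := hper.intervalIntegral_add_eq u 0
  rw [this, zero_add, parseval]

end Pool.Agent.MC
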