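import Mathlib
import Pool.Agent.Lib.MP_9cfc0a_nt.Base

set_option autoImplicit false

namespace Pool.Agent.MC

open Finset MeasureTheory Real

/-- representatives `0 ≤ b < q` of the reduced residues mod `q` -/
def frac (q : ℕ) : Finset ℕ := (range q).filter (fun b => Nat.Coprime b q)

/-- representatives `1 ≤ b ≤ q` of the reduced residues mod `q` -/
def frac' (q : ℕ) : Finset ℕ := (Icc 1 q).filter (fun b => Nat.Coprime b q)

lemma frac_one : frac 1 = {0} := by decide
lemma frac'_one : frac' 1 = {1} := by decide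

lemma frac_eq_frac' (q : ℕ) (hq : 2 ≤ q) : frac q = frac' q := by
  ext b
  simp only [frac, frac', Finset.mem_filter, Finset.mem_range, Finset.mem_Icc]
  constructor
  · rintro ⟨h1, h2⟩
    refine ⟨⟨?_, h1.le⟩, h2⟩
    by_contra h
    have : b = 0 := by omega
    subst this
    rw [Nat.coprime_zero_left] at h2
    omega
  · rintro ⟨⟨h1, h2⟩, h3⟩
    refine ⟨?_, h3⟩
    rcases Nat.lt_or_eq_of_le h2 with h | h
    · exact h
    · subst h
      rw [Nat.coprime_self] at h3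
      omega

lemma sum_frac_eq {G : ℝ → ℝ} (hG : Function.Periodic G 1) (q : ℕ) :
    ∑ b ∈ frac q, G ((b : ℝ) / q) = ∑ b ∈ frac' q, G ((b : ℝ) / q) := by
  rcases Nat.lt_or_ge q 2 with h | h
  · interval_cases q
    · simp [frac, frac']
    · rw [frac_one, frac'_one]
      have := hG 0
      simp only [zero_add] at this
      simp [this]
  · rw [frac_eq_frac' q h]

/-- `∑* |S(b/q + β)|^2` over reduced fractions with denominator `q` -/
noncomputable def arcSum (f : ℕ → ℂ) (B q : ℕ) (β : ℝ) : ℝ :=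
  ∑ b ∈ frac q, ‖expSum f B ((b : ℝ) / q + β)‖ ^ 2

lemma arcSum_nonneg (f : ℕ → ℂ) (B q : ℕ) (β : ℝ) : 0 ≤ arcSum f B q β :=
  Finset.sum_nonneg fun _ _ => by positivity

lemma continuous_arcSum (f : ℕ → ℂ) (B q : ℕ) : Continuous (arcSum f B q) := by
  unfold arcSum
  refine continuous_finsetSum _ fun b _ => ?_
  exact ((continuous_expSum f B).comp (by fun_prop)).norm.pow 2

lemma arcSum_eq' (f : ℕ → ℂ) (B q : ℕ) (β : ℝ) :
    arcSum f B q β = ∑ b ∈ frac' q, ‖expSum f B ((b : ℝ) / q + β)‖ ^ 2 := by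
  unfold arcSum
  refine sum_frac_eq (G := fun x => ‖expSum f B (x + β)‖ ^ 2) ?_ q
  intro x
  have : x + 1 + β = (x + β) + 1 := by ring
  simp only [this, periodic_expSum f B (x + β)]

/-- covering bound for nonnegative continuous functions -/
lemma integral_le_sum_cover {ι : Type*} (F : ℝ → ℝ) (hF : Continuous F) (hF0 : ∀ x, 0 ≤ F x)
    (u v : ℝ) (huv : u ≤ v) (s : Finset ι) (c T : ι → ℝ) (hT : ∀ i ∈ s, 0 ≤ T i)
    (hcov : ∀ x ∈ Set.Ioo u v, ∃ i ∈ s, |x - c i| ≤ T i) :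
    ∫ x in u..v, F x ≤ ∑ i ∈ s, ∫ β in (-(T i))..(T i), F (c i + β) := by
  have h1 : ∫ x in u..v, F x = ∫ x, (Set.Ioo u v).indicator F x := by
    rw [intervalIntegral.integral_of_le huv, integral_Ioc_eq_integral_Ioo,
      integral_indicator measurableSet_Ioo]
  have h2 : ∀ i ∈ s, ∫ β in (-(T i))..(T i), F (c i + β)
      = ∫ x, (Set.Icc (c i - T i) (c i + T i)).indicator F x := by
    intro i hi
    rw [intervalIntegral.integral_comp_add_left (fun x => F x) (c i), integral_indicator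
      measurableSet_Icc, intervalIntegral.integral_of_le (by linarith [hT i hi]),
      integral_Icc_eq_integral_Ioc]
    rfl
  rw [h1, Finset.sum_congr rfl h2]
  have hint : ∀ i ∈ s, Integrable ((Set.Icc (c i - T i) (c i + T i)).indicator F) := by
    intro i _
    rw [integrable_indicator_iff measurableSet_Icc]
    exact hF.continuousOn.integrableOn_Icc
  rw [← integral_finsetSum _ hint]
  refine integral_mono ?_ (integrable_finsetSum _ hint) ?_
  · rw [integrable_indicator_iff measurableSet_Ioo]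
    exact (hF.continuousOn.integrableOn_Icc).mono_set Set.Ioo_subset_Icc_self
  · intro x
    by_cases hx : x ∈ Set.Ioo u v
    · obtain ⟨i, hi, hxi⟩ := hcov x hx
      rw [Set.indicator_of_mem hx]
      have hmem : x ∈ Set.Icc (c i - T i) (c i + T i) := by
        rw [abs_le] at hxi
        constructor <;> linarith [hxi.1, hxi.2]
      calc F x = (Set.Icc (c i - T i) (c i + T i)).indicator F x :=
            (Set.indicator_of_mem hmem F).symm
        _ ≤ ∑ j ∈ s, (Set.Icc (c j - T j) (c j + T j)).indicator F x :=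
            Finset.single_le_sum (f := fun j => (Set.Icc (c j - T j) (c j + T j)).indicator F x)
              (fun j _ => Set.indicator_nonneg (fun y _ => hF0 y) x) hi
    · rw [Set.indicator_of_notMem hx]
      exact Finset.sum_nonneg fun j _ => Set.indicator_nonneg (fun y _ => hF0 y) x

/-- packing bound for nonnegative continuous functions -/
lemma sum_le_integral_packing {ι : Type*} (F : ℝ → ℝ) (hF : Continuous F) (hF0 : ∀ x, 0 ≤ F x)
    (u v : ℝ) (huv : u ≤ v) (s : Finset ι) (c : ι → ℝ) (T : ℝ) (hT : 0 ≤ T)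
    (hsep : ∀ i ∈ s, ∀ j ∈ s, i ≠ j → 2 * T ≤ |c i - c j|)
    (hin : ∀ i ∈ s, u ≤ c i - T ∧ c i + T ≤ v) :
    ∑ i ∈ s, ∫ β in (-T)..T, F (c i + β) ≤ ∫ x in u..v, F x := by
  classical
  have h2 : ∀ i ∈ s, ∫ β in (-T)..T, F (c i + β)
      = ∫ x in Set.Ioc (c i - T) (c i + T), F x := by
    intro i hi
    rw [intervalIntegral.integral_comp_add_left (fun x => F x) (c i),
      intervalIntegral.integral_of_le (by linarith)]
    rfl
  rw [Finset.sum_congr rfl h2, ← integral_biUnion_finset]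
  · rw [intervalIntegral.integral_of_le huv]
    refine setIntegral_mono_set ?_ ?_ ?_
    · exact (hF.continuousOn.integrableOn_Icc).mono_set Set.Ioc_subset_Icc_self
    · filter_upwards with x
      exact hF0 x
    · refine Filter.Eventually.of_forall ?_
      intro x hx
      have hx' : x ∈ ⋃ i ∈ s, Set.Ioc (c i - T) (c i + T) := hx
      simp only [Set.mem_iUnion, exists_prop] at hx'
      obtain ⟨i, hi, hxi⟩ := hx'
      exact ⟨lt_of_le_of_lt (hin i hi).1 hxi.1, le_trans hxi.2 (hin i hi).2⟩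
  · intro i _
    exact measurableSet_Ioc
  · intro i hi j hj hij
    rw [Function.onFun, Set.disjoint_left]
    rintro x ⟨h1, h2⟩ ⟨h3, h4⟩
    have h := hsep i hi j hj hij
    rcases le_abs.mp h with h | h <;> linarith
  · intro i _
    exact (hF.continuousOn.integrableOn_Icc).mono_set Set.Ioc_subset_Icc_self

/-- reduced fractions in `(0,1]` with denominators at most `Q` -/
def fareySet (Q : ℕ) : Finset (Σ _ : ℕ, ℕ) := (Icc 1 Q).sigma fun q => frac' q

lemma mem_fareySet {Q : ℕ} {i : Σ _ : ℕ, ℕ} :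
    i ∈ fareySet Q ↔ (1 ≤ i.1 ∧ i.1 ≤ Q) ∧ (1 ≤ i.2 ∧ i.2 ≤ i.1) ∧ Nat.Coprime i.2 i.1 := by
  simp [fareySet, frac', Finset.mem_sigma, Finset.mem_filter, Finset.mem_Icc]

lemma farey_sep {Q : ℕ} {i j : Σ _ : ℕ, ℕ} (hi : i ∈ fareySet Q) (hj : j ∈ fareySet Q)
    (hij : i ≠ j) : 1 / (Q : ℝ) ^ 2 ≤ |(i.2 : ℝ) / i.1 - (j.2 : ℝ) / j.1| := by
  rw [mem_fareySet] at hi hj
  obtain ⟨⟨hi1, hi2⟩, ⟨hi3, hi4⟩, hi5⟩ := hi
  obtain ⟨⟨hj1, hj2⟩, ⟨hj3, hj4⟩, hj5⟩ := hj
  have hqi : (0 : ℝ) < i.1 := by exact_mod_cast hi1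
  have hqj : (0 : ℝ) < j.1 := by exact_mod_cast hj1
  have hne : (i.2 : ℤ) * j.1 - j.2 * i.1 ≠ 0 := by
    intro h
    have h' : i.2 * j.1 = j.2 * i.1 := by
      have : (i.2 : ℤ) * j.1 = j.2 * i.1 := by linarith
      exact_mod_cast this
    have hd1 : i.1 ∣ j.1 := by
      have : i.1 ∣ i.2 * j.1 := ⟨j.2, by rw [h']; ring⟩
      exact (Nat.Coprime.symm hi5).dvd_of_dvd_mul_left this
    have hd2 : j.1 ∣ i.1 := by
      have : j.1 ∣ j.2 * i.1 := ⟨i.2, by rw [← h']; ring⟩
      exact (Nat.Coprime.symm hj5).dvd_of_dvd_mul_left this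
    have h1 : i.1 = j.1 := Nat.dvd_antisymm hd1 hd2
    have h2 : i.2 = j.2 := by
      rw [h1] at h'
      exact Nat.eq_of_mul_eq_mul_right (by omega) h'
    exact hij (Sigma.ext h1 (heq_of_eq h2))
  have habs : (1 : ℝ) ≤ |(i.2 : ℝ) * j.1 - j.2 * i.1| := by
    have : (1 : ℤ) ≤ |(i.2 : ℤ) * j.1 - j.2 * i.1| := Int.one_le_abs hne
    exact_mod_cast this
  have heq : (i.2 : ℝ) / i.1 - (j.2 : ℝ) / j.1 = ((i.2 : ℝ) * j.1 - j.2 * i.1) / (i.1 * j.1) := by
    field_simp
  rw [heq, abs_div, abs_of_pos (by positivity : (0 : ℝ) < (i.1 : ℝ) * j.1)]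
  have hQi : (i.1 : ℝ) ≤ Q := by exact_mod_cast hi2
  have hQj : (j.1 : ℝ) ≤ Q := by exact_mod_cast hj2
  have hQ : (0 : ℝ) < Q := lt_of_lt_of_le hqi hQi
  rw [div_le_div_iff₀ (by positivity) (by positivity)]
  have : (i.1 : ℝ) * j.1 ≤ Q ^ 2 := by
    rw [sq]
    exact mul_le_mul hQi hQj hqj.le hQ.le
  nlinarith

/-- The arcs `|α - b/q| ≤ T` with `q ≤ Q` and `2 T ≤ 1/Q^2` do not overlap. -/
lemma sum_arcs_le (f : ℕ → ℂ) (B Q : ℕ) (hQ : 1 ≤ Q) (T : ℝ) (hT0 : 0 ≤ T)
    (hT : 2 * T ≤ 1 / (Q : ℝ) ^ 2) :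
    ∑ q ∈ Icc 1 Q, ∫ β in (-T)..T, arcSum f B q β ≤ ∑ n ∈ range B, ‖f n‖ ^ 2 := by
  have hQR : (1 : ℝ) ≤ Q := by exact_mod_cast hQ
  set F : ℝ → ℝ := fun x => ‖expSum f B x‖ ^ 2 with hF
  have hFc : Continuous F := (continuous_expSum f B).norm.pow 2
  have hF0 : ∀ x, 0 ≤ F x := fun x => by simp only [hF]; positivity
  have h1 : ∑ q ∈ Icc 1 Q, ∫ β in (-T)..T, arcSum f B q β
      = ∑ i ∈ fareySet Q, ∫ β in (-T)..T, F ((i.2 : ℝ) / i.1 + β) := by
    unfold fareySet
    rw [Finset.sum_sigma]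
    refine Finset.sum_congr rfl fun q _ => ?_
    simp_rw [arcSum_eq']
    rw [intervalIntegral.integral_finsetSum]
    intro b _
    exact (hFc.comp (by fun_prop : Continuous fun β : ℝ => (b : ℝ) / q + β)).intervalIntegrable _ _
  rw [h1, ← integral_norm_sq_shift f B T]
  refine sum_le_integral_packing F hFc hF0 T (T + 1) (by linarith) (fareySet Q)
    (fun i => (i.2 : ℝ) / i.1) T hT0 ?_ ?_
  · intro i hi j hj hij
    exact hT.trans (farey_sep hi hj hij)
  · intro i hi
    rw [mem_fareySet] at hi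
    obtain ⟨⟨hi1, hi2⟩, ⟨hi3, hi4⟩, hi5⟩ := hi
    have hqi : (0 : ℝ) < i.1 := by exact_mod_cast hi1
    have hb1 : (1 : ℝ) ≤ i.2 := by exact_mod_cast hi3
    have hb2 : (i.2 : ℝ) ≤ i.1 := by exact_mod_cast hi4
    have hQi : (i.1 : ℝ) ≤ Q := by exact_mod_cast hi2
    have hlow : 1 / (Q : ℝ) ≤ (i.2 : ℝ) / i.1 := by
      rw [div_le_div_iff₀ (by positivity) hqi]
      nlinarith
    have hup : (i.2 : ℝ) / i.1 ≤ 1 := by
      rw [div_le_one hqi]
      exact hb2
    have hQ2 : 1 / (Q : ℝ) ^ 2 ≤ 1 / Q := by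
      apply one_div_le_one_div_of_le (by positivity)
      nlinarith
    constructor <;> linarith

/-- The Farey arcs of order `N` cover the circle. -/
lemma le_sum_farey_arcs (f : ℕ → ℂ) (B N : ℕ) (hN : 1 ≤ N) :
    ∑ n ∈ range B, ‖f n‖ ^ 2
      ≤ ∑ q ∈ Icc 1 N, ∫ β in (-(1 / ((q : ℝ) * N)))..(1 / ((q : ℝ) * N)), arcSum f B q β := by
  have hNR : (1 : ℝ) ≤ N := by exact_mod_cast hN
  set F : ℝ → ℝ := fun x => ‖expSum f B x‖ ^ 2 with hF
  have hFc : Continuous F := (continuous_expSum f B).norm.pow 2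
  have hF0 : ∀ x, 0 ≤ F x := fun x => by simp only [hF]; positivity
  have h1 : ∑ q ∈ Icc 1 N, ∫ β in (-(1 / ((q : ℝ) * N)))..(1 / ((q : ℝ) * N)), arcSum f B q β
      = ∑ i ∈ fareySet N, ∫ β in (-(1 / ((i.1 : ℝ) * N)))..(1 / ((i.1 : ℝ) * N)),
          F ((i.2 : ℝ) / i.1 + β) := by
    unfold fareySet
    rw [Finset.sum_sigma]
    refine Finset.sum_congr rfl fun q _ => ?_
    simp_rw [arcSum_eq']
    rw [intervalIntegral.integral_finsetSum]
    intro b _
    exact (hFc.comp (by fun_prop : Continuous fun β : ℝ => (b : ℝ) / q + β)).intervalIntegrable _ _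
  rw [h1, ← integral_norm_sq_shift f B (1 / ((N : ℝ) + 1))]
  refine integral_le_sum_cover F hFc hF0 _ _ (by linarith) (fareySet N)
    (fun i => (i.2 : ℝ) / i.1) (fun i => 1 / ((i.1 : ℝ) * N)) ?_ ?_
  · intro i _
    positivity
  · intro x hx
    obtain ⟨r, hr, hden⟩ := Real.exists_rat_abs_sub_le_and_den_le x (show 0 < N by omega)
    have hqpos : (0 : ℝ) < r.den := by exact_mod_cast r.pos
    have hq1 : (1 : ℝ) ≤ r.den := by exact_mod_cast r.pos
    have hqN : (r.den : ℝ) ≤ N := by exact_mod_cast hden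
    have hrR : (r : ℝ) = (r.num : ℝ) / r.den := by
      exact_mod_cast (Rat.num_div_den r).symm
    have hN1 : (0 : ℝ) < (N : ℝ) + 1 := by linarith
    have hsmall : 1 / (((N : ℝ) + 1) * r.den) ≤ 1 / ((N : ℝ) + 1) := by
      apply one_div_le_one_div_of_le hN1
      nlinarith
    rw [abs_le] at hr
    -- numerator is at least one
    have hnum1 : 1 ≤ r.num := by
      by_contra hcon
      have hle : r.num ≤ 0 := by omega
      have : (r : ℝ) ≤ 0 := by exact_mod_cast Rat.num_nonpos.mp hle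
      have := hx.1
      linarith [hr.2]
    -- numerator is at most the denominator
    have hnum2 : r.num ≤ r.den := by
      by_contra hcon
      have hge : (r.den : ℤ) + 1 ≤ r.num := by omega
      have hgeR : (r.den : ℝ) + 1 ≤ r.num := by exact_mod_cast hge
      have h3 : 1 + 1 / (r.den : ℝ) ≤ r := by
        rw [hrR, le_div_iff₀ hqpos]
        field_simp
        linarith
      have h4 : x < 1 / ((N : ℝ) + 1) + 1 := hx.2
      have h5 : 1 / (((N : ℝ) + 1) * r.den) + 1 / ((N : ℝ) + 1) ≤ 1 / (r.den : ℝ) := by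
        rw [div_add_div _ _ (by positivity) (by positivity), div_le_div_iff₀ (by positivity)
          (by positivity)]
        nlinarith [mul_pos hN1 hqpos, mul_pos hN1 hN1]
      linarith [hr.1]
    obtain ⟨b, hb⟩ : ∃ b : ℕ, (b : ℤ) = r.num := ⟨r.num.toNat, by omega⟩
    refine ⟨⟨r.den, b⟩, ?_, ?_⟩
    · rw [mem_fareySet]
      refine ⟨⟨r.pos, hden⟩, ⟨show 1 ≤ b by omega, show b ≤ r.den by omega⟩, ?_⟩
      have := r.reduced
      rw [← hb] at this
      simpa using this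
    · have hbR : (b : ℝ) = r.num := by exact_mod_cast hb
      simp only [hbR, ← hrR]
      rw [abs_le]
      have h6 : 1 / (((N : ℝ) + 1) * r.den) ≤ 1 / ((r.den : ℝ) * N) := by
        apply one_div_le_one_div_of_le (by positivity)
        nlinarith
      constructor <;> linarith [hr.1, hr.2]

end Pool.Agent.MC
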