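import Mathlib
import Pool.Agent.Lib.MP_9cfc0a_nt.Farey

set_option autoImplicit false

namespace Pool.Agent.MC

open Finset MeasureTheory Real

lemma ee_div_pow (k q : ℕ) : ee ((k : ℝ) / q) = ee (1 / (q : ℝ)) ^ k := by
  rw [← ee_nat_mul]
  congr 1
  ring

lemma isPrimitiveRoot_ee (q : ℕ) (hq : q ≠ 0) : IsPrimitiveRoot (ee (1 / (q : ℝ))) q := by
  have h := Complex.isPrimitiveRoot_exp q hq
  have : ee (1 / (q : ℝ)) = Complex.exp (2 * π * Complex.I / q) := by
    unfold ee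
    congr 1
    push_cast
    ring
  rw [this]
  exact h

/-- complete sum of the additive character -/
lemma sum_ee_range (q : ℕ) (hq : q ≠ 0) (k : ℤ) :
    ∑ a ∈ range q, ee ((a : ℝ) * k / q) = if (q : ℤ) ∣ k then (q : ℂ) else 0 := by
  have hqR : (q : ℝ) ≠ 0 := by exact_mod_cast hq
  split_ifs with h
  · obtain ⟨m, rfl⟩ := h
    have : ∀ a ∈ range q, ee ((a : ℝ) * ((q * m : ℤ) : ℝ) / q) = 1 := by
      intro a _
      have : (a : ℝ) * ((q * m : ℤ) : ℝ) / q = ((a * m : ℤ) : ℝ) := by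
        push_cast
        field_simp
      rw [this, ee_int]
    rw [Finset.sum_congr rfl this]
    simp
  · set z : ℂ := ee ((k : ℝ) / q) with hz
    have hzq : z ^ q = 1 := by
      rw [hz, ← ee_nat_mul]
      have : (q : ℝ) * ((k : ℝ) / q) = (k : ℝ) := by field_simp
      rw [this, ee_int]
    have hz1 : z ≠ 1 := by
      intro h1
      apply h
      have hprim := isPrimitiveRoot_ee q hq
      have hzz : z = ee (1 / (q : ℝ)) ^ k := by
        rw [hz]
        unfold ee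
        rw [← Complex.exp_int_mul]
        congr 1
        push_cast
        ring
      rw [hzz] at h1
      exact (hprim.zpow_eq_one_iff_dvd k).mp h1
    have hsum : ∑ a ∈ range q, ee ((a : ℝ) * k / q) = ∑ a ∈ range q, z ^ a := by
      refine Finset.sum_congr rfl fun a _ => ?_
      rw [hz, ← ee_nat_mul]
      congr 1
      ring
    rw [hsum]
    have := geom_sum_mul z q
    rw [hzq, sub_self] at this
    rcases mul_eq_zero.mp this with h2 | h2
    · exact h2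
    · exact absurd (sub_eq_zero.mp h2) hz1

lemma sum_ee_Icc_prime (l : ℕ) (hl : l.Prime) (n : ℕ) (hn : ¬ l ∣ n) :
    ∑ c ∈ Icc 1 (l - 1), ee ((n : ℝ) * ((c : ℝ) / l)) = -1 := by
  have h := sum_ee_range l hl.ne_zero (n : ℤ)
  have hnd : ¬ ((l : ℤ) ∣ (n : ℤ)) := by
    intro hd
    exact hn (by exact_mod_cast hd)
  rw [if_neg hnd] at h
  have hsplit : range l = insert 0 (Icc 1 (l - 1)) := by
    ext x
    simp only [Finset.mem_range, Finset.mem_insert, Finset.mem_Icc]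
    have := hl.pos
    omega
  rw [hsplit, Finset.sum_insert (by simp)] at h
  simp only [Nat.cast_zero, zero_mul, zero_div, ee_zero, Int.cast_natCast] at h
  have h2 : ∑ c ∈ Icc 1 (l - 1), ee ((n : ℝ) * ((c : ℝ) / l))
      = ∑ x ∈ Icc 1 (l - 1), ee ((x : ℝ) * n / l) := by
    refine Finset.sum_congr rfl fun c _ => ?_
    congr 1
    ring
  rw [h2]
  linear_combination h

lemma expSum_twist (f : ℕ → ℂ) (B l : ℕ) (hl : l.Prime) (hf : ∀ n, l ∣ n → f n = 0) (α : ℝ) :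
    expSum f B α = - ∑ c ∈ Icc 1 (l - 1), expSum f B (α + (c : ℝ) / l) := by
  unfold expSum
  rw [Finset.sum_comm, ← Finset.sum_neg_distrib]
  refine Finset.sum_congr rfl fun n _ => ?_
  by_cases hn : l ∣ n
  · simp [hf n hn]
  · have h := sum_ee_Icc_prime l hl n hn
    have h2 : ∑ c ∈ Icc 1 (l - 1), f n * ee ((n : ℝ) * (α + (c : ℝ) / l))
        = f n * ee (n * α) * ∑ c ∈ Icc 1 (l - 1), ee ((n : ℝ) * ((c : ℝ) / l)) := by
      rw [Finset.mul_sum]
      refine Finset.sum_congr rfl fun c _ => ?_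
      rw [mul_add, ee_add]
      ring
    rw [h2, h]
    ring

lemma norm_sq_expSum_twist (f : ℕ → ℂ) (B l : ℕ) (hl : l.Prime) (hf : ∀ n, l ∣ n → f n = 0)
    (α : ℝ) :
    ‖expSum f B α‖ ^ 2 ≤ ((l : ℝ) - 1) * ∑ c ∈ Icc 1 (l - 1), ‖expSum f B (α + (c : ℝ) / l)‖ ^ 2 := by
  rw [expSum_twist f B l hl hf α, norm_neg]
  have h1 : ‖∑ c ∈ Icc 1 (l - 1), expSum f B (α + (c : ℝ) / l)‖ ^ 2
      ≤ (∑ c ∈ Icc 1 (l - 1), ‖expSum f B (α + (c : ℝ) / l)‖) ^ 2 := by
    gcongr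
    exact norm_sum_le _ _
  refine h1.trans ?_
  have h2 := sq_sum_le_card_mul_sum_sq (s := Icc 1 (l - 1))
    (f := fun c : ℕ => ‖expSum f B (α + (c : ℝ) / l)‖)
  have h3 : ((#(Icc 1 (l - 1)) : ℕ) : ℝ) = (l : ℝ) - 1 := by
    rw [Nat.card_Icc]
    have := hl.one_lt
    have h4 : l - 1 + 1 - 1 = l - 1 := by omega
    rw [h4, Nat.cast_sub (by omega)]
    simp
  rw [h3] at h2
  exact h2

lemma expSum_nat_mod (f : ℕ → ℂ) (B k m : ℕ) (hm : m ≠ 0) (β : ℝ) :
    expSum f B (((k % m : ℕ) : ℝ) / m + β) = expSum f B ((k : ℝ) / m + β) := by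
  have hmR : (m : ℝ) ≠ 0 := by exact_mod_cast hm
  have hk : (k : ℝ) = ((k % m : ℕ) : ℝ) + m * ((k / m : ℕ) : ℝ) := by
    exact_mod_cast (Nat.mod_add_div k m).symm
  have : (k : ℝ) / m + β = (((k % m : ℕ) : ℝ) / m + β) + ((((k / m : ℕ) : ℤ)) : ℝ) := by
    rw [hk, Int.cast_natCast]
    field_simp
    ring
  rw [this, expSum_add_int]

/-- The twist inequality `A_q(β) ≤ (ℓ - 1) A_{qℓ}(β)`. -/
lemma arcSum_twist (f : ℕ → ℂ) (B q l : ℕ) (hq : 1 ≤ q) (hl : l.Prime) (hlq : ¬ l ∣ q)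
    (hf : ∀ n, l ∣ n → f n = 0) (β : ℝ) :
    arcSum f B q β ≤ ((l : ℝ) - 1) * arcSum f B (q * l) β := by
  have hl1 : (1 : ℝ) ≤ l := by exact_mod_cast hl.one_lt.le
  have hqR : (q : ℝ) ≠ 0 := by positivity
  have hlR : (l : ℝ) ≠ 0 := by positivity
  have hcop : Nat.Coprime l q := (Nat.Prime.coprime_iff_not_dvd hl).mpr hlq
  have h1 : arcSum f B q β
      ≤ ∑ b ∈ frac q, ((l : ℝ) - 1) * ∑ c ∈ Icc 1 (l - 1),
        ‖expSum f B ((b : ℝ) / q + β + (c : ℝ) / l)‖ ^ 2 := by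
    unfold arcSum
    exact Finset.sum_le_sum fun b _ => norm_sq_expSum_twist f B l hl hf _
  refine h1.trans ?_
  rw [← Finset.mul_sum]
  refine mul_le_mul_of_nonneg_left ?_ (by linarith)
  rw [← Finset.sum_product']
  set φ : ℕ × ℕ → ℕ := fun x => (x.1 * l + x.2 * q) % (q * l) with hφ
  have hmaps : ∀ x ∈ frac q ×ˢ Icc 1 (l - 1), φ x ∈ frac (q * l) := by
    intro x hx
    simp only [Finset.mem_product, frac, Finset.mem_filter, Finset.mem_range, Finset.mem_Icc] at hx ⊢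
    obtain ⟨⟨hx1, hx2⟩, hx3, hx4⟩ := hx
    refine ⟨Nat.mod_lt _ (Nat.mul_pos (by omega) hl.pos), ?_⟩
    simp only [hφ]
    rw [Nat.coprime_iff_gcd_eq_one, ← Nat.gcd_rec, ← Nat.coprime_iff_gcd_eq_one]
    have hc : ¬ l ∣ x.2 := by
      intro hd
      have := Nat.le_of_dvd (by omega) hd
      have := hl.pos
      omega
    have e1 : Nat.Coprime (x.1 * l + x.2 * q) q := by
      rw [Nat.coprime_add_mul_right_left]
      exact Nat.Coprime.mul_left hx2 hcop
    have e2 : Nat.Coprime (x.1 * l + x.2 * q) l := by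
      rw [Nat.coprime_mul_right_add_left]
      exact Nat.Coprime.mul_left ((Nat.Prime.coprime_iff_not_dvd hl).mpr hc).symm hcop.symm
    exact (Nat.Coprime.mul_right e1 e2).symm
  have hinj : Set.InjOn φ (frac q ×ˢ Icc 1 (l - 1) : Finset (ℕ × ℕ)) := by
    intro x hx y hy hxy
    rw [Finset.mem_coe, Finset.mem_product] at hx hy
    simp only [frac, Finset.mem_filter, Finset.mem_range, Finset.mem_Icc] at hx hy
    obtain ⟨⟨hx1, hx2⟩, hx3, hx4⟩ := hx
    obtain ⟨⟨hy1, hy2⟩, hy3, hy4⟩ := hy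
    have hmod : x.1 * l + x.2 * q ≡ y.1 * l + y.2 * q [MOD q * l] := hxy
    have hm1 : x.1 * l + x.2 * q ≡ y.1 * l + y.2 * q [MOD q] := hmod.of_mul_right l
    have hm2 : x.1 * l + x.2 * q ≡ y.1 * l + y.2 * q [MOD l] := hmod.of_mul_left q
    have hb : x.1 ≡ y.1 [MOD q] := by
      have h3 : x.1 * l ≡ y.1 * l [MOD q] := by
        have ha : x.1 * l + x.2 * q ≡ x.1 * l [MOD q] := by
          simp [Nat.ModEq]
        have hb : y.1 * l + y.2 * q ≡ y.1 * l [MOD q] := by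
          simp [Nat.ModEq]
        exact ha.symm.trans (hm1.trans hb)
      exact Nat.ModEq.cancel_right_of_coprime hcop.symm h3
    have hc : x.2 ≡ y.2 [MOD l] := by
      have h3 : x.2 * q ≡ y.2 * q [MOD l] := by
        have ha : x.1 * l + x.2 * q ≡ x.2 * q [MOD l] := by
          simp [Nat.ModEq]
        have hb : y.1 * l + y.2 * q ≡ y.2 * q [MOD l] := by
          simp [Nat.ModEq]
        exact ha.symm.trans (hm2.trans hb)
      exact Nat.ModEq.cancel_right_of_coprime hcop h3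
    have hb' : x.1 = y.1 := Nat.ModEq.eq_of_lt_of_lt hb hx1 hy1
    have hlpos := hl.pos
    have hc' : x.2 = y.2 := Nat.ModEq.eq_of_lt_of_lt hc (by omega) (by omega)
    exact Prod.ext hb' hc'
  have hval : ∀ x ∈ frac q ×ˢ Icc 1 (l - 1),
      ‖expSum f B ((x.1 : ℝ) / q + β + (x.2 : ℝ) / l)‖ ^ 2
        = ‖expSum f B (((φ x : ℕ) : ℝ) / ((q * l : ℕ) : ℝ) + β)‖ ^ 2 := by
    intro x _
    simp only [hφ]
    rw [expSum_nat_mod f B _ (q * l) (Nat.mul_ne_zero (by omega) hl.ne_zero)]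
    congr 3
    push_cast
    field_simp
    ring
  rw [Finset.sum_congr rfl hval]
  unfold arcSum
  rw [← Finset.sum_image (g := φ) (f := fun k => ‖expSum f B (((k : ℕ) : ℝ) / ((q * l : ℕ) : ℝ) + β)‖ ^ 2)
    hinj]
  refine Finset.sum_le_sum_of_subset_of_nonneg ?_ (fun _ _ _ => by positivity)
  intro k hk
  rw [Finset.mem_image] at hk
  obtain ⟨x, hx, rfl⟩ := hk
  exact hmaps x hx

end Pool.Agent.MC
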