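import Mathlib
import Pool.Agent.Lib.MP_9cfc0a_nt.Twist

set_option autoImplicit false

namespace Pool.Agent.MC

open Finset MeasureTheory Real

/-- the primes `ℓ > D` with `ℓ * D ≤ Q` -/
def twPrimes (D Q : ℕ) : Finset ℕ := (Icc 1 Q).filter (fun l => l.Prime ∧ D < l ∧ D * l ≤ Q)

/-- Small denominators carry a small part of the mass, for `f` supported on integers free of
small prime factors. -/
lemma small_arcs (f : ℕ → ℂ) (B D Q : ℕ) (hD : 1 ≤ D) (hDQ : D ≤ Q)
    (hf : ∀ l n, l.Prime → l ≤ Q → l ∣ n → f n = 0) (T : ℝ) (hT0 : 0 ≤ T)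
    (hT : 2 * T ≤ 1 / (Q : ℝ) ^ 2) :
    (1 + ∑ l ∈ twPrimes D Q, 1 / ((l : ℝ) - 1)) *
      ∑ q ∈ Icc 1 D, ∫ β in (-T)..T, arcSum f B q β ≤ ∑ n ∈ range B, ‖f n‖ ^ 2 := by
  classical
  set I : ℕ → ℝ := fun q => ∫ β in (-T)..T, arcSum f B q β with hI
  have hI0 : ∀ q, 0 ≤ I q := fun q => by
    simp only [hI]
    exact intervalIntegral.integral_nonneg (by linarith) fun β _ => arcSum_nonneg f B q β
  have htw : ∀ q ∈ Icc 1 D, ∀ l ∈ twPrimes D Q, 1 / ((l : ℝ) - 1) * I q ≤ I (q * l) := by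
    intro q hq l hl
    simp only [Finset.mem_Icc] at hq
    simp only [twPrimes, Finset.mem_filter, Finset.mem_Icc] at hl
    obtain ⟨⟨hl1, hlQ⟩, hlp, hDl, hDlQ⟩ := hl
    have hl2 : (2 : ℝ) ≤ l := by exact_mod_cast hlp.two_le
    have hlpos : (0 : ℝ) < (l : ℝ) - 1 := by linarith
    have hnd : ¬ l ∣ q := by
      intro hd
      have := Nat.le_of_dvd (by omega) hd
      omega
    have hle : I q ≤ ((l : ℝ) - 1) * I (q * l) := by
      simp only [hI]
      rw [← intervalIntegral.integral_const_mul]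
      refine intervalIntegral.integral_mono_on (by linarith)
        ((continuous_arcSum f B q).intervalIntegrable _ _)
        ((continuous_const.mul (continuous_arcSum f B (q * l))).intervalIntegrable _ _) ?_
      intro β _
      exact arcSum_twist f B q l hq.1 hlp hnd (fun n hn => hf l n hlp hlQ hn) β
    rw [one_div, inv_mul_le_iff₀ hlpos]
    exact hle
  have h1 : (1 + ∑ l ∈ twPrimes D Q, 1 / ((l : ℝ) - 1)) * ∑ q ∈ Icc 1 D, I q
      ≤ ∑ q ∈ Icc 1 D, I q + ∑ x ∈ Icc 1 D ×ˢ twPrimes D Q, I (x.1 * x.2) := by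
    rw [add_mul, one_mul, Finset.sum_mul_sum, Finset.sum_comm, Finset.sum_product]
    gcongr with q hq l hl
    exact htw q hq l hl
  have hinj : Set.InjOn (fun x : ℕ × ℕ => x.1 * x.2) (Icc 1 D ×ˢ twPrimes D Q : Finset (ℕ × ℕ)) := by
    intro x hx y hy hxy
    rw [Finset.mem_coe, Finset.mem_product] at hx hy
    simp only [Finset.mem_Icc, twPrimes, Finset.mem_filter] at hx hy
    obtain ⟨⟨hx1, hx2⟩, ⟨hx3, hx4⟩, hx5, hx6, hx7⟩ := hx
    obtain ⟨⟨hy1, hy2⟩, ⟨hy3, hy4⟩, hy5, hy6, hy7⟩ := hy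
    have hxy' : x.1 * x.2 = y.1 * y.2 := hxy
    have hd : x.2 ∣ y.1 * y.2 := ⟨x.1, by rw [← hxy']; ring⟩
    have h2 : x.2 = y.2 := by
      rcases (Nat.Prime.dvd_mul hx5).mp hd with h | h
      · have := Nat.le_of_dvd (by omega) h
        omega
      · exact (Nat.prime_dvd_prime_iff_eq hx5 hy5).mp h
    have h3 : x.1 = y.1 := by
      rw [h2] at hxy'
      exact Nat.eq_of_mul_eq_mul_right (by omega) hxy'
    exact Prod.ext h3 h2
  have h2 : ∑ x ∈ Icc 1 D ×ˢ twPrimes D Q, I (x.1 * x.2)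
      = ∑ q ∈ (Icc 1 D ×ˢ twPrimes D Q).image (fun x : ℕ × ℕ => x.1 * x.2), I q := by
    rw [Finset.sum_image hinj]
  have hdisj : Disjoint (Icc 1 D) ((Icc 1 D ×ˢ twPrimes D Q).image (fun x : ℕ × ℕ => x.1 * x.2)) := by
    rw [Finset.disjoint_left]
    intro q hq hq'
    rw [Finset.mem_image] at hq'
    obtain ⟨x, hx, rfl⟩ := hq'
    rw [Finset.mem_product] at hx
    simp only [Finset.mem_Icc, twPrimes, Finset.mem_filter] at hx hq
    obtain ⟨⟨hx1, hx2⟩, ⟨hx3, hx4⟩, hx5, hx6, hx7⟩ := hx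
    have : x.2 ≤ x.1 * x.2 := Nat.le_mul_of_pos_left _ (by omega)
    omega
  have hsub : (Icc 1 D) ∪ ((Icc 1 D ×ˢ twPrimes D Q).image (fun x : ℕ × ℕ => x.1 * x.2))
      ⊆ Icc 1 Q := by
    intro q hq
    rw [Finset.mem_union] at hq
    rcases hq with hq | hq
    · simp only [Finset.mem_Icc] at hq ⊢
      omega
    · rw [Finset.mem_image] at hq
      obtain ⟨x, hx, rfl⟩ := hq
      rw [Finset.mem_product] at hx
      simp only [Finset.mem_Icc, twPrimes, Finset.mem_filter] at hx ⊢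
      obtain ⟨⟨hx1, hx2⟩, ⟨hx3, hx4⟩, hx5, hx6, hx7⟩ := hx
      refine ⟨Nat.mul_pos (by omega) (by omega), ?_⟩
      calc x.1 * x.2 ≤ D * x.2 := Nat.mul_le_mul_right _ hx2
        _ ≤ Q := hx7
  refine h1.trans ?_
  rw [h2, ← Finset.sum_union hdisj]
  refine (Finset.sum_le_sum_of_subset_of_nonneg hsub fun q _ _ => hI0 q).trans ?_
  exact sum_arcs_le f B Q (by omega) T hT0 hT

/-- the restriction of `f` to the residue class `a` mod `q` -/
noncomputable def fres (f : ℕ → ℂ) (q a n : ℕ) : ℂ := if n % q = a then f n else 0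

lemma expSum_eq_sum_classes (f : ℕ → ℂ) (B q b : ℕ) (hq : q ≠ 0) (β : ℝ) :
    expSum f B ((b : ℝ) / q + β)
      = ∑ a ∈ range q, ee ((a : ℝ) * b / q) * expSum (fres f q a) B β := by
  have hqR : (q : ℝ) ≠ 0 := by exact_mod_cast hq
  unfold expSum
  simp_rw [Finset.mul_sum]
  rw [Finset.sum_comm]
  refine Finset.sum_congr rfl fun n _ => ?_
  rw [Finset.sum_eq_single (n % q)]
  · unfold fres
    rw [if_pos rfl]
    have hn : (n : ℝ) = ((n % q : ℕ) : ℝ) + q * ((n / q : ℕ) : ℝ) := by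
      exact_mod_cast (Nat.mod_add_div n q).symm
    have : (n : ℝ) * ((b : ℝ) / q + β)
        = (((n % q : ℕ) : ℝ) * b / q + n * β) + ((((n / q : ℕ) * b : ℕ) : ℤ) : ℝ) := by
      rw [Int.cast_natCast, Nat.cast_mul]
      have h2 : (n : ℝ) * ((b : ℝ) / q) = ((n % q : ℕ) : ℝ) * b / q + ((n / q : ℕ) : ℝ) * b := by
        conv_lhs => rw [hn]
        field_simp
      rw [mul_add, h2]
      ring
    rw [this, ee_add_int, ee_add]
    ring
  · intro a _ ha
    unfold fres
    rw [if_neg (Ne.symm ha)]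
    simp
  · intro h
    exact absurd (Finset.mem_range.mpr (Nat.mod_lt _ (Nat.pos_of_ne_zero hq))) h

/-- Parseval modulo `q`. -/
lemma parseval_mod (q : ℕ) (hq : q ≠ 0) (g : ℕ → ℂ) :
    ∑ b ∈ range q, ‖∑ a ∈ range q, ee ((a : ℝ) * b / q) * g a‖ ^ 2
      = q * ∑ a ∈ range q, ‖g a‖ ^ 2 := by
  have hqR : (q : ℝ) ≠ 0 := by exact_mod_cast hq
  have hc : ((∑ b ∈ range q, ‖∑ a ∈ range q, ee ((a : ℝ) * b / q) * g a‖ ^ 2 : ℝ) : ℂ)
      = ((q * ∑ a ∈ range q, ‖g a‖ ^ 2 : ℝ) : ℂ) := by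
    push_cast [-Complex.ofReal_pow]
    have h1 : ∀ b ∈ range q, ((‖∑ a ∈ range q, ee ((a : ℝ) * b / q) * g a‖ ^ 2 : ℝ) : ℂ)
        = ∑ i ∈ range q, ∑ j ∈ range q, (g i * (starRingEnd ℂ) (g j)) *
          ee ((b : ℝ) * (((i : ℤ) - (j : ℤ) : ℤ) : ℝ) / q) := by
      intro b _
      rw [norm_sq_sum_eq]
      refine Finset.sum_congr rfl fun i _ => Finset.sum_congr rfl fun j _ => ?_
      rw [map_mul, conj_ee]
      have : ee ((b : ℝ) * (((i : ℤ) - (j : ℤ) : ℤ) : ℝ) / q)
          = ee ((i : ℝ) * b / q) * ee (-((j : ℝ) * b / q)) := by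
        rw [← ee_add]
        congr 1
        push_cast
        ring
      rw [this]
      ring
    rw [Finset.sum_congr rfl h1, Finset.sum_comm]
    have h2 : ∀ i ∈ range q, ∑ b ∈ range q, ∑ j ∈ range q, (g i * (starRingEnd ℂ) (g j)) *
          ee ((b : ℝ) * (((i : ℤ) - (j : ℤ) : ℤ) : ℝ) / q) = (q : ℂ) * ((‖g i‖ ^ 2 : ℝ) : ℂ) := by
      intro i hi
      rw [Finset.sum_comm, Finset.sum_eq_single i]
      · rw [← Finset.mul_sum, sum_ee_range q hq]
        simp only [sub_self, dvd_zero, if_true]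
        rw [Complex.mul_conj, Complex.normSq_eq_norm_sq]
        ring
      · intro j hj hji
        rw [← Finset.mul_sum, sum_ee_range q hq, if_neg, mul_zero]
        intro hd
        rw [Finset.mem_range] at hi hj
        apply hji
        have h3 : |(i : ℤ) - j| < q := by
          rw [abs_lt]
          constructor <;> omega
        have h4 := Int.eq_zero_of_abs_lt_dvd hd h3
        omega
      · intro h
        exact absurd hi h
    rw [Finset.sum_congr rfl h2, ← Finset.mul_sum]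
  exact_mod_cast hc

/-- Ramanujan sum at a reduced argument. -/
lemma ramanujan_coprime (q b : ℕ) (hq : q ≠ 0) (hb : Nat.Coprime b q) :
    ∑ a ∈ frac q, ee ((a : ℝ) * b / q) = (ArithmeticFunction.moebius q : ℂ) := by
  classical
  have hqR : (q : ℝ) ≠ 0 := by exact_mod_cast hq
  have h1 : ∀ a ∈ range q, (if Nat.Coprime a q then ee ((a : ℝ) * b / q) else 0)
      = ∑ d ∈ q.divisors, if d ∣ a then (ArithmeticFunction.moebius d : ℂ) * ee ((a : ℝ) * b / q)
        else 0 := by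
    intro a _
    have h2 : ∑ d ∈ q.divisors, (if d ∣ a then (ArithmeticFunction.moebius d : ℂ) *
        ee ((a : ℝ) * b / q) else 0)
        = (∑ d ∈ (Nat.gcd a q).divisors, (ArithmeticFunction.moebius d : ℂ)) *
          ee ((a : ℝ) * b / q) := by
      rw [Finset.sum_mul, ← Finset.sum_filter]
      refine Finset.sum_congr ?_ fun _ _ => rfl
      ext d
      simp only [Finset.mem_filter, Nat.mem_divisors, Nat.dvd_gcd_iff]
      constructor
      · rintro ⟨⟨h3, _⟩, h4⟩
        exact ⟨⟨h4, h3⟩, Nat.gcd_ne_zero_right hq⟩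
      · rintro ⟨⟨h3, h4⟩, _⟩
        exact ⟨⟨h4, hq⟩, h3⟩
    rw [h2]
    have h4 : ∑ d ∈ (Nat.gcd a q).divisors, (ArithmeticFunction.moebius d : ℤ)
        = if Nat.gcd a q = 1 then 1 else 0 := by
      have := congrArg (fun F => F (Nat.gcd a q)) (ArithmeticFunction.moebius_mul_coe_zeta)
      simp only [ArithmeticFunction.one_apply] at this
      rw [← this, ArithmeticFunction.coe_mul_zeta_apply]
    have h5 : (∑ d ∈ (Nat.gcd a q).divisors, (ArithmeticFunction.moebius d : ℂ))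
        = if Nat.gcd a q = 1 then 1 else 0 := by
      exact_mod_cast congrArg (fun z : ℤ => (z : ℂ)) h4
    rw [h5]
    by_cases hc : Nat.Coprime a q
    · rw [if_pos hc, if_pos hc, one_mul]
    · rw [if_neg hc, if_neg hc, zero_mul]
  unfold frac
  rw [Finset.sum_filter, Finset.sum_congr rfl h1, Finset.sum_comm]
  have h6 : ∀ d ∈ q.divisors, ∑ a ∈ range q, (if d ∣ a then (ArithmeticFunction.moebius d : ℂ) *
      ee ((a : ℝ) * b / q) else 0)
      = if d = q then (ArithmeticFunction.moebius q : ℂ) else 0 := by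
    intro d hd
    rw [Nat.mem_divisors] at hd
    obtain ⟨⟨m, hm⟩, _⟩ := hd
    have hd0 : d ≠ 0 := by
      rintro rfl
      simp at hm
      exact hq hm
    have hm0 : m ≠ 0 := by
      rintro rfl
      simp at hm
      exact hq hm
    have h7 : ∑ a ∈ range q, (if d ∣ a then (ArithmeticFunction.moebius d : ℂ) *
      ee ((a : ℝ) * b / q) else 0)
        = (ArithmeticFunction.moebius d : ℂ) * ∑ j ∈ range m, ee ((j : ℝ) * (b : ℤ) / m) := by
      rw [← Finset.sum_filter, Finset.mul_sum]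
      refine Finset.sum_nbij' (fun a => a / d) (fun j => d * j) ?_ ?_ ?_ ?_ ?_
      · intro a ha
        simp only [Finset.mem_filter, Finset.mem_range] at ha ⊢
        rw [Nat.div_lt_iff_lt_mul (Nat.pos_of_ne_zero hd0)]
        rw [hm] at ha
        linarith [ha.1]
      · intro j hj
        simp only [Finset.mem_filter, Finset.mem_range] at hj ⊢
        refine ⟨?_, dvd_mul_right d j⟩
        rw [hm]
        exact Nat.mul_lt_mul_of_pos_left hj (Nat.pos_of_ne_zero hd0)
      · intro a ha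
        simp only [Finset.mem_filter] at ha
        exact Nat.mul_div_cancel' ha.2
      · intro j _
        exact Nat.mul_div_cancel_left j (Nat.pos_of_ne_zero hd0)
      · intro a ha
        simp only [Finset.mem_filter, Finset.mem_range] at ha
        obtain ⟨_, ⟨j, rfl⟩⟩ := ha
        rw [Nat.mul_div_cancel_left j (Nat.pos_of_ne_zero hd0)]
        congr 2
        have hmR : (m : ℝ) ≠ 0 := by exact_mod_cast hm0
        have hdR : (d : ℝ) ≠ 0 := by exact_mod_cast hd0
        rw [hm]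
        push_cast
        field_simp
    rw [h7, sum_ee_range m hm0]
    by_cases hdq : d = q
    · have hm1 : m = 1 := by
        rw [hdq] at hm
        have : q * m = q * 1 := by omega
        exact Nat.eq_of_mul_eq_mul_left (Nat.pos_of_ne_zero hq) this
      rw [if_pos hdq, hm1]
      simp [hdq]
    · rw [if_neg hdq, if_neg, mul_zero]
      intro hmb
      have hmb' : m ∣ b := by exact_mod_cast hmb
      have hmq : m ∣ q := ⟨d, by rw [hm]; ring⟩
      have h1' : m ∣ Nat.gcd b q := Nat.dvd_gcd hmb' hmq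
      rw [hb] at h1'
      have hm1 : m = 1 := Nat.dvd_one.mp h1'
      apply hdq
      rw [hm, hm1, mul_one]
  rw [Finset.sum_congr rfl h6, Finset.sum_ite_eq']
  simp [hq]

end Pool.Agent.MC
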