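import Mathlib
import Pool.Agent.Lib.MP_9cfc0a_nt.Farey

set_option autoImplicit false

namespace Pool.Agent.MC

open Finset MeasureTheory Real

/-- Cauchy-Schwarz on a symmetric interval. -/
lemma norm_sq_integral_le (φ : ℝ → ℂ) (hφ : Continuous φ) (T : ℝ) (hT : 0 < T) :
    ‖∫ β in (-T)..T, φ β‖ ^ 2 ≤ 2 * T * ∫ β in (-T)..T, ‖φ β‖ ^ 2 := by
  set I : ℂ := ∫ β in (-T)..T, φ β with hI
  set m : ℂ := ((1 / (2 * T) : ℝ) : ℂ) * I with hm
  have h0 : 0 ≤ ∫ β in (-T)..T, ‖φ β - m‖ ^ 2 :=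
    intervalIntegral.integral_nonneg (by linarith) (fun β _ => by positivity)
  have h1 : ∀ β, ‖φ β - m‖ ^ 2 = ‖φ β‖ ^ 2 - 2 * (φ β * (starRingEnd ℂ) m).re + ‖m‖ ^ 2 := by
    intro β
    rw [← Complex.normSq_eq_norm_sq, ← Complex.normSq_eq_norm_sq, ← Complex.normSq_eq_norm_sq,
      Complex.normSq_sub]
    ring
  simp_rw [h1] at h0
  have hc1 : Continuous fun β => ‖φ β‖ ^ 2 := hφ.norm.pow 2
  have hc2 : Continuous fun β => (φ β * (starRingEnd ℂ) m).re :=
    Complex.continuous_re.comp (hφ.mul continuous_const)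
  have hi2 : IntervalIntegrable (fun β => 2 * (φ β * (starRingEnd ℂ) m).re) volume (-T) T :=
    (continuous_const.mul hc2).intervalIntegrable _ _
  have hi1 : IntervalIntegrable (fun β => ‖φ β‖ ^ 2 - 2 * (φ β * (starRingEnd ℂ) m).re)
      volume (-T) T := (hc1.intervalIntegrable _ _).sub hi2
  rw [intervalIntegral.integral_add hi1 (continuous_const.intervalIntegrable _ _),
    intervalIntegral.integral_sub (hc1.intervalIntegrable _ _) hi2,
    intervalIntegral.integral_const_mul, intervalIntegral.integral_const] at h0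
  have h2 : ∫ β in (-T)..T, (φ β * (starRingEnd ℂ) m).re = (I * (starRingEnd ℂ) m).re := by
    rw [hI, ← intervalIntegral.integral_mul_const]
    exact (Complex.reCLM.intervalIntegral_comp_comm
      ((hφ.mul continuous_const).intervalIntegrable (-T) T))
  rw [h2] at h0
  have h3 : (I * (starRingEnd ℂ) m).re = ‖I‖ ^ 2 / (2 * T) := by
    rw [hm, map_mul, Complex.conj_ofReal]
    have : I * ((((1 / (2 * T) : ℝ) : ℂ)) * (starRingEnd ℂ) I)
        = ((1 / (2 * T) : ℝ) : ℂ) * (I * (starRingEnd ℂ) I) := by ring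
    rw [this, Complex.mul_conj, Complex.normSq_eq_norm_sq, ← Complex.ofReal_mul, Complex.ofReal_re]
    ring
  have h4 : ‖m‖ ^ 2 = ‖I‖ ^ 2 / (2 * T) ^ 2 := by
    rw [hm, norm_mul, Complex.norm_real, Real.norm_eq_abs, mul_pow, sq_abs]
    ring
  rw [h3, h4, smul_eq_mul] at h0
  have h5 : (T - -T) * (‖I‖ ^ 2 / (2 * T) ^ 2) = ‖I‖ ^ 2 / (2 * T) := by
    field_simp
    ring
  rw [h5] at h0
  have h6 : ‖I‖ ^ 2 / (2 * T) ≤ ∫ β in (-T)..T, ‖φ β‖ ^ 2 := by linarith
  rw [div_le_iff₀ (by linarith)] at h6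
  linarith

lemma integral_ee_symm (n : ℕ) (hn : n ≠ 0) (T : ℝ) :
    ∫ β in (-T)..T, ee (n * β) = ((Real.sin (2 * π * n * T) / (π * n) : ℝ) : ℂ) := by
  have hnR : (n : ℝ) ≠ 0 := by exact_mod_cast hn
  have hnC : (n : ℂ) ≠ 0 := by exact_mod_cast hn
  have hπC : (π : ℂ) ≠ 0 := by exact_mod_cast Real.pi_ne_zero
  have hc : (2 * (π : ℂ) * n * Complex.I) ≠ 0 := by
    simp [hnC, hπC, Complex.I_ne_zero]
  have h1 : ∀ β : ℝ, ee (n * β) = Complex.exp ((2 * (π : ℂ) * n * Complex.I) * β) := by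
    intro β
    unfold ee
    congr 1
    push_cast
    ring
  simp_rw [h1]
  rw [integral_exp_mul_complex hc]
  have h2 : (2 * (π : ℂ) * n * Complex.I) * ((T : ℝ) : ℂ)
      = ((2 * π * n * T : ℝ) : ℂ) * Complex.I := by
    push_cast; ring
  have h3 : (2 * (π : ℂ) * n * Complex.I) * ((-T : ℝ) : ℂ)
      = -((2 * π * n * T : ℝ) : ℂ) * Complex.I := by
    push_cast; ring
  rw [h2, h3]
  have h4 := Complex.two_sin ((2 * π * n * T : ℝ) : ℂ)
  rw [Complex.ofReal_div, Complex.ofReal_sin]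
  have h5 : Complex.exp (((2 * π * n * T : ℝ) : ℂ) * Complex.I)
      - Complex.exp (-((2 * π * n * T : ℝ) : ℂ) * Complex.I)
      = 2 * Complex.I * Complex.sin ((2 * π * n * T : ℝ) : ℂ) := by
    have : 2 * Complex.I * Complex.sin ((2 * π * n * T : ℝ) : ℂ)
        = Complex.I * (2 * Complex.sin ((2 * π * n * T : ℝ) : ℂ)) := by ring
    rw [this, h4]
    have hI : Complex.I * Complex.I = -1 := Complex.I_mul_I
    linear_combination (Complex.exp (-((2 * π * n * T : ℝ) : ℂ) * Complex.I)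
      - Complex.exp (((2 * π * n * T : ℝ) : ℂ) * Complex.I)) * (-hI)
  rw [h5]
  push_cast
  have hI0 := Complex.I_ne_zero
  field_simp

/-- the weights -/
noncomputable def lsw (T : ℝ) (n : ℕ) : ℝ :=
  if n = 0 then 1 else (2 * π * n * T) / Real.sin (2 * π * n * T)

lemma lsw_spec (T : ℝ) (hT : 0 < T) (n : ℕ) (hn : 4 * n * T ≤ 1) :
    (lsw T n : ℂ) * ∫ β in (-T)..T, ee (n * β) = 2 * T := by
  unfold lsw
  by_cases h : n = 0
  · subst h
    rw [if_pos rfl]
    simp only [Nat.cast_zero, zero_mul, ee_zero]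
    rw [intervalIntegral.integral_const]
    push_cast
    rw [Complex.real_smul]
    push_cast
    ring
  · rw [if_neg h, integral_ee_symm n h T, ← Complex.ofReal_mul]
    have hn0 : (0 : ℝ) < n := by exact_mod_cast Nat.pos_of_ne_zero h
    have hy0 : 0 < 2 * π * n * T := by positivity
    have hyπ : 2 * π * n * T < π := by nlinarith [Real.pi_pos]
    have hs : 0 < Real.sin (2 * π * n * T) := Real.sin_pos_of_pos_of_lt_pi hy0 hyπ
    have : (2 * π * n * T) / Real.sin (2 * π * n * T) * (Real.sin (2 * π * n * T) / (π * n)) = 2 * T := by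
      field_simp
    rw [this]
    push_cast
    ring

lemma lsw_bounds (T : ℝ) (hT : 0 < T) (n : ℕ) (hn : 4 * n * T ≤ 1) :
    0 ≤ lsw T n ∧ lsw T n ≤ π / 2 := by
  unfold lsw
  by_cases h : n = 0
  · rw [if_pos h]
    constructor
    · norm_num
    · linarith [Real.pi_gt_three]
  · rw [if_neg h]
    have hn0 : (0 : ℝ) < n := by exact_mod_cast Nat.pos_of_ne_zero h
    have hy0 : 0 < 2 * π * n * T := by positivity
    have hy2 : 2 * π * n * T ≤ π / 2 := by nlinarith [Real.pi_pos]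
    have h1 := Real.mul_le_sin hy0.le hy2
    have hs : 0 < Real.sin (2 * π * n * T) :=
      Real.sin_pos_of_pos_of_lt_pi hy0 (by linarith [Real.pi_pos])
    refine ⟨by positivity, ?_⟩
    rw [div_le_iff₀ hs]
    have h2 : π / 2 * (2 / π * (2 * π * n * T)) = 2 * π * n * T := by
      field_simp
    calc 2 * π * n * T = π / 2 * (2 / π * (2 * π * n * T)) := h2.symm
      _ ≤ π / 2 * Real.sin (2 * π * n * T) := by
        apply mul_le_mul_of_nonneg_left h1
        positivity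

lemma expSum_sq_le_integral (f : ℕ → ℂ) (B : ℕ) (T : ℝ) (hT : 0 < T) (hB : 4 * B * T ≤ 1) (α : ℝ) :
    2 * T * ‖expSum f B α‖ ^ 2
      ≤ ∫ β in (-T)..T, ‖expSum (fun n => f n * lsw T n) B (α + β)‖ ^ 2 := by
  have h1 : ∫ β in (-T)..T, expSum (fun n => f n * lsw T n) B (α + β) = 2 * T * expSum f B α := by
    unfold expSum
    rw [intervalIntegral.integral_finsetSum]
    · rw [Finset.mul_sum]
      refine Finset.sum_congr rfl fun n hn => ?_
      rw [Finset.mem_range] at hn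
      have hnB : 4 * (n : ℝ) * T ≤ 1 := by
        have : (n : ℝ) ≤ B := by exact_mod_cast hn.le
        nlinarith
      have h2 : ∀ β : ℝ, f n * lsw T n * ee (n * (α + β)) = (f n * ee (n * α)) * ((lsw T n : ℂ) * ee (n * β)) := by
        intro β
        rw [mul_add, ee_add]
        ring
      simp_rw [h2]
      rw [intervalIntegral.integral_const_mul, intervalIntegral.integral_const_mul,
        lsw_spec T hT n hnB]
      ring
    · intro n _
      refine Continuous.intervalIntegrable ?_ _ _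
      refine continuous_const.mul (continuous_ee.comp ?_)
      fun_prop
  have h2 := norm_sq_integral_le (fun β => expSum (fun n => f n * lsw T n) B (α + β))
    ((continuous_expSum _ _).comp (continuous_const.add continuous_id)) T hT
  rw [h1, norm_mul, norm_mul, Complex.norm_real, Real.norm_eq_abs, abs_of_pos hT] at h2
  have h3 : ‖(2 : ℂ)‖ = 2 := by simp
  rw [h3] at h2
  have h4 : (2 * T * ‖expSum f B α‖) ^ 2 = 2 * T * (2 * T * ‖expSum f B α‖ ^ 2) := by ring
  rw [h4] at h2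
  exact le_of_mul_le_mul_left h2 (by linarith)

/-- The large sieve inequality. -/
theorem large_sieve (f : ℕ → ℂ) (B Q : ℕ) (hQ : 1 ≤ Q) :
    ∑ q ∈ Icc 1 Q, arcSum f B q 0
      ≤ π ^ 2 / 4 * ((Q : ℝ) ^ 2 + 2 * B) * ∑ n ∈ range B, ‖f n‖ ^ 2 := by
  have hQR : (1 : ℝ) ≤ Q := by exact_mod_cast hQ
  have hB0 : (0 : ℝ) ≤ B := Nat.cast_nonneg B
  set R : ℝ := (Q : ℝ) ^ 2 + 2 * B with hR
  have hR0 : 0 < R := by positivity
  set T : ℝ := 1 / (2 * R) with hT
  have hT0 : 0 < T := by positivity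
  have hT2 : 2 * T = 1 / R := by rw [hT]; field_simp
  have hTQ : 2 * T ≤ 1 / (Q : ℝ) ^ 2 := by
    rw [hT2]
    apply one_div_le_one_div_of_le (by positivity)
    rw [hR]; linarith
  have hTB : 4 * (B : ℝ) * T ≤ 1 := by
    have : 4 * (B : ℝ) * T = 2 * B * (2 * T) := by ring
    rw [this, hT2, mul_one_div, div_le_one hR0, hR]
    nlinarith
  set g : ℕ → ℂ := fun n => f n * lsw T n with hg
  have h1 := sum_arcs_le g B Q hQ T hT0.le hTQ
  have h2 : ∑ n ∈ range B, ‖g n‖ ^ 2 ≤ π ^ 2 / 4 * ∑ n ∈ range B, ‖f n‖ ^ 2 := by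
    rw [Finset.mul_sum]
    refine Finset.sum_le_sum fun n hn => ?_
    rw [Finset.mem_range] at hn
    have hnB : 4 * (n : ℝ) * T ≤ 1 := by
      have : (n : ℝ) ≤ B := by exact_mod_cast hn.le
      nlinarith
    have h3 := lsw_bounds T hT0 n hnB
    simp only [hg]
    rw [norm_mul, Complex.norm_real, Real.norm_eq_abs, abs_of_nonneg h3.1, mul_pow]
    have h4 : lsw T n ^ 2 ≤ (π / 2) ^ 2 := by
      apply pow_le_pow_left₀ h3.1 h3.2
    calc ‖f n‖ ^ 2 * lsw T n ^ 2 ≤ ‖f n‖ ^ 2 * (π / 2) ^ 2 := by gcongr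
      _ = π ^ 2 / 4 * ‖f n‖ ^ 2 := by ring
  have h3 : ∑ q ∈ Icc 1 Q, 2 * T * arcSum f B q 0 ≤ ∑ q ∈ Icc 1 Q, ∫ β in (-T)..T, arcSum g B q β := by
    refine Finset.sum_le_sum fun q _ => ?_
    unfold arcSum
    rw [Finset.mul_sum, intervalIntegral.integral_finsetSum]
    · refine Finset.sum_le_sum fun b _ => ?_
      have h4 := expSum_sq_le_integral f B T hT0 hTB ((b : ℝ) / q + 0)
      refine h4.trans (le_of_eq ?_)
      simp only [add_zero]
      rfl
    · intro b _
      refine Continuous.intervalIntegrable ?_ _ _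
      exact ((continuous_expSum g B).comp (continuous_const.add continuous_id)).norm.pow 2
  rw [← Finset.mul_sum] at h3
  have h5 : 2 * T * ∑ q ∈ Icc 1 Q, arcSum f B q 0 ≤ π ^ 2 / 4 * ∑ n ∈ range B, ‖f n‖ ^ 2 :=
    h3.trans (h1.trans h2)
  rw [hT2, div_mul_eq_mul_div, one_mul, div_le_iff₀ hR0] at h5
  linarith

end Pool.Agent.MC
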