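import Mathlib
import Pool.Agent.Lib.MP_9cfc0a_nt.Arcs
import Pool.Agent.Lib.MP_9cfc0a_nt.LargeSieve

set_option autoImplicit false

namespace Pool.Agent.MC

open Finset MeasureTheory Real

/-- exponential sum over `(v, v + H]` -/
noncomputable def segSum (u : ℕ → ℂ) (v H : ℕ) (α : ℝ) : ℂ :=
  ∑ n ∈ Ioc v (v + H), u n * ee (n * α)

/-- sum over the integers of `(v, v + H]` congruent to `c` mod `d` -/
noncomputable def Zc (u : ℕ → ℂ) (v H d c : ℕ) : ℂ :=
  ∑ n ∈ Ioc v (v + H), if n % d = c % d then u n else 0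

/-- `q` times the new part at level `q` -/
noncomputable def newQ (u : ℕ → ℂ) (v H q c : ℕ) : ℂ :=
  ∑ x ∈ q.divisorsAntidiagonal,
    (ArithmeticFunction.moebius x.1 : ℂ) * ((x.2 : ℂ) * Zc u v H x.2 c)

lemma segSum_eq (u : ℕ → ℂ) (v H : ℕ) (α : ℝ) :
    segSum u v H α = ee (((v + 1 : ℕ) : ℝ) * α) * expSum (fun m => u (v + 1 + m)) H α := by
  unfold segSum expSum
  have h1 : Ioc v (v + H) = Ico (v + 1) (v + 1 + H) := by
    ext n; simp only [Finset.mem_Ioc, Finset.mem_Ico]; omega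
  rw [h1, Finset.sum_Ico_eq_sum_range, Nat.add_sub_cancel_left, Finset.mul_sum]
  refine Finset.sum_congr rfl fun m _ => ?_
  have : ((v + 1 + m : ℕ) : ℝ) * α = ((v + 1 : ℕ) : ℝ) * α + m * α := by push_cast; ring
  rw [this, ee_add]
  ring

lemma norm_segSum (u : ℕ → ℂ) (v H : ℕ) (α : ℝ) :
    ‖segSum u v H α‖ = ‖expSum (fun m => u (v + 1 + m)) H α‖ := by
  rw [segSum_eq, norm_mul, norm_ee, one_mul]

lemma sum_range_eq_sum_divisors (F : ℝ → ℂ) (q : ℕ) (hq : 0 < q) :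
    ∑ b ∈ range q, F ((b : ℝ) / q) = ∑ d ∈ q.divisors, ∑ b ∈ frac d, F ((b : ℝ) / d) := by
  rw [Finset.sum_sigma']
  refine Finset.sum_bij' (fun b _ => ⟨q / Nat.gcd b q, b / Nat.gcd b q⟩)
    (fun x _ => x.2 * (q / x.1)) ?_ ?_ ?_ ?_ ?_
  · intro b hb
    rw [Finset.mem_range] at hb
    have hg : 0 < Nat.gcd b q := Nat.gcd_pos_of_pos_right b hq
    have hgq : Nat.gcd b q ∣ q := Nat.gcd_dvd_right b q
    have hgb : Nat.gcd b q ∣ b := Nat.gcd_dvd_left b q
    rw [Finset.mem_sigma]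
    refine ⟨?_, ?_⟩
    · rw [Nat.mem_divisors]
      exact ⟨Nat.div_dvd_of_dvd hgq, hq.ne'⟩
    · unfold frac
      rw [Finset.mem_filter, Finset.mem_range]
      refine ⟨?_, Nat.coprime_div_gcd_div_gcd hg⟩
      exact Nat.div_lt_div_of_lt_of_dvd hgq hb
  · intro x hx
    rw [Finset.mem_sigma, Nat.mem_divisors] at hx
    obtain ⟨⟨hd, _⟩, hx2⟩ := hx
    unfold frac at hx2
    rw [Finset.mem_filter, Finset.mem_range] at hx2
    rw [Finset.mem_range]
    have hqd : 0 < q / x.1 := Nat.div_pos (Nat.le_of_dvd hq hd) (by omega)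
    calc x.2 * (q / x.1) < x.1 * (q / x.1) := Nat.mul_lt_mul_of_pos_right hx2.1 hqd
      _ = q := Nat.mul_div_cancel' hd
  · intro b hb
    simp only
    rw [Finset.mem_range] at hb
    have hg : 0 < Nat.gcd b q := Nat.gcd_pos_of_pos_right b hq
    have hgq : Nat.gcd b q ∣ q := Nat.gcd_dvd_right b q
    have hgb : Nat.gcd b q ∣ b := Nat.gcd_dvd_left b q
    rw [Nat.div_div_self hgq hq.ne', Nat.div_mul_cancel hgb]
  · intro x hx
    rw [Finset.mem_sigma, Nat.mem_divisors] at hx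
    obtain ⟨⟨hd, _⟩, hx2⟩ := hx
    unfold frac at hx2
    rw [Finset.mem_filter, Finset.mem_range] at hx2
    obtain ⟨e, he⟩ := hd
    have hd0 : 0 < x.1 := by omega
    have he0 : 0 < e := by
      rcases Nat.eq_zero_or_pos e with h | h
      · rw [h, mul_zero] at he; omega
      · exact h
    have h1 : q / x.1 = e := by rw [he]; exact Nat.mul_div_cancel_left e hd0
    have h2 : Nat.gcd (x.2 * (q / x.1)) q = e := by
      rw [h1, he, Nat.gcd_mul_right, Nat.Coprime.gcd_eq_one hx2.2, one_mul]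
    simp only [h2]
    have h3 : q / e = x.1 := by rw [he]; exact Nat.mul_div_cancel x.1 he0
    have h4 : x.2 * (q / x.1) / e = x.2 := by rw [h1]; exact Nat.mul_div_cancel x.2 he0
    rw [h3, h4]
  · intro b hb
    simp only
    have hg : 0 < Nat.gcd b q := Nat.gcd_pos_of_pos_right b hq
    have hgq : Nat.gcd b q ∣ q := Nat.gcd_dvd_right b q
    have hgb : Nat.gcd b q ∣ b := Nat.gcd_dvd_left b q
    have hgR : ((Nat.gcd b q : ℕ) : ℝ) ≠ 0 := by exact_mod_cast hg.ne'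
    rw [Nat.cast_div hgb hgR, Nat.cast_div hgq hgR]
    congr 1
    have hqR : (q : ℝ) ≠ 0 := by exact_mod_cast hq.ne'
    field_simp

lemma sum_range_segSum (u : ℕ → ℂ) (v H d c : ℕ) (hd : 0 < d) :
    ∑ b ∈ range d, ee (-((c : ℝ) * ((b : ℝ) / d))) * segSum u v H ((b : ℝ) / d)
      = (d : ℂ) * Zc u v H d c := by
  unfold segSum Zc
  simp_rw [Finset.mul_sum]
  rw [Finset.sum_comm]
  refine Finset.sum_congr rfl fun n _ => ?_
  have h1 : ∀ b : ℕ, ee (-((c : ℝ) * ((b : ℝ) / d))) * (u n * ee (n * ((b : ℝ) / d)))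
      = u n * ee ((b : ℝ) * (((n : ℤ) - (c : ℤ) : ℤ) : ℝ) / d) := by
    intro b
    have : (b : ℝ) * (((n : ℤ) - (c : ℤ) : ℤ) : ℝ) / d
        = -((c : ℝ) * ((b : ℝ) / d)) + n * ((b : ℝ) / d) := by
      push_cast; ring
    rw [this, ee_add]
    ring
  simp_rw [h1]
  rw [← Finset.mul_sum, sum_ee_range d hd.ne' ((n : ℤ) - (c : ℤ))]
  have h2 : ((d : ℤ) ∣ ((n : ℤ) - (c : ℤ))) ↔ n % d = c % d := by
    rw [← Nat.modEq_iff_dvd]
    exact ⟨fun h => h.symm, fun h => Nat.ModEq.symm h⟩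
  by_cases h : n % d = c % d
  · rw [if_pos (h2.mpr h), if_pos h]
    ring
  · rw [if_neg (fun hh => h (h2.mp hh)), if_neg h]
    ring

lemma newQ_eq (u : ℕ → ℂ) (v H q c : ℕ) (hq : 0 < q) :
    newQ u v H q c
      = ∑ b ∈ frac q, ee (-((c : ℝ) * ((b : ℝ) / q))) * segSum u v H ((b : ℝ) / q) := by
  have key := (ArithmeticFunction.sum_eq_iff_sum_mul_moebius_eq
    (f := fun d : ℕ => ∑ b ∈ frac d, ee (-((c : ℝ) * ((b : ℝ) / d))) * segSum u v H ((b : ℝ) / d))
    (g := fun d : ℕ => (d : ℂ) * Zc u v H d c)).mp (by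
      intro n hn
      rw [← sum_range_segSum u v H n c hn]
      exact (sum_range_eq_sum_divisors
        (fun α => ee (-((c : ℝ) * α)) * segSum u v H α) n hn).symm) q hq
  unfold newQ
  exact key

lemma parseval_frac (q : ℕ) (hq : 0 < q) (g : ℕ → ℂ) :
    ∑ c ∈ range q, ‖∑ b ∈ frac q, ee (-((c : ℝ) * ((b : ℝ) / q))) * g b‖ ^ 2
      = q * ∑ b ∈ frac q, ‖g b‖ ^ 2 := by
  have h := parseval_mod q hq.ne' (fun b => if b ∈ frac q then (starRingEnd ℂ) (g b) else 0)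
  have h1 : ∀ c : ℕ, ‖∑ b ∈ range q, ee ((b : ℝ) * c / q) * (if b ∈ frac q then (starRingEnd ℂ) (g b) else 0)‖
      = ‖∑ b ∈ frac q, ee (-((c : ℝ) * ((b : ℝ) / q))) * g b‖ := by
    intro c
    have h2 : ∑ b ∈ range q, ee ((b : ℝ) * c / q) * (if b ∈ frac q then (starRingEnd ℂ) (g b) else 0)
        = (starRingEnd ℂ) (∑ b ∈ frac q, ee (-((c : ℝ) * ((b : ℝ) / q))) * g b) := by
      rw [map_sum]
      have h3 : frac q = (range q).filter (fun b => b ∈ frac q) := by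
        ext b
        unfold frac
        simp only [Finset.mem_filter, Finset.mem_range]
        tauto
      conv_rhs => rw [h3, Finset.sum_filter]
      refine Finset.sum_congr rfl fun b _ => ?_
      split_ifs with hb
      · rw [map_mul, conj_ee]
        congr 2
        ring
      · simp
    rw [h2, Complex.norm_conj]
  simp_rw [h1] at h
  rw [h]
  congr 1
  have h3 : frac q = (range q).filter (fun b => b ∈ frac q) := by
    ext b
    unfold frac
    simp only [Finset.mem_filter, Finset.mem_range]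
    tauto
  conv_rhs => rw [h3, Finset.sum_filter]
  refine Finset.sum_congr rfl fun b _ => ?_
  split_ifs with hb
  · rw [Complex.norm_conj]
  · simp

lemma sum_newQ_sq (u : ℕ → ℂ) (v H q : ℕ) (hq : 0 < q) :
    ∑ c ∈ range q, ‖newQ u v H q c‖ ^ 2 = q * arcSum (fun m => u (v + 1 + m)) H q 0 := by
  have h1 : ∀ c : ℕ, newQ u v H q c
      = ∑ b ∈ frac q, ee (-((c : ℝ) * ((b : ℝ) / q))) * segSum u v H ((b : ℝ) / q) :=
    fun c => newQ_eq u v H q c hq
  simp_rw [h1]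
  rw [parseval_frac q hq (fun b => segSum u v H ((b : ℝ) / q))]
  unfold arcSum
  congr 1
  refine Finset.sum_congr rfl fun b _ => ?_
  rw [norm_segSum, add_zero]

/-- The large sieve for the new parts. -/
theorem large_sieve_new (u : ℕ → ℂ) (v H Q : ℕ) (hQ : 1 ≤ Q) :
    ∑ q ∈ Icc 1 Q, (1 / (q : ℝ)) * ∑ c ∈ range q, ‖newQ u v H q c‖ ^ 2
      ≤ π ^ 2 / 4 * ((Q : ℝ) ^ 2 + 2 * H) * ∑ n ∈ Ioc v (v + H), ‖u n‖ ^ 2 := by
  have h1 := large_sieve (fun m => u (v + 1 + m)) H Q hQ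
  have h2 : ∑ n ∈ range H, ‖u (v + 1 + n)‖ ^ 2 = ∑ n ∈ Ioc v (v + H), ‖u n‖ ^ 2 := by
    have h3 : Ioc v (v + H) = Ico (v + 1) (v + 1 + H) := by
      ext n; simp only [Finset.mem_Ioc, Finset.mem_Ico]; omega
    rw [h3, Finset.sum_Ico_eq_sum_range, Nat.add_sub_cancel_left]
  rw [h2] at h1
  refine le_trans (le_of_eq ?_) h1
  refine Finset.sum_congr rfl fun q hq => ?_
  rw [Finset.mem_Icc] at hq
  rw [sum_newQ_sq u v H q (by omega)]
  have : (q : ℝ) ≠ 0 := by exact_mod_cast (by omega : q ≠ 0)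
  field_simp

end Pool.Agent.MC
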