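import Mathlib

set_option autoImplicit false

namespace Pool.Agent.MC

open Finset Real ArithmeticFunction

lemma totient_mul_prod_real (n : ℕ) :
    (Nat.totient n : ℝ) * ∏ p ∈ n.primeFactors, (p : ℝ) = n * ∏ p ∈ n.primeFactors, ((p : ℝ) - 1) := by
  have h := Nat.totient_mul_prod_primeFactors n
  have h2 : ((Nat.totient n * ∏ p ∈ n.primeFactors, p : ℕ) : ℝ)
      = ((n * ∏ p ∈ n.primeFactors, (p - 1) : ℕ) : ℝ) := by rw [h]
  push_cast at h2
  rw [h2]
  congr 1
  refine Finset.prod_congr rfl fun p hp => ?_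
  have := (Nat.prime_of_mem_primeFactors hp).one_le
  rw [Nat.cast_sub this, Nat.cast_one]

lemma totient_squarefree (q : ℕ) (hs : Squarefree q) :
    (Nat.totient q : ℝ) = ∏ p ∈ q.primeFactors, ((p : ℝ) - 1) := by
  have h := totient_mul_prod_real q
  have h1 : ∏ p ∈ q.primeFactors, (p : ℝ) = q := by
    have h2 : ((∏ p ∈ q.primeFactors, p : ℕ) : ℝ) = q := by
      rw [Nat.prod_primeFactors_of_squarefree hs]
    push_cast at h2
    exact h2
  rw [h1, mul_comm] at h
  have hq : (q : ℝ) ≠ 0 := by exact_mod_cast hs.ne_zero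
  exact mul_left_cancel₀ hq h

lemma div_totient (n : ℕ) (hn : 0 < n) :
    (n : ℝ) / Nat.totient n = ∏ p ∈ n.primeFactors, (1 + 1 / ((p : ℝ) - 1)) := by
  have h := totient_mul_prod_real n
  have hφ : (0 : ℝ) < Nat.totient n := by exact_mod_cast Nat.totient_pos.mpr hn
  have hp : ∀ p ∈ n.primeFactors, (0 : ℝ) < (p : ℝ) - 1 := by
    intro p hp
    have : (2 : ℝ) ≤ p := by exact_mod_cast (Nat.prime_of_mem_primeFactors hp).two_le
    linarith
  have hprod : 0 < ∏ p ∈ n.primeFactors, ((p : ℝ) - 1) := Finset.prod_pos hp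
  have h1 : ∏ p ∈ n.primeFactors, (1 + 1 / ((p : ℝ) - 1))
      = (∏ p ∈ n.primeFactors, (p : ℝ)) / ∏ p ∈ n.primeFactors, ((p : ℝ) - 1) := by
    rw [← Finset.prod_div_distrib]
    refine Finset.prod_congr rfl fun p hpp => ?_
    have := hp p hpp
    field_simp
    ring
  rw [h1, div_eq_div_iff hφ.ne' hprod.ne']
  linarith

lemma moebius_sq (e : ℕ) : (moebius e : ℝ) ^ 2 = if Squarefree e then 1 else 0 := by
  split_ifs with h
  · rcases (moebius_ne_zero_iff_eq_or.mp (moebius_ne_zero_iff_squarefree.mpr h)) with h | h <;>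
      simp [h]
  · rw [moebius_eq_zero_of_not_squarefree h]
    simp

/-- `∑_{e ∣ n} μ(e)^2 / φ(e) = n / φ(n)`. -/
lemma sum_moebius_sq_div_totient (n : ℕ) (hn : 0 < n) :
    ∑ e ∈ n.divisors, (moebius e : ℝ) ^ 2 / Nat.totient e = (n : ℝ) / Nat.totient n := by
  rw [div_totient n hn, Finset.prod_one_add]
  have h1 : ∑ e ∈ n.divisors, (moebius e : ℝ) ^ 2 / Nat.totient e
      = ∑ e ∈ n.divisors.filter Squarefree, ∏ p ∈ e.primeFactors, 1 / ((p : ℝ) - 1) := by
    rw [Finset.sum_filter]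
    refine Finset.sum_congr rfl fun e _ => ?_
    rw [moebius_sq]
    split_ifs with h
    · rw [totient_squarefree e h, Finset.prod_div_distrib, Finset.prod_const_one]
    · simp
  rw [h1]
  refine Finset.sum_bij' (fun e _ => e.primeFactors) (fun t _ => ∏ p ∈ t, p) ?_ ?_ ?_ ?_ ?_
  · intro e he
    rw [Finset.mem_filter, Nat.mem_divisors] at he
    rw [Finset.mem_powerset]
    exact Nat.primeFactors_mono he.1.1 he.1.2
  · intro t ht
    rw [Finset.mem_powerset] at ht
    rw [Finset.mem_filter, Nat.mem_divisors]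
    refine ⟨⟨?_, hn.ne'⟩, ?_⟩
    · exact (Finset.prod_dvd_prod_of_subset _ _ _ ht).trans (Nat.prod_primeFactors_dvd n)
    · have hsq : Squarefree (∏ p ∈ n.primeFactors, p) := by
        have := Finset.squarefree_prod_of_pairwise_isCoprime (s := n.primeFactors) (f := fun p => p) ?_ ?_
        · exact this
        · intro p hp q hq hpq
          have hpp := Nat.prime_of_mem_primeFactors (Finset.mem_coe.mp hp)
          have hqp := Nat.prime_of_mem_primeFactors (Finset.mem_coe.mp hq)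
          simp only [Function.onFun]
          rw [← Nat.coprime_iff_isRelPrime]
          exact (Nat.coprime_primes hpp hqp).mpr hpq
        · intro p hp
          exact (Nat.prime_of_mem_primeFactors hp).squarefree
      exact hsq.squarefree_of_dvd (Finset.prod_dvd_prod_of_subset _ _ _ ht)
  · intro e he
    rw [Finset.mem_filter] at he
    exact Nat.prod_primeFactors_of_squarefree he.2
  · intro t ht
    rw [Finset.mem_powerset] at ht
    exact Nat.primeFactors_prod fun p hp => Nat.prime_of_mem_primeFactors (ht hp)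
  · intro e _
    rfl

/-- `∑_{x.1 x.2 = n} μ(x.1) x.2 / φ(x.2) = μ(n)^2 / φ(n)`. -/
lemma sum_moebius_mul_div_totient (n : ℕ) (hn : 0 < n) :
    ∑ x ∈ n.divisorsAntidiagonal, (moebius x.1 : ℝ) * ((x.2 : ℝ) / Nat.totient x.2)
      = (moebius n : ℝ) ^ 2 / Nat.totient n :=
  (ArithmeticFunction.sum_eq_iff_sum_mul_moebius_eq
    (f := fun e : ℕ => (moebius e : ℝ) ^ 2 / Nat.totient e)
    (g := fun e : ℕ => (e : ℝ) / Nat.totient e)).mp
    (fun m hm => sum_moebius_sq_div_totient m hm) n hn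

/-- a crude lower bound for the totient function -/
lemma le_two_mul_totient_sq (n : ℕ) (hn : 0 < n) : (n : ℝ) ≤ 2 * (Nat.totient n : ℝ) ^ 2 := by
  have h := totient_mul_prod_real n
  have hφ : (0 : ℝ) < Nat.totient n := by exact_mod_cast Nat.totient_pos.mpr hn
  set s := n.primeFactors with hs
  set R : ℝ := ∏ p ∈ s, (p : ℝ) with hR
  set S : ℝ := ∏ p ∈ s, ((p : ℝ) - 1) with hS
  have hp1 : ∀ p ∈ s, (1 : ℝ) ≤ (p : ℝ) - 1 := by
    intro p hp
    have : (2 : ℝ) ≤ p := by exact_mod_cast (Nat.prime_of_mem_primeFactors hp).two_le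
    linarith
  have hRpos : 0 < R := Finset.prod_pos fun p hp => by linarith [hp1 p hp]
  have hSpos : 0 < S := Finset.prod_pos fun p hp => by linarith [hp1 p hp]
  have hnR : (0 : ℝ) < n := by exact_mod_cast hn
  have hRn : R ≤ n := by
    have h1 : (∏ p ∈ n.primeFactors, p) ≤ n := Nat.le_of_dvd hn (Nat.prod_primeFactors_dvd n)
    have h2 : ((∏ p ∈ n.primeFactors, p : ℕ) : ℝ) ≤ n := by exact_mod_cast h1
    push_cast at h2
    exact h2
  -- R ≤ 2 S^2
  have hRS : R ≤ 2 * S ^ 2 := by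
    have h3 : ∀ p ∈ s, p ≠ 2 → (p : ℝ) ≤ ((p : ℝ) - 1) ^ 2 := by
      intro p hp hp2
      have h4 := (Nat.prime_of_mem_primeFactors hp).two_le
      have : (3 : ℝ) ≤ p := by exact_mod_cast (by omega : 3 ≤ p)
      nlinarith
    by_cases h2 : 2 ∈ s
    · rw [hR, hS, ← Finset.mul_prod_erase s _ h2, ← Finset.mul_prod_erase s _ h2]
      have h5 : ∏ p ∈ s.erase 2, (p : ℝ) ≤ (∏ p ∈ s.erase 2, ((p : ℝ) - 1)) ^ 2 := by
        rw [← Finset.prod_pow]
        refine Finset.prod_le_prod (fun p _ => by positivity) ?_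
        intro p hp
        rw [Finset.mem_erase] at hp
        exact h3 p hp.2 hp.1
      push_cast
      nlinarith
    · have h5 : R ≤ S ^ 2 := by
        rw [hR, hS, ← Finset.prod_pow]
        refine Finset.prod_le_prod (fun p _ => by positivity) ?_
        intro p hp
        exact h3 p hp (fun h => h2 (h ▸ hp))
      nlinarith [sq_nonneg S]
  -- φ R = n S, so φ^2 R^2 = n^2 S^2 ≥ n^2 R / 2 ≥ n R^2 / 2
  have h6 : (Nat.totient n : ℝ) ^ 2 * R ^ 2 = (n : ℝ) ^ 2 * S ^ 2 := by
    rw [← mul_pow, ← mul_pow, h]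
  have h7 : (n : ℝ) * R ^ 2 ≤ 2 * (Nat.totient n : ℝ) ^ 2 * R ^ 2 := by
    calc (n : ℝ) * R ^ 2 = n * R * R := by ring
      _ ≤ n * n * R := by gcongr
      _ ≤ n * n * (2 * S ^ 2) := by gcongr
      _ = 2 * ((n : ℝ) ^ 2 * S ^ 2) := by ring
      _ = 2 * ((Nat.totient n : ℝ) ^ 2 * R ^ 2) := by rw [h6]
      _ = 2 * (Nat.totient n : ℝ) ^ 2 * R ^ 2 := by ring
  exact le_of_mul_le_mul_right h7 (by positivity)

end Pool.Agent.MC
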