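import Mathlib
import Pool.Agent.Lib.MP_9cfc0a_nt.Mg.G074
import Pool.Agent.Lib.MP_9cfc0a_nt.TotientLemmas

set_option autoImplicit false

namespace Pool.Agent.MC

open Finset MeasureTheory Real

/-- pairs `(q, c)`, `q ≤ Q`, `c < q`, for which some initial segment has a large new part -/
noncomputable def badPairs (u : ℕ → ℂ) (K Q : ℕ) (t : ℝ) : Finset ((_ : ℕ) × ℕ) := by
  classical
  exact ((Icc 1 Q).sigma (fun q => range q)).filter
    (fun p => ∃ k, k < 2 ^ K ∧ t * p.1 < ‖newQ u 0 k p.1 p.2‖ ^ 2)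

lemma card_badPairs_le (u : ℕ → ℂ) (K Q : ℕ) (hQ : 1 ≤ Q) (t : ℝ) (ht : 0 ≤ t) :
    ((badPairs u K Q t).card : ℝ) * t
      ≤ (K : ℝ) ^ 2 * (π ^ 2 / 4 * ((Q : ℝ) ^ 2 + 2 ^ K)) * ∑ n ∈ Ioc 0 (2 ^ K), ‖u n‖ ^ 2 := by
  classical
  set x : ℕ → ℕ → ℕ := fun q c =>
    if h : ∃ k, k < 2 ^ K ∧ t * q < ‖newQ u 0 k q c‖ ^ 2 then h.choose else 0 with hx
  have hxK : ∀ q c, x q c < 2 ^ K := by
    intro q c
    simp only [hx]
    split_ifs with h
    · exact h.choose_spec.1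
    · positivity
  refine le_trans ?_ (maximal_large_sieve u K Q hQ x hxK)
  have h1 : ∑ q ∈ Icc 1 Q, (1 / (q : ℝ)) * ∑ c ∈ range q, ‖newQ u 0 (x q c) q c‖ ^ 2
      = ∑ p ∈ (Icc 1 Q).sigma (fun q => range q), (1 / (p.1 : ℝ)) * ‖newQ u 0 (x p.1 p.2) p.1 p.2‖ ^ 2 := by
    rw [Finset.sum_sigma]
    refine Finset.sum_congr rfl fun q _ => ?_
    rw [Finset.mul_sum]
  rw [h1, ← nsmul_eq_mul, ← Finset.sum_const]
  refine le_trans ?_ (Finset.sum_le_sum_of_subset_of_nonneg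
    (s := badPairs u K Q t) ?_ (fun _ _ _ => by positivity))
  · refine Finset.sum_le_sum fun p hp => ?_
    unfold badPairs at hp
    rw [Finset.mem_filter, Finset.mem_sigma, Finset.mem_Icc] at hp
    obtain ⟨⟨⟨hq1, _⟩, _⟩, hex⟩ := hp
    have hxp : x p.1 p.2 = hex.choose := by
      simp only [hx]
      rw [dif_pos hex]
    have h2 := hex.choose_spec.2
    rw [← hxp] at h2
    have hq0 : (0 : ℝ) < p.1 := by exact_mod_cast hq1
    rw [one_div, ← div_eq_inv_mul, le_div_iff₀ hq0]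
    exact h2.le
  · unfold badPairs
    exact Finset.filter_subset _ _

lemma newQ_mod (u : ℕ → ℂ) (v H q a : ℕ) : newQ u v H q (a % q) = newQ u v H q a := by
  unfold newQ
  refine Finset.sum_congr rfl fun x hx => ?_
  rw [Nat.mem_divisorsAntidiagonal] at hx
  have hd : x.2 ∣ q := ⟨x.1, by rw [← hx.1]; ring⟩
  have : Zc u v H x.2 (a % q) = Zc u v H x.2 a := by
    unfold Zc
    rw [Nat.mod_mod_of_dvd a hd]
  rw [this]

/-- mean square of the von Mangoldt function -/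
lemma sum_vonMangoldt_sq_le (N : ℕ) :
    ∑ n ∈ Ioc 0 N, (ArithmeticFunction.vonMangoldt n) ^ 2 ≤ Real.log N * ((Real.log 4 + 4) * N) := by
  have h1 : ∀ n ∈ Ioc 0 N, (ArithmeticFunction.vonMangoldt n) ^ 2
      ≤ Real.log N * ArithmeticFunction.vonMangoldt n := by
    intro n hn
    rw [Finset.mem_Ioc] at hn
    have h2 : ArithmeticFunction.vonMangoldt n ≤ Real.log N := by
      refine ArithmeticFunction.vonMangoldt_le_log.trans ?_
      apply Real.log_le_log (by exact_mod_cast hn.1)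
      exact_mod_cast hn.2
    rw [sq]
    exact mul_le_mul_of_nonneg_right h2 ArithmeticFunction.vonMangoldt_nonneg
  refine (Finset.sum_le_sum h1).trans ?_
  rw [← Finset.mul_sum]
  have h3 : ∑ n ∈ Ioc 0 N, ArithmeticFunction.vonMangoldt n ≤ (Real.log 4 + 4) * N := by
    have := Chebyshev.psi_le_const_mul_self (x := (N : ℝ)) (Nat.cast_nonneg N)
    unfold Chebyshev.psi at this
    rwa [Nat.floor_natCast] at this
  have h4 : 0 ≤ Real.log N := Real.log_natCast_nonneg N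
  exact mul_le_mul_of_nonneg_left h3 h4

lemma log_two_pow_le (K : ℕ) : Real.log ((2 ^ K : ℕ) : ℝ) ≤ K := by
  push_cast
  rw [Real.log_pow]
  have : Real.log 2 ≤ 1 := by
    have := Real.log_two_lt_d9
    linarith
  nlinarith [Nat.cast_nonneg (α := ℝ) K]

end Pool.Agent.MC
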