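import Mathlib
import Pool.Agent.Lib.MP_9cfc0a_nt.WeakType

set_option autoImplicit false

namespace Pool.Agent.MC

open Finset MeasureTheory Real

/-- the von Mangoldt function, complex valued -/
noncomputable def uL (n : ℕ) : ℂ := ((ArithmeticFunction.vonMangoldt n : ℝ) : ℂ)

/-- `ψ(x; q, a)` -/
noncomputable def psiR (x : ℝ) (q a : ℕ) : ℝ :=
  ∑ n ∈ (Finset.Icc 1 ⌊x⌋₊).filter (fun n => n % q = a % q), ArithmeticFunction.vonMangoldt n

lemma psiR_eq_Zc (x : ℝ) (q a : ℕ) : ((psiR x q a : ℝ) : ℂ) = Zc uL 0 ⌊x⌋₊ q a := by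
  unfold psiR Zc
  rw [Finset.sum_filter, zero_add]
  push_cast
  have h1 : Icc 1 ⌊x⌋₊ = Ioc 0 ⌊x⌋₊ := by
    ext n; simp only [Finset.mem_Icc, Finset.mem_Ioc]; omega
  rw [h1]
  refine Finset.sum_congr rfl fun n _ => ?_
  split_ifs with h
  · rfl
  · simp

/-- error term -/
noncomputable def errR (x : ℝ) (q a : ℕ) : ℝ := psiR x q a - x / (Nat.totient q : ℝ)

/-- new part of the error term -/
noncomputable def errNew (x : ℝ) (q a : ℕ) : ℝ :=
  ∑ d ∈ q.divisors, (ArithmeticFunction.moebius (q / d) : ℝ) * ((d : ℝ) / (q : ℝ)) * errR x d a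

lemma mul_errNew (x : ℝ) (q a : ℕ) (hq : 0 < q) :
    (q : ℝ) * errNew x q a
      = ∑ y ∈ q.divisorsAntidiagonal, (ArithmeticFunction.moebius y.1 : ℝ) * ((y.2 : ℝ) * errR x y.2 a) := by
  have hqR : (q : ℝ) ≠ 0 := by exact_mod_cast hq.ne'
  unfold errNew
  rw [Nat.sum_divisorsAntidiagonal' (f := fun i j => (ArithmeticFunction.moebius i : ℝ) * ((j : ℝ) * errR x j a)),
    Finset.mul_sum]
  refine Finset.sum_congr rfl fun d _ => ?_
  field_simp

/-- Moebius inversion: the error term is the weighted sum of its new parts. -/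
lemma errR_eq_sum_errNew (x : ℝ) (q a : ℕ) (hq : 0 < q) :
    errR x q a = ∑ d ∈ q.divisors, ((d : ℝ) / (q : ℝ)) * errNew x d a := by
  have hqR : (q : ℝ) ≠ 0 := by exact_mod_cast hq.ne'
  have key := (ArithmeticFunction.sum_eq_iff_sum_mul_moebius_eq
    (f := fun d : ℕ => (d : ℝ) * errNew x d a)
    (g := fun d : ℕ => (d : ℝ) * errR x d a)).mpr (by
      intro n hn
      rw [mul_errNew x n a hn]) q hq
  have h2 : ∑ d ∈ q.divisors, ((d : ℝ) / (q : ℝ)) * errNew x d a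
      = (∑ d ∈ q.divisors, (d : ℝ) * errNew x d a) / q := by
    rw [Finset.sum_div]
    refine Finset.sum_congr rfl fun d _ => ?_
    ring
  rw [h2, key]
  field_simp

lemma mul_errNew_eq (x : ℝ) (q a : ℕ) (hq : 0 < q) :
    (((q : ℝ) * errNew x q a : ℝ) : ℂ)
      = newQ uL 0 ⌊x⌋₊ q a
        - ((x * ((ArithmeticFunction.moebius q : ℝ) ^ 2 / Nat.totient q) : ℝ) : ℂ) := by
  rw [mul_errNew x q a hq]
  unfold newQ
  rw [← sum_moebius_mul_div_totient q hq, Finset.mul_sum]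
  push_cast
  rw [← Finset.sum_sub_distrib]
  refine Finset.sum_congr rfl fun y _ => ?_
  rw [← psiR_eq_Zc]
  unfold errR
  push_cast
  ring

lemma norm_newQ_lower (X x lam : ℝ) (hlam : 0 < lam) (q a : ℕ) (hq : 0 < q) (hx0 : 0 < x)
    (hxX : x ≤ X) (hq3 : 3 * Real.sqrt X < lam * q)
    (h : lam * Real.sqrt (x / q) < |errNew x q a|) :
    lam ^ 2 / 4 * x * q < ‖newQ uL 0 ⌊x⌋₊ q a‖ ^ 2 := by
  have hqR : (0 : ℝ) < q := by exact_mod_cast hq
  have hφ : (0 : ℝ) < Nat.totient q := by exact_mod_cast Nat.totient_pos.mpr hq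
  have hX0 : 0 < X := lt_of_lt_of_le hx0 hxX
  set m : ℝ := x * ((ArithmeticFunction.moebius q : ℝ) ^ 2 / Nat.totient q) with hm
  have hm0 : 0 ≤ m := by positivity
  have hsq1 : (ArithmeticFunction.moebius q : ℝ) ^ 2 ≤ 1 := by
    rw [moebius_sq]
    split_ifs <;> norm_num
  have hmx : m ≤ x / Nat.totient q := by
    rw [hm, ← mul_div_assoc]
    apply div_le_div_of_nonneg_right _ hφ.le
    nlinarith
  -- m^2 ≤ 2 x^2 / q
  have hm2 : m ^ 2 * q ≤ 2 * x ^ 2 := by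
    have h1 := le_two_mul_totient_sq q hq
    have h2 : m * Nat.totient q ≤ x := by
      rwa [le_div_iff₀ hφ] at hmx
    have h3 : (m * Nat.totient q) ^ 2 ≤ x ^ 2 := by
      apply pow_le_pow_left₀ (by positivity) h2
    calc m ^ 2 * q ≤ m ^ 2 * (2 * (Nat.totient q : ℝ) ^ 2) := by gcongr
      _ = 2 * (m * Nat.totient q) ^ 2 := by ring
      _ ≤ 2 * x ^ 2 := by linarith
  have hsx : Real.sqrt (x / q) ^ 2 = x / q := Real.sq_sqrt (by positivity)
  set s : ℝ := Real.sqrt (x / q) with hs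
  have hs0 : 0 < s := Real.sqrt_pos.mpr (by positivity)
  have h1 : lam * s * q < |(q : ℝ) * errNew x q a| := by
    rw [abs_mul, abs_of_pos hqR]
    nlinarith
  have h2 : |(q : ℝ) * errNew x q a| ≤ ‖newQ uL 0 ⌊x⌋₊ q a‖ + m := by
    have h3 : |(q : ℝ) * errNew x q a| = ‖(((q : ℝ) * errNew x q a : ℝ) : ℂ)‖ := by
      rw [Complex.norm_real, Real.norm_eq_abs]
    rw [h3, mul_errNew_eq x q a hq]
    refine (norm_sub_le _ _).trans ?_
    rw [Complex.norm_real, Real.norm_eq_abs, abs_of_nonneg hm0]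
  -- m ≤ lam s q / 2
  have h4 : m ≤ lam * s * q / 2 := by
    have h5 : m ^ 2 ≤ (lam * s * q / 2) ^ 2 := by
      have h6 : (lam * s * q / 2) ^ 2 = lam ^ 2 * q * x / 4 := by
        have : (lam * s * q / 2) ^ 2 = lam ^ 2 * q ^ 2 * s ^ 2 / 4 := by ring
        rw [this, hsx]
        field_simp
      rw [h6]
      have h7 : 9 * x ≤ lam ^ 2 * q ^ 2 := by
        have h8 : (3 * Real.sqrt X) ^ 2 ≤ (lam * q) ^ 2 := by
          apply pow_le_pow_left₀ (by positivity) hq3.le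
        have h9 : (3 * Real.sqrt X) ^ 2 = 9 * X := by
          rw [mul_pow, Real.sq_sqrt hX0.le]; norm_num
        rw [h9, mul_pow] at h8
        linarith
      have h10 : m ^ 2 * q ≤ lam ^ 2 * q * x / 4 * q := by
        calc m ^ 2 * q ≤ 2 * x ^ 2 := hm2
          _ ≤ (9 * x) * x / 4 := by nlinarith
          _ ≤ (lam ^ 2 * q ^ 2) * x / 4 := by gcongr
          _ = lam ^ 2 * q * x / 4 * q := by ring
      exact le_of_mul_le_mul_right h10 hqR
    exact le_of_sq_le_sq h5 (by positivity)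
  have h5 : lam * s * q / 2 < ‖newQ uL 0 ⌊x⌋₊ q a‖ := by linarith
  have h6 : (lam * s * q / 2) ^ 2 < ‖newQ uL 0 ⌊x⌋₊ q a‖ ^ 2 := by
    apply pow_lt_pow_left₀ h5 (by positivity) (by norm_num)
  have h7 : (lam * s * q / 2) ^ 2 = lam ^ 2 / 4 * x * q := by
    have : (lam * s * q / 2) ^ 2 = lam ^ 2 * q ^ 2 * s ^ 2 / 4 := by ring
    rw [this, hsx]
    field_simp
  rwa [h7] at h6

lemma card_badPairs_bound (K : ℕ) (lam : ℝ) (hlam : 0 < lam) :
    ((badPairs uL K (Nat.sqrt (2 ^ K)) (lam ^ 2 / 8 * 2 ^ K)).card : ℝ)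
      ≤ 216 * (K : ℝ) ^ 3 * 2 ^ K / lam ^ 2 := by
  have hQ1 : 1 ≤ Nat.sqrt (2 ^ K) := by
    rw [Nat.le_sqrt]
    simpa using Nat.one_le_two_pow
  have h1 := card_badPairs_le uL K (Nat.sqrt (2 ^ K)) hQ1 (lam ^ 2 / 8 * 2 ^ K) (by positivity)
  have h2 : ((Nat.sqrt (2 ^ K) : ℕ) : ℝ) ^ 2 ≤ 2 ^ K := by
    have := Nat.sqrt_le' (2 ^ K)
    exact_mod_cast this
  have h3 : ∑ n ∈ Ioc 0 (2 ^ K), ‖uL n‖ ^ 2 ≤ (K : ℝ) * (5.4 * 2 ^ K) := by
    have h4 := sum_vonMangoldt_sq_le (2 ^ K)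
    have h5 : ∀ n ∈ Ioc 0 (2 ^ K), ‖uL n‖ ^ 2 = (ArithmeticFunction.vonMangoldt n) ^ 2 := by
      intro n _
      unfold uL
      rw [Complex.norm_real, Real.norm_eq_abs, sq_abs]
    rw [Finset.sum_congr rfl h5]
    refine h4.trans ?_
    have h6 := log_two_pow_le K
    have h7 : Real.log 4 ≤ 1.4 := by
      have : Real.log 4 = 2 * Real.log 2 := by
        rw [show (4 : ℝ) = 2 ^ 2 by norm_num, Real.log_pow]
        norm_num
      have := Real.log_two_lt_d9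
      linarith
    have h8 : 0 ≤ Real.log 4 := Real.log_nonneg (by norm_num)
    have h9 : (Real.log 4 + 4) * ((2 ^ K : ℕ) : ℝ) ≤ 5.4 * 2 ^ K := by
      push_cast
      apply mul_le_mul_of_nonneg_right (by linarith) (by positivity)
    exact mul_le_mul h6 h9 (by positivity) (Nat.cast_nonneg K)
  have hpi : π ^ 2 ≤ 10 := by
    have := Real.pi_lt_d4
    have := Real.pi_pos
    nlinarith
  have h4 : ((badPairs uL K (Nat.sqrt (2 ^ K)) (lam ^ 2 / 8 * 2 ^ K)).card : ℝ) * (lam ^ 2 / 8 * 2 ^ K)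
      ≤ (K : ℝ) ^ 2 * (10 / 4 * ((2 : ℝ) ^ K + 2 ^ K)) * ((K : ℝ) * (5.4 * 2 ^ K)) := by
    refine h1.trans ?_
    gcongr
  rw [le_div_iff₀ (by positivity)]
  have h5 : (0 : ℝ) < 2 ^ K := by positivity
  have h6 : ((badPairs uL K (Nat.sqrt (2 ^ K)) (lam ^ 2 / 8 * 2 ^ K)).card : ℝ) * lam ^ 2 * (2 ^ K / 8)
      ≤ 216 * (K : ℝ) ^ 3 * 2 ^ K * (2 ^ K / 8) := by
    calc ((badPairs uL K (Nat.sqrt (2 ^ K)) (lam ^ 2 / 8 * 2 ^ K)).card : ℝ) * lam ^ 2 * (2 ^ K / 8)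
        = ((badPairs uL K (Nat.sqrt (2 ^ K)) (lam ^ 2 / 8 * 2 ^ K)).card : ℝ) * (lam ^ 2 / 8 * 2 ^ K) := by ring
      _ ≤ (K : ℝ) ^ 2 * (10 / 4 * ((2 : ℝ) ^ K + 2 ^ K)) * ((K : ℝ) * (5.4 * 2 ^ K)) := h4
      _ = 216 * (K : ℝ) ^ 3 * 2 ^ K * (2 ^ K / 8) := by ring
  exact le_of_mul_le_mul_right h6 (by positivity)

end Pool.Agent.MC
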