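import Mathlib
import Pool.Agent.Lib.MP_9cfc0a_nt.WeakType2
import Pool.Agent.Lib.MP_9cfc0a_nt.Mg.G074

set_option autoImplicit false

namespace Pool.Agent.MC

open Complex MeasureTheory Set Filter Topology Asymptotics

/-- the error term, complex valued -/
noncomputable def EC (d a : ℕ) (t : ℝ) : ℂ := ((psiR t d a - t / (Nat.totient d : ℝ) : ℝ) : ℂ)

lemma psiR_le (t : ℝ) (d a : ℕ) : psiR t d a ≤ Chebyshev.psi t := by
  unfold psiR Chebyshev.psi
  have h1 : Finset.Icc 1 ⌊t⌋₊ = Finset.Ioc 0 ⌊t⌋₊ := by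
    ext n; simp only [Finset.mem_Icc, Finset.mem_Ioc]; omega
  rw [h1]
  exact Finset.sum_le_sum_of_subset_of_nonneg (Finset.filter_subset _ _)
    (fun _ _ _ => ArithmeticFunction.vonMangoldt_nonneg)

lemma psiR_nonneg (t : ℝ) (d a : ℕ) : 0 ≤ psiR t d a := by
  unfold psiR
  exact Finset.sum_nonneg fun _ _ => ArithmeticFunction.vonMangoldt_nonneg

lemma psiR_mono (d a : ℕ) (t u : ℝ) (h : t ≤ u) : psiR t d a ≤ psiR u d a := by
  unfold psiR
  refine Finset.sum_le_sum_of_subset_of_nonneg ?_ (fun _ _ _ => ArithmeticFunction.vonMangoldt_nonneg)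
  apply Finset.filter_subset_filter
  apply Finset.Icc_subset_Icc le_rfl
  exact Nat.floor_le_floor h

lemma psiR_le_mul (t : ℝ) (d a : ℕ) : psiR t d a ≤ 6 * |t| := by
  rcases le_or_gt 0 t with h | h
  · have h1 := Chebyshev.psi_le_const_mul_self h
    have h2 := psiR_le t d a
    have h3 : Real.log 4 ≤ 2 := by
      have h4 : Real.log 4 = 2 * Real.log 2 := by
        rw [show (4 : ℝ) = 2 ^ 2 by norm_num, Real.log_pow]; norm_num
      have h5 := Real.log_two_lt_d9
      linarith
    rw [abs_of_nonneg h]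
    nlinarith
  · have h1 : ⌊t⌋₊ = 0 := Nat.floor_of_nonpos h.le
    have h2 : psiR t d a = 0 := by
      unfold psiR
      rw [h1]
      simp
    rw [h2]
    positivity

lemma EC_bound (d a : ℕ) (hd : 0 < d) (t : ℝ) : ‖EC d a t‖ ≤ 7 * |t| := by
  unfold EC
  rw [Complex.norm_real, Real.norm_eq_abs]
  have h1 := psiR_le_mul t d a
  have h2 := psiR_nonneg t d a
  have hφ : (1 : ℝ) ≤ Nat.totient d := by exact_mod_cast Nat.totient_pos.mpr hd
  have h3 : |t / (Nat.totient d : ℝ)| ≤ |t| := by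
    rw [abs_div, abs_of_pos (by linarith : (0 : ℝ) < Nat.totient d)]
    exact div_le_self (abs_nonneg t) hφ
  calc |psiR t d a - t / (Nat.totient d : ℝ)| ≤ |psiR t d a| + |t / (Nat.totient d : ℝ)| := abs_sub _ _
    _ ≤ 6 * |t| + |t| := by
        rw [abs_of_nonneg h2]
        exact add_le_add h1 h3
    _ = 7 * |t| := by ring

lemma psiR_measurable (d a : ℕ) : Measurable (fun t : ℝ => psiR t d a) := by
  have h1 : (fun t : ℝ => psiR t d a) = (fun N : ℕ => ∑ n ∈ (Finset.Icc 1 N).filter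
    (fun n => n % d = a % d), ArithmeticFunction.vonMangoldt n) ∘ (fun t : ℝ => ⌊t⌋₊) := rfl
  rw [h1]
  exact (measurable_from_top).comp Nat.measurable_floor

lemma EC_measurable (d a : ℕ) : Measurable (EC d a) := by
  unfold EC
  exact Complex.measurable_ofReal.comp ((psiR_measurable d a).sub (by fun_prop))

lemma EC_right_cont (d a : ℕ) (t : ℝ) (ht : 0 ≤ t) : ContinuousWithinAt (EC d a) (Ioi t) t := by
  have h1 : ContinuousWithinAt (fun u : ℝ => ((psiR t d a - u / (Nat.totient d : ℝ) : ℝ) : ℂ)) (Ioi t) t := by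
    apply Continuous.continuousWithinAt
    fun_prop
  refine h1.congr_of_eventuallyEq ?_ rfl
  have h2 : Iio ((⌊t⌋₊ : ℝ) + 1) ∈ 𝓝[>] t :=
    mem_nhdsWithin_of_mem_nhds (Iio_mem_nhds (Nat.lt_floor_add_one t))
  filter_upwards [h2, self_mem_nhdsWithin] with u hu hu'
  have h3 : ⌊u⌋₊ = ⌊t⌋₊ := by
    refine Nat.floor_eq_on_Ico ⌊t⌋₊ u ⟨?_, hu⟩
    exact (Nat.floor_le ht).trans (le_of_lt hu')
  unfold EC psiR
  rw [h3]

lemma psiR_eq_SumC (d a : ℕ) (t : ℝ) :
    ((psiR t d a : ℝ) : ℂ)
      = SumC (fun n => ((ArithmeticFunction.vonMangoldt.residueClass (a : ZMod d) n : ℝ) : ℂ)) t := by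
  unfold psiR SumC
  rw [Finset.sum_filter]
  push_cast
  refine Finset.sum_congr rfl fun n _ => ?_
  unfold ArithmeticFunction.vonMangoldt.residueClass
  by_cases h : n % d = a % d
  · rw [if_pos h, Set.indicator_of_mem]
    exact (ZMod.natCast_eq_natCast_iff' n a d).mpr h
  · rw [if_neg h, Set.indicator_of_notMem]
    exact fun h' => h ((ZMod.natCast_eq_natCast_iff' n a d).mp h')

lemma EC_bound_rpow (d a : ℕ) (hd : 0 < d) (t : ℝ) (ht : 1 < t) : ‖EC d a t‖ ≤ 7 * t ^ (1 : ℝ) := by
  rw [Real.rpow_one]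
  have := EC_bound d a hd t
  rwa [abs_of_pos (by linarith)] at this

/-- Mellin representation of `HA`. -/
lemma HA_eq_MT (d : ℕ) [NeZero d] (a : ℕ) (ha : Nat.Coprime a d) (s : ℂ) (hs : 1 < s.re) :
    HA d (a : ZMod d) s = s * MT (EC d a) s + (d.totient : ℂ)⁻¹ := by
  have hd : 0 < d := Nat.pos_of_ne_zero (NeZero.ne d)
  have hunit : IsUnit (a : ZMod d) := (ZMod.isUnit_iff_coprime a d).mpr ha
  have h0 : HA d (a : ZMod d) s = LSeries (fun n => ((ArithmeticFunction.vonMangoldt.residueClass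
      (a : ZMod d) n : ℝ) : ℂ)) s - (d.totient : ℂ)⁻¹ / (s - 1) :=
    ArithmeticFunction.vonMangoldt.eqOn_LFunctionResidueClassAux hunit hs
  rw [h0]
  set f : ℕ → ℂ := fun n => ((ArithmeticFunction.vonMangoldt.residueClass (a : ZMod d) n : ℝ) : ℂ) with hf
  have hsum : LSeriesSummable f s := by
    refine LSeriesSummable_of_abscissaOfAbsConv_lt_re
      ((ArithmeticFunction.vonMangoldt.abscissaOfAbsConv_residueClass_le_one (a : ZMod d)).trans_lt ?_)
    exact_mod_cast hs
  have hO : (fun n : ℕ => ∑ k ∈ Finset.Icc 1 n, f k) =O[atTop] fun n : ℕ => (n : ℝ) ^ (1 : ℝ) := by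
    refine IsBigO.of_bound 6 (Eventually.of_forall fun n => ?_)
    have h1 := psiR_eq_SumC d a n
    unfold SumC at h1
    rw [Nat.floor_natCast] at h1
    rw [hf, ← h1, Complex.norm_real, Real.norm_of_nonneg (psiR_nonneg _ _ _), Real.rpow_one,
      Real.norm_eq_abs]
    exact psiR_le_mul n d a
  rw [LSeries_eq_mul_integral f zero_le_one hs hsum hO]
  have h2 : ∫ t in Ioi (1 : ℝ), (∑ k ∈ Finset.Icc 1 ⌊t⌋₊, f k) * (t : ℂ) ^ (-(s + 1))
      = MT (EC d a) s + (d.totient : ℂ)⁻¹ * (1 / (s - 1)) := by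
    have hE := MT_integrable (EC d a) 7 1 (EC_measurable d a) (EC_bound_rpow d a hd) s hs
    have hI := MT_id_integrable s hs
    have hI' : IntegrableOn (fun t : ℝ => ((d.totient : ℂ)⁻¹ * (t : ℂ)) * (t : ℂ) ^ (-(s + 1))) (Ioi 1) := by
      have := hI.const_mul ((d.totient : ℂ)⁻¹)
      refine this.congr (ae_of_all _ fun t => ?_)
      simp only
      ring
    rw [← MT_id s hs, ← MT_const_mul]
    unfold MT
    rw [← integral_add hE hI']
    congr 1
    ext t
    have h3 := psiR_eq_SumC d a t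
    unfold SumC at h3
    rw [hf, ← h3]
    unfold EC
    push_cast
    ring
  rw [h2]
  have hs1 : s - 1 ≠ 0 := by
    intro h
    have h4 : s = 1 := by linear_combination h
    rw [h4] at hs
    simp at hs
  field_simp
  ring

/-- Mellin transform of a primitive -/
lemma MT_primitive (f : ℝ → ℂ) (K : ℝ) (hf : Measurable f) (hb : ∀ t, ‖f t‖ ≤ K * |t|)
    (hrc : ∀ t, 0 ≤ t → ContinuousWithinAt f (Ioi t) t) (w : ℂ) (hw : 2 < w.re) :
    MT (fun x => ∫ t in (1 : ℝ)..x, f t) w = (1 / w) * MT f (w - 1) := by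
  have hK : 0 ≤ K := by
    have := hb 1
    rw [abs_one, mul_one] at this
    exact (norm_nonneg _).trans this
  have hw0 : w ≠ 0 := by
    intro h; rw [h] at hw; simp at hw; linarith
  have hint : ∀ a b : ℝ, IntervalIntegrable f volume a b := by
    intro a b
    have h1 : IntervalIntegrable (fun t : ℝ => K * |t|) volume a b :=
      Continuous.intervalIntegrable (by fun_prop) a b
    refine h1.mono_fun hf.aestronglyMeasurable (ae_of_all _ fun t => ?_)
    simp only
    exact (hb t).trans (Real.le_norm_self _)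
  set F : ℝ → ℂ := fun x => ∫ t in (1 : ℝ)..x, f t with hF
  have hFc : Continuous F := intervalIntegral.continuous_primitive hint 1
  have hFb : ∀ t : ℝ, 1 < t → ‖F t‖ ≤ K * t ^ (2 : ℝ) := by
    intro x hx
    have h1 : ‖F x‖ ≤ (K * x) * |x - 1| := by
      refine intervalIntegral.norm_integral_le_of_norm_le_const fun t ht => ?_
      rw [uIoc_of_le hx.le] at ht
      refine (hb t).trans ?_
      rw [abs_of_pos (by linarith [ht.1])]
      gcongr
      exact ht.2
    refine h1.trans ?_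
    rw [abs_of_pos (by linarith)]
    have : x ^ (2 : ℝ) = x ^ 2 := by norm_cast
    rw [this]
    have hx0 : 0 ≤ x := by linarith
    have : 0 ≤ K * x := by positivity
    nlinarith
  have hI1 : IntegrableOn (fun t : ℝ => F t * (t : ℂ) ^ (-(w + 1))) (Ioi 1) :=
    MT_integrable F K 2 hFc.measurable hFb w hw
  have hI2 : IntegrableOn (fun t : ℝ => f t * (t : ℂ) ^ (-((w - 1) + 1))) (Ioi 1) := by
    refine MT_integrable f K 1 hf (fun t ht => ?_) (w - 1) (by simp; linarith)
    rw [Real.rpow_one]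
    have := hb t
    rwa [abs_of_pos (by linarith)] at this
  have hT1 : Tendsto (fun T : ℝ => ∫ t in (1 : ℝ)..T, F t * (t : ℂ) ^ (-(w + 1))) atTop
      (𝓝 (MT F w)) := intervalIntegral_tendsto_integral_Ioi 1 hI1 tendsto_id
  have hT2 : Tendsto (fun T : ℝ => ∫ t in (1 : ℝ)..T, f t * (t : ℂ) ^ (-((w - 1) + 1))) atTop
      (𝓝 (MT f (w - 1))) := intervalIntegral_tendsto_integral_Ioi 1 hI2 tendsto_id
  have hbd : Tendsto (fun T : ℝ => F T * ((T : ℂ) ^ (-w) / (-w))) atTop (𝓝 0) := by
    rw [tendsto_zero_iff_norm_tendsto_zero]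
    have h1 : Tendsto (fun T : ℝ => K / ‖w‖ * T ^ (-(w.re - 2))) atTop (𝓝 0) := by
      have := (tendsto_rpow_neg_atTop (show 0 < w.re - 2 by linarith)).const_mul (K / ‖w‖)
      rwa [mul_zero] at this
    refine squeeze_zero' (Eventually.of_forall fun T => norm_nonneg _) ?_ h1
    filter_upwards [eventually_gt_atTop 1] with T hT
    have hT0 : 0 < T := by linarith
    rw [norm_mul, norm_div, norm_neg, Complex.norm_cpow_eq_rpow_re_of_pos hT0, Complex.neg_re]
    have hw1 : 0 < ‖w‖ := norm_pos_iff.mpr hw0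
    calc ‖F T‖ * (T ^ (-w.re) / ‖w‖) ≤ (K * T ^ (2 : ℝ)) * (T ^ (-w.re) / ‖w‖) := by
          gcongr
          exact hFb T hT
      _ = K / ‖w‖ * (T ^ (2 : ℝ) * T ^ (-w.re)) := by ring
      _ = K / ‖w‖ * T ^ (-(w.re - 2)) := by
          rw [← Real.rpow_add hT0]
          congr 2
          ring
  have hparts : ∀ T : ℝ, 1 < T → ∫ t in (1 : ℝ)..T, F t * (t : ℂ) ^ (-(w + 1))
      = F T * ((T : ℂ) ^ (-w) / (-w)) + (1 / w) * ∫ t in (1 : ℝ)..T, f t * (t : ℂ) ^ (-((w - 1) + 1)) := by
    intro T hT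
    have hvc : ContinuousOn (fun t : ℝ => (t : ℂ) ^ (-w) / (-w)) (uIcc 1 T) := by
      refine ContinuousOn.div_const ?_ _
      refine (continuousOn_cpow_Ioi _).mono ?_
      rw [uIcc_of_le hT.le]
      intro t ht
      exact lt_of_lt_of_le one_pos ht.1
    have hv'c : ContinuousOn (fun t : ℝ => (t : ℂ) ^ (-(w + 1))) (uIcc 1 T) := by
      refine (continuousOn_cpow_Ioi _).mono ?_
      rw [uIcc_of_le hT.le]
      intro t ht
      exact lt_of_lt_of_le one_pos ht.1
    have h1 := intervalIntegral.integral_mul_deriv_eq_deriv_mul_of_hasDeriv_right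
      (u := F) (v := fun t : ℝ => (t : ℂ) ^ (-w) / (-w)) (u' := f)
      (v' := fun t : ℝ => (t : ℂ) ^ (-(w + 1))) (a := 1) (b := T)
      hFc.continuousOn hvc (fun t ht => ?_) (fun t ht => ?_) (hint 1 T) (hv'c.intervalIntegrable)
    · rw [h1]
      have hF1 : F 1 = 0 := by
        rw [hF]
        exact intervalIntegral.integral_same
      rw [hF1, zero_mul, sub_zero]
      rw [sub_eq_add_neg, ← intervalIntegral.integral_neg, ← intervalIntegral.integral_const_mul]
      congr 1
      refine intervalIntegral.integral_congr fun t _ => ?_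
      rw [show -((w - 1) + 1) = -w by ring]
      field_simp
    · rw [min_eq_left hT.le, max_eq_right hT.le] at ht
      have h2 : HasDerivWithinAt F (f t) (Ici t) t :=
        intervalIntegral.integral_hasDerivWithinAt_right (hint 1 t) (t := Ioi t)
          (hf.stronglyMeasurable.stronglyMeasurableAtFilter) (hrc t (by linarith [ht.1]))
      exact h2.mono Ioi_subset_Ici_self
    · rw [min_eq_left hT.le, max_eq_right hT.le] at ht
      have ht0 : t ≠ 0 := by
        have := ht.1
        intro h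
        linarith
      have h2 := hasDerivAt_ofReal_cpow_const' (x := t) ht0 (r := -(w + 1)) (by
        intro h
        apply hw0
        linear_combination -h)
      have h3 : -(w + 1) + 1 = -w := by ring
      rw [h3] at h2
      exact h2.hasDerivWithinAt
  have hT3 : Tendsto (fun T : ℝ => ∫ t in (1 : ℝ)..T, F t * (t : ℂ) ^ (-(w + 1))) atTop
      (𝓝 (0 + (1 / w) * MT f (w - 1))) := by
    refine (hbd.add (hT2.const_mul (1 / w))).congr' ?_
    filter_upwards [eventually_gt_atTop 1] with T hT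
    exact (hparts T hT).symm
  rw [zero_add] at hT3
  exact tendsto_nhds_unique hT1 hT3

end Pool.Agent.MC
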