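import Mathlib
import Pool.Agent.Lib.MP_9cfc0a_nt.Mg.G075

set_option autoImplicit false

namespace Pool.Agent.MC

open Finset MeasureTheory Real

/-- the von Mangoldt function on the class of `a` mod `d`, complex valued -/
noncomputable def uC (d a n : ℕ) : ℂ := if n % d = a % d then uL n else 0

lemma uC_mod (d a : ℕ) : uC d (a % d) = uC d a := by
  funext n
  unfold uC
  rw [Nat.mod_mod]

lemma norm_uC_le (d a n : ℕ) : ‖uC d a n‖ ≤ ‖uL n‖ := by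
  unfold uC
  split_ifs
  · exact le_rfl
  · rw [norm_zero]; exact norm_nonneg _

lemma Zc_uC_one (d a k c : ℕ) : Zc (uC d a) 0 k 1 c = Zc uL 0 k d a := by
  unfold Zc uC
  refine Finset.sum_congr rfl fun n _ => ?_
  rw [if_pos (by rw [Nat.mod_one, Nat.mod_one])]

lemma Zc_uC_mul (d p a k : ℕ) (h : Nat.Coprime d p) :
    Zc (uC d a) 0 k p a = Zc uL 0 k (d * p) a := by
  unfold Zc uC
  refine Finset.sum_congr rfl fun n _ => ?_
  have h1 : (n % d = a % d ∧ n % p = a % p) ↔ n % (d * p) = a % (d * p) :=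
    Nat.modEq_and_modEq_iff_modEq_mul h
  by_cases hp : n % p = a % p
  · rw [if_pos hp]
    by_cases hd : n % d = a % d
    · rw [if_pos hd, if_pos (h1.mp ⟨hd, hp⟩)]
    · rw [if_neg hd, if_neg (fun h' => hd (h1.mpr h').1)]
  · rw [if_neg hp, if_neg (fun h' => hp (h1.mpr h').2)]

lemma newQ_prime (u : ℕ → ℂ) (v H p c : ℕ) (hp : p.Prime) :
    newQ u v H p c = (p : ℂ) * Zc u v H p c - Zc u v H 1 c := by
  unfold newQ
  rw [Nat.sum_divisorsAntidiagonal (f := fun i j => (ArithmeticFunction.moebius i : ℂ) *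
    ((j : ℂ) * Zc u v H j c)), Nat.Prime.sum_divisors hp]
  rw [ArithmeticFunction.moebius_apply_prime hp, Nat.div_self hp.pos, Nat.div_one,
    ArithmeticFunction.moebius_apply_one]
  push_cast
  ring

lemma newQ_uC (d p a k : ℕ) (hp : p.Prime) (h : Nat.Coprime d p) :
    newQ (uC d a) 0 k p a = (p : ℂ) * Zc uL 0 k (d * p) a - Zc uL 0 k d a := by
  rw [newQ_prime _ _ _ _ _ hp, Zc_uC_mul d p a k h, Zc_uC_one]

lemma norm_newQ_uC (d p a : ℕ) (x : ℝ) (hp : p.Prime) (h : Nat.Coprime d p) :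
    ‖newQ (uC d a) 0 ⌊x⌋₊ p a‖ = |(p : ℝ) * psiR x (d * p) a - psiR x d a| := by
  rw [newQ_uC d p a _ hp h, ← psiR_eq_Zc, ← psiR_eq_Zc]
  rw [← Real.norm_eq_abs, ← Complex.norm_real]
  push_cast
  rfl

/-- large sieve bound for the number of bad pairs -/
lemma card_badPairs_uC (d r : ℕ) (x t : ℝ) (hx : 2 ≤ x) (ht : 0 ≤ t) :
    ((badPairs (uC d r) (Nat.log 2 ⌊x⌋₊ + 1) ⌊Real.sqrt x⌋₊ t).card : ℝ) * t
      ≤ 2200 * x ^ 2 * (Real.log x) ^ 3 := by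
  set K : ℕ := Nat.log 2 ⌊x⌋₊ + 1 with hK
  have hx0 : 0 < x := by linarith
  have hs1 : 1 ≤ Real.sqrt x := by
    rw [Real.one_le_sqrt]; linarith
  have hQ1 : 1 ≤ ⌊Real.sqrt x⌋₊ := Nat.le_floor (by exact_mod_cast hs1)
  have h1 := card_badPairs_le (uC d r) K ⌊Real.sqrt x⌋₊ hQ1 t ht
  obtain ⟨hK3, hK4⟩ := log_div_bound x hx
  rw [← hK] at hK3 hK4
  have hK5 : (2 : ℝ) ^ K ≤ 2 * x := by
    rw [pow_succ] at hK4
    linarith
  have hQ2 : ((⌊Real.sqrt x⌋₊ : ℕ) : ℝ) ^ 2 ≤ x := by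
    have h2 : ((⌊Real.sqrt x⌋₊ : ℕ) : ℝ) ≤ Real.sqrt x := Nat.floor_le (Real.sqrt_nonneg x)
    calc ((⌊Real.sqrt x⌋₊ : ℕ) : ℝ) ^ 2 ≤ Real.sqrt x ^ 2 := by gcongr
      _ = x := Real.sq_sqrt hx0.le
  have hlog : 0 ≤ Real.log x := Real.log_nonneg (by linarith)
  have h3 : ∑ n ∈ Ioc 0 (2 ^ K), ‖uC d r n‖ ^ 2 ≤ (K : ℝ) * (5.4 * 2 ^ K) := by
    have h4 := sum_vonMangoldt_sq_le (2 ^ K)
    have h5 : ∀ n ∈ Ioc 0 (2 ^ K), ‖uC d r n‖ ^ 2 ≤ (ArithmeticFunction.vonMangoldt n) ^ 2 := by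
      intro n _
      have h6 : ‖uL n‖ ^ 2 = (ArithmeticFunction.vonMangoldt n) ^ 2 := by
        unfold uL
        rw [Complex.norm_real, Real.norm_eq_abs, sq_abs]
      rw [← h6]
      exact pow_le_pow_left₀ (norm_nonneg _) (norm_uC_le d r n) 2
    refine (Finset.sum_le_sum h5).trans ?_
    refine h4.trans ?_
    have h6 := log_two_pow_le K
    have h7 : Real.log 4 ≤ 1.4 := by
      have : Real.log 4 = 2 * Real.log 2 := by
        rw [show (4 : ℝ) = 2 ^ 2 by norm_num, Real.log_pow]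
        norm_num
      have := Real.log_two_lt_d9
      linarith
    have h8 : 0 ≤ Real.log 4 := Real.log_nonneg (by norm_num)
    have h9 : (Real.log 4 + 4) * ((2 ^ K : ℕ) : ℝ) ≤ 5.4 * 2 ^ K := by
      push_cast
      apply mul_le_mul_of_nonneg_right (by linarith) (by positivity)
    exact mul_le_mul h6 h9 (by positivity) (Nat.cast_nonneg K)
  have hpi : π ^ 2 ≤ 10 := by
    have := Real.pi_lt_d4
    have := Real.pi_pos
    nlinarith
  calc ((badPairs (uC d r) K ⌊Real.sqrt x⌋₊ t).card : ℝ) * t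
      ≤ (K : ℝ) ^ 2 * (π ^ 2 / 4 * (((⌊Real.sqrt x⌋₊ : ℕ) : ℝ) ^ 2 + 2 ^ K))
        * ∑ n ∈ Ioc 0 (2 ^ K), ‖uC d r n‖ ^ 2 := h1
    _ ≤ (K : ℝ) ^ 2 * (10 / 4 * (x + 2 * x)) * ((K : ℝ) * (5.4 * (2 * x))) := by
        have h5 : (K : ℝ) * (5.4 * 2 ^ K) ≤ (K : ℝ) * (5.4 * (2 * x)) := by gcongr
        have h6 := h3.trans h5
        gcongr
    _ = 81 * x ^ 2 * (K : ℝ) ^ 3 := by ring
    _ ≤ 81 * x ^ 2 * (3 * Real.log x) ^ 3 := by gcongr
    _ = 2187 * (x ^ 2 * (Real.log x) ^ 3) := by ring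
    _ ≤ 2200 * x ^ 2 * (Real.log x) ^ 3 := by
        have : 0 ≤ x ^ 2 * (Real.log x) ^ 3 := by positivity
        nlinarith

/-- counting pairs through their residues -/
lemma card_le_sum_badPairs (d K Q : ℕ) (t : ℝ) (hd : 0 < d) (S : Finset (ℕ × ℕ))
    (hS : ∀ y ∈ S, y.1.Prime ∧ d < y.1 ∧ y.1 ≤ Q ∧ 1 ≤ y.2 ∧ y.2 ≤ d * y.1 ∧
      ∃ k, k < 2 ^ K ∧ t * y.1 < ‖newQ (uC d y.2) 0 k y.1 y.2‖ ^ 2) :
    S.card ≤ ∑ r ∈ range d, (badPairs (uC d r) K Q t).card := by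
  classical
  set F : ℕ × ℕ → (_ : ℕ) × ((_ : ℕ) × ℕ) := fun y => ⟨y.2 % d, ⟨y.1, y.2 % y.1⟩⟩ with hF
  have h1 : S.card ≤ ((range d).sigma (fun r => badPairs (uC d r) K Q t)).card := by
    apply Finset.card_le_card_of_injOn F
    · rintro ⟨p, a⟩ hy
      obtain ⟨hp, hdp, hpQ, ha1, ha2, k, hk, hk2⟩ := hS _ (Finset.mem_coe.mp hy)
      simp only at hp hdp hpQ ha1 ha2 hk2
      rw [Finset.mem_coe, Finset.mem_sigma]
      simp only [hF]
      refine ⟨Finset.mem_range.mpr (Nat.mod_lt _ hd), ?_⟩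
      unfold badPairs
      rw [Finset.mem_filter, Finset.mem_sigma, Finset.mem_Icc, Finset.mem_range]
      refine ⟨⟨⟨hp.one_le, hpQ⟩, Nat.mod_lt _ hp.pos⟩, k, hk, ?_⟩
      rw [newQ_mod, uC_mod]
      exact hk2
    · rintro ⟨p, a⟩ hy ⟨p', a'⟩ hy' h
      obtain ⟨hp, hdp, hpQ, ha1, ha2, _⟩ := hS _ (Finset.mem_coe.mp hy)
      obtain ⟨hp', hdp', hpQ', ha1', ha2', _⟩ := hS _ (Finset.mem_coe.mp hy')
      simp only at hp hdp hpQ ha1 ha2 hp' hdp' hpQ' ha1' ha2'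
      simp only [hF, Sigma.mk.injEq, heq_eq_eq] at h
      obtain ⟨h2, h3, h4⟩ := h
      subst h3
      have hcop : Nat.Coprime d p := by
        rw [Nat.coprime_comm, Nat.Prime.coprime_iff_not_dvd hp]
        intro hdiv
        have := Nat.le_of_dvd hd hdiv
        omega
      have h5 : a % (d * p) = a' % (d * p) :=
        (Nat.modEq_and_modEq_iff_modEq_mul hcop).mp ⟨h2, h4⟩
      congr 1
      have hdp0 : 0 < d * p := Nat.mul_pos hd hp.pos
      rcases Nat.lt_or_ge a (d * p) with h6 | h6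
      · rcases Nat.lt_or_ge a' (d * p) with h7 | h7
        · rwa [Nat.mod_eq_of_lt h6, Nat.mod_eq_of_lt h7] at h5
        · have h8 : a' = d * p := by omega
          rw [Nat.mod_eq_of_lt h6, h8, Nat.mod_self] at h5
          omega
      · have h8 : a = d * p := by omega
        rcases Nat.lt_or_ge a' (d * p) with h7 | h7
        · rw [h8, Nat.mod_self, Nat.mod_eq_of_lt h7] at h5
          omega
        · omega
  rwa [Finset.card_sigma] at h1

end Pool.Agent.MC
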