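import Mathlib
import Pool.Agent.Lib.MP_9cfc0a_nt.PrimeMult

set_option autoImplicit false

namespace Pool.Agent.MC

open Finset MeasureTheory Real Filter

/-- pairs `(p, a)` with `p` prime, `d p ≤ x^(1/2)`, violating the bound with exponent `τ` at `x` -/
def exc (d : ℕ) (τ x : ℝ) : Set (ℕ × ℕ) :=
  {y | y.1.Prime ∧ ((d * y.1 : ℕ) : ℝ) ≤ Real.sqrt x ∧ 1 ≤ y.2 ∧ y.2 ≤ d * y.1 ∧
    Nat.Coprime y.2 (d * y.1) ∧
    x ^ τ / Real.sqrt ((d * y.1 : ℕ) : ℝ) <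
      |psiR x (d * y.1) y.2 - x / (Nat.totient (d * y.1) : ℝ)|}

/-- pairs `(p, a)` with `p` prime, `d p ≤ X^(1/2)`, violating the bound with exponent `τ` at some
`x` with `(d p)^2 ≤ x ≤ X` -/
def excMax (d : ℕ) (τ X : ℝ) : Set (ℕ × ℕ) :=
  {y | y.1.Prime ∧ ((d * y.1 : ℕ) : ℝ) ≤ Real.sqrt X ∧ 1 ≤ y.2 ∧ y.2 ≤ d * y.1 ∧
    Nat.Coprime y.2 (d * y.1) ∧ ∃ x : ℝ, ((d * y.1 : ℕ) : ℝ) ^ 2 ≤ x ∧ x ≤ X ∧
    x ^ τ / Real.sqrt ((d * y.1 : ℕ) : ℝ) <
      |psiR x (d * y.1) y.2 - x / (Nat.totient (d * y.1) : ℝ)|}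

lemma exc_subset_excMax (d : ℕ) (τ x : ℝ) : exc d τ x ⊆ excMax d τ x := by
  rintro ⟨p, a⟩ ⟨h1, h2, h3, h4, h5, h6⟩
  refine ⟨h1, h2, h3, h4, h5, x, ?_, le_rfl, h6⟩
  have hx : 0 ≤ x := by
    by_contra hneg
    push Not at hneg
    have : Real.sqrt x = 0 := Real.sqrt_eq_zero_of_nonpos hneg.le
    rw [this] at h2
    have h7 : d * p ≤ 0 := by exact_mod_cast h2
    simp only at h3 h4
    omega
  calc ((d * p : ℕ) : ℝ) ^ 2 ≤ Real.sqrt x ^ 2 := by gcongr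
    _ = x := Real.sq_sqrt hx

lemma excMax_subset (d : ℕ) (τ X : ℝ) :
    excMax d τ X ⊆ ((Icc 1 ⌊Real.sqrt X⌋₊) ×ˢ (Icc 1 ⌊Real.sqrt X⌋₊) : Finset (ℕ × ℕ)) := by
  rintro ⟨p, a⟩ ⟨h1, h2, h3, h4, _⟩
  simp only at h1 h2 h3 h4
  have hd : 1 ≤ d := by
    rcases Nat.eq_zero_or_pos d with h | h
    · subst h; omega
    · exact h
  have h5 : d * p ≤ ⌊Real.sqrt X⌋₊ := Nat.le_floor h2
  have h6 : p ≤ d * p := Nat.le_mul_of_pos_left p hd
  rw [Finset.mem_coe, Finset.mem_product, Finset.mem_Icc, Finset.mem_Icc]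
  exact ⟨⟨h1.one_le, by simp only; omega⟩, ⟨h3, by simp only; omega⟩⟩

lemma excMax_finite (d : ℕ) (τ X : ℝ) : (excMax d τ X).Finite :=
  Set.Finite.subset (Finset.finite_toSet _) (excMax_subset d τ X)

lemma exc_finite (d : ℕ) (τ x : ℝ) : (exc d τ x).Finite :=
  (excMax_finite d τ x).subset (exc_subset_excMax d τ x)

lemma ncard_excMax_le (d : ℕ) (τ X : ℝ) (hX : 0 ≤ X) : ((excMax d τ X).ncard : ℝ) ≤ X := by
  have h1 := Set.ncard_le_ncard (excMax_subset d τ X) (Finset.finite_toSet _)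
  rw [Set.ncard_coe_finset, Finset.card_product, Nat.card_Icc, Nat.add_sub_cancel] at h1
  have h2 : ((⌊Real.sqrt X⌋₊ : ℕ) : ℝ) ≤ Real.sqrt X := Nat.floor_le (Real.sqrt_nonneg X)
  calc ((excMax d τ X).ncard : ℝ) ≤ ((⌊Real.sqrt X⌋₊ * ⌊Real.sqrt X⌋₊ : ℕ) : ℝ) := by
        exact_mod_cast h1
    _ = (⌊Real.sqrt X⌋₊ : ℝ) * ⌊Real.sqrt X⌋₊ := by push_cast; ring
    _ ≤ Real.sqrt X * Real.sqrt X := by gcongr
    _ = X := Real.mul_self_sqrt hX

/-- the bound for the error term at level `d` -/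
def EB (d : ℕ) (θ : ℝ) : Prop :=
  ∀ ε : ℝ, 0 < ε → ∃ C : ℝ, ∀ x : ℝ, 1 ≤ x → ∀ a : ℕ, Nat.Coprime a d →
    |psiR x d a - x / (Nat.totient d : ℝ)| ≤ C * x ^ (θ + ε)

/-- one large pair produces a large new part -/
lemma large_newQ_of_exc (d : ℕ) (hd : 1 ≤ d) (η ε δ C X x : ℝ) (hη : 0 ≤ η)
    (hδ0 : 0 < δ) (hδ1 : δ ≤ 1 / 8) (hδ2 : δ ≤ ε / 4) (hδ3 : δ * (1 / 2 + η + ε) ≤ ε / 4)
    (hC0 : 0 ≤ C) (hX1 : 1 ≤ X) (hXC : 3 * C * d ≤ X ^ (ε / 2)) (hXd : 6 * (d : ℝ) ^ 2 ≤ X ^ (1 / 8 : ℝ))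
    (p a : ℕ) (hp : p.Prime) (hq : ((d * p : ℕ) : ℝ) ≤ Real.sqrt X)
    (hq2 : X ^ (1 / 2 - δ / 2) < ((d * p : ℕ) : ℝ)) (hx : ((d * p : ℕ) : ℝ) ^ 2 ≤ x) (hxX : x ≤ X)
    (hE : |psiR x d a - x / (Nat.totient d : ℝ)| ≤ C * x ^ (3 / 4 + η + ε / 8))
    (hbad : x ^ (1 / 2 + η + ε) / Real.sqrt ((d * p : ℕ) : ℝ) <
      |psiR x (d * p) a - x / (Nat.totient (d * p) : ℝ)|) :
    d < p ∧ X ^ (1 + ε) / (9 * d) * p < ‖newQ (uC d a) 0 ⌊x⌋₊ p a‖ ^ 2 := by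
  have hX0 : 0 < X := by linarith
  have hdR : (1 : ℝ) ≤ d := by exact_mod_cast hd
  have hpR : (2 : ℝ) ≤ p := by exact_mod_cast hp.two_le
  have hdp : ((d * p : ℕ) : ℝ) = (d : ℝ) * p := by push_cast; ring
  rw [hdp] at hq hq2 hx hbad
  set τ : ℝ := 1 / 2 + η + ε with hτ
  -- x is large
  have hxl : X ^ (1 - δ) ≤ x := by
    have h1 : X ^ (1 - δ) = (X ^ (1 / 2 - δ / 2)) ^ 2 := by
      rw [← Real.rpow_natCast, ← Real.rpow_mul hX0.le]
      congr 1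
      push_cast
      ring
    rw [h1]
    refine le_trans ?_ hx
    gcongr
  have hx0 : 0 < x := lt_of_lt_of_le (by positivity) hxl
  -- lower bound of x^τ
  have hxτ : X ^ (τ - ε / 4) ≤ x ^ τ := by
    calc X ^ (τ - ε / 4) ≤ X ^ ((1 - δ) * τ) := by
          apply Real.rpow_le_rpow_of_exponent_le hX1
          have : (1 - δ) * τ = τ - δ * τ := by ring
          rw [this]
          linarith
      _ = (X ^ (1 - δ)) ^ τ := by rw [← Real.rpow_mul hX0.le]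
      _ ≤ x ^ τ := by
          apply Real.rpow_le_rpow (by positivity) hxl
          rw [hτ]; linarith
  -- p is large
  have hpl : X ^ (1 / 2 - δ / 2) / d < p := by
    rw [div_lt_iff₀ (by linarith)]
    linarith
  have hdp' : d < p := by
    have h1 : (d : ℝ) < p := by
      refine lt_of_le_of_lt ?_ hpl
      rw [le_div_iff₀ (by linarith)]
      have h2 : X ^ (1 / 8 : ℝ) ≤ X ^ (1 / 2 - δ / 2) := by
        apply Real.rpow_le_rpow_of_exponent_le hX1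
        linarith
      nlinarith
    exact_mod_cast h1
  refine ⟨hdp', ?_⟩
  have hcop : Nat.Coprime d p := by
    rw [Nat.coprime_comm, Nat.Prime.coprime_iff_not_dvd hp]
    intro hdiv
    have := Nat.le_of_dvd (by omega) hdiv
    omega
  have hφ : (Nat.totient (d * p) : ℝ) = Nat.totient d * ((p : ℝ) - 1) := by
    rw [Nat.totient_mul hcop, Nat.totient_prime hp]
    push_cast
    rw [Nat.cast_sub hp.one_le, Nat.cast_one]
  have hφd : (1 : ℝ) ≤ Nat.totient d := by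
    exact_mod_cast Nat.totient_pos.mpr (by omega : 0 < d)
  have hsq : 0 < Real.sqrt ((d : ℝ) * p) := Real.sqrt_pos.mpr (by positivity)
  set s : ℝ := Real.sqrt ((d : ℝ) * p) with hs
  have hs2 : s ^ 2 = (d : ℝ) * p := Real.sq_sqrt (by positivity)
  have hsX : s ≤ X ^ (1 / 4 : ℝ) := by
    have h1 : s ^ 2 ≤ (X ^ (1 / 4 : ℝ)) ^ 2 := by
      rw [hs2, ← Real.rpow_natCast, ← Real.rpow_mul hX0.le]
      norm_num
      rw [Real.sqrt_eq_rpow] at hq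
      exact hq
    exact le_of_sq_le_sq h1 (by positivity)
  set Y : ℝ := X ^ (τ - ε / 4) with hY
  have hY0 : 0 < Y := by positivity
  have h1 : Y / s < |psiR x (d * p) a - x / (Nat.totient (d * p) : ℝ)| := by
    refine lt_of_le_of_lt ?_ hbad
    gcongr
  -- the second term
  have hp0 : (0 : ℝ) < p := by linarith
  have hB : |psiR x d a - x / (Nat.totient d : ℝ)| / p ≤ Y / (3 * s) := by
    rw [div_le_div_iff₀ hp0 (by positivity)]
    have h2 : x ^ (3 / 4 + η + ε / 8) ≤ X ^ (3 / 4 + η + ε / 8) :=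
      Real.rpow_le_rpow hx0.le hxX (by linarith)
    have h3 : |psiR x d a - x / (Nat.totient d : ℝ)| ≤ C * X ^ (3 / 4 + η + ε / 8) := by
      refine hE.trans ?_
      gcongr
    have h4 : X ^ (3 / 4 + η + ε / 8) * X ^ (1 / 4 : ℝ) = X ^ (1 + η + ε / 8) := by
      rw [← Real.rpow_add hX0]
      congr 1
      ring
    have h5 : X ^ (ε / 2) * X ^ (1 + η + ε / 8) ≤ Y * X ^ (1 / 2 - δ / 2) := by
      rw [hY, ← Real.rpow_add hX0, ← Real.rpow_add hX0]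
      apply Real.rpow_le_rpow_of_exponent_le hX1
      rw [hτ]
      linarith
    calc |psiR x d a - x / (Nat.totient d : ℝ)| * (3 * s)
        ≤ (C * X ^ (3 / 4 + η + ε / 8)) * (3 * X ^ (1 / 4 : ℝ)) := by gcongr
      _ = 3 * C * X ^ (1 + η + ε / 8) := by rw [← h4]; ring
      _ = (3 * C * d) * X ^ (1 + η + ε / 8) / d := by field_simp
      _ ≤ X ^ (ε / 2) * X ^ (1 + η + ε / 8) / d := by gcongr
      _ ≤ Y * X ^ (1 / 2 - δ / 2) / d := by gcongr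
      _ = Y * (X ^ (1 / 2 - δ / 2) / d) := by ring
      _ ≤ Y * p := by gcongr
  -- the third term
  have hD : |x / (Nat.totient d : ℝ) / p - x / (Nat.totient (d * p) : ℝ)| ≤ Y / (3 * s) := by
    have hp1 : (0 : ℝ) < (p : ℝ) - 1 := by linarith
    have h2 : x / (Nat.totient d : ℝ) / p - x / (Nat.totient (d * p) : ℝ)
        = -(x / (Nat.totient d * p * ((p : ℝ) - 1))) := by
      rw [hφ]
      have : (Nat.totient d : ℝ) ≠ 0 := by linarith
      field_simp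
      ring
    rw [h2, abs_neg, abs_of_nonneg (by positivity)]
    have h3 : x / (Nat.totient d * p * ((p : ℝ) - 1)) ≤ 2 * X / (p : ℝ) ^ 2 := by
      rw [div_le_div_iff₀ (by positivity) (by positivity)]
      have h4 : (p : ℝ) ^ 2 ≤ 2 * (Nat.totient d * p * ((p : ℝ) - 1)) := by
        have h5 : (p : ℝ) ^ 2 ≤ 2 * (p * ((p : ℝ) - 1)) := by nlinarith
        have h6 : 2 * (p * ((p : ℝ) - 1)) ≤ 2 * (Nat.totient d * (p * ((p : ℝ) - 1))) := by
          have : 0 ≤ (p : ℝ) * ((p : ℝ) - 1) := by positivity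
          nlinarith
        nlinarith
      calc x * (p : ℝ) ^ 2 ≤ X * (2 * (Nat.totient d * p * ((p : ℝ) - 1))) := by gcongr
        _ = 2 * X * (Nat.totient d * p * ((p : ℝ) - 1)) := by ring
    refine h3.trans ?_
    rw [div_le_div_iff₀ (by positivity) (by positivity)]
    have h7 : X ^ (1 - δ) ≤ (d : ℝ) ^ 2 * (p : ℝ) ^ 2 := by
      have h1 : X ^ (1 - δ) = (X ^ (1 / 2 - δ / 2)) ^ 2 := by
        rw [← Real.rpow_natCast, ← Real.rpow_mul hX0.le]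
        congr 1
        push_cast
        ring
      rw [h1, ← mul_pow]
      gcongr
    have h8 : X * X ^ (1 / 4 : ℝ) * X ^ (1 / 8 : ℝ) ≤ Y * X ^ (1 - δ) := by
      rw [hY]
      nth_rewrite 1 [← Real.rpow_one X]
      rw [← Real.rpow_add hX0, ← Real.rpow_add hX0, ← Real.rpow_add hX0]
      apply Real.rpow_le_rpow_of_exponent_le hX1
      rw [hτ]
      linarith
    have hd2 : (0 : ℝ) < (d : ℝ) ^ 2 := by positivity
    have h9 : 2 * X * (3 * s) * (d : ℝ) ^ 2 ≤ Y * (p : ℝ) ^ 2 * (d : ℝ) ^ 2 := by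
      calc 2 * X * (3 * s) * (d : ℝ) ^ 2 ≤ 2 * X * (3 * X ^ (1 / 4 : ℝ)) * (d : ℝ) ^ 2 := by gcongr
        _ = X * X ^ (1 / 4 : ℝ) * (6 * (d : ℝ) ^ 2) := by ring
        _ ≤ X * X ^ (1 / 4 : ℝ) * X ^ (1 / 8 : ℝ) := by gcongr
        _ ≤ Y * X ^ (1 - δ) := h8
        _ ≤ Y * ((d : ℝ) ^ 2 * (p : ℝ) ^ 2) := by gcongr
        _ = Y * (p : ℝ) ^ 2 * (d : ℝ) ^ 2 := by ring
    exact le_of_mul_le_mul_right h9 hd2
  -- the first term
  have hA : Y / (3 * s) < |psiR x (d * p) a - psiR x d a / p| := by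
    have h2 : |psiR x (d * p) a - x / (Nat.totient (d * p) : ℝ)|
        ≤ |psiR x (d * p) a - psiR x d a / p| + |psiR x d a - x / (Nat.totient d : ℝ)| / p
          + |x / (Nat.totient d : ℝ) / p - x / (Nat.totient (d * p) : ℝ)| := by
      have h3 : psiR x (d * p) a - x / (Nat.totient (d * p) : ℝ)
          = (psiR x (d * p) a - psiR x d a / p) + (psiR x d a - x / (Nat.totient d : ℝ)) / p
            + (x / (Nat.totient d : ℝ) / p - x / (Nat.totient (d * p) : ℝ)) := by ring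
      rw [h3]
      refine (abs_add_le _ _).trans ?_
      gcongr
      refine (abs_add_le _ _).trans ?_
      rw [abs_div, abs_of_pos hp0]
    have h4 : Y / s = 3 * (Y / (3 * s)) := by field_simp
    linarith
  have hnorm := norm_newQ_uC d p a x hp hcop
  have h2 : (p : ℝ) * (Y / (3 * s)) < ‖newQ (uC d a) 0 ⌊x⌋₊ p a‖ := by
    rw [hnorm]
    have h3 : |(p : ℝ) * psiR x (d * p) a - psiR x d a| = p * |psiR x (d * p) a - psiR x d a / p| := by
      rw [← abs_of_pos hp0, ← abs_mul, abs_of_pos hp0]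
      congr 1
      field_simp
    rw [h3]
    gcongr
  have h3 : ((p : ℝ) * (Y / (3 * s))) ^ 2 < ‖newQ (uC d a) 0 ⌊x⌋₊ p a‖ ^ 2 := by
    gcongr
  refine lt_of_le_of_lt ?_ h3
  have h4 : ((p : ℝ) * (Y / (3 * s))) ^ 2 = Y ^ 2 / (9 * d) * p := by
    rw [mul_pow, div_pow, mul_pow, hs2]
    field_simp
    ring
  rw [h4]
  have h5 : X ^ (1 + ε) ≤ Y ^ 2 := by
    rw [hY, ← Real.rpow_natCast, ← Real.rpow_mul hX0.le]
    apply Real.rpow_le_rpow_of_exponent_le hX1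
    push_cast
    rw [hτ]
    linarith
  gcongr

end Pool.Agent.MC
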