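import Mathlib
import Pool.Agent.Lib.MP_9cfc0a_nt.QuasiA
import Pool.Agent.Lib.MP_9cfc0a_nt.Mg.G075

set_option autoImplicit false

namespace Pool.Agent.MC

open Complex MeasureTheory Set Filter Topology Asymptotics

/-- trivial bound -/
lemma cpow_diff_bound1 (x : ℝ) (hx : 0 < x) (s : ℂ) (hs : 0 ≤ s.re) :
    ‖((x + 1 : ℝ) : ℂ) ^ (s + 1) - (x : ℂ) ^ (s + 1)‖ ≤ 2 * (x + 1) ^ (s.re + 1) := by
  refine (norm_sub_le _ _).trans ?_
  rw [Complex.norm_cpow_eq_rpow_re_of_pos (by linarith), Complex.norm_cpow_eq_rpow_re_of_pos hx]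
  have h1 : (s + 1).re = s.re + 1 := by simp
  rw [h1]
  have h2 : x ^ (s.re + 1) ≤ (x + 1) ^ (s.re + 1) :=
    Real.rpow_le_rpow hx.le (by linarith) (by linarith)
  linarith

/-- derivative bound -/
lemma cpow_diff_bound2 (x : ℝ) (hx : 0 < x) (s : ℂ) (hs : 0 ≤ s.re) :
    ‖((x + 1 : ℝ) : ℂ) ^ (s + 1) - (x : ℂ) ^ (s + 1)‖ ≤ ‖s + 1‖ * (x + 1) ^ s.re := by
  have hs1 : s + 1 ≠ 0 := by
    intro h
    have h2 : s = -1 := by linear_combination h
    rw [h2] at hs
    simp at hs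
    linarith
  have h1 := integral_cpow (a := x) (b := x + 1) (r := s) (Or.inl (by linarith))
  have h2 : ((x + 1 : ℝ) : ℂ) ^ (s + 1) - (x : ℂ) ^ (s + 1)
      = (s + 1) * ∫ u in x..(x + 1), (u : ℂ) ^ s := by
    rw [h1]
    field_simp
  rw [h2, norm_mul]
  gcongr
  have h3 : ‖∫ u in x..(x + 1), (u : ℂ) ^ s‖ ≤ (x + 1) ^ s.re * |x + 1 - x| := by
    refine intervalIntegral.norm_integral_le_of_norm_le_const fun u hu => ?_
    rw [uIoc_of_le (by linarith)] at hu
    have hu0 : 0 < u := by linarith [hu.1]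
    rw [Complex.norm_cpow_eq_rpow_re_of_pos hu0]
    exact Real.rpow_le_rpow hu0.le hu.2 hs
  rw [show x + 1 - x = 1 by ring, abs_one, mul_one] at h3
  exact h3

lemma cpow_diff_bound (x : ℝ) (hx : 0 < x) (s : ℂ) (hs : 0 ≤ s.re) (hs2 : s.re ≤ 2) (k : ℝ)
    (hk0 : 0 ≤ k) (hk1 : k ≤ 1) :
    ‖((x + 1 : ℝ) : ℂ) ^ (s + 1) - (x : ℂ) ^ (s + 1)‖
      ≤ 2 * (|s.im| + 6) ^ (1 - k) * (x + 1) ^ (s.re + k) := by
  set T : ℝ := |s.im| + 6 with hT
  have hT6 : 6 ≤ T := by rw [hT]; linarith [abs_nonneg s.im]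
  have hT0 : 0 < T := by linarith
  have hx1 : 0 < x + 1 := by linarith
  rcases le_or_gt T (x + 1) with h | h
  · have h1 := cpow_diff_bound2 x hx s hs
    have h2 : ‖s + 1‖ ≤ T := by
      have h3 := Complex.norm_le_abs_re_add_abs_im (s + 1)
      simp at h3
      rw [abs_of_nonneg (by linarith)] at h3
      rw [hT]
      linarith
    have h3 : T ^ k ≤ (x + 1) ^ k := Real.rpow_le_rpow hT0.le h hk0
    calc _ ≤ ‖s + 1‖ * (x + 1) ^ s.re := h1
      _ ≤ T * (x + 1) ^ s.re := by gcongr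
      _ = T ^ (1 - k) * T ^ k * (x + 1) ^ s.re := by
          rw [← Real.rpow_add hT0]
          norm_num
      _ ≤ T ^ (1 - k) * (x + 1) ^ k * (x + 1) ^ s.re := by gcongr
      _ = T ^ (1 - k) * (x + 1) ^ (s.re + k) := by
          rw [Real.rpow_add hx1]
          ring
      _ ≤ 2 * T ^ (1 - k) * (x + 1) ^ (s.re + k) := by
          have : 0 ≤ T ^ (1 - k) * (x + 1) ^ (s.re + k) := by positivity
          linarith
  · have h1 := cpow_diff_bound1 x hx s hs
    have h3 : (x + 1) ^ (1 - k) ≤ T ^ (1 - k) := Real.rpow_le_rpow hx1.le h.le (by linarith)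
    calc _ ≤ 2 * (x + 1) ^ (s.re + 1) := h1
      _ = 2 * (x + 1) ^ (1 - k) * (x + 1) ^ (s.re + k) := by
          rw [mul_assoc, ← Real.rpow_add hx1]
          congr 2
          ring
      _ ≤ 2 * T ^ (1 - k) * (x + 1) ^ (s.re + k) := by gcongr

/-- the integrand of the difference -/
noncomputable def Gx (d : ℕ) [NeZero d] (a : ZMod d) (x : ℝ) (s : ℂ) : ℂ :=
  (((x + 1 : ℝ) : ℂ) ^ (s + 1) - (x : ℂ) ^ (s + 1)) * Phi d a s

lemma Gx_differentiableOn (d : ℕ) [NeZero d] (θ : ℝ) (hθ : 1 / 2 ≤ θ) (hZ : ZF d θ) (a : ZMod d)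
    (x : ℝ) (hx : 0 < x) : DifferentiableOn ℂ (Gx d a x) {s | θ < s.re} := by
  unfold Gx
  refine DifferentiableOn.mul ?_ (Phi_differentiableOn d θ hθ hZ a)
  have hx' : (x : ℂ) ≠ 0 := by exact_mod_cast hx.ne'
  have hx1 : ((x + 1 : ℝ) : ℂ) ≠ 0 := by
    have : x + 1 ≠ 0 := by linarith
    exact_mod_cast this
  refine DifferentiableOn.sub ?_ ?_
  · exact (DifferentiableOn.const_cpow (by fun_prop) (Or.inl hx1))
  · exact (DifferentiableOn.const_cpow (by fun_prop) (Or.inl hx'))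

lemma Gx_integrable_line (d : ℕ) [NeZero d] (θ : ℝ) (hθ : 1 / 2 ≤ θ) (hZ : ZF d θ) (a : ZMod d)
    (x : ℝ) (hx : 0 < x) (σ : ℝ) (hσ : θ < σ) (D r : ℝ) (hr : 1 < r)
    (hD : ∀ y : ℝ, ‖Gx d a x (σ + y * I)‖ ≤ D * (|y| + 6) ^ (-r)) :
    Integrable (fun y : ℝ => Gx d a x (σ + y * I)) := by
  refine ((integrable_T r hr).const_mul D).mono' ?_ (ae_of_all _ hD)
  apply Continuous.aestronglyMeasurable
  refine (Gx_differentiableOn d θ hθ hZ a x hx).continuousOn.comp_continuous (by fun_prop) fun y => ?_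
  simp
  exact hσ

/-- The difference of the primitive. -/
lemma FP_diff (d : ℕ) [NeZero d] (a : ℕ) (ha : Nat.Coprime a d) (θ : ℝ) (hθ : 1 / 2 ≤ θ)
    (hθ1 : θ < 1) (hZ : ZF d θ) (x : ℝ) (hx : 1 < x) :
    FP d a (x + 1) - FP d a x = ((1 / (2 * Real.pi) : ℝ) : ℂ) *
      ∫ y : ℝ, Gx d (a : ZMod d) x (((2 : ℝ) : ℂ) + y * I) := by
  have h1 := FP_inversion d a ha θ hθ hθ1 hZ x hx
  have h2 := FP_inversion d a ha θ hθ hθ1 hZ (x + 1) (by linarith)
  rw [h1, h2, ← mul_sub]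
  congr 1
  have hint : ∀ u : ℝ, 0 < u → Integrable (fun y : ℝ => (u : ℂ) ^ ((((2 : ℝ) : ℂ) + y * I) + 1) *
      Phi d (a : ZMod d) (((2 : ℝ) : ℂ) + y * I)) := by
    intro u hu
    obtain ⟨C, hC, h⟩ := Phi_bound d θ hθ hθ1 hZ (1 - θ) (1 / 2) (by linarith) (by norm_num)
    have h1 := (integrable_T (3 / 2) (by norm_num)).const_mul (u ^ (3 : ℝ) * C)
    refine h1.mono' ?_ (ae_of_all _ fun y => ?_)
    · apply Continuous.aestronglyMeasurable
      refine Continuous.mul ?_ ?_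
      · refine Continuous.const_cpow (by fun_prop) (Or.inl ?_)
        exact_mod_cast hu.ne'
      · have h2 := (Phi_differentiableOn d θ hθ hZ (a : ZMod d)).continuousOn
        refine h2.comp_continuous (by fun_prop) fun y => ?_
        simp
        linarith
    · have h2 := h (a : ZMod d) (((2 : ℝ) : ℂ) + y * I) (by simp) (by simp)
      have h3 : (((2 : ℝ) : ℂ) + y * I).im = y := by simp
      rw [h3] at h2
      rw [norm_mul, Complex.norm_cpow_eq_rpow_re_of_pos hu]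
      have h4 : ((((2 : ℝ) : ℂ) + y * I) + 1).re = 3 := by
        simp; norm_num
      rw [h4]
      have h5 : (1 / 2 - 2 : ℝ) = -(3 / 2) := by norm_num
      rw [h5] at h2
      calc _ ≤ u ^ (3 : ℝ) * (C * (|y| + 6) ^ (-(3 / 2) : ℝ)) := by gcongr
        _ = _ := by ring
  have hi1 := hint (x + 1) (by linarith)
  have hi2 := hint x (by linarith)
  rw [← integral_sub hi1 hi2]
  congr 1
  ext y
  unfold Gx
  ring

/-- power saving for the averaged error term -/
lemma FP_diff_bound (d : ℕ) [NeZero d] (θ : ℝ) (hθ : 1 / 2 ≤ θ) (hθ1 : θ < 1) (hZ : ZF d θ)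
    (ε : ℝ) (hε : 0 < ε) :
    ∃ C : ℝ, 0 ≤ C ∧ ∀ a : ℕ, Nat.Coprime a d → ∀ x : ℝ, 1 < x →
      ‖FP d a (x + 1) - FP d a x‖ ≤ C * (x + 1) ^ (θ + ε) := by
  set ε' : ℝ := min (ε / 2) 1 with hε'
  have hε'0 : 0 < ε' := by positivity
  have hε'1 : ε' ≤ 1 := min_le_right _ _
  have hε'2 : ε' ≤ ε / 2 := min_le_left _ _
  set k : ℝ := min (ε / 2) (1 / 2) with hk
  have hk0 : 0 < k := by positivity
  have hk1 : k ≤ 1 / 2 := min_le_right _ _
  have hk2 : k ≤ ε / 2 := min_le_left _ _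
  set σ : ℝ := θ + ε' with hσ
  have hσ2 : σ ≤ 2 := by rw [hσ]; linarith
  have hσθ : θ < σ := by rw [hσ]; linarith
  obtain ⟨C, hC, hΦ⟩ := Phi_bound d θ hθ hθ1 hZ ε' (k / 2) hε'0 (by positivity)
  set J : ℝ := ∫ y : ℝ, (|y| + 6) ^ (-(1 + k / 2)) with hJ
  have hJ0 : 0 ≤ J := integral_nonneg fun y => by positivity
  refine ⟨2 * C * J, by positivity, fun a ha x hx => ?_⟩
  have hx0 : 0 < x := by linarith
  have hx1 : 0 < x + 1 := by linarith
  rw [FP_diff d a ha θ hθ hθ1 hZ x hx]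
  -- bound in the strip
  have hstrip : ∀ s : ℂ, σ ≤ s.re → s.re ≤ 2 →
      ‖Gx d (a : ZMod d) x s‖ ≤ 2 * (x + 1) ^ (3 : ℝ) * C * (|s.im| + 6) ^ (k / 2 - 2) := by
    intro s h1 h2
    unfold Gx
    rw [norm_mul]
    have h3 := cpow_diff_bound1 x hx0 s (by linarith)
    have h4 := hΦ (a : ZMod d) s h1 h2
    have h5 : (x + 1) ^ (s.re + 1) ≤ (x + 1) ^ (3 : ℝ) :=
      Real.rpow_le_rpow_of_exponent_le (by linarith) (by linarith)
    calc _ ≤ (2 * (x + 1) ^ (s.re + 1)) * (C * (|s.im| + 6) ^ (k / 2 - 2)) := by gcongr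
      _ ≤ (2 * (x + 1) ^ (3 : ℝ)) * (C * (|s.im| + 6) ^ (k / 2 - 2)) := by gcongr
      _ = _ := by ring
  have hline : ∀ τ : ℝ, σ ≤ τ → τ ≤ 2 → Integrable (fun y : ℝ => Gx d (a : ZMod d) x (τ + y * I)) := by
    intro τ h1 h2
    refine Gx_integrable_line d θ hθ hZ (a : ZMod d) x hx0 τ (by linarith)
      (2 * (x + 1) ^ (3 : ℝ) * C) (2 - k / 2) (by linarith) fun y => ?_
    have h3 := hstrip ((τ : ℂ) + y * I) (by simpa using h1) (by simpa using h2)
    have h4 : ((τ : ℂ) + y * I).im = y := by simp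
    rw [h4] at h3
    rw [show -(2 - k / 2) = k / 2 - 2 by ring]
    exact h3
  have hshift := contour_shift (Gx d (a : ZMod d) x) σ 2 hσ2
    ((Gx_differentiableOn d θ hθ hZ (a : ZMod d) x hx0).mono fun s hs => lt_of_lt_of_le hσθ hs.1)
    (fun u => 2 * (x + 1) ^ (3 : ℝ) * C * (u + 6) ^ (k / 2 - 2)) (by
      have h1 : Tendsto (fun u : ℝ => (u + 6) ^ (-(2 - k / 2))) atTop (𝓝 0) :=
        (tendsto_rpow_neg_atTop (show 0 < 2 - k / 2 by linarith)).comp
          (tendsto_atTop_add_const_right _ _ tendsto_id)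
      have h2 := h1.const_mul (2 * (x + 1) ^ (3 : ℝ) * C)
      rw [mul_zero] at h2
      refine h2.congr fun u => ?_
      congr 2
      ring) hstrip (hline σ le_rfl hσ2) (hline 2 hσ2 le_rfl)
  rw [← hshift, norm_mul, Complex.norm_real]
  have hpi : ‖(1 / (2 * Real.pi) : ℝ)‖ ≤ 1 := by
    rw [Real.norm_of_nonneg (by positivity)]
    rw [div_le_one (by positivity)]
    have := Real.pi_gt_three
    linarith
  have hmain : ‖∫ y : ℝ, Gx d (a : ZMod d) x (σ + y * I)‖ ≤ 2 * C * J * (x + 1) ^ (σ + k) := by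
    have h1 : ‖∫ y : ℝ, Gx d (a : ZMod d) x (σ + y * I)‖
        ≤ ∫ y : ℝ, (2 * C * (x + 1) ^ (σ + k)) * (|y| + 6) ^ (-(1 + k / 2)) := by
      refine norm_integral_le_of_norm_le ((integrable_T (1 + k / 2) (by linarith)).const_mul _)
        (ae_of_all _ fun y => ?_)
      have h2 := cpow_diff_bound x hx0 ((σ : ℂ) + y * I) (by simp; linarith) (by simpa using hσ2)
        k hk0.le (by linarith)
      have h3 := hΦ (a : ZMod d) ((σ : ℂ) + y * I) (by simp [hσ]) (by simpa using hσ2)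
      have h4 : ((σ : ℂ) + y * I).im = y := by simp
      have h5 : ((σ : ℂ) + y * I).re = σ := by simp
      rw [h4, h5] at h2
      rw [h4] at h3
      unfold Gx
      rw [norm_mul]
      have hT0 : 0 < |y| + 6 := by positivity
      calc _ ≤ (2 * (|y| + 6) ^ (1 - k) * (x + 1) ^ (σ + k)) * (C * (|y| + 6) ^ (k / 2 - 2)) := by
            gcongr
        _ = (2 * C * (x + 1) ^ (σ + k)) * ((|y| + 6) ^ (1 - k) * (|y| + 6) ^ (k / 2 - 2)) := by ring
        _ = (2 * C * (x + 1) ^ (σ + k)) * (|y| + 6) ^ (-(1 + k / 2)) := by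
            rw [← Real.rpow_add hT0]
            congr 2
            ring
    refine h1.trans (le_of_eq ?_)
    rw [integral_const_mul, ← hJ]
    ring
  have hfin : (x + 1) ^ (σ + k) ≤ (x + 1) ^ (θ + ε) :=
    Real.rpow_le_rpow_of_exponent_le (by linarith) (by rw [hσ]; linarith)
  calc _ ≤ 1 * (2 * C * J * (x + 1) ^ (σ + k)) := by gcongr
    _ ≤ 2 * C * J * (x + 1) ^ (θ + ε) := by
        rw [one_mul]
        gcongr

lemma FP_sub (d a : ℕ) (hd : 0 < d) (x : ℝ) :
    FP d a (x + 1) - FP d a x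
      = ((∫ t in x..(x + 1), (psiR t d a - t / (Nat.totient d : ℝ)) : ℝ) : ℂ) := by
  unfold FP
  rw [intervalIntegral.integral_interval_sub_left (EC_intervalIntegrable d a hd _ _)
    (EC_intervalIntegrable d a hd _ _)]
  unfold EC
  rw [intervalIntegral.integral_ofReal]

lemma ER_intervalIntegrable (d a : ℕ) (hd : 0 < d) (x y : ℝ) :
    IntervalIntegrable (fun t => psiR t d a - t / (Nat.totient d : ℝ)) volume x y := by
  have h1 : IntervalIntegrable (fun t : ℝ => 7 * |t|) volume x y :=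
    Continuous.intervalIntegrable (by fun_prop) x y
  refine h1.mono_fun ((psiR_measurable d a).sub (by fun_prop)).aestronglyMeasurable
    (ae_of_all _ fun t => ?_)
  have h2 := EC_bound d a hd t
  unfold EC at h2
  rw [Complex.norm_real] at h2
  exact h2.trans (Real.le_norm_self _)

lemma int_lower (d a : ℕ) (hd : 0 < d) (x : ℝ) :
    psiR x d a - x / (Nat.totient d : ℝ) - 1
      ≤ ∫ t in x..(x + 1), (psiR t d a - t / (Nat.totient d : ℝ)) := by
  have hφ : (1 : ℝ) ≤ Nat.totient d := by exact_mod_cast Nat.totient_pos.mpr hd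
  have h1 : ∫ t in x..(x + 1), (psiR x d a - x / (Nat.totient d : ℝ) - 1)
      ≤ ∫ t in x..(x + 1), (psiR t d a - t / (Nat.totient d : ℝ)) := by
    refine intervalIntegral.integral_mono_on (by linarith) (by simp)
      (ER_intervalIntegrable d a hd _ _) fun t ht => ?_
    have h2 := psiR_mono d a x t ht.1
    have h3 : t / (Nat.totient d : ℝ) ≤ (x + 1) / (Nat.totient d : ℝ) := by
      gcongr
      exact ht.2
    have h4 : (1 : ℝ) / (Nat.totient d : ℝ) ≤ 1 := by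
      rw [div_le_one (by linarith)]
      exact hφ
    have h5 : (x + 1) / (Nat.totient d : ℝ) = x / (Nat.totient d : ℝ) + 1 / (Nat.totient d : ℝ) := by
      ring
    linarith
  rw [intervalIntegral.integral_const] at h1
  simpa using h1

lemma int_upper (d a : ℕ) (hd : 0 < d) (x : ℝ) :
    ∫ t in x..(x + 1), (psiR t d a - t / (Nat.totient d : ℝ))
      ≤ psiR (x + 1) d a - (x + 1) / (Nat.totient d : ℝ) + 1 := by
  have hφ : (1 : ℝ) ≤ Nat.totient d := by exact_mod_cast Nat.totient_pos.mpr hd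
  have h1 : ∫ t in x..(x + 1), (psiR t d a - t / (Nat.totient d : ℝ))
      ≤ ∫ t in x..(x + 1), (psiR (x + 1) d a - (x + 1) / (Nat.totient d : ℝ) + 1) := by
    refine intervalIntegral.integral_mono_on (by linarith) (ER_intervalIntegrable d a hd _ _)
      (by simp) fun t ht => ?_
    have h2 := psiR_mono d a t (x + 1) ht.2
    have h3 : x / (Nat.totient d : ℝ) ≤ t / (Nat.totient d : ℝ) := by
      gcongr
      exact ht.1
    have h4 : (1 : ℝ) / (Nat.totient d : ℝ) ≤ 1 := by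
      rw [div_le_one (by linarith)]
      exact hφ
    have h5 : (x + 1) / (Nat.totient d : ℝ) = x / (Nat.totient d : ℝ) + 1 / (Nat.totient d : ℝ) := by
      ring
    linarith
  rw [intervalIntegral.integral_const] at h1
  simpa using h1

/-- Zero-free half plane implies the bound for the error term. -/
theorem EB_of_ZF (d : ℕ) [NeZero d] (θ : ℝ) (hθ : 1 / 2 ≤ θ) (hθ1 : θ < 1) (hZ : ZF d θ) :
    EB d θ := by
  intro ε hε
  have hd : 0 < d := Nat.pos_of_ne_zero (NeZero.ne d)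
  obtain ⟨C, hC, h⟩ := FP_diff_bound d θ hθ hθ1 hZ ε hε
  refine ⟨C * 2 ^ (θ + ε) + 14, fun x hx a ha => ?_⟩
  have hx0 : 0 < x := by linarith
  have hθε : 0 ≤ θ + ε := by linarith
  have hxp : 1 ≤ x ^ (θ + ε) := Real.one_le_rpow hx hθε
  have h2p : (1 : ℝ) ≤ 2 ^ (θ + ε) := Real.one_le_rpow (by norm_num) hθε
  rcases le_or_gt x 2 with hx2 | hx2
  · have h1 := EC_bound d a hd x
    unfold EC at h1
    rw [Complex.norm_real, Real.norm_eq_abs, abs_of_pos hx0] at h1
    calc |psiR x d a - x / (Nat.totient d : ℝ)| ≤ 7 * x := h1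
      _ ≤ 14 := by linarith
      _ ≤ (C * 2 ^ (θ + ε) + 14) * x ^ (θ + ε) := by
          have : 0 ≤ C * 2 ^ (θ + ε) := by positivity
          nlinarith
  · have hup : psiR x d a - x / (Nat.totient d : ℝ) ≤ C * (x + 1) ^ (θ + ε) + 1 := by
      have h1 := int_lower d a hd x
      have h2 := h a ha x (by linarith)
      rw [FP_sub d a hd x, Complex.norm_real, Real.norm_eq_abs] at h2
      linarith [le_abs_self (∫ t in x..(x + 1), (psiR t d a - t / (Nat.totient d : ℝ)))]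
    have hlo : -(C * x ^ (θ + ε) + 1) ≤ psiR x d a - x / (Nat.totient d : ℝ) := by
      have h1 := int_upper d a hd (x - 1)
      have h2 := h a ha (x - 1) (by linarith)
      rw [FP_sub d a hd (x - 1), Complex.norm_real, Real.norm_eq_abs] at h2
      rw [sub_add_cancel] at h1 h2
      linarith [neg_abs_le (∫ t in (x - 1)..x, (psiR t d a - t / (Nat.totient d : ℝ)))]
    have h3 : (x + 1) ^ (θ + ε) ≤ 2 ^ (θ + ε) * x ^ (θ + ε) := by
      rw [← Real.mul_rpow (by norm_num) hx0.le]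
      apply Real.rpow_le_rpow (by linarith) (by linarith) hθε
    rw [abs_le]
    constructor
    · have h4 : C * x ^ (θ + ε) ≤ C * 2 ^ (θ + ε) * x ^ (θ + ε) := by
        have : 0 ≤ C * x ^ (θ + ε) := by positivity
        nlinarith
      nlinarith
    · have h4 : C * (x + 1) ^ (θ + ε) ≤ C * 2 ^ (θ + ε) * x ^ (θ + ε) := by
        rw [mul_assoc]
        gcongr
      nlinarith

end Pool.Agent.MC
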