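import Mathlib
import Pool.Agent.Lib.MP_9cfc0a_nt.An6
import Pool.Agent.Lib.MP_9cfc0a_nt.QuasiA

set_option autoImplicit false

namespace Pool.Agent.MC

open Complex MeasureTheory Set Filter Topology Asymptotics Metric

/-- coefficients `χ(n) Λ(n)` -/
noncomputable def cL (d : ℕ) (χ : DirichletCharacter ℂ d) (n : ℕ) : ℂ :=
  χ n * ((ArithmeticFunction.vonMangoldt n : ℝ) : ℂ)

/-- `1` for the trivial character, `0` otherwise -/
noncomputable def dl (d : ℕ) (χ : DirichletCharacter ℂ d) : ℂ := by
  classical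
  exact if χ = 1 then 1 else 0

lemma dl_one (d : ℕ) : dl d 1 = 1 := by unfold dl; simp

lemma dl_of_ne (d : ℕ) (χ : DirichletCharacter ℂ d) (h : χ ≠ 1) : dl d χ = 0 := by
  unfold dl; simp [h]

/-- error term for a character -/
noncomputable def EX (d : ℕ) (χ : DirichletCharacter ℂ d) (t : ℝ) : ℂ :=
  SumC (cL d χ) t - dl d χ * t

lemma sum_char (d : ℕ) [NeZero d] (χ : DirichletCharacter ℂ d) :
    ∑ a : ZMod d, χ a = dl d χ * (Nat.totient d : ℂ) := by
  classical
  by_cases h : χ = 1
  · subst h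
    rw [dl_one, one_mul, MulChar.sum_one_eq_card_units, ZMod.card_units_eq_totient]
  · rw [dl_of_ne d χ h, zero_mul, MulChar.sum_eq_zero_of_ne_one h]

lemma SumC_cL (d : ℕ) [NeZero d] (χ : DirichletCharacter ℂ d) (t : ℝ) :
    SumC (cL d χ) t = ∑ a : ZMod d, χ a * ((psiR t d a.val : ℝ) : ℂ) := by
  classical
  unfold SumC cL
  rw [← Finset.sum_fiberwise (s := Finset.Icc 1 ⌊t⌋₊) (g := fun n : ℕ => (n : ZMod d))]
  refine Finset.sum_congr rfl fun a _ => ?_
  unfold psiR
  rw [Complex.ofReal_sum, Finset.mul_sum]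
  have h1 : (Finset.Icc 1 ⌊t⌋₊).filter (fun n : ℕ => (n : ZMod d) = a)
      = (Finset.Icc 1 ⌊t⌋₊).filter (fun n => n % d = a.val % d) := by
    refine Finset.filter_congr fun n _ => ?_
    rw [← ZMod.natCast_eq_natCast_iff' n a.val d, ZMod.natCast_val, ZMod.cast_id]
  rw [← h1]
  refine Finset.sum_congr rfl fun n hn => ?_
  rw [Finset.mem_filter] at hn
  rw [hn.2]

lemma EX_eq (d : ℕ) [NeZero d] (χ : DirichletCharacter ℂ d) (t : ℝ) :
    EX d χ t = ∑ a : ZMod d, χ a * EC d a.val t := by
  have hφ : (Nat.totient d : ℂ) ≠ 0 := by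
    exact_mod_cast (Nat.totient_pos.mpr (Nat.pos_of_ne_zero (NeZero.ne d))).ne'
  have h1 := sum_char d χ
  unfold EX
  rw [SumC_cL]
  have h2 : dl d χ * (t : ℂ) = ∑ a : ZMod d, χ a * ((t / (Nat.totient d : ℝ) : ℝ) : ℂ) := by
    rw [← Finset.sum_mul, h1]
    push_cast
    field_simp
  rw [h2, ← Finset.sum_sub_distrib]
  refine Finset.sum_congr rfl fun a _ => ?_
  unfold EC
  push_cast
  ring

lemma EX_measurable (d : ℕ) (χ : DirichletCharacter ℂ d) : Measurable (EX d χ) := by
  unfold EX
  exact (SumC_measurable _).sub (by fun_prop)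

lemma EX_bound (d : ℕ) [NeZero d] (χ : DirichletCharacter ℂ d) (C τ : ℝ) (t : ℝ)
    (h : ∀ a : ℕ, Nat.Coprime a d → |psiR t d a - t / (Nat.totient d : ℝ)| ≤ C * t ^ τ)
    (hC : 0 ≤ C * t ^ τ) :
    ‖EX d χ t‖ ≤ (d * C) * t ^ τ := by
  rw [EX_eq]
  refine (norm_sum_le _ _).trans ?_
  calc ∑ a : ZMod d, ‖χ a * EC d a.val t‖ ≤ ∑ _a : ZMod d, C * t ^ τ := by
        refine Finset.sum_le_sum fun a _ => ?_
        by_cases ha : IsUnit a
        · have h1 : Nat.Coprime a.val d := by
            rw [← ZMod.isUnit_iff_coprime, ZMod.natCast_val, ZMod.cast_id]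
            exact ha
          rw [norm_mul]
          have h2 : ‖EC d a.val t‖ ≤ C * t ^ τ := by
            unfold EC
            rw [Complex.norm_real, Real.norm_eq_abs]
            exact h _ h1
          calc ‖χ a‖ * ‖EC d a.val t‖ ≤ 1 * (C * t ^ τ) := by
                gcongr
                exact χ.norm_le_one a
            _ = _ := one_mul _
        · rw [χ.map_nonunit ha, zero_mul, norm_zero]
          exact hC
    _ = (d * C) * t ^ τ := by
        rw [Finset.sum_const, Finset.card_univ, ZMod.card, nsmul_eq_mul]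
        ring

/-- Mellin representation of the logarithmic derivative. -/
lemma logDeriv_eq_MT (d : ℕ) [NeZero d] (χ : DirichletCharacter ℂ d) (s : ℂ) (hs : 1 < s.re) :
    -(deriv χ.LFunction s / χ.LFunction s) = s * MT (EX d χ) s + dl d χ * (s / (s - 1)) := by
  have h0 : LSeries (cL d χ) s = -(deriv χ.LFunction s / χ.LFunction s) := by
    rw [DirichletCharacter.LFunction_eq_LSeries χ hs,
      DirichletCharacter.deriv_LFunction_eq_deriv_LSeries χ hs, ← neg_div]
    exact DirichletCharacter.LSeries_twist_vonMangoldt_eq χ hs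
  rw [← h0]
  have hsum : LSeriesSummable (cL d χ) s :=
    DirichletCharacter.LSeriesSummable_twist_vonMangoldt χ hs
  have hd : 0 < d := Nat.pos_of_ne_zero (NeZero.ne d)
  have hO : (fun n : ℕ => ∑ k ∈ Finset.Icc 1 n, cL d χ k) =O[atTop] fun n : ℕ => (n : ℝ) ^ (1 : ℝ) := by
    refine IsBigO.of_bound 6 (Eventually.of_forall fun n => ?_)
    rw [Real.rpow_one, Real.norm_of_nonneg (Nat.cast_nonneg n)]
    have h1 : ‖∑ k ∈ Finset.Icc 1 n, cL d χ k‖ ≤ Chebyshev.psi n := by
      unfold Chebyshev.psi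
      have h2 : Finset.Icc 1 n = Finset.Ioc 0 ⌊(n : ℝ)⌋₊ := by
        rw [Nat.floor_natCast]
        ext m; simp only [Finset.mem_Icc, Finset.mem_Ioc]; omega
      rw [h2]
      refine (norm_sum_le _ _).trans (Finset.sum_le_sum fun m _ => ?_)
      unfold cL
      rw [norm_mul, Complex.norm_real, Real.norm_of_nonneg ArithmeticFunction.vonMangoldt_nonneg]
      calc ‖χ m‖ * ArithmeticFunction.vonMangoldt m ≤ 1 * ArithmeticFunction.vonMangoldt m := by
            gcongr
            exact χ.norm_le_one _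
        _ = _ := one_mul _
    have h2 := Chebyshev.psi_le_const_mul_self (x := (n : ℝ)) (Nat.cast_nonneg n)
    have h3 : Real.log 4 ≤ 2 := by
      have h4 : Real.log 4 = 2 * Real.log 2 := by
        rw [show (4 : ℝ) = 2 ^ 2 by norm_num, Real.log_pow]; norm_num
      have h5 := Real.log_two_lt_d9
      linarith
    have h6 : (0 : ℝ) ≤ n := Nat.cast_nonneg n
    nlinarith
  rw [LSeries_eq_mul_integral (cL d χ) zero_le_one hs hsum hO]
  have hEb : ∀ t : ℝ, 1 < t → ‖EX d χ t‖ ≤ (d * 7) * t ^ (1 : ℝ) := by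
    intro t ht
    have ht0 : 0 < t := by linarith
    refine EX_bound d χ 7 1 t (fun a _ => ?_) (by positivity)
    have h1 := EC_bound d a hd t
    unfold EC at h1
    rw [Complex.norm_real, Real.norm_eq_abs, abs_of_pos ht0] at h1
    rw [Real.rpow_one]
    exact h1
  have h2 : ∫ t in Ioi (1 : ℝ), (∑ k ∈ Finset.Icc 1 ⌊t⌋₊, cL d χ k) * (t : ℂ) ^ (-(s + 1))
      = MT (EX d χ) s + dl d χ * (1 / (s - 1)) := by
    have hE := MT_integrable (EX d χ) _ 1 (EX_measurable d χ) hEb s hs
    have hI := MT_id_integrable s hs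
    have hI' : IntegrableOn (fun t : ℝ => (dl d χ * (t : ℂ)) * (t : ℂ) ^ (-(s + 1))) (Ioi 1) := by
      have := hI.const_mul (dl d χ)
      refine this.congr (ae_of_all _ fun t => ?_)
      simp only
      ring
    rw [← MT_id s hs, ← MT_const_mul]
    unfold MT
    rw [← integral_add hE hI']
    congr 1
    ext t
    unfold EX SumC
    ring
  rw [h2]
  ring

/-- The bound for the error term implies the zero-free half plane. -/
theorem ZF_of_EB (d : ℕ) [NeZero d] (θ : ℝ) (hθ : 0 ≤ θ) (hE : EB d θ) : ZF d θ := by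
  intro χ ρ hρ hρ1
  have hd : 0 < d := Nat.pos_of_ne_zero (NeZero.ne d)
  -- analyticity
  have hMT : DifferentiableOn ℂ (MT (EX d χ)) {s | θ < s.re} := by
    intro s hs
    have hs' : θ < s.re := hs
    obtain ⟨C, hC⟩ := hE ((s.re - θ) / 2) (by linarith)
    have hC0 : 0 ≤ C := by
      have := (abs_nonneg _).trans (hC 1 le_rfl 1 (Nat.coprime_one_left d))
      rwa [Real.one_rpow, mul_one] at this
    refine (MT_differentiableAt (EX d χ) (d * C) (θ + (s.re - θ) / 2) (EX_measurable d χ)
      (fun t ht => ?_) s (by linarith)).differentiableWithinAt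
    have ht0 : 0 < t := by linarith
    exact EX_bound d χ C _ t (fun a ha => hC t ht.le a ha) (by positivity)
  set J : ℂ → ℂ := fun s => s * MT (EX d χ) s + dl d χ with hJ
  have hJd : DifferentiableOn ℂ J {s | θ < s.re} :=
    (differentiableOn_id.mul hMT).add_const _
  have hode1 : ∀ s : ℂ, 1 < s.re → deriv (FF d χ) s = - J s * FF d χ s := by
    intro s hs
    have hs1 : s ≠ 1 := by
      intro h; rw [h] at hs; simp at hs
    have hs2 : s - 1 ≠ 0 := sub_ne_zero.mpr hs1
    have hL : χ.LFunction s ≠ 0 :=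
      DirichletCharacter.LFunction_ne_zero_of_one_le_re χ (.inr hs1) hs.le
    have h1 := logDeriv_eq_MT d χ s hs
    by_cases h : χ = 1
    · subst h
      have h2 : deriv (FF d 1) s = (s - 1) * deriv (DirichletCharacter.LFunctionTrivChar d) s
          + DirichletCharacter.LFunctionTrivChar d s := by
        rw [FF_one]
        exact DirichletCharacter.deriv_LFunctionTrivChar₁_apply_of_ne_one d hs1
      have h3 : deriv (DirichletCharacter.LFunctionTrivChar d) s
          = deriv (1 : DirichletCharacter ℂ d).LFunction s := rfl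
      have h4 : DirichletCharacter.LFunctionTrivChar d s = (1 : DirichletCharacter ℂ d).LFunction s := rfl
      rw [h2, h3, h4, FF_one_apply d s hs1, hJ]
      simp only
      rw [dl_one] at h1 ⊢
      have h5 : deriv (1 : DirichletCharacter ℂ d).LFunction s
          = -(s * MT (EX d 1) s + 1 * (s / (s - 1))) * (1 : DirichletCharacter ℂ d).LFunction s := by
        rw [← h1]
        field_simp
      rw [h5]
      field_simp
      ring
    · rw [FF_of_ne d χ h, hJ]
      simp only
      rw [dl_of_ne d χ h] at h1 ⊢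
      rw [zero_mul, add_zero] at h1
      rw [add_zero, ← h1]
      field_simp
  have hode : ∀ s : ℂ, θ < s.re → deriv (FF d χ) s = - J s * FF d χ s := by
    intro s hs
    rcases le_or_gt θ 1 with h | h
    · refine eqOn_halfplane (deriv (FF d χ)) (fun s => - J s * FF d χ s) θ 1 h ?_ ?_ hode1 s hs
      · exact ((FF_differentiable d χ).differentiableOn.deriv isOpen_univ).mono (subset_univ _)
      · exact hJd.neg.mul (FF_differentiable d χ).differentiableOn
    · exact hode1 s (by linarith)
  -- apply the ODE lemma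
  set c : ℂ := ρ + 1 with hc
  set r : ℝ := 1 + (ρ.re - θ) / 2 with hr
  have hcre : c.re = ρ.re + 1 := by rw [hc]; simp
  have hball : ball c r ⊆ {s | θ < s.re} := by
    intro z hz
    rw [mem_ball, dist_eq_norm] at hz
    have h1 := (Complex.abs_re_le_norm (z - c)).trans_lt hz
    rw [Complex.sub_re, abs_lt, hcre] at h1
    change θ < z.re
    have h2 := h1.1
    rw [hr] at h2
    linarith
  have hc1 : c ≠ 1 := by
    intro h
    have h2 : c.re = 1 := by rw [h]; simp
    rw [hcre] at h2
    linarith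
  have hFc : FF d χ c ≠ 0 := by
    have hL : χ.LFunction c ≠ 0 :=
      DirichletCharacter.LFunction_ne_zero_of_one_le_re χ (.inr hc1) (by rw [hcre]; linarith)
    by_cases h : χ = 1
    · subst h
      rw [FF_one_apply d c hc1]
      exact mul_ne_zero (sub_ne_zero.mpr hc1) hL
    · rw [FF_of_ne d χ h]
      exact hL
  have hρball : ρ ∈ ball c r := by
    rw [mem_ball, dist_eq_norm, hc, show ρ - (ρ + 1) = -1 by ring, norm_neg, norm_one, hr]
    linarith
  have hFρ := ne_zero_of_ode c r (FF d χ) J (by rw [hr]; linarith)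
    (FF_differentiable d χ).differentiableOn (hJd.mono hball) (fun z hz => hode z (hball hz)) hFc ρ hρball
  by_cases h : χ = 1
  · subst h
    have hρ1' : ρ ≠ 1 := by
      intro h; rw [h] at hρ1; simp at hρ1
    rw [FF_one_apply d ρ hρ1'] at hFρ
    exact right_ne_zero_of_mul hFρ
  · rw [FF_of_ne d χ h] at hFρ
    exact hFρ

end Pool.Agent.MC
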