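import Mathlib
import Pool.Agent.Lib.MP_9cfc0a_nt.Base

set_option autoImplicit false

namespace Pool.Agent.MC

open Finset MeasureTheory Real

/-- The window sum `∑_{m-H < n ≤ m} f(n)` (with `f` cut off at `B`). -/
noncomputable def win (f : ℕ → ℂ) (B H m : ℕ) : ℂ :=
  ∑ j ∈ range H, if j ≤ m ∧ m - j < B then f (m - j) else 0

lemma sum_shift (f g : ℕ → ℂ) (B H j : ℕ) (hj : j < H) :
    ∑ m ∈ range (B + H), (if j ≤ m ∧ m - j < B then f (m - j) else 0) * g m
      = ∑ n ∈ range B, f n * g (n + j) := by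
  have h1 : ∑ m ∈ range (B + H), (if j ≤ m ∧ m - j < B then f (m - j) else 0) * g m
      = ∑ m ∈ (range (B + H)).filter (fun m => j ≤ m ∧ m - j < B), f (m - j) * g m := by
    rw [Finset.sum_filter]
    refine Finset.sum_congr rfl fun m _ => ?_
    split_ifs <;> simp
  rw [h1]
  refine Finset.sum_nbij' (fun m => m - j) (fun n => n + j) ?_ ?_ ?_ ?_ ?_
  · intro m hm
    simp only [Finset.mem_filter, Finset.mem_range] at hm ⊢
    exact hm.2.2
  · intro n hn
    simp only [Finset.mem_filter, Finset.mem_range] at hn ⊢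
    refine ⟨by omega, by omega, by omega⟩
  · intro m hm
    simp only [Finset.mem_filter, Finset.mem_range] at hm
    omega
  · intro n _
    simp
  · intro m hm
    simp only [Finset.mem_filter, Finset.mem_range] at hm
    congr 2
    omega

lemma expSum_mul_dirichlet (f : ℕ → ℂ) (B H : ℕ) (β : ℝ) :
    expSum f B β * ∑ j ∈ range H, ee (j * β) = expSum (win f B H) (B + H) β := by
  unfold expSum win
  have hR : ∑ m ∈ range (B + H), (∑ j ∈ range H, if j ≤ m ∧ m - j < B then f (m - j) else 0) *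
        ee (m * β)
      = ∑ j ∈ range H, ∑ n ∈ range B, f n * ee (((n + j : ℕ) : ℝ) * β) := by
    simp_rw [Finset.sum_mul]
    rw [Finset.sum_comm]
    refine Finset.sum_congr rfl fun j hj => ?_
    exact sum_shift f (fun m => ee (m * β)) B H j (Finset.mem_range.mp hj)
  rw [hR, Finset.sum_comm, Finset.sum_mul_sum]
  refine Finset.sum_congr rfl fun n _ => Finset.sum_congr rfl fun j _ => ?_
  rw [mul_assoc, ← ee_add]
  congr 2
  push_cast
  ring

lemma norm_ee_sub_one (x : ℝ) : ‖ee x - 1‖ = 2 * |Real.sin (π * x)| := by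
  have h : ee x - 1 = Complex.exp ((π * x : ℝ) * Complex.I) *
      (2 * Complex.I * Complex.sin ((π * x : ℝ) : ℂ)) := by
    unfold ee
    rw [Complex.sin]
    have h1 : Complex.exp (2 * π * x * Complex.I)
        = Complex.exp ((π * x : ℝ) * Complex.I) * Complex.exp ((π * x : ℝ) * Complex.I) := by
      rw [← Complex.exp_add]
      congr 1
      push_cast
      ring
    have h2 : Complex.exp ((π * x : ℝ) * Complex.I) * Complex.exp (-((π * x : ℝ) : ℂ) * Complex.I)
        = 1 := by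
      rw [← Complex.exp_add]
      simp
    rw [h1]
    linear_combination (1 : ℂ) * h2 - (Complex.exp ((π * x : ℝ) * Complex.I) *
      (Complex.exp (-((π * x : ℝ) : ℂ) * Complex.I) - Complex.exp ((π * x : ℝ) * Complex.I))) *
      Complex.I_sq
  rw [h, norm_mul, Complex.norm_exp_ofReal_mul_I, one_mul, norm_mul, norm_mul,
    Complex.norm_I, ← Complex.ofReal_sin, Complex.norm_real]
  simp

/-- Lower bound for the Dirichlet kernel near `0`. -/
lemma dirichlet_kernel_lower (H : ℕ) (hH : 1 ≤ H) (β : ℝ) (hβ : |β| ≤ 1 / (2 * H)) :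
    2 * H / π ≤ ‖∑ j ∈ range H, ee (j * β)‖ := by
  have hHpos : (0 : ℝ) < H := by exact_mod_cast hH
  by_cases h0 : β = 0
  · subst h0
    simp only [mul_zero, ee_zero, sum_const, card_range, nsmul_eq_mul, mul_one]
    rw [Complex.norm_natCast, div_le_iff₀ Real.pi_pos]
    nlinarith [Real.two_le_pi]
  · have hβpos : 0 < |β| := abs_pos.mpr h0
    have hgeom : (∑ j ∈ range H, ee (j * β)) * (ee β - 1) = ee (H * β) - 1 := by
      have : ∑ j ∈ range H, ee (j * β) = ∑ j ∈ range H, (ee β) ^ j :=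
        Finset.sum_congr rfl fun j _ => ee_nat_mul j β
      rw [this, geom_sum_mul, ee_nat_mul]
    have hnorm := congrArg norm hgeom
    rw [norm_mul, norm_ee_sub_one, norm_ee_sub_one] at hnorm
    set D := ‖∑ j ∈ range H, ee (j * β)‖ with hD
    have hDnn : 0 ≤ D := norm_nonneg _
    have h1 : |Real.sin (π * β)| ≤ π * |β| := by
      calc |Real.sin (π * β)| ≤ |π * β| := Real.abs_sin_le_abs
        _ = π * |β| := by rw [abs_mul, abs_of_pos Real.pi_pos]
    have h2 : 2 * H * |β| ≤ |Real.sin (π * (H * β))| := by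
      have hle : |π * (H * β)| ≤ π / 2 := by
        rw [abs_mul, abs_mul, abs_of_pos Real.pi_pos, abs_of_pos hHpos]
        have : (H : ℝ) * |β| ≤ 1 / 2 := by
          calc (H : ℝ) * |β| ≤ H * (1 / (2 * H)) := by gcongr
            _ = 1 / 2 := by field_simp
        nlinarith [Real.pi_pos]
      have h3 := Real.mul_abs_le_abs_sin hle
      calc 2 * H * |β| = 2 / π * |π * (H * β)| := by
            rw [abs_mul, abs_mul, abs_of_pos Real.pi_pos, abs_of_pos hHpos]
            field_simp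
        _ ≤ _ := h3
    have h4 : 2 * (2 * H * |β|) ≤ D * (2 * (π * |β|)) := by
      calc 2 * (2 * H * |β|) ≤ 2 * |Real.sin (π * (H * β))| := by linarith
        _ = D * (2 * |Real.sin (π * β)|) := hnorm.symm
        _ ≤ D * (2 * (π * |β|)) := by gcongr
    rw [div_le_iff₀ Real.pi_pos]
    have h5 : (2 * H) * |β| ≤ (D * π) * |β| := by linarith
    exact le_of_mul_le_mul_right h5 hβpos

/-- A discrete form of Gallagher's lemma. -/
lemma gallagher (f : ℕ → ℂ) (B H : ℕ) (hH : 1 ≤ H) :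
    ∫ β in (-(1 / (2 * (H : ℝ))))..(1 / (2 * (H : ℝ))), ‖expSum f B β‖ ^ 2
      ≤ (π / (2 * H)) ^ 2 * ∑ m ∈ range (B + H), ‖win f B H m‖ ^ 2 := by
  have hHpos : (0 : ℝ) < H := by exact_mod_cast hH
  have hH1 : (1 : ℝ) ≤ H := by exact_mod_cast hH
  set T : ℝ := 1 / (2 * (H : ℝ)) with hT
  have hTpos : 0 < T := by positivity
  have hT1 : T ≤ 1 / 2 := by
    rw [hT]
    apply one_div_le_one_div_of_le (by norm_num)
    linarith
  have hcont1 : Continuous (fun β => ‖expSum f B β‖ ^ 2) :=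
    (continuous_expSum f B).norm.pow 2
  have hcont2 : Continuous (fun β => ‖expSum (win f B H) (B + H) β‖ ^ 2) :=
    (continuous_expSum _ _).norm.pow 2
  have step1 : ∫ β in (-T)..T, ‖expSum f B β‖ ^ 2
      ≤ ∫ β in (-T)..T, (π / (2 * H)) ^ 2 * ‖expSum (win f B H) (B + H) β‖ ^ 2 := by
    refine intervalIntegral.integral_mono_on (by linarith) (hcont1.intervalIntegrable _ _)
      ((continuous_const.mul hcont2).intervalIntegrable _ _) ?_
    intro β hβ
    have habs : |β| ≤ 1 / (2 * H) := abs_le.mpr ⟨hβ.1, hβ.2⟩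
    have hk := dirichlet_kernel_lower H hH β habs
    rw [← expSum_mul_dirichlet, norm_mul, mul_pow]
    set D := ‖∑ j ∈ range H, ee (j * β)‖ with hD
    have : 1 ≤ (π / (2 * H)) * D := by
      calc (1 : ℝ) = (π / (2 * H)) * (2 * H / π) := by field_simp
        _ ≤ (π / (2 * H)) * D := by gcongr
    have h2 : 1 ≤ (π / (2 * H)) ^ 2 * D ^ 2 := by
      rw [← mul_pow]
      exact one_le_pow₀ this
    calc ‖expSum f B β‖ ^ 2 = ‖expSum f B β‖ ^ 2 * 1 := by ring
      _ ≤ ‖expSum f B β‖ ^ 2 * ((π / (2 * H)) ^ 2 * D ^ 2) := by gcongr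
      _ = (π / (2 * H)) ^ 2 * (‖expSum f B β‖ ^ 2 * D ^ 2) := by ring
  have step2 : ∫ β in (-T)..T, ‖expSum (win f B H) (B + H) β‖ ^ 2
      ≤ ∫ β in (-T)..(-T + 1), ‖expSum (win f B H) (B + H) β‖ ^ 2 := by
    refine intervalIntegral.integral_mono_interval le_rfl (by linarith) (by linarith) ?_
      (hcont2.intervalIntegrable _ _)
    filter_upwards with β
    positivity
  calc ∫ β in (-T)..T, ‖expSum f B β‖ ^ 2
      ≤ ∫ β in (-T)..T, (π / (2 * H)) ^ 2 * ‖expSum (win f B H) (B + H) β‖ ^ 2 := step1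
    _ = (π / (2 * H)) ^ 2 * ∫ β in (-T)..T, ‖expSum (win f B H) (B + H) β‖ ^ 2 := by
        rw [intervalIntegral.integral_const_mul]
    _ ≤ (π / (2 * H)) ^ 2 * ∫ β in (-T)..(-T + 1), ‖expSum (win f B H) (B + H) β‖ ^ 2 := by
        gcongr
    _ = (π / (2 * H)) ^ 2 * ∑ m ∈ range (B + H), ‖win f B H m‖ ^ 2 := by
        rw [integral_norm_sq_shift]

end Pool.Agent.MC
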