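import Mathlib
import Pool.Agent.Lib.MP_9cfc0a_nt.Base
import Pool.Agent.Lib.MP_9cfc0a_nt.Gallagher
import Pool.Agent.Lib.MP_9cfc0a_nt.Farey
import Pool.Agent.Lib.MP_9cfc0a_nt.Twist
import Pool.Agent.Lib.MP_9cfc0a_nt.Arcs

set_option autoImplicit false

namespace Pool.Agent.MC

open Finset MeasureTheory Real

lemma norm_add_sq_le (x y : ℂ) (κ : ℝ) (hκ : 0 < κ) :
    ‖x + y‖ ^ 2 ≤ (1 + κ) * ‖x‖ ^ 2 + (1 + 1 / κ) * ‖y‖ ^ 2 := by
  have h1 : ‖x + y‖ ≤ ‖x‖ + ‖y‖ := norm_add_le x y
  have h2 : ‖x + y‖ ^ 2 ≤ (‖x‖ + ‖y‖) ^ 2 := by gcongr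
  refine h2.trans ?_
  have h3 : 0 ≤ (Real.sqrt κ * ‖x‖ - ‖y‖ / Real.sqrt κ) ^ 2 := sq_nonneg _
  have hs : Real.sqrt κ ^ 2 = κ := Real.sq_sqrt hκ.le
  have hs0 : 0 < Real.sqrt κ := Real.sqrt_pos.mpr hκ
  have h4 : (Real.sqrt κ * ‖x‖ - ‖y‖ / Real.sqrt κ) ^ 2
      = κ * ‖x‖ ^ 2 - 2 * ‖x‖ * ‖y‖ + 1 / κ * ‖y‖ ^ 2 := by
    rw [sub_sq, mul_pow, hs, div_pow, hs]
    field_simp
  rw [h4] at h3
  nlinarith

lemma arcSum_add_le (f g : ℕ → ℂ) (B q : ℕ) (β κ : ℝ) (hκ : 0 < κ) :
    arcSum (fun n => f n + g n) B q β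
      ≤ (1 + κ) * arcSum f B q β + (1 + 1 / κ) * arcSum g B q β := by
  unfold arcSum
  rw [Finset.mul_sum, Finset.mul_sum, ← Finset.sum_add_distrib]
  refine Finset.sum_le_sum fun b _ => ?_
  have : expSum (fun n => f n + g n) B ((b : ℝ) / q + β)
      = expSum f B ((b : ℝ) / q + β) + expSum g B ((b : ℝ) / q + β) := by
    unfold expSum
    rw [← Finset.sum_add_distrib]
    exact Finset.sum_congr rfl fun n _ => by ring
  rw [this]
  exact norm_add_sq_le _ _ κ hκ

lemma card_frac (q : ℕ) : (frac q).card = Nat.totient q := by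
  unfold frac
  rw [Nat.totient_eq_card_coprime]
  congr 1
  refine Finset.filter_congr fun x _ => ?_
  rw [Nat.coprime_comm]

lemma norm_expSum_le (f : ℕ → ℂ) (B : ℕ) (α : ℝ) :
    ‖expSum f B α‖ ≤ ∑ n ∈ range B, ‖f n‖ := by
  unfold expSum
  refine (norm_sum_le _ _).trans ?_
  refine Finset.sum_le_sum fun n _ => ?_
  rw [norm_mul, norm_ee, mul_one]

lemma arcSum_le_trivial (f : ℕ → ℂ) (B q : ℕ) (β : ℝ) :
    arcSum f B q β ≤ Nat.totient q * (∑ n ∈ range B, ‖f n‖) ^ 2 := by
  unfold arcSum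
  rw [← card_frac, ← nsmul_eq_mul]
  refine Finset.sum_le_card_nsmul _ _ _ fun b _ => ?_
  gcongr
  exact norm_expSum_le _ _ _

/-- the remainder in the residue class `a` mod `q` with respect to the model `t / φ(q)` -/
noncomputable def rem (f t : ℕ → ℂ) (q a n : ℕ) : ℂ := fres f q a n - t n / (Nat.totient q : ℂ)

lemma arcSum_le_main_add_rem (f t : ℕ → ℂ) (B q : ℕ) (hq : q ≠ 0)
    (hf : ∀ n, ¬ Nat.Coprime n q → f n = 0) (β κ : ℝ) (hκ : 0 < κ) :
    arcSum f B q β ≤ (1 + κ) * (((ArithmeticFunction.moebius q : ℝ) ^ 2 / Nat.totient q)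
        * ‖expSum t B β‖ ^ 2)
      + (1 + 1 / κ) * (q * ∑ a ∈ frac q, ‖expSum (rem f t q a) B β‖ ^ 2) := by
  classical
  have hφ : (0 : ℝ) < Nat.totient q := by
    exact_mod_cast Nat.totient_pos.mpr (Nat.pos_of_ne_zero hq)
  have hφC : (Nat.totient q : ℂ) ≠ 0 := by exact_mod_cast hφ.ne'
  set g : ℕ → ℂ := fun a => if a ∈ frac q then expSum (rem f t q a) B β else 0 with hg
  have hdecomp : ∀ b ∈ frac q, expSum f B ((b : ℝ) / q + β)
      = (ArithmeticFunction.moebius q : ℂ) / (Nat.totient q : ℂ) * expSum t B β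
        + ∑ a ∈ range q, ee ((a : ℝ) * b / q) * g a := by
    intro b hb
    have hbc : Nat.Coprime b q := (Finset.mem_filter.mp hb).2
    rw [expSum_eq_sum_classes f B q b hq β]
    have h1 : ∀ a ∈ range q, ee ((a : ℝ) * b / q) * expSum (fres f q a) B β
        = (if a ∈ frac q then ee ((a : ℝ) * b / q) * (expSum t B β / (Nat.totient q : ℂ)) else 0)
          + ee ((a : ℝ) * b / q) * g a := by
      intro a ha
      by_cases hac : a ∈ frac q
      · simp only [hg, if_pos hac]
        have h2 : expSum (rem f t q a) B β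
            = expSum (fres f q a) B β - expSum t B β / (Nat.totient q : ℂ) := by
          unfold expSum rem
          rw [Finset.sum_div, ← Finset.sum_sub_distrib]
          refine Finset.sum_congr rfl fun n _ => ?_
          ring
        rw [h2]
        ring
      · simp only [hg, if_neg hac, mul_zero, add_zero]
        have h3 : expSum (fres f q a) B β = 0 := by
          unfold expSum
          refine Finset.sum_eq_zero fun n _ => ?_
          unfold fres
          split_ifs with hna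
          · rw [hf n, zero_mul]
            intro hcop
            apply hac
            unfold frac
            rw [Finset.mem_filter]
            refine ⟨ha, ?_⟩
            rw [← hna, Nat.coprime_iff_gcd_eq_one, ← Nat.gcd_rec, Nat.gcd_comm]
            exact hcop
          · simp
        rw [h3, mul_zero]
    rw [Finset.sum_congr rfl h1, Finset.sum_add_distrib]
    congr 1
    rw [← Finset.sum_filter]
    have hfil : (range q).filter (fun a => a ∈ frac q) = frac q := by
      ext x
      simp only [Finset.mem_filter, frac, Finset.mem_range]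
      tauto
    rw [hfil, ← Finset.sum_mul, ramanujan_coprime q b hq hbc]
    ring
  have hstep : arcSum f B q β ≤ ∑ b ∈ frac q,
      ((1 + κ) * ‖(ArithmeticFunction.moebius q : ℂ) / (Nat.totient q : ℂ) * expSum t B β‖ ^ 2
        + (1 + 1 / κ) * ‖∑ a ∈ range q, ee ((a : ℝ) * b / q) * g a‖ ^ 2) := by
    unfold arcSum
    refine Finset.sum_le_sum fun b hb => ?_
    rw [hdecomp b hb]
    exact norm_add_sq_le _ _ κ hκ
  refine hstep.trans ?_
  rw [Finset.sum_add_distrib]
  refine add_le_add ?_ ?_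
  · rw [Finset.sum_const, card_frac, nsmul_eq_mul]
    apply le_of_eq
    rw [norm_mul, norm_div, mul_pow, div_pow, Complex.norm_natCast]
    have hm : ‖((ArithmeticFunction.moebius q : ℤ) : ℂ)‖ ^ 2
        = (ArithmeticFunction.moebius q : ℝ) ^ 2 := by
      rw [Complex.norm_intCast, sq_abs]
    rw [hm]
    field_simp
  · rw [← Finset.mul_sum]
    refine mul_le_mul_of_nonneg_left ?_ (by positivity)
    calc ∑ b ∈ frac q, ‖∑ a ∈ range q, ee ((a : ℝ) * b / q) * g a‖ ^ 2
        ≤ ∑ b ∈ range q, ‖∑ a ∈ range q, ee ((a : ℝ) * b / q) * g a‖ ^ 2 :=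
          Finset.sum_le_sum_of_subset_of_nonneg (Finset.filter_subset _ _)
            (fun _ _ _ => by positivity)
      _ = q * ∑ a ∈ range q, ‖g a‖ ^ 2 := parseval_mod q hq g
      _ = q * ∑ a ∈ frac q, ‖expSum (rem f t q a) B β‖ ^ 2 := by
          congr 1
          have h5 : ∀ a ∈ range q, ‖g a‖ ^ 2
              = if a ∈ frac q then ‖expSum (rem f t q a) B β‖ ^ 2 else 0 := by
            intro a _
            simp only [hg]
            split_ifs <;> simp
          rw [Finset.sum_congr rfl h5, ← Finset.sum_filter]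
          refine Finset.sum_congr ?_ fun _ _ => rfl
          ext x
          simp only [Finset.mem_filter, frac, Finset.mem_range]
          tauto

/-- clamp to `[X1, X2]` -/
def clamp (X1 X2 m : ℕ) : ℕ := max X1 (min m X2)

lemma win_eq_sum_Ioc (r : ℕ → ℂ) (B H m : ℕ) (hr0 : r 0 = 0) (hrB : ∀ n, B ≤ n → r n = 0) :
    win r B H m = ∑ n ∈ Ioc (m - H) m, r n := by
  unfold win
  have h1 : ∀ j ∈ range H, (if j ≤ m ∧ m - j < B then r (m - j) else 0)
      = if j ≤ m then r (m - j) else 0 := by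
    intro j _
    by_cases hjm : j ≤ m
    · by_cases hB : m - j < B
      · rw [if_pos ⟨hjm, hB⟩, if_pos hjm]
      · rw [if_neg (by tauto), if_pos hjm, hrB _ (by omega)]
    · rw [if_neg (by tauto), if_neg hjm]
  rw [Finset.sum_congr rfl h1, ← Finset.sum_filter]
  by_cases hmH : m < H
  · have h0 : m - H = 0 := by omega
    rw [h0]
    have h2 : ∑ n ∈ Ioc 0 m, r n = ∑ n ∈ range (m + 1), r n := by
      rw [← Finset.sum_subset (s₁ := Ioc 0 m) (s₂ := range (m + 1))]
      · intro n hn
        simp only [Finset.mem_Ioc, Finset.mem_range] at hn ⊢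
        omega
      · intro n hn hn'
        simp only [Finset.mem_Ioc, Finset.mem_range] at hn hn'
        have : n = 0 := by omega
        rw [this, hr0]
    rw [h2]
    refine Finset.sum_nbij' (fun j => m - j) (fun n => m - n) ?_ ?_ ?_ ?_ ?_
    · intro j hj
      simp only [Finset.mem_filter, Finset.mem_range] at hj ⊢
      omega
    · intro n hn
      simp only [Finset.mem_filter, Finset.mem_range] at hn ⊢
      omega
    · intro j hj
      simp only [Finset.mem_filter, Finset.mem_range] at hj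
      omega
    · intro n hn
      simp only [Finset.mem_range] at hn
      omega
    · intro j _
      rfl
  · refine Finset.sum_nbij' (fun j => m - j) (fun n => m - n) ?_ ?_ ?_ ?_ ?_
    · intro j hj
      simp only [Finset.mem_filter, Finset.mem_range, Finset.mem_Ioc] at hj ⊢
      omega
    · intro n hn
      simp only [Finset.mem_filter, Finset.mem_range, Finset.mem_Ioc] at hn ⊢
      omega
    · intro j hj
      simp only [Finset.mem_filter, Finset.mem_range] at hj
      omega
    · intro n hn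
      simp only [Finset.mem_Ioc] at hn
      omega
    · intro j _
      rfl

lemma sum_Ioc_eq_sub (h : ℕ → ℂ) (X1 X2 u v : ℕ) (hX : X1 ≤ X2) (huv : u ≤ v) :
    ∑ n ∈ Ioc u v, (if X1 < n ∧ n ≤ X2 then h n else 0)
      = ∑ n ∈ Icc 1 (clamp X1 X2 v), h n - ∑ n ∈ Icc 1 (clamp X1 X2 u), h n := by
  have hmono : clamp X1 X2 u ≤ clamp X1 X2 v := by
    unfold clamp
    omega
  have h1 : ∑ n ∈ Icc 1 (clamp X1 X2 v), h n - ∑ n ∈ Icc 1 (clamp X1 X2 u), h n
      = ∑ n ∈ Ioc (clamp X1 X2 u) (clamp X1 X2 v), h n := by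
    rw [sub_eq_iff_eq_add]
    have hunion : Icc 1 (clamp X1 X2 v)
        = Ioc (clamp X1 X2 u) (clamp X1 X2 v) ∪ Icc 1 (clamp X1 X2 u) := by
      ext n
      simp only [Finset.mem_union, Finset.mem_Icc, Finset.mem_Ioc]
      omega
    rw [hunion, Finset.sum_union]
    rw [Finset.disjoint_left]
    intro n hn hn'
    simp only [Finset.mem_Icc, Finset.mem_Ioc] at hn hn'
    omega
  rw [h1, ← Finset.sum_filter]
  refine Finset.sum_congr ?_ fun _ _ => rfl
  ext n
  simp only [Finset.mem_filter, Finset.mem_Ioc, clamp]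
  omega

end Pool.Agent.MC
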