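import Mathlib
import Pool.Agent.Lib.MP_9cfc0a_nt.Base
import Pool.Agent.Lib.MP_9cfc0a_nt.Gallagher
import Pool.Agent.Lib.MP_9cfc0a_nt.Farey
import Pool.Agent.Lib.MP_9cfc0a_nt.Twist
import Pool.Agent.Lib.MP_9cfc0a_nt.Arcs
import Pool.Agent.Lib.MP_9cfc0a_nt.LargeArcs

set_option autoImplicit false

namespace Pool.Agent.MC

open Finset MeasureTheory Real ArithmeticFunction

/-- `ψ(k; q, a)` at an integer `k` -/
noncomputable def psiN (k q a : ℕ) : ℝ :=
  ∑ n ∈ (Icc 1 k).filter (fun n => n % q = a), vonMangoldt n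

/-- the variance of the primes up to `k` in the reduced residue classes mod `q` -/
noncomputable def varN (k q : ℕ) : ℝ :=
  ∑ a ∈ frac q, (psiN k q a - (k : ℝ) / Nat.totient q) ^ 2

/-- the von Mangoldt function on `(X1, X2]` -/
noncomputable def fL (X1 X2 n : ℕ) : ℂ := if X1 < n ∧ n ≤ X2 then ((vonMangoldt n : ℝ) : ℂ) else 0

/-- the indicator function of `(X1, X2]` -/
noncomputable def tL (X1 X2 n : ℕ) : ℂ := if X1 < n ∧ n ≤ X2 then 1 else 0

/-- the part of `fL` supported on primes -/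
noncomputable def fP (X1 X2 n : ℕ) : ℂ := if n.Prime then fL X1 X2 n else 0

/-- the part of `fL` supported on non-primes -/
noncomputable def fPP (X1 X2 n : ℕ) : ℂ := if n.Prime then 0 else fL X1 X2 n

/-- the part of `fL` supported on integers coprime to `q` -/
noncomputable def fC (X1 X2 q n : ℕ) : ℂ := if Nat.Coprime n q then fL X1 X2 n else 0

/-- the part of `fL` supported on integers not coprime to `q` -/
noncomputable def fBad (X1 X2 q n : ℕ) : ℂ := if Nat.Coprime n q then 0 else fL X1 X2 n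

lemma fL_eq_p_add_pp (X1 X2 : ℕ) : fL X1 X2 = fun n => fP X1 X2 n + fPP X1 X2 n := by
  funext n
  unfold fP fPP
  split_ifs <;> simp

lemma fL_eq_c_add_bad (X1 X2 q : ℕ) : fL X1 X2 = fun n => fC X1 X2 q n + fBad X1 X2 q n := by
  funext n
  unfold fC fBad
  split_ifs <;> simp

lemma integral_mono_radius (F : ℝ → ℝ) (hF : Continuous F) (hF0 : ∀ x, 0 ≤ F x) (S T : ℝ)
    (hS : 0 ≤ S) (hST : S ≤ T) : ∫ β in (-S)..S, F β ≤ ∫ β in (-T)..T, F β := by
  refine intervalIntegral.integral_mono_interval (by linarith) (by linarith) hST ?_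
    (hF.intervalIntegrable _ _)
  filter_upwards with β
  exact hF0 β

lemma integral_le_const_radius (F : ℝ → ℝ) (hF : Continuous F) (T C : ℝ)
    (hT : 0 ≤ T) (hC : ∀ x, F x ≤ C) : ∫ β in (-T)..T, F β ≤ 2 * T * C := by
  calc ∫ β in (-T)..T, F β ≤ ∫ _ in (-T)..T, C :=
        intervalIntegral.integral_mono_on (by linarith) (hF.intervalIntegrable _ _)
          (continuous_const.intervalIntegrable _ _) (fun x _ => hC x)
    _ = 2 * T * C := by
        rw [intervalIntegral.integral_const, smul_eq_mul]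
        ring

/-- the window sums of the remainder are differences of values of the error term -/
lemma win_rem_eq (X1 X2 q a H m : ℕ) (hX : X1 ≤ X2) (ha : a ∈ frac q) :
    win (rem (fC X1 X2 q) (tL X1 X2) q a) (X2 + 1) H m
      = (((psiN (clamp X1 X2 m) q a - (clamp X1 X2 m : ℝ) / Nat.totient q)
          - (psiN (clamp X1 X2 (m - H)) q a - (clamp X1 X2 (m - H) : ℝ) / Nat.totient q) : ℝ) : ℂ) := by
  have hac : Nat.Coprime a q := (Finset.mem_filter.mp ha).2
  set h : ℕ → ℂ := fun n => (if n % q = a then ((vonMangoldt n : ℝ) : ℂ) else 0)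
    - 1 / (Nat.totient q : ℂ) with hh
  have hr : rem (fC X1 X2 q) (tL X1 X2) q a = fun n => if X1 < n ∧ n ≤ X2 then h n else 0 := by
    funext n
    unfold rem fres fC fL tL
    by_cases hn : X1 < n ∧ n ≤ X2
    · simp only [if_pos hn, hh]
      by_cases hna : n % q = a
      · have hcop : Nat.Coprime n q := by
          rw [← hna, Nat.coprime_iff_gcd_eq_one, ← Nat.gcd_rec, Nat.gcd_comm] at hac
          exact hac
        rw [if_pos hna, if_pos hna, if_pos hcop]
      · rw [if_neg hna, if_neg hna]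
    · simp only [if_neg hn]
      split_ifs <;> simp
  rw [win_eq_sum_Ioc]
  · rw [hr, sum_Ioc_eq_sub h X1 X2 (m - H) m hX (Nat.sub_le _ _)]
    have hE : ∀ k : ℕ, ∑ n ∈ Icc 1 k, h n = ((psiN k q a - (k : ℝ) / Nat.totient q : ℝ) : ℂ) := by
      intro k
      simp only [hh]
      rw [Finset.sum_sub_distrib, Finset.sum_const, Nat.card_Icc, Nat.add_sub_cancel, nsmul_eq_mul]
      unfold psiN
      rw [← Finset.sum_filter]
      push_cast
      ring
    rw [hE, hE]
    push_cast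
    ring
  · rw [hr]
    simp
  · intro n hn
    rw [hr]
    simp only
    rw [if_neg]
    omega

lemma varN_nonneg (k q : ℕ) : 0 ≤ varN k q := by
  unfold varN
  exact Finset.sum_nonneg fun _ _ => sq_nonneg _

/-- a weighted average of the variance over `[X1, X2]` (with extra weight at the end points) -/
noncomputable def avgV (X1 X2 q : ℕ) : ℝ :=
  (2 * ∑ m ∈ range (X2 + 1), varN (clamp X1 X2 m) q + X2 * varN X1 q + X2 * varN X2 q) / (4 * X2)

lemma avgV_nonneg (X1 X2 q : ℕ) : 0 ≤ avgV X1 X2 q := by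
  unfold avgV
  have h1 : 0 ≤ ∑ m ∈ range (X2 + 1), varN (clamp X1 X2 m) q :=
    Finset.sum_nonneg fun _ _ => varN_nonneg _ _
  have h2 : 0 ≤ (X2 : ℝ) * varN X1 q := mul_nonneg (Nat.cast_nonneg _) (varN_nonneg _ _)
  have h3 : 0 ≤ (X2 : ℝ) * varN X2 q := mul_nonneg (Nat.cast_nonneg _) (varN_nonneg _ _)
  have h4 : (0 : ℝ) ≤ 4 * (X2 : ℝ) := by linarith [Nat.cast_nonneg (α := ℝ) X2]
  exact div_nonneg (by linarith) h4

lemma sum_windows_eq (X1 X2 q H : ℕ) (hX : X1 ≤ X2) :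
    ∑ m ∈ range (X2 + 1 + H), (2 * varN (clamp X1 X2 m) q + 2 * varN (clamp X1 X2 (m - H)) q)
      = 2 * (2 * ∑ m ∈ range (X2 + 1), varN (clamp X1 X2 m) q + H * varN X1 q + H * varN X2 q) := by
  rw [Finset.sum_add_distrib, ← Finset.mul_sum, ← Finset.mul_sum]
  have h1 : ∑ m ∈ range (X2 + 1 + H), varN (clamp X1 X2 m) q
      = ∑ m ∈ range (X2 + 1), varN (clamp X1 X2 m) q + H * varN X2 q := by
    rw [Finset.sum_range_add]
    congr 1
    have h2 : ∀ i ∈ range H, varN (clamp X1 X2 (X2 + 1 + i)) q = varN X2 q := by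
      intro i _
      have : clamp X1 X2 (X2 + 1 + i) = X2 := by unfold clamp; omega
      rw [this]
    rw [Finset.sum_congr rfl h2, Finset.sum_const, Finset.card_range, nsmul_eq_mul]
  have h3 : ∑ m ∈ range (X2 + 1 + H), varN (clamp X1 X2 (m - H)) q
      = H * varN X1 q + ∑ m ∈ range (X2 + 1), varN (clamp X1 X2 m) q := by
    rw [add_comm (X2 + 1) H, Finset.sum_range_add]
    congr 1
    · have h2 : ∀ i ∈ range H, varN (clamp X1 X2 (i - H)) q = varN X1 q := by
        intro i hi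
        rw [Finset.mem_range] at hi
        have : clamp X1 X2 (i - H) = X1 := by
          have : i - H = 0 := by omega
          rw [this]; unfold clamp; omega
        rw [this]
      rw [Finset.sum_congr rfl h2, Finset.sum_const, Finset.card_range, nsmul_eq_mul]
    · refine Finset.sum_congr rfl fun i _ => ?_
      rw [Nat.add_sub_cancel_left]
  rw [h1, h3]
  ring

lemma integral_rem_le (X1 X2 q N : ℕ) (hq : 1 ≤ q) (hqN : 2 ≤ q * N) (hX : X1 ≤ X2)
    (hsize : 2 + q * N ≤ 2 * X2) :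
    ∫ β in (-(1 / ((q : ℝ) * N)))..(1 / ((q : ℝ) * N)),
        ∑ a ∈ frac q, ‖expSum (rem (fC X1 X2 q) (tL X1 X2) q a) (X2 + 1) β‖ ^ 2
      ≤ 18 * π ^ 2 * X2 / ((q : ℝ) * N) ^ 2 * avgV X1 X2 q := by
  have hqN' : (2 : ℝ) ≤ (q : ℝ) * N := by exact_mod_cast hqN
  set H : ℕ := q * N / 2 with hH
  have hH1 : 1 ≤ H := by omega
  have hHR : (0 : ℝ) < H := by exact_mod_cast hH1
  have hH2 : (2 * H : ℝ) ≤ (q : ℝ) * N := by
    have : 2 * H ≤ q * N := by omega
    exact_mod_cast this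
  have hH3 : (q : ℝ) * N ≤ 3 * H := by
    have : q * N ≤ 3 * H := by omega
    exact_mod_cast this
  have hHX : (H : ℝ) ≤ X2 := by
    have : H ≤ X2 := by omega
    exact_mod_cast this
  have hX2 : (0 : ℝ) < X2 := by linarith
  have hTT : 1 / ((q : ℝ) * N) ≤ 1 / (2 * (H : ℝ)) :=
    one_div_le_one_div_of_le (by positivity) hH2
  have hcont : ∀ a, Continuous fun β => ‖expSum (rem (fC X1 X2 q) (tL X1 X2) q a) (X2 + 1) β‖ ^ 2 :=
    fun a => (continuous_expSum _ _).norm.pow 2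
  rw [intervalIntegral.integral_finsetSum (fun a _ => (hcont a).intervalIntegrable _ _)]
  have h1 : ∀ a ∈ frac q, ∫ β in (-(1 / ((q : ℝ) * N)))..(1 / ((q : ℝ) * N)),
        ‖expSum (rem (fC X1 X2 q) (tL X1 X2) q a) (X2 + 1) β‖ ^ 2
      ≤ (π / (2 * H)) ^ 2 * ∑ m ∈ range (X2 + 1 + H),
        ‖win (rem (fC X1 X2 q) (tL X1 X2) q a) (X2 + 1) H m‖ ^ 2 := by
    intro a _
    refine (integral_mono_radius _ (hcont a) (fun _ => by positivity) _ _ (by positivity) hTT).trans ?_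
    exact gallagher _ _ H hH1
  refine (Finset.sum_le_sum h1).trans ?_
  rw [← Finset.mul_sum, Finset.sum_comm]
  have h2 : ∀ m ∈ range (X2 + 1 + H), ∑ a ∈ frac q,
      ‖win (rem (fC X1 X2 q) (tL X1 X2) q a) (X2 + 1) H m‖ ^ 2
      ≤ 2 * varN (clamp X1 X2 m) q + 2 * varN (clamp X1 X2 (m - H)) q := by
    intro m _
    have h3 : ∑ a ∈ frac q, ‖win (rem (fC X1 X2 q) (tL X1 X2) q a) (X2 + 1) H m‖ ^ 2
        ≤ ∑ a ∈ frac q, (2 * (psiN (clamp X1 X2 m) q a - (clamp X1 X2 m : ℝ) / Nat.totient q) ^ 2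
          + 2 * (psiN (clamp X1 X2 (m - H)) q a - (clamp X1 X2 (m - H) : ℝ) / Nat.totient q) ^ 2) := by
      refine Finset.sum_le_sum fun a ha => ?_
      rw [win_rem_eq X1 X2 q a H m hX ha, Complex.norm_real, Real.norm_eq_abs, sq_abs]
      nlinarith [sq_nonneg ((psiN (clamp X1 X2 m) q a - (clamp X1 X2 m : ℝ) / Nat.totient q)
        + (psiN (clamp X1 X2 (m - H)) q a - (clamp X1 X2 (m - H) : ℝ) / Nat.totient q))]
    refine h3.trans ?_
    rw [Finset.sum_add_distrib, ← Finset.mul_sum, ← Finset.mul_sum]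
    unfold varN
    exact le_rfl
  have h6 : ∑ m ∈ range (X2 + 1 + H), ∑ a ∈ frac q,
      ‖win (rem (fC X1 X2 q) (tL X1 X2) q a) (X2 + 1) H m‖ ^ 2 ≤ 8 * X2 * avgV X1 X2 q := by
    refine (Finset.sum_le_sum h2).trans ?_
    rw [sum_windows_eq X1 X2 q H hX]
    have h7 : 8 * X2 * avgV X1 X2 q
        = 2 * (2 * ∑ m ∈ range (X2 + 1), varN (clamp X1 X2 m) q + X2 * varN X1 q + X2 * varN X2 q) := by
      unfold avgV
      field_simp
      ring
    rw [h7]
    have h8 : (H : ℝ) * varN X1 q ≤ X2 * varN X1 q :=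
      mul_le_mul_of_nonneg_right hHX (varN_nonneg _ _)
    have h9 : (H : ℝ) * varN X2 q ≤ X2 * varN X2 q :=
      mul_le_mul_of_nonneg_right hHX (varN_nonneg _ _)
    linarith
  have h7 : (π / (2 * H)) ^ 2 ≤ 9 * π ^ 2 / (4 * ((q : ℝ) * N) ^ 2) := by
    rw [div_pow, div_le_div_iff₀ (by positivity) (by positivity)]
    have : ((q : ℝ) * N) ^ 2 ≤ (3 * H) ^ 2 := by gcongr
    nlinarith [sq_nonneg π]
  have h10 := avgV_nonneg X1 X2 q
  calc (π / (2 * H)) ^ 2 * ∑ m ∈ range (X2 + 1 + H), ∑ a ∈ frac q,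
      ‖win (rem (fC X1 X2 q) (tL X1 X2) q a) (X2 + 1) H m‖ ^ 2
      ≤ (π / (2 * H)) ^ 2 * (8 * X2 * avgV X1 X2 q) := by gcongr
    _ ≤ (9 * π ^ 2 / (4 * ((q : ℝ) * N) ^ 2)) * (8 * X2 * avgV X1 X2 q) := by gcongr
    _ = 18 * π ^ 2 * X2 / ((q : ℝ) * N) ^ 2 * avgV X1 X2 q := by
        field_simp
        ring

end Pool.Agent.MC
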