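import Mathlib
import Pool.Agent.Lib.MP_9cfc0a_nt.FiniteIneq

set_option autoImplicit false

namespace Pool.Agent.MC

open Finset MeasureTheory Real ArithmeticFunction

lemma sum_norm_sq_tL (X1 X2 : ℕ) (hX : X1 ≤ X2) :
    ∑ n ∈ range (X2 + 1), ‖tL X1 X2 n‖ ^ 2 = (X2 : ℝ) - X1 := by
  have h1 : ∀ n ∈ range (X2 + 1), ‖tL X1 X2 n‖ ^ 2 = if n ∈ Ioc X1 X2 then (1 : ℝ) else 0 := by
    intro n _
    unfold tL
    simp only [Finset.mem_Ioc]
    split_ifs <;> simp
  rw [Finset.sum_congr rfl h1, ← Finset.sum_filter]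
  have h2 : (range (X2 + 1)).filter (fun n => n ∈ Ioc X1 X2) = Ioc X1 X2 := by
    ext n
    simp only [Finset.mem_filter, Finset.mem_range, Finset.mem_Ioc]
    omega
  rw [h2]
  simp [Nat.cast_sub hX]

lemma integral_unit_le (g : ℕ → ℂ) (B : ℕ) (T : ℝ) (hT0 : 0 ≤ T) (hT : T ≤ 1 / 2) :
    ∫ β in (-T)..T, ‖expSum g B β‖ ^ 2 ≤ ∑ n ∈ range B, ‖g n‖ ^ 2 := by
  have h1 := integral_norm_sq_shift g B (-(1 / 2))
  have h2 : (-(1 / 2) : ℝ) + 1 = 1 / 2 := by norm_num
  rw [h2] at h1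
  rw [← h1]
  exact integral_mono_radius (fun β => ‖expSum g B β‖ ^ 2) ((continuous_expSum g B).norm.pow 2)
    (fun β => sq_nonneg _) _ _ hT0 hT

/-- the arcs with small denominators -/
lemma small_part (X1 X2 D Q N : ℕ) (κ : ℝ) (hκ : 0 < κ) (hD : 1 ≤ D) (hDQ : D ≤ Q)
    (hQN : 2 * Q ^ 2 ≤ N) (hQX : Q ≤ X1) (P : ℝ)
    (hP : ∑ n ∈ range (X2 + 1), ‖fPP X1 X2 n‖ ≤ P) :
    ∑ q ∈ Icc 1 D, ∫ β in (-(1 / ((q : ℝ) * N)))..(1 / ((q : ℝ) * N)),
        arcSum (fL X1 X2) (X2 + 1) q β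
      ≤ (1 + κ) * ((∑ n ∈ range (X2 + 1), ‖fP X1 X2 n‖ ^ 2) /
          (1 + ∑ l ∈ twPrimes D Q, 1 / ((l : ℝ) - 1)))
        + (1 + 1 / κ) * (2 * D * P ^ 2 / N) := by
  have hQ1 : 1 ≤ Q := le_trans hD hDQ
  have hN1 : 1 ≤ N := by nlinarith
  have hNR : (1 : ℝ) ≤ N := by exact_mod_cast hN1
  have hNpos : (0 : ℝ) < N := by linarith
  have hP0 : 0 ≤ P := le_trans (Finset.sum_nonneg fun _ _ => norm_nonneg _) hP
  set L : ℝ := 1 + ∑ l ∈ twPrimes D Q, 1 / ((l : ℝ) - 1) with hL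
  have hL1 : 1 ≤ L := by
    have : 0 ≤ ∑ l ∈ twPrimes D Q, 1 / ((l : ℝ) - 1) := by
      refine Finset.sum_nonneg fun l hl => ?_
      simp only [twPrimes, Finset.mem_filter] at hl
      have : (2 : ℝ) ≤ l := by exact_mod_cast hl.2.1.two_le
      apply div_nonneg zero_le_one
      linarith
    linarith
  have hcont : ∀ (g : ℕ → ℂ) (q : ℕ), Continuous (arcSum g (X2 + 1) q) :=
    fun g q => continuous_arcSum g _ q
  have h1 : ∀ q ∈ Icc 1 D, ∫ β in (-(1 / ((q : ℝ) * N)))..(1 / ((q : ℝ) * N)),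
        arcSum (fL X1 X2) (X2 + 1) q β
      ≤ (1 + κ) * (∫ β in (-(1 / (N : ℝ)))..(1 / (N : ℝ)), arcSum (fP X1 X2) (X2 + 1) q β)
        + (1 + 1 / κ) * (2 * P ^ 2 / N) := by
    intro q hq
    simp only [Finset.mem_Icc] at hq
    have hqR : (1 : ℝ) ≤ q := by exact_mod_cast hq.1
    have hT0 : 0 ≤ 1 / ((q : ℝ) * N) := by positivity
    have hTT : 1 / ((q : ℝ) * N) ≤ 1 / (N : ℝ) := by
      apply one_div_le_one_div_of_le hNpos
      nlinarith
    calc ∫ β in (-(1 / ((q : ℝ) * N)))..(1 / ((q : ℝ) * N)), arcSum (fL X1 X2) (X2 + 1) q β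
        ≤ ∫ β in (-(1 / ((q : ℝ) * N)))..(1 / ((q : ℝ) * N)),
            ((1 + κ) * arcSum (fP X1 X2) (X2 + 1) q β
              + (1 + 1 / κ) * arcSum (fPP X1 X2) (X2 + 1) q β) := by
          refine intervalIntegral.integral_mono_on (by linarith)
            ((hcont _ q).intervalIntegrable _ _) ?_ ?_
          · exact ((continuous_const.mul (hcont _ q)).add
              (continuous_const.mul (hcont _ q))).intervalIntegrable _ _
          · intro β _
            rw [fL_eq_p_add_pp]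
            exact arcSum_add_le _ _ _ _ _ κ hκ
      _ = (1 + κ) * (∫ β in (-(1 / ((q : ℝ) * N)))..(1 / ((q : ℝ) * N)),
              arcSum (fP X1 X2) (X2 + 1) q β)
            + (1 + 1 / κ) * ∫ β in (-(1 / ((q : ℝ) * N)))..(1 / ((q : ℝ) * N)),
              arcSum (fPP X1 X2) (X2 + 1) q β := by
          rw [intervalIntegral.integral_add, intervalIntegral.integral_const_mul,
            intervalIntegral.integral_const_mul]
          · exact (continuous_const.mul (hcont _ q)).intervalIntegrable _ _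
          · exact (continuous_const.mul (hcont _ q)).intervalIntegrable _ _
      _ ≤ _ := by
          have ha : ∫ β in (-(1 / ((q : ℝ) * N)))..(1 / ((q : ℝ) * N)),
              arcSum (fP X1 X2) (X2 + 1) q β
              ≤ ∫ β in (-(1 / (N : ℝ)))..(1 / (N : ℝ)), arcSum (fP X1 X2) (X2 + 1) q β :=
            integral_mono_radius _ (hcont _ q) (fun _ => arcSum_nonneg _ _ _ _) _ _ hT0 hTT
          have hb : ∫ β in (-(1 / ((q : ℝ) * N)))..(1 / ((q : ℝ) * N)),
              arcSum (fPP X1 X2) (X2 + 1) q β ≤ 2 * P ^ 2 / N := by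
            have hc := integral_le_const_radius _ (hcont (fPP X1 X2) q) (1 / ((q : ℝ) * N))
              (Nat.totient q * P ^ 2) hT0 (fun β => (arcSum_le_trivial _ _ _ _).trans (by gcongr))
            refine hc.trans ?_
            have hφ : (Nat.totient q : ℝ) ≤ q := by exact_mod_cast Nat.totient_le q
            calc 2 * (1 / ((q : ℝ) * N)) * (Nat.totient q * P ^ 2)
                ≤ 2 * (1 / ((q : ℝ) * N)) * (q * P ^ 2) := by gcongr
              _ = 2 * P ^ 2 / N := by field_simp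
          gcongr
  refine (Finset.sum_le_sum h1).trans ?_
  rw [Finset.sum_add_distrib, ← Finset.mul_sum, Finset.sum_const, Nat.card_Icc,
    Nat.add_sub_cancel, nsmul_eq_mul]
  have hsmall := small_arcs (fP X1 X2) (X2 + 1) D Q hD hDQ ?_ (1 / (N : ℝ)) (by positivity) ?_
  · have h3 : ∑ q ∈ Icc 1 D, ∫ β in (-(1 / (N : ℝ)))..(1 / (N : ℝ)), arcSum (fP X1 X2) (X2 + 1) q β
        ≤ (∑ n ∈ range (X2 + 1), ‖fP X1 X2 n‖ ^ 2) / L := by
      rw [le_div_iff₀ (by linarith), mul_comm]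
      exact hsmall
    have h4 : (D : ℝ) * ((1 + 1 / κ) * (2 * P ^ 2 / N)) = (1 + 1 / κ) * (2 * D * P ^ 2 / N) := by
      ring
    rw [h4]
    gcongr
  · intro l n hl hlQ hln
    unfold fP
    split_ifs with hn
    · have : l = n := (Nat.prime_dvd_prime_iff_eq hl hn).mp hln
      unfold fL
      rw [if_neg]
      omega
    · rfl
  · have hQR : (1 : ℝ) ≤ Q := by exact_mod_cast hQ1
    have : 2 * (Q : ℝ) ^ 2 ≤ N := by exact_mod_cast hQN
    rw [mul_one_div, div_le_div_iff₀ hNpos (by positivity)]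
    linarith

/-- the arcs with large denominators -/
lemma large_part (X1 X2 q N : ℕ) (κ : ℝ) (hκ : 0 < κ) (hq : 1 ≤ q) (hqN : 2 ≤ q * N)
    (hX : X1 ≤ X2) (hsize : 2 + q * N ≤ 2 * X2) (Bm : ℝ)
    (hBm : ∑ n ∈ range (X2 + 1), ‖fBad X1 X2 q n‖ ≤ Bm) :
    ∫ β in (-(1 / ((q : ℝ) * N)))..(1 / ((q : ℝ) * N)), arcSum (fL X1 X2) (X2 + 1) q β
      ≤ (1 + κ) * ((1 + κ) * ((moebius q : ℝ) ^ 2 / Nat.totient q * (X2 - X1))
          + (1 + 1 / κ) * (18 * π ^ 2 * X2 / (N : ℝ) ^ 2 * (avgV X1 X2 q / q)))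
        + (1 + 1 / κ) * (2 * Bm ^ 2 / N) := by
  have hqR : (1 : ℝ) ≤ q := by exact_mod_cast hq
  have hN1 : 1 ≤ N := by
    rcases Nat.eq_zero_or_pos N with h | h
    · subst h; omega
    · exact h
  have hNR : (1 : ℝ) ≤ N := by exact_mod_cast hN1
  have hNpos : (0 : ℝ) < N := by linarith
  have hqNR : (2 : ℝ) ≤ (q : ℝ) * N := by exact_mod_cast hqN
  have hBm0 : 0 ≤ Bm := le_trans (Finset.sum_nonneg fun _ _ => norm_nonneg _) hBm
  have hcont : ∀ (g : ℕ → ℂ), Continuous (arcSum g (X2 + 1) q) :=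
    fun g => continuous_arcSum g _ q
  have hcontR : Continuous fun β => ∑ a ∈ frac q,
      ‖expSum (rem (fC X1 X2 q) (tL X1 X2) q a) (X2 + 1) β‖ ^ 2 :=
    continuous_finsetSum _ fun a _ => (continuous_expSum _ _).norm.pow 2
  have hcontT : Continuous fun β => ‖expSum (tL X1 X2) (X2 + 1) β‖ ^ 2 :=
    (continuous_expSum _ _).norm.pow 2
  set T : ℝ := 1 / ((q : ℝ) * N) with hT
  have hT0 : 0 ≤ T := by positivity
  have hT2 : T ≤ 1 / 2 := one_div_le_one_div_of_le (by norm_num) hqNR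
  have hC : ∀ n, ¬ Nat.Coprime n q → fC X1 X2 q n = 0 := by
    intro n hn
    unfold fC
    rw [if_neg hn]
  calc ∫ β in (-T)..T, arcSum (fL X1 X2) (X2 + 1) q β
      ≤ ∫ β in (-T)..T, ((1 + κ) * ((1 + κ) * (((moebius q : ℝ) ^ 2 / Nat.totient q)
            * ‖expSum (tL X1 X2) (X2 + 1) β‖ ^ 2)
          + (1 + 1 / κ) * (q * ∑ a ∈ frac q,
              ‖expSum (rem (fC X1 X2 q) (tL X1 X2) q a) (X2 + 1) β‖ ^ 2))
          + (1 + 1 / κ) * arcSum (fBad X1 X2 q) (X2 + 1) q β) := by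
        refine intervalIntegral.integral_mono_on (by linarith)
          ((hcont _).intervalIntegrable _ _) ?_ ?_
        · refine Continuous.intervalIntegrable ?_ _ _
          exact (continuous_const.mul ((continuous_const.mul (continuous_const.mul hcontT)).add
            (continuous_const.mul (continuous_const.mul hcontR)))).add
            (continuous_const.mul (hcont _))
        · intro β _
          rw [fL_eq_c_add_bad X1 X2 q]
          refine (arcSum_add_le _ _ _ _ _ κ hκ).trans ?_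
          have := arcSum_le_main_add_rem (fC X1 X2 q) (tL X1 X2) (X2 + 1) q (by omega) hC β κ hκ
          have h2 := mul_le_mul_of_nonneg_left this (by positivity : (0 : ℝ) ≤ 1 + κ)
          linarith
    _ = (1 + κ) * ((1 + κ) * (((moebius q : ℝ) ^ 2 / Nat.totient q)
            * ∫ β in (-T)..T, ‖expSum (tL X1 X2) (X2 + 1) β‖ ^ 2)
          + (1 + 1 / κ) * (q * ∫ β in (-T)..T, ∑ a ∈ frac q,
              ‖expSum (rem (fC X1 X2 q) (tL X1 X2) q a) (X2 + 1) β‖ ^ 2))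
          + (1 + 1 / κ) * ∫ β in (-T)..T, arcSum (fBad X1 X2 q) (X2 + 1) q β := by
        rw [intervalIntegral.integral_add, intervalIntegral.integral_const_mul,
          intervalIntegral.integral_add, intervalIntegral.integral_const_mul,
          intervalIntegral.integral_const_mul, intervalIntegral.integral_const_mul,
          intervalIntegral.integral_const_mul, intervalIntegral.integral_const_mul]
        · exact (continuous_const.mul (continuous_const.mul hcontT)).intervalIntegrable _ _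
        · exact (continuous_const.mul (continuous_const.mul hcontR)).intervalIntegrable _ _
        · exact (continuous_const.mul ((continuous_const.mul (continuous_const.mul hcontT)).add
            (continuous_const.mul (continuous_const.mul hcontR)))).intervalIntegrable _ _
        · exact (continuous_const.mul (hcont _)).intervalIntegrable _ _
    _ ≤ _ := by
        have ha : ∫ β in (-T)..T, ‖expSum (tL X1 X2) (X2 + 1) β‖ ^ 2 ≤ (X2 : ℝ) - X1 := by
          rw [← sum_norm_sq_tL X1 X2 hX]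
          exact integral_unit_le _ _ T hT0 hT2
        have hb := integral_rem_le X1 X2 q N hq hqN hX hsize
        have hb' : (q : ℝ) * ∫ β in (-T)..T, ∑ a ∈ frac q,
              ‖expSum (rem (fC X1 X2 q) (tL X1 X2) q a) (X2 + 1) β‖ ^ 2
            ≤ 18 * π ^ 2 * X2 / (N : ℝ) ^ 2 * (avgV X1 X2 q / q) := by
          calc (q : ℝ) * ∫ β in (-T)..T, ∑ a ∈ frac q,
              ‖expSum (rem (fC X1 X2 q) (tL X1 X2) q a) (X2 + 1) β‖ ^ 2
              ≤ (q : ℝ) * (18 * π ^ 2 * X2 / ((q : ℝ) * N) ^ 2 * avgV X1 X2 q) := by gcongr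
            _ = 18 * π ^ 2 * X2 / (N : ℝ) ^ 2 * (avgV X1 X2 q / q) := by
                field_simp
        have hc : ∫ β in (-T)..T, arcSum (fBad X1 X2 q) (X2 + 1) q β ≤ 2 * Bm ^ 2 / N := by
          have hc := integral_le_const_radius _ (hcont (fBad X1 X2 q)) T
              (Nat.totient q * Bm ^ 2) hT0 (fun β => (arcSum_le_trivial _ _ _ _).trans (by gcongr))
          refine hc.trans ?_
          have hφ : (Nat.totient q : ℝ) ≤ q := by exact_mod_cast Nat.totient_le q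
          calc 2 * T * (Nat.totient q * Bm ^ 2) ≤ 2 * T * (q * Bm ^ 2) := by gcongr
            _ = 2 * Bm ^ 2 / N := by rw [hT]; field_simp
        gcongr

/-- The basic finite inequality. -/
theorem finite_ineq (X1 X2 D Q N : ℕ) (κ : ℝ) (hκ : 0 < κ) (hD : 1 ≤ D) (hDQ : D ≤ Q)
    (hQN : 2 * Q ^ 2 ≤ N) (hDN : D ≤ N) (hQX : Q ≤ X1) (hX : X1 ≤ X2)
    (hsize : 2 + N * N ≤ 2 * X2) (P Bm : ℝ)
    (hP : ∑ n ∈ range (X2 + 1), ‖fPP X1 X2 n‖ ≤ P)
    (hBm : ∀ q ∈ Ioc D N, ∑ n ∈ range (X2 + 1), ‖fBad X1 X2 q n‖ ≤ Bm) :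
    ∑ n ∈ range (X2 + 1), ‖fL X1 X2 n‖ ^ 2
      ≤ (1 + κ) * ((∑ n ∈ range (X2 + 1), ‖fP X1 X2 n‖ ^ 2) /
          (1 + ∑ l ∈ twPrimes D Q, 1 / ((l : ℝ) - 1)))
        + (1 + 1 / κ) * (2 * D * P ^ 2 / N)
        + ((1 + κ) * ((1 + κ) * ((∑ q ∈ Ioc D N, (moebius q : ℝ) ^ 2 / Nat.totient q) * (X2 - X1))
          + (1 + 1 / κ) * (18 * π ^ 2 * X2 / (N : ℝ) ^ 2 * ∑ q ∈ Ioc D N, avgV X1 X2 q / q))
        + (1 + 1 / κ) * (2 * Bm ^ 2)) := by
  have hQ1 : 1 ≤ Q := le_trans hD hDQ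
  have hN2 : 2 ≤ N := by nlinarith
  have hNR : (0 : ℝ) < N := by
    have : (2 : ℝ) ≤ N := by exact_mod_cast hN2
    linarith
  have h0 := le_sum_farey_arcs (fL X1 X2) (X2 + 1) N (by omega)
  have hsplit : Icc 1 N = Icc 1 D ∪ Ioc D N := by
    ext q
    simp only [Finset.mem_union, Finset.mem_Icc, Finset.mem_Ioc]
    omega
  have hdisj : Disjoint (Icc 1 D) (Ioc D N) := by
    rw [Finset.disjoint_left]
    intro q hq hq'
    simp only [Finset.mem_Icc, Finset.mem_Ioc] at hq hq'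
    omega
  rw [hsplit, Finset.sum_union hdisj] at h0
  refine h0.trans ?_
  refine add_le_add (small_part X1 X2 D Q N κ hκ hD hDQ hQN hQX P hP) ?_
  have h1 : ∀ q ∈ Ioc D N, ∫ β in (-(1 / ((q : ℝ) * N)))..(1 / ((q : ℝ) * N)),
        arcSum (fL X1 X2) (X2 + 1) q β
      ≤ (1 + κ) * ((1 + κ) * ((moebius q : ℝ) ^ 2 / Nat.totient q * (X2 - X1))
          + (1 + 1 / κ) * (18 * π ^ 2 * X2 / (N : ℝ) ^ 2 * (avgV X1 X2 q / q)))
        + (1 + 1 / κ) * (2 * Bm ^ 2 / N) := by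
    intro q hq
    have hq' := hq
    simp only [Finset.mem_Ioc] at hq
    refine large_part X1 X2 q N κ hκ (by omega) (by nlinarith) hX ?_ Bm (hBm q hq')
    have : q * N ≤ N * N := Nat.mul_le_mul_right _ hq.2
    omega
  refine (Finset.sum_le_sum h1).trans ?_
  rw [Finset.sum_add_distrib, ← Finset.mul_sum, Finset.sum_add_distrib, ← Finset.mul_sum,
    ← Finset.mul_sum, ← Finset.mul_sum, ← Finset.sum_mul]
  have h2 : ∑ _q ∈ Ioc D N, (1 + 1 / κ) * (2 * Bm ^ 2 / N) ≤ (1 + 1 / κ) * (2 * Bm ^ 2) := by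
    rw [Finset.sum_const, Nat.card_Ioc, nsmul_eq_mul]
    have h3 : ((N - D : ℕ) : ℝ) ≤ N := by exact_mod_cast Nat.sub_le N D
    calc ((N - D : ℕ) : ℝ) * ((1 + 1 / κ) * (2 * Bm ^ 2 / N))
        ≤ (N : ℝ) * ((1 + 1 / κ) * (2 * Bm ^ 2 / N)) := by gcongr
      _ = (1 + 1 / κ) * (2 * Bm ^ 2) := by field_simp
  gcongr

end Pool.Agent.MC
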