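import Mathlib

set_option autoImplicit false

namespace Pool.Agent.MC

open Finset Real ArithmeticFunction

/-- local factors -/
noncomputable def hloc (p : ℕ) : ℝ :=
  if p ≤ 3 then 1 / ((p : ℝ) - 1) else 1 / ((p : ℝ) * ((p : ℝ) - 1))

lemma hloc_nonneg (p : ℕ) (hp : p.Prime) : 0 ≤ hloc p := by
  have h2 : (2 : ℝ) ≤ p := by exact_mod_cast hp.two_le
  have h1 : (0 : ℝ) < (p : ℝ) - 1 := by linarith
  unfold hloc
  split_ifs <;> positivity

/-- squarefree supported multiplicative function with values `hloc p` -/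
noncomputable def fA : ArithmeticFunction ℝ :=
  ⟨fun d => if Squarefree d then ∏ p ∈ d.primeFactors, hloc p else 0, by simp⟩

/-- the function `1/m` on integers coprime to `6` -/
noncomputable def gA : ArithmeticFunction ℝ :=
  ⟨fun m => if Nat.Coprime m 6 then (m : ℝ)⁻¹ else 0, by simp⟩

lemma fA_apply (d : ℕ) : fA d = if Squarefree d then ∏ p ∈ d.primeFactors, hloc p else 0 := rfl

lemma gA_apply (m : ℕ) : gA m = if Nat.Coprime m 6 then (m : ℝ)⁻¹ else 0 := rfl

lemma fA_mult : fA.IsMultiplicative := by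
  rw [ArithmeticFunction.IsMultiplicative.iff_ne_zero]
  refine ⟨by simp [fA_apply], ?_⟩
  intro m n hm hn hmn
  rw [fA_apply, fA_apply, fA_apply]
  have hsq := Nat.squarefree_mul hmn
  by_cases h1 : Squarefree m
  · by_cases h2 : Squarefree n
    · rw [if_pos (hsq.mpr ⟨h1, h2⟩), if_pos h1, if_pos h2, Nat.primeFactors_mul hm hn,
        Finset.prod_union hmn.disjoint_primeFactors]
    · rw [if_neg (fun h => h2 (hsq.mp h).2), if_neg h2, mul_zero]
  · rw [if_neg (fun h => h1 (hsq.mp h).1), if_neg h1, zero_mul]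

lemma gA_mult : gA.IsMultiplicative := by
  rw [ArithmeticFunction.IsMultiplicative.iff_ne_zero]
  refine ⟨by simp [gA_apply], ?_⟩
  intro m n hm hn hmn
  rw [gA_apply, gA_apply, gA_apply]
  by_cases h1 : Nat.Coprime m 6
  · by_cases h2 : Nat.Coprime n 6
    · rw [if_pos (Nat.Coprime.mul_left h1 h2), if_pos h1, if_pos h2]
      push_cast
      rw [mul_inv]
    · rw [if_neg (fun h => h2 (Nat.Coprime.coprime_mul_left h)), if_neg h2, mul_zero]
  · rw [if_neg (fun h => h1 (Nat.Coprime.coprime_mul_right h)), if_neg h1, zero_mul]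

lemma fA_nonneg (d : ℕ) : 0 ≤ fA d := by
  rw [fA_apply]
  split_ifs
  · exact Finset.prod_nonneg fun p hp => hloc_nonneg p (Nat.prime_of_mem_primeFactors hp)
  · exact le_rfl

lemma gA_nonneg (m : ℕ) : 0 ≤ gA m := by
  rw [gA_apply]
  split_ifs <;> positivity

lemma fA_add_gA_prime (p : ℕ) (hp : p.Prime) : (fA + gA) p = 1 / ((p : ℝ) - 1) := by
  have h2 : (2 : ℝ) ≤ p := by exact_mod_cast hp.two_le
  have h1 : (0 : ℝ) < (p : ℝ) - 1 := by linarith
  rw [ArithmeticFunction.add_apply, fA_apply, gA_apply, if_pos hp.squarefree, hp.primeFactors,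
    Finset.prod_singleton]
  unfold hloc
  by_cases h3 : p ≤ 3
  · rw [if_pos h3, if_neg]
    · ring
    · have := hp.two_le
      interval_cases p <;> decide
  · rw [if_neg h3, if_pos]
    · field_simp
      ring
    · have hc2 : Nat.Coprime p 2 := by
        rw [Nat.coprime_primes hp Nat.prime_two]; omega
      have hc3 : Nat.Coprime p 3 := by
        rw [Nat.coprime_primes hp Nat.prime_three]; omega
      exact Nat.Coprime.mul_right hc2 hc3

lemma moebius_sq_div_totient (q : ℕ) (hq : q ≠ 0) :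
    (moebius q : ℝ) ^ 2 / Nat.totient q ≤ (fA * gA) q := by
  by_cases hs : Squarefree q
  · rw [← ArithmeticFunction.IsMultiplicative.prodPrimeFactors_add_of_squarefree fA_mult gA_mult hs,
      ArithmeticFunction.prodPrimeFactors_apply hq]
    have h1 : (moebius q : ℝ) ^ 2 = 1 := by
      rcases (moebius_ne_zero_iff_eq_or.mp (moebius_ne_zero_iff_squarefree.mpr hs)) with h | h <;>
        simp [h]
    rw [h1]
    have h2 : ∏ p ∈ q.primeFactors, (fA + gA) p = ∏ p ∈ q.primeFactors, 1 / ((p : ℝ) - 1) :=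
      Finset.prod_congr rfl fun p hp => fA_add_gA_prime p (Nat.prime_of_mem_primeFactors hp)
    rw [h2]
    have h3 := Nat.totient_mul_prod_primeFactors q
    rw [Nat.prod_primeFactors_of_squarefree hs] at h3
    have hq0 : 0 < q := Nat.pos_of_ne_zero hq
    have h4 : Nat.totient q = ∏ p ∈ q.primeFactors, (p - 1) := by
      rw [mul_comm] at h3
      exact Nat.eq_of_mul_eq_mul_left hq0 h3
    rw [h4]
    push_cast
    rw [Finset.prod_div_distrib, Finset.prod_const_one]
    apply le_of_eq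
    congr 1
    refine Finset.prod_congr rfl fun p hp => ?_
    have := (Nat.prime_of_mem_primeFactors hp).one_le
    rw [Nat.cast_sub this, Nat.cast_one]
  · have h1 : moebius q = 0 := moebius_eq_zero_of_not_squarefree hs
    rw [h1]
    simp only [Int.cast_zero, ne_eq, OfNat.ofNat_ne_zero, not_false_eq_true, zero_pow, zero_div]
    rw [ArithmeticFunction.mul_apply]
    exact Finset.sum_nonneg fun x _ => mul_nonneg (fA_nonneg _) (gA_nonneg _)

lemma sum_gA_aux (k : ℕ) :
    ∑ m ∈ range (6 * k), gA m ≤ 6 / 5 + (1 / 3) * ∑ j ∈ range k, ((j : ℝ))⁻¹ := by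
  induction k with
  | zero => simp; norm_num
  | succ k ih =>
    rw [show 6 * (k + 1) = 6 * k + 1 + 1 + 1 + 1 + 1 + 1 by ring]
    rw [Finset.sum_range_succ, Finset.sum_range_succ, Finset.sum_range_succ, Finset.sum_range_succ,
      Finset.sum_range_succ, Finset.sum_range_succ, Finset.sum_range_succ (fun j : ℕ => ((j : ℝ))⁻¹)]
    have h0 : gA (6 * k) = 0 := by
      rw [gA_apply, if_neg]
      intro h
      have := Nat.Coprime.coprime_mul_right h
      revert this; decide
    have h2 : gA (6 * k + 1 + 1) = 0 := by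
      rw [gA_apply, if_neg]
      intro h
      have h' : Nat.Coprime (6 * k + 1 + 1) 2 :=
        Nat.Coprime.coprime_dvd_right (by norm_num : 2 ∣ 6) h
      rw [Nat.coprime_two_right, Nat.odd_iff] at h'
      omega
    have h3 : gA (6 * k + 1 + 1 + 1) = 0 := by
      rw [gA_apply, if_neg]
      intro h
      have h' : Nat.Coprime (6 * k + 1 + 1 + 1) 3 :=
        Nat.Coprime.coprime_dvd_right (by norm_num : 3 ∣ 6) h
      have h4 := (Nat.Prime.coprime_iff_not_dvd Nat.prime_three).mp h'.symm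
      omega
    have h4 : gA (6 * k + 1 + 1 + 1 + 1) = 0 := by
      rw [gA_apply, if_neg]
      intro h
      have h' : Nat.Coprime (6 * k + 1 + 1 + 1 + 1) 2 :=
        Nat.Coprime.coprime_dvd_right (by norm_num : 2 ∣ 6) h
      rw [Nat.coprime_two_right, Nat.odd_iff] at h'
      omega
    have h1 : gA (6 * k + 1) ≤ ((6 * k + 1 : ℕ) : ℝ)⁻¹ := by
      rw [gA_apply]
      split_ifs
      · exact le_rfl
      · positivity
    have h5 : gA (6 * k + 1 + 1 + 1 + 1 + 1) ≤ ((6 * k + 5 : ℕ) : ℝ)⁻¹ := by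
      rw [gA_apply]
      split_ifs
      · exact le_rfl
      · positivity
    rw [h0, h2, h3, h4]
    by_cases hk : k = 0
    · subst hk
      norm_num at h1 h5 ⊢
      have h1' : gA 1 ≤ 1 := by simpa using h1
      have h5' : gA 5 ≤ 1 / 5 := by simpa using h5
      have h0' : gA 0 = 0 := by simp
      linarith
    · have hkR : (0 : ℝ) < k := by exact_mod_cast Nat.pos_of_ne_zero hk
      have h6 : ((6 * k + 1 : ℕ) : ℝ)⁻¹ ≤ (6 * (k : ℝ))⁻¹ := by
        apply inv_anti₀ (by positivity)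
        push_cast
        linarith
      have h7 : ((6 * k + 5 : ℕ) : ℝ)⁻¹ ≤ (6 * (k : ℝ))⁻¹ := by
        apply inv_anti₀ (by positivity)
        push_cast
        linarith
      have h8 : (6 * (k : ℝ))⁻¹ = (1 / 6) * (k : ℝ)⁻¹ := by
        rw [mul_inv]; norm_num
      linarith

lemma sum_gA (N : ℕ) (hN : 1 ≤ N) : ∑ m ∈ Ioc 0 N, gA m ≤ (1 / 3) * Real.log N + 2 := by
  have h1 : ∑ m ∈ Ioc 0 N, gA m ≤ ∑ m ∈ range (6 * (N / 6 + 1)), gA m := by
    refine Finset.sum_le_sum_of_subset_of_nonneg ?_ (fun m _ _ => gA_nonneg m)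
    intro m hm
    simp only [Finset.mem_Ioc, Finset.mem_range] at hm ⊢
    omega
  refine h1.trans ((sum_gA_aux (N / 6 + 1)).trans ?_)
  have h2 : ∑ j ∈ range (N / 6 + 1), ((j : ℝ))⁻¹ ≤ 1 + Real.log N := by
    have h3 : ∑ j ∈ range (N / 6 + 1), ((j : ℝ))⁻¹ ≤ ∑ j ∈ Icc 1 N, ((j : ℝ))⁻¹ := by
      rw [Finset.sum_range_succ' ]
      simp only [Nat.cast_zero, inv_zero, add_zero]
      have h4 : ∑ k ∈ range (N / 6), (((k + 1 : ℕ) : ℝ))⁻¹ = ∑ j ∈ Icc 1 (N / 6), ((j : ℝ))⁻¹ := by
        rw [Finset.range_eq_Ico, Finset.sum_Ico_add' (fun j : ℕ => ((j : ℝ))⁻¹) 0 (N / 6) 1]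
        rfl
      rw [h4]
      refine Finset.sum_le_sum_of_subset_of_nonneg ?_ (fun m _ _ => by positivity)
      intro m hm
      simp only [Finset.mem_Icc] at hm ⊢
      omega
    have h5 := harmonic_le_one_add_log N
    rw [harmonic_eq_sum_Icc] at h5
    push_cast at h5
    linarith
  have h6 : (0 : ℝ) ≤ Real.log N := Real.log_nonneg (by exact_mod_cast hN)
  linarith

/-- exponents -/
noncomputable def wloc (p : ℕ) : ℝ :=
  if p = 2 then Real.log 2 else if p = 3 then Real.log (3 / 2) else 1 / ((p : ℝ) * ((p : ℝ) - 1))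

lemma wloc_nonneg (p : ℕ) (hp : 2 ≤ p) : 0 ≤ wloc p := by
  have h2 : (2 : ℝ) ≤ p := by exact_mod_cast hp
  have h1 : (0 : ℝ) < (p : ℝ) - 1 := by linarith
  unfold wloc
  split_ifs
  · exact Real.log_nonneg (by norm_num)
  · exact Real.log_nonneg (by norm_num)
  · positivity

lemma one_add_hloc_le (p : ℕ) (hp : p.Prime) : 1 + hloc p ≤ Real.exp (wloc p) := by
  unfold hloc wloc
  by_cases h2 : p = 2
  · subst h2
    rw [if_pos rfl, if_pos (by norm_num), Real.exp_log (by norm_num)]
    norm_num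
  · by_cases h3 : p = 3
    · subst h3
      rw [if_pos (le_refl 3), if_neg (by norm_num : ¬ (3 : ℕ) = 2), if_pos rfl,
        Real.exp_log (by norm_num)]
      norm_num
    · have h4 : ¬ p ≤ 3 := by
        have := hp.two_le
        omega
      rw [if_neg h2, if_neg h3, if_neg h4]
      have := Real.add_one_le_exp (1 / ((p : ℝ) * ((p : ℝ) - 1)))
      linarith

lemma sum_tail (n : ℕ) : ∑ k ∈ Ico 5 (n + 5), (1 / (((2 * k + 1 : ℕ) : ℝ) * (((2 * k + 1 : ℕ) : ℝ) - 1)))
    ≤ 1 / 18 - 1 / (2 * (2 * ((n : ℝ) + 5) - 1)) := by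
  induction n with
  | zero => simp; norm_num
  | succ n ih =>
    rw [show n + 1 + 5 = n + 5 + 1 by ring, Finset.sum_Ico_succ_top (by omega)]
    refine (add_le_add_left ih _).trans ?_
    push_cast
    have h1 : (0 : ℝ) ≤ n := Nat.cast_nonneg n
    have h2 : 1 / ((2 * ((n : ℝ) + 5) + 1) * (2 * ((n : ℝ) + 5) + 1 - 1))
        ≤ 1 / (2 * (2 * ((n : ℝ) + 5) - 1)) - 1 / (2 * (2 * ((n : ℝ) + 1 + 5) - 1)) := by
      rw [div_sub_div _ _ (by nlinarith) (by nlinarith), div_le_div_iff₀ (by nlinarith) (by nlinarith)]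
      nlinarith
    linarith

lemma sum_fA (N : ℕ) : ∑ d ∈ Ioc 0 N, fA d ≤ 3 * Real.exp (1 / 20 + 1 / 42 + 1 / 18) := by
  set s : Finset ℕ := (Icc 1 N).filter Nat.Prime with hs
  have h1 : ∑ d ∈ Ioc 0 N, fA d ≤ ∏ p ∈ s, (1 + hloc p) := by
    rw [Finset.prod_one_add]
    have h2 : ∑ d ∈ Ioc 0 N, fA d
        = ∑ d ∈ (Ioc 0 N).filter Squarefree, ∏ p ∈ d.primeFactors, hloc p := by
      rw [Finset.sum_filter]
      rfl
    rw [h2]
    have hinj : Set.InjOn (fun d : ℕ => d.primeFactors) ((Ioc 0 N).filter Squarefree : Finset ℕ) := by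
      intro a ha b hb hab
      simp only [Finset.coe_filter, Finset.mem_Ioc, Set.mem_ofPred_eq] at ha hb hab
      rw [← Nat.prod_primeFactors_of_squarefree ha.2, ← Nat.prod_primeFactors_of_squarefree hb.2, hab]
    have h3 : ∑ d ∈ (Ioc 0 N).filter Squarefree, ∏ p ∈ d.primeFactors, hloc p
        = ∑ t ∈ ((Ioc 0 N).filter Squarefree).image (fun d : ℕ => d.primeFactors), ∏ p ∈ t, hloc p := by
      rw [Finset.sum_image hinj]
    rw [h3]
    refine Finset.sum_le_sum_of_subset_of_nonneg ?_ ?_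
    · intro t ht
      rw [Finset.mem_image] at ht
      obtain ⟨d, hd, rfl⟩ := ht
      rw [Finset.mem_powerset]
      intro p hp
      rw [Finset.mem_filter, Finset.mem_Ioc] at hd
      rw [hs, Finset.mem_filter, Finset.mem_Icc]
      have h4 := Nat.prime_of_mem_primeFactors hp
      have h5 := Nat.le_of_mem_primeFactors hp
      exact ⟨⟨h4.one_le, by omega⟩, h4⟩
    · intro t ht _
      rw [Finset.mem_powerset] at ht
      refine Finset.prod_nonneg fun p hp => hloc_nonneg p ?_
      exact (Finset.mem_filter.mp (ht hp)).2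
  refine h1.trans ?_
  have h2 : ∏ p ∈ s, (1 + hloc p) ≤ ∏ p ∈ s, Real.exp (wloc p) := by
    refine Finset.prod_le_prod ?_ ?_
    · intro p hp
      have := hloc_nonneg p (Finset.mem_filter.mp hp).2
      linarith
    · intro p hp
      exact one_add_hloc_le p (Finset.mem_filter.mp hp).2
  refine h2.trans ?_
  rw [← Real.exp_sum]
  have h3 : ∑ p ∈ s, wloc p
      ≤ ∑ p ∈ ({2, 3, 5, 7} : Finset ℕ) ∪ (Ico 5 (N + 5)).image (fun k => 2 * k + 1), wloc p := by
    refine Finset.sum_le_sum_of_subset_of_nonneg ?_ ?_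
    · intro p hp
      rw [hs, Finset.mem_filter, Finset.mem_Icc] at hp
      obtain ⟨⟨hp1, hpN⟩, hpp⟩ := hp
      rw [Finset.mem_union, Finset.mem_image]
      by_cases hp11 : p < 11
      · left
        interval_cases p <;> first | (simp; done) | (exfalso; revert hpp; decide)
      · right
        rcases hpp.eq_two_or_odd with h | h
        · omega
        · refine ⟨p / 2, ?_, by omega⟩
          rw [Finset.mem_Ico]
          omega
    · intro p hp _
      apply wloc_nonneg
      rw [Finset.mem_union, Finset.mem_image] at hp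
      rcases hp with h | ⟨k, hk, rfl⟩
      · fin_cases h <;> norm_num
      · rw [Finset.mem_Ico] at hk
        omega
  have h4 : ∑ p ∈ ({2, 3, 5, 7} : Finset ℕ) ∪ (Ico 5 (N + 5)).image (fun k => 2 * k + 1), wloc p
      ≤ Real.log 3 + (1 / 20 + 1 / 42 + 1 / 18) := by
    rw [Finset.sum_union]
    · have h5 : ∑ p ∈ ({2, 3, 5, 7} : Finset ℕ), wloc p = Real.log 3 + (1 / 20 + 1 / 42) := by
        rw [Finset.sum_insert (by decide), Finset.sum_insert (by decide),
          Finset.sum_insert (by decide), Finset.sum_singleton]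
        have h6 : wloc 2 = Real.log 2 := by unfold wloc; rw [if_pos rfl]
        have h7 : wloc 3 = Real.log (3 / 2) := by unfold wloc; norm_num
        have h8 : wloc 5 = 1 / 20 := by unfold wloc; norm_num
        have h9 : wloc 7 = 1 / 42 := by unfold wloc; norm_num
        rw [h6, h7, h8, h9, Real.log_div (by norm_num) (by norm_num)]
        ring
      have h10 : ∑ p ∈ (Ico 5 (N + 5)).image (fun k => 2 * k + 1), wloc p ≤ 1 / 18 := by
        rw [Finset.sum_image (by intro a _ b _ h; simpa using h)]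
        have h11 : ∑ k ∈ Ico 5 (N + 5), wloc (2 * k + 1)
            = ∑ k ∈ Ico 5 (N + 5), (1 / (((2 * k + 1 : ℕ) : ℝ) * (((2 * k + 1 : ℕ) : ℝ) - 1))) := by
          refine Finset.sum_congr rfl fun k hk => ?_
          rw [Finset.mem_Ico] at hk
          unfold wloc
          rw [if_neg (by omega), if_neg (by omega)]
        rw [h11]
        refine (sum_tail N).trans ?_
        have h12 : (0 : ℝ) ≤ 1 / (2 * (2 * ((N : ℝ) + 5) - 1)) := by
          have : (0 : ℝ) ≤ N := Nat.cast_nonneg N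
          apply div_nonneg (by norm_num)
          linarith
        linarith
      linarith
    · rw [Finset.disjoint_left]
      intro p hp hp'
      rw [Finset.mem_image] at hp'
      obtain ⟨k, hk, rfl⟩ := hp'
      rw [Finset.mem_Ico] at hk
      simp only [Finset.mem_insert, Finset.mem_singleton] at hp
      omega
  calc Real.exp (∑ p ∈ s, wloc p) ≤ Real.exp (Real.log 3 + (1 / 20 + 1 / 42 + 1 / 18)) :=
        Real.exp_le_exp.mpr (h3.trans h4)
    _ = 3 * Real.exp (1 / 20 + 1 / 42 + 1 / 18) := by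
        rw [Real.exp_add, Real.exp_log (by norm_num)]

lemma exp_const_le : Real.exp (1 / 20 + 1 / 42 + 1 / 18) ≤ 1.1384 := by
  have h := Real.exp_bound_div_one_sub_of_interval (x := 1 / 20 + 1 / 42 + 1 / 18)
  have h2 : Real.exp (1 / 20 + 1 / 42 + 1 / 18) ≤ 1.1384 := by
    have h3 := Real.exp_bound' (x := 1 / 20 + 1 / 42 + 1 / 18) (n := 5) (by norm_num) (by norm_num)
      (by norm_num)
    refine h3.trans ?_
    norm_num [Finset.sum_range_succ, Nat.factorial]
  exact h2

/-- The upper bound for `∑ μ²/φ`. -/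
theorem gsum_le (N : ℕ) (hN : 1 ≤ N) :
    ∑ q ∈ Ioc 0 N, (moebius q : ℝ) ^ 2 / Nat.totient q ≤ 1.1384 * Real.log N + 7 := by
  have h1 : ∑ q ∈ Ioc 0 N, (moebius q : ℝ) ^ 2 / Nat.totient q ≤ ∑ q ∈ Ioc 0 N, (fA * gA) q := by
    refine Finset.sum_le_sum fun q hq => ?_
    rw [Finset.mem_Ioc] at hq
    exact moebius_sq_div_totient q (by omega)
  have h6 : (0 : ℝ) ≤ Real.log N := Real.log_nonneg (by exact_mod_cast hN)
  refine h1.trans ?_
  rw [ArithmeticFunction.sum_Ioc_mul_eq_sum_sum]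
  have h2 : ∀ n ∈ Ioc 0 N, fA n * ∑ m ∈ Ioc 0 (N / n), gA m ≤ fA n * ((1 / 3) * Real.log N + 2) := by
    intro n hn
    refine mul_le_mul_of_nonneg_left ?_ (fA_nonneg n)
    refine le_trans ?_ (sum_gA N hN)
    refine Finset.sum_le_sum_of_subset_of_nonneg ?_ (fun m _ _ => gA_nonneg m)
    intro m hm
    rw [Finset.mem_Ioc] at hm ⊢
    exact ⟨hm.1, hm.2.trans (Nat.div_le_self _ _)⟩
  refine (Finset.sum_le_sum h2).trans ?_
  rw [← Finset.sum_mul]
  have h3 := sum_fA N
  have h4 := exp_const_le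
  have h5 : ∑ d ∈ Ioc 0 N, fA d ≤ 3 * 1.1384 := by linarith
  calc (∑ d ∈ Ioc 0 N, fA d) * ((1 / 3) * Real.log N + 2)
      ≤ (3 * 1.1384) * ((1 / 3) * Real.log N + 2) := by gcongr
    _ ≤ 1.1384 * Real.log N + 7 := by
        ring_nf
        linarith

end Pool.Agent.MC
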