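import Mathlib
import Pool.Agent.Lib.MP_9cfc0a_nt.Arcs
import Pool.Agent.Lib.MP_9cfc0a_nt.Mertens

set_option autoImplicit false

namespace Pool.Agent.MC

open Finset Real ArithmeticFunction

/-- end points of the blocks -/
noncomputable def yy (D j : ℕ) : ℕ := ⌊Real.exp (Real.log D * (11 / 10 : ℝ) ^ j)⌋₊

lemma yy_bounds (D j : ℕ) (hD : 2 ≤ D) :
    Real.log D * (11 / 10 : ℝ) ^ j - 1 ≤ Real.log (yy D j)
      ∧ Real.log (yy D j) ≤ Real.log D * (11 / 10 : ℝ) ^ j ∧ 1 ≤ yy D j := by
  have hDR : (2 : ℝ) ≤ D := by exact_mod_cast hD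
  have hlog : 0 < Real.log D := Real.log_pos (by linarith)
  set u := Real.log D * (11 / 10 : ℝ) ^ j with hu
  have hu0 : 0 < u := by positivity
  have h1 : 1 ≤ Real.exp u := Real.one_le_exp hu0.le
  have h2 : 1 ≤ yy D j := by
    unfold yy
    exact (Nat.one_le_floor_iff _).mpr h1
  have h2R : (1 : ℝ) ≤ yy D j := by exact_mod_cast h2
  have h3 : (yy D j : ℝ) ≤ Real.exp u := Nat.floor_le (Real.exp_pos u).le
  have h4 : Real.exp u < yy D j + 1 := Nat.lt_floor_add_one _
  refine ⟨?_, ?_, h2⟩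
  · have h5 : Real.exp u ≤ 2 * yy D j := by linarith
    have h6 : u ≤ Real.log (2 * yy D j) := by
      rw [Real.le_log_iff_exp_le (by positivity)]
      exact h5
    rw [Real.log_mul (by norm_num) (by positivity)] at h6
    have h7 : Real.log 2 ≤ 1 := by
      have := Real.log_two_lt_d9
      linarith
    linarith
  · calc Real.log (yy D j) ≤ Real.log (Real.exp u) := Real.log_le_log (by linarith) h3
      _ = u := Real.log_exp u

lemma yy_mono (D j : ℕ) (hD : 2 ≤ D) : yy D j ≤ yy D (j + 1) := by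
  have hDR : (2 : ℝ) ≤ D := by exact_mod_cast hD
  have hlog : 0 < Real.log D := Real.log_pos (by linarith)
  unfold yy
  apply Nat.floor_mono
  apply Real.exp_le_exp.mpr
  rw [pow_succ]
  have : 0 < (11 / 10 : ℝ) ^ j := by positivity
  nlinarith

lemma yy_zero (D : ℕ) (hD : 2 ≤ D) : yy D 0 ≤ D := by
  unfold yy
  rw [pow_zero, mul_one, Real.exp_log (by exact_mod_cast (by omega : 0 < D)), Nat.floor_natCast]

lemma le_yy (D j : ℕ) (hD : 2 ≤ D) : D ≤ yy D j := by
  induction j with
  | zero =>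
    unfold yy
    rw [pow_zero, mul_one, Real.exp_log (by exact_mod_cast (by omega : 0 < D)), Nat.floor_natCast]
  | succ j ih => exact ih.trans (yy_mono D j hD)

lemma exists_block_lower : ∃ C : ℝ, 0 ≤ C ∧ ∀ D J : ℕ, 2 ≤ D →
    (J : ℝ) * (1 / 11 - C / Real.log D) ≤ ∑ p ∈ (Ioc D (yy D J)).filter Nat.Prime, 1 / (p : ℝ) := by
  obtain ⟨C, hC0, hC⟩ := exists_sum_log_div_lower
  refine ⟨C + 1, by linarith, ?_⟩
  intro D J hD
  have hDR : (2 : ℝ) ≤ D := by exact_mod_cast hD
  have hlog : 0 < Real.log D := Real.log_pos (by linarith)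
  induction J with
  | zero =>
    rw [Nat.cast_zero, zero_mul]
    exact Finset.sum_nonneg fun p _ => by positivity
  | succ J ih =>
    have h1 : ∑ p ∈ (Ioc D (yy D (J + 1))).filter Nat.Prime, 1 / (p : ℝ)
        = ∑ p ∈ (Ioc D (yy D J)).filter Nat.Prime, 1 / (p : ℝ)
          + ∑ p ∈ (Ioc (yy D J) (yy D (J + 1))).filter Nat.Prime, 1 / (p : ℝ) := by
      rw [Finset.sum_filter, Finset.sum_filter, Finset.sum_filter]
      rw [Finset.sum_Ioc_consecutive _ (le_yy D J hD) (yy_mono D J hD)]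
    rw [h1]
    obtain ⟨hb1, hb2, hb3⟩ := yy_bounds D J hD
    obtain ⟨hc1, hc2, hc3⟩ := yy_bounds D (J + 1) hD
    have h2 := hC (yy D J) (yy D (J + 1)) hb3 (yy_mono D J hD)
    set u := Real.log D * (11 / 10 : ℝ) ^ (J + 1) with hu
    have hu0 : 0 < u := by positivity
    have huD : Real.log D ≤ u := by
      rw [hu]
      have : (1 : ℝ) ≤ (11 / 10 : ℝ) ^ (J + 1) := one_le_pow₀ (by norm_num)
      nlinarith
    have h3 : ∑ p ∈ (Ioc (yy D J) (yy D (J + 1))).filter Nat.Prime, Real.log p / p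
        ≤ u * ∑ p ∈ (Ioc (yy D J) (yy D (J + 1))).filter Nat.Prime, 1 / (p : ℝ) := by
      rw [Finset.mul_sum]
      refine Finset.sum_le_sum fun p hp => ?_
      rw [Finset.mem_filter, Finset.mem_Ioc] at hp
      have hp0 : (0 : ℝ) < p := by exact_mod_cast hp.2.pos
      have h4 : Real.log p ≤ u := by
        refine le_trans ?_ hc2
        apply Real.log_le_log hp0
        exact_mod_cast hp.1.2
      calc Real.log p / p ≤ u / p := by gcongr
        _ = u * (1 / (p : ℝ)) := by ring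
    have h5 : Real.log D * (11 / 10 : ℝ) ^ J = (10 / 11) * u := by
      rw [hu, pow_succ]; ring
    rw [h5] at hb2
    have h6 : (1 / 11) * u - (C + 1) ≤ u * ∑ p ∈ (Ioc (yy D J) (yy D (J + 1))).filter Nat.Prime, 1 / (p : ℝ) := by
      linarith
    have h7 : 1 / 11 - (C + 1) / Real.log D
        ≤ ∑ p ∈ (Ioc (yy D J) (yy D (J + 1))).filter Nat.Prime, 1 / (p : ℝ) := by
      have h8 : 1 / 11 - (C + 1) / u ≤ ∑ p ∈ (Ioc (yy D J) (yy D (J + 1))).filter Nat.Prime, 1 / (p : ℝ) := by
        rw [← mul_le_mul_iff_right₀ hu0]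
        calc u * (1 / 11 - (C + 1) / u) = (1 / 11) * u - (C + 1) := by field_simp
          _ ≤ _ := h6
      have h9 : (C + 1) / u ≤ (C + 1) / Real.log D := by gcongr
      linarith
    push_cast
    linarith

/-- Lower bound for the number of twists. -/
theorem exists_twPrimes_lower : ∃ C : ℝ, 0 ≤ C ∧ ∀ D Q : ℕ, 2 ≤ D →
    230 * Real.log D ≤ Real.log Q →
    57 / 11 - C / Real.log D ≤ ∑ l ∈ twPrimes D Q, 1 / ((l : ℝ) - 1) := by
  obtain ⟨C, hC0, hC⟩ := exists_block_lower
  refine ⟨57 * C, by linarith, ?_⟩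
  intro D Q hD hQ
  have hDR : (2 : ℝ) ≤ D := by exact_mod_cast hD
  have hlog : 0 < Real.log D := Real.log_pos (by linarith)
  have hQ0 : 0 < Q := by
    rcases Nat.eq_zero_or_pos Q with h | h
    · rw [h] at hQ
      simp only [Nat.cast_zero, Real.log_zero] at hQ
      linarith
    · exact h
  have h1 := hC D 57 hD
  have h2 : ((57 : ℕ) : ℝ) * (1 / 11 - C / Real.log D) = 57 / 11 - 57 * C / Real.log D := by
    push_cast
    ring
  rw [h2] at h1
  refine h1.trans ?_
  have h3 : (Ioc D (yy D 57)).filter Nat.Prime ⊆ twPrimes D Q := by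
    intro p hp
    rw [Finset.mem_filter, Finset.mem_Ioc] at hp
    obtain ⟨⟨hp1, hp2⟩, hpp⟩ := hp
    have h4 : D * p ≤ Q := by
      have h5 : Real.log ((D * p : ℕ) : ℝ) ≤ Real.log Q := by
        have hp0 : (0 : ℝ) < p := by exact_mod_cast hpp.pos
        rw [Nat.cast_mul, Real.log_mul (by positivity) (by positivity)]
        have h6 : Real.log p ≤ Real.log (yy D 57) := by
          apply Real.log_le_log hp0
          exact_mod_cast hp2
        have h7 := (yy_bounds D 57 hD).2.1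
        have h8 : (11 / 10 : ℝ) ^ 57 ≤ 229 := by norm_num
        have h9 : Real.log D * (11 / 10 : ℝ) ^ 57 ≤ Real.log D * 229 := by gcongr
        linarith
      have h6 : ((D * p : ℕ) : ℝ) ≤ Q := by
        rw [Real.log_le_log_iff (by exact_mod_cast Nat.mul_pos (by omega) hpp.pos)
          (by exact_mod_cast hQ0)] at h5
        exact h5
      exact_mod_cast h6
    unfold twPrimes
    rw [Finset.mem_filter, Finset.mem_Icc]
    refine ⟨⟨hpp.one_le, ?_⟩, hpp, hp1, h4⟩
    nlinarith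
  calc ∑ p ∈ (Ioc D (yy D 57)).filter Nat.Prime, 1 / (p : ℝ)
      ≤ ∑ p ∈ (Ioc D (yy D 57)).filter Nat.Prime, 1 / ((p : ℝ) - 1) := by
        refine Finset.sum_le_sum fun p hp => ?_
        rw [Finset.mem_filter] at hp
        have : (2 : ℝ) ≤ p := by exact_mod_cast hp.2.two_le
        apply one_div_le_one_div_of_le <;> linarith
    _ ≤ ∑ l ∈ twPrimes D Q, 1 / ((l : ℝ) - 1) := by
        refine Finset.sum_le_sum_of_subset_of_nonneg h3 ?_
        intro l hl _
        unfold twPrimes at hl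
        rw [Finset.mem_filter] at hl
        have : (2 : ℝ) ≤ l := by exact_mod_cast hl.2.1.two_le
        apply div_nonneg (by norm_num)
        linarith

end Pool.Agent.MC
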