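import Mathlib
import Pool.Agent.Lib.MP_9cfc0a_nt.FiniteIneq2
import Pool.Agent.Lib.MP_9cfc0a_nt.GSum
import Pool.Agent.Lib.MP_9cfc0a_nt.TwLower

set_option autoImplicit false

namespace Pool.Agent.MC

open Finset Real ArithmeticFunction Filter

lemma norm_fL_nonneg (X1 X2 n : ℕ) : 0 ≤ ‖fL X1 X2 n‖ := norm_nonneg _

/-- prime powers contribute little -/
lemma exists_fPP_bound : ∃ C : ℝ, 0 ≤ C ∧ ∀ X1 X2 : ℕ,
    ∑ n ∈ range (X2 + 1), ‖fPP X1 X2 n‖ ≤ C * Real.sqrt X2 := by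
  obtain ⟨C, hC⟩ := Chebyshev.psi_sub_theta_le_mul_sqrt
  have hC0 : 0 ≤ C := by
    have h1 := hC 4
    have h2 := Chebyshev.theta_le_psi 4
    have h3 : 0 < Real.sqrt 4 := Real.sqrt_pos.mpr (by norm_num)
    nlinarith
  refine ⟨C, hC0, ?_⟩
  intro X1 X2
  refine le_trans ?_ (hC X2)
  rw [Chebyshev.psi_sub_theta_eq_sum_not_prime, Nat.floor_natCast]
  have h1 : ∀ n, ‖fPP X1 X2 n‖ ≤ if ¬ n.Prime then vonMangoldt n else 0 := by
    intro n
    unfold fPP fL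
    by_cases hn : n.Prime
    · simp [hn]
    · rw [if_neg hn, if_pos hn]
      split_ifs
      · rw [Complex.norm_real, Real.norm_eq_abs, abs_of_nonneg vonMangoldt_nonneg]
      · simp [vonMangoldt_nonneg]
  calc ∑ n ∈ range (X2 + 1), ‖fPP X1 X2 n‖
      ≤ ∑ n ∈ range (X2 + 1), (if ¬ n.Prime then vonMangoldt n else 0) :=
        Finset.sum_le_sum fun n _ => h1 n
    _ = ∑ n ∈ Ioc 0 X2, (if ¬ n.Prime then vonMangoldt n else 0) := by
        rw [Finset.range_eq_Ico, Finset.sum_eq_sum_Ico_succ_bot (by omega)]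
        have h2 : (if ¬ Nat.Prime 0 then vonMangoldt 0 else 0) = 0 := by simp
        rw [h2, zero_add]
        rfl
    _ = ∑ n ∈ (Ioc 0 X2).filter (fun n => ¬ n.Prime), vonMangoldt n := by
        rw [Finset.sum_filter]

/-- for moduli `q ≤ X1`, integers `n > X1` not coprime to `q` are not primes -/
lemma norm_fBad_le (X1 X2 q : ℕ) (hq : 1 ≤ q) (hqX : q ≤ X1) (n : ℕ) :
    ‖fBad X1 X2 q n‖ ≤ ‖fPP X1 X2 n‖ := by
  unfold fBad fPP
  by_cases hc : Nat.Coprime n q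
  · rw [if_pos hc]
    simp
  · rw [if_neg hc]
    by_cases hp : n.Prime
    · rw [if_pos hp]
      unfold fL
      rw [if_neg]
      intro h
      apply hc
      rw [Nat.Prime.coprime_iff_not_dvd hp]
      intro hd
      have := Nat.le_of_dvd (by omega) hd
      omega
    · rw [if_neg hp]

lemma sum_sq_lower (X1 X2 : ℕ) (h1 : 1 ≤ X1) (hX : X1 ≤ X2) :
    Real.log X1 * (Chebyshev.theta X2 - Chebyshev.theta X1)
      ≤ ∑ n ∈ range (X2 + 1), ‖fL X1 X2 n‖ ^ 2 := by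
  have hth : Chebyshev.theta X2 - Chebyshev.theta X1
      = ∑ p ∈ (Ioc X1 X2).filter Nat.Prime, Real.log p := by
    unfold Chebyshev.theta
    rw [Nat.floor_natCast, Nat.floor_natCast, Finset.sum_filter, Finset.sum_filter,
      Finset.sum_filter, ← Finset.sum_Ioc_consecutive _ (Nat.zero_le X1) hX]
    ring
  rw [hth, Finset.mul_sum]
  have hsub : (Ioc X1 X2).filter Nat.Prime ⊆ range (X2 + 1) := by
    intro p hp
    rw [Finset.mem_filter, Finset.mem_Ioc] at hp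
    rw [Finset.mem_range]
    omega
  refine le_trans ?_ (Finset.sum_le_sum_of_subset_of_nonneg hsub (fun _ _ _ => by positivity))
  refine Finset.sum_le_sum fun p hp => ?_
  rw [Finset.mem_filter, Finset.mem_Ioc] at hp
  unfold fL
  rw [if_pos hp.1, Complex.norm_real, Real.norm_eq_abs, sq_abs, vonMangoldt_apply_prime hp.2, sq]
  have h2 : (0 : ℝ) < X1 := by exact_mod_cast h1
  have h3 : Real.log X1 ≤ Real.log p := by
    apply Real.log_le_log h2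
    exact_mod_cast hp.1.1.le
  have h4 : 0 ≤ Real.log p := Real.log_nonneg (by exact_mod_cast hp.2.one_le)
  exact mul_le_mul_of_nonneg_right h3 h4

lemma fP_sq_le (X1 X2 : ℕ) :
    ∑ n ∈ range (X2 + 1), ‖fP X1 X2 n‖ ^ 2 ≤ ∑ n ∈ range (X2 + 1), ‖fL X1 X2 n‖ ^ 2 := by
  refine Finset.sum_le_sum fun n _ => ?_
  unfold fP
  split_ifs
  · exact le_rfl
  · rw [norm_zero, zero_pow two_ne_zero]
    positivity

lemma eventually_theta : ∀ᶠ x : ℝ in atTop, ∀ X1 X2 : ℕ, (X1 : ℝ) ≤ 3 / 2 * x → 999 * x ≤ X2 →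
    688 * x ≤ Chebyshev.theta X2 - Chebyshev.theta X1 := by
  have h0 : Tendsto (fun x : ℝ => x ^ (1 / 4 : ℝ)) atTop atTop :=
    tendsto_rpow_atTop (by norm_num)
  filter_upwards [h0.eventually_ge_atTop 8000, eventually_ge_atTop 10] with x hx hx10
  intro X1 X2 hX1 hX2
  have hx0 : (0 : ℝ) < x := by linarith
  have h1 := Chebyshev.theta_ge' (x := 999 * x) (by linarith)
  have h1' : Chebyshev.theta (999 * x) ≤ Chebyshev.theta X2 := Chebyshev.theta_mono hX2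
  have h2 := Chebyshev.theta_le_log4_mul_x (x := (X1 : ℝ)) (by positivity)
  have hlog4 : Real.log 4 = 2 * Real.log 2 := by
    rw [show (4 : ℝ) = 2 ^ 2 by norm_num, Real.log_pow]
    norm_num
  have hl2 := Real.log_two_gt_d9
  have hl2' := Real.log_two_lt_d9
  -- log bounds
  set y : ℝ := 999 * x with hy
  have hy0 : 0 < y := by positivity
  have hlogy : Real.log y ≤ 4 * y ^ (1 / 4 : ℝ) := by
    have := Real.log_le_rpow_div hy0.le (show (0 : ℝ) < 1 / 4 by norm_num)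
    linarith
  have hysq : Real.sqrt y = y ^ (1 / 2 : ℝ) := Real.sqrt_eq_rpow y
  have hy4 : x ^ (1 / 4 : ℝ) ≤ y ^ (1 / 4 : ℝ) := Real.rpow_le_rpow hx0.le (by rw [hy]; linarith) (by norm_num)
  have hy4' : 8000 ≤ y ^ (1 / 4 : ℝ) := hx.trans hy4
  have h34 : y ^ (1 / 2 : ℝ) * y ^ (1 / 4 : ℝ) * y ^ (1 / 4 : ℝ) = y := by
    rw [← Real.rpow_add hy0, ← Real.rpow_add hy0]
    norm_num
  have hsq0 : 0 < y ^ (1 / 2 : ℝ) := Real.rpow_pos_of_pos hy0 _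
  have h5 : 2 * Real.sqrt y * Real.log y ≤ y / 1000 := by
    rw [hysq]
    have h6 : 2 * y ^ (1 / 2 : ℝ) * Real.log y ≤ 8 * (y ^ (1 / 2 : ℝ) * y ^ (1 / 4 : ℝ)) := by
      nlinarith
    have h7 : y ^ (1 / 2 : ℝ) * y ^ (1 / 4 : ℝ) * 8000 ≤ y := by
      calc y ^ (1 / 2 : ℝ) * y ^ (1 / 4 : ℝ) * 8000
          ≤ y ^ (1 / 2 : ℝ) * y ^ (1 / 4 : ℝ) * y ^ (1 / 4 : ℝ) := by gcongr
        _ = y := h34
    linarith
  have h8 : Real.log (y + 2) ≤ y / 1000 := by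
    have h9 : Real.log (y + 2) ≤ Real.log (2 * y) := Real.log_le_log (by linarith) (by linarith)
    rw [Real.log_mul (by norm_num) hy0.ne'] at h9
    have h10 : Real.log y ≤ y / 2000 := by
      have h11 : y ^ (1 / 4 : ℝ) * 8000 ≤ y := by
        have h12 : 1 ≤ y ^ (1 / 2 : ℝ) := Real.one_le_rpow (by linarith) (by norm_num)
        calc y ^ (1 / 4 : ℝ) * 8000 ≤ y ^ (1 / 4 : ℝ) * y ^ (1 / 4 : ℝ) := by gcongr
          _ = 1 * y ^ (1 / 4 : ℝ) * y ^ (1 / 4 : ℝ) := by ring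
          _ ≤ y ^ (1 / 2 : ℝ) * y ^ (1 / 4 : ℝ) * y ^ (1 / 4 : ℝ) := by gcongr
          _ = y := h34
      linarith
    linarith
  rw [hlog4] at h2
  have h13 : 2 * Real.log 2 * (X1 : ℝ) ≤ 1.3863 * (3 / 2 * x) := by
    apply mul_le_mul (by linarith) hX1 (by positivity) (by norm_num)
  have h14 : 0.6931 * y ≤ y * Real.log 2 := by nlinarith only [hl2, hy0]
  have h15 : (y - 1) * Real.log 2 = y * Real.log 2 - Real.log 2 := by ring
  linarith

/-- final numerical step -/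
lemma final_arith (x lx M S P : ℝ) (hP0 : 0 ≤ P) (hM0 : 0 ≤ M)
    (hMl : 688 * (x * lx) ≤ M) (hlx : (4000000 * P + 8000) * x ≤ (x * lx) / 10) (hx0 : 0 < x)
    (hfin2 : M ≤ (1 + 1 / 1000) * (M / 6.17) + 2002 * (1000 * P * x)
        + ((1 + 1 / 1000) * ((1 + 1 / 1000) * ((0.5692 * lx + 7) * (999 * x))
          + 1001 * (356000 * S)) + 2002 * (1000 * P * x))) :
    (1 / (4 * 10 ^ 8)) * (x * lx) ≤ S := by
  set z := x * lx with hz
  have hPx : 0 ≤ P * x := by positivity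
  have e1 : (0.5692 * lx + 7) * (999 * x) = 0.5692 * 999 * z + 6993 * x := by rw [hz]; ring
  rw [e1] at hfin2
  have h3 : (1 + 1 / 1000) * (M / 6.17) ≤ 0.16224 * M := by
    have : (1 + 1 / 1000 : ℝ) / 6.17 ≤ 0.16224 := by norm_num
    calc (1 + 1 / 1000 : ℝ) * (M / 6.17) = ((1 + 1 / 1000 : ℝ) / 6.17) * M := by ring
      _ ≤ 0.16224 * M := by gcongr
  have h4 : 0.83776 * M ≤ 4004000 * (P * x) + 569.77 * z + 7010 * x + 3.57 * 10 ^ 8 * S := by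
    linarith
  have h5 : 5 * z ≤ 3.57 * 10 ^ 8 * S := by linarith
  rw [div_mul_eq_mul_div, one_mul, div_le_iff₀ (by norm_num)]
  linarith

/-- the parameters -/
lemma params : ∀ᶠ x : ℝ in atTop,
    2 ≤ ⌊x ^ (1 / 1000 : ℝ)⌋₊
    ∧ (1 / 1000) * Real.log x - 1 ≤ Real.log (⌊x ^ (1 / 1000 : ℝ)⌋₊ : ℕ)
    ∧ 230 * Real.log (⌊x ^ (1 / 1000 : ℝ)⌋₊ : ℕ) ≤ Real.log (⌊x ^ (24 / 100 : ℝ)⌋₊ : ℕ)
    ∧ ⌊x ^ (1 / 1000 : ℝ)⌋₊ ≤ ⌊x ^ (24 / 100 : ℝ)⌋₊
    ∧ 2 * ⌊x ^ (24 / 100 : ℝ)⌋₊ ^ 2 ≤ ⌊Real.sqrt x⌋₊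
    ∧ ⌊x ^ (1 / 1000 : ℝ)⌋₊ ≤ ⌊Real.sqrt x⌋₊
    ∧ ⌊x ^ (24 / 100 : ℝ)⌋₊ ≤ ⌊Real.sqrt x⌋₊
    ∧ (⌊Real.sqrt x⌋₊ : ℝ) ≤ x
    ∧ (⌊Real.sqrt x⌋₊ : ℝ) * ⌊Real.sqrt x⌋₊ ≤ x
    ∧ (⌊Real.sqrt x⌋₊ : ℝ) ≤ Real.sqrt x ∧ x / 2 ≤ (⌊Real.sqrt x⌋₊ : ℝ) ^ 2
    ∧ 1 ≤ ⌊Real.sqrt x⌋₊ := by
  have h0 : Tendsto (fun x : ℝ => x ^ (1 / 1000 : ℝ)) atTop atTop :=
    tendsto_rpow_atTop (by norm_num)
  have h1 : Tendsto (fun x : ℝ => x ^ (1 / 50 : ℝ)) atTop atTop :=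
    tendsto_rpow_atTop (by norm_num)
  have h2 : Tendsto Real.log atTop atTop := Real.tendsto_log_atTop
  filter_upwards [h0.eventually_ge_atTop 2, h1.eventually_ge_atTop 3,
      h2.eventually_ge_atTop 2000, eventually_ge_atTop 100] with x hx1 hx2 hlog2000 hx100
  have hx0 : (0 : ℝ) < x := by linarith
  generalize hD : ⌊x ^ (1 / 1000 : ℝ)⌋₊ = D
  generalize hN : ⌊Real.sqrt x⌋₊ = N
  generalize hQ : ⌊x ^ (24 / 100 : ℝ)⌋₊ = Q
  have hDu : (D : ℝ) ≤ x ^ (1 / 1000 : ℝ) := by rw [← hD]; exact Nat.floor_le (by positivity)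
  have hD2 : 2 ≤ D := by rw [← hD]; exact Nat.le_floor (by exact_mod_cast hx1)
  have hD0 : (0 : ℝ) < D := by exact_mod_cast (by omega : 0 < D)
  have hDl : x ^ (1 / 1000 : ℝ) ≤ 2 * D := by
    have h3 := Nat.lt_floor_add_one (x ^ (1 / 1000 : ℝ))
    have h4 : (2 : ℝ) ≤ D := by exact_mod_cast hD2
    rw [hD] at h3
    linarith
  have hsx0 : 0 ≤ Real.sqrt x := Real.sqrt_nonneg x
  have hsqx : Real.sqrt x * Real.sqrt x = x := Real.mul_self_sqrt hx0.le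
  have hsx10 : 10 ≤ Real.sqrt x := by
    apply Real.le_sqrt_of_sq_le
    linarith
  have hNu : (N : ℝ) ≤ Real.sqrt x := by rw [← hN]; exact Nat.floor_le hsx0
  have hNl : Real.sqrt x - 1 ≤ (N : ℝ) := by
    have := Nat.lt_floor_add_one (Real.sqrt x)
    rw [hN] at this
    linarith
  have hN0 : (0 : ℝ) < N := by linarith
  have hN1 : 1 ≤ N := by exact_mod_cast hN0
  have hQu : (Q : ℝ) ≤ x ^ (24 / 100 : ℝ) := by rw [← hQ]; exact Nat.floor_le (by positivity)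
  have hlogDu : Real.log D ≤ (1 / 1000) * Real.log x := by
    have h3 : Real.log D ≤ Real.log (x ^ (1 / 1000 : ℝ)) := Real.log_le_log hD0 hDu
    rwa [Real.log_rpow hx0] at h3
  have hl2 : Real.log 2 ≤ 1 := by
    have := Real.log_two_lt_d9
    linarith
  have hlogDl : (1 / 1000) * Real.log x - 1 ≤ Real.log D := by
    have h3 : Real.log (x ^ (1 / 1000 : ℝ)) ≤ Real.log (2 * D) :=
      Real.log_le_log (by positivity) hDl
    rw [Real.log_rpow hx0, Real.log_mul (by norm_num) hD0.ne'] at h3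
    linarith
  have hx24 : 1 ≤ x ^ (24 / 100 : ℝ) := Real.one_le_rpow (by linarith) (by norm_num)
  have hQ1 : 1 ≤ Q := by rw [← hQ]; exact Nat.le_floor (by exact_mod_cast hx24)
  have hQ0 : (0 : ℝ) < Q := by exact_mod_cast hQ1
  have hQl : x ^ (24 / 100 : ℝ) ≤ 2 * Q := by
    have h3 := Nat.lt_floor_add_one (x ^ (24 / 100 : ℝ))
    have h4 : (1 : ℝ) ≤ Q := by exact_mod_cast hQ1
    rw [hQ] at h3
    linarith
  have hlogQl : (24 / 100) * Real.log x - 1 ≤ Real.log Q := by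
    have h3 : Real.log (x ^ (24 / 100 : ℝ)) ≤ Real.log (2 * Q) :=
      Real.log_le_log (by positivity) hQl
    rw [Real.log_rpow hx0, Real.log_mul (by norm_num) hQ0.ne'] at h3
    linarith
  have hDQlog : 230 * Real.log D ≤ Real.log Q := by linarith
  have hlogD0 : 0 < Real.log D := by linarith
  have hDQ : D ≤ Q := by
    have h3 : Real.log D ≤ Real.log Q := by linarith
    rw [Real.log_le_log_iff hD0 hQ0] at h3
    exact_mod_cast h3
  have hx48 : 1 ≤ x ^ (48 / 100 : ℝ) := Real.one_le_rpow (by linarith) (by norm_num)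
  have h48 : x ^ (24 / 100 : ℝ) * x ^ (24 / 100 : ℝ) = x ^ (48 / 100 : ℝ) := by
    rw [← Real.rpow_add hx0]
    norm_num
  have h50 : x ^ (48 / 100 : ℝ) * x ^ (1 / 50 : ℝ) = Real.sqrt x := by
    rw [← Real.rpow_add hx0, Real.sqrt_eq_rpow]
    norm_num
  have hQN : 2 * Q ^ 2 ≤ N := by
    have h3 : (2 * Q ^ 2 : ℝ) ≤ N := by
      have h4 : (Q : ℝ) ^ 2 ≤ x ^ (48 / 100 : ℝ) := by
        rw [← h48, sq]
        exact mul_le_mul hQu hQu hQ0.le (by positivity)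
      have h5 : x ^ (48 / 100 : ℝ) * 3 ≤ Real.sqrt x := by
        rw [← h50]
        exact mul_le_mul_of_nonneg_left hx2 (by positivity)
      linarith
    exact_mod_cast h3
  have hDN : D ≤ N := by
    have : Q ≤ Q ^ 2 := Nat.le_self_pow two_ne_zero Q
    omega
  have hsxx : Real.sqrt x ≤ x := by
    calc Real.sqrt x = Real.sqrt x * 1 := (mul_one _).symm
      _ ≤ Real.sqrt x * Real.sqrt x := by gcongr; linarith
      _ = x := hsqx
  have hQN' : Q ≤ N := by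
    have : Q ≤ Q ^ 2 := Nat.le_self_pow two_ne_zero Q
    omega
  have hNN : (N : ℝ) * N ≤ x := by
    calc (N : ℝ) * N ≤ Real.sqrt x * Real.sqrt x := mul_le_mul hNu hNu hN0.le hsx0
      _ = x := hsqx
  have h4 : x / 2 ≤ (N : ℝ) ^ 2 := by
    have h5 : (Real.sqrt x - 1) ^ 2 ≤ (N : ℝ) ^ 2 := by
      apply pow_le_pow_left₀ (by linarith) hNl
    nlinarith only [h5, hsqx, hsx10]
  exact ⟨hD2, hlogDl, hDQlog, hDQ, hQN, hDN, hQN', hNu.trans hsxx, hNN, hNu, h4, hN1⟩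

/-- The lower bound in terms of the averaged variance. -/
theorem roth_core : ∃ c : ℝ, 0 < c ∧ ∃ X₀ : ℝ, ∀ x : ℝ, X₀ ≤ x → ∀ X1 X2 : ℕ,
    x ≤ X1 → (X1 : ℝ) ≤ 3 / 2 * x → 999 * x ≤ X2 → (X2 : ℝ) ≤ 1000 * x →
    c * (x * Real.log x)
      ≤ ∑ q ∈ Ioc ⌊x ^ (1 / 1000 : ℝ)⌋₊ ⌊Real.sqrt x⌋₊, avgV X1 X2 q / q := by
  obtain ⟨CP, hCP0, hCP⟩ := exists_fPP_bound
  obtain ⟨CT, hCT0, hCT⟩ := exists_twPrimes_lower
  have h2 : Tendsto Real.log atTop atTop := Real.tendsto_log_atTop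
  refine ⟨1 / (4 * 10 ^ 8), by norm_num, ?_⟩
  rw [← Filter.eventually_atTop (p := fun x : ℝ => ∀ X1 X2 : ℕ,
    x ≤ X1 → (X1 : ℝ) ≤ 3 / 2 * x → 999 * x ≤ X2 → (X2 : ℝ) ≤ 1000 * x →
    1 / (4 * 10 ^ 8) * (x * Real.log x)
      ≤ ∑ q ∈ Ioc ⌊x ^ (1 / 1000 : ℝ)⌋₊ ⌊Real.sqrt x⌋₊, avgV X1 X2 q / q)]
  filter_upwards [eventually_theta, params,
    h2.eventually_ge_atTop (2000 + 200000 * CT + 10 * (4000000 * CP ^ 2 + 8000)),
    eventually_ge_atTop 100] with x hth hpar hlog hx100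
  intro X1 X2 hX1l hX1u hX2l hX2u
  obtain ⟨hD2, hlogDl, hDQlog, hDQ, hQN, hDN, hQN', hNx, hNN, hNu, hN2, hN1⟩ := hpar
  have hx0 : 0 < x := by linarith
  have hCP2 : 0 ≤ CP ^ 2 := sq_nonneg CP
  have hlogT : 200000 * CT + 2000 ≤ Real.log x := by linarith
  have hlogP : 10 * (4000000 * CP ^ 2 + 8000) ≤ Real.log x := by linarith
  have hth' := hth X1 X2 hX1u hX2l
  clear hlog hth
  generalize ⌊x ^ (1 / 1000 : ℝ)⌋₊ = D at *
  generalize ⌊Real.sqrt x⌋₊ = N at *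
  generalize ⌊x ^ (24 / 100 : ℝ)⌋₊ = Q at *
  have hX : X1 ≤ X2 := by
    have : (X1 : ℝ) ≤ X2 := by linarith
    exact_mod_cast this
  have hX11 : 1 ≤ X1 := by
    have : (1 : ℝ) ≤ X1 := by linarith
    exact_mod_cast this
  have hNX1 : N ≤ X1 := by
    have : (N : ℝ) ≤ X1 := by linarith
    exact_mod_cast this
  have hQX : Q ≤ X1 := hQN'.trans hNX1
  have hsize : 2 + N * N ≤ 2 * X2 := by
    have h3 : (2 + N * N : ℝ) ≤ 2 * X2 := by linarith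
    exact_mod_cast h3
  have hlogD0 : 0 < Real.log D := by linarith
  have hN0 : (0 : ℝ) < N := by exact_mod_cast hN1
  have hlogx0 : 0 ≤ Real.log x := by linarith
  -- apply the finite inequality
  have hfin := finite_ineq X1 X2 D Q N (1 / 1000) (by norm_num) (by omega) hDQ hQN hDN hQX hX
    hsize (CP * Real.sqrt X2) (CP * Real.sqrt X2)
    (hCP X1 X2)
    (by
      intro q hq
      rw [Finset.mem_Ioc] at hq
      refine le_trans (Finset.sum_le_sum fun n _ => ?_) (hCP X1 X2)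
      exact norm_fBad_le X1 X2 q (by omega) (by omega) n)
  have hS0 : 0 ≤ ∑ q ∈ Ioc D N, avgV X1 X2 q / q := by
    refine Finset.sum_nonneg fun q _ => ?_
    exact div_nonneg (avgV_nonneg _ _ _) (Nat.cast_nonneg _)
  have hM0 : 0 ≤ ∑ n ∈ range (X2 + 1), ‖fL X1 X2 n‖ ^ 2 :=
    Finset.sum_nonneg fun _ _ => by positivity
  have hMl : 688 * (x * Real.log x) ≤ ∑ n ∈ range (X2 + 1), ‖fL X1 X2 n‖ ^ 2 := by
    have h3 := sum_sq_lower X1 X2 hX11 hX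
    have h4 : Real.log x ≤ Real.log X1 := Real.log_le_log hx0 hX1l
    calc 688 * (x * Real.log x) = Real.log x * (688 * x) := by ring
      _ ≤ Real.log X1 * (Chebyshev.theta X2 - Chebyshev.theta X1) := by
          apply mul_le_mul h4 hth' (by positivity) (by linarith)
      _ ≤ _ := h3
  have hLl : 5.17 ≤ ∑ l ∈ twPrimes D Q, 1 / ((l : ℝ) - 1) := by
    have h3 := hCT D Q hD2 hDQlog
    have h4 : CT / Real.log D ≤ 1 / 100 := by
      rw [div_le_div_iff₀ hlogD0 (by norm_num)]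
      linarith
    have h5 : (5.17 : ℝ) ≤ 57 / 11 - 1 / 100 := by norm_num
    linarith
  have hGu : ∑ q ∈ Ioc D N, (moebius q : ℝ) ^ 2 / Nat.totient q ≤ 0.5692 * Real.log x + 7 := by
    have h3 := gsum_le N hN1
    have h4 : ∑ q ∈ Ioc D N, (moebius q : ℝ) ^ 2 / Nat.totient q
        ≤ ∑ q ∈ Ioc 0 N, (moebius q : ℝ) ^ 2 / Nat.totient q := by
      refine Finset.sum_le_sum_of_subset_of_nonneg ?_ (fun _ _ _ => by positivity)
      intro q hq
      rw [Finset.mem_Ioc] at hq ⊢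
      omega
    have h5 : Real.log N ≤ (1 / 2) * Real.log x := by
      have h6 : Real.log N ≤ Real.log (Real.sqrt x) := Real.log_le_log hN0 hNu
      rw [Real.log_sqrt hx0.le] at h6
      linarith
    linarith
  have hfPle := fP_sq_le X1 X2
  generalize ∑ n ∈ range (X2 + 1), ‖fL X1 X2 n‖ ^ 2 = M at *
  generalize ∑ n ∈ range (X2 + 1), ‖fP X1 X2 n‖ ^ 2 = MP at *
  generalize ∑ q ∈ Ioc D N, avgV X1 X2 q / q = S at *
  generalize ∑ q ∈ Ioc D N, (moebius q : ℝ) ^ 2 / Nat.totient q = G at *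
  generalize ∑ l ∈ twPrimes D Q, 1 / ((l : ℝ) - 1) = L at *
  -- bound for P
  have hPsq : (CP * Real.sqrt X2) ^ 2 ≤ 1000 * CP ^ 2 * x := by
    rw [mul_pow, Real.sq_sqrt (by positivity)]
    calc CP ^ 2 * (X2 : ℝ) ≤ CP ^ 2 * (1000 * x) := by gcongr
      _ = 1000 * CP ^ 2 * x := by ring
  have hPP0 : 0 ≤ (CP * Real.sqrt X2) ^ 2 := sq_nonneg _
  generalize (CP * Real.sqrt X2) ^ 2 = PP at *
  have h1001 : (1 + 1 / (1 / 1000 : ℝ)) = 1001 := by norm_num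
  rw [h1001] at hfin
  have hT1 : 1001 * (2 * D * PP / N) ≤ 2002 * (1000 * CP ^ 2 * x) := by
    have hDN' : (D : ℝ) ≤ N := by exact_mod_cast hDN
    have h3 : 2 * D * PP / N ≤ 2 * (1000 * CP ^ 2 * x) := by
      rw [div_le_iff₀ hN0]
      calc 2 * D * PP ≤ 2 * N * (1000 * CP ^ 2 * x) := by gcongr
        _ = 2 * (1000 * CP ^ 2 * x) * N := by ring
    linarith
  have hT2 : 1001 * (2 * PP) ≤ 2002 * (1000 * CP ^ 2 * x) := by linarith
  have hT3 : MP / (1 + L) ≤ M / 6.17 := by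
    have h4 : (6.17 : ℝ) ≤ 1 + L := by linarith
    exact div_le_div₀ hM0 hfPle (by norm_num) h4
  have hT4 : G * ((X2 : ℝ) - X1) ≤ (0.5692 * Real.log x + 7) * (999 * x) := by
    have h3 : (X2 : ℝ) - X1 ≤ 999 * x := by linarith
    have h4 : (0 : ℝ) ≤ X2 - X1 := by
      have : (X1 : ℝ) ≤ X2 := by exact_mod_cast hX
      linarith
    exact mul_le_mul hGu h3 h4 (by linarith)
  have hT5 : 18 * π ^ 2 * X2 / (N : ℝ) ^ 2 * S ≤ 356000 * S := by
    apply mul_le_mul_of_nonneg_right _ hS0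
    rw [div_le_iff₀ (by positivity)]
    have hpi := Real.pi_lt_d4
    have hpi0 := Real.pi_pos
    have h3 : π ^ 2 ≤ 9.87 := by nlinarith only [hpi, hpi0]
    calc 18 * π ^ 2 * X2 ≤ 18 * 9.87 * (1000 * x) := by gcongr
      _ ≤ 356000 * (x / 2) := by linarith
      _ ≤ 356000 * (N : ℝ) ^ 2 := by gcongr
  have hfin2 : M ≤ (1 + 1 / 1000) * (M / 6.17) + 2002 * (1000 * CP ^ 2 * x)
      + ((1 + 1 / 1000) * ((1 + 1 / 1000) * ((0.5692 * Real.log x + 7) * (999 * x))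
        + 1001 * (356000 * S)) + 2002 * (1000 * CP ^ 2 * x)) := by
    refine hfin.trans ?_
    gcongr
  refine final_arith x (Real.log x) M S (CP ^ 2) hCP2 hM0 hMl ?_ hx0 hfin2
  have : (4000000 * CP ^ 2 + 8000) ≤ Real.log x / 10 := by linarith
  calc (4000000 * CP ^ 2 + 8000) * x ≤ (Real.log x / 10) * x := by gcongr
    _ = (x * Real.log x) / 10 := by ring

end Pool.Agent.MC
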