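import Mathlib
import Pool.Agent.Lib.MP_9cfc0a_nt.An9

set_option autoImplicit false

namespace Pool.Agent.MC.C1

open Pool.Agent.MC MeasureTheory Real

/-- Sum of `g` over the primitive Dirichlet characters modulo `r`. -/
noncomputable def pSum (r : ℕ) (g : DirichletCharacter ℂ r → ℝ) : ℝ :=
  ∑ᶠ χ : {χ : DirichletCharacter ℂ r // χ.IsPrimitive}, g χ.1

/-- Increments of the error term over the primitive characters with conductor in `[F, 2F)`. -/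
def Inc (η : ℝ) : Prop := ∀ ε : ℝ, 0 < ε → ∃ C : ℝ, 0 ≤ C ∧ ∀ X : ℝ, 2 ≤ X → ∀ F : ℕ, 1 ≤ F →
  (F : ℝ) ≤ X → ∀ h : ℝ, 0 < h → h ≤ 1 →
  ∑ r ∈ Finset.Ico F (2 * F), pSum r (fun χ => ∫ u in (Real.log X - 1)..(Real.log X),
    ‖EX r χ (Real.exp (u + h)) - EX r χ (Real.exp u)‖ ^ 2)
    ≤ C * h * F * (X ^ (1 / 2 : ℝ) + F) * X ^ (1 + 2 * η + ε)

/-- The maximal second moment bound. -/
def Max2 (η : ℝ) : Prop := ∀ ε : ℝ, 0 < ε → ∃ C : ℝ, ∀ Y : ℝ, 1 ≤ Y → ∀ x : ℕ → ℕ → ℝ,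
  (∀ q a, 1 ≤ x q a ∧ x q a ≤ Y) →
  ∑ q ∈ Finset.Icc 1 ⌊Real.sqrt Y⌋₊, ∑ a ∈ (Finset.Icc 1 q).filter (fun a => Nat.Coprime a q),
    (errR (x q a) q a) ^ 2 ≤ C * Y ^ (3 / 2 + 2 * η + ε)

/-- part of the error of an imprimitive character -/
noncomputable def Bq (q : ℕ) (x y : ℝ) : ℝ :=
  ∑ n ∈ (Finset.Ioc ⌊x⌋₊ ⌊y⌋₊).filter (fun n => ¬ Nat.Coprime n q), ArithmeticFunction.vonMangoldt n

end Pool.Agent.MC.C1
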