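import Mathlib
import Pool.Agent.Lib.MP_9cfc0a_nt.C1Base

set_option autoImplicit false

namespace Pool.Agent.MC.C1

open Pool.Agent.MC MeasureTheory Real

/-! ### Part 1 -/

/-- P1. Plancherel modulo `q`. -/
lemma plancherel (q : ℕ) [NeZero q] (g : ZMod q → ℂ) :
    ∑ χ : DirichletCharacter ℂ q, ‖∑ a : ZMod q, χ a * g a‖ ^ 2
      = (q.totient : ℝ) * ∑ a ∈ Finset.univ.filter (fun a : ZMod q => IsUnit a), ‖g a‖ ^ 2 := by
  classical
  have key : ∀ a b : ZMod q, ∑ χ : DirichletCharacter ℂ q, (starRingEnd ℂ) (χ a) * χ b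
      = if IsUnit a ∧ a = b then (q.totient : ℂ) else 0 := by
    intro a b
    have h1 : ∀ χ : DirichletCharacter ℂ q, (starRingEnd ℂ) (χ a) = χ⁻¹ a := by
      intro χ
      rw [← MulChar.star_eq_inv]
      rfl
    by_cases ha : IsUnit a
    · have h2 : ∀ χ : DirichletCharacter ℂ q, χ⁻¹ a = χ a⁻¹ := by
        intro χ
        rw [MulChar.inv_apply]
        congr 1
        obtain ⟨u, rfl⟩ := ha
        rw [Ring.inverse_unit]
        exact (ZMod.inv_coe_unit u).symm
      simp only [h1, h2, DirichletCharacter.sum_char_inv_mul_char_eq ℂ ha b, ha, true_and]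
    · have h2 : ∀ χ : DirichletCharacter ℂ q, χ a = 0 := fun χ => χ.map_nonunit ha
      simp only [h2, map_zero, zero_mul, Finset.sum_const_zero, ha, false_and, if_false]
  have hc : ((∑ χ : DirichletCharacter ℂ q, ‖∑ a : ZMod q, χ a * g a‖ ^ 2 : ℝ) : ℂ)
      = ((q.totient : ℝ) * ∑ a ∈ Finset.univ.filter (fun a : ZMod q => IsUnit a), ‖g a‖ ^ 2 : ℝ) := by
    push_cast
    have h3 : ∀ χ : DirichletCharacter ℂ q, ((‖∑ a : ZMod q, χ a * g a‖ : ℂ)) ^ 2
        = ∑ a : ZMod q, ∑ b : ZMod q, ((starRingEnd ℂ) (χ a) * χ b) * ((starRingEnd ℂ) (g a) * g b) := by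
      intro χ
      rw [← Complex.conj_mul', map_sum, Finset.sum_mul_sum]
      refine Finset.sum_congr rfl fun a _ => Finset.sum_congr rfl fun b _ => ?_
      rw [map_mul]
      ring
    rw [Finset.sum_congr rfl fun χ _ => h3 χ, Finset.sum_comm]
    have h4 : ∀ a : ZMod q, ∑ χ : DirichletCharacter ℂ q, ∑ b : ZMod q,
        ((starRingEnd ℂ) (χ a) * χ b) * ((starRingEnd ℂ) (g a) * g b)
        = if IsUnit a then (q.totient : ℂ) * (‖g a‖ : ℂ) ^ 2 else 0 := by
      intro a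
      rw [Finset.sum_comm]
      have h5 : ∀ b : ZMod q, ∑ χ : DirichletCharacter ℂ q,
          ((starRingEnd ℂ) (χ a) * χ b) * ((starRingEnd ℂ) (g a) * g b)
          = if a = b then (if IsUnit a then (q.totient : ℂ) * ((starRingEnd ℂ) (g a) * g b) else 0)
            else 0 := by
        intro b
        rw [← Finset.sum_mul, key a b]
        by_cases hab : a = b
        · by_cases hu : IsUnit a
          · rw [if_pos ⟨hu, hab⟩, if_pos hab, if_pos hu]
          · rw [if_neg (fun h => hu h.1), if_pos hab, if_neg hu, zero_mul]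
        · rw [if_neg (fun h => hab h.2), if_neg hab, zero_mul]
      rw [Finset.sum_congr rfl fun b _ => h5 b, Finset.sum_ite_eq]
      simp only [Finset.mem_univ, if_true]
      by_cases hu : IsUnit a
      · rw [if_pos hu, if_pos hu, Complex.conj_mul']
      · rw [if_neg hu, if_neg hu]
    rw [Finset.sum_congr rfl fun a _ => h4 a, ← Finset.sum_filter, Finset.mul_sum]
  exact_mod_cast hc

/-! ### Part 2 -/

lemma P2_psiR (q a b : ℕ) (h : a % q = b % q) (t : ℝ) : psiR t q a = psiR t q b := by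
  unfold psiR
  rw [h]

lemma P2_reindex (q : ℕ) [NeZero q] (f : ℕ → ℝ) (hf : ∀ a b : ℕ, a % q = b % q → f a = f b) :
    ∑ a ∈ (Finset.Icc 1 q).filter (fun a => Nat.Coprime a q), f a
      = ∑ a ∈ Finset.univ.filter (fun a : ZMod q => IsUnit a), f a.val := by
  have hq : 0 < q := Nat.pos_of_ne_zero (NeZero.ne q)
  refine Finset.sum_bij' (fun a _ => (a : ZMod q))
    (fun b _ => if b.val = 0 then q else b.val) ?_ ?_ ?_ ?_ ?_
  · intro a ha
    rw [Finset.mem_filter, Finset.mem_Icc] at ha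
    rw [Finset.mem_filter]
    exact ⟨Finset.mem_univ _, (ZMod.isUnit_iff_coprime a q).mpr ha.2⟩
  · intro b hb
    rw [Finset.mem_filter] at hb
    rw [Finset.mem_filter, Finset.mem_Icc]
    have h1 : Nat.Coprime b.val q := by
      rw [← ZMod.isUnit_iff_coprime, ZMod.natCast_val, ZMod.cast_id]
      exact hb.2
    have h2 := ZMod.val_lt b
    split_ifs with h
    · rw [h, Nat.coprime_zero_left] at h1
      exact ⟨⟨hq, le_rfl⟩, by rw [h1]; exact Nat.coprime_one_left 1⟩
    · exact ⟨⟨by omega, by omega⟩, h1⟩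
  · intro a ha
    rw [Finset.mem_filter, Finset.mem_Icc] at ha
    simp only [ZMod.val_natCast]
    split_ifs with h
    · have h1 : q ∣ a := Nat.dvd_of_mod_eq_zero h
      have h2 := Nat.le_of_dvd (by omega) h1
      omega
    · have h1 : a ≠ q := by
        intro h'
        rw [h', Nat.mod_self] at h
        exact h rfl
      exact Nat.mod_eq_of_lt (by omega)
  · intro b hb
    split_ifs with h
    · rw [ZMod.natCast_self]
      exact ((ZMod.val_eq_zero b).mp h).symm
    · rw [ZMod.natCast_val, ZMod.cast_id]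
  · intro a ha
    apply hf
    rw [ZMod.val_natCast, Nat.mod_mod]

/-- P2. The sum over reduced classes of the squared increment. -/
lemma sum_sq_inc (q : ℕ) [NeZero q] (x y : ℝ) :
    ∑ a ∈ (Finset.Icc 1 q).filter (fun a => Nat.Coprime a q), (errR y q a - errR x q a) ^ 2
      = (1 / (q.totient : ℝ)) * ∑ χ : DirichletCharacter ℂ q, ‖EX q χ y - EX q χ x‖ ^ 2 := by
  have hφ : (0 : ℝ) < Nat.totient q := by
    exact_mod_cast Nat.totient_pos.mpr (Nat.pos_of_ne_zero (NeZero.ne q))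
  have h1 := plancherel q (fun a => EC q a.val y - EC q a.val x)
  have h2 : ∀ χ : DirichletCharacter ℂ q, EX q χ y - EX q χ x
      = ∑ a : ZMod q, χ a * (EC q a.val y - EC q a.val x) := by
    intro χ
    rw [EX_eq, EX_eq, ← Finset.sum_sub_distrib]
    refine Finset.sum_congr rfl fun a _ => ?_
    ring
  simp_rw [h2]
  rw [h1, ← mul_assoc, one_div, inv_mul_cancel₀ hφ.ne', one_mul]
  rw [P2_reindex q (fun a => (errR y q a - errR x q a) ^ 2)]
  · refine Finset.sum_congr rfl fun a _ => ?_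
    unfold EC errR
    rw [← Complex.ofReal_sub, Complex.norm_real, Real.norm_eq_abs, sq_abs]
  · intro a b hab
    unfold errR
    rw [P2_psiR q a b hab, P2_psiR q a b hab]

/-! ### Part 3 -/

lemma P3_dl (q : ℕ) [NeZero q] (χ : DirichletCharacter ℂ q) :
    dl χ.conductor χ.primitiveCharacter = dl q χ := by
  by_cases h : χ.primitiveCharacter = 1
  · have h2 : χ = 1 := by
      rw [← χ.changeLevel_primitiveCharacter, h, DirichletCharacter.changeLevel_one]
    have h3 : dl q χ = 1 := by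
      rw [h2]
      exact dl_one q
    rw [h3, h]
    exact dl_one _
  · have h2 : χ ≠ 1 := by
      intro h3
      apply h
      have h4 := χ.changeLevel_primitiveCharacter
      rw [h3] at h4
      have h5 := (DirichletCharacter.changeLevel_eq_one_iff
        (1 : DirichletCharacter ℂ q).conductor_dvd_level).mp h4
      subst h3
      exact h5
    rw [dl_of_ne _ _ h, dl_of_ne _ _ h2]

lemma P3_sum (f : ℕ → ℂ) (x y : ℝ) (hxy : x ≤ y) :
    SumC f y - SumC f x = ∑ n ∈ Finset.Ioc ⌊x⌋₊ ⌊y⌋₊, f n := by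
  unfold SumC
  have h1 : ⌊x⌋₊ ≤ ⌊y⌋₊ := Nat.floor_mono hxy
  have h2 : Finset.Icc 1 ⌊y⌋₊ = Finset.Icc 1 ⌊x⌋₊ ∪ Finset.Ioc ⌊x⌋₊ ⌊y⌋₊ := by
    ext n
    simp only [Finset.mem_Icc, Finset.mem_union, Finset.mem_Ioc]
    omega
  have h3 : Disjoint (Finset.Icc 1 ⌊x⌋₊) (Finset.Ioc ⌊x⌋₊ ⌊y⌋₊) := by
    rw [Finset.disjoint_left]
    intro n hn hn'
    rw [Finset.mem_Icc] at hn
    rw [Finset.mem_Ioc] at hn'
    omega
  rw [h2, Finset.sum_union h3]
  ring

/-- P3. Passing to the primitive character. -/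
lemma EX_prim (q : ℕ) [NeZero q] (χ : DirichletCharacter ℂ q) (x y : ℝ) (hx : 0 ≤ x) (hxy : x ≤ y) :
    ‖(EX q χ y - EX q χ x) - (EX χ.conductor χ.primitiveCharacter y
      - EX χ.conductor χ.primitiveCharacter x)‖ ≤ Bq q x y := by
  have h1 : (EX q χ y - EX q χ x) - (EX χ.conductor χ.primitiveCharacter y
      - EX χ.conductor χ.primitiveCharacter x) =
      ∑ n ∈ Finset.Ioc ⌊x⌋₊ ⌊y⌋₊, (cL q χ n - cL χ.conductor χ.primitiveCharacter n) := by
    rw [Finset.sum_sub_distrib, ← P3_sum _ _ _ hxy, ← P3_sum _ _ _ hxy]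
    unfold EX
    rw [P3_dl]
    ring
  rw [h1]
  unfold Bq
  rw [Finset.sum_filter]
  refine (norm_sum_le _ _).trans (Finset.sum_le_sum fun n _ => ?_)
  have hL : 0 ≤ ArithmeticFunction.vonMangoldt n := ArithmeticFunction.vonMangoldt_nonneg
  unfold cL
  rw [← sub_mul, norm_mul, Complex.norm_real, Real.norm_eq_abs, abs_of_nonneg hL]
  by_cases hn : Nat.Coprime n q
  · have h2 : χ.primitiveCharacter (n : ZMod χ.conductor) = χ (n : ZMod q) := by
      have := χ.primitiveCharacter_apply_of_isCoprime (a := (n : ℤ))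
        (Nat.isCoprime_iff_coprime.mpr hn)
      simpa using this
    rw [h2, sub_self, norm_zero, zero_mul, if_neg (by simpa using hn)]
  · have h2 : χ (n : ZMod q) = 0 := by
      apply MulChar.map_nonunit
      rw [ZMod.isUnit_iff_coprime]
      exact hn
    rw [h2, zero_sub, norm_neg, if_pos hn]
    calc ‖χ.primitiveCharacter (n : ZMod χ.conductor)‖ * ArithmeticFunction.vonMangoldt n
        ≤ 1 * ArithmeticFunction.vonMangoldt n :=
          mul_le_mul_of_nonneg_right (χ.primitiveCharacter.norm_le_one _) hL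
      _ = _ := one_mul _

/-! ### Part 4 -/

open Classical in
lemma P4_pSum (r : ℕ) (g : DirichletCharacter ℂ r → ℝ) :
    pSum r g = ∑ χ ∈ Finset.univ.filter (fun χ : DirichletCharacter ℂ r => χ.IsPrimitive), g χ := by
  unfold pSum
  rw [finsum_eq_sum_of_fintype]
  exact (Finset.sum_subtype _ (fun x => by simp) g).symm

/-- P4. Sorting the characters modulo `q` by their conductor. -/
lemma sum_char_le_pSum (q : ℕ) [NeZero q] (G : (r : ℕ) → DirichletCharacter ℂ r → ℝ)
    (hG : ∀ r χ, 0 ≤ G r χ) :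
    ∑ χ : DirichletCharacter ℂ q, G χ.conductor χ.primitiveCharacter
      ≤ ∑ r ∈ q.divisors, pSum r (G r) := by
  classical
  simp only [P4_pSum]
  rw [Finset.sum_sigma']
  set e : DirichletCharacter ℂ q → (Σ r : ℕ, DirichletCharacter ℂ r) :=
    fun χ => ⟨χ.conductor, χ.primitiveCharacter⟩ with he
  set inv : (Σ r : ℕ, DirichletCharacter ℂ r) → DirichletCharacter ℂ q :=
    fun z => if h : z.1 ∣ q then DirichletCharacter.changeLevel h z.2 else 1 with hinv
  have hleft : Function.LeftInverse inv e := by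
    intro χ
    simp only [hinv, he]
    rw [dif_pos χ.conductor_dvd_level, χ.changeLevel_primitiveCharacter]
  have hinj : Function.Injective e := hleft.injective
  have h1 : ∑ χ : DirichletCharacter ℂ q, G χ.conductor χ.primitiveCharacter =
      ∑ z ∈ (Finset.univ : Finset (DirichletCharacter ℂ q)).image e, G z.1 z.2 := by
    rw [Finset.sum_image (fun a _ b _ h => hinj h)]
  rw [h1]
  apply Finset.sum_le_sum_of_subset_of_nonneg
  · intro z hz
    rw [Finset.mem_image] at hz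
    obtain ⟨χ, -, rfl⟩ := hz
    rw [Finset.mem_sigma]
    refine ⟨Nat.mem_divisors.mpr ⟨χ.conductor_dvd_level, NeZero.ne q⟩, ?_⟩
    rw [Finset.mem_filter]
    exact ⟨Finset.mem_univ _, χ.primitiveCharacter_isPrimitive⟩
  · intro z _ _
    exact hG _ _

/-! ### Part 5 -/

lemma P5_div_totient (ε : ℝ) (hε : 0 < ε) : ∃ C : ℝ, 0 ≤ C ∧ ∀ n : ℕ, 1 ≤ n →
    1 / (n.totient : ℝ) ≤ C * (n : ℝ) ^ ε / n := by
  set P0 : ℕ := ⌈1 + 2 / ε⌉₊ with hP0
  refine ⟨2 ^ P0, by positivity, fun n hn => ?_⟩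
  have hn0 : (0 : ℝ) < n := by exact_mod_cast hn
  have hφ : (0 : ℝ) < n.totient := by exact_mod_cast Nat.totient_pos.mpr hn
  have h1 : (n : ℝ) / n.totient ≤ 2 ^ P0 * (n : ℝ) ^ ε := by
    rw [div_totient n hn]
    have h2 : ∀ p ∈ n.primeFactors, 1 + 1 / ((p : ℝ) - 1)
        ≤ (if p < P0 then 2 else 1) * (p : ℝ) ^ ε := by
      intro p hp
      have hp2 : (2 : ℝ) ≤ p := by exact_mod_cast (Nat.prime_of_mem_primeFactors hp).two_le
      split_ifs with h
      · have h3 : 1 / ((p : ℝ) - 1) ≤ 1 := by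
          rw [div_le_one (by linarith)]
          linarith
        have h4 : 1 ≤ (p : ℝ) ^ ε := Real.one_le_rpow (by linarith) hε.le
        linarith
      · have h3 : 1 + 2 / ε ≤ p := (Nat.le_ceil _).trans (by exact_mod_cast not_lt.mp h)
        have h4 : 0 < 2 / ε := by positivity
        have h5 : 1 / ((p : ℝ) - 1) ≤ ε * (1 / 2) := by
          rw [div_le_iff₀ (by linarith)]
          have : 2 / ε ≤ (p : ℝ) - 1 := by linarith
          rw [div_le_iff₀ hε] at this
          nlinarith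
        have h6 : (1 : ℝ) / 2 ≤ Real.log p := by
          have h7 : Real.log 2 ≤ Real.log p := Real.log_le_log (by norm_num) hp2
          have := Real.log_two_gt_d9
          linarith
        have h8 : ε * (1 / 2) ≤ ε * Real.log p := mul_le_mul_of_nonneg_left h6 hε.le
        rw [one_mul, Real.rpow_def_of_pos (by linarith), mul_comm (Real.log _)]
        have h9 := Real.add_one_le_exp (ε * Real.log p)
        linarith
    have h3 : ∏ p ∈ n.primeFactors, (1 + 1 / ((p : ℝ) - 1))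
        ≤ ∏ p ∈ n.primeFactors, ((if p < P0 then 2 else 1) * (p : ℝ) ^ ε) := by
      refine Finset.prod_le_prod (fun p hp => ?_) h2
      have hp2 : (2 : ℝ) ≤ p := by exact_mod_cast (Nat.prime_of_mem_primeFactors hp).two_le
      have : 0 ≤ 1 / ((p : ℝ) - 1) := by
        apply div_nonneg zero_le_one
        linarith
      linarith
    refine h3.trans ?_
    rw [Finset.prod_mul_distrib, Real.finsetProd_rpow _ _ (fun p _ => Nat.cast_nonneg p)]
    have h4 : ∏ p ∈ n.primeFactors, (if p < P0 then (2 : ℝ) else 1) ≤ 2 ^ P0 := by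
      rw [Finset.prod_ite, Finset.prod_const, Finset.prod_const_one, mul_one]
      refine pow_le_pow_right₀ one_le_two ?_
      have : n.primeFactors.filter (fun p => p < P0) ⊆ Finset.range P0 := by
        intro p hp
        exact Finset.mem_range.mpr (Finset.mem_filter.mp hp).2
      exact (Finset.card_le_card this).trans_eq (Finset.card_range _)
    have h5 : (∏ p ∈ n.primeFactors, (p : ℝ)) ≤ n := by
      have := Nat.le_of_dvd hn (Nat.prod_primeFactors_dvd n)
      rw [← Nat.cast_prod]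
      exact Nat.cast_le.mpr this
    exact mul_le_mul h4 (Real.rpow_le_rpow (Finset.prod_nonneg fun p _ => Nat.cast_nonneg p) h5
      hε.le) (Real.rpow_nonneg (Finset.prod_nonneg fun p _ => Nat.cast_nonneg p) _) (by positivity)
  rw [le_div_iff₀ hn0, one_div_mul_eq_div]
  exact h1

lemma P5_harmonic (ε : ℝ) (hε : 0 < ε) : ∃ C : ℝ, 0 ≤ C ∧ ∀ Q : ℕ, 1 ≤ Q →
    ∑ m ∈ Finset.Icc 1 Q, 1 / (m : ℝ) ≤ C * (Q : ℝ) ^ ε := by
  refine ⟨1 + 1 / ε, by positivity, fun Q hQ => ?_⟩
  have h1 : ∑ m ∈ Finset.Icc 1 Q, 1 / (m : ℝ) = (harmonic Q : ℝ) := by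
    rw [harmonic_eq_sum_Icc]
    push_cast
    exact Finset.sum_congr rfl fun m _ => one_div _
  rw [h1]
  have h2 := harmonic_le_one_add_log Q
  have h3 := Real.log_le_rpow_div (Nat.cast_nonneg Q : (0 : ℝ) ≤ Q) hε
  have h4 : 1 ≤ (Q : ℝ) ^ ε := Real.one_le_rpow (by exact_mod_cast hQ) hε.le
  have h5 : (1 + 1 / ε) * (Q : ℝ) ^ ε = (Q : ℝ) ^ ε + (Q : ℝ) ^ ε / ε := by ring
  rw [h5]
  linarith

/-- P5. Summation over the moduli. -/
lemma sum_moduli (ε : ℝ) (hε : 0 < ε) : ∃ C : ℝ, 0 ≤ C ∧ ∀ Q : ℕ, ∀ g : ℕ → ℝ, (∀ r, 0 ≤ g r) →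
    ∑ q ∈ Finset.Icc 1 Q, (1 / (q.totient : ℝ)) * ∑ r ∈ q.divisors, g r
      ≤ C * (Q : ℝ) ^ ε * ∑ r ∈ Finset.Icc 1 Q, g r / r := by
  obtain ⟨C₁, hC₁, h1⟩ := P5_div_totient (ε / 2) (half_pos hε)
  obtain ⟨C₂, hC₂, h2⟩ := P5_harmonic (ε / 2) (half_pos hε)
  refine ⟨C₁ * C₂, mul_nonneg hC₁ hC₂, fun Q g hg => ?_⟩
  rcases Nat.eq_zero_or_pos Q with rfl | hQ
  · simp
  have hQ0 : (0 : ℝ) < Q := by exact_mod_cast hQ
  have h3 : ∑ q ∈ Finset.Icc 1 Q, (1 / (q.totient : ℝ)) * ∑ r ∈ q.divisors, g r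
      ≤ C₁ * (Q : ℝ) ^ (ε / 2) * ∑ q ∈ Finset.Icc 1 Q, ∑ r ∈ q.divisors, g r / q := by
    rw [Finset.mul_sum]
    refine Finset.sum_le_sum fun q hq => ?_
    obtain ⟨hq1, hq2⟩ := Finset.mem_Icc.mp hq
    have hq0 : (0 : ℝ) < q := by exact_mod_cast hq1
    have h4 : C₁ * (q : ℝ) ^ (ε / 2) / q ≤ C₁ * (Q : ℝ) ^ (ε / 2) / q := by
      have h5 : (q : ℝ) ^ (ε / 2) ≤ (Q : ℝ) ^ (ε / 2) :=
        Real.rpow_le_rpow hq0.le (by exact_mod_cast hq2) (half_pos hε).le
      gcongr
    have h6 := mul_le_mul_of_nonneg_right ((h1 q hq1).trans h4)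
      (Finset.sum_nonneg fun r _ => hg r : 0 ≤ ∑ r ∈ q.divisors, g r)
    refine h6.trans_eq ?_
    rw [← Finset.sum_div]
    ring
  have h4 : ∑ q ∈ Finset.Icc 1 Q, ∑ r ∈ q.divisors, g r / q
      ≤ ∑ r ∈ Finset.Icc 1 Q, ∑ m ∈ Finset.Icc 1 Q, (g r / r) * (1 / (m : ℝ)) := by
    rw [Finset.sum_sigma', ← Finset.sum_product']
    have h5 : ∑ x ∈ (Finset.Icc 1 Q).sigma fun q => q.divisors, g x.2 / (x.1 : ℝ)
        = ∑ x ∈ (Finset.Icc 1 Q).sigma fun q => q.divisors,
          (fun y : ℕ × ℕ => (g y.1 / y.1) * (1 / (y.2 : ℝ))) (x.2, x.1 / x.2) := by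
      refine Finset.sum_congr rfl fun x hx => ?_
      obtain ⟨hx1, hx2⟩ := Finset.mem_sigma.mp hx
      obtain ⟨hx3, hx4⟩ := Nat.mem_divisors.mp hx2
      obtain ⟨m, hm⟩ := hx3
      have hr : 0 < x.2 := Nat.pos_of_ne_zero fun h => hx4 (by rw [hm, h, zero_mul])
      have hm0 : 0 < m := Nat.pos_of_ne_zero fun h => hx4 (by rw [hm, h, mul_zero])
      have hr' : (0 : ℝ) < x.2 := by exact_mod_cast hr
      have hm' : (0 : ℝ) < m := by exact_mod_cast hm0
      have h6 : x.1 / x.2 = m := by rw [hm, Nat.mul_div_cancel_left _ hr]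
      simp only [h6]
      have h7 : (x.1 : ℝ) = x.2 * m := by rw [hm]; push_cast; ring
      rw [h7]
      field_simp
    rw [h5, ← Finset.sum_image (f := fun y : ℕ × ℕ => (g y.1 / y.1) * (1 / (y.2 : ℝ)))
      (g := fun x : (_ : ℕ) × ℕ => (x.2, x.1 / x.2))]
    · refine Finset.sum_le_sum_of_subset_of_nonneg ?_ fun y _ _ => ?_
      · intro y hy
        obtain ⟨x, hx, rfl⟩ := Finset.mem_image.mp hy
        obtain ⟨hx1, hx2⟩ := Finset.mem_sigma.mp hx
        obtain ⟨hx3, hx4⟩ := Nat.mem_divisors.mp hx2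
        obtain ⟨hx5, hx6⟩ := Finset.mem_Icc.mp hx1
        have hr : 0 < x.2 := Nat.pos_of_dvd_of_pos hx3 hx5
        have hr2 : x.2 ≤ x.1 := Nat.le_of_dvd hx5 hx3
        rw [Finset.mem_product, Finset.mem_Icc, Finset.mem_Icc]
        exact ⟨⟨hr, hr2.trans hx6⟩, Nat.div_pos hr2 hr, (Nat.div_le_self _ _).trans hx6⟩
      · exact mul_nonneg (div_nonneg (hg _) (Nat.cast_nonneg _))
          (div_nonneg zero_le_one (Nat.cast_nonneg _))
    · intro x hx y hy hxy
      obtain ⟨hx1, hx2⟩ := Finset.mem_sigma.mp hx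
      obtain ⟨hx3, hx4⟩ := Nat.mem_divisors.mp hx2
      obtain ⟨hy1, hy2⟩ := Finset.mem_sigma.mp hy
      obtain ⟨hy3, hy4⟩ := Nat.mem_divisors.mp hy2
      simp only [Prod.mk.injEq] at hxy
      obtain ⟨h6, h7⟩ := hxy
      have h8 : x.1 = y.1 := by
        rw [← Nat.mul_div_cancel' hx3, ← Nat.mul_div_cancel' hy3, h7, h6]
      exact Sigma.ext h8 (heq_of_eq h6)
  have h5 : ∑ r ∈ Finset.Icc 1 Q, ∑ m ∈ Finset.Icc 1 Q, (g r / r) * (1 / (m : ℝ))
      ≤ C₂ * (Q : ℝ) ^ (ε / 2) * ∑ r ∈ Finset.Icc 1 Q, g r / r := by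
    rw [Finset.mul_sum]
    refine Finset.sum_le_sum fun r _ => ?_
    rw [← Finset.mul_sum, mul_comm]
    exact mul_le_mul_of_nonneg_right (h2 Q hQ) (div_nonneg (hg _) (Nat.cast_nonneg _))
  refine h3.trans ((mul_le_mul_of_nonneg_left (h4.trans h5) (by positivity)).trans_eq ?_)
  have h6 : (Q : ℝ) ^ ε = (Q : ℝ) ^ (ε / 2) * (Q : ℝ) ^ (ε / 2) := by
    rw [← Real.rpow_add hQ0, add_halves]
  rw [h6]
  ring

/-! ### Part 6 -/

/-- P6. Dyadic decomposition. -/
lemma sum_dyadic_le (Q : ℕ) (g : ℕ → ℝ) (hg : ∀ r, 0 ≤ g r) (A B : ℝ) (hA : 0 ≤ A) (hB : 0 ≤ B)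
    (h : ∀ F : ℕ, 1 ≤ F → F ≤ Q → ∑ r ∈ Finset.Ico F (2 * F), g r ≤ B * F * (A + F)) :
    ∑ r ∈ Finset.Icc 1 Q, g r / r ≤ (Nat.log 2 Q + 1) * (B * (A + Q)) := by
  classical
  rcases Nat.eq_zero_or_pos Q with hQ | hQ
  · subst hQ
    simp only [Finset.Icc_eq_empty_of_lt (show (0 : ℕ) < 1 by norm_num), Finset.sum_empty]
    positivity
  have hmaps : ∀ r ∈ Finset.Icc 1 Q, Nat.log 2 r ∈ Finset.range (Nat.log 2 Q + 1) := by
    intro r hr
    rw [Finset.mem_range, Nat.lt_succ_iff]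
    exact Nat.log_mono_right (Finset.mem_Icc.1 hr).2
  rw [← Finset.sum_fiberwise_of_maps_to hmaps]
  have hone : ∀ j ∈ Finset.range (Nat.log 2 Q + 1),
      ∑ r ∈ (Finset.Icc 1 Q).filter (fun r => Nat.log 2 r = j), g r / r ≤ B * (A + Q) := by
    intro j hj
    have hj' : j ≤ Nat.log 2 Q := Nat.lt_succ_iff.1 (Finset.mem_range.1 hj)
    have hF1 : 1 ≤ 2 ^ j := Nat.one_le_two_pow
    have hFQ : 2 ^ j ≤ Q :=
      (Nat.pow_le_pow_right (by norm_num) hj').trans (Nat.pow_log_le_self 2 hQ.ne')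
    have hF0 : (0 : ℝ) < 2 ^ j := by positivity
    have hsub : (Finset.Icc 1 Q).filter (fun r => Nat.log 2 r = j)
        ⊆ Finset.Ico (2 ^ j) (2 * 2 ^ j) := by
      intro r hr
      rw [Finset.mem_filter, Finset.mem_Icc] at hr
      rw [Finset.mem_Ico]
      constructor
      · rw [← hr.2]
        exact Nat.pow_log_le_self 2 (by omega)
      · rw [← hr.2, ← pow_succ']
        exact Nat.lt_pow_succ_log_self (by norm_num) r
    calc ∑ r ∈ (Finset.Icc 1 Q).filter (fun r => Nat.log 2 r = j), g r / r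
        ≤ ∑ r ∈ (Finset.Icc 1 Q).filter (fun r => Nat.log 2 r = j), g r / 2 ^ j := by
          refine Finset.sum_le_sum fun r hr => ?_
          have hr1 := (Finset.mem_Ico.1 (hsub hr)).1
          have : ((2 : ℝ) ^ j) ≤ r := by exact_mod_cast hr1
          exact div_le_div_of_nonneg_left (hg r) hF0 this
      _ ≤ ∑ r ∈ Finset.Ico (2 ^ j) (2 * 2 ^ j), g r / 2 ^ j :=
          Finset.sum_le_sum_of_subset_of_nonneg hsub fun r _ _ => div_nonneg (hg r) hF0.le
      _ = (∑ r ∈ Finset.Ico (2 ^ j) (2 * 2 ^ j), g r) / 2 ^ j := by rw [Finset.sum_div]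
      _ ≤ (B * ((2 ^ j : ℕ) : ℝ) * (A + ((2 ^ j : ℕ) : ℝ))) / 2 ^ j :=
          div_le_div_of_nonneg_right (h (2 ^ j) hF1 hFQ) hF0.le
      _ = B * (A + 2 ^ j) := by
          push_cast
          field_simp
      _ ≤ B * (A + Q) := by
          have : ((2 : ℝ) ^ j) ≤ Q := by exact_mod_cast hFQ
          exact mul_le_mul_of_nonneg_left (by linarith) hB
  calc _ ≤ ∑ j ∈ Finset.range (Nat.log 2 Q + 1), B * (A + Q) := Finset.sum_le_sum hone
    _ = (Nat.log 2 Q + 1) * (B * (A + Q)) := by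
      rw [Finset.sum_const, Finset.card_range, nsmul_eq_mul]
      push_cast
      ring

/-! ### Part 7 -/

lemma P7_card (q : ℕ) (hq : 1 ≤ q) : (q.primeFactors.card : ℝ) ≤ 2 * Real.log q := by
  have h1 : (2 : ℝ) ^ q.primeFactors.card ≤ q := by
    calc (2 : ℝ) ^ q.primeFactors.card = ∏ _p ∈ q.primeFactors, (2 : ℝ) := by
          rw [Finset.prod_const]
      _ ≤ ∏ p ∈ q.primeFactors, (p : ℝ) := by
          refine Finset.prod_le_prod (fun _ _ => by norm_num) fun p hp => ?_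
          exact_mod_cast (Nat.prime_of_mem_primeFactors hp).two_le
      _ ≤ q := by
          rw [← Nat.cast_prod]
          exact Nat.cast_le.mpr (Nat.le_of_dvd hq (Nat.prod_primeFactors_dvd q))
  have h2 := Real.log_le_log (by positivity) h1
  rw [Real.log_pow] at h2
  have h3 := Real.log_two_gt_d9
  have h4 : (0 : ℝ) ≤ q.primeFactors.card := Nat.cast_nonneg _
  nlinarith

lemma P7_sum (q : ℕ) (hq : 1 ≤ q) (M : ℕ) (hM : 1 ≤ M) :
    ∑ n ∈ (Finset.Ioc 0 M).filter (fun n => ¬ Nat.Coprime n q), ArithmeticFunction.vonMangoldt n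
      ≤ 2 * Real.log q * Real.log M := by
  set N : ℕ := ∏ p ∈ q.primeFactors, p ^ Nat.log p M with hN
  have hN0 : N ≠ 0 := Finset.prod_ne_zero_iff.mpr fun p hp =>
    pow_ne_zero _ (Nat.prime_of_mem_primeFactors hp).ne_zero
  have h1 : ∑ n ∈ (Finset.Ioc 0 M).filter (fun n => ¬ Nat.Coprime n q),
      ArithmeticFunction.vonMangoldt n ≤ ∑ n ∈ N.divisors, ArithmeticFunction.vonMangoldt n := by
    rw [← Finset.sum_filter_ne_zero]
    refine Finset.sum_le_sum_of_subset_of_nonneg ?_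
      fun n _ _ => ArithmeticFunction.vonMangoldt_nonneg
    intro n hn
    obtain ⟨hn1, hn2⟩ := Finset.mem_filter.mp hn
    obtain ⟨hn3, hn4⟩ := Finset.mem_filter.mp hn1
    obtain ⟨hn5, hn6⟩ := Finset.mem_Ioc.mp hn3
    obtain ⟨p, k, hp, hk, rfl⟩ :=
      (isPrimePow_nat_iff n).mp (ArithmeticFunction.vonMangoldt_ne_zero_iff.mp hn2)
    have hpq : p ∣ q := by
      by_contra h
      exact hn4 (Nat.Coprime.pow_left k ((Nat.Prime.coprime_iff_not_dvd hp).mpr h))
    have hp2 : p ∈ q.primeFactors := Nat.mem_primeFactors.mpr ⟨hp, hpq, by omega⟩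
    refine Nat.mem_divisors.mpr ⟨?_, hN0⟩
    refine dvd_trans (pow_dvd_pow p ?_) (Finset.dvd_prod_of_mem (fun p => p ^ Nat.log p M) hp2)
    exact Nat.le_log_of_pow_le hp.one_lt hn6
  refine h1.trans ?_
  rw [ArithmeticFunction.vonMangoldt_sum, hN, Nat.cast_prod, Real.log_prod]
  · have h2 : ∀ p ∈ q.primeFactors, Real.log ((p ^ Nat.log p M : ℕ) : ℝ) ≤ Real.log M := by
      intro p hp
      have hp' := Nat.prime_of_mem_primeFactors hp
      refine Real.log_le_log ?_ ?_
      · exact_mod_cast pow_pos hp'.pos _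
      · exact_mod_cast Nat.pow_log_le_self p (by omega)
    refine (Finset.sum_le_sum h2).trans ?_
    rw [Finset.sum_const, nsmul_eq_mul]
    exact mul_le_mul_of_nonneg_right (P7_card q hq) (Real.log_natCast_nonneg M)
  · intro p hp
    have := pow_ne_zero (Nat.log p M) (Nat.prime_of_mem_primeFactors hp).ne_zero
    exact_mod_cast this

/-- P7. Mean square of `Bq` over a logarithmic window. -/
lemma Bq_mean : ∃ C : ℝ, 0 ≤ C ∧ ∀ q : ℕ, 1 ≤ q → ∀ X : ℝ, 2 ≤ X → ∀ h : ℝ, 0 < h → h ≤ 1 →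
    ∫ u in (Real.log X - 1)..(Real.log X), (Bq q (Real.exp u) (Real.exp (u + h))) ^ 2
      ≤ C * h * (1 + Real.log q) ^ 2 * (1 + Real.log X) ^ 4 := by
  refine ⟨4, by norm_num, fun q hq X hX h hh hh1 => ?_⟩
  set M : ℕ := ⌊Real.exp 1 * X⌋₊ with hMdef
  have he : (1 : ℝ) ≤ Real.exp 1 := Real.one_le_exp zero_le_one
  have hX0 : 0 < X := by linarith
  have hM1 : 1 ≤ M := Nat.le_floor (by rw [Nat.cast_one]; nlinarith)
  have hlogq : 0 ≤ Real.log q := Real.log_natCast_nonneg q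
  have hlogX : 0 ≤ Real.log X := Real.log_nonneg (by linarith)
  have hlogM : Real.log M ≤ 1 + Real.log X := by
    have h1 : (M : ℝ) ≤ Real.exp 1 * X := Nat.floor_le (by positivity)
    have h2 := Real.log_le_log (by exact_mod_cast hM1) h1
    rwa [Real.log_mul (Real.exp_pos 1).ne' hX0.ne', Real.log_exp] at h2
  set S := (Finset.Ioc 0 M).filter (fun n => ¬ Nat.Coprime n q) with hS
  set L : ℝ := 2 * (1 + Real.log q) * (1 + Real.log X) with hL
  have hL0 : 0 ≤ L := by positivity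
  have hT : ∑ n ∈ S, ArithmeticFunction.vonMangoldt n ≤ L := by
    refine (P7_sum q hq M hM1).trans ?_
    have h1 : 2 * Real.log q * Real.log M ≤ 2 * Real.log q * (1 + Real.log X) :=
      mul_le_mul_of_nonneg_left hlogM (by positivity)
    refine h1.trans ?_
    rw [hL]
    nlinarith
  -- pointwise formula
  set F : ℝ → ℝ := fun u => ∑ n ∈ S, ArithmeticFunction.vonMangoldt n *
    (Set.Ico (Real.log n - h) (Real.log n)).indicator (fun _ => (1 : ℝ)) u with hF
  have hFB : ∀ u ∈ Set.Ioc (Real.log X - 1) (Real.log X),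
      Bq q (Real.exp u) (Real.exp (u + h)) ≤ F u := by
    intro u hu
    have h1 : (Finset.Ioc ⌊Real.exp u⌋₊ ⌊Real.exp (u + h)⌋₊).filter (fun n => ¬ Nat.Coprime n q)
        ⊆ S := by
      refine Finset.filter_subset_filter _ fun n hn => ?_
      obtain ⟨hn1, hn2⟩ := Finset.mem_Ioc.mp hn
      refine Finset.mem_Ioc.mpr ⟨by omega, hn2.trans (Nat.floor_le_floor ?_)⟩
      rw [← Real.exp_log hX0, ← Real.exp_add]
      refine Real.exp_le_exp.mpr ?_
      linarith [hu.2]
    have h2 : Bq q (Real.exp u) (Real.exp (u + h))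
        = ∑ n ∈ (Finset.Ioc ⌊Real.exp u⌋₊ ⌊Real.exp (u + h)⌋₊).filter
            (fun n => ¬ Nat.Coprime n q), ArithmeticFunction.vonMangoldt n *
          (Set.Ico (Real.log n - h) (Real.log n)).indicator (fun _ => (1 : ℝ)) u := by
      refine Finset.sum_congr rfl fun n hn => ?_
      obtain ⟨hn1, hn2⟩ := Finset.mem_filter.mp hn
      obtain ⟨hn3, hn4⟩ := Finset.mem_Ioc.mp hn1
      have hn0 : (0 : ℝ) < n := by exact_mod_cast (Nat.zero_le _).trans_lt hn3
      have h3 : Real.exp u < n := (Nat.floor_lt (Real.exp_pos u).le).mp hn3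
      have h4 : (n : ℝ) ≤ Real.exp (u + h) := (Nat.le_floor_iff (Real.exp_pos _).le).mp hn4
      have h5 : u < Real.log n := (Real.lt_log_iff_exp_lt hn0).mpr h3
      have h6 : Real.log n ≤ u + h := (Real.log_le_iff_le_exp hn0).mpr h4
      have h7 : u ∈ Set.Ico (Real.log n - h) (Real.log n) := ⟨by linarith, h5⟩
      rw [Set.indicator_of_mem h7, mul_one]
    rw [h2]
    refine Finset.sum_le_sum_of_subset_of_nonneg h1 fun n _ _ => ?_
    exact mul_nonneg ArithmeticFunction.vonMangoldt_nonneg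
      (Set.indicator_nonneg (fun _ _ => zero_le_one) _)
  have hB0 : ∀ x y : ℝ, 0 ≤ Bq q x y := fun x y =>
    Finset.sum_nonneg fun n _ => ArithmeticFunction.vonMangoldt_nonneg
  have hFL : ∀ u, F u ≤ L := by
    intro u
    refine (Finset.sum_le_sum fun n _ => ?_).trans hT
    refine mul_le_of_le_one_right ArithmeticFunction.vonMangoldt_nonneg ?_
    exact Set.indicator_le_self' (fun _ _ => zero_le_one) u
  have hle : Real.log X - 1 ≤ Real.log X := by linarith
  rw [intervalIntegral.integral_of_le hle]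
  have hind : ∀ n ∈ S, Integrable (fun u => ArithmeticFunction.vonMangoldt n *
      (Set.Ico (Real.log n - h) (Real.log n)).indicator (fun _ => (1 : ℝ)) u)
      (volume.restrict (Set.Ioc (Real.log X - 1) (Real.log X))) := by
    intro n _
    refine Integrable.const_mul ?_ _
    exact (integrable_const (1 : ℝ)).indicator measurableSet_Ico
  have hFint : Integrable F (volume.restrict (Set.Ioc (Real.log X - 1) (Real.log X))) :=
    integrable_finsetSum _ hind
  have h1 : ∫ u in Set.Ioc (Real.log X - 1) (Real.log X),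
      (Bq q (Real.exp u) (Real.exp (u + h))) ^ 2
      ≤ ∫ u in Set.Ioc (Real.log X - 1) (Real.log X), L * F u := by
    refine integral_mono_of_nonneg (Filter.Eventually.of_forall fun u => sq_nonneg _)
      (hFint.const_mul L) ?_
    filter_upwards [ae_restrict_mem measurableSet_Ioc] with u hu
    have h2 := hFB u hu
    have h3 := hB0 (Real.exp u) (Real.exp (u + h))
    rw [sq]
    exact mul_le_mul (h2.trans (hFL u)) h2 h3 hL0
  refine h1.trans ?_
  rw [integral_const_mul]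
  have h2 : ∫ u in Set.Ioc (Real.log X - 1) (Real.log X), F u ≤ h * L := by
    rw [hF, integral_finsetSum _ hind]
    have h3 : ∀ n ∈ S, ∫ u in Set.Ioc (Real.log X - 1) (Real.log X),
        ArithmeticFunction.vonMangoldt n *
          (Set.Ico (Real.log n - h) (Real.log n)).indicator (fun _ => (1 : ℝ)) u
        ≤ ArithmeticFunction.vonMangoldt n * h := by
      intro n _
      rw [integral_const_mul]
      refine mul_le_mul_of_nonneg_left ?_ ArithmeticFunction.vonMangoldt_nonneg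
      have h4 : ∫ u in Set.Ioc (Real.log X - 1) (Real.log X),
          (Set.Ico (Real.log n - h) (Real.log n)).indicator (fun _ => (1 : ℝ)) u
          = (volume.restrict (Set.Ioc (Real.log X - 1) (Real.log X))).real
            (Set.Ico (Real.log n - h) (Real.log n)) :=
        integral_indicator_one measurableSet_Ico
      rw [h4]
      have h5 : (volume.restrict (Set.Ioc (Real.log X - 1) (Real.log X))).real
            (Set.Ico (Real.log n - h) (Real.log n))
          ≤ volume.real (Set.Ico (Real.log n - h) (Real.log n)) := by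
        refine ENNReal.toReal_mono ?_ (Measure.restrict_le_self _)
        rw [Real.volume_Ico]
        exact ENNReal.ofReal_ne_top
      refine h5.trans_eq ?_
      rw [Measure.real, Real.volume_Ico, ENNReal.toReal_ofReal (by linarith)]
      ring
    refine (Finset.sum_le_sum h3).trans ?_
    rw [← Finset.sum_mul, mul_comm]
    exact mul_le_mul_of_nonneg_left hT hh.le
  refine (mul_le_mul_of_nonneg_left h2 hL0).trans ?_
  have h3 : L * (h * L) = 4 * h * (1 + Real.log q) ^ 2 * (1 + Real.log X) ^ 2 := by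
    rw [hL]
    ring
  rw [h3]
  have h4 : (1 + Real.log X) ^ 2 ≤ (1 + Real.log X) ^ 4 :=
    pow_le_pow_right₀ (by linarith) (by norm_num)
  exact mul_le_mul_of_nonneg_left h4 (by positivity)

/-! ### Part 8 -/

lemma P8_bound (r : ℕ) (χ : DirichletCharacter ℂ r) (M t : ℝ) (ht0 : 0 ≤ t) (ht : t ≤ M) :
    ‖EX r χ t‖ ≤ ∑ k ∈ Finset.Icc 1 ⌊M⌋₊, ArithmeticFunction.vonMangoldt k + ‖dl r χ‖ * M := by
  have h1 : ‖SumC (cL r χ) t‖ ≤ ∑ k ∈ Finset.Icc 1 ⌊M⌋₊, ArithmeticFunction.vonMangoldt k := by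
    unfold SumC
    refine (norm_sum_le _ _).trans ?_
    calc ∑ k ∈ Finset.Icc 1 ⌊t⌋₊, ‖cL r χ k‖
        ≤ ∑ k ∈ Finset.Icc 1 ⌊t⌋₊, ArithmeticFunction.vonMangoldt k := by
          refine Finset.sum_le_sum fun k _ => ?_
          unfold cL
          rw [norm_mul, Complex.norm_real, Real.norm_of_nonneg ArithmeticFunction.vonMangoldt_nonneg]
          calc ‖χ k‖ * ArithmeticFunction.vonMangoldt k ≤ 1 * ArithmeticFunction.vonMangoldt k := by
                refine mul_le_mul_of_nonneg_right (χ.norm_le_one _)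
                  ArithmeticFunction.vonMangoldt_nonneg
            _ = _ := one_mul _
      _ ≤ _ := by
          refine Finset.sum_le_sum_of_subset_of_nonneg ?_
            fun k _ _ => ArithmeticFunction.vonMangoldt_nonneg
          exact Finset.Icc_subset_Icc le_rfl (Nat.floor_le_floor ht)
  have h2 : ‖dl r χ * (t : ℂ)‖ ≤ ‖dl r χ‖ * M := by
    rw [norm_mul, Complex.norm_real, Real.norm_of_nonneg ht0]
    exact mul_le_mul_of_nonneg_left ht (norm_nonneg _)
  unfold EX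
  exact (norm_sub_le _ _).trans (add_le_add h1 h2)

/-- P8. Integrability of the error terms on logarithmic windows. -/
lemma EX_int (r : ℕ) (χ : DirichletCharacter ℂ r) (h a b : ℝ) :
    IntervalIntegrable (fun u => ‖EX r χ (Real.exp (u + h)) - EX r χ (Real.exp u)‖ ^ 2)
      volume a b := by
  rw [intervalIntegrable_iff]
  set M : ℝ := Real.exp (max a b + |h|) with hM
  set K : ℝ := ∑ k ∈ Finset.Icc 1 ⌊M⌋₊, ArithmeticFunction.vonMangoldt k + ‖dl r χ‖ * M with hK
  refine Measure.integrableOn_of_bounded (M := (K + K) ^ 2) ?_ ?_ ?_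
  · rw [Set.uIoc, Real.volume_Ioc]
    exact ENNReal.ofReal_ne_top
  · have h1 : Measurable fun u : ℝ => EX r χ (Real.exp (u + h)) :=
      (EX_measurable r χ).comp (Real.measurable_exp.comp (measurable_id.add_const h))
    have h2 : Measurable fun u : ℝ => EX r χ (Real.exp u) :=
      (EX_measurable r χ).comp Real.measurable_exp
    exact ((h1.sub h2).norm.pow_const 2).aestronglyMeasurable
  · refine (ae_restrict_iff' measurableSet_uIoc).2 (Filter.Eventually.of_forall fun u hu => ?_)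
    have hu2 : u ≤ max a b := hu.2
    have e1 : ‖EX r χ (Real.exp (u + h))‖ ≤ K := by
      refine P8_bound r χ M _ (Real.exp_pos _).le (Real.exp_le_exp.2 ?_)
      have := le_abs_self h
      linarith
    have e2 : ‖EX r χ (Real.exp u)‖ ≤ K := by
      refine P8_bound r χ M _ (Real.exp_pos _).le (Real.exp_le_exp.2 ?_)
      have := abs_nonneg h
      linarith
    rw [Real.norm_of_nonneg (by positivity)]
    exact pow_le_pow_left₀ (norm_nonneg _) ((norm_sub_le _ _).trans (add_le_add e1 e2)) 2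

/-! ### Part 9 -/

lemma P9_card (q a A B : ℕ) (hq : 1 ≤ q) (hAB : A ≤ B) :
    (((Finset.Ioc A B).filter (fun n => n % q = a % q)).card : ℝ) ≤ ((B : ℝ) - A) / q + 1 := by
  have h0 : (0 : ℚ) < q := by exact_mod_cast (by omega : 0 < q)
  have h1 := Nat.Ioc_filter_modEq_card A B (r := q) (by omega) a
  have h2 : (Finset.Ioc A B).filter (fun n => n % q = a % q)
      = (Finset.Ioc A B).filter (fun n => n ≡ a [MOD q]) := by
    refine Finset.filter_congr fun n _ => ?_
    rfl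
  rw [h2]
  have h3 : ((((Finset.Ioc A B).filter (fun n => n ≡ a [MOD q])).card : ℤ) : ℚ) ≤ ((B : ℚ) - A) / q + 1 := by
    rw [h1]
    push_cast
    apply max_le
    · have h4 := Int.floor_le (((B : ℚ) - a) / q)
      have h5 := Int.lt_floor_add_one (((A : ℚ) - a) / q)
      have h6 : ((B : ℚ) - a) / q - ((A : ℚ) - a) / q = ((B : ℚ) - A) / q := by
        field_simp
        ring
      linarith
    · have h7 : (A : ℚ) ≤ B := by exact_mod_cast hAB
      have : 0 ≤ ((B : ℚ) - A) / q := div_nonneg (by linarith) h0.le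
      linarith
  have h8 := (Rat.cast_le (K := ℝ)).mpr h3
  push_cast at h8
  exact h8

lemma P9_psiR (q a : ℕ) (hq : 1 ≤ q) (x y : ℝ) (hxy : x ≤ y) (hy : 1 ≤ y) :
    psiR y q a - psiR x q a ≤ ((y - x) / q + 2) * (1 + Real.log y) := by
  have hq' : (1 : ℝ) ≤ q := by exact_mod_cast hq
  have hfl : ⌊x⌋₊ ≤ ⌊y⌋₊ := Nat.floor_le_floor hxy
  have hlog : 0 ≤ Real.log y := Real.log_nonneg hy
  have h1 : psiR y q a - psiR x q a
      = ∑ n ∈ (Finset.Ioc ⌊x⌋₊ ⌊y⌋₊).filter (fun n => n % q = a % q),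
        ArithmeticFunction.vonMangoldt n := by
    unfold psiR
    have h2 : (Finset.Icc 1 ⌊y⌋₊).filter (fun n => n % q = a % q)
        = (Finset.Icc 1 ⌊x⌋₊).filter (fun n => n % q = a % q)
          ∪ (Finset.Ioc ⌊x⌋₊ ⌊y⌋₊).filter (fun n => n % q = a % q) := by
      rw [← Finset.filter_union]
      congr 1
      ext n
      simp only [Finset.mem_Icc, Finset.mem_Ioc, Finset.mem_union]
      omega
    rw [h2, Finset.sum_union]
    · ring
    · rw [Finset.disjoint_left]
      intro n hn hn'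
      simp only [Finset.mem_filter, Finset.mem_Icc, Finset.mem_Ioc] at hn hn'
      omega
  rw [h1]
  have h3 : ∑ n ∈ (Finset.Ioc ⌊x⌋₊ ⌊y⌋₊).filter (fun n => n % q = a % q),
        ArithmeticFunction.vonMangoldt n
      ≤ ∑ _n ∈ (Finset.Ioc ⌊x⌋₊ ⌊y⌋₊).filter (fun n => n % q = a % q), (1 + Real.log y) := by
    refine Finset.sum_le_sum fun n hn => ?_
    rw [Finset.mem_filter, Finset.mem_Ioc] at hn
    have hn0 : 0 < n := by omega
    have hny : (n : ℝ) ≤ y := (Nat.le_floor_iff (by linarith)).mp hn.1.2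
    have h4 := ArithmeticFunction.vonMangoldt_le_log (n := n)
    have h5 : Real.log n ≤ Real.log y := Real.log_le_log (by exact_mod_cast hn0) hny
    linarith
  refine h3.trans ?_
  rw [Finset.sum_const, nsmul_eq_mul]
  have h4 := P9_card q a _ _ hq hfl
  have h5 : ((⌊y⌋₊ : ℝ) - ⌊x⌋₊) / q ≤ (y - x) / q + 1 := by
    have h6 := Nat.floor_le (show 0 ≤ y by linarith)
    have h7 := Nat.lt_floor_add_one x
    have h8 : ((⌊y⌋₊ : ℝ) - ⌊x⌋₊) / q ≤ (y - x + 1) / q := by
      gcongr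
      linarith
    have h9 : (y - x + 1) / (q : ℝ) = (y - x) / q + 1 / q := by ring
    have h10 : 1 / (q : ℝ) ≤ 1 := by
      rw [div_le_one (by linarith)]
      exact hq'
    linarith
  have h11 : 0 ≤ 1 + Real.log y := by linarith
  exact mul_le_mul_of_nonneg_right (by linarith) h11

/-- P9. Trivial bound for the error in a short range. -/
lemma errR_triv (q a : ℕ) (hq : 1 ≤ q) (x y : ℝ) (hx : 1 ≤ x) (hxy : x ≤ y) :
    |errR y q a - errR x q a| ≤ ((y - x) / q + 2) * (1 + Real.log y) + (y - x) / q.totient := by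
  have hφ : (1 : ℝ) ≤ Nat.totient q := by exact_mod_cast Nat.totient_pos.mpr (by omega)
  have h1 := P9_psiR q a hq x y hxy (by linarith)
  have h2 := psiR_mono q a x y hxy
  have h3 : 0 ≤ (y - x) / (q.totient : ℝ) := div_nonneg (by linarith) (by linarith)
  have h4 : errR y q a - errR x q a = (psiR y q a - psiR x q a) - (y - x) / (q.totient : ℝ) := by
    unfold errR
    ring
  rw [h4, abs_le]
  constructor <;> linarith

/-- P9b. Trivial bound for the error. -/
lemma errR_triv0 (q a : ℕ) (hq : 1 ≤ q) (y : ℝ) (hy : 1 ≤ y) :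
    |errR y q a| ≤ (y / q + 2) * (1 + Real.log y) + y / q.totient := by
  have hφ : (1 : ℝ) ≤ Nat.totient q := by exact_mod_cast Nat.totient_pos.mpr (by omega)
  have h1 := P9_psiR q a hq 0 y (by linarith) hy
  have h2 := psiR_nonneg y q a
  have h3 : 0 ≤ y / (q.totient : ℝ) := div_nonneg (by linarith) (by linarith)
  have h5 : psiR 0 q a = 0 := by
    unfold psiR
    simp
  rw [h5, sub_zero, sub_zero] at h1
  unfold errR
  rw [abs_le]
  constructor <;> linarith

/-! ### Part 10 -/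

/-- squared increments at the level `k` on the grid based at `v + j` -/
noncomputable def P10E (f : ℝ → ℝ) (v : ℝ) (k j : ℕ) : ℝ :=
  ∑ m ∈ Finset.range (2 ^ k), (f (v + j + m / 2 ^ k + 1 / 2 ^ k) - f (v + j + m / 2 ^ k)) ^ 2

lemma P10E_nonneg (f : ℝ → ℝ) (v : ℝ) (k j : ℕ) : 0 ≤ P10E f v k j :=
  Finset.sum_nonneg fun _ _ => sq_nonneg _

lemma P10_chain (f : ℝ → ℝ) (v : ℝ) (j K m : ℕ) (hm : m < 2 ^ K) :
    (f (v + j + m / 2 ^ K) - f (v + j)) ^ 2
      ≤ K * ∑ k ∈ Finset.range K, P10E f v (k + 1) j := by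
  have h := chain (fun a H => ((f (v + j + (a + H : ℝ) / 2 ^ K) - f (v + j + (a : ℝ) / 2 ^ K) : ℝ) : ℂ))
    (fun a => by simp) (fun a H₁ H₂ => by
      rw [← Complex.ofReal_add]
      congr 1
      push_cast
      rw [add_assoc (a : ℝ)]
      ring) K 0 m hm
  rw [Complex.norm_real, Real.norm_eq_abs, sq_abs] at h
  simp only [Nat.cast_zero, zero_add, zero_div, add_zero] at h
  refine h.trans ?_
  refine mul_le_mul_of_nonneg_left (le_of_eq ?_) (Nat.cast_nonneg K)
  rw [← Finset.sum_range_reflect (fun k => P10E f v (k + 1) j)]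
  refine Finset.sum_congr rfl fun k hk => ?_
  have hk' := Finset.mem_range.mp hk
  have h1 : K - 1 - k + 1 = K - k := by omega
  rw [P10E, h1]
  refine Finset.sum_congr rfl fun i _ => ?_
  rw [Complex.norm_real, Real.norm_eq_abs, sq_abs]
  have h2 : (2 : ℝ) ^ K = 2 ^ (K - k) * 2 ^ k := by
    rw [← pow_add]
    congr 1
    omega
  have h3 : (2 : ℝ) ^ (K - k) ≠ 0 := by positivity
  have h4 : (2 : ℝ) ^ k ≠ 0 := by positivity
  have h5 : (((i * 2 ^ k : ℕ) : ℝ)) / 2 ^ K = i / 2 ^ (K - k) := by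
    rw [h2]
    push_cast
    field_simp
  have h6 : ((((i * 2 ^ k : ℕ) : ℝ)) + ((2 ^ k : ℕ) : ℝ)) / 2 ^ K
      = i / 2 ^ (K - k) + 1 / 2 ^ (K - k) := by
    rw [h2]
    push_cast
    field_simp
  rw [h5, h6, ← add_assoc]

lemma P10_one (f : ℝ → ℝ) (v : ℝ) (I K : ℕ) (A R w : ℝ) (ha : |f v| ≤ A)
    (hR : ∀ u u' : ℝ, v ≤ u → u ≤ u' → u' ≤ w → u' ≤ u + 1 / 2 ^ K → |f u' - f u| ≤ R)
    (hw0 : v ≤ w) (hw1 : w ≤ v + I + 1) :
    (f w) ^ 2 ≤ 4 * (A ^ 2 + R ^ 2 + ((I : ℝ) + 1) * ((K : ℝ) + 1) *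
      ∑ k ∈ Finset.range (K + 1), ∑ j ∈ Finset.range (I + 1), P10E f v k j) := by
  have h2K : (0 : ℝ) < 2 ^ K := by positivity
  set j : ℕ := ⌊w - v⌋₊ with hj
  have hj1 : (j : ℝ) ≤ w - v := Nat.floor_le (by linarith)
  have hj2 : w - v < j + 1 := Nat.lt_floor_add_one _
  set m : ℕ := ⌊(w - v - j) * 2 ^ K⌋₊ with hmdef
  have hm1 : (m : ℝ) ≤ (w - v - j) * 2 ^ K :=
    Nat.floor_le (mul_nonneg (by linarith) h2K.le)
  have hm2 : (w - v - j) * 2 ^ K < m + 1 := Nat.lt_floor_add_one _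
  have hm3 : m < 2 ^ K := by
    have h1 : (m : ℝ) < 2 ^ K := by
      refine hm1.trans_lt ?_
      have : w - v - j < 1 := by linarith
      nlinarith
    exact_mod_cast h1
  have hm4 : (m : ℝ) / 2 ^ K ≤ w - v - j := (div_le_iff₀ h2K).mpr hm1
  have hm5 : w - v - j < m / 2 ^ K + 1 / 2 ^ K := by
    rw [← add_div, lt_div_iff₀ h2K]
    exact hm2
  have hjI : j ≤ I + 1 := by
    have h1 : (j : ℝ) ≤ (I : ℝ) + 1 := by linarith
    exact_mod_cast h1
  set Θ : ℝ := ∑ k ∈ Finset.range (K + 1), ∑ j ∈ Finset.range (I + 1), P10E f v k j with hΘ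
  have hT0 : ∀ k, 0 ≤ ∑ j ∈ Finset.range (I + 1), P10E f v k j := fun k =>
    Finset.sum_nonneg fun j _ => P10E_nonneg f v k j
  have hΘ' : Θ = ∑ k ∈ Finset.range K, ∑ j ∈ Finset.range (I + 1), P10E f v (k + 1) j +
      ∑ j ∈ Finset.range (I + 1), P10E f v 0 j := by
    rw [hΘ, Finset.sum_range_succ']
  -- the second term
  have hb : (f (v + j) - f v) ^ 2 ≤ ((I : ℝ) + 1) * ∑ j ∈ Finset.range (I + 1), P10E f v 0 j := by
    have h1 : f (v + j) - f v = ∑ l ∈ Finset.range j, (f (v + (l + 1 : ℕ)) - f (v + (l : ℕ))) := by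
      rw [Finset.sum_range_sub (fun l : ℕ => f (v + (l : ℝ)))]
      simp
    have h2 : (∑ l ∈ Finset.range j, (f (v + (l + 1 : ℕ)) - f (v + (l : ℕ)))) ^ 2
        ≤ (j : ℝ) * ∑ l ∈ Finset.range j, (f (v + (l + 1 : ℕ)) - f (v + (l : ℕ))) ^ 2 := by
      have := sq_sum_le_card_mul_sum_sq (s := Finset.range j)
        (f := fun l : ℕ => f (v + (l + 1 : ℕ)) - f (v + (l : ℕ)))
      rwa [Finset.card_range] at this
    rw [h1]
    refine h2.trans ?_
    have h3 : ∀ l : ℕ, (f (v + (l + 1 : ℕ)) - f (v + (l : ℕ))) ^ 2 = P10E f v 0 l := by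
      intro l
      simp only [P10E, pow_zero, Finset.range_one, Finset.sum_singleton, Nat.cast_zero,
        add_zero, div_one, Nat.cast_add, Nat.cast_one, ← add_assoc]
    simp_rw [h3]
    have h4 : ∑ l ∈ Finset.range j, P10E f v 0 l ≤ ∑ l ∈ Finset.range (I + 1), P10E f v 0 l :=
      Finset.sum_le_sum_of_subset_of_nonneg (Finset.range_subset_range.mpr hjI)
        fun l _ _ => P10E_nonneg f v 0 l
    have h5 : (j : ℝ) ≤ (I : ℝ) + 1 := by exact_mod_cast hjI
    exact mul_le_mul h5 h4 (Finset.sum_nonneg fun l _ => P10E_nonneg f v 0 l) (by positivity)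
  -- the third term
  have hc : (f (v + j + m / 2 ^ K) - f (v + j)) ^ 2
      ≤ (K : ℝ) * ∑ k ∈ Finset.range K, ∑ j ∈ Finset.range (I + 1), P10E f v (k + 1) j := by
    rcases Nat.lt_or_ge j (I + 1) with hjlt | hjge
    · refine (P10_chain f v j K m hm3).trans ?_
      refine mul_le_mul_of_nonneg_left (Finset.sum_le_sum fun k _ => ?_) (Nat.cast_nonneg K)
      exact Finset.single_le_sum (f := fun j => P10E f v (k + 1) j)
        (fun l _ => P10E_nonneg f v (k + 1) l) (Finset.mem_range.mpr hjlt)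
    · have h1 : (j : ℝ) = (I : ℝ) + 1 := by
        have : j = I + 1 := le_antisymm hjI hjge
        rw [this]
        push_cast
        ring
      have h2 : (m : ℝ) / 2 ^ K ≤ 0 := by linarith
      have h3 : (0 : ℝ) ≤ (m : ℝ) / 2 ^ K := by positivity
      have h4 : (m : ℝ) / 2 ^ K = 0 := le_antisymm h2 h3
      rw [h4, add_zero, sub_self, zero_pow two_ne_zero]
      exact mul_nonneg (Nat.cast_nonneg K) (Finset.sum_nonneg fun k _ => hT0 (k + 1))
  -- the fourth term
  have hd : |f w - f (v + j + m / 2 ^ K)| ≤ R := by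
    have h3 : (0 : ℝ) ≤ (m : ℝ) / 2 ^ K := by positivity
    have h4 : (0 : ℝ) ≤ (j : ℝ) := Nat.cast_nonneg j
    exact hR _ _ (by linarith) (by linarith) le_rfl (by linarith)
  have hsum : f w = f v + (f (v + j) - f v) + (f (v + j + m / 2 ^ K) - f (v + j)) +
      (f w - f (v + j + m / 2 ^ K)) := by ring
  have ha2 : (f v) ^ 2 ≤ A ^ 2 := sq_le_sq' (by linarith [(abs_le.mp ha).1]) (abs_le.mp ha).2
  have hd2 : (f w - f (v + j + m / 2 ^ K)) ^ 2 ≤ R ^ 2 :=
    sq_le_sq' (by linarith [(abs_le.mp hd).1]) (abs_le.mp hd).2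
  have h4 : (f w) ^ 2 ≤ 4 * ((f v) ^ 2 + (f (v + j) - f v) ^ 2 +
      (f (v + j + m / 2 ^ K) - f (v + j)) ^ 2 + (f w - f (v + j + m / 2 ^ K)) ^ 2) := by
    rw [hsum]
    generalize f v = a
    generalize f (v + j) = b
    generalize f (v + j + m / 2 ^ K) = c
    generalize f w = d
    nlinarith [sq_nonneg (a - (b - a)), sq_nonneg (a - (c - b)), sq_nonneg (a - (d - c)),
      sq_nonneg ((b - a) - (c - b)), sq_nonneg ((b - a) - (d - c)), sq_nonneg ((c - b) - (d - c))]
  have h5 : ((I : ℝ) + 1) * ∑ j ∈ Finset.range (I + 1), P10E f v 0 j +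
      (K : ℝ) * ∑ k ∈ Finset.range K, ∑ j ∈ Finset.range (I + 1), P10E f v (k + 1) j
      ≤ ((I : ℝ) + 1) * ((K : ℝ) + 1) * Θ := by
    rw [hΘ']
    have h6 := hT0 0
    have h7 : 0 ≤ ∑ k ∈ Finset.range K, ∑ j ∈ Finset.range (I + 1), P10E f v (k + 1) j :=
      Finset.sum_nonneg fun k _ => hT0 (k + 1)
    have hI0 : (0 : ℝ) ≤ I := Nat.cast_nonneg I
    have hK0 : (0 : ℝ) ≤ K := Nat.cast_nonneg K
    generalize ∑ j ∈ Finset.range (I + 1), P10E f v 0 j = a at h6 ⊢
    generalize ∑ k ∈ Finset.range K, ∑ j ∈ Finset.range (I + 1), P10E f v (k + 1) j = b at h7 ⊢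
    have h8 : (K : ℝ) * b ≤ ((I : ℝ) + 1) * ((K : ℝ) + 1) * b := by
      refine mul_le_mul_of_nonneg_right ?_ h7
      nlinarith
    have h9 : ((I : ℝ) + 1) * a ≤ ((I : ℝ) + 1) * ((K : ℝ) + 1) * a := by
      refine mul_le_mul_of_nonneg_right ?_ h6
      nlinarith
    linarith
  linarith

/-- P10. The maximal inequality on a randomly shifted dyadic grid (see the hints). -/
lemma maximal_shift {ι : Type*} (S : Finset ι) (f : ι → ℝ → ℝ) (u0 : ℝ) (I K : ℕ) (B : ℝ)
    (R A : ι → ℝ) (w : ι → ℝ) (hB0 : 0 ≤ B)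
    (hint : ∀ i ∈ S, ∀ h : ℝ, ∀ a b : ℝ,
      IntervalIntegrable (fun u => (f i (u + h) - f i u) ^ 2) volume a b)
    (hA : ∀ i ∈ S, ∀ θ : ℝ, 0 ≤ θ → θ ≤ 1 → |f i (u0 + θ)| ≤ A i)
    (hR : ∀ i ∈ S, ∀ u u' : ℝ, u0 ≤ u → u ≤ u' → u' ≤ u0 + I + 2 → u' ≤ u + 1 / 2 ^ K →
      |f i u' - f i u| ≤ R i)
    (hB : ∀ k : ℕ, k ≤ K → ∀ j : ℕ, j ≤ I → ∫ u in (u0 + j)..(u0 + j + 2),
      ∑ i ∈ S, (f i (u + 1 / 2 ^ k) - f i u) ^ 2 ≤ (1 / 2 ^ k) * B)
    (hw : ∀ i ∈ S, u0 + 1 ≤ w i ∧ w i ≤ u0 + I + 1) :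
    ∑ i ∈ S, (f i (w i)) ^ 2
      ≤ 4 * (∑ i ∈ S, (A i) ^ 2 + ∑ i ∈ S, (R i) ^ 2 + ((I : ℝ) + 1) ^ 2 * ((K : ℝ) + 1) ^ 2 * B) := by
  set G : ℕ → ℝ → ℝ := fun k u => ∑ i ∈ S, (f i (u + 1 / 2 ^ k) - f i u) ^ 2 with hG
  have hG0 : ∀ k u, 0 ≤ G k u := fun k u => Finset.sum_nonneg fun _ _ => sq_nonneg _
  have hGint : ∀ (k : ℕ) (a b : ℝ), IntervalIntegrable (G k) volume a b := by
    intro k a b
    have h := IntervalIntegrable.sum S (f := fun i u => (f i (u + 1 / 2 ^ k) - f i u) ^ 2)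
      (fun i hi => hint i hi (1 / 2 ^ k) a b)
    refine h.congr ?_
    exact fun u _ => by simp [hG, Finset.sum_apply]
  set c : ℕ → ℕ → ℕ → ℝ := fun k j m => u0 + j + m / 2 ^ k with hc
  have hshift : ∀ (k j m : ℕ), IntervalIntegrable (fun t => G k (t + c k j m)) volume 0 1 := by
    intro k j m
    have h := (hGint k (0 + c k j m) (1 + c k j m)).comp_add_right (c k j m)
    simpa using h
  set Θ : ℝ → ℝ := fun t => ∑ k ∈ Finset.range (K + 1), ∑ j ∈ Finset.range (I + 1),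
    ∑ m ∈ Finset.range (2 ^ k), G k (t + c k j m) with hΘ
  have hone : ∀ k ∈ Finset.range (K + 1), ∀ j ∈ Finset.range (I + 1),
      ∀ m ∈ Finset.range (2 ^ k), ∫ t in (0 : ℝ)..1, G k (t + c k j m) ≤ (1 / 2 ^ k) * B := by
    intro k hk j hj m hm
    have hk' := Finset.mem_range.mp hk
    have hj' := Finset.mem_range.mp hj
    have hm' := Finset.mem_range.mp hm
    rw [intervalIntegral.integral_comp_add_right]
    refine le_trans ?_ (hB k (by omega) j (by omega))
    have h2 : (0 : ℝ) < 2 ^ k := by positivity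
    have h3 : (m : ℝ) / 2 ^ k ≤ 1 := by
      rw [div_le_one h2]
      exact_mod_cast hm'.le
    have h4 : (0 : ℝ) ≤ (m : ℝ) / 2 ^ k := by positivity
    refine intervalIntegral.integral_mono_interval ?_ ?_ ?_
      (Filter.Eventually.of_forall fun u => hG0 k u) (hGint k _ _)
    · simp only [hc]
      linarith
    · linarith
    · simp only [hc]
      linarith
  have hΘint : IntervalIntegrable Θ volume 0 1 := by
    rw [intervalIntegrable_iff_integrableOn_Ioc_of_le zero_le_one]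
    refine integrable_finsetSum _ fun k _ => integrable_finsetSum _ fun j _ =>
      integrable_finsetSum _ fun m _ => ?_
    exact (intervalIntegrable_iff_integrableOn_Ioc_of_le zero_le_one).mp (hshift k j m)
  have hΘle : ∫ t in (0 : ℝ)..1, Θ t ≤ ((K : ℝ) + 1) * ((I : ℝ) + 1) * B := by
    rw [hΘ, intervalIntegral.integral_finsetSum]
    · have h1 : ∀ k ∈ Finset.range (K + 1), ∫ t in (0 : ℝ)..1, ∑ j ∈ Finset.range (I + 1),
          ∑ m ∈ Finset.range (2 ^ k), G k (t + c k j m) ≤ ((I : ℝ) + 1) * B := by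
        intro k hk
        rw [intervalIntegral.integral_finsetSum]
        · have h2 : ∀ j ∈ Finset.range (I + 1), ∫ t in (0 : ℝ)..1,
              ∑ m ∈ Finset.range (2 ^ k), G k (t + c k j m) ≤ B := by
            intro j hj
            rw [intervalIntegral.integral_finsetSum (fun m _ => hshift k j m)]
            refine (Finset.sum_le_sum (hone k hk j hj)).trans ?_
            rw [Finset.sum_const, Finset.card_range, nsmul_eq_mul]
            push_cast
            have h3 : (2 : ℝ) ^ k ≠ 0 := by positivity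
            field_simp
            exact le_rfl
          refine (Finset.sum_le_sum h2).trans ?_
          rw [Finset.sum_const, Finset.card_range, nsmul_eq_mul]
          push_cast
          exact le_rfl
        · intro j _
          rw [intervalIntegrable_iff_integrableOn_Ioc_of_le zero_le_one]
          exact integrable_finsetSum _ fun m _ =>
            (intervalIntegrable_iff_integrableOn_Ioc_of_le zero_le_one).mp (hshift k j m)
      refine (Finset.sum_le_sum h1).trans ?_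
      rw [Finset.sum_const, Finset.card_range, nsmul_eq_mul]
      push_cast
      rw [mul_assoc]
    · intro k _
      rw [intervalIntegrable_iff_integrableOn_Ioc_of_le zero_le_one]
      exact integrable_finsetSum _ fun j _ => integrable_finsetSum _ fun m _ =>
        (intervalIntegrable_iff_integrableOn_Ioc_of_le zero_le_one).mp (hshift k j m)
  obtain ⟨t, ht, htΘ⟩ : ∃ t ∈ Set.Ioc (0 : ℝ) 1, Θ t ≤ ((K : ℝ) + 1) * ((I : ℝ) + 1) * B := by
    obtain ⟨t, ht, h1⟩ := exists_le_setAverage (μ := volume) (s := Set.Ioc (0 : ℝ) 1) (f := Θ)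
      (by simp) (by simp)
      ((intervalIntegrable_iff_integrableOn_Ioc_of_le zero_le_one).mp hΘint)
    refine ⟨t, ht, h1.trans ?_⟩
    rw [setAverage_eq, ← intervalIntegral.integral_of_le zero_le_one]
    simpa using hΘle
  have hmain : ∀ i ∈ S, (f i (w i)) ^ 2 ≤ 4 * ((A i) ^ 2 + (R i) ^ 2 +
      ((I : ℝ) + 1) * ((K : ℝ) + 1) * ∑ k ∈ Finset.range (K + 1), ∑ j ∈ Finset.range (I + 1),
        P10E (f i) (u0 + t) k j) := by
    intro i hi
    obtain ⟨hw1, hw2⟩ := hw i hi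
    refine P10_one (f i) (u0 + t) I K (A i) (R i) (w i) (hA i hi t ht.1.le ht.2) ?_ ?_ ?_
    · intro u u' h1 h2 h3 h4
      exact hR i hi u u' (by linarith [ht.1]) h2 (by linarith) h4
    · linarith [ht.2]
    · linarith [ht.1]
  refine (Finset.sum_le_sum hmain).trans ?_
  rw [← Finset.mul_sum, Finset.sum_add_distrib, Finset.sum_add_distrib, ← Finset.mul_sum]
  have hswap : ∑ i ∈ S, ∑ k ∈ Finset.range (K + 1), ∑ j ∈ Finset.range (I + 1),
      P10E (f i) (u0 + t) k j = Θ t := by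
    rw [Finset.sum_comm]
    refine Finset.sum_congr rfl fun k _ => ?_
    rw [Finset.sum_comm]
    refine Finset.sum_congr rfl fun j _ => ?_
    simp only [P10E]
    rw [Finset.sum_comm]
    refine Finset.sum_congr rfl fun m _ => ?_
    simp only [hG, hc]
    refine Finset.sum_congr rfl fun i _ => ?_
    have h1 : t + (u0 + (j : ℝ) + (m : ℝ) / 2 ^ k) = u0 + t + j + m / 2 ^ k := by ring
    rw [h1]
  rw [hswap]
  have h1 : ((I : ℝ) + 1) * ((K : ℝ) + 1) * Θ t
      ≤ ((I : ℝ) + 1) ^ 2 * ((K : ℝ) + 1) ^ 2 * B := by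
    refine (mul_le_mul_of_nonneg_left htΘ (by positivity)).trans_eq ?_
    ring
  linarith

/-! ### Part 11 -/

/-- cumulative sum behind `Bq` -/
noncomputable def P11Cum (q : ℕ) (x : ℝ) : ℝ :=
  ∑ n ∈ (Finset.Icc 1 ⌊x⌋₊).filter (fun n => ¬ Nat.Coprime n q), ArithmeticFunction.vonMangoldt n

lemma P11_Bq_eq (q : ℕ) (x y : ℝ) (hxy : x ≤ y) : Bq q x y = P11Cum q y - P11Cum q x := by
  have hfl : ⌊x⌋₊ ≤ ⌊y⌋₊ := Nat.floor_le_floor hxy
  unfold Bq P11Cum
  have h2 : (Finset.Icc 1 ⌊y⌋₊).filter (fun n => ¬ Nat.Coprime n q)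
      = (Finset.Icc 1 ⌊x⌋₊).filter (fun n => ¬ Nat.Coprime n q)
        ∪ (Finset.Ioc ⌊x⌋₊ ⌊y⌋₊).filter (fun n => ¬ Nat.Coprime n q) := by
    rw [← Finset.filter_union]
    congr 1
    ext n
    simp only [Finset.mem_Icc, Finset.mem_Ioc, Finset.mem_union]
    omega
  rw [h2, Finset.sum_union]
  · ring
  · rw [Finset.disjoint_left]
    intro n hn hn'
    simp only [Finset.mem_filter, Finset.mem_Icc, Finset.mem_Ioc] at hn hn'
    omega

lemma P11Cum_mono (q : ℕ) : Monotone (P11Cum q) := by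
  intro x y hxy
  unfold P11Cum
  refine Finset.sum_le_sum_of_subset_of_nonneg ?_ (fun _ _ _ => ArithmeticFunction.vonMangoldt_nonneg)
  apply Finset.filter_subset_filter
  apply Finset.Icc_subset_Icc le_rfl
  exact Nat.floor_le_floor hxy

lemma P11Cum_nonneg (q : ℕ) (x : ℝ) : 0 ≤ P11Cum q x := by
  unfold P11Cum
  exact Finset.sum_nonneg fun _ _ => ArithmeticFunction.vonMangoldt_nonneg

lemma P11_Bq_int (q : ℕ) (h a b : ℝ) (hh : 0 ≤ h) :
    IntervalIntegrable (fun u => (Bq q (Real.exp u) (Real.exp (u + h))) ^ 2) volume a b := by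
  have h0 : (fun u => (Bq q (Real.exp u) (Real.exp (u + h))) ^ 2)
      = fun u => (P11Cum q (Real.exp (u + h)) - P11Cum q (Real.exp u)) ^ 2 := by
    ext u
    rw [P11_Bq_eq q _ _ (Real.exp_le_exp.mpr (by linarith))]
  rw [h0, intervalIntegrable_iff]
  set K : ℝ := P11Cum q (Real.exp (max a b + h)) with hK
  have hm := (P11Cum_mono q).measurable
  refine Measure.integrableOn_of_bounded (M := (K + K) ^ 2) ?_ ?_ ?_
  · rw [Set.uIoc, Real.volume_Ioc]
    exact ENNReal.ofReal_ne_top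
  · have h1 : Measurable fun u : ℝ => P11Cum q (Real.exp (u + h)) :=
      hm.comp (Real.measurable_exp.comp (measurable_id.add_const h))
    have h2 : Measurable fun u : ℝ => P11Cum q (Real.exp u) :=
      hm.comp Real.measurable_exp
    exact ((h1.sub h2).pow_const 2).aestronglyMeasurable
  · refine (ae_restrict_iff' measurableSet_uIoc).2 (Filter.Eventually.of_forall fun u hu => ?_)
    have hu2 : u ≤ max a b := hu.2
    have e1 : P11Cum q (Real.exp (u + h)) ≤ K :=
      P11Cum_mono q (Real.exp_le_exp.2 (by linarith))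
    have e2 : P11Cum q (Real.exp u) ≤ K :=
      P11Cum_mono q (Real.exp_le_exp.2 (by linarith))
    have e3 := P11Cum_nonneg q (Real.exp (u + h))
    have e4 := P11Cum_nonneg q (Real.exp u)
    rw [Real.norm_of_nonneg (by positivity)]
    exact sq_le_sq' (by linarith) (by linarith)

lemma P11_sumfun {ι : Type*} (S : Finset ι) (f : ι → ℝ → ℝ) :
    ∑ i ∈ S, f i = fun u => ∑ i ∈ S, f i u := by
  ext u
  rw [Finset.sum_apply]

/-- one modulus -/
lemma P11_q (q : ℕ) [NeZero q] (h : ℝ) (hh : 0 ≤ h) (a b : ℝ) (hab : a ≤ b) :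
    IntervalIntegrable (fun u => ∑ a ∈ (Finset.Icc 1 q).filter (fun a => Nat.Coprime a q),
      (errR (Real.exp (u + h)) q a - errR (Real.exp u) q a) ^ 2) volume a b ∧
    ∫ u in a..b, ∑ a ∈ (Finset.Icc 1 q).filter (fun a => Nat.Coprime a q),
      (errR (Real.exp (u + h)) q a - errR (Real.exp u) q a) ^ 2
      ≤ 2 * ((1 / (q.totient : ℝ)) * ∑ r ∈ q.divisors, pSum r (fun χ => ∫ u in a..b,
          ‖EX r χ (Real.exp (u + h)) - EX r χ (Real.exp u)‖ ^ 2))
        + 2 * ∫ u in a..b, (Bq q (Real.exp u) (Real.exp (u + h))) ^ 2 := by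
  have hφ : (0 : ℝ) < Nat.totient q := by
    exact_mod_cast Nat.totient_pos.mpr (Nat.pos_of_ne_zero (NeZero.ne q))
  have e0 : (fun u => ∑ a ∈ (Finset.Icc 1 q).filter (fun a => Nat.Coprime a q),
      (errR (Real.exp (u + h)) q a - errR (Real.exp u) q a) ^ 2)
      = fun u => (1 / (q.totient : ℝ)) * ∑ χ : DirichletCharacter ℂ q,
        ‖EX q χ (Real.exp (u + h)) - EX q χ (Real.exp u)‖ ^ 2 := by
    ext u
    exact sum_sq_inc q _ _
  have hI : IntervalIntegrable (fun u => (1 / (q.totient : ℝ)) * ∑ χ : DirichletCharacter ℂ q,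
        ‖EX q χ (Real.exp (u + h)) - EX q χ (Real.exp u)‖ ^ 2) volume a b := by
    apply IntervalIntegrable.const_mul
    have := IntervalIntegrable.sum (μ := volume) (a := a) (b := b)
      (Finset.univ : Finset (DirichletCharacter ℂ q))
      (f := fun χ u => ‖EX q χ (Real.exp (u + h)) - EX q χ (Real.exp u)‖ ^ 2)
      (fun χ _ => EX_int q χ h a b)
    rw [P11_sumfun] at this
    exact this
  refine ⟨by rw [e0]; exact hI, ?_⟩
  rw [e0]
  have hI2 : IntervalIntegrable (fun u => 2 * ((1 / (q.totient : ℝ)) *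
      ∑ χ : DirichletCharacter ℂ q, ‖EX χ.conductor χ.primitiveCharacter (Real.exp (u + h))
        - EX χ.conductor χ.primitiveCharacter (Real.exp u)‖ ^ 2)) volume a b := by
    apply IntervalIntegrable.const_mul
    apply IntervalIntegrable.const_mul
    have := IntervalIntegrable.sum (μ := volume) (a := a) (b := b)
      (Finset.univ : Finset (DirichletCharacter ℂ q))
      (f := fun χ u => ‖EX χ.conductor χ.primitiveCharacter (Real.exp (u + h))
        - EX χ.conductor χ.primitiveCharacter (Real.exp u)‖ ^ 2)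
      (fun χ _ => EX_int χ.conductor χ.primitiveCharacter h a b)
    rw [P11_sumfun] at this
    exact this
  have hI3 : IntervalIntegrable (fun u => 2 * (Bq q (Real.exp u) (Real.exp (u + h))) ^ 2)
      volume a b := (P11_Bq_int q h a b hh).const_mul 2
  have hpt : ∀ u : ℝ, (1 / (q.totient : ℝ)) * ∑ χ : DirichletCharacter ℂ q,
        ‖EX q χ (Real.exp (u + h)) - EX q χ (Real.exp u)‖ ^ 2
      ≤ 2 * ((1 / (q.totient : ℝ)) *
      ∑ χ : DirichletCharacter ℂ q, ‖EX χ.conductor χ.primitiveCharacter (Real.exp (u + h))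
        - EX χ.conductor χ.primitiveCharacter (Real.exp u)‖ ^ 2)
        + 2 * (Bq q (Real.exp u) (Real.exp (u + h))) ^ 2 := by
    intro u
    have h1 : ∑ χ : DirichletCharacter ℂ q, ‖EX q χ (Real.exp (u + h)) - EX q χ (Real.exp u)‖ ^ 2
        ≤ ∑ χ : DirichletCharacter ℂ q, (2 * ‖EX χ.conductor χ.primitiveCharacter (Real.exp (u + h))
        - EX χ.conductor χ.primitiveCharacter (Real.exp u)‖ ^ 2
          + 2 * (Bq q (Real.exp u) (Real.exp (u + h))) ^ 2) := by
      refine Finset.sum_le_sum fun χ _ => ?_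
      have h2 := EX_prim q χ (Real.exp u) (Real.exp (u + h)) (Real.exp_pos _).le
        (Real.exp_le_exp.mpr (by linarith))
      set z := EX q χ (Real.exp (u + h)) - EX q χ (Real.exp u)
      set w := EX χ.conductor χ.primitiveCharacter (Real.exp (u + h))
        - EX χ.conductor χ.primitiveCharacter (Real.exp u)
      have h3 : ‖z‖ ≤ ‖w‖ + ‖z - w‖ := by
        calc ‖z‖ = ‖w + (z - w)‖ := by congr 1; ring
          _ ≤ _ := norm_add_le _ _
      have h4 := norm_nonneg w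
      have h5 := norm_nonneg z
      have h6 : ‖z‖ ≤ ‖w‖ + Bq q (Real.exp u) (Real.exp (u + h)) := by linarith
      nlinarith [sq_nonneg (‖w‖ - Bq q (Real.exp u) (Real.exp (u + h)))]
    have h7 : (Fintype.card (DirichletCharacter ℂ q) : ℝ) = q.totient := by
      rw [← Nat.card_eq_fintype_card, DirichletCharacter.card_eq_totient_of_hasEnoughRootsOfUnity]
    rw [Finset.sum_add_distrib, ← Finset.mul_sum, Finset.sum_const, Finset.card_univ, nsmul_eq_mul,
      h7] at h1
    calc (1 / (q.totient : ℝ)) * ∑ χ : DirichletCharacter ℂ q,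
        ‖EX q χ (Real.exp (u + h)) - EX q χ (Real.exp u)‖ ^ 2
        ≤ (1 / (q.totient : ℝ)) * (2 * ∑ χ : DirichletCharacter ℂ q,
          ‖EX χ.conductor χ.primitiveCharacter (Real.exp (u + h))
          - EX χ.conductor χ.primitiveCharacter (Real.exp u)‖ ^ 2
          + q.totient * (2 * (Bq q (Real.exp u) (Real.exp (u + h))) ^ 2)) := by
          apply mul_le_mul_of_nonneg_left h1
          positivity
      _ = _ := by
          field_simp
  calc ∫ u in a..b, (1 / (q.totient : ℝ)) * ∑ χ : DirichletCharacter ℂ q,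
        ‖EX q χ (Real.exp (u + h)) - EX q χ (Real.exp u)‖ ^ 2
      ≤ ∫ u in a..b, (2 * ((1 / (q.totient : ℝ)) *
      ∑ χ : DirichletCharacter ℂ q, ‖EX χ.conductor χ.primitiveCharacter (Real.exp (u + h))
        - EX χ.conductor χ.primitiveCharacter (Real.exp u)‖ ^ 2)
        + 2 * (Bq q (Real.exp u) (Real.exp (u + h))) ^ 2) :=
        intervalIntegral.integral_mono hab hI (hI2.add hI3) hpt
    _ = 2 * ((1 / (q.totient : ℝ)) * ∑ χ : DirichletCharacter ℂ q, ∫ u in a..b,
        ‖EX χ.conductor χ.primitiveCharacter (Real.exp (u + h))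
        - EX χ.conductor χ.primitiveCharacter (Real.exp u)‖ ^ 2)
        + 2 * ∫ u in a..b, (Bq q (Real.exp u) (Real.exp (u + h))) ^ 2 := by
        rw [intervalIntegral.integral_add hI2 hI3, intervalIntegral.integral_const_mul,
          intervalIntegral.integral_const_mul, intervalIntegral.integral_const_mul,
          intervalIntegral.integral_finsetSum (fun χ _ => EX_int _ _ h a b)]
    _ ≤ _ := by
        have h8 := sum_char_le_pSum q (fun r χ => ∫ u in a..b,
          ‖EX r χ (Real.exp (u + h)) - EX r χ (Real.exp u)‖ ^ 2)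
          (fun r χ => intervalIntegral.integral_nonneg hab (fun u _ => by positivity))
        gcongr

lemma P11_log_pow (k : ℕ) (ε : ℝ) (hε : 0 < ε) : ∃ C : ℝ, 0 ≤ C ∧ ∀ Y : ℝ, 1 ≤ Y →
    (5 + Real.log Y) ^ k ≤ C * Y ^ ε := by
  set δ : ℝ := ε / (k + 1) with hδ
  have hk : (0 : ℝ) < k + 1 := by positivity
  have hδ0 : 0 < δ := div_pos hε hk
  refine ⟨(5 + 1 / δ) ^ k, by positivity, fun Y hY => ?_⟩
  have h1 := Real.log_le_rpow_div (by linarith : 0 ≤ Y) hδ0
  have h2 : 1 ≤ Y ^ δ := Real.one_le_rpow hY hδ0.le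
  have h3 : 5 + Real.log Y ≤ (5 + 1 / δ) * Y ^ δ := by
    have : Y ^ δ / δ = (1 / δ) * Y ^ δ := by ring
    rw [this] at h1
    nlinarith
  have h4 : 0 ≤ Real.log Y := Real.log_nonneg hY
  calc (5 + Real.log Y) ^ k ≤ ((5 + 1 / δ) * Y ^ δ) ^ k := by gcongr
    _ = (5 + 1 / δ) ^ k * (Y ^ δ) ^ k := by rw [mul_pow]
    _ ≤ (5 + 1 / δ) ^ k * Y ^ ε := by
        gcongr
        rw [← Real.rpow_natCast, ← Real.rpow_mul (by linarith)]
        apply Real.rpow_le_rpow_of_exponent_le hY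
        rw [hδ, div_mul_eq_mul_div, div_le_iff₀ hk]
        nlinarith

/-- P11. Second moment of the increments over all classes, from `Inc`. -/
lemma inc_all (η : ℝ) (hη0 : 0 ≤ η) (hη1 : η ≤ 1 / 4) (hI : Inc η) (ε : ℝ) (hε : 0 < ε) :
    ∃ C : ℝ, 0 ≤ C ∧ ∀ Y : ℝ, 1 ≤ Y → ∀ X : ℝ, 2 ≤ X → Real.sqrt Y ≤ X → X ≤ 9 * Y →
      ∀ h : ℝ, 0 < h → h ≤ 1 →
      ∫ u in (Real.log X - 1)..(Real.log X), ∑ q ∈ Finset.Icc 1 ⌊Real.sqrt Y⌋₊,
        ∑ a ∈ (Finset.Icc 1 q).filter (fun a => Nat.Coprime a q),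
          (errR (Real.exp (u + h)) q a - errR (Real.exp u) q a) ^ 2
        ≤ C * h * Y ^ (3 / 2 + 2 * η + ε) := by
  obtain ⟨CI, hCI0, hCI⟩ := hI (ε / 4) (by linarith)
  obtain ⟨C5, hC50, hC5⟩ := sum_moduli (ε / 4) (by linarith)
  obtain ⟨C7, hC70, hC7⟩ := Bq_mean
  obtain ⟨CL, hCL0, hCL⟩ := P11_log_pow 6 (ε / 4) (by linarith)
  refine ⟨2 * (C5 * (2 * CL * (CI * 9 ^ (1 + 2 * η + ε / 4) * 4))) + 2 * (C7 * CL), by positivity, ?_⟩
  intro Y hY X hX hYX hXY h hh0 hh1
  have hab : Real.log X - 1 ≤ Real.log X := by linarith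
  set Q : ℕ := ⌊Real.sqrt Y⌋₊ with hQ
  have hY0 : 0 < Y := by linarith
  have hX0 : 0 < X := by linarith
  have hsY : 0 ≤ Real.sqrt Y := Real.sqrt_nonneg Y
  have hsY1 : 1 ≤ Real.sqrt Y := Real.one_le_sqrt.mpr hY
  have hQle : (Q : ℝ) ≤ Real.sqrt Y := Nat.floor_le hsY
  have hsYY : Real.sqrt Y ≤ Y := by
    rw [Real.sqrt_le_left hY0.le]
    nlinarith
  have hlogY : 0 ≤ Real.log Y := Real.log_nonneg hY
  have hL1 : 1 ≤ 5 + Real.log Y := by linarith
  have hL6 := hCL Y hY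
  have hYe : 1 ≤ Y ^ (ε / 4) := Real.one_le_rpow hY (by linarith)
  set G : (r : ℕ) → DirichletCharacter ℂ r → ℝ := fun r χ => ∫ u in (Real.log X - 1)..(Real.log X),
          ‖EX r χ (Real.exp (u + h)) - EX r χ (Real.exp u)‖ ^ 2 with hG
  have hG0 : ∀ r χ, 0 ≤ G r χ := fun r χ =>
    intervalIntegral.integral_nonneg hab (fun u _ => by positivity)
  have hp0 : ∀ r, 0 ≤ pSum r (G r) := fun r => finsum_nonneg fun χ => hG0 r χ.1
  -- step 1 : interchange
  have s1 : ∫ u in (Real.log X - 1)..(Real.log X), ∑ q ∈ Finset.Icc 1 Q,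
        ∑ a ∈ (Finset.Icc 1 q).filter (fun a => Nat.Coprime a q),
          (errR (Real.exp (u + h)) q a - errR (Real.exp u) q a) ^ 2
      = ∑ q ∈ Finset.Icc 1 Q, ∫ u in (Real.log X - 1)..(Real.log X),
        ∑ a ∈ (Finset.Icc 1 q).filter (fun a => Nat.Coprime a q),
          (errR (Real.exp (u + h)) q a - errR (Real.exp u) q a) ^ 2 := by
    rw [intervalIntegral.integral_finsetSum]
    intro q hq
    rw [Finset.mem_Icc] at hq
    have : NeZero q := ⟨by omega⟩
    exact (P11_q q h hh0.le _ _ hab).1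
  rw [s1]
  -- step 2
  have s2 : ∑ q ∈ Finset.Icc 1 Q, ∫ u in (Real.log X - 1)..(Real.log X),
        ∑ a ∈ (Finset.Icc 1 q).filter (fun a => Nat.Coprime a q),
          (errR (Real.exp (u + h)) q a - errR (Real.exp u) q a) ^ 2
      ≤ ∑ q ∈ Finset.Icc 1 Q, (2 * ((1 / (q.totient : ℝ)) * ∑ r ∈ q.divisors, pSum r (G r))
        + 2 * (C7 * h * (5 + Real.log Y) ^ 6)) := by
    refine Finset.sum_le_sum fun q hq => ?_
    rw [Finset.mem_Icc] at hq
    have : NeZero q := ⟨by omega⟩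
    have h1 := (P11_q q h hh0.le _ _ hab).2
    refine h1.trans ?_
    have h2 := hC7 q hq.1 X hX h hh0 hh1
    have hq1 : (1 : ℝ) ≤ q := by exact_mod_cast hq.1
    have hqY : (q : ℝ) ≤ Y := by
      have : (q : ℝ) ≤ Q := by exact_mod_cast hq.2
      linarith
    have hlq0 : 0 ≤ Real.log q := Real.log_nonneg hq1
    have hlq : 1 + Real.log q ≤ 5 + Real.log Y := by
      have := Real.log_le_log (by linarith) hqY
      linarith
    have hlX : 1 + Real.log X ≤ 5 + Real.log Y := by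
      have h3 := Real.log_le_log hX0 hXY
      rw [Real.log_mul (by norm_num) hY0.ne'] at h3
      have h4 : Real.log 9 ≤ 4 := by
        have h5 : Real.log 9 ≤ Real.log (2 ^ 4) := Real.log_le_log (by norm_num) (by norm_num)
        rw [Real.log_pow] at h5
        have h6 := Real.log_two_lt_d9
        push_cast at h5
        linarith
      linarith
    have hlX0 : 0 ≤ Real.log X := Real.log_nonneg (by linarith)
    have h5 : C7 * h * (1 + Real.log q) ^ 2 * (1 + Real.log X) ^ 4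
        ≤ C7 * h * (5 + Real.log Y) ^ 6 := by
      calc C7 * h * (1 + Real.log q) ^ 2 * (1 + Real.log X) ^ 4
          ≤ C7 * h * (5 + Real.log Y) ^ 2 * (5 + Real.log Y) ^ 4 := by gcongr
        _ = _ := by ring
    have h6 := h2.trans h5
    linarith
  refine s2.trans ?_
  rw [Finset.sum_add_distrib, ← Finset.mul_sum, Finset.sum_const, Nat.card_Icc, nsmul_eq_mul]
  -- main part
  have hXpow : X ^ (1 / 2 : ℝ) ≤ 3 * Real.sqrt Y := by
    rw [← Real.sqrt_eq_rpow]
    calc Real.sqrt X ≤ Real.sqrt (9 * Y) := Real.sqrt_le_sqrt hXY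
      _ = 3 * Real.sqrt Y := by
          rw [Real.sqrt_mul (by norm_num), show (9 : ℝ) = 3 ^ 2 by norm_num,
            Real.sqrt_sq (by norm_num)]
  have s3 := hC5 Q (fun r => pSum r (G r)) hp0
  have s4 := sum_dyadic_le Q (fun r => pSum r (G r)) hp0 (X ^ (1 / 2 : ℝ))
    (CI * h * X ^ (1 + 2 * η + ε / 4)) (by positivity) (by positivity) (by
      intro F hF1 hFQ
      have hFX : (F : ℝ) ≤ X := by
        have : (F : ℝ) ≤ Q := by exact_mod_cast hFQ
        linarith
      have := hCI X hX F hF1 hFX h hh0 hh1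
      refine this.trans (le_of_eq ?_)
      ring)
  have hlogQ : ((Nat.log 2 Q : ℕ) : ℝ) + 1 ≤ 2 * (5 + Real.log Y) := by
    have h1 := Real.natLog_le_logb Q 2
    have h2 : Real.logb (2 : ℕ) Q ≤ 2 * Real.log Y := by
      rcases Nat.eq_zero_or_pos Q with h0 | h0
      · rw [h0]
        simp
        exact hlogY
      · have h3 : Real.log Q ≤ Real.log Y :=
          Real.log_le_log (by exact_mod_cast h0) (by linarith)
        rw [Real.logb, div_le_iff₀ (Real.log_pos (by norm_num))]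
        have h4 := Real.log_two_gt_d9
        push_cast
        nlinarith
    linarith
  have hQe : (Q : ℝ) ^ (ε / 4) ≤ Y ^ (ε / 4) :=
    Real.rpow_le_rpow (Nat.cast_nonneg Q) (by linarith) (by linarith)
  have hXe : X ^ (1 + 2 * η + ε / 4) ≤ 9 ^ (1 + 2 * η + ε / 4) * Y ^ (1 + 2 * η + ε / 4) := by
    rw [← Real.mul_rpow (by norm_num) hY0.le]
    exact Real.rpow_le_rpow hX0.le hXY (by linarith)
  have hL : 5 + Real.log Y ≤ CL * Y ^ (ε / 4) := by
    refine le_trans ?_ hL6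
    calc 5 + Real.log Y = (5 + Real.log Y) ^ 1 := (pow_one _).symm
      _ ≤ (5 + Real.log Y) ^ 6 := pow_le_pow_right₀ hL1 (by norm_num)
  have hsq : Real.sqrt Y = Y ^ (1 / 2 : ℝ) := Real.sqrt_eq_rpow Y
  have main : ∑ q ∈ Finset.Icc 1 Q, (1 / (q.totient : ℝ)) * ∑ r ∈ q.divisors, pSum r (G r)
      ≤ (C5 * (2 * CL * (CI * 9 ^ (1 + 2 * η + ε / 4) * 4))) * h * Y ^ (3 / 2 + 2 * η + ε) := by
    calc _ ≤ C5 * (Q : ℝ) ^ (ε / 4) * ∑ r ∈ Finset.Icc 1 Q, pSum r (G r) / r := s3
      _ ≤ C5 * Y ^ (ε / 4) * ((((Nat.log 2 Q : ℕ) : ℝ) + 1) *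
          (CI * h * X ^ (1 + 2 * η + ε / 4) * (X ^ (1 / 2 : ℝ) + Q))) := by
          gcongr
          exact Finset.sum_nonneg fun r _ => div_nonneg (hp0 r) (Nat.cast_nonneg r)
      _ ≤ C5 * Y ^ (ε / 4) * ((2 * (CL * Y ^ (ε / 4))) *
          (CI * h * (9 ^ (1 + 2 * η + ε / 4) * Y ^ (1 + 2 * η + ε / 4)) * (4 * Real.sqrt Y))) := by
          gcongr
          · linarith
          · linarith
      _ = (C5 * (2 * CL * (CI * 9 ^ (1 + 2 * η + ε / 4) * 4))) * h *
          (Y ^ (ε / 4) * Y ^ (ε / 4) * Y ^ (1 + 2 * η + ε / 4) * Y ^ (1 / 2 : ℝ)) := by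
          rw [hsq]; ring
      _ ≤ _ := by
          gcongr
          rw [← Real.rpow_add hY0, ← Real.rpow_add hY0, ← Real.rpow_add hY0]
          apply Real.rpow_le_rpow_of_exponent_le hY
          linarith
  have second : ((Q + 1 - 1 : ℕ) : ℝ) * (2 * (C7 * h * (5 + Real.log Y) ^ 6))
      ≤ (2 * (C7 * CL)) * h * Y ^ (3 / 2 + 2 * η + ε) := by
    rw [Nat.add_sub_cancel]
    calc (Q : ℝ) * (2 * (C7 * h * (5 + Real.log Y) ^ 6))
        ≤ Y ^ (1 / 2 : ℝ) * (2 * (C7 * h * (CL * Y ^ (ε / 4)))) := by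
          rw [← hsq]
          gcongr
      _ = (2 * (C7 * CL)) * h * (Y ^ (1 / 2 : ℝ) * Y ^ (ε / 4)) := by ring
      _ ≤ _ := by
          gcongr
          rw [← Real.rpow_add hY0]
          apply Real.rpow_le_rpow_of_exponent_le hY
          linarith
  calc _ ≤ 2 * ((C5 * (2 * CL * (CI * 9 ^ (1 + 2 * η + ε / 4) * 4))) * h * Y ^ (3 / 2 + 2 * η + ε))
        + (2 * (C7 * CL)) * h * Y ^ (3 / 2 + 2 * η + ε) := by
        gcongr
    _ = _ := by ring

end Pool.Agent.MC.C1
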