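import Mathlib
import Pool.Agent.Lib.MP_9cfc0a_nt.C1A

set_option autoImplicit false

namespace Pool.Agent.MC.C1

open Pool.Agent.MC MeasureTheory Real

/-! ### Part 12 -/

lemma P12_log_le (k : ℕ) (e : ℝ) (he : 0 < e) : ∃ C : ℝ, 0 < C ∧ ∀ Y : ℝ, 1 ≤ Y →
    (1 + Real.log Y) ^ k ≤ C * Y ^ e := by
  rcases Nat.eq_zero_or_pos k with hk | hk
  · subst hk
    refine ⟨1, one_pos, fun Y hY => ?_⟩
    rw [pow_zero, one_mul]
    exact Real.one_le_rpow hY he.le
  · have hkR : (0 : ℝ) < k := by exact_mod_cast hk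
    set e' : ℝ := e / k with he'
    have he'0 : 0 < e' := by positivity
    refine ⟨(1 + 1 / e') ^ k, by positivity, fun Y hY => ?_⟩
    have hY0 : 0 < Y := by linarith
    have h1 : Real.log Y ≤ Y ^ e' / e' := Real.log_le_rpow_div hY0.le he'0
    have h2 : 0 ≤ Real.log Y := Real.log_nonneg hY
    have h3 : 1 ≤ Y ^ e' := Real.one_le_rpow hY he'0.le
    calc (1 + Real.log Y) ^ k ≤ ((1 + 1 / e') * Y ^ e') ^ k := by
          apply pow_le_pow_left₀ (by linarith)
          calc 1 + Real.log Y ≤ Y ^ e' + Y ^ e' / e' := by linarith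
            _ = (1 + 1 / e') * Y ^ e' := by ring
      _ = (1 + 1 / e') ^ k * Y ^ e := by
          rw [mul_pow, ← Real.rpow_natCast (Y ^ e'), ← Real.rpow_mul hY0.le]
          congr 2
          rw [he']; field_simp

lemma P12_sum_tot (e : ℝ) (he : 0 < e) : ∃ C : ℝ, 0 ≤ C ∧ ∀ Q : ℕ, 1 ≤ Q →
    ∑ q ∈ Finset.Icc 1 Q, (q : ℝ) / (q.totient : ℝ) ^ 2 ≤ C * (Q : ℝ) ^ e := by
  obtain ⟨C, hC, h⟩ := sum_moduli (e / 2) (by positivity)
  obtain ⟨C', hC', h'⟩ := P12_log_le 1 (e / 2) (by positivity)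
  refine ⟨C * C', by positivity, fun Q hQ => ?_⟩
  have hQR : (1 : ℝ) ≤ Q := by exact_mod_cast hQ
  set g : ℕ → ℝ := fun r => (ArithmeticFunction.moebius r : ℝ) ^ 2 / (Nat.totient r : ℝ) with hg
  have h1 := h Q g (fun r => by rw [hg]; positivity)
  have h2 : ∑ q ∈ Finset.Icc 1 Q, (q : ℝ) / (q.totient : ℝ) ^ 2
      = ∑ q ∈ Finset.Icc 1 Q, (1 / (q.totient : ℝ)) * ∑ r ∈ q.divisors, g r := by
    refine Finset.sum_congr rfl fun q hq => ?_
    rw [Finset.mem_Icc] at hq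
    rw [hg, sum_moebius_sq_div_totient q (by omega)]
    ring
  rw [h2]
  refine h1.trans ?_
  have h3 : ∑ r ∈ Finset.Icc 1 Q, g r / r ≤ 1 + Real.log Q := by
    have h4 : ∑ r ∈ Finset.Icc 1 Q, g r / r ≤ ∑ r ∈ Finset.Icc 1 Q, ((r : ℝ))⁻¹ := by
      refine Finset.sum_le_sum fun r hr => ?_
      rw [Finset.mem_Icc] at hr
      have hr0 : (0 : ℝ) < r := by exact_mod_cast (by omega : 0 < r)
      have hφ : (1 : ℝ) ≤ Nat.totient r := by exact_mod_cast Nat.totient_pos.mpr (by omega)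
      have hg1 : g r ≤ 1 := by
        rw [hg]
        simp only
        rw [div_le_one (by linarith), moebius_sq]
        split_ifs
        · exact hφ
        · linarith
      rw [div_eq_mul_inv]
      calc g r * (r : ℝ)⁻¹ ≤ 1 * (r : ℝ)⁻¹ := by gcongr
        _ = _ := one_mul _
    refine h4.trans ?_
    have h5 := harmonic_le_one_add_log Q
    have h6 : ((harmonic Q : ℚ) : ℝ) = ∑ r ∈ Finset.Icc 1 Q, ((r : ℝ))⁻¹ := by
      rw [harmonic_eq_sum_Icc]; push_cast; rfl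
    rw [h6] at h5
    exact h5
  have h7 := h' Q hQR
  rw [pow_one] at h7
  calc C * (Q : ℝ) ^ (e / 2) * ∑ r ∈ Finset.Icc 1 Q, g r / r
      ≤ C * (Q : ℝ) ^ (e / 2) * (C' * (Q : ℝ) ^ (e / 2)) := by
        gcongr
        exact h3.trans h7
    _ = C * C' * (Q : ℝ) ^ e := by
        have : (Q : ℝ) ^ e = (Q : ℝ) ^ (e / 2) * (Q : ℝ) ^ (e / 2) := by
          rw [← Real.rpow_add (by linarith)]; congr 1; ring
        rw [this]; ring

lemma P12_int (q a : ℕ) (hq : 1 ≤ q) (h a' b' : ℝ) :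
    IntervalIntegrable (fun u => (errR (Real.exp (u + h)) q a - errR (Real.exp u) q a) ^ 2)
      volume a' b' := by
  have h1 : IntervalIntegrable (fun u : ℝ => (7 * Real.exp (u + h) + 7 * Real.exp u) ^ 2)
      volume a' b' := Continuous.intervalIntegrable (by fun_prop) _ _
  have hmeas : Measurable (fun t : ℝ => errR t q a) := by
    unfold errR
    exact (psiR_measurable q a).sub (by fun_prop)
  have hb : ∀ t : ℝ, 0 < t → |errR t q a| ≤ 7 * t := by
    intro t ht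
    have h2 := EC_bound q a (by omega) t
    unfold EC at h2
    rw [Complex.norm_real, Real.norm_eq_abs, abs_of_pos ht] at h2
    exact h2
  refine h1.mono_fun ?_ (Filter.Eventually.of_forall fun u => ?_)
  · apply Measurable.aestronglyMeasurable
    exact ((hmeas.comp (by fun_prop)).sub (hmeas.comp (by fun_prop))).pow_const 2
  · simp only
    rw [Real.norm_of_nonneg (sq_nonneg _), Real.norm_of_nonneg (sq_nonneg _), ← sq_abs]
    apply pow_le_pow_left₀ (abs_nonneg _)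
    refine (abs_sub _ _).trans ?_
    exact add_le_add (hb _ (Real.exp_pos _)) (hb _ (Real.exp_pos _))

/-- P12. `Inc` implies the maximal second moment bound. -/
theorem max2_of_inc (η : ℝ) (hη0 : 0 ≤ η) (hη1 : η ≤ 1 / 4) (hI : Inc η) : Max2 η := by
  classical
  intro ε hε
  obtain ⟨C1, hC1, hinc⟩ := inc_all η hη0 hη1 hI (ε / 4) (by positivity)
  obtain ⟨C2, hC2, hlog4⟩ := P12_log_le 4 (ε / 4) (by positivity)
  obtain ⟨C3, hC3, htot⟩ := P12_sum_tot (ε / 4) (by positivity)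
  obtain ⟨C4, hC4, hlog2⟩ := P12_log_le 2 (ε / 4) (by positivity)
  refine ⟨20 * (2592 * C4 * (C3 + 1)) + 1000 * C1 * C2, fun Y hY x hx => ?_⟩
  have hY0 : 0 < Y := by linarith
  have hlogY : 0 ≤ Real.log Y := Real.log_nonneg hY
  set Lg : ℝ := 1 + Real.log Y with hLg
  have hLg1 : 1 ≤ Lg := by linarith
  set Q : ℕ := ⌊Real.sqrt Y⌋₊ with hQ
  have hsY : 1 ≤ Real.sqrt Y := Real.one_le_sqrt.mpr hY
  have hQ1 : 1 ≤ Q := Nat.le_floor (by simpa using hsY)
  have hQle : (Q : ℝ) ≤ Real.sqrt Y := Nat.floor_le (by positivity)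
  have hsYrp : Real.sqrt Y = Y ^ (1 / 2 : ℝ) := Real.sqrt_eq_rpow Y
  set S := (Finset.Icc 1 Q).sigma (fun q => (Finset.Icc 1 q).filter (fun a => Nat.Coprime a q))
    with hS
  have hSmem : ∀ p ∈ S, 1 ≤ p.1 ∧ p.1 ≤ Q := by
    intro p hp
    rw [hS, Finset.mem_sigma, Finset.mem_Icc] at hp
    exact hp.1
  set f : ((_ : ℕ) × ℕ) → ℝ → ℝ := fun p u => errR (Real.exp u) p.1 p.2 with hf
  set u0 : ℝ := 3 / 4 * Real.log Y with hu0
  have hu00 : 0 ≤ u0 := by positivity
  set K : ℕ := ⌊Real.log Y⌋₊ + 1 with hK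
  set I : ℕ := ⌈Real.log Y - u0 - 1⌉₊ with hIdef
  have hI1 : Real.log Y - u0 - 1 ≤ I := Nat.le_ceil _
  have hI2 : u0 + I ≤ Real.log Y := by
    rcases le_or_gt (Real.log Y - u0 - 1) 0 with h | h
    · have : I = 0 := by rw [hIdef]; exact Nat.ceil_eq_zero.mpr h
      rw [this]; push_cast; linarith
    · have := Nat.ceil_lt_add_one h.le
      rw [← hIdef] at this
      linarith
  have hIL : (I : ℝ) + 1 ≤ Lg := by linarith
  have hKL : (K : ℝ) + 1 ≤ 3 * Lg := by
    have : (⌊Real.log Y⌋₊ : ℝ) ≤ Real.log Y := Nat.floor_le hlogY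
    rw [hK]; push_cast; linarith
  have h2K : Real.sqrt Y ≤ (2 : ℝ) ^ K := by
    have h1 : Real.log Y < K := by rw [hK]; push_cast; exact Nat.lt_floor_add_one _
    have h2 : (2 : ℝ) ^ K = Real.exp (K * Real.log 2) := by
      rw [mul_comm, Real.exp_mul, Real.exp_log (by norm_num), Real.rpow_natCast]
    have h3 : Real.sqrt Y = Real.exp (Real.log Y / 2) := by
      rw [hsYrp, Real.rpow_def_of_pos hY0]; congr 1; ring
    rw [h2, h3]
    apply Real.exp_le_exp.mpr
    have h4 := Real.log_two_gt_d9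
    have h5 : (0 : ℝ) ≤ K := Nat.cast_nonneg K
    nlinarith
  have he2 : Real.exp 2 ≤ 9 := by
    have h1 := Real.exp_one_lt_d9
    have h2 : Real.exp 2 = Real.exp 1 * Real.exp 1 := by rw [← Real.exp_add]; norm_num
    rw [h2]
    nlinarith [Real.exp_pos 1]
  have he1 : Real.exp 1 ≤ 3 := by linarith [Real.exp_one_lt_d9]
  have hYexp : Real.exp (Real.log Y) = Y := Real.exp_log hY0
  have hu0Y : Real.exp u0 = Y ^ (3 / 4 : ℝ) := by
    rw [hu0, Real.rpow_def_of_pos hY0]; congr 1; ring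
  set M : ℝ := Y ^ (3 / 4 : ℝ) with hM
  have hM1 : 1 ≤ M := Real.one_le_rpow hY (by norm_num)
  have hsYM : Real.sqrt Y ≤ M := by
    rw [hsYrp]; exact Real.rpow_le_rpow_of_exponent_le hY (by norm_num)
  set D : ((_ : ℕ) × ℕ) → ℝ := fun p => 36 * Lg * (M / (p.1.totient : ℝ) + 1) with hD
  -- the trivial bound at small `x`
  have hsmall : ∀ p ∈ S, ∀ y : ℝ, 1 ≤ y → y ≤ Real.exp (u0 + 1) → |errR y p.1 p.2| ≤ D p := by
    intro p hp y hy1 hy2
    obtain ⟨hp1, hp2⟩ := hSmem p hp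
    have hq0 : (0 : ℝ) < p.1 := by exact_mod_cast (by omega : 0 < p.1)
    have hφ1 : (1 : ℝ) ≤ p.1.totient := by exact_mod_cast Nat.totient_pos.mpr (by omega)
    have hφq : (p.1.totient : ℝ) ≤ p.1 := by exact_mod_cast Nat.totient_le p.1
    have hy3 : y ≤ 3 * M := by
      rw [Real.exp_add, hu0Y] at hy2
      nlinarith
    have hlogy : Real.log y ≤ u0 + 1 := by
      rw [Real.log_le_iff_le_exp (by linarith)]; exact hy2
    have hlogy2 : 1 + Real.log y ≤ 2 * Lg := by rw [hLg]; linarith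
    have h1 := errR_triv0 p.1 p.2 hp1 y hy1
    have h2 : y / p.1 ≤ 3 * (M / (p.1.totient : ℝ)) := by
      rw [← mul_div_assoc]
      gcongr
    have h3 : y / (p.1.totient : ℝ) ≤ 3 * (M / (p.1.totient : ℝ)) := by
      rw [← mul_div_assoc]
      gcongr
    set z : ℝ := M / (p.1.totient : ℝ) with hz
    have hz0 : 0 ≤ z := by positivity
    have hly0 : 0 ≤ Real.log y := Real.log_nonneg hy1
    calc |errR y p.1 p.2| ≤ (y / p.1 + 2) * (1 + Real.log y) + y / p.1.totient := h1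
      _ ≤ (3 * z + 2) * (2 * Lg) + 3 * z := by
          have : 0 ≤ y / (p.1 : ℝ) := by positivity
          gcongr
      _ ≤ D p := by
          rw [hD]
          simp only
          rw [← hz]
          nlinarith
  have hD0 : ∀ p, 0 ≤ D p := by intro p; rw [hD]; positivity
  -- the function w
  set w : ((_ : ℕ) × ℕ) → ℝ := fun p => if Real.exp (u0 + 1) ≤ x p.1 p.2 then Real.log (x p.1 p.2)
    else u0 + 1 with hw
  have hmain := maximal_shift S f u0 I K (2 * C1 * Y ^ (3 / 2 + 2 * η + ε / 4)) D D w (by positivity)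
    (by
      intro p hp h a b
      exact P12_int p.1 p.2 (hSmem p hp).1 h a b)
    (by
      intro p hp θ hθ0 hθ1
      refine hsmall p hp _ ?_ ?_
      · exact Real.one_le_exp (by linarith)
      · exact Real.exp_le_exp.mpr (by linarith))
    (by
      intro p hp u u' hu huu' hu'1 hu'2
      obtain ⟨hp1, hp2⟩ := hSmem p hp
      have hq0 : (0 : ℝ) < p.1 := by exact_mod_cast (by omega : 0 < p.1)
      have hφ1 : (1 : ℝ) ≤ p.1.totient := by exact_mod_cast Nat.totient_pos.mpr (by omega)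
      have hφq : (p.1.totient : ℝ) ≤ p.1 := by exact_mod_cast Nat.totient_le p.1
      have h1 := errR_triv p.1 p.2 hp1 (Real.exp u) (Real.exp u') (Real.one_le_exp (by linarith))
        (Real.exp_le_exp.mpr huu')
      have h2 : u' ≤ Real.log Y + 2 := by linarith
      have h3 : Real.exp u' ≤ 9 * Y := by
        calc Real.exp u' ≤ Real.exp (Real.log Y + 2) := Real.exp_le_exp.mpr h2
          _ = Y * Real.exp 2 := by rw [Real.exp_add, hYexp]
          _ ≤ Y * 9 := by gcongr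
          _ = 9 * Y := by ring
      have h4 : Real.exp u' - Real.exp u ≤ 9 * M := by
        have h5 : Real.exp u' * (1 - (u' - u)) ≤ Real.exp u := by
          have h6 := Real.add_one_le_exp (-(u' - u))
          calc Real.exp u' * (1 - (u' - u)) ≤ Real.exp u' * Real.exp (-(u' - u)) := by
                gcongr; linarith
            _ = Real.exp u := by rw [← Real.exp_add]; congr 1; ring
        have h7 : Real.exp u' - Real.exp u ≤ Real.exp u' * (u' - u) := by linarith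
        have h8 : u' - u ≤ 1 / 2 ^ K := by linarith
        calc Real.exp u' - Real.exp u ≤ Real.exp u' * (u' - u) := h7
          _ ≤ (9 * Y) * (1 / 2 ^ K) := by
              have : 0 ≤ u' - u := by linarith
              gcongr
          _ ≤ (9 * Y) * (1 / Real.sqrt Y) := by
              gcongr
          _ = 9 * Real.sqrt Y := by
              have : Y = Real.sqrt Y * Real.sqrt Y := (Real.mul_self_sqrt hY0.le).symm
              have h0 : Real.sqrt Y ≠ 0 := by positivity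
              field_simp
              rw [sq, ← this]
          _ ≤ 9 * M := by gcongr
      have h9 : 0 ≤ Real.exp u' - Real.exp u := by
        have := Real.exp_le_exp.mpr huu'
        linarith
      set z : ℝ := M / (p.1.totient : ℝ) with hz
      have hz0 : 0 ≤ z := by positivity
      have h10 : (Real.exp u' - Real.exp u) / p.1 ≤ 9 * z := by
        rw [hz, ← mul_div_assoc]
        gcongr
      have h11 : (Real.exp u' - Real.exp u) / p.1.totient ≤ 9 * z := by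
        rw [hz, ← mul_div_assoc]
        gcongr
      have h12 : 1 + Real.log (Real.exp u') ≤ 3 * Lg := by
        rw [Real.log_exp, hLg]; linarith
      have h13 : 0 ≤ Real.log (Real.exp u') := by rw [Real.log_exp]; linarith
      calc |f p u' - f p u| ≤ ((Real.exp u' - Real.exp u) / p.1 + 2) * (1 + Real.log (Real.exp u'))
            + (Real.exp u' - Real.exp u) / p.1.totient := h1
        _ ≤ (9 * z + 2) * (3 * Lg) + 9 * z := by
            have : 0 ≤ (Real.exp u' - Real.exp u) / (p.1 : ℝ) := by positivity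
            gcongr
        _ ≤ D p := by
            rw [hD]
            simp only
            rw [← hz]
            nlinarith)
    (by
      intro k hk j hj
      have hjR : (j : ℝ) ≤ I := by exact_mod_cast hj
      have hj0 : (0 : ℝ) ≤ j := Nat.cast_nonneg j
      have hk0 : (0 : ℝ) < 1 / 2 ^ k := by positivity
      have hk1 : (1 : ℝ) / 2 ^ k ≤ 1 := by
        rw [div_le_one (by positivity)]
        exact one_le_pow₀ (by norm_num)
      have hint : ∀ a' b' : ℝ, IntervalIntegrable (fun u => ∑ p ∈ S,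
          (f p (u + 1 / 2 ^ k) - f p u) ^ 2) volume a' b' := by
        intro a' b'
        have h1 : (fun u => ∑ p ∈ S, (f p (u + 1 / 2 ^ k) - f p u) ^ 2)
            = ∑ p ∈ S, (fun u => (f p (u + 1 / 2 ^ k) - f p u) ^ 2) := by
          ext u; rw [Finset.sum_apply]
        rw [h1]
        exact IntervalIntegrable.sum S fun p hp => P12_int p.1 p.2 (hSmem p hp).1 _ _ _
      have hone : ∀ v : ℝ, u0 + 1 ≤ v → v ≤ u0 + I + 2 →
          ∫ u in (v - 1)..v, ∑ p ∈ S, (f p (u + 1 / 2 ^ k) - f p u) ^ 2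
            ≤ C1 * (1 / 2 ^ k) * Y ^ (3 / 2 + 2 * η + ε / 4) := by
        intro v hv1 hv2
        have h1 := hinc Y hY (Real.exp v) (by
            have := Real.add_one_le_exp v
            linarith) (by
            have h2 : Real.sqrt Y = Real.exp (Real.log Y / 2) := by
              rw [hsYrp, Real.rpow_def_of_pos hY0]; congr 1; ring
            rw [h2]
            apply Real.exp_le_exp.mpr
            rw [hu0] at hv1
            linarith) (by
            calc Real.exp v ≤ Real.exp (Real.log Y + 2) := Real.exp_le_exp.mpr (by linarith)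
              _ = Y * Real.exp 2 := by rw [Real.exp_add, hYexp]
              _ ≤ Y * 9 := by gcongr
              _ = 9 * Y := by ring) (1 / 2 ^ k) hk0 hk1
        rw [Real.log_exp] at h1
        refine le_trans (le_of_eq ?_) h1
        refine intervalIntegral.integral_congr fun u _ => ?_
        rw [hS]
        exact Finset.sum_sigma _ _ _
      have e1 : u0 + j + 1 - 1 = u0 + j := by ring
      have e2 : u0 + j + 2 - 1 = u0 + j + 1 := by ring
      have h1 := hone (u0 + j + 1) (by linarith) (by linarith)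
      have h2 := hone (u0 + j + 2) (by linarith) (by linarith)
      rw [e1] at h1
      rw [e2] at h2
      rw [← intervalIntegral.integral_add_adjacent_intervals (hint _ (u0 + j + 1)) (hint _ _)]
      calc _ ≤ C1 * (1 / 2 ^ k) * Y ^ (3 / 2 + 2 * η + ε / 4)
            + C1 * (1 / 2 ^ k) * Y ^ (3 / 2 + 2 * η + ε / 4) := add_le_add h1 h2
        _ = _ := by ring)
    (by
      intro p hp
      rw [hw]
      simp only
      split_ifs with h
      · have hx0 : 0 < x p.1 p.2 := by linarith [(hx p.1 p.2).1]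
        constructor
        · rw [Real.le_log_iff_exp_le hx0]; exact h
        · have : Real.log (x p.1 p.2) ≤ Real.log Y := Real.log_le_log hx0 (hx p.1 p.2).2
          linarith
      · exact ⟨le_rfl, by linarith [Nat.cast_nonneg (α := ℝ) I]⟩)
  -- the sum of the squares of `D`
  have hDsum : ∑ p ∈ S, (D p) ^ 2 ≤ 2592 * C4 * (C3 + 1) * Y ^ (3 / 2 + 2 * η + ε) := by
    have h1 : ∀ q ∈ Finset.Icc 1 Q, ∑ a ∈ (Finset.Icc 1 q).filter (fun a => Nat.Coprime a q),
        (D ⟨q, a⟩) ^ 2 ≤ 2592 * Lg ^ 2 * (M ^ 2 * ((q : ℝ) / (q.totient : ℝ) ^ 2) + Q) := by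
      intro q hq
      rw [Finset.mem_Icc] at hq
      have hq0 : (0 : ℝ) < q := by exact_mod_cast (by omega : 0 < q)
      have hφ1 : (1 : ℝ) ≤ q.totient := by exact_mod_cast Nat.totient_pos.mpr (by omega)
      have hqQ : (q : ℝ) ≤ Q := by exact_mod_cast hq.2
      have hDq : ∀ a ∈ (Finset.Icc 1 q).filter (fun a => Nat.Coprime a q),
          (D ⟨q, a⟩) ^ 2 = (36 * Lg * (M / (q.totient : ℝ) + 1)) ^ 2 := fun a _ => by rw [hD]
      rw [Finset.sum_congr rfl hDq, Finset.sum_const, nsmul_eq_mul]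
      have hc : (((Finset.Icc 1 q).filter (fun a => Nat.Coprime a q)).card : ℝ) ≤ q := by
        have := Finset.card_filter_le (Finset.Icc 1 q) (fun a => Nat.Coprime a q)
        rw [Nat.card_Icc, Nat.add_sub_cancel] at this
        exact_mod_cast this
      set z : ℝ := M / (q.totient : ℝ) with hz
      have hz2 : z ^ 2 = M ^ 2 / (q.totient : ℝ) ^ 2 := by rw [hz, div_pow]
      have hz0 : 0 ≤ z := by positivity
      calc (((Finset.Icc 1 q).filter (fun a => Nat.Coprime a q)).card : ℝ) * (36 * Lg * (z + 1)) ^ 2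
          ≤ q * (36 * Lg * (z + 1)) ^ 2 := by gcongr
        _ = 1296 * Lg ^ 2 * (q * (z + 1) ^ 2) := by ring
        _ ≤ 1296 * Lg ^ 2 * (q * (2 * z ^ 2 + 2)) := by
            have : (z + 1) ^ 2 ≤ 2 * z ^ 2 + 2 := by nlinarith [sq_nonneg (z - 1)]
            gcongr
        _ = 2592 * Lg ^ 2 * (q * z ^ 2 + q) := by ring
        _ ≤ 2592 * Lg ^ 2 * (q * z ^ 2 + Q) := by gcongr
        _ = _ := by rw [hz2]; ring
    rw [hS, Finset.sum_sigma]
    refine (Finset.sum_le_sum h1).trans ?_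
    rw [← Finset.mul_sum, Finset.sum_add_distrib, ← Finset.mul_sum, Finset.sum_const,
      Nat.card_Icc, Nat.add_sub_cancel, nsmul_eq_mul]
    have h2 := htot Q hQ1
    have h3 : (Q : ℝ) * Q ≤ Y := by
      calc (Q : ℝ) * Q ≤ Real.sqrt Y * Real.sqrt Y := by gcongr
        _ = Y := Real.mul_self_sqrt hY0.le
    have h4 : (Q : ℝ) ^ (ε / 4) ≤ Y ^ (ε / 4) := by
      have : (Q : ℝ) ≤ Y := by
        refine hQle.trans ?_
        rw [hsYrp]
        calc Y ^ (1 / 2 : ℝ) ≤ Y ^ (1 : ℝ) := Real.rpow_le_rpow_of_exponent_le hY (by norm_num)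
          _ = Y := Real.rpow_one Y
      exact Real.rpow_le_rpow (Nat.cast_nonneg _) this (by positivity)
    have h5 : M ^ 2 = Y ^ (3 / 2 : ℝ) := by
      rw [hM, ← Real.rpow_natCast, ← Real.rpow_mul hY0.le]; congr 1; norm_num
    have h6 : Y ≤ Y ^ (3 / 2 : ℝ) * Y ^ (ε / 4) := by
      rw [← Real.rpow_add hY0]
      calc Y = Y ^ (1 : ℝ) := (Real.rpow_one Y).symm
        _ ≤ _ := Real.rpow_le_rpow_of_exponent_le hY (by linarith)
    have h7 := hlog2 Y hY
    rw [← hLg] at h7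
    calc 2592 * Lg ^ 2 * (M ^ 2 * ∑ q ∈ Finset.Icc 1 Q, (q : ℝ) / (q.totient : ℝ) ^ 2 + (Q : ℝ) * Q)
        ≤ 2592 * (C4 * Y ^ (ε / 4)) * (Y ^ (3 / 2 : ℝ) * (C3 * Y ^ (ε / 4))
            + Y ^ (3 / 2 : ℝ) * Y ^ (ε / 4)) := by
          rw [h5]
          have h8 : ∑ q ∈ Finset.Icc 1 Q, (q : ℝ) / (q.totient : ℝ) ^ 2 ≤ C3 * Y ^ (ε / 4) :=
            h2.trans (by gcongr)
          have h9 : (Q : ℝ) * Q ≤ Y ^ (3 / 2 : ℝ) * Y ^ (ε / 4) := h3.trans h6
          have h10 : 0 ≤ ∑ q ∈ Finset.Icc 1 Q, (q : ℝ) / (q.totient : ℝ) ^ 2 :=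
            Finset.sum_nonneg fun _ _ => by positivity
          gcongr
      _ = 2592 * C4 * (C3 + 1) * (Y ^ (ε / 4) * Y ^ (3 / 2 : ℝ) * Y ^ (ε / 4)) := by ring
      _ ≤ 2592 * C4 * (C3 + 1) * Y ^ (3 / 2 + 2 * η + ε) := by
          have h11 : Y ^ (ε / 4) * Y ^ (3 / 2 : ℝ) * Y ^ (ε / 4) ≤ Y ^ (3 / 2 + 2 * η + ε) := by
            rw [← Real.rpow_add hY0, ← Real.rpow_add hY0]
            exact Real.rpow_le_rpow_of_exponent_le hY (by linarith)
          gcongr
  -- conclusion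
  have hfirst : ∑ q ∈ Finset.Icc 1 Q, ∑ a ∈ (Finset.Icc 1 q).filter (fun a => Nat.Coprime a q),
      (errR (x q a) q a) ^ 2 ≤ ∑ p ∈ S, ((f p (w p)) ^ 2 + (D p) ^ 2) := by
    have h1 : ∑ q ∈ Finset.Icc 1 Q, ∑ a ∈ (Finset.Icc 1 q).filter (fun a => Nat.Coprime a q),
        (errR (x q a) q a) ^ 2 = ∑ p ∈ S, (errR (x p.1 p.2) p.1 p.2) ^ 2 := by
      rw [hS, Finset.sum_sigma]
    rw [h1]
    refine Finset.sum_le_sum fun p hp => ?_
    by_cases h : Real.exp (u0 + 1) ≤ x p.1 p.2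
    · have hx0 : 0 < x p.1 p.2 := by linarith [(hx p.1 p.2).1]
      have h2 : f p (w p) = errR (x p.1 p.2) p.1 p.2 := by
        rw [hf, hw]
        simp only
        rw [if_pos h, Real.exp_log hx0]
      rw [h2]
      have := sq_nonneg (D p)
      linarith
    · have h2 := hsmall p hp (x p.1 p.2) (hx p.1 p.2).1 (not_le.mp h).le
      have h3 : (errR (x p.1 p.2) p.1 p.2) ^ 2 ≤ (D p) ^ 2 := by
        rw [← sq_abs (errR _ _ _)]
        exact pow_le_pow_left₀ (abs_nonneg _) h2 2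
      have := sq_nonneg (f p (w p))
      linarith
  refine hfirst.trans ?_
  rw [Finset.sum_add_distrib]
  have hlast : ((I : ℝ) + 1) ^ 2 * ((K : ℝ) + 1) ^ 2 * (2 * C1 * Y ^ (3 / 2 + 2 * η + ε / 4))
      ≤ 18 * C1 * C2 * Y ^ (3 / 2 + 2 * η + ε) := by
    have h7 := hlog4 Y hY
    rw [← hLg] at h7
    have h8 : Y ^ (ε / 4) * Y ^ (3 / 2 + 2 * η + ε / 4) ≤ Y ^ (3 / 2 + 2 * η + ε) := by
      rw [← Real.rpow_add hY0]
      exact Real.rpow_le_rpow_of_exponent_le hY (by linarith)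
    have hI0 : (0 : ℝ) ≤ I := Nat.cast_nonneg I
    have hK0 : (0 : ℝ) ≤ K := Nat.cast_nonneg K
    calc ((I : ℝ) + 1) ^ 2 * ((K : ℝ) + 1) ^ 2 * (2 * C1 * Y ^ (3 / 2 + 2 * η + ε / 4))
        ≤ Lg ^ 2 * (3 * Lg) ^ 2 * (2 * C1 * Y ^ (3 / 2 + 2 * η + ε / 4)) := by gcongr
      _ = 18 * C1 * (Lg ^ 4 * Y ^ (3 / 2 + 2 * η + ε / 4)) := by ring
      _ ≤ 18 * C1 * ((C2 * Y ^ (ε / 4)) * Y ^ (3 / 2 + 2 * η + ε / 4)) := by gcongr
      _ = 18 * C1 * C2 * (Y ^ (ε / 4) * Y ^ (3 / 2 + 2 * η + ε / 4)) := by ring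
      _ ≤ 18 * C1 * C2 * Y ^ (3 / 2 + 2 * η + ε) := by gcongr
  set W : ℝ := Y ^ (3 / 2 + 2 * η + ε) with hW
  have hW0 : 0 ≤ W := by positivity
  have hpos1 : 0 ≤ C4 * (C3 + 1) * W := by positivity
  have hpos2 : 0 ≤ C1 * C2 * W := by positivity
  nlinarith [hmain, hDsum, hlast]

/-! ### Part 13 -/

/-- The reduced classes `(q, a)`, `q ≤ X ^ (1/2)`, for which the bound with exponent `τ` fails for
some `x` with `q ^ 2 ≤ x ≤ X`. -/
def excAll (τ X : ℝ) : Set (ℕ × ℕ) :=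
  {y | (y.1 : ℝ) ≤ Real.sqrt X ∧ 1 ≤ y.2 ∧ y.2 ≤ y.1 ∧ Nat.Coprime y.2 y.1 ∧ ∃ x : ℝ,
    (y.1 : ℝ) ^ 2 ≤ x ∧ x ≤ X ∧ x ^ τ / Real.sqrt (y.1 : ℝ) < |errR x y.1 y.2|}

lemma P13_subset (τ X : ℝ) : excAll τ X ⊆
    (((Finset.Icc 1 ⌊Real.sqrt X⌋₊).sigma
      (fun q => (Finset.Icc 1 q).filter (fun a => Nat.Coprime a q))).image
      (fun p : (_ : ℕ) × ℕ => (p.1, p.2)) : Finset (ℕ × ℕ)) := by
  rintro ⟨q, a⟩ ⟨h1, h2, h3, h4, _⟩
  simp only at h1 h2 h3 h4
  rw [Finset.mem_coe, Finset.mem_image]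
  refine ⟨⟨q, a⟩, ?_, rfl⟩
  rw [Finset.mem_sigma, Finset.mem_Icc, Finset.mem_filter, Finset.mem_Icc]
  exact ⟨⟨le_trans h2 h3, Nat.le_floor h1⟩, ⟨h2, h3⟩, h4⟩

lemma P13_finite (τ X : ℝ) : (excAll τ X).Finite :=
  Set.Finite.subset (Finset.finite_toSet _) (P13_subset τ X)

/-- P13. The maximal second moment bounds the exceptional set. -/
theorem exc_of_max2 (η : ℝ) (hη0 : 0 ≤ η) (hη1 : η ≤ 1 / 4) (hM : Max2 η) :
    ∀ ε : ℝ, 0 < ε → ∃ δ : ℝ, 0 < δ ∧ ∃ C : ℝ, ∀ X : ℝ, 1 ≤ X →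
      ((excAll (1 / 2 + η + ε) X).ncard : ℝ) ≤ C * X ^ (1 - δ) := by
  classical
  intro ε hε
  obtain ⟨C, hC⟩ := hM ε hε
  set τ : ℝ := 1 / 2 + η + ε with hτ
  set δ : ℝ := ε / (4 * (1 + ε)) with hδ
  have hδ0 : 0 < δ := by positivity
  have hδε : δ * (4 * (1 + ε)) = ε := by rw [hδ]; field_simp
  have hδ1 : δ ≤ 1 / 4 := by
    rw [hδ, div_le_iff₀ (by positivity)]; nlinarith
  refine ⟨δ, hδ0, |C| + 1, fun X hX => ?_⟩
  have hX0 : 0 < X := by linarith
  set E := excAll τ X with hE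
  have hfin : E.Finite := P13_finite τ X
  -- small moduli
  set A : Set (ℕ × ℕ) := {y ∈ E | (y.1 : ℝ) ≤ X ^ (1 / 2 - δ)} with hA
  set B : Set (ℕ × ℕ) := {y ∈ E | X ^ (1 / 2 - δ) < (y.1 : ℝ)} with hB
  have hEAB : E ⊆ A ∪ B := by
    intro y hy
    rcases le_or_gt (y.1 : ℝ) (X ^ (1 / 2 - δ)) with h | h
    · exact Or.inl ⟨hy, h⟩
    · exact Or.inr ⟨hy, h⟩
  have hAfin : A.Finite := hfin.subset (fun y hy => hy.1)
  have hBfin : B.Finite := hfin.subset (fun y hy => hy.1)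
  have hAc : (A.ncard : ℝ) ≤ X ^ (1 - δ) := by
    set N : ℕ := ⌊X ^ (1 / 2 - δ)⌋₊ with hN
    have hsub : A ⊆ ((Finset.Icc 1 N ×ˢ Finset.Icc 1 N : Finset (ℕ × ℕ)) : Set (ℕ × ℕ)) := by
      rintro ⟨q, a⟩ ⟨⟨h1, h2, h3, h4, _⟩, h5⟩
      simp only at h1 h2 h3 h4 h5
      have h6 : q ≤ N := Nat.le_floor h5
      rw [Finset.mem_coe, Finset.mem_product, Finset.mem_Icc, Finset.mem_Icc]
      exact ⟨⟨le_trans h2 h3, h6⟩, ⟨h2, le_trans h3 h6⟩⟩
    have h1 := Set.ncard_le_ncard hsub (Finset.finite_toSet _)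
    rw [Set.ncard_coe_finset, Finset.card_product, Nat.card_Icc, Nat.add_sub_cancel] at h1
    have h2 : (N : ℝ) ≤ X ^ (1 / 2 - δ) := Nat.floor_le (by positivity)
    calc (A.ncard : ℝ) ≤ ((N * N : ℕ) : ℝ) := by exact_mod_cast h1
      _ = (N : ℝ) * N := by push_cast; ring
      _ ≤ X ^ (1 / 2 - δ) * X ^ (1 / 2 - δ) := by gcongr
      _ = X ^ (1 - 2 * δ) := by rw [← Real.rpow_add hX0]; congr 1; ring
      _ ≤ X ^ (1 - δ) := Real.rpow_le_rpow_of_exponent_le hX (by linarith)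
  -- large moduli
  have hex : ∀ q a : ℕ, ∃ x : ℝ, 1 ≤ x ∧ x ≤ X ∧ ((q, a) ∈ E →
      (q : ℝ) ^ 2 ≤ x ∧ x ^ τ / Real.sqrt (q : ℝ) < |errR x q a|) := by
    intro q a
    by_cases h : (q, a) ∈ E
    · obtain ⟨h1, h2, h3, h4, x, h5, h6, h7⟩ := h
      simp only at h1 h2 h3 h4 h5 h6 h7
      refine ⟨x, ?_, h6, fun _ => ⟨h5, h7⟩⟩
      have : (1 : ℝ) ≤ q := by exact_mod_cast le_trans h2 h3
      nlinarith
    · exact ⟨1, le_rfl, hX, fun h' => absurd h' h⟩
  choose x hx1 hxX hxE using hex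
  have hsum := hC X hX x (fun q a => ⟨hx1 q a, hxX q a⟩)
  set T : ℝ := X ^ ((1 - 2 * δ) * (2 * τ) - 1 / 2) with hT
  have hT0 : 0 < T := by positivity
  have hBc : (B.ncard : ℝ) * T ≤ C * X ^ (3 / 2 + 2 * η + ε) := by
    refine le_trans ?_ hsum
    rw [Finset.sum_sigma']
    set S := (Finset.Icc 1 ⌊Real.sqrt X⌋₊).sigma
      (fun q => (Finset.Icc 1 q).filter (fun a => Nat.Coprime a q)) with hS
    set S' := S.filter (fun p => (p.1, p.2) ∈ B) with hS'
    have hcard : B.ncard ≤ S'.card := by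
      have hsub : B ⊆ ((S'.image (fun p : (_ : ℕ) × ℕ => (p.1, p.2)) : Finset (ℕ × ℕ)) :
          Set (ℕ × ℕ)) := by
        rintro ⟨q, a⟩ h
        have h1 := P13_subset τ X h.1
        rw [Finset.mem_coe, Finset.mem_image] at h1
        obtain ⟨⟨q', a'⟩, h2, h3⟩ := h1
        rw [Finset.mem_coe, Finset.mem_image]
        refine ⟨⟨q', a'⟩, ?_, h3⟩
        rw [hS', Finset.mem_filter]
        refine ⟨h2, ?_⟩
        simp only at h3 ⊢
        rw [h3]; exact h
      have h1 := Set.ncard_le_ncard hsub (Finset.finite_toSet _)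
      rw [Set.ncard_coe_finset] at h1
      exact h1.trans Finset.card_image_le
    calc (B.ncard : ℝ) * T ≤ (S'.card : ℝ) * T := by
          have : (B.ncard : ℝ) ≤ S'.card := by exact_mod_cast hcard
          gcongr
      _ = ∑ p ∈ S', T := by rw [Finset.sum_const, nsmul_eq_mul]
      _ ≤ ∑ p ∈ S', (errR (x p.1 p.2) p.1 p.2) ^ 2 := by
          refine Finset.sum_le_sum fun p hp => ?_
          rw [hS', Finset.mem_filter] at hp
          obtain ⟨hpE, hpq⟩ := hp.2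
          obtain ⟨h1, h2⟩ := hxE p.1 p.2 hpE
          obtain ⟨h3, h4, h5, h6, _⟩ := hpE
          simp only at h3 h4 h5 h6 hpq
          have hq1 : (1 : ℝ) ≤ p.1 := by exact_mod_cast le_trans h4 h5
          have hq0 : (0 : ℝ) < p.1 := by linarith
          have hx0 : 0 < x p.1 p.2 := by linarith [hx1 p.1 p.2]
          have hτ0 : 0 < τ := by rw [hτ]; linarith
          have hge : X ^ (1 - 2 * δ) ≤ x p.1 p.2 := by
            refine le_trans ?_ h1
            calc X ^ (1 - 2 * δ) = (X ^ (1 / 2 - δ)) ^ 2 := by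
                  rw [← Real.rpow_natCast, ← Real.rpow_mul hX0.le]; congr 1; push_cast; ring
              _ ≤ (p.1 : ℝ) ^ 2 := by gcongr
          have hsq : (x p.1 p.2) ^ (2 * τ) / (p.1 : ℝ) ≤ (errR (x p.1 p.2) p.1 p.2) ^ 2 := by
            rw [← sq_abs (errR _ _ _)]
            have h7 : (x p.1 p.2) ^ (2 * τ) / (p.1 : ℝ) = ((x p.1 p.2) ^ τ / Real.sqrt (p.1 : ℝ)) ^ 2 := by
              rw [div_pow, Real.sq_sqrt hq0.le, ← Real.rpow_natCast, ← Real.rpow_mul hx0.le]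
              congr 2; push_cast; ring
            rw [h7]
            exact pow_le_pow_left₀ (by positivity) h2.le 2
          refine le_trans ?_ hsq
          rw [le_div_iff₀ hq0, hT]
          have h8 : (p.1 : ℝ) ≤ X ^ (1 / 2 : ℝ) := by rw [← Real.sqrt_eq_rpow]; exact h3
          calc X ^ ((1 - 2 * δ) * (2 * τ) - 1 / 2) * (p.1 : ℝ)
              ≤ X ^ ((1 - 2 * δ) * (2 * τ) - 1 / 2) * X ^ (1 / 2 : ℝ) := by gcongr
            _ = (X ^ (1 - 2 * δ)) ^ (2 * τ) := by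
                rw [← Real.rpow_add hX0, ← Real.rpow_mul hX0.le]; congr 1; ring
            _ ≤ (x p.1 p.2) ^ (2 * τ) := by
                apply Real.rpow_le_rpow (by positivity) hge (by linarith)
      _ ≤ ∑ p ∈ S, (errR (x p.1 p.2) p.1 p.2) ^ 2 :=
          Finset.sum_le_sum_of_subset_of_nonneg (Finset.filter_subset _ _) (fun _ _ _ => sq_nonneg _)
  have hBc2 : (B.ncard : ℝ) ≤ |C| * X ^ (1 - δ) := by
    have h1 : (B.ncard : ℝ) ≤ |C| * X ^ (3 / 2 + 2 * η + ε) / T := by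
      rw [le_div_iff₀ hT0]
      refine hBc.trans ?_
      gcongr
      exact le_abs_self C
    refine h1.trans ?_
    rw [mul_div_assoc]
    gcongr
    rw [hT, ← Real.rpow_sub hX0]
    apply Real.rpow_le_rpow_of_exponent_le hX
    rw [hτ]
    nlinarith
  have hfinAB : (A ∪ B).Finite := hAfin.union hBfin
  have h1 : E.ncard ≤ A.ncard + B.ncard :=
    (Set.ncard_le_ncard hEAB hfinAB).trans (Set.ncard_union_le A B)
  have h2 : (E.ncard : ℝ) ≤ A.ncard + B.ncard := by exact_mod_cast h1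
  calc (E.ncard : ℝ) ≤ A.ncard + B.ncard := h2
    _ ≤ X ^ (1 - δ) + |C| * X ^ (1 - δ) := by linarith
    _ = (|C| + 1) * X ^ (1 - δ) := by ring

end Pool.Agent.MC.C1
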