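import Mathlib
import Pool.Agent.Lib.MP_9cfc0a_nt.An8
import Pool.Agent.Lib.MP_9cfc0a_nt.C1A

set_option autoImplicit false

namespace Pool.Agent.MC.C2

open Pool.Agent.MC Pool.Agent.MC.C1 MeasureTheory Real

/-- The weight `min (δ, 1/|t|) ^ 2`. -/
noncomputable def wt (δ t : ℝ) : ℝ := 1 / (max (1 / δ) |t|) ^ 2

/-- The smooth cutoff: `1` on `(-∞, 1]`, `0` on `[2, ∞)`. -/
noncomputable def vv (x : ℝ) : ℝ := Real.smoothTransition (2 - x)

/-- The Dirichlet `L`-function, without the instance argument. -/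
noncomputable def LF (r : ℕ) (χ : DirichletCharacter ℂ r) (s : ℂ) : ℂ :=
  if h : r = 0 then 0 else
    haveI : NeZero r := ⟨h⟩
    DirichletCharacter.LFunction χ s

/-- The mollifier. -/
noncomputable def Mol (N r : ℕ) (χ : DirichletCharacter ℂ r) (s : ℂ) : ℂ :=
  ∑ m ∈ Finset.Icc 1 N, (ArithmeticFunction.moebius m : ℂ) * χ m * (m : ℂ) ^ (-s)

/-- The coefficients of `log * μ_{≤ N}`. -/
noncomputable def aA (N n : ℕ) : ℝ :=
  ∑ d ∈ n.divisors.filter (fun d => d ≤ N),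
    (ArithmeticFunction.moebius d : ℝ) * Real.log ((n / d : ℕ) : ℝ)

/-- The first part of the sum of `χ(n) Λ(n)`. -/
noncomputable def Af (N r : ℕ) (χ : DirichletCharacter ℂ r) (t : ℝ) : ℂ :=
  SumC (fun n => χ n * ((aA N n : ℝ) : ℂ)) t

/-- The second part. -/
noncomputable def Bf (N r : ℕ) (χ : DirichletCharacter ℂ r) (t : ℝ) : ℂ :=
  EX r χ t - Af N r χ t

/-- The function `t ^ (-s) (1 - v(t / U))`. -/
noncomputable def gg (s : ℂ) (U t : ℝ) : ℂ := ((1 - vv (t / U) : ℝ) : ℂ) * (t : ℂ) ^ (-s)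

end Pool.Agent.MC.C2
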