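import Mathlib
import Pool.Agent.Lib.MP_9cfc0a_nt.An3

set_option autoImplicit false

namespace Pool.Agent.EM

open Complex Metric Set MeasureTheory

lemma L_growth (q : ℕ) [NeZero q] (χ : DirichletCharacter ℂ q) (hχ : χ ≠ 1) (s : ℂ)
    (hs : 1 / 20 ≤ s.re) : ‖χ.LFunction s‖ ≤ 20 * (2 * q + 1) * ‖s‖ := by
  have h1 := MC.FF_eq_MT q χ hχ s (by linarith)
  rw [MC.FF_of_ne q χ hχ] at h1
  rw [h1, norm_mul]
  have h2 := MC.MT_norm_le (MC.RC q χ) _ 0 (MC.RC_bound q χ) s (by linarith)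
  rw [sub_zero] at h2
  have h3 : (2 * (q : ℝ) + 1) / s.re ≤ 20 * (2 * q + 1) := by
    rw [div_le_iff₀ (by linarith)]
    have : (0 : ℝ) ≤ q := Nat.cast_nonneg q
    nlinarith
  calc ‖s‖ * ‖MC.MT (MC.RC q χ) s‖ ≤ ‖s‖ * (20 * (2 * q + 1)) := by
        gcongr; exact h2.trans h3
    _ = _ := by ring

lemma L_upper : ∃ C : ℝ, 1 ≤ C ∧ ∀ (q : ℕ) [NeZero q] (χ : DirichletCharacter ℂ q) (s : ℂ),
    11 / 10 ≤ s.re → ‖χ.LFunction s‖ ≤ C := by
  have hsum : Summable (fun n : ℕ => (n : ℝ) ^ (-(11 / 10) : ℝ)) :=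
    Real.summable_nat_rpow.mpr (by norm_num)
  have hnn : 0 ≤ ∑' n : ℕ, (n : ℝ) ^ (-(11 / 10) : ℝ) :=
    tsum_nonneg (fun n => Real.rpow_nonneg (Nat.cast_nonneg n) _)
  refine ⟨1 + ∑' n : ℕ, (n : ℝ) ^ (-(11 / 10) : ℝ), by linarith, fun q _ χ s hs => ?_⟩
  rw [DirichletCharacter.LFunction_eq_LSeries χ (by linarith)]
  have hterm : ∀ n : ℕ, ‖LSeries.term (fun n => χ n) s n‖ ≤ (n : ℝ) ^ (-(11 / 10) : ℝ) := by
    intro n
    rcases Nat.eq_zero_or_pos n with h0 | h0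
    · subst h0
      rw [LSeries.term_zero, norm_zero]
      exact Real.rpow_nonneg (Nat.cast_nonneg 0) _
    · rw [LSeries.term_of_ne_zero h0.ne', norm_div, Complex.norm_natCast_cpow_of_pos h0,
        Real.rpow_neg (Nat.cast_nonneg n), ← one_div]
      have hn1 : (1 : ℝ) ≤ n := by exact_mod_cast h0
      have hnp : (0 : ℝ) < n := by linarith
      have h1 : (n : ℝ) ^ (11 / 10 : ℝ) ≤ (n : ℝ) ^ s.re :=
        Real.rpow_le_rpow_of_exponent_le hn1 hs
      have h2 : ‖χ n‖ ≤ 1 := χ.norm_le_one _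
      have h3 : 0 < (n : ℝ) ^ (11 / 10 : ℝ) := Real.rpow_pos_of_pos hnp _
      gcongr
  unfold LSeries
  have h4 := tsum_of_norm_bounded hsum.hasSum hterm
  linarith

lemma U4_BC (g : ℂ → ℂ) (c : ℂ) (R M : ℝ) (hM : 0 < M) (hR : 0 < R)
    (hg : DifferentiableOn ℂ g (ball c R)) (hgc : g c = 0) (hre : ∀ z ∈ ball c R, (g z).re ≤ M) :
    ∀ z ∈ ball c R, ‖g z‖ ≤ 2 * M * dist z c / (R - dist z c) := by
  intro z hz
  have h1 := Complex.borelCaratheodory_zero (f := fun w => g (c + w)) (M := M) (R := R)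
    (z := z - c) hM ?_ ?_ hR ?_ ?_
  · simp only [add_sub_cancel] at h1
    rw [dist_eq_norm]
    exact h1
  · intro w hw
    have hw' : c + w ∈ ball c R := by
      rw [mem_ball, dist_eq_norm, add_sub_cancel_left]
      simpa using hw
    have h2 := hg.differentiableAt (isOpen_ball.mem_nhds hw')
    exact (h2.comp w (by fun_prop)).differentiableWithinAt
  · intro w hw
    have hw' : c + w ∈ ball c R := by
      rw [mem_ball, dist_eq_norm, add_sub_cancel_left]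
      simpa using hw
    exact hre _ hw'
  · rw [mem_ball, dist_zero_right, ← dist_eq_norm]
    exact hz
  · simp [hgc]

/-- coefficient bound -/
lemma U4_coeff (g : ℂ → ℂ) (c : ℂ) (r R C : ℝ) (hr : 0 < r) (hrR : r < R)
    (hg : DifferentiableOn ℂ g (ball c R)) (hC : ∀ z ∈ sphere c r, ‖g z‖ ≤ C) (k : ℕ) :
    ‖(k.factorial : ℂ)⁻¹ * iteratedDeriv k g c‖ ≤ C / r ^ k := by
  have hd : DiffContOnCl ℂ g (ball c r) := by
    apply DifferentiableOn.diffContOnCl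
    rw [closure_ball c hr.ne']
    exact hg.mono (closedBall_subset_ball hrR)
  have h1 := Complex.norm_iteratedDeriv_le_of_forall_mem_sphere_norm_le k hr hd hC
  rw [norm_mul, norm_inv, Complex.norm_natCast]
  have hk : (0 : ℝ) < k.factorial := by exact_mod_cast k.factorial_pos
  calc (k.factorial : ℝ)⁻¹ * ‖iteratedDeriv k g c‖
      ≤ (k.factorial : ℝ)⁻¹ * (k.factorial * C / r ^ k) := by gcongr
    _ = C / r ^ k := by field_simp

lemma U4_tail : ∃ N : ℕ, 74 * (37 / 2) * (35 / 37 : ℝ) ^ N ≤ 1 / 100 := by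
  have h1 : Filter.Tendsto (fun N : ℕ => 74 * (37 / 2) * (35 / 37 : ℝ) ^ N) Filter.atTop
      (nhds (74 * (37 / 2) * 0)) :=
    (tendsto_pow_atTop_nhds_zero_of_lt_one (by norm_num) (by norm_num)).const_mul _
  rw [mul_zero] at h1
  have h2 := h1.eventually_le_const (show (0 : ℝ) < 1 / 100 by norm_num)
  exact h2.exists

lemma U4_aux (A x y : ℝ) (k : ℕ) : A / y ^ k * x ^ k = A * (x / y) ^ k := by
  rw [div_pow]; ring

lemma U4_main (N : ℕ) (hN : 74 * (37 / 2) * (35 / 37 : ℝ) ^ N ≤ 1 / 100) (g : ℂ → ℂ) (T C₂ : ℝ)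
    (hT : 0 < T) (hC₂ : 0 < C₂) (hg : DifferentiableOn ℂ g (ball 2 (19 / 10))) (hg2 : g 2 = 0)
    (h1 : ∀ z ∈ ball (2 : ℂ) (19 / 10), (g z).re ≤ T)
    (h2 : ∀ z ∈ ball (2 : ℂ) (9 / 10), (g z).re ≤ C₂) (z : ℂ)
    (hz : z ∈ closedBall (2 : ℂ) (7 / 4)) :
    ‖g z‖ ≤ (16 * ∑ k ∈ Finset.range N, (35 / 16 : ℝ) ^ k) * C₂ + T / 100 := by
  have hb1 : ∀ w ∈ sphere (2 : ℂ) (37 / 20), ‖g w‖ ≤ 74 * T := by
    intro w hw
    rw [mem_sphere] at hw
    have := U4_BC g 2 (19 / 10) T hT (by norm_num) hg hg2 h1 w (by rw [mem_ball, hw]; norm_num)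
    rw [hw] at this
    refine this.trans (le_of_eq ?_)
    norm_num; ring
  have hb2 : ∀ w ∈ sphere (2 : ℂ) (4 / 5), ‖g w‖ ≤ 16 * C₂ := by
    intro w hw
    rw [mem_sphere] at hw
    have := U4_BC g 2 (9 / 10) C₂ hC₂ (by norm_num)
      (hg.mono (ball_subset_ball (by norm_num))) hg2 h2 w (by rw [mem_ball, hw]; norm_num)
    rw [hw] at this
    refine this.trans (le_of_eq ?_)
    norm_num; ring
  have ha1 := U4_coeff g 2 (37 / 20) (19 / 10) (74 * T) (by norm_num) (by norm_num) hg hb1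
  have ha2 := U4_coeff g 2 (4 / 5) (19 / 10) (16 * C₂) (by norm_num) (by norm_num) hg hb2
  have hzb : z ∈ ball (2 : ℂ) (19 / 10) := by
    rw [mem_closedBall] at hz; rw [mem_ball]; linarith
  have hS := Complex.hasSum_taylorSeries_on_ball hg hzb
  have hzn : ‖z - 2‖ ≤ 7 / 4 := by rw [← dist_eq_norm]; exact hz
  set a : ℕ → ℂ := fun n => (n.factorial : ℂ)⁻¹ • (z - 2) ^ n • iteratedDeriv n g 2 with ha
  have hterm : ∀ k, ‖a k‖ = ‖(k.factorial : ℂ)⁻¹ * iteratedDeriv k g 2‖ * ‖z - 2‖ ^ k := by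
    intro k
    simp only [ha, smul_eq_mul, norm_mul, norm_pow]
    ring
  have hh1 : ∀ k, ‖a k‖ ≤ 74 * T * (35 / 37 : ℝ) ^ k := by
    intro k
    rw [hterm]
    calc _ ≤ 74 * T / (37 / 20) ^ k * (7 / 4) ^ k := by
          gcongr
          exact ha1 k
      _ = 74 * T * ((7 / 4) / (37 / 20)) ^ k := U4_aux _ _ _ k
      _ = _ := by norm_num
  have hh2 : ∀ k, ‖a k‖ ≤ 16 * C₂ * (35 / 16 : ℝ) ^ k := by
    intro k
    rw [hterm]
    calc _ ≤ 16 * C₂ / (4 / 5) ^ k * (7 / 4) ^ k := by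
          gcongr
          exact ha2 k
      _ = 16 * C₂ * ((7 / 4) / (4 / 5)) ^ k := U4_aux _ _ _ k
      _ = _ := by norm_num
  have hsplit := hS.summable.sum_add_tsum_nat_add N
  rw [hS.tsum_eq] at hsplit
  have htail : ‖∑' k, a (k + N)‖ ≤ T / 100 := by
    have hgeo : HasSum (fun k : ℕ => 74 * T * (35 / 37 : ℝ) ^ (k + N))
        (74 * T * (35 / 37 : ℝ) ^ N * (1 - 35 / 37)⁻¹) := by
      have := (hasSum_geometric_of_lt_one (r := (35 / 37 : ℝ)) (by norm_num)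
        (by norm_num)).mul_left (74 * T * (35 / 37 : ℝ) ^ N)
      convert! this using 2 with k
      rw [pow_add]; ring
    refine (tsum_of_norm_bounded hgeo (fun k => hh1 (k + N))).trans ?_
    have : 74 * T * (35 / 37 : ℝ) ^ N * (1 - 35 / 37)⁻¹
        = T * (74 * (37 / 2) * (35 / 37 : ℝ) ^ N) := by norm_num; ring
    rw [this]
    calc T * (74 * (37 / 2) * (35 / 37 : ℝ) ^ N) ≤ T * (1 / 100) := by gcongr
      _ = T / 100 := by ring
  have hhead : ‖∑ k ∈ Finset.range N, a k‖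
      ≤ (16 * ∑ k ∈ Finset.range N, (35 / 16 : ℝ) ^ k) * C₂ := by
    refine (norm_sum_le _ _).trans ((Finset.sum_le_sum fun k _ => hh2 k).trans (le_of_eq ?_))
    rw [← Finset.mul_sum]; ring
  rw [← hsplit]
  exact (norm_add_le _ _).trans (add_le_add hhead htail)

/-- U4 -/
lemma three_circles : ∃ C : ℝ, 0 < C ∧ ∀ (f : ℂ → ℂ) (T C₂ : ℝ), 0 < T → 0 < C₂ →
    DifferentiableOn ℂ f (ball 2 (19 / 10)) → (∀ z ∈ ball (2 : ℂ) (19 / 10), f z ≠ 0) →
    (∀ z ∈ ball (2 : ℂ) (19 / 10), ‖f z‖ ≤ Real.exp T * ‖f 2‖) →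
    (∀ z ∈ ball (2 : ℂ) (9 / 10), ‖f z‖ ≤ Real.exp C₂ * ‖f 2‖) →
    ∀ z ∈ closedBall (2 : ℂ) (7 / 4), |Real.log ‖f z‖ - Real.log ‖f 2‖| ≤ C * C₂ + T / 100 := by
  obtain ⟨N, hN⟩ := U4_tail
  refine ⟨16 * ∑ k ∈ Finset.range N, (35 / 16 : ℝ) ^ k + 1, by positivity,
    fun f T C₂ hT hC₂ hf hf0 hb hb2 z hz => ?_⟩
  have hs0 : (2 : ℂ) ∈ ball (2 : ℂ) (19 / 10) := mem_ball_self (by norm_num)
  have hfd : ∀ z ∈ ball (2 : ℂ) (19 / 10), HasDerivAt f (deriv f z) z := fun z hz =>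
    (hf.differentiableAt (isOpen_ball.mem_nhds hz)).hasDerivAt
  have hdf : DifferentiableOn ℂ (deriv f) (ball 2 (19 / 10)) := hf.deriv isOpen_ball
  have hh : DifferentiableOn ℂ (fun z => deriv f z / f z) (ball 2 (19 / 10)) := hdf.div hf hf0
  obtain ⟨g0, hg0⟩ := hh.isExactOn_ball
  set g : ℂ → ℂ := fun z => g0 z - g0 2 with hg
  have hgd : ∀ z ∈ ball (2 : ℂ) (19 / 10), HasDerivAt g (deriv f z / f z) z := fun z hz =>
    (hg0 z hz).sub_const _
  have hg2 : g 2 = 0 := by simp [hg]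
  have hconst : ∀ z ∈ ball (2 : ℂ) (19 / 10), f z = f 2 * Complex.exp (g z) := by
    intro z hz
    have h1 : ∀ w ∈ ball (2 : ℂ) (19 / 10),
        HasDerivAt (fun w => f w * Complex.exp (- g w)) 0 w := by
      intro w hw
      have h2 := (hfd w hw).mul ((hgd w hw).neg.cexp)
      convert! h2 using 1
      have := hf0 w hw
      field_simp
      ring
    have h2 := isOpen_ball.is_const_of_deriv_eq_zero (convex_ball (2 : ℂ) (19 / 10)).isPreconnected
      (f := fun w => f w * Complex.exp (- g w))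
      (fun w hw => (h1 w hw).differentiableAt.differentiableWithinAt)
      (fun w hw => (h1 w hw).deriv) hz hs0
    simp only [hg2, neg_zero, Complex.exp_zero, mul_one] at h2
    rw [← h2, mul_assoc, ← Complex.exp_add, neg_add_cancel, Complex.exp_zero, mul_one]
  have hf2 : 0 < ‖f 2‖ := norm_pos_iff.mpr (hf0 2 hs0)
  have hre : ∀ z ∈ ball (2 : ℂ) (19 / 10), ∀ M : ℝ, ‖f z‖ ≤ Real.exp M * ‖f 2‖ →
      (g z).re ≤ M := by
    intro z hz M h1
    rw [hconst z hz, norm_mul, Complex.norm_exp, mul_comm] at h1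
    have h3 := le_of_mul_le_mul_right h1 hf2
    exact Real.exp_le_exp.mp h3
  have hgdiff : DifferentiableOn ℂ g (ball 2 (19 / 10)) := fun w hw =>
    (hgd w hw).differentiableAt.differentiableWithinAt
  have hm := U4_main N hN g T C₂ hT hC₂ hgdiff hg2 (fun w hw => hre w hw T (hb w hw))
    (fun w hw => hre w (ball_subset_ball (by norm_num) hw) C₂ (hb2 w hw)) z hz
  have hzb : z ∈ ball (2 : ℂ) (19 / 10) := by
    rw [mem_closedBall] at hz; rw [mem_ball]; linarith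
  have hlog : Real.log ‖f z‖ - Real.log ‖f 2‖ = (g z).re := by
    rw [hconst z hzb, norm_mul, Complex.norm_exp, Real.log_mul hf2.ne' (Real.exp_pos _).ne',
      Real.log_exp]
    ring
  rw [hlog]
  calc |(g z).re| ≤ ‖g z‖ := Complex.abs_re_le_norm _
    _ ≤ _ := hm
    _ ≤ _ := by nlinarith

lemma U5_level_ne {q : ℕ} [NeZero q] {χ : DirichletCharacter ℂ q} (hχ : χ ≠ 1) : q ≠ 1 := by
  rintro rfl
  exact hχ (DirichletCharacter.level_one χ)

lemma U5_inv_prim {q : ℕ} {χ : DirichletCharacter ℂ q} (hp : χ.IsPrimitive) :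
    χ⁻¹.IsPrimitive := by
  unfold DirichletCharacter.IsPrimitive at hp ⊢
  rw [DirichletCharacter.conductor_inv, hp]

lemma U5_gamma_ne {q : ℕ} [NeZero q] (χ : DirichletCharacter ℂ q) {s : ℂ} (hs : 0 < s.re) :
    DirichletCharacter.gammaFactor χ s ≠ 0 := by
  rcases χ.even_or_odd with h | h
  · rw [h.gammaFactor_def]; exact Gammaℝ_ne_zero_of_re_pos hs
  · rw [h.gammaFactor_def]; apply Gammaℝ_ne_zero_of_re_pos
    simp; linarith

lemma U5_comp {q : ℕ} [NeZero q] {χ : DirichletCharacter ℂ q} (hχ : χ ≠ 1) {s : ℂ}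
    (hs : 0 < s.re) :
    DirichletCharacter.completedLFunction χ s
      = DirichletCharacter.gammaFactor χ s * χ.LFunction s := by
  rw [χ.LFunction_eq_completed_div_gammaFactor s (Or.inr (U5_level_ne hχ))]
  have := U5_gamma_ne χ hs
  field_simp

lemma U5_inv_ne {q : ℕ} {χ : DirichletCharacter ℂ q} (hχ : χ ≠ 1) : χ⁻¹ ≠ 1 :=
  fun h => hχ (inv_eq_one.mp h)

lemma U5_root {q : ℕ} [NeZero q] {χ : DirichletCharacter ℂ q} (hχ : χ ≠ 1)
    (hp : χ.IsPrimitive) :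
    DirichletCharacter.rootNumber χ * DirichletCharacter.rootNumber χ⁻¹ = 1 := by
  have h1 := hp.completedLFunction_one_sub 2
  have h2 := (U5_inv_prim hp).completedLFunction_one_sub (1 - 2)
  rw [inv_inv, sub_sub_cancel, h1] at h2
  have h3 : DirichletCharacter.completedLFunction χ⁻¹ 2 ≠ 0 := by
    rw [U5_comp (U5_inv_ne hχ) (by norm_num)]
    refine mul_ne_zero (U5_gamma_ne _ (by norm_num)) ?_
    exact DirichletCharacter.LFunction_ne_zero_of_one_le_re _ (Or.inl (U5_inv_ne hχ)) (by norm_num)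
  have hq : (q : ℂ) ≠ 0 := NeZero.ne _
  have h4 : (q : ℂ) ^ ((1 : ℂ) - 2 - 1 / 2) * (q : ℂ) ^ ((2 : ℂ) - 1 / 2) = 1 := by
    rw [← cpow_add _ _ hq]
    norm_num
  have h5 : DirichletCharacter.completedLFunction χ⁻¹ 2 * 1 =
      DirichletCharacter.completedLFunction χ⁻¹ 2 *
        (DirichletCharacter.rootNumber χ * DirichletCharacter.rootNumber χ⁻¹) := by
    generalize (q : ℂ) ^ ((1 : ℂ) - 2 - 1 / 2) = A at h2 h4
    generalize (q : ℂ) ^ ((2 : ℂ) - 1 / 2) = B at h2 h4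
    linear_combination h2 + (DirichletCharacter.completedLFunction χ⁻¹ 2 *
      DirichletCharacter.rootNumber χ * DirichletCharacter.rootNumber χ⁻¹) * h4
  exact (mul_left_cancel₀ h3 h5).symm

lemma U5_gamma_inv {q : ℕ} [NeZero q] (χ : DirichletCharacter ℂ q) (s : ℂ) :
    DirichletCharacter.gammaFactor χ⁻¹ s = DirichletCharacter.gammaFactor χ s := by
  rcases χ.even_or_odd with h | h
  · have h' : χ⁻¹.Even := by
      unfold DirichletCharacter.Even at h ⊢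
      rw [MulChar.inv_apply_eq_inv', h, inv_one]
    rw [h.gammaFactor_def, h'.gammaFactor_def]
  · have h' : χ⁻¹.Odd := by
      unfold DirichletCharacter.Odd at h ⊢
      rw [MulChar.inv_apply_eq_inv', h]; norm_num
    rw [h.gammaFactor_def, h'.gammaFactor_def]

/-- U5 -/
lemma funct_ratio : ∃ c : ℝ, 0 < c ∧ ∀ (q : ℕ) [NeZero q] (χ : DirichletCharacter ℂ q), χ ≠ 1 →
    χ.IsPrimitive →
    c * Real.sqrt q * (‖χ.LFunction (3 / 4)‖ * ‖χ⁻¹.LFunction (3 / 4)‖)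
      ≤ ‖χ.LFunction (1 / 4)‖ * ‖χ⁻¹.LFunction (1 / 4)‖ := by
  have g1 : 0 < ‖Gammaℝ (1 / 4)‖ := norm_pos_iff.mpr (Gammaℝ_ne_zero_of_re_pos (by norm_num))
  have g3 : 0 < ‖Gammaℝ (3 / 4)‖ := norm_pos_iff.mpr (Gammaℝ_ne_zero_of_re_pos (by norm_num))
  have g5 : 0 < ‖Gammaℝ (1 / 4 + 1)‖ := norm_pos_iff.mpr (Gammaℝ_ne_zero_of_re_pos (by norm_num))
  have g7 : 0 < ‖Gammaℝ (3 / 4 + 1)‖ := norm_pos_iff.mpr (Gammaℝ_ne_zero_of_re_pos (by norm_num))
  refine ⟨min ((‖Gammaℝ (3 / 4)‖ / ‖Gammaℝ (1 / 4)‖) ^ 2)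
    ((‖Gammaℝ (3 / 4 + 1)‖ / ‖Gammaℝ (1 / 4 + 1)‖) ^ 2), by positivity, fun q _ χ hχ hp => ?_⟩
  have e1 := hp.completedLFunction_one_sub (3 / 4)
  have e2 := (U5_inv_prim hp).completedLFunction_one_sub (3 / 4)
  rw [inv_inv] at e2
  have e3 : (1 : ℂ) - 3 / 4 = 1 / 4 := by norm_num
  have e4 : (3 / 4 : ℂ) - 1 / 2 = ((1 / 4 : ℝ) : ℂ) := by norm_num
  rw [e3, e4, U5_comp hχ (by norm_num), U5_comp (U5_inv_ne hχ) (by norm_num), U5_gamma_inv] at e1
  rw [e3, e4, U5_comp hχ (by norm_num), U5_comp (U5_inv_ne hχ) (by norm_num), U5_gamma_inv] at e2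
  have hq : (0 : ℝ) < q := by exact_mod_cast Nat.pos_of_ne_zero (NeZero.ne q)
  have n1 : ‖(q : ℂ) ^ (((1 / 4 : ℝ) : ℝ) : ℂ)‖ = (q : ℝ) ^ (1 / 4 : ℝ) := by
    rw [show (q : ℂ) = ((q : ℝ) : ℂ) by norm_num, Complex.norm_cpow_eq_rpow_re_of_pos hq]
    simp
  have n2 : (q : ℝ) ^ (1 / 4 : ℝ) * (q : ℝ) ^ (1 / 4 : ℝ) = Real.sqrt q := by
    rw [← Real.rpow_add hq, Real.sqrt_eq_rpow]; norm_num
  have hW : ‖DirichletCharacter.rootNumber χ‖ * ‖DirichletCharacter.rootNumber χ⁻¹‖ = 1 := by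
    rw [← norm_mul, U5_root hχ hp, norm_one]
  set a1 := ‖χ.LFunction (1 / 4)‖
  set a2 := ‖χ⁻¹.LFunction (1 / 4)‖
  set b1 := ‖χ.LFunction (3 / 4)‖
  set b2 := ‖χ⁻¹.LFunction (3 / 4)‖
  have f1 : ‖DirichletCharacter.gammaFactor χ (1 / 4)‖ * a1
      = (q : ℝ) ^ (1 / 4 : ℝ) * ‖DirichletCharacter.rootNumber χ‖ *
        (‖DirichletCharacter.gammaFactor χ (3 / 4)‖ * b2) := by
    have := congrArg norm e1
    simpa only [norm_mul, n1] using this
  have f2 : ‖DirichletCharacter.gammaFactor χ (1 / 4)‖ * a2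
      = (q : ℝ) ^ (1 / 4 : ℝ) * ‖DirichletCharacter.rootNumber χ⁻¹‖ *
        (‖DirichletCharacter.gammaFactor χ (3 / 4)‖ * b1) := by
    have := congrArg norm e2
    simpa only [norm_mul, n1] using this
  have f3 : ‖DirichletCharacter.gammaFactor χ (1 / 4)‖ ^ 2 * (a1 * a2) =
      Real.sqrt q * (‖DirichletCharacter.gammaFactor χ (3 / 4)‖ ^ 2 * (b1 * b2)) := by
    calc _ = (‖DirichletCharacter.gammaFactor χ (1 / 4)‖ * a1) *
          (‖DirichletCharacter.gammaFactor χ (1 / 4)‖ * a2) := by ring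
      _ = ((q : ℝ) ^ (1 / 4 : ℝ) * (q : ℝ) ^ (1 / 4 : ℝ)) *
          (‖DirichletCharacter.rootNumber χ‖ * ‖DirichletCharacter.rootNumber χ⁻¹‖) *
          (‖DirichletCharacter.gammaFactor χ (3 / 4)‖ ^ 2 * (b1 * b2)) := by rw [f1, f2]; ring
      _ = _ := by rw [n2, hW, mul_one]
  have key : ∀ x y : ℝ, 0 < x → ‖DirichletCharacter.gammaFactor χ (1 / 4)‖ = x →
      ‖DirichletCharacter.gammaFactor χ (3 / 4)‖ = y →
      a1 * a2 = (y / x) ^ 2 * Real.sqrt q * (b1 * b2) := by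
    intro x y hx h1 h2
    rw [h1, h2] at f3
    have hx2 : x ^ 2 ≠ 0 := by positivity
    have : a1 * a2 = (x ^ 2)⁻¹ * (x ^ 2 * (a1 * a2)) := by
      rw [← mul_assoc, inv_mul_cancel₀ hx2, one_mul]
    rw [this, f3, div_pow]
    field_simp
  have hb : 0 ≤ b1 * b2 := by positivity
  rcases χ.even_or_odd with h | h
  · rw [key _ _ g1 (by rw [h.gammaFactor_def]) (by rw [h.gammaFactor_def])]
    gcongr
    exact min_le_left _ _
  · rw [key _ _ g5 (by rw [h.gammaFactor_def]) (by rw [h.gammaFactor_def])]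
    gcongr
    exact min_le_right _ _

lemma U6_level_ne {q : ℕ} [NeZero q] {χ : DirichletCharacter ℂ q} (hχ : χ ≠ 1) : q ≠ 1 := by
  rintro rfl
  exact hχ (DirichletCharacter.level_one χ)

lemma U6_inv_prim {q : ℕ} {χ : DirichletCharacter ℂ q} (hp : χ.IsPrimitive) :
    χ⁻¹.IsPrimitive := by
  unfold DirichletCharacter.IsPrimitive at hp ⊢
  rw [DirichletCharacter.conductor_inv, hp]

lemma U6_gamma_ne {q : ℕ} [NeZero q] (χ : DirichletCharacter ℂ q) {s : ℂ} (hs : 0 < s.re) :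
    DirichletCharacter.gammaFactor χ s ≠ 0 := by
  rcases χ.even_or_odd with h | h
  · rw [h.gammaFactor_def]; exact Gammaℝ_ne_zero_of_re_pos hs
  · rw [h.gammaFactor_def]; apply Gammaℝ_ne_zero_of_re_pos
    simp; linarith

lemma U6_comp {q : ℕ} [NeZero q] {χ : DirichletCharacter ℂ q} (hχ : χ ≠ 1) {s : ℂ}
    (hs : 0 < s.re) :
    DirichletCharacter.completedLFunction χ s
      = DirichletCharacter.gammaFactor χ s * χ.LFunction s := by
  rw [χ.LFunction_eq_completed_div_gammaFactor s (Or.inr (U6_level_ne hχ))]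
  have := U6_gamma_ne χ hs
  field_simp

lemma U6_inv_ne {q : ℕ} {χ : DirichletCharacter ℂ q} (hχ : χ ≠ 1) : χ⁻¹ ≠ 1 :=
  fun h => hχ (inv_eq_one.mp h)

lemma U6_root {q : ℕ} [NeZero q] {χ : DirichletCharacter ℂ q} (hχ : χ ≠ 1)
    (hp : χ.IsPrimitive) :
    DirichletCharacter.rootNumber χ * DirichletCharacter.rootNumber χ⁻¹ = 1 := by
  have h1 := hp.completedLFunction_one_sub 2
  have h2 := (U6_inv_prim hp).completedLFunction_one_sub (1 - 2)
  rw [inv_inv, sub_sub_cancel, h1] at h2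
  have h3 : DirichletCharacter.completedLFunction χ⁻¹ 2 ≠ 0 := by
    rw [U6_comp (U6_inv_ne hχ) (by norm_num)]
    refine mul_ne_zero (U6_gamma_ne _ (by norm_num)) ?_
    exact DirichletCharacter.LFunction_ne_zero_of_one_le_re _ (Or.inl (U6_inv_ne hχ)) (by norm_num)
  have hq : (q : ℂ) ≠ 0 := NeZero.ne _
  have h4 : (q : ℂ) ^ ((1 : ℂ) - 2 - 1 / 2) * (q : ℂ) ^ ((2 : ℂ) - 1 / 2) = 1 := by
    rw [← cpow_add _ _ hq]
    norm_num
  have h5 : DirichletCharacter.completedLFunction χ⁻¹ 2 * 1 =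
      DirichletCharacter.completedLFunction χ⁻¹ 2 *
        (DirichletCharacter.rootNumber χ * DirichletCharacter.rootNumber χ⁻¹) := by
    generalize (q : ℂ) ^ ((1 : ℂ) - 2 - 1 / 2) = A at h2 h4
    generalize (q : ℂ) ^ ((2 : ℂ) - 1 / 2) = B at h2 h4
    linear_combination h2 + (DirichletCharacter.completedLFunction χ⁻¹ 2 *
      DirichletCharacter.rootNumber χ * DirichletCharacter.rootNumber χ⁻¹) * h4
  exact (mul_left_cancel₀ h3 h5).symm

/-- U6 -/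
lemma reflect_zero (q : ℕ) [NeZero q] (χ : DirichletCharacter ℂ q) (hχ : χ ≠ 1)
    (hp : χ.IsPrimitive) (ρ : ℂ) (h0 : 0 < ρ.re) (h1 : ρ.re < 1) (hρ : χ.LFunction ρ = 0) :
    χ⁻¹.LFunction (1 - ρ) = 0 := by
  have h2 := hp.completedLFunction_one_sub (1 - ρ)
  rw [sub_sub_cancel, U6_comp hχ h0, hρ, mul_zero] at h2
  have hq : (q : ℂ) ≠ 0 := NeZero.ne _
  have h3 : DirichletCharacter.rootNumber χ ≠ 0 := left_ne_zero_of_mul_eq_one (U6_root hχ hp)
  have h4 : (q : ℂ) ^ ((1 : ℂ) - ρ - 1 / 2) ≠ 0 := by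
    rw [Complex.cpow_def_of_ne_zero hq]; exact Complex.exp_ne_zero _
  have h5 : DirichletCharacter.completedLFunction χ⁻¹ (1 - ρ) = 0 := by
    rcases mul_eq_zero.mp h2.symm with h | h
    · exact absurd h (mul_ne_zero h4 h3)
    · exact h
  rw [DirichletCharacter.LFunction_eq_completed_div_gammaFactor _ _ (Or.inr (U6_level_ne hχ)), h5,
    zero_div]

lemma zero_of_primitive (q : ℕ) [NeZero q] (χ : DirichletCharacter ℂ q) (hχ : χ ≠ 1) (ρ : ℂ)
    [NeZero χ.conductor] :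
    (χ.primitiveCharacter.LFunction ρ = 0 → χ.LFunction ρ = 0) ∧
    (χ.primitiveCharacter⁻¹.LFunction ρ = 0 → χ⁻¹.LFunction ρ = 0) := by
  have h1 : χ.primitiveCharacter ≠ 1 := by
    intro h
    apply hχ
    rw [← χ.changeLevel_primitiveCharacter, h, DirichletCharacter.changeLevel_one]
  have h2 : χ.primitiveCharacter⁻¹ ≠ 1 := by
    intro h
    exact h1 (inv_eq_one.mp h)
  constructor
  · intro h
    have h3 := DirichletCharacter.LFunction_changeLevel χ.conductor_dvd_level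
      χ.primitiveCharacter (s := ρ) (Or.inl h1)
    rw [χ.changeLevel_primitiveCharacter, h, zero_mul] at h3
    exact h3
  · intro h
    have h3 := DirichletCharacter.LFunction_changeLevel χ.conductor_dvd_level
      χ.primitiveCharacter⁻¹ (s := ρ) (Or.inl h2)
    rw [map_inv, χ.changeLevel_primitiveCharacter, h, zero_mul] at h3
    exact h3

end Pool.Agent.EM
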