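import Mathlib

set_option autoImplicit false

namespace Pool.Agent.EM

open Complex Metric Set MeasureTheory

/-- `G_m(z) = Σ_j (z / w_j)^m / (w_j - z)` -/
noncomputable def Gf {ι : Type} [Fintype ι] (m : ℕ) (w : ι → ℂ) (z : ℂ) : ℂ :=
  ∑ j, (z / w j) ^ m / (w j - z)

lemma T1_aux (w z : ℂ) (m M : ℕ) (hmM : m ≤ M) (hw : w ≠ 0) (hz : w ≠ z) :
    (z / w) ^ m / (w - z) =
      ∑ k ∈ Finset.Ico m M, (w⁻¹) ^ (k + 1) * z ^ k + (z / w) ^ M / (w - z) := by
  have hwz : w - z ≠ 0 := sub_ne_zero.mpr hz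
  induction M, hmM using Nat.le_induction with
  | base => simp
  | succ M hM ih =>
    rw [Finset.sum_Ico_succ_top hM, ih]
    have : (z / w) ^ M / (w - z) =
        w⁻¹ ^ (M + 1) * z ^ M + (z / w) ^ (M + 1) / (w - z) := by
      rw [div_pow, div_pow, inv_pow]
      field_simp
      ring
    rw [this]
    ring

/-- T1 -/
lemma Gf_window {ι : Type} [Fintype ι] (w : ι → ℂ) (m M : ℕ) (hmM : m ≤ M) (z : ℂ)
    (hw : ∀ j, w j ≠ 0) (hz : ∀ j, w j ≠ z) :
    Gf m w z = ∑ k ∈ Finset.Ico m M, (∑ j, ((w j)⁻¹) ^ (k + 1)) * z ^ k + Gf M w z := by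
  unfold Gf
  rw [Finset.sum_congr rfl (fun j _ => T1_aux (w j) z m M hmM (hw j) (hz j)),
    Finset.sum_add_distrib, Finset.sum_comm]
  simp only [Finset.sum_mul]

/-- T2 -/
lemma Gf_small {ι : Type} [Fintype ι] (w : ι → ℂ) (m M : ℕ) (hmM : m ≤ M) (z : ℂ)
    (hw : ∀ j, 1 ≤ ‖w j‖) (a : ℝ) (ha : 0 < a) (ha1 : a ≤ 1) (hz : ‖z‖ ≤ 1 - a) (δ : ℝ) (hδ0 : 0 ≤ δ)
    (hδ : ∀ k : ℕ, m < k → k ≤ M → ‖∑ j, ((w j)⁻¹) ^ k‖ ≤ δ) :
    ‖Gf m w z‖ ≤ M * δ + Fintype.card ι * (Real.exp (-(a * M)) / a) := by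
  have hw0 : ∀ j, w j ≠ 0 := fun j h => by
    have := hw j
    rw [h, norm_zero] at this
    linarith
  have hwz : ∀ j, w j ≠ z := fun j h => by
    have := hw j
    rw [h] at this
    linarith
  rw [Gf_window w m M hmM z hw0 hwz]
  have hz1 : ‖z‖ ≤ 1 := by linarith
  refine (norm_add_le _ _).trans (add_le_add ?_ ?_)
  · have h1 : ‖∑ k ∈ Finset.Ico m M, (∑ j, ((w j)⁻¹) ^ (k + 1)) * z ^ k‖ ≤
        ∑ _k ∈ Finset.Ico m M, δ := by
      refine norm_sum_le_of_le _ (fun k hk => ?_)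
      rw [Finset.mem_Ico] at hk
      rw [norm_mul, norm_pow]
      calc ‖∑ j, ((w j)⁻¹) ^ (k + 1)‖ * ‖z‖ ^ k ≤ δ * 1 :=
            mul_le_mul (hδ (k + 1) (by omega) (by omega)) (pow_le_one₀ (norm_nonneg z) hz1)
              (by positivity) hδ0
        _ = δ := mul_one δ
    refine h1.trans ?_
    rw [Finset.sum_const, Nat.card_Ico, nsmul_eq_mul]
    refine mul_le_mul_of_nonneg_right ?_ hδ0
    exact_mod_cast Nat.sub_le M m
  · have hexp : (1 - a) ^ M ≤ Real.exp (-(a * M)) := by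
      have h2 : 1 - a ≤ Real.exp (-a) := Real.one_sub_le_exp_neg a
      calc (1 - a) ^ M ≤ (Real.exp (-a)) ^ M := pow_le_pow_left₀ (by linarith) h2 M
        _ = Real.exp (-(a * M)) := by
          rw [← Real.exp_nat_mul]
          congr 1
          ring
    have h1 : ‖Gf M w z‖ ≤ ∑ _j : ι, Real.exp (-(a * M)) / a := by
      refine norm_sum_le_of_le _ (fun j _ => ?_)
      rw [norm_div, norm_pow, norm_div]
      have h3 : ‖z‖ / ‖w j‖ ≤ 1 - a := by
        rw [div_le_iff₀ (by linarith [hw j])]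
        nlinarith [hw j, norm_nonneg z]
      have h4 : a ≤ ‖w j - z‖ := by
        have := norm_sub_norm_le (w j) z
        linarith [hw j]
      refine div_le_div₀ (Real.exp_pos _).le ?_ ha h4
      exact (pow_le_pow_left₀ (by positivity) h3 M).trans hexp
    refine h1.trans ?_
    rw [Finset.sum_const, Finset.card_univ, nsmul_eq_mul]

lemma T3_term (w : ℂ) (hw : w ≠ 0) (m : ℕ) (r : ℝ) (hr : 0 < r) (hr1 : ‖w - 1‖ ≠ r) :
    (∮ z in C(1, r), (z / w) ^ m / (w - z)) =
      if ‖w - 1‖ < r then -(2 * Real.pi * I) else 0 := by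
  have hdiff : ∀ s : Set ℂ, DifferentiableOn ℂ (fun z : ℂ => (z / w) ^ m) s := by
    intro s
    exact ((differentiable_id.div_const w).pow m).differentiableOn
  split_ifs with h
  · have h1 : w ∈ ball (1 : ℂ) r := by
      rwa [mem_ball, dist_eq_norm]
    have h2 := (hdiff (closedBall 1 r)).circleIntegral_sub_inv_smul h1
    rw [div_self hw, one_pow, smul_eq_mul, mul_one] at h2
    rw [← h2]
    have h3 : (fun z : ℂ => (z / w) ^ m / (w - z)) =
        fun z => (-1 : ℂ) * ((z - w)⁻¹ • (z / w) ^ m) := by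
      funext z
      rw [smul_eq_mul, ← neg_sub z w, div_neg, div_eq_mul_inv]
      ring
    rw [h3, circleIntegral.integral_const_mul]
    ring
  · have h1 : r < ‖w - 1‖ := lt_of_le_of_ne (not_lt.mp h) (Ne.symm hr1)
    have hne : ∀ z ∈ closedBall (1 : ℂ) r, w - z ≠ 0 := by
      intro z hz h0
      rw [mem_closedBall, dist_eq_norm] at hz
      have : w = z := sub_eq_zero.mp h0
      rw [this] at h1
      linarith
    have h2 : DifferentiableOn ℂ (fun z : ℂ => (z / w) ^ m / (w - z)) (closedBall 1 r) :=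
      (hdiff _).div ((differentiable_const w).sub differentiable_id).differentiableOn hne
    exact (h2.mono closure_ball_subset_closedBall).diffContOnCl.circleIntegral_eq_zero hr.le

/-- T3 -/
lemma circle_lower {ι : Type} [Fintype ι] (w : ι → ℂ) (m : ℕ) (r : ℝ) (hr : 0 < r)
    (hr1 : ∀ j, ‖w j - 1‖ ≠ r) (hw : ∀ j, w j ≠ 0) (j₀ : ι) (hj₀ : w j₀ = 1) :
    ∃ z : ℂ, ‖z - 1‖ = r ∧ 1 ≤ r * ‖Gf m w z‖ := by
  classical
  by_contra hcon
  push Not at hcon
  have hcont : ∀ j, ContinuousOn (fun z : ℂ => (z / w j) ^ m / (w j - z)) (sphere 1 r) := by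
    intro j
    apply ContinuousOn.div
    · exact ((continuous_id.div_const (w j)).pow m).continuousOn
    · exact (continuous_const.sub continuous_id).continuousOn
    · intro z hz h0
      rw [mem_sphere, dist_eq_norm] at hz
      have : w j = z := sub_eq_zero.mp h0
      apply hr1 j
      rw [this]
      exact hz
  have hG : ContinuousOn (Gf m w) (sphere 1 r) := by
    unfold Gf
    exact continuousOn_finsetSum _ (fun j _ => hcont j)
  have hbd : ∀ z ∈ sphere (1 : ℂ) r, ‖Gf m w z‖ < 1 / r := by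
    intro z hz
    rw [mem_sphere, dist_eq_norm] at hz
    rw [lt_div_iff₀ hr, mul_comm]
    exact hcon z hz
  have hlt : ‖∮ z in C(1, r), Gf m w z‖ < 2 * Real.pi * r * (1 / r) := by
    apply circleIntegral.norm_integral_lt_of_norm_le_const_of_lt hr hG
      (fun z hz => (hbd z hz).le)
    refine ⟨1 + r, ?_, hbd _ ?_⟩ <;>
    · rw [mem_sphere, dist_eq_norm]
      simp [abs_of_pos hr]
  have hval : (∮ z in C(1, r), Gf m w z) =
      -(2 * Real.pi * I) * ((Finset.univ.filter (fun j => ‖w j - 1‖ < r)).card : ℂ) := by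
    unfold Gf
    rw [circleIntegral.integral_fun_sum (fun j _ => (hcont j).circleIntegrable hr.le)]
    rw [Finset.sum_congr rfl (fun j _ => T3_term (w j) (hw j) m r hr (hr1 j))]
    rw [← Finset.sum_filter, Finset.sum_const, nsmul_eq_mul]
    ring
  have hN : 1 ≤ (Finset.univ.filter (fun j => ‖w j - 1‖ < r)).card := by
    apply Finset.card_pos.mpr
    refine ⟨j₀, ?_⟩
    rw [Finset.mem_filter, hj₀]
    simpa using hr
  have hN' : (1 : ℝ) ≤ ((Finset.univ.filter (fun j => ‖w j - 1‖ < r)).card : ℝ) := by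
    exact_mod_cast hN
  rw [hval, norm_mul, norm_neg, norm_mul, norm_mul, Complex.norm_I, Complex.norm_natCast] at hlt
  simp only [Complex.norm_ofNat, Complex.norm_real, Real.norm_eq_abs,
    abs_of_pos Real.pi_pos, mul_one] at hlt
  have h4 : 2 * Real.pi * r * (1 / r) = 2 * Real.pi := by
    field_simp
  rw [h4] at hlt
  nlinarith [Real.pi_pos]

/-- T4 -/
lemma radius_choice {ι : Type} (J : Finset ι) (t : ι → ℝ) (ρ : ℝ) (hρ : 0 < ρ) :
    ∃ r : ℝ, ρ ≤ r ∧ r ≤ 2 * ρ ∧ (ρ * Real.exp (-2)) ^ J.card ≤ ∏ j ∈ J, |t j - r| := by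
  classical
  rcases J.eq_empty_or_nonempty with rfl | hJ
  · exact ⟨ρ, le_rfl, by linarith, by simp⟩
  by_contra hcon
  push Not at hcon
  set n := J.card with hn
  have hn0 : n ≠ 0 := by
    rw [hn]
    exact Finset.card_ne_zero.mpr hJ
  have hE : (0 : ℝ) < Real.exp (-2) := Real.exp_pos _
  set M : ℝ := (2 * Real.exp (-2)) ^ n with hM
  have hM0 : 0 < M := by positivity
  set c : ι → ℝ := fun j => (t j - 3 * ρ / 2) / (ρ / 2) with hc
  set P : Polynomial ℝ := Polynomial.C (1 / M) * ∏ j ∈ J, (Polynomial.X - Polynomial.C (c j))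
    with hP
  have hmonic : (∏ j ∈ J, (Polynomial.X - Polynomial.C (c j))).Monic :=
    Polynomial.monic_prod_of_monic _ _ (fun j _ => Polynomial.monic_X_sub_C _)
  have hdeg : P.degree ≤ n := by
    rw [hP]
    rw [Polynomial.degree_C_mul (by positivity : (1 : ℝ) / M ≠ 0), Polynomial.degree_prod]
    simp [Polynomial.degree_X_sub_C, hn]
  have hlead : P.leadingCoeff = 1 / M := by
    rw [hP, Polynomial.leadingCoeff_mul, Polynomial.leadingCoeff_C, hmonic.leadingCoeff, mul_one]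
  have hbd : ∀ x ∈ Set.Icc (-1 : ℝ) 1, |P.eval x| ≤ 1 := by
    intro x hx
    obtain ⟨hx1, hx2⟩ := hx
    have h1 := hcon (3 * ρ / 2 + ρ / 2 * x) (by nlinarith) (by nlinarith)
    have h2 : ∏ j ∈ J, |t j - (3 * ρ / 2 + ρ / 2 * x)| = (ρ / 2) ^ n * ∏ j ∈ J, |x - c j| := by
      rw [hn, ← Finset.prod_const, ← Finset.prod_mul_distrib]
      apply Finset.prod_congr rfl
      intro j _
      have h3 : t j - (3 * ρ / 2 + ρ / 2 * x) = -(ρ / 2 * (x - c j)) := by
        rw [hc]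
        field_simp
        ring
      rw [h3, abs_neg, abs_mul, abs_of_pos (by positivity : (0 : ℝ) < ρ / 2)]
    rw [h2] at h1
    have h4 : |P.eval x| = 1 / M * ∏ j ∈ J, |x - c j| := by
      rw [hP, Polynomial.eval_mul, Polynomial.eval_C, Polynomial.eval_prod, abs_mul,
        abs_of_pos (by positivity : (0 : ℝ) < 1 / M), Finset.abs_prod]
      simp
    rw [h4, div_mul_eq_mul_div, one_mul, div_le_one hM0]
    have h5 : (ρ * Real.exp (-2)) ^ n = (ρ / 2) ^ n * M := by
      rw [hM, ← mul_pow]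
      congr 1
      ring
    rw [h5] at h1
    exact (lt_of_mul_lt_mul_left h1 (by positivity)).le
  have hfin := Polynomial.Chebyshev.leadingCoeff_le_of_forall_abs_le_one hdeg hbd
  rw [hlead] at hfin
  have h2n : (2 : ℝ) ^ (n - 1) ≤ 2 ^ n := pow_le_pow_right₀ (by norm_num) (by omega)
  have h6 : (1 : ℝ) ≤ (4 * Real.exp (-2)) ^ n := by
    have h7 : 1 / M ≤ 2 ^ n := hfin.trans h2n
    rw [div_le_iff₀ hM0, hM, ← mul_pow] at h7
    have h7' : 2 * (2 * Real.exp (-2)) = 4 * Real.exp (-2) := by ring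
    rwa [h7'] at h7
  have h8 : 4 * Real.exp (-2) < 1 := by
    rw [Real.exp_neg]
    rw [← div_eq_mul_inv, div_lt_one (Real.exp_pos _)]
    have h9 : (2 : ℝ) < Real.exp 1 := by
      have := Real.exp_one_gt_d9
      linarith
    have h10 : Real.exp 2 = Real.exp 1 * Real.exp 1 := by
      rw [← Real.exp_add]
      norm_num
    rw [h10]
    nlinarith
  exact absurd h6 (not_le.mpr (pow_lt_one₀ (by positivity) h8 hn0))

lemma T5_re (v : ℂ) : (Complex.cosh ((v - I * Real.pi) / 2)).re =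
    Real.cosh (v.re / 2) * Real.cos ((v.im - Real.pi) / 2) := by
  have h : (v - I * Real.pi) / 2 = ((v.re / 2 : ℝ) : ℂ) + (((v.im - Real.pi) / 2 : ℝ) : ℂ) * I := by
    apply Complex.ext <;> simp
  rw [h, Complex.cosh_add, Complex.cosh_mul_I, Complex.sinh_mul_I, ← Complex.ofReal_cosh,
    ← Complex.ofReal_sinh, ← Complex.ofReal_cos, ← Complex.ofReal_sin]
  simp only [Complex.add_re, Complex.mul_re, Complex.mul_im, Complex.ofReal_re,
    Complex.ofReal_im, Complex.I_re, Complex.I_im]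
  ring

lemma T5_cos (y : ℝ) (h1 : Real.pi / 3 ≤ y) (h2 : y ≤ 5 * Real.pi / 3) :
    1 / 2 ≤ Real.cos ((y - Real.pi) / 2) := by
  rw [← Real.cos_pi_div_three, ← Real.cos_abs ((y - Real.pi) / 2)]
  apply Real.cos_le_cos_of_nonneg_of_le_pi (abs_nonneg _)
  · have := Real.pi_pos
    linarith
  · rw [abs_le]
    constructor <;> linarith

lemma T5_cosh4 : 26 ≤ Real.cosh 4 := by
  rw [Real.cosh_eq]
  have h1 : (2.7182818283 : ℝ) < Real.exp 1 := Real.exp_one_gt_d9
  have h2 : Real.exp 4 = Real.exp 1 ^ 4 := by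
    rw [← Real.exp_nat_mul]
    norm_num
  have h3 : (54 : ℝ) ≤ Real.exp 1 ^ 4 := by
    calc (54 : ℝ) ≤ 2.718 ^ 4 := by norm_num
      _ ≤ Real.exp 1 ^ 4 := pow_le_pow_left₀ (by norm_num) (by linarith) 4
  have h4 := Real.exp_pos (-4)
  linarith

lemma T5_cosh_half : Real.cosh (1 / 2) ≤ 13 / 10 := by
  rw [Real.cosh_eq]
  have h1 : Real.exp (1 / 2) ≤ 2 := by
    have h := Real.add_one_le_exp (-(1 / 2 : ℝ))
    rw [Real.exp_neg] at h
    have h0 := Real.exp_pos (1 / 2 : ℝ)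
    have h2 : (Real.exp (1 / 2))⁻¹ * Real.exp (1 / 2) = 1 := inv_mul_cancel₀ h0.ne'
    nlinarith
  have h5 : Real.exp (1 / 2) ^ 2 = Real.exp 1 := by
    rw [← Real.exp_nat_mul]
    norm_num
  have h6 : Real.exp 1 < 2.7182818286 := Real.exp_one_lt_d9
  have h7 : Real.exp (1 / 2) ≤ 1.65 := by
    by_contra hh
    push Not at hh
    nlinarith
  have h8 : Real.exp (-(1 / 2 : ℝ)) ≤ 0.65 := by
    rw [Real.exp_neg]
    have h9 : (1.6 : ℝ) ≤ Real.exp (1 / 2) := by
      have h10 : (2.7182818283 : ℝ) < Real.exp 1 := Real.exp_one_gt_d9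
      have h11 := Real.exp_pos (1 / 2 : ℝ)
      by_contra hh
      push Not at hh
      nlinarith
    rw [inv_le_comm₀ (Real.exp_pos _) (by norm_num)]
    refine le_trans ?_ h9
    norm_num
  norm_num at h7 h8 ⊢
  linarith

/-- T5 -/
lemma rect_two_const (F : ℂ → ℂ) (A B : ℝ) (hA0 : 0 ≤ A) (hB0 : 0 ≤ B)
    (hF : DiffContOnCl ℂ F (Set.Ioo (-8 : ℝ) 8 ×ℂ Set.Ioo (Real.pi / 3) (5 * Real.pi / 3)))
    (hA : ∀ v : ℂ, |v.re| ≤ 8 → Real.pi / 3 ≤ v.im → v.im ≤ 5 * Real.pi / 3 →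
      ‖F v‖ ≤ Real.exp A)
    (hB : ∀ v : ℂ, |v.re| ≤ 8 → (v.im = Real.pi / 3 ∨ v.im = 5 * Real.pi / 3) →
      ‖F v‖ ≤ Real.exp (-B)) (v : ℂ) (hv : |v.re| ≤ 1) (hv1 : Real.pi / 3 ≤ v.im)
    (hv2 : v.im ≤ 5 * Real.pi / 3) : ‖F v‖ ≤ Real.exp (-B + (A + B) / 10) := by
  have hpi := Real.pi_pos
  set lam : ℝ := (A + B) / 13 with hlam
  have hlam0 : 0 ≤ lam := by positivity
  set G : ℂ → ℂ := fun v => F v * Complex.exp (-(lam * Complex.cosh ((v - I * Real.pi) / 2)))
    with hG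
  have hnorm : ∀ v : ℂ, ‖G v‖ =
      ‖F v‖ * Real.exp (-(lam * (Real.cosh (v.re / 2) * Real.cos ((v.im - Real.pi) / 2)))) := by
    intro v
    rw [hG]
    simp only []
    rw [norm_mul, Complex.norm_exp, Complex.neg_re, Complex.re_ofReal_mul, T5_re]
  have hab : (-8 : ℝ) < 8 := by norm_num
  have hcd : Real.pi / 3 < 5 * Real.pi / 3 := by linarith
  have hGd : DiffContOnCl ℂ G
      (Set.Ioo (-8 : ℝ) 8 ×ℂ Set.Ioo (Real.pi / 3) (5 * Real.pi / 3)) := by
    apply hF.smul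
    apply Differentiable.diffContOnCl
    fun_prop
  have hfr : ∀ z ∈ frontier (Set.Ioo (-8 : ℝ) 8 ×ℂ Set.Ioo (Real.pi / 3) (5 * Real.pi / 3)),
      ‖G z‖ ≤ Real.exp (-B) := by
    intro z hz
    rw [frontier_reProdIm, closure_Ioo hab.ne, frontier_Ioo hab, closure_Ioo hcd.ne,
      frontier_Ioo hcd] at hz
    rw [hnorm z]
    rcases hz with ⟨hz1, hz2⟩ | ⟨hz1, hz2⟩
    · have h1 : |z.re| ≤ 8 := abs_le.mpr ⟨hz1.1, hz1.2⟩
      have h2 : z.im = Real.pi / 3 ∨ z.im = 5 * Real.pi / 3 := by simpa using hz2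
      have h3 := hB z h1 h2
      have h4 : 1 / 2 ≤ Real.cos ((z.im - Real.pi) / 2) := by
        apply T5_cos
        · rcases h2 with h | h <;> rw [h] ; linarith
        · rcases h2 with h | h <;> rw [h] ; linarith
      have h5 := Real.cosh_pos (z.re / 2)
      have h6 : Real.exp (-(lam * (Real.cosh (z.re / 2) *
          Real.cos ((z.im - Real.pi) / 2)))) ≤ 1 := by
        rw [Real.exp_le_one_iff]
        have : 0 ≤ lam * (Real.cosh (z.re / 2) * Real.cos ((z.im - Real.pi) / 2)) := by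
          apply mul_nonneg hlam0 (mul_nonneg h5.le (by linarith))
        linarith
      calc ‖F z‖ * _ ≤ Real.exp (-B) * 1 :=
            mul_le_mul h3 h6 (Real.exp_pos _).le (Real.exp_pos _).le
        _ = Real.exp (-B) := mul_one _
    · have h1 : |z.re| = 8 := by
        have : z.re = -8 ∨ z.re = 8 := by simpa using hz1
        rcases this with h | h <;> rw [h] <;> norm_num
      have h3 := hA z h1.le hz2.1 hz2.2
      have h4 := T5_cos z.im hz2.1 hz2.2
      have h5 : Real.cosh (z.re / 2) = Real.cosh 4 := by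
        rw [← Real.cosh_abs, abs_div, h1]
        norm_num
      have h6 : 13 ≤ Real.cosh (z.re / 2) * Real.cos ((z.im - Real.pi) / 2) := by
        rw [h5]
        nlinarith [T5_cosh4]
      calc ‖F z‖ * _ ≤ Real.exp A * Real.exp (-(lam * 13)) := by
            apply mul_le_mul h3 _ (Real.exp_pos _).le (Real.exp_pos _).le
            apply Real.exp_le_exp.mpr
            have := mul_le_mul_of_nonneg_left h6 hlam0
            linarith
        _ = Real.exp (-B) := by
            rw [← Real.exp_add, hlam]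
            congr 1
            ring
  have hvcl : v ∈ closure
      (Set.Ioo (-8 : ℝ) 8 ×ℂ Set.Ioo (Real.pi / 3) (5 * Real.pi / 3)) := by
    rw [closure_reProdIm, closure_Ioo hab.ne, closure_Ioo hcd.ne]
    rw [abs_le] at hv
    exact ⟨⟨by linarith, by linarith⟩, ⟨hv1, hv2⟩⟩
  have hmain := Complex.norm_le_of_forall_mem_frontier_norm_le
    ((isBounded_Ioo _ _).reProdIm (isBounded_Ioo _ _)) hGd hfr hvcl
  rw [hnorm v] at hmain
  have hch : Real.cosh (v.re / 2) ≤ 13 / 10 := by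
    refine le_trans ?_ T5_cosh_half
    rw [Real.cosh_le_cosh, abs_div]
    rw [abs_of_pos (by norm_num : (0 : ℝ) < 2), abs_of_pos (by norm_num : (0 : ℝ) < 1 / 2)]
    linarith
  have hc0 := T5_cos v.im hv1 hv2
  have hc1 := Real.cos_le_one ((v.im - Real.pi) / 2)
  have hprod : Real.cosh (v.re / 2) * Real.cos ((v.im - Real.pi) / 2) ≤ 13 / 10 := by
    have := Real.cosh_pos (v.re / 2)
    nlinarith
  have h9 : ‖F v‖ ≤ Real.exp (-B) *
      Real.exp (lam * (Real.cosh (v.re / 2) * Real.cos ((v.im - Real.pi) / 2))) := by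
    rw [Real.exp_neg, ← div_eq_mul_inv, div_le_iff₀ (Real.exp_pos _)] at hmain
    exact hmain
  refine h9.trans ?_
  rw [← Real.exp_add]
  apply Real.exp_le_exp.mpr
  have := mul_le_mul_of_nonneg_left hprod hlam0
  have h10 : lam * (13 / 10) = (A + B) / 10 := by
    rw [hlam]
    ring
  linarith

lemma T6_norm_sub (ρ : ℝ) (hρ : 0 < ρ) (v : ℂ) :
    ‖(1 - (ρ : ℂ) * Complex.exp v) - 1‖ = ρ * Real.exp v.re := by
  have : (1 - (ρ : ℂ) * Complex.exp v) - 1 = -((ρ : ℂ) * Complex.exp v) := by ring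
  rw [this, norm_neg, norm_mul, Complex.norm_real, Real.norm_eq_abs, abs_of_pos hρ,
    Complex.norm_exp]

lemma T6_norm (ρ : ℝ) (hρ : 0 < ρ) (v : ℂ) (hs : ρ * Real.exp v.re ≤ 1 / 2)
    (hc : 1 / 2 ≤ Real.cos v.im) :
    ‖1 - (ρ : ℂ) * Complex.exp v‖ ≤ 1 - ρ * Real.exp v.re / 4 := by
  have hs0 : 0 < ρ * Real.exp v.re := by positivity
  apply abs_le_of_sq_le_sq' _ _ |>.2
  · rw [Complex.sq_norm, Complex.normSq_apply]
    simp only [Complex.sub_re, Complex.one_re, Complex.re_ofReal_mul, Complex.exp_re,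
      Complex.sub_im, Complex.one_im, Complex.im_ofReal_mul, Complex.exp_im]
    have h1 := Real.sin_sq_add_cos_sq v.im
    have h2 : (1 - ρ * (Real.exp v.re * Real.cos v.im)) * (1 - ρ * (Real.exp v.re * Real.cos v.im))
        + (0 - ρ * (Real.exp v.re * Real.sin v.im)) * (0 - ρ * (Real.exp v.re * Real.sin v.im)) =
        1 - 2 * (ρ * Real.exp v.re) * Real.cos v.im + (ρ * Real.exp v.re) ^ 2 := by
      calc _ = 1 - 2 * (ρ * Real.exp v.re) * Real.cos v.im +
            (ρ * Real.exp v.re) ^ 2 * (Real.sin v.im ^ 2 + Real.cos v.im ^ 2) := by ring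
        _ = _ := by rw [h1, mul_one]
    rw [h2]
    nlinarith
  · linarith

lemma T6_cos_third : Real.cos (5 * Real.pi / 3) = 1 / 2 := by
  have h : 5 * Real.pi / 3 = 2 * Real.pi - Real.pi / 3 := by ring
  rw [h, Real.cos_two_pi_sub, Real.cos_pi_div_three]

/-- T6 -/
lemma annulus_bound (D : ℂ → ℂ) (ρ A B : ℝ) (hρ : 0 < ρ) (hρ1 : ρ * Real.exp 8 ≤ 1 / 2)
    (hA0 : 0 ≤ A) (hB0 : 0 ≤ B)
    (hD : DifferentiableOn ℂ D {z | ρ * Real.exp (-9) < ‖z - 1‖ ∧ ‖z - 1‖ < ρ * Real.exp 9})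
    (hA : ∀ z : ℂ, ρ * Real.exp (-8) ≤ ‖z - 1‖ → ‖z - 1‖ ≤ ρ * Real.exp 8 →
      ‖D z‖ ≤ Real.exp A)
    (hB : ∀ z : ℂ, ρ * Real.exp (-8) ≤ ‖z - 1‖ → ‖z - 1‖ ≤ ρ * Real.exp 8 →
      ‖z‖ ≤ 1 - ρ * Real.exp (-8) / 4 → ‖D z‖ ≤ Real.exp (-B))
    (z : ℂ) (hz1 : ρ ≤ ‖z - 1‖) (hz2 : ‖z - 1‖ ≤ 2 * ρ) :
    ‖D z‖ ≤ Real.exp (-B + (A + B) / 10) := by
  have hpi := Real.pi_pos
  have hmono : ∀ x y : ℝ, x ≤ y → ρ * Real.exp x ≤ ρ * Real.exp y := fun x y h =>
    mul_le_mul_of_nonneg_left (Real.exp_le_exp.mpr h) hρ.le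
  have hmonos : ∀ x y : ℝ, x < y → ρ * Real.exp x < ρ * Real.exp y := fun x y h =>
    mul_lt_mul_of_pos_left (Real.exp_lt_exp.mpr h) hρ
  -- the function in the logarithmic coordinate
  set F : ℂ → ℂ := fun v => D (1 - (ρ : ℂ) * Complex.exp v) with hF
  have hFA : ∀ v : ℂ, |v.re| ≤ 8 → ‖F v‖ ≤ Real.exp A := by
    intro v hv
    rw [abs_le] at hv
    apply hA
    · rw [T6_norm_sub ρ hρ]
      exact hmono _ _ hv.1
    · rw [T6_norm_sub ρ hρ]
      exact hmono _ _ hv.2
  have hFB : ∀ v : ℂ, |v.re| ≤ 8 → 1 / 2 ≤ Real.cos v.im → ‖F v‖ ≤ Real.exp (-B) := by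
    intro v hv hc
    rw [abs_le] at hv
    apply hB
    · rw [T6_norm_sub ρ hρ]
      exact hmono _ _ hv.1
    · rw [T6_norm_sub ρ hρ]
      exact hmono _ _ hv.2
    · refine (T6_norm ρ hρ v ((hmono _ _ hv.2).trans hρ1) hc).trans ?_
      have := hmono _ _ hv.1
      linarith
  have hFd : DiffContOnCl ℂ F
      (Set.Ioo (-8 : ℝ) 8 ×ℂ Set.Ioo (Real.pi / 3) (5 * Real.pi / 3)) := by
    apply DifferentiableOn.diffContOnCl
    rw [closure_reProdIm, closure_Ioo (by norm_num), closure_Ioo (by linarith)]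
    apply hD.comp (g := D) (f := fun v : ℂ => 1 - (ρ : ℂ) * Complex.exp v)
    · apply Differentiable.differentiableOn
      fun_prop
    · rintro v ⟨hv1, -⟩
      show ρ * Real.exp (-9) < ‖(1 - (ρ : ℂ) * Complex.exp v) - 1‖ ∧
        ‖(1 - (ρ : ℂ) * Complex.exp v) - 1‖ < ρ * Real.exp 9
      rw [T6_norm_sub ρ hρ]
      have h1 : -8 ≤ v.re := hv1.1
      have h2 : v.re ≤ 8 := hv1.2
      exact ⟨hmonos _ _ (by linarith), hmonos _ _ (by linarith)⟩
  have hrect := rect_two_const F A B hA0 hB0 hFd (fun v h _ _ => hFA v h) (fun v h h2 => by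
    apply hFB v h
    rcases h2 with h2 | h2
    · rw [h2, Real.cos_pi_div_three]
    · rw [h2, T6_cos_third])
  -- the logarithmic coordinate of z
  have hz0 : z - 1 ≠ 0 := by
    intro h
    rw [h, norm_zero] at hz1
    linarith
  have hz0' : (1 - z) / (ρ : ℂ) ≠ 0 := by
    apply div_ne_zero
    · intro h
      apply hz0
      rw [← neg_sub, h, neg_zero]
    · exact_mod_cast hρ.ne'
  set v₀ : ℂ := Complex.log ((1 - z) / (ρ : ℂ)) with hv₀
  have hexp : 1 - (ρ : ℂ) * Complex.exp v₀ = z := by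
    rw [hv₀, Complex.exp_log hz0']
    have : (ρ : ℂ) ≠ 0 := by exact_mod_cast hρ.ne'
    field_simp
    ring
  have hre0 : ρ * Real.exp v₀.re = ‖z - 1‖ := by
    rw [← T6_norm_sub ρ hρ, hexp]
  have hre1 : 0 ≤ v₀.re := by
    by_contra hneg
    push Not at hneg
    have := hmonos _ _ hneg
    rw [Real.exp_zero, mul_one, hre0] at this
    linarith
  have hre2 : v₀.re ≤ 1 := by
    by_contra hneg
    push Not at hneg
    have := hmonos _ _ hneg
    rw [hre0] at this
    have h2 : (2 : ℝ) < Real.exp 1 := by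
      have := Real.exp_one_gt_d9
      linarith
    nlinarith
  have habs : |v₀.re| ≤ 1 := abs_le.mpr ⟨by linarith, hre2⟩
  have habs8 : |v₀.re| ≤ 8 := habs.trans (by norm_num)
  have him1 : -Real.pi < v₀.im := Complex.neg_pi_lt_log_im _
  have him2 : v₀.im ≤ Real.pi := Complex.log_im_le_pi _
  have hAB : -B ≤ -B + (A + B) / 10 := by
    have : 0 ≤ (A + B) / 10 := by positivity
    linarith
  rcases le_or_gt |v₀.im| (Real.pi / 3) with hsm | hbig
  · have hc : 1 / 2 ≤ Real.cos v₀.im := by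
      rw [← Real.cos_pi_div_three, ← Real.cos_abs v₀.im]
      exact Real.cos_le_cos_of_nonneg_of_le_pi (abs_nonneg _) (by linarith) hsm
    have h := hFB v₀ habs8 hc
    rw [hF] at h
    simp only [hexp] at h
    exact h.trans (Real.exp_le_exp.mpr hAB)
  · rcases lt_abs.mp hbig with hpos | hneg
    · have h := hrect v₀ habs hpos.le (by linarith)
      rw [hF] at h
      simp only [hexp] at h
      exact h
    · have h := hrect (v₀ + 2 * Real.pi * I) (by simpa using habs)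
        (by
          simp only [Complex.add_im, Complex.mul_im, Complex.mul_re, Complex.ofReal_re,
            Complex.ofReal_im, Complex.I_re, Complex.I_im]
          norm_num
          linarith)
        (by
          simp only [Complex.add_im, Complex.mul_im, Complex.mul_re, Complex.ofReal_re,
            Complex.ofReal_im, Complex.I_re, Complex.I_im]
          norm_num
          linarith)
      rw [hF] at h
      simp only [Complex.exp_add, Complex.exp_two_pi_mul_I, mul_one, hexp] at h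
      exact h

lemma T7_exp_two : 2 * Real.exp (-9) ≤ Real.exp (-8) := by
  have h : Real.exp (-8) = Real.exp 1 * Real.exp (-9) := by
    rw [← Real.exp_add]; norm_num
  rw [h]
  have h1 : (2 : ℝ) ≤ Real.exp 1 := by
    have := Real.add_one_le_exp (1 : ℝ)
    linarith
  have h2 := Real.exp_pos (-9)
  nlinarith

lemma T7_exp_nine : 2 * Real.exp 8 ≤ Real.exp 9 := by
  have h : Real.exp 9 = Real.exp 1 * Real.exp 8 := by
    rw [← Real.exp_add]; norm_num
  rw [h]
  have h1 : (2 : ℝ) ≤ Real.exp 1 := by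
    have := Real.add_one_le_exp (1 : ℝ)
    linarith
  have h2 := Real.exp_pos 8
  nlinarith

/-- T7 -/
lemma exists_D {ι : Type} [Fintype ι] [DecidableEq ι] (w : ι → ℂ) (hw : ∀ j, 1 ≤ ‖w j‖) (m : ℕ) (ρ : ℝ)
    (hρ : 0 < ρ) (hρ1 : ρ * Real.exp 8 ≤ 1 / 2) (J : Finset ι)
    (hJ : ∀ j, j ∈ J ↔ (ρ * Real.exp (-9) ≤ ‖w j - 1‖ ∧ ‖w j - 1‖ ≤ ρ * Real.exp 9)) :
    ∃ D : ℂ → ℂ,
      DifferentiableOn ℂ D {z | ρ * Real.exp (-9) < ‖z - 1‖ ∧ ‖z - 1‖ < ρ * Real.exp 9} ∧
      (∀ z : ℂ, ρ * Real.exp (-8) ≤ ‖z - 1‖ → ‖z - 1‖ ≤ ρ * Real.exp 8 →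
        ‖D z‖ ≤ Fintype.card ι * (Real.exp 9 / ρ) * Real.exp (ρ * Real.exp 8 * m)) ∧
      (∀ z : ℂ, ρ * Real.exp (-8) ≤ ‖z - 1‖ → ‖z - 1‖ ≤ ρ * Real.exp 8 → (∀ j, w j ≠ z) →
        D z = (∏ j ∈ J, (z - w j) / ((2 * ρ * Real.exp 9 : ℝ) : ℂ)) * Gf m w z) := by
  set c : ℝ := 2 * ρ * Real.exp 9 with hc
  have hc0 : 0 < c := by positivity
  have hcC : ((c : ℝ) : ℂ) ≠ 0 := by exact_mod_cast hc0.ne'
  have hw0 : ∀ j, w j ≠ 0 := by
    intro j h
    have := hw j
    rw [h, norm_zero] at this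
    linarith
  have e9 : Real.exp (-9) = (Real.exp 9)⁻¹ := Real.exp_neg 9
  have h1e9 : 1 ≤ Real.exp 9 := Real.one_le_exp (by norm_num)
  have hE9 : 0 < Real.exp 9 := Real.exp_pos 9
  refine ⟨fun z => ∑ j ∈ Jᶜ, (z / w j) ^ m * (∏ i ∈ J, (z - w i) / ((c : ℝ) : ℂ)) / (w j - z) -
    ∑ j ∈ J, (z / w j) ^ m * (∏ i ∈ J.erase j, (z - w i) / ((c : ℝ) : ℂ)) / ((c : ℝ) : ℂ),
    ?_, ?_, ?_⟩
  · apply DifferentiableOn.sub
    · apply DifferentiableOn.fun_sum
      intro j hj
      rw [Finset.mem_compl, hJ] at hj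
      apply DifferentiableOn.div
      · apply DifferentiableOn.mul
        · fun_prop
        · apply DifferentiableOn.fun_finsetProd
          intro i _
          fun_prop
      · fun_prop
      · intro z hz h
        rw [sub_eq_zero] at h
        apply hj
        rw [h]
        exact ⟨hz.1.le, hz.2.le⟩
    · apply DifferentiableOn.fun_sum
      intro j hj
      apply DifferentiableOn.div
      · apply DifferentiableOn.mul
        · fun_prop
        · apply DifferentiableOn.fun_finsetProd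
          intro i _
          fun_prop
      · fun_prop
      · intro z hz
        exact hcC
  · intro z hz1 hz2
    have hzn : ‖z‖ ≤ Real.exp (ρ * Real.exp 8) := by
      have h1 : ‖z‖ ≤ ‖z - 1‖ + 1 := by
        have := norm_add_le (z - 1) 1
        rw [sub_add_cancel, norm_one] at this
        exact this
      have h2 := Real.add_one_le_exp (ρ * Real.exp 8)
      linarith
    have hpow : ∀ j, ‖(z / w j) ^ m‖ ≤ Real.exp (ρ * Real.exp 8 * m) := by
      intro j
      rw [norm_pow, norm_div]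
      have h1 : ‖z‖ / ‖w j‖ ≤ Real.exp (ρ * Real.exp 8) :=
        (div_le_self (norm_nonneg _) (hw j)).trans hzn
      calc (‖z‖ / ‖w j‖) ^ m ≤ Real.exp (ρ * Real.exp 8) ^ m :=
            pow_le_pow_left₀ (by positivity) h1 m
        _ = Real.exp (ρ * Real.exp 8 * m) := by
            rw [← Real.exp_nat_mul]; ring_nf
    have hprod : ∀ s : Finset ι, s ⊆ J → ‖∏ i ∈ s, (z - w i) / ((c : ℝ) : ℂ)‖ ≤ 1 := by
      intro s hs
      rw [norm_prod]
      apply Finset.prod_le_one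
      · intro i _
        exact norm_nonneg _
      · intro i hi
        have hiJ := (hJ i).1 (hs hi)
        rw [norm_div, Complex.norm_real, Real.norm_eq_abs, abs_of_pos hc0, div_le_one hc0]
        have h1 : ‖z - w i‖ ≤ ‖z - 1‖ + ‖w i - 1‖ := by
          have := norm_sub_le (z - 1) (w i - 1)
          rwa [sub_sub_sub_cancel_right] at this
        have h2 : ρ * Real.exp 8 ≤ ρ * Real.exp 9 := by
          apply mul_le_mul_of_nonneg_left _ hρ.le
          exact Real.exp_le_exp.mpr (by norm_num)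
        rw [hc]
        linarith [hiJ.2]
    have hB0 : 0 ≤ Real.exp 9 / ρ * Real.exp (ρ * Real.exp 8 * m) := by positivity
    have t1 : ∀ j ∈ Jᶜ, ‖(z / w j) ^ m * (∏ i ∈ J, (z - w i) / ((c : ℝ) : ℂ)) / (w j - z)‖ ≤
        Real.exp 9 / ρ * Real.exp (ρ * Real.exp 8 * m) := by
      intro j hj
      rw [Finset.mem_compl, hJ, not_and_or, not_le, not_le] at hj
      have hden : ρ * Real.exp (-9) ≤ ‖w j - z‖ := by
        rcases hj with hj | hj
        · have h1 : ‖z - 1‖ - ‖w j - 1‖ ≤ ‖w j - z‖ := by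
            have := norm_sub_norm_le (z - 1) (w j - 1)
            rw [sub_sub_sub_cancel_right, norm_sub_rev z (w j)] at this
            exact this
          have h2 := mul_le_mul_of_nonneg_left T7_exp_two hρ.le
          linarith
        · have h1 : ‖w j - 1‖ - ‖z - 1‖ ≤ ‖w j - z‖ := by
            have := norm_sub_norm_le (w j - 1) (z - 1)
            rw [sub_sub_sub_cancel_right] at this
            exact this
          have h2 := mul_le_mul_of_nonneg_left T7_exp_nine hρ.le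
          have h3 : Real.exp (-9) ≤ Real.exp 8 := Real.exp_le_exp.mpr (by norm_num)
          have h4 := mul_le_mul_of_nonneg_left h3 hρ.le
          linarith
      have hden0 : 0 < ρ * Real.exp (-9) := by positivity
      rw [norm_div, norm_mul]
      calc ‖(z / w j) ^ m‖ * ‖∏ i ∈ J, (z - w i) / ((c : ℝ) : ℂ)‖ / ‖w j - z‖
          ≤ Real.exp (ρ * Real.exp 8 * m) * 1 / (ρ * Real.exp (-9)) := by
            apply div_le_div₀ (by positivity) _ hden0 hden
            exact mul_le_mul (hpow j) (hprod J (Finset.Subset.refl _)) (norm_nonneg _)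
              (Real.exp_pos _).le
        _ = Real.exp 9 / ρ * Real.exp (ρ * Real.exp 8 * m) := by
            rw [e9]
            field_simp
    have t2 : ∀ j ∈ J, ‖(z / w j) ^ m * (∏ i ∈ J.erase j, (z - w i) / ((c : ℝ) : ℂ)) /
        ((c : ℝ) : ℂ)‖ ≤ Real.exp 9 / ρ * Real.exp (ρ * Real.exp 8 * m) := by
      intro j hj
      rw [norm_div, norm_mul, Complex.norm_real, Real.norm_eq_abs, abs_of_pos hc0]
      calc ‖(z / w j) ^ m‖ * ‖∏ i ∈ J.erase j, (z - w i) / ((c : ℝ) : ℂ)‖ / c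
          ≤ Real.exp (ρ * Real.exp 8 * m) * 1 / (ρ * Real.exp (-9)) := by
            apply div_le_div₀ (by positivity)
              (mul_le_mul (hpow j) (hprod _ (Finset.erase_subset _ _)) (norm_nonneg _)
              (Real.exp_pos _).le) (by positivity)
            rw [hc]
            have h3 : Real.exp (-9) ≤ Real.exp 9 := Real.exp_le_exp.mpr (by norm_num)
            have h4 := mul_le_mul_of_nonneg_left h3 hρ.le
            have h5 : 0 < ρ * Real.exp 9 := by positivity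
            linarith
        _ = Real.exp 9 / ρ * Real.exp (ρ * Real.exp 8 * m) := by
            rw [e9]
            field_simp
    refine (norm_sub_le _ _).trans ?_
    have s1 := norm_sum_le_of_le Jᶜ t1
    have s2 := norm_sum_le_of_le J t2
    rw [Finset.sum_const, nsmul_eq_mul] at s1 s2
    have hcd : ((Jᶜ.card : ℕ) : ℝ) + ((J.card : ℕ) : ℝ) = Fintype.card ι := by
      have := Finset.card_compl_add_card J
      exact_mod_cast this
    calc _ ≤ (Jᶜ.card : ℝ) * (Real.exp 9 / ρ * Real.exp (ρ * Real.exp 8 * m)) +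
          (J.card : ℝ) * (Real.exp 9 / ρ * Real.exp (ρ * Real.exp 8 * m)) := add_le_add s1 s2
      _ = ((Jᶜ.card : ℝ) + (J.card : ℝ)) * (Real.exp 9 / ρ * Real.exp (ρ * Real.exp 8 * m)) := by
          ring
      _ = _ := by rw [hcd]; ring
  · intro z _ _ hz
    simp only [Gf]
    rw [← Finset.sum_compl_add_sum J, mul_add, Finset.mul_sum, Finset.mul_sum, sub_eq_add_neg,
      ← Finset.sum_neg_distrib]
    congr 1
    · apply Finset.sum_congr rfl
      intro j _
      ring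
    · apply Finset.sum_congr rfl
      intro j hj
      rw [← Finset.mul_prod_erase J _ hj]
      have h1 : w j - z ≠ 0 := sub_ne_zero.mpr (hz j)
      field_simp
      ring

lemma annuli_pigeonhole {ι : Type} [Fintype ι] (t : ι → ℝ) (ρ₀ : ℝ) (hρ : 0 < ρ₀) (I : ℕ)
    (hI : 0 < I) : ∃ i : ℕ, i < I ∧ (I : ℝ) * ((Finset.univ.filter (fun j =>
      ρ₀ * Real.exp (-19 * i) * Real.exp (-9) ≤ t j ∧
        t j ≤ ρ₀ * Real.exp (-19 * i) * Real.exp 9)).card : ℝ) ≤ Fintype.card ι := by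
  classical
  set J : ℕ → Finset ι := fun i => Finset.univ.filter (fun j =>
      ρ₀ * Real.exp (-19 * i) * Real.exp (-9) ≤ t j ∧
        t j ≤ ρ₀ * Real.exp (-19 * i) * Real.exp 9) with hJ
  have hlt : ∀ i k : ℕ, i < k → ∀ j, ¬ (j ∈ J i ∧ j ∈ J k) := by
    rintro i k hik j ⟨h1, h2⟩
    simp only [hJ, Finset.mem_filter, Finset.mem_univ, true_and] at h1 h2
    have h3 := h1.1.trans h2.2
    rw [mul_assoc, mul_assoc, ← Real.exp_add, ← Real.exp_add] at h3
    have h4 := le_of_mul_le_mul_left h3 hρ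
    rw [Real.exp_le_exp] at h4
    have h5 : (i : ℝ) + 1 ≤ k := by exact_mod_cast hik
    linarith
  have hdis : ∀ i ∈ Finset.range I, ∀ k ∈ Finset.range I, i ≠ k → Disjoint (J i) (J k) := by
    intro i _ k _ hik
    rw [Finset.disjoint_left]
    intro j h1 h2
    rcases lt_or_gt_of_ne hik with h | h
    · exact hlt i k h j ⟨h1, h2⟩
    · exact hlt k i h j ⟨h2, h1⟩
  have hcard : ∑ i ∈ Finset.range I, (J i).card ≤ Fintype.card ι := by
    rw [← Finset.card_biUnion hdis]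
    exact Finset.card_le_univ _
  by_contra hcon
  push Not at hcon
  have h1 : ∀ i ∈ Finset.range I, (Fintype.card ι : ℝ) < (I : ℝ) * ((J i).card : ℝ) := by
    intro i hi
    exact hcon i (Finset.mem_range.mp hi)
  have hne : (Finset.range I).Nonempty := ⟨0, Finset.mem_range.mpr hI⟩
  have h2 := Finset.sum_lt_sum_of_nonempty hne h1
  rw [Finset.sum_const, Finset.card_range, nsmul_eq_mul, ← Finset.mul_sum] at h2
  have hIp : (0 : ℝ) < I := by exact_mod_cast hI
  have h3 := lt_of_mul_lt_mul_left h2 hIp.le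
  have h4 : ((∑ i ∈ Finset.range I, (J i).card : ℕ) : ℝ) ≤ Fintype.card ι := by exact_mod_cast hcard
  push_cast at h4
  linarith

end Pool.Agent.EM
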