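import Mathlib
import Pool.Agent.Lib.MP_9cfc0a_nt.EMPower

set_option autoImplicit false

namespace Pool.Agent.EM

open Complex Metric Set MeasureTheory

lemma exists_m0 (C c : ℝ) (hc : 0 < c) : ∃ m₀ : ℕ, ∀ m : ℕ, m₀ ≤ m → C * m ≤ Real.exp (c * m) := by
  have h1 : Filter.Tendsto (fun x : ℝ => Real.exp (c * x) / x) Filter.atTop Filter.atTop := by
    have h2 := Real.tendsto_exp_div_pow_atTop 1
    have h3 : Filter.Tendsto (fun x : ℝ => c * x) Filter.atTop Filter.atTop :=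
      Filter.Tendsto.const_mul_atTop hc Filter.tendsto_id
    have h4 := (h2.comp h3).const_mul_atTop hc
    refine h4.congr' ?_
    filter_upwards [Filter.eventually_gt_atTop (0 : ℝ)] with x hx
    simp only [Function.comp, pow_one]
    field_simp
  have h5 := (h1.eventually_ge_atTop C).and (Filter.eventually_gt_atTop (0 : ℝ))
  rw [Filter.eventually_atTop] at h5
  obtain ⟨a, ha⟩ := h5
  refine ⟨⌈a⌉₊, fun m hm => ?_⟩
  have h6 : a ≤ m := Nat.ceil_le.mp hm
  obtain ⟨h7, h8⟩ := ha m h6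
  rwa [le_div_iff₀ h8] at h7

/-- A Turan type lower bound for power sums in a long window. -/
theorem turan_window (ε c₀ : ℝ) (hε : 0 < ε) (hc : 0 < c₀) :
    ∃ L m₀ : ℕ, ∀ m : ℕ, m₀ ≤ m → ∀ (ι : Type) [Fintype ι] (w : ι → ℂ),
      (Fintype.card ι : ℝ) ≤ c₀ * m → (∀ j, 1 ≤ ‖w j‖) → (∃ j, w j = 1) →
      ∃ k : ℕ, m ≤ k ∧ k ≤ L * m ∧ Real.exp (-(ε * m)) ≤ ‖∑ j, ((w j)⁻¹) ^ k‖ := by
  wlog hε1 : ε ≤ 1 generalizing ε with H
  · obtain ⟨L, m₀, h⟩ := H 1 one_pos le_rfl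
    refine ⟨L, m₀, fun m hm ι _ w h1 h2 h3 => ?_⟩
    obtain ⟨k, hk1, hk2, hk3⟩ := h m hm ι w h1 h2 h3
    refine ⟨k, hk1, hk2, le_trans (Real.exp_le_exp.mpr ?_) hk3⟩
    have : (0 : ℝ) ≤ m := Nat.cast_nonneg m
    nlinarith
  set I : ℕ := ⌈48 * c₀ / ε⌉₊ + 1 with hI
  have hI0 : 0 < I := by omega
  have hIR : 48 * c₀ / ε ≤ I := by
    rw [hI]; push_cast
    linarith [Nat.le_ceil (48 * c₀ / ε)]
  set ρ₀ : ℝ := ε * Real.exp (-8) / 16 with hρ₀
  have hρ₀0 : 0 < ρ₀ := by rw [hρ₀]; positivity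
  set ρm : ℝ := ρ₀ * Real.exp (-19 * I) with hρm
  have hρm0 : 0 < ρm := by rw [hρm]; positivity
  set am : ℝ := ρm * Real.exp (-8) / 4 with ham
  have ham0 : 0 < am := by rw [ham]; positivity
  set L : ℕ := ⌈ε / am⌉₊ + 1 with hL
  have hLR : ε / am ≤ L := by
    rw [hL]; push_cast
    linarith [Nat.le_ceil (ε / am)]
  have hL1 : 1 ≤ L := by omega
  obtain ⟨m1, hm1⟩ := exists_m0 (L + c₀ / am) (ε / 10) (by positivity)
  obtain ⟨m2, hm2⟩ := exists_m0 (c₀ * (Real.exp 9 / ρm)) (3 / 16 * ε) (by positivity)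
  refine ⟨L, max (max m1 m2) 1, fun m hm ι _ w hn hw hw1 => ?_⟩
  have hmm1 : m1 ≤ m := le_trans (le_trans (le_max_left _ _) (le_max_left _ _)) hm
  have hmm2 : m2 ≤ m := le_trans (le_trans (le_max_right _ _) (le_max_left _ _)) hm
  have hmm3 : 1 ≤ m := le_trans (le_max_right _ _) hm
  have h1 := hm1 m hmm1
  have h2 := hm2 m hmm2
  have hm0 : (0 : ℝ) < m := by exact_mod_cast hmm3
  by_contra hcon
  push Not at hcon
  classical
  obtain ⟨i, hi, hiJ⟩ := annuli_pigeonhole (fun j => ‖w j - 1‖) ρ₀ hρ₀0 I hI0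
  set ρ : ℝ := ρ₀ * Real.exp (-19 * i) with hρ
  have hρ0 : 0 < ρ := by rw [hρ]; positivity
  have hρm_le : ρm ≤ ρ := by
    rw [hρm, hρ]
    have h3 : (i : ℝ) ≤ I := by exact_mod_cast hi.le
    have h4 : Real.exp (-19 * I) ≤ Real.exp (-19 * i) := by
      rw [Real.exp_le_exp]; linarith
    gcongr
  have hρ_le : ρ ≤ ρ₀ := by
    rw [hρ]
    have : Real.exp (-19 * i) ≤ 1 := by
      rw [Real.exp_le_one_iff]
      have : (0 : ℝ) ≤ i := Nat.cast_nonneg i
      linarith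
    nlinarith
  have hρe8 : ρ * Real.exp 8 ≤ ε / 16 := by
    calc ρ * Real.exp 8 ≤ ρ₀ * Real.exp 8 := by gcongr
      _ = ε / 16 := by
        rw [hρ₀]
        have : Real.exp (-8) * Real.exp 8 = 1 := by rw [← Real.exp_add]; simp
        calc ε * Real.exp (-8) / 16 * Real.exp 8 = ε * (Real.exp (-8) * Real.exp 8) / 16 := by ring
          _ = ε / 16 := by rw [this]; ring
  have hρ1 : ρ * Real.exp 8 ≤ 1 / 2 := by linarith
  set J : Finset ι := Finset.univ.filter (fun j => ρ * Real.exp (-9) ≤ ‖w j - 1‖ ∧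
    ‖w j - 1‖ ≤ ρ * Real.exp 9) with hJ
  have hJcard : (J.card : ℝ) ≤ ε * m / 48 := by
    have h3 : (I : ℝ) * J.card ≤ c₀ * m := hiJ.trans hn
    have h4 : 48 * c₀ / ε * J.card ≤ c₀ * m := le_trans (by gcongr) h3
    have h5 : 48 * c₀ / ε * J.card = c₀ * (48 * J.card / ε) := by field_simp
    rw [h5] at h4
    have h6 := le_of_mul_le_mul_left h4 hc
    rw [div_le_iff₀ hε] at h6
    linarith
  obtain ⟨D, hD1, hD2, hD3⟩ := exists_D w hw m ρ hρ0 hρ1 J (by intro j; simp [hJ])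
  -- upper bound on the annulus
  have hA : ∀ z : ℂ, ρ * Real.exp (-8) ≤ ‖z - 1‖ → ‖z - 1‖ ≤ ρ * Real.exp 8 →
      ‖D z‖ ≤ Real.exp (ε * m / 4) := by
    intro z hz1 hz2
    refine (hD2 z hz1 hz2).trans ?_
    calc (Fintype.card ι : ℝ) * (Real.exp 9 / ρ) * Real.exp (ρ * Real.exp 8 * m)
        ≤ (c₀ * m) * (Real.exp 9 / ρm) * Real.exp (ε / 16 * m) := by gcongr
      _ = (c₀ * (Real.exp 9 / ρm) * m) * Real.exp (ε / 16 * m) := by ring
      _ ≤ Real.exp (3 / 16 * ε * m) * Real.exp (ε / 16 * m) := by gcongr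
      _ = Real.exp (ε * m / 4) := by rw [← Real.exp_add]; congr 1; ring
  have hwz : ∀ z : ℂ, ‖z‖ < 1 → ∀ j, w j ≠ z := by
    intro z hz j h
    have := hw j
    rw [h] at this
    linarith
  have hw0 : ∀ j, w j ≠ 0 := by
    intro j h
    have := hw j
    rw [h, norm_zero] at this
    linarith
  have hBle : ∀ z : ℂ, ρ * Real.exp (-8) ≤ ‖z - 1‖ → ‖z - 1‖ ≤ ρ * Real.exp 8 →
      ‖∏ j ∈ J, (z - w j) / ((2 * ρ * Real.exp 9 : ℝ) : ℂ)‖ ≤ 1 := by
    intro z hz1 hz2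
    rw [norm_prod]
    refine Finset.prod_le_one (fun j _ => norm_nonneg _) (fun j hj => ?_)
    have h3 : ‖w j - 1‖ ≤ ρ * Real.exp 9 := by
      rw [hJ, Finset.mem_filter] at hj; exact hj.2.2
    rw [norm_div, Complex.norm_real, Real.norm_of_nonneg (by positivity)]
    rw [div_le_one (by positivity)]
    calc ‖z - w j‖ = ‖(z - 1) - (w j - 1)‖ := by congr 1; ring
      _ ≤ ‖z - 1‖ + ‖w j - 1‖ := norm_sub_le _ _
      _ ≤ ρ * Real.exp 8 + ρ * Real.exp 9 := by gcongr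
      _ ≤ ρ * Real.exp 9 + ρ * Real.exp 9 := by gcongr; norm_num
      _ = 2 * ρ * Real.exp 9 := by ring
  have hB : ∀ z : ℂ, ρ * Real.exp (-8) ≤ ‖z - 1‖ → ‖z - 1‖ ≤ ρ * Real.exp 8 →
      ‖z‖ ≤ 1 - ρ * Real.exp (-8) / 4 → ‖D z‖ ≤ Real.exp (-(9 / 10 * ε * m)) := by
    intro z hz1 hz2 hz3
    set a : ℝ := ρ * Real.exp (-8) / 4 with ha
    have ha0 : 0 < a := by rw [ha]; positivity
    have haam : am ≤ a := by rw [ha, ham]; gcongr
    have ha1 : a ≤ 1 := by
      have h3 := norm_nonneg z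
      linarith
    have hzn := hwz z (by linarith)
    rw [hD3 z hz1 hz2 hzn, norm_mul]
    have h3 := Gf_small w m (L * m) (by nlinarith) z hw a ha0 ha1 hz3 (Real.exp (-(ε * m)))
      (Real.exp_pos _).le (fun k hk1 hk2 => (hcon k hk1.le hk2).le)
    have h4 : a * ((L * m : ℕ) : ℝ) ≥ ε * m := by
      push_cast
      have h5 : ε ≤ a * L := by
        calc ε = am * (ε / am) := by field_simp
          _ ≤ a * L := by gcongr
      nlinarith
    calc _ ≤ 1 * ‖Gf m w z‖ := by gcongr; exact hBle z hz1 hz2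
      _ = ‖Gf m w z‖ := one_mul _
      _ ≤ _ := h3
      _ ≤ (L * m) * Real.exp (-(ε * m)) + (c₀ * m) * (Real.exp (-(ε * m)) / am) := by
          push_cast at h4 ⊢
          gcongr
      _ = ((L + c₀ / am) * m) * Real.exp (-(ε * m)) := by ring
      _ ≤ Real.exp (ε / 10 * m) * Real.exp (-(ε * m)) := by gcongr
      _ = Real.exp (-(9 / 10 * ε * m)) := by rw [← Real.exp_add]; congr 1; ring
  have hDz := annulus_bound D ρ (ε * m / 4) (9 / 10 * ε * m) hρ0 hρ1 (by positivity)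
    (by positivity) hD1 hA hB
  obtain ⟨r, hr1, hr2, hr3⟩ := radius_choice J (fun j => ‖w j - 1‖) ρ hρ0
  have hr0 : 0 < r := by linarith
  have he9 : (2 : ℝ) < Real.exp 9 := by
    have := Real.add_one_lt_exp (show (9 : ℝ) ≠ 0 by norm_num)
    linarith
  have hem9 : Real.exp (-9) < 1 := by rw [Real.exp_lt_one_iff]; norm_num
  have hrne : ∀ j, ‖w j - 1‖ ≠ r := by
    intro j hj
    by_cases hjJ : j ∈ J
    · have h3 : ∏ j ∈ J, |‖w j - 1‖ - r| = 0 := by
        refine Finset.prod_eq_zero hjJ ?_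
        rw [hj]; simp
      rw [h3] at hr3
      have : 0 < (ρ * Real.exp (-2)) ^ J.card := by positivity
      linarith
    · apply hjJ
      rw [hJ, Finset.mem_filter]
      refine ⟨Finset.mem_univ _, ?_, ?_⟩
      · rw [hj]; nlinarith
      · rw [hj]; nlinarith
  obtain ⟨j₀, hj₀⟩ := hw1
  obtain ⟨z, hz1, hz2⟩ := circle_lower w m r hr0 hrne hw0 j₀ hj₀
  have hz3 : ρ * Real.exp (-8) ≤ ‖z - 1‖ := by
    rw [hz1]
    have : Real.exp (-8) ≤ 1 := by rw [Real.exp_le_one_iff]; norm_num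
    nlinarith
  have he8 : (2 : ℝ) < Real.exp 8 := by
    have := Real.add_one_lt_exp (show (8 : ℝ) ≠ 0 by norm_num)
    linarith
  have hz4 : ‖z - 1‖ ≤ ρ * Real.exp 8 := by
    rw [hz1]; nlinarith
  have hzw : ∀ j, w j ≠ z := by
    intro j h
    apply hrne j
    rw [h, hz1]
  have h5 := hDz z (by rw [hz1]; exact hr1) (by rw [hz1]; exact hr2)
  rw [hD3 z hz3 hz4 hzw, norm_mul] at h5
  have h6 : Real.exp (-(ε * m / 4)) ≤ ‖∏ j ∈ J, (z - w j) / ((2 * ρ * Real.exp 9 : ℝ) : ℂ)‖ := by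
    rw [norm_prod]
    have h7 : ∀ j ∈ J, |‖w j - 1‖ - r| / (2 * ρ * Real.exp 9)
        ≤ ‖(z - w j) / ((2 * ρ * Real.exp 9 : ℝ) : ℂ)‖ := by
      intro j _
      rw [norm_div, Complex.norm_real, Real.norm_of_nonneg (by positivity)]
      gcongr
      rw [← hz1]
      calc |‖w j - 1‖ - ‖z - 1‖| ≤ ‖(w j - 1) - (z - 1)‖ := abs_norm_sub_norm_le _ _
        _ = ‖z - w j‖ := by rw [← norm_neg]; congr 1; ring
    calc Real.exp (-(ε * m / 4)) ≤ Real.exp (-12 * J.card) := by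
          rw [Real.exp_le_exp]; linarith
      _ = (Real.exp (-12)) ^ J.card := by
          rw [← Real.exp_nat_mul]; congr 1; ring
      _ ≤ ((ρ * Real.exp (-2)) / (2 * ρ * Real.exp 9)) ^ J.card := by
          refine pow_le_pow_left₀ (Real.exp_pos _).le ?_ _
          rw [le_div_iff₀ (by positivity)]
          have h8 : Real.exp (-12) * Real.exp 9 = Real.exp (-3) := by
            rw [← Real.exp_add]; norm_num
          have h9 : Real.exp (-2) = Real.exp (-3) * Real.exp 1 := by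
            rw [← Real.exp_add]; norm_num
          have h10 : 2 ≤ Real.exp 1 := by
            have := Real.add_one_le_exp (1 : ℝ); linarith
          calc Real.exp (-12) * (2 * ρ * Real.exp 9) = 2 * ρ * (Real.exp (-12) * Real.exp 9) := by ring
            _ = ρ * (Real.exp (-3) * 2) := by rw [h8]; ring
            _ ≤ ρ * (Real.exp (-3) * Real.exp 1) := by gcongr
            _ = ρ * Real.exp (-2) := by rw [h9]
      _ = (ρ * Real.exp (-2)) ^ J.card / ∏ j ∈ J, (2 * ρ * Real.exp 9) := by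
          rw [div_pow, Finset.prod_const]
      _ ≤ (∏ j ∈ J, |‖w j - 1‖ - r|) / ∏ j ∈ J, (2 * ρ * Real.exp 9) := by gcongr
      _ = ∏ j ∈ J, |‖w j - 1‖ - r| / (2 * ρ * Real.exp 9) := by rw [Finset.prod_div_distrib]
      _ ≤ _ := Finset.prod_le_prod (fun j _ => by positivity) h7
  have h7 : Real.exp (-(ε * m / 4)) * ‖Gf m w z‖ ≤
      Real.exp (-(9 / 10 * ε * m) + (ε * m / 4 + 9 / 10 * ε * m) / 10) := by
    refine le_trans ?_ h5
    gcongr
  have h8 : ‖Gf m w z‖ ≤ 1 := by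
    have h9 : ‖Gf m w z‖ = Real.exp (ε * m / 4) * (Real.exp (-(ε * m / 4)) * ‖Gf m w z‖) := by
      rw [← mul_assoc, ← Real.exp_add]; simp
    rw [h9]
    calc _ ≤ Real.exp (ε * m / 4) * Real.exp (-(9 / 10 * ε * m) +
          (ε * m / 4 + 9 / 10 * ε * m) / 10) := by gcongr
      _ = Real.exp (-(107 / 200 * (ε * m))) := by rw [← Real.exp_add]; congr 1; ring
      _ ≤ 1 := by
          rw [Real.exp_le_one_iff]
          have : 0 < ε * m := by positivity
          linarith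
  have h9 : r < 1 := by
    have h10 : 2 * ρ < 1 := by nlinarith
    linarith
  have h10 := norm_nonneg (Gf m w z)
  nlinarith

end Pool.Agent.EM
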