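import Mathlib
import Pool.Agent.Lib.MP_9cfc0a_nt.An1

set_option autoImplicit false

namespace Pool.Agent.EM

open Complex Metric Set MeasureTheory

lemma V1_div (g : ℂ → ℂ) (s : Set ℂ) (hg : AnalyticOnNhd ℂ g s) (a : ℂ) (ha : a ∈ s)
    (ha0 : g a = 0) : AnalyticOnNhd ℂ (dslope g a) s ∧ ∀ z, g z = (z - a) * dslope g a z := by
  constructor
  · have hU : IsOpen {z | AnalyticAt ℂ g z} := isOpen_analyticAt ℂ g
    have hd : DifferentiableOn ℂ g {z | AnalyticAt ℂ g z} :=
      fun z hz => (AnalyticAt.differentiableAt hz).differentiableWithinAt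
    have h2 := (Complex.differentiableOn_dslope (hU.mem_nhds (hg a ha))).mpr hd
    have h3 := h2.analyticOnNhd hU
    exact fun z hz => h3 z (hg z hz)
  · intro z
    have := sub_smul_dslope g a z
    rw [ha0, sub_zero, smul_eq_mul] at this
    exact this.symm

lemma V1_blaschke (b w : ℂ) (R : ℝ) (hR : 0 < R) (hw : ‖w‖ = R) :
    ‖((R : ℂ) ^ 2 - (starRingEnd ℂ) b * w) / R‖ = ‖w - b‖ := by
  have h1 : ((R : ℂ) ^ 2 - (starRingEnd ℂ) b * w) = w * (starRingEnd ℂ) (w - b) := by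
    rw [map_sub, mul_sub, Complex.mul_conj']
    rw [hw]
    ring
  rw [h1, norm_div, norm_mul, RCLike.norm_conj, hw, Complex.norm_real, Real.norm_eq_abs,
    abs_of_pos hR]
  field_simp

lemma V1_bound (f g : ℂ → ℂ) (c : ℂ) (r R M : ℝ) (hr : 0 < r) (hrR : r < R) (n : ℕ)
    (ρ : Fin n → ℂ) (hM : ∀ z ∈ closedBall c R, ‖f z‖ ≤ M)
    (hg : AnalyticOnNhd ℂ g (closedBall c R))
    (hfg : ∀ z ∈ closedBall c R, f z = (∏ j, (z - ρ j)) * g z)
    (hρ : ∀ j, ρ j ∈ closedBall c r) : ‖f c‖ ≤ M * (r / R) ^ n := by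
  have hR : 0 < R := hr.trans hrR
  set h : ℂ → ℂ := fun z => g z * ∏ j, (((R : ℂ) ^ 2 - (starRingEnd ℂ) (ρ j - c) * (z - c)) / R)
    with hh
  have hcl : closure (ball c R) = closedBall c R := closure_ball c hR.ne'
  have hd : DifferentiableOn ℂ h (closedBall c R) := by
    apply DifferentiableOn.mul
    · exact fun z hz => (hg z hz).differentiableAt.differentiableWithinAt
    · apply DifferentiableOn.fun_finsetProd
      intro j _
      fun_prop
  have hdc : DiffContOnCl ℂ h (ball c R) := by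
    apply DifferentiableOn.diffContOnCl
    rw [hcl]
    exact hd
  have hfr : ∀ z ∈ frontier (ball c R), ‖h z‖ ≤ M := by
    intro z hz
    rw [frontier_ball c hR.ne', mem_sphere, dist_eq_norm] at hz
    have hzc : z ∈ closedBall c R := by
      rw [mem_closedBall, dist_eq_norm]
      exact hz.le
    have h1 : ‖h z‖ = ‖f z‖ := by
      rw [hfg z hzc, hh]
      simp only []
      rw [norm_mul, norm_mul, norm_prod, norm_prod, mul_comm]
      congr 1
      apply Finset.prod_congr rfl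
      intro j _
      rw [V1_blaschke (ρ j - c) (z - c) R hR hz]
      congr 1
      ring
    rw [h1]
    exact hM z hzc
  have hcc : c ∈ closedBall c R := mem_closedBall_self hR.le
  have hc := Complex.norm_le_of_forall_mem_frontier_norm_le isBounded_ball hdc hfr
    (z := c) (subset_closure (mem_ball_self hR))
  have hhc : ‖h c‖ = ‖g c‖ * R ^ n := by
    rw [hh]
    simp only [sub_self, mul_zero, sub_zero]
    rw [norm_mul, Finset.prod_const, Finset.card_univ, Fintype.card_fin, norm_pow, norm_div,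
      norm_pow, Complex.norm_real, Real.norm_eq_abs, abs_of_pos hR]
    congr 2
    field_simp
  rw [hhc] at hc
  have hfc : ‖f c‖ ≤ ‖g c‖ * r ^ n := by
    rw [hfg c hcc, norm_mul, norm_prod, mul_comm]
    apply mul_le_mul_of_nonneg_left _ (norm_nonneg _)
    calc ∏ j, ‖c - ρ j‖ ≤ ∏ _j : Fin n, r := by
          apply Finset.prod_le_prod (fun _ _ => norm_nonneg _)
          intro j _
          have := hρ j
          rw [mem_closedBall, dist_comm, dist_eq_norm] at this
          exact this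
      _ = r ^ n := by simp
  calc ‖f c‖ ≤ ‖g c‖ * r ^ n := hfc
    _ = (‖g c‖ * R ^ n) * (r / R) ^ n := by
        rw [div_pow]
        field_simp
    _ ≤ M * (r / R) ^ n := mul_le_mul_of_nonneg_right hc (by positivity)

/-- V1 -/
lemma factor_zeros (f : ℂ → ℂ) (c : ℂ) (r R : ℝ) (hr : 0 < r) (hrR : r < R)
    (hf : AnalyticOnNhd ℂ f (closedBall c R)) (hfc : f c ≠ 0) :
    ∃ (n : ℕ) (ρ : Fin n → ℂ) (g : ℂ → ℂ), AnalyticOnNhd ℂ g (closedBall c R) ∧
      (∀ z ∈ closedBall c R, f z = (∏ j, (z - ρ j)) * g z) ∧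
      (∀ j, ρ j ∈ closedBall c r) ∧ (∀ z ∈ closedBall c r, g z ≠ 0) := by
  by_contra hcon
  have hR : 0 < R := hr.trans hrR
  have hstep : ∀ n : ℕ, ∃ (ρ : Fin n → ℂ) (g : ℂ → ℂ), AnalyticOnNhd ℂ g (closedBall c R) ∧
      (∀ z ∈ closedBall c R, f z = (∏ j, (z - ρ j)) * g z) ∧
      (∀ j, ρ j ∈ closedBall c r) := by
    intro n
    induction n with
    | zero =>
      exact ⟨fun j => j.elim0, f, hf, fun z _ => by simp, fun j => j.elim0⟩
    | succ n ih =>
      obtain ⟨ρ, g, hg, hfg, hρ⟩ := ih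
      have : ∃ a ∈ closedBall c r, g a = 0 := by
        by_contra hno
        push Not at hno
        exact hcon ⟨n, ρ, g, hg, hfg, hρ, hno⟩
      obtain ⟨a, ha, ha0⟩ := this
      have haR : a ∈ closedBall c R := closedBall_subset_closedBall hrR.le ha
      obtain ⟨h1, h2⟩ := V1_div g _ hg a haR ha0
      refine ⟨Fin.cons a ρ, dslope g a, h1, ?_, ?_⟩
      · intro z hz
        rw [hfg z hz, Fin.prod_univ_succ, h2 z]
        simp only [Fin.cons_zero, Fin.cons_succ]
        ring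
      · intro j
        refine Fin.cases ?_ ?_ j
        · simpa using ha
        · intro i
          simpa using hρ i
  obtain ⟨M, hM⟩ := (isCompact_closedBall c R).exists_bound_of_continuousOn
    (fun z hz => (hf z hz).continuousAt.continuousWithinAt)
  have hfc0 : 0 < ‖f c‖ := norm_pos_iff.mpr hfc
  have hM0 : 0 < M := lt_of_lt_of_le hfc0 (hM c (mem_closedBall_self hR.le))
  obtain ⟨n, hn⟩ := exists_pow_lt_of_lt_one (div_pos hfc0 hM0) ((div_lt_one hR).mpr hrR)
  obtain ⟨ρ, g, hg, hfg, hρ⟩ := hstep n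
  have := V1_bound f g c r R M hr hrR n ρ hM hg hfg hρ
  rw [lt_div_iff₀ hM0] at hn
  linarith

lemma V2_max (h : ℂ → ℂ) (c : ℂ) (R C : ℝ) (hR : 0 < R)
    (hh : AnalyticOnNhd ℂ h (closedBall c R)) (hC : ∀ z, ‖z - c‖ = R → ‖h z‖ ≤ C)
    (z : ℂ) (hz : z ∈ closedBall c R) : ‖h z‖ ≤ C := by
  have hcl : closure (ball c R) = closedBall c R := closure_ball c hR.ne'
  apply Complex.norm_le_of_forall_mem_frontier_norm_le (U := ball c R) isBounded_ball
  · apply DifferentiableOn.diffContOnCl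
    rw [hcl]
    exact hh.differentiableOn
  · intro x hx
    rw [frontier_ball c hR.ne', mem_sphere, dist_eq_norm] at hx
    exact hC x hx
  · rw [hcl]
    exact hz

lemma V2_norm (c z a : ℂ) (R : ℝ) (hR : 0 < R) (hz : ‖z - c‖ = R) :
    ‖(((R : ℝ) : ℂ) ^ 2 - (starRingEnd ℂ) (a - c) * (z - c)) / ((R : ℝ) : ℂ)‖ = ‖z - a‖ := by
  have h1 : ((R : ℝ) : ℂ) ^ 2 = (starRingEnd ℂ) (z - c) * (z - c) := by
    rw [mul_comm, Complex.mul_conj, Complex.normSq_eq_norm_sq, hz]
    push_cast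
    ring
  rw [h1, ← sub_mul, ← map_sub, norm_div, norm_mul, RCLike.norm_conj, hz, Complex.norm_real,
    Real.norm_eq_abs, abs_of_pos hR, mul_div_assoc, div_self hR.ne', mul_one]
  congr 1
  ring

/-- V2 -/
lemma count_bound (n : ℕ) (f g : ℂ → ℂ) (ρ : Fin n → ℂ) (c : ℂ) (T : ℝ) (hT : 0 ≤ T)
    (hg : AnalyticOnNhd ℂ g (closedBall c (39 / 20)))
    (hfg : ∀ z ∈ closedBall c (39 / 20), f z = (∏ j, (z - ρ j)) * g z)
    (hρ : ∀ j, ρ j ∈ closedBall c (7 / 4))
    (hb : ∀ z ∈ closedBall c (39 / 20), ‖f z‖ ≤ Real.exp T) (hc : Real.exp (-T) ≤ ‖f c‖) :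
    (n : ℝ) ≤ 20 * T ∧ ∀ z ∈ closedBall c (39 / 20), ‖g z‖ ≤ Real.exp (60 * T) * ‖g c‖ := by
  have hcc : c ∈ closedBall c (39 / 20) := mem_closedBall_self (by norm_num)
  have hR : (0 : ℝ) < 39 / 20 := by norm_num
  have hsph : ∀ z, ‖z - c‖ = 39 / 20 → z ∈ closedBall c (39 / 20) := by
    intro z hz
    rw [mem_closedBall, dist_eq_norm, hz]
  -- the value at `c`
  have h1 : ‖g c‖ * (39 / 20 : ℝ) ^ n ≤ Real.exp T := by
    let h : ℂ → ℂ := fun z => g z * ∏ j, ((((39 / 20 : ℝ) : ℂ) ^ 2 -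
      (starRingEnd ℂ) (ρ j - c) * (z - c)) / ((39 / 20 : ℝ) : ℂ))
    have hh : AnalyticOnNhd ℂ h (closedBall c (39 / 20)) := by
      apply AnalyticOnNhd.mul hg
      apply Finset.analyticOnNhd_fun_prod
      intro j _
      intro z _
      fun_prop
    have h2 := V2_max h c (39 / 20) (Real.exp T) hR hh (by
      intro z hz
      have hz' := hsph z hz
      simp only [h]
      rw [norm_mul, norm_prod, Finset.prod_congr rfl
        (fun j _ => V2_norm c z (ρ j) (39 / 20) hR hz), ← norm_prod, ← norm_mul, mul_comm,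
        ← hfg z hz']
      exact hb z hz') c hcc
    simp only [h] at h2
    rw [norm_mul, norm_prod] at h2
    have h3 : ∏ j : Fin n, ‖((((39 / 20 : ℝ) : ℂ) ^ 2 -
      (starRingEnd ℂ) (ρ j - c) * (c - c)) / ((39 / 20 : ℝ) : ℂ))‖ = (39 / 20 : ℝ) ^ n := by
      have : ∀ j : Fin n, ‖((((39 / 20 : ℝ) : ℂ) ^ 2 -
          (starRingEnd ℂ) (ρ j - c) * (c - c)) / ((39 / 20 : ℝ) : ℂ))‖ = 39 / 20 := by
        intro j
        rw [sub_self, mul_zero, sub_zero, sq, mul_div_assoc, div_self, mul_one, Complex.norm_real,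
          Real.norm_eq_abs, abs_of_pos hR]
        exact_mod_cast hR.ne'
      rw [Finset.prod_congr rfl (fun j _ => this j), Finset.prod_const, Finset.card_univ,
        Fintype.card_fin]
    rw [h3] at h2
    exact h2
  have h2 : Real.exp (-T) ≤ ‖g c‖ * (7 / 4 : ℝ) ^ n := by
    refine hc.trans ?_
    rw [hfg c hcc, norm_mul, mul_comm, norm_prod]
    apply mul_le_mul_of_nonneg_left _ (norm_nonneg _)
    calc ∏ j, ‖c - ρ j‖ ≤ ∏ _j : Fin n, (7 / 4 : ℝ) := by
          apply Finset.prod_le_prod (fun _ _ => norm_nonneg _)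
          intro j _
          have := hρ j
          rw [mem_closedBall, dist_eq_norm, norm_sub_rev] at this
          exact this
      _ = (7 / 4 : ℝ) ^ n := by
          rw [Finset.prod_const, Finset.card_univ, Fintype.card_fin]
  have hgc : 0 < ‖g c‖ := by
    rcases (norm_nonneg (g c)).lt_or_eq with h | h
    · exact h
    · rw [← h, zero_mul] at h2
      exact absurd h2 (not_le.mpr (Real.exp_pos _))
  have he : Real.exp (1 / 10) ≤ 39 / 35 := by
    have h3 := Real.add_one_le_exp (-(1 / 10) : ℝ)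
    have h4 : Real.exp (1 / 10) * Real.exp (-(1 / 10)) = 1 := by
      rw [← Real.exp_add]; norm_num
    have h5 := Real.exp_pos (1 / 10)
    nlinarith
  have hn : (n : ℝ) ≤ 20 * T := by
    have h3 : Real.exp ((n : ℝ) / 10) ≤ Real.exp (2 * T) := by
      calc Real.exp ((n : ℝ) / 10) = Real.exp (1 / 10) ^ n := by
            rw [← Real.exp_nat_mul]; ring_nf
        _ ≤ (39 / 35 : ℝ) ^ n := pow_le_pow_left₀ (Real.exp_pos _).le he n
        _ = (39 / 20 : ℝ) ^ n / (7 / 4 : ℝ) ^ n := by rw [← div_pow]; norm_num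
        _ ≤ Real.exp (2 * T) := by
            rw [div_le_iff₀ (by positivity)]
            have h4 : Real.exp (2 * T) = Real.exp T * Real.exp T := by
              rw [← Real.exp_add]; ring_nf
            have h5 : Real.exp T * Real.exp (-T) = 1 := by
              rw [← Real.exp_add]; norm_num
            have h6 : (39 / 20 : ℝ) ^ n ≤ Real.exp T * ‖g c‖⁻¹ := by
              rw [← div_eq_mul_inv, le_div_iff₀ hgc]
              linarith
            have h7 : ‖g c‖⁻¹ ≤ Real.exp T * (7 / 4 : ℝ) ^ n := by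
              rw [inv_le_iff_one_le_mul₀ hgc]
              calc (1 : ℝ) = Real.exp T * Real.exp (-T) := h5.symm
                _ ≤ Real.exp T * (‖g c‖ * (7 / 4 : ℝ) ^ n) :=
                    mul_le_mul_of_nonneg_left h2 (Real.exp_pos _).le
                _ = _ := by ring
            calc (39 / 20 : ℝ) ^ n ≤ Real.exp T * ‖g c‖⁻¹ := h6
              _ ≤ Real.exp T * (Real.exp T * (7 / 4 : ℝ) ^ n) :=
                  mul_le_mul_of_nonneg_left h7 (Real.exp_pos _).le
              _ = _ := by rw [h4]; ring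
    have := Real.exp_le_exp.mp h3
    linarith
  refine ⟨hn, ?_⟩
  have hbig : ∀ z ∈ closedBall c (39 / 20), ‖g z‖ ≤ Real.exp T * 5 ^ n := by
    apply V2_max g c (39 / 20) _ hR hg
    intro z hz
    have hz' := hsph z hz
    have h3 := hb z hz'
    rw [hfg z hz', norm_mul, norm_prod] at h3
    have h4 : (1 / 5 : ℝ) ^ n ≤ ∏ j, ‖z - ρ j‖ := by
      calc (1 / 5 : ℝ) ^ n = ∏ _j : Fin n, (1 / 5 : ℝ) := by
            rw [Finset.prod_const, Finset.card_univ, Fintype.card_fin]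
        _ ≤ ∏ j, ‖z - ρ j‖ := by
            apply Finset.prod_le_prod (fun _ _ => by norm_num)
            intro j _
            have h5 := hρ j
            rw [mem_closedBall, dist_eq_norm] at h5
            have h6 := norm_sub_norm_le (z - c) (ρ j - c)
            rw [sub_sub_sub_cancel_right, hz] at h6
            linarith
    have h5 : (1 / 5 : ℝ) ^ n * ‖g z‖ ≤ Real.exp T :=
      (mul_le_mul_of_nonneg_right h4 (norm_nonneg _)).trans h3
    have h6 : (5 : ℝ) ^ n * (1 / 5 : ℝ) ^ n = 1 := by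
      rw [← mul_pow]; norm_num
    calc ‖g z‖ = 5 ^ n * ((1 / 5 : ℝ) ^ n * ‖g z‖) := by rw [← mul_assoc, h6, one_mul]
      _ ≤ 5 ^ n * Real.exp T := mul_le_mul_of_nonneg_left h5 (by positivity)
      _ = _ := mul_comm _ _
  intro z hz
  refine (hbig z hz).trans ?_
  have h3 : (35 / 4 : ℝ) ≤ Real.exp (29 / 10) := by
    have h4 : Real.exp (29 / 10) = Real.exp 1 * Real.exp 1 * Real.exp (9 / 10) := by
      rw [← Real.exp_add, ← Real.exp_add]; norm_num
    have h5 : (27 / 10 : ℝ) ≤ Real.exp 1 := by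
      have := Real.exp_one_gt_d9
      linarith
    have h6 := Real.add_one_le_exp (9 / 10 : ℝ)
    rw [h4]
    have h7 : (27 / 10 : ℝ) * (27 / 10) ≤ Real.exp 1 * Real.exp 1 := by nlinarith
    nlinarith
  have h4 : (35 / 4 : ℝ) ^ n ≤ Real.exp (58 * T) := by
    calc (35 / 4 : ℝ) ^ n ≤ Real.exp (29 / 10) ^ n := pow_le_pow_left₀ (by norm_num) h3 n
      _ = Real.exp (n * (29 / 10)) := by rw [← Real.exp_nat_mul]
      _ ≤ Real.exp (58 * T) := Real.exp_le_exp.mpr (by linarith)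
  have h5 : (5 : ℝ) ^ n = (35 / 4 : ℝ) ^ n * ((7 / 4 : ℝ) ^ n)⁻¹ := by
    rw [← inv_pow, ← mul_pow]; norm_num
  have h6 : ((7 / 4 : ℝ) ^ n)⁻¹ ≤ Real.exp T * ‖g c‖ := by
    rw [inv_le_iff_one_le_mul₀ (by positivity)]
    calc (1 : ℝ) = Real.exp T * Real.exp (-T) := by rw [← Real.exp_add]; norm_num
      _ ≤ Real.exp T * (‖g c‖ * (7 / 4 : ℝ) ^ n) :=
          mul_le_mul_of_nonneg_left h2 (Real.exp_pos _).le
      _ = _ := by ring
  calc Real.exp T * 5 ^ n = Real.exp T * ((35 / 4 : ℝ) ^ n * ((7 / 4 : ℝ) ^ n)⁻¹) := by rw [h5]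
    _ ≤ Real.exp T * (Real.exp (58 * T) * (Real.exp T * ‖g c‖)) := by
        apply mul_le_mul_of_nonneg_left _ (Real.exp_pos _).le
        exact mul_le_mul h4 h6 (by positivity) (Real.exp_pos _).le
    _ = Real.exp (60 * T) * ‖g c‖ := by
        have : Real.exp (60 * T) = Real.exp T * Real.exp (58 * T) * Real.exp T := by
          rw [← Real.exp_add, ← Real.exp_add]; ring_nf
        rw [this]; ring

lemma coeff_g (g : ℂ → ℂ) (c : ℂ) (M : ℝ) (hM : 0 < M)
    (hg : AnalyticOnNhd ℂ g (closedBall c (39 / 20)))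
    (hg0 : ∀ z ∈ closedBall c (7 / 4), g z ≠ 0)
    (hgb : ∀ z ∈ closedBall c (39 / 20), ‖g z‖ ≤ Real.exp M * ‖g c‖) (k : ℕ) :
    ‖iteratedDeriv k (logDeriv g) c / (k.factorial : ℂ)‖ ≤ 5600 * M * (10 / 17 : ℝ) ^ k := by
  have hsub : ball c (7 / 4) ⊆ closedBall c (39 / 20) := by
    refine ball_subset_closedBall.trans (closedBall_subset_closedBall (by norm_num))
  have hdg : DifferentiableOn ℂ g (ball c (7 / 4)) := hg.differentiableOn.mono hsub
  have hbound : ∀ s : ℂ, dist s c ≤ 17 / 10 → ‖logDeriv g s‖ ≤ 5600 * M := by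
    intro s hs
    have h := MC.logDeriv_bound g c (7 / 4) M (1 / 20) hM (by norm_num) (by norm_num) hdg
      (fun z hz => hg0 z (ball_subset_closedBall hz)) (fun z hz => hgb z (hsub hz)) s
      (by linarith)
    rw [logDeriv_apply]
    refine h.trans (le_of_eq ?_)
    ring
  have hanl : AnalyticOnNhd ℂ (logDeriv g) (closedBall c (7 / 4)) := by
    intro z hz
    have h1 : AnalyticAt ℂ g z := hg z (closedBall_subset_closedBall (by norm_num) hz)
    have h2 : logDeriv g = fun z => deriv g z / g z := by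
      funext w; rw [logDeriv_apply]
    rw [h2]
    exact h1.deriv.div h1 (hg0 z hz)
  have hd : DiffContOnCl ℂ (logDeriv g) (ball c (17 / 10)) := by
    apply DifferentiableOn.diffContOnCl
    rw [closure_ball c (by norm_num)]
    exact hanl.differentiableOn.mono (closedBall_subset_closedBall (by norm_num))
  have h1 := Complex.norm_iteratedDeriv_le_of_forall_mem_sphere_norm_le (n := k) (R := 17 / 10)
    (C := 5600 * M) (by norm_num) hd (fun z hz => hbound z (le_of_eq (mem_sphere.mp hz)))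
  have hk : (0 : ℝ) < (k.factorial : ℝ) := by exact_mod_cast k.factorial_pos
  rw [norm_div, Complex.norm_natCast, div_le_iff₀ hk]
  refine h1.trans (le_of_eq ?_)
  have : (17 / 10 : ℝ) ^ k * (10 / 17 : ℝ) ^ k = 1 := by
    rw [← mul_pow]; norm_num
  have h17 : (17 / 10 : ℝ) ^ k ≠ 0 := by positivity
  rw [div_eq_iff h17]
  calc (k.factorial : ℝ) * (5600 * M) = (5600 * M) * k.factorial * 1 := by ring
    _ = (5600 * M) * k.factorial * ((17 / 10 : ℝ) ^ k * (10 / 17 : ℝ) ^ k) := by rw [this]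
    _ = _ := by ring

lemma V4_iter (ρ : ℂ) (k : ℕ) : ∀ c : ℂ, c ≠ ρ →
    iteratedDeriv k (fun s : ℂ => (s - ρ)⁻¹) c
      = (-1) ^ k * (k.factorial : ℂ) * ((c - ρ)⁻¹) ^ (k + 1) := by
  induction k with
  | zero => intro c hc; simp
  | succ k ih =>
    intro c hc
    rw [iteratedDeriv_succ]
    have hev : iteratedDeriv k (fun s : ℂ => (s - ρ)⁻¹) =ᶠ[nhds c]
        fun z => (-1) ^ k * (k.factorial : ℂ) * ((z - ρ)⁻¹) ^ (k + 1) := by
      filter_upwards [isOpen_ne.mem_nhds hc] with z hz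
      exact ih z hz
    rw [hev.deriv_eq]
    have hcρ : c - ρ ≠ 0 := sub_ne_zero.mpr hc
    have h1 : HasDerivAt (fun z : ℂ => (z - ρ)⁻¹) (-1 / (c - ρ) ^ 2) c :=
      ((hasDerivAt_id c).sub_const ρ).inv hcρ
    have h2 : HasDerivAt (fun z => (-1) ^ k * (k.factorial : ℂ) * ((z - ρ)⁻¹) ^ (k + 1))
        ((-1) ^ k * (k.factorial : ℂ) * (((k + 1 : ℕ) : ℂ) * (c - ρ)⁻¹ ^ (k + 1 - 1)
          * (-1 / (c - ρ) ^ 2))) c :=
      (h1.pow (k + 1)).const_mul ((-1 : ℂ) ^ k * (k.factorial : ℂ))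
    rw [h2.deriv]
    rw [Nat.factorial_succ, Nat.add_sub_cancel]
    push_cast
    have e1 : (-1 / (c - ρ) ^ 2 : ℂ) = - ((c - ρ)⁻¹) ^ 2 := by
      rw [inv_pow, neg_div, one_div]
    rw [e1]
    ring

lemma iteratedDeriv_inv_sub (ρ c : ℂ) (hc : c ≠ ρ) (k : ℕ) :
    iteratedDeriv k (fun s : ℂ => (s - ρ)⁻¹) c
      = (-1) ^ k * (k.factorial : ℂ) * ((c - ρ)⁻¹) ^ (k + 1) := V4_iter ρ k c hc

lemma iteratedDeriv_logDeriv_prod (n : ℕ) (f g : ℂ → ℂ) (ρ : Fin n → ℂ) (c : ℂ) (R : ℝ)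
    (hR : 0 < R) (hg : AnalyticOnNhd ℂ g (closedBall c R)) (hgc : g c ≠ 0)
    (hfg : ∀ z ∈ closedBall c R, f z = (∏ j, (z - ρ j)) * g z) (hρ : ∀ j, c ≠ ρ j) (k : ℕ) :
    iteratedDeriv k (logDeriv f) c
      = ∑ j, iteratedDeriv k (fun s : ℂ => (s - ρ j)⁻¹) c + iteratedDeriv k (logDeriv g) c := by
  have hcm : c ∈ closedBall c R := mem_closedBall_self hR.le
  have hga : AnalyticAt ℂ g c := hg c hcm
  have hev : logDeriv f =ᶠ[nhds c] fun s => (∑ j, (s - ρ j)⁻¹) + logDeriv g s := by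
    have e1 : ∀ᶠ z in nhds c, z ∈ ball c R := ball_mem_nhds c hR
    have e2 : ∀ᶠ z in nhds c, g z ≠ 0 := hga.continuousAt.eventually_ne hgc
    have e3 : ∀ᶠ z in nhds c, ∀ j, z ≠ ρ j := by
      rw [Filter.eventually_all]
      intro j
      exact isOpen_ne.mem_nhds (hρ j)
    filter_upwards [e1, e2, e3] with z hz1 hz2 hz3
    have hfev : f =ᶠ[nhds z] fun w => (∏ j, (w - ρ j)) * g w := by
      filter_upwards [isOpen_ball.mem_nhds hz1] with w hw
      exact hfg w (ball_subset_closedBall hw)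
    have h1 : logDeriv f z = logDeriv (fun w => (∏ j, (w - ρ j)) * g w) z := by
      rw [logDeriv_apply, logDeriv_apply, hfev.deriv_eq, hfev.eq_of_nhds]
    rw [h1]
    have hgz : DifferentiableAt ℂ g z := (hg z (ball_subset_closedBall hz1)).differentiableAt
    have hsub : ∀ j, z - ρ j ≠ 0 := fun j => sub_ne_zero.mpr (hz3 j)
    have hpz : (∏ j, (z - ρ j)) ≠ 0 := Finset.prod_ne_zero_iff.mpr (fun j _ => hsub j)
    have hpd : DifferentiableAt ℂ (fun w : ℂ => ∏ j, (w - ρ j)) z := by fun_prop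
    rw [logDeriv_mul z hpz hz2 hpd hgz]
    congr 1
    rw [logDeriv_prod (s := Finset.univ) (f := fun j w => w - ρ j) (x := z)
      (fun j _ => hsub j) (fun j _ => by fun_prop)]
    refine Finset.sum_congr rfl fun j _ => ?_
    rw [logDeriv_apply]
    have : deriv (fun w : ℂ => w - ρ j) z = 1 := by
      rw [deriv_sub_const]; simp
    rw [this, one_div]
  rw [Filter.EventuallyEq.iteratedDeriv_eq k hev]
  have hlg : AnalyticAt ℂ (logDeriv g) c := by
    have h2 : logDeriv g = fun z => deriv g z / g z := by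
      funext w; rw [logDeriv_apply]
    rw [h2]
    exact hga.deriv.div hga hgc
  have hinv : ∀ j, AnalyticAt ℂ (fun s : ℂ => (s - ρ j)⁻¹) c := by
    intro j
    have : AnalyticAt ℂ (fun s : ℂ => s - ρ j) c := by fun_prop
    exact this.inv (sub_ne_zero.mpr (hρ j))
  have hsum : AnalyticAt ℂ (fun s : ℂ => ∑ j, (s - ρ j)⁻¹) c := by
    exact Finset.analyticAt_fun_sum _ (fun j _ => hinv j)
  rw [iteratedDeriv_fun_add hsum.contDiffAt hlg.contDiffAt]
  congr 1
  rw [iteratedDeriv_fun_sum (fun j _ => (hinv j).contDiffAt)]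

lemma local_zeros : ∃ C : ℝ, 1 ≤ C ∧ ∀ (f : ℂ → ℂ) (c : ℂ) (T : ℝ), 1 ≤ T →
    AnalyticOnNhd ℂ f (closedBall c (39 / 20)) →
    (∀ z ∈ closedBall c (39 / 20), ‖f z‖ ≤ Real.exp T) → Real.exp (-T) ≤ ‖f c‖ →
    ∃ (n : ℕ) (ρ : Fin n → ℂ), (n : ℝ) ≤ C * T ∧ (∀ j, f (ρ j) = 0) ∧
      (∀ z ∈ closedBall c (7 / 4), f z = 0 → ∃ j, ρ j = z) ∧
      ∀ k : ℕ, ‖iteratedDeriv k (logDeriv f) c / (k.factorial : ℂ)
        - (-1) ^ k * ∑ j, ((c - ρ j)⁻¹) ^ (k + 1)‖ ≤ C * T * (10 / 17 : ℝ) ^ k := by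
  refine ⟨336000, by norm_num, fun f c T hT hf hb hc => ?_⟩
  have hfc : f c ≠ 0 := by
    intro h; rw [h, norm_zero] at hc
    linarith [Real.exp_pos (-T)]
  obtain ⟨n, ρ, g, hg, hfg, hρ, hg0⟩ := factor_zeros f c (7 / 4) (39 / 20) (by norm_num)
    (by norm_num) hf hfc
  obtain ⟨hn, hgb⟩ := count_bound n f g ρ c T (by linarith) hg hfg hρ hb hc
  have hcc : c ∈ closedBall c (39 / 20) := mem_closedBall_self (by norm_num)
  have hρc : ∀ j, c ≠ ρ j := by
    intro j h
    apply hfc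
    rw [hfg c hcc, Finset.prod_eq_zero (Finset.mem_univ j) (by rw [← h, sub_self]), zero_mul]
  have hsub : closedBall c (7 / 4) ⊆ closedBall c (39 / 20) := closedBall_subset_closedBall (by norm_num)
  refine ⟨n, ρ, by linarith, fun j => ?_, fun z hz hfz => ?_, fun k => ?_⟩
  · rw [hfg _ (hsub (hρ j)), Finset.prod_eq_zero (Finset.mem_univ j) (sub_self _), zero_mul]
  · rw [hfg z (hsub hz)] at hfz
    rcases mul_eq_zero.mp hfz with h | h
    · obtain ⟨j, _, hj⟩ := Finset.prod_eq_zero_iff.mp h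
      exact ⟨j, (sub_eq_zero.mp hj).symm⟩
    · exact absurd h (hg0 z hz)
  · have hk : ((k.factorial : ℕ) : ℂ) ≠ 0 := by exact_mod_cast k.factorial_ne_zero
    have h1 := iteratedDeriv_logDeriv_prod n f g ρ c (39 / 20) (by norm_num) hg
      (hg0 c (mem_closedBall_self (by norm_num))) hfg hρc k
    have h2 : iteratedDeriv k (logDeriv f) c / (k.factorial : ℂ)
        - (-1) ^ k * ∑ j, ((c - ρ j)⁻¹) ^ (k + 1)
        = iteratedDeriv k (logDeriv g) c / (k.factorial : ℂ) := by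
      rw [h1, Finset.sum_congr rfl (fun j _ => iteratedDeriv_inv_sub (ρ j) c (hρc j) k),
        ← Finset.mul_sum]
      field_simp
      ring
    rw [h2]
    refine (coeff_g g c (60 * T) (by linarith) hg hg0 hgb k).trans (le_of_eq ?_)
    ring

end Pool.Agent.EM
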