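import Mathlib
import Pool.Agent.Lib.MP_9cfc0a_nt.EMLfun
import Pool.Agent.Lib.MP_9cfc0a_nt.EMTuran
import Pool.Agent.Lib.MP_9cfc0a_nt.EMZeros

set_option autoImplicit false

namespace Pool.Agent.EM

open Complex Metric Set MeasureTheory

lemma evX_const (C a : ℝ) (ha : 0 < a) : ∀ᶠ X : ℝ in Filter.atTop, C ≤ X ^ a :=
  (tendsto_rpow_atTop ha).eventually_ge_atTop C

lemma evX_logC (C : ℝ) : ∀ᶠ X : ℝ in Filter.atTop, C ≤ Real.log X :=
  Real.tendsto_log_atTop.eventually_ge_atTop C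

lemma evX_log (C a : ℝ) (ha : 0 < a) :
    ∀ᶠ X : ℝ in Filter.atTop, C * Real.log X ≤ X ^ a := by
  have h1 := (isLittleO_log_rpow_atTop ha).bound (show 0 < 1 / (|C| + 1) by positivity)
  filter_upwards [h1, evX_logC 0, Filter.eventually_ge_atTop 0] with X hX hX0 hX1
  rw [Real.norm_eq_abs, Real.norm_eq_abs, abs_of_nonneg hX0,
    abs_of_nonneg (Real.rpow_nonneg hX1 a)] at hX
  have h3 : (|C| + 1) * Real.log X ≤ X ^ a := by
    calc (|C| + 1) * Real.log X ≤ (|C| + 1) * (1 / (|C| + 1) * X ^ a) := by gcongr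
      _ = X ^ a := by field_simp
  refine le_trans ?_ h3
  have := le_abs_self C
  gcongr
  linarith

lemma exp_le_pow (b c : ℝ) (hb : 0 < b) (hc : c ≤ Real.log b) (x : ℝ) (k : ℕ) (hc0 : 0 ≤ c)
    (hk : x ≤ k) : Real.exp (c * x) ≤ b ^ k := by
  calc Real.exp (c * x) ≤ Real.exp (Real.log b * k) := by
        rw [Real.exp_le_exp]
        have h1 : (0 : ℝ) ≤ k := Nat.cast_nonneg k
        calc c * x ≤ c * k := by gcongr
          _ ≤ Real.log b * k := by gcongr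
    _ = b ^ k := by
        rw [mul_comm, ← Real.log_pow, Real.exp_log (by positivity)]

/-- Lower bound for a Taylor coefficient of the logarithmic derivative. -/
lemma coeff_lower (η : ℝ) (hη : 0 < η) (hη1 : η ≤ 1) :
    ∃ (L : ℕ) (X₁ : ℝ), ∀ (q : ℕ) [NeZero q] (X : ℝ), (q : ℝ) ≤ X → X₁ ≤ X →
      ∀ χ : DirichletCharacter ℂ q, χ ≠ 1 →
      ∀ ρ₀ : ℂ, χ.LFunction ρ₀ = 0 → 1 / 2 ≤ ρ₀.re → ρ₀.re < 1 → |ρ₀.im| ≤ 19 / 10 →
      ∃ s₀ : ℂ, s₀.re = 2 ∧ ‖s₀‖ ≤ 3 ∧ ∃ k : ℕ, 12 * Real.log X ≤ k ∧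
        ((k : ℝ) + 2) ≤ L * (12 * Real.log X + 3) ∧
        (1 / 2) * X ^ (-(η / 2)) * (2 / 3 : ℝ) ^ (k + 2)
          ≤ ‖iteratedDeriv (k + 1) (logDeriv χ.LFunction) s₀ / ((k + 1).factorial : ℂ)‖ := by
  obtain ⟨C, hC1, hloc⟩ := local_zeros
  obtain ⟨L, m₀, htur⟩ := turan_window (η / 48) C (by positivity) (by linarith)
  have hev := (((((evX_logC 1).and (evX_logC (4 / η))).and (evX_logC m₀)).and
    (evX_log (8 * C) (1 / 2) (by norm_num))).and (Filter.eventually_ge_atTop 300))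
  obtain ⟨X₁, hX₁⟩ := Filter.eventually_atTop.mp hev
  refine ⟨L, X₁, fun q _ X hqX hX χ hχ ρ₀ hρ₀ hre1 hre2 him => ?_⟩
  obtain ⟨⟨⟨⟨hlog1, hlogη⟩, hlogm⟩, hlogC⟩, hq300R⟩ := hX₁ X hX
  have hq0 : (0 : ℝ) < X := by linarith
  have hqn0 : (1 : ℝ) ≤ (q : ℝ) := by exact_mod_cast Nat.pos_of_ne_zero (NeZero.ne q)
  set ℓ : ℝ := Real.log X with hℓ
  set s₀ : ℂ := ⟨2, ρ₀.im⟩ with hs₀
  have hs₀re : s₀.re = 2 := rfl
  have hs₀im : s₀.im = ρ₀.im := rfl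
  have hs₀n : ‖s₀‖ ≤ 3 := by
    have h1 : ‖s₀‖ ^ 2 = 2 * 2 + ρ₀.im * ρ₀.im := by
      rw [← Complex.normSq_eq_norm_sq, Complex.normSq_apply, hs₀re, hs₀im]
    have h2 : ρ₀.im * ρ₀.im ≤ (19 / 10) ^ 2 := by
      rw [← sq, ← sq_abs]
      gcongr
    nlinarith [norm_nonneg s₀]
  refine ⟨s₀, hs₀re, hs₀n, ?_⟩
  -- local zeros
  have hexpT : Real.exp (2 * ℓ) = X ^ (2 : ℕ) := by
    rw [two_mul, Real.exp_add, hℓ, Real.exp_log hq0]; ring
  have hana : AnalyticOnNhd ℂ χ.LFunction (closedBall s₀ (39 / 20)) := by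
    have h1 := DirichletCharacter.differentiable_LFunction hχ
    exact (h1.differentiableOn.analyticOnNhd isOpen_univ).mono (subset_univ _)
  have hbd : ∀ z ∈ closedBall s₀ (39 / 20), ‖χ.LFunction z‖ ≤ Real.exp (2 * ℓ) := by
    intro z hz
    rw [mem_closedBall, dist_eq_norm] at hz
    have hre := Complex.abs_re_le_norm (z - s₀)
    rw [Complex.sub_re, hs₀re, abs_le] at hre
    have h3 := L_growth q χ hχ z (by linarith)
    have h4 : ‖z‖ ≤ 5 := by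
      calc ‖z‖ = ‖(z - s₀) + s₀‖ := by ring_nf
        _ ≤ ‖z - s₀‖ + ‖s₀‖ := norm_add_le _ _
        _ ≤ 39 / 20 + 3 := by gcongr
        _ ≤ 5 := by norm_num
    rw [hexpT]
    calc ‖χ.LFunction z‖ ≤ 20 * (2 * q + 1) * ‖z‖ := h3
      _ ≤ 20 * (2 * q + 1) * 5 := by gcongr
      _ ≤ X ^ 2 := by nlinarith
  have hlow : Real.exp (-(2 * ℓ)) ≤ ‖χ.LFunction s₀‖ := by
    refine le_trans ?_ (MC.LFunction_lower q χ s₀ hs₀re)
    rw [Real.exp_neg, hexpT, inv_le_comm₀ (by positivity) (by norm_num)]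
    nlinarith
  obtain ⟨n, ρ, hn, hρz, hρcov, hρco⟩ := hloc χ.LFunction s₀ (2 * ℓ) (by linarith) hana hbd hlow
  have hρre : ∀ j, (ρ j).re < 1 := by
    intro j
    by_contra hge
    exact DirichletCharacter.LFunction_ne_zero_of_one_le_re χ (.inl hχ) (not_lt.mp hge) (hρz j)
  have hsρ : ∀ j, s₀ - ρ j ≠ 0 := by
    intro j h
    have h1 := congrArg Complex.re h
    rw [Complex.sub_re, hs₀re, Complex.zero_re] at h1
    linarith [hρre j]
  have hdist0 : ‖s₀ - ρ₀‖ ≤ 3 / 2 := by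
    have h1 : s₀ - ρ₀ = ((2 - ρ₀.re : ℝ) : ℂ) := by
      apply Complex.ext
      · simp [hs₀re]
      · simp [hs₀im]
    rw [h1, Complex.norm_real, Real.norm_of_nonneg (by linarith)]
    linarith
  obtain ⟨j₁, hj₁⟩ := hρcov ρ₀ (by
    rw [mem_closedBall, dist_eq_norm, ← norm_neg, neg_sub]; linarith) hρ₀
  have : Nonempty (Fin n) := ⟨j₁⟩
  obtain ⟨js, hjs⟩ := Finite.exists_min (fun j => ‖s₀ - ρ j‖)
  have hr32 : ‖s₀ - ρ js‖ ≤ 3 / 2 := by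
    have := hjs j₁
    rw [hj₁] at this
    linarith
  have hr0 : 0 < ‖s₀ - ρ js‖ := norm_pos_iff.mpr (hsρ js)
  -- the power sum lemma
  set m : ℕ := ⌈12 * ℓ⌉₊ + 2 with hm
  have hmR1 : 12 * ℓ + 2 ≤ m := by
    rw [hm]; push_cast
    linarith [Nat.le_ceil (12 * ℓ)]
  have hmR2 : (m : ℝ) ≤ 12 * ℓ + 3 := by
    rw [hm]; push_cast
    have h1 := Nat.ceil_lt_add_one (show 0 ≤ 12 * ℓ by positivity)
    linarith
  have hmm₀ : m₀ ≤ m := by
    have h1 : (m₀ : ℝ) ≤ m := by nlinarith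
    exact_mod_cast h1
  have hcard : (Fintype.card (Fin n) : ℝ) ≤ C * m := by
    rw [Fintype.card_fin]
    refine hn.trans ?_
    gcongr
    nlinarith
  obtain ⟨k', hk1, hk2, hk3⟩ := htur m hmm₀ (Fin n) (fun j => (s₀ - ρ j) / (s₀ - ρ js)) hcard
    (by
      intro j
      rw [norm_div, one_le_div hr0]
      exact hjs j)
    ⟨js, div_self (hsρ js)⟩
  obtain ⟨k, rfl⟩ : ∃ k, k' = k + 2 := ⟨k' - 2, by omega⟩
  refine ⟨k, ?_, ?_, ?_⟩
  · have h1 : (m : ℝ) ≤ k + 2 := by exact_mod_cast hk1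
    linarith
  · have h1 : ((k : ℝ) + 2) ≤ L * m := by exact_mod_cast hk2
    refine h1.trans ?_
    gcongr
  have hsum : ∑ j, ((s₀ - ρ j)⁻¹) ^ (k + 1 + 1)
      = ((s₀ - ρ js)⁻¹) ^ (k + 2) * ∑ j, ((fun j => (s₀ - ρ j) / (s₀ - ρ js)) j)⁻¹ ^ (k + 2) := by
    rw [Finset.mul_sum]
    refine Finset.sum_congr rfl fun j _ => ?_
    simp only
    rw [← mul_pow, inv_div]
    congr 1
    field_simp [hsρ j, hsρ js]
  have hmain : X ^ (-(η / 2)) * (2 / 3 : ℝ) ^ (k + 2)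
      ≤ ‖(-1 : ℂ) ^ (k + 1) * ∑ j, ((s₀ - ρ j)⁻¹) ^ (k + 1 + 1)‖ := by
    rw [norm_mul, norm_pow, norm_neg, norm_one, one_pow, one_mul, hsum, norm_mul, mul_comm]
    gcongr
    · rw [norm_pow, norm_inv]
      gcongr
      rw [le_inv_comm₀ (by norm_num) hr0]
      norm_num
      linarith
    · refine le_trans ?_ hk3
      rw [Real.rpow_def_of_pos hq0, Real.exp_le_exp, ← hℓ]
      have h1 : 4 ≤ η * ℓ := by
        rw [div_le_iff₀ hη] at hlogη; linarith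
      have h2 : η / 48 * m ≤ η / 48 * (12 * ℓ + 3) := by gcongr
      linarith
  have herr : C * (2 * ℓ) * (10 / 17 : ℝ) ^ (k + 1)
      ≤ (1 / 2) * X ^ (-(η / 2)) * (2 / 3 : ℝ) ^ (k + 2) := by
    have h1 : 8 * C * ℓ ≤ X ^ (1 / 2 : ℝ) := hlogC
    have h2 : X ^ (1 / 2 : ℝ) * X ^ (η / 2) ≤ X := by
      rw [← Real.rpow_add hq0]
      calc X ^ (1 / 2 + η / 2) ≤ X ^ (1 : ℝ) := by
            apply Real.rpow_le_rpow_of_exponent_le <;> linarith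
        _ = X := Real.rpow_one _
    have h3 : X ≤ (17 / 15 : ℝ) ^ (k + 2) := by
      have h4 := exp_le_pow (17 / 15) (2 / 17) (by norm_num) (by
        have := Real.one_sub_inv_le_log_of_pos (show (0 : ℝ) < 17 / 15 by norm_num)
        norm_num at this ⊢
        linarith) (12 * ℓ) (k + 2) (by norm_num) (by
          have h1 : (m : ℝ) ≤ k + 2 := by exact_mod_cast hk1
          push_cast
          nlinarith)
      refine le_trans ?_ h4
      rw [show (2 / 17 : ℝ) * (12 * ℓ) = ℓ + 7 / 17 * ℓ by ring, Real.exp_add, hℓ, Real.exp_log hq0]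
      have h5 : 1 ≤ Real.exp (7 / 17 * Real.log X) := by
        exact Real.one_le_exp (by linarith)
      nlinarith
    have h5 : (2 / 3 : ℝ) ^ (k + 2) = (17 / 15) ^ (k + 2) * (10 / 17) ^ (k + 2) := by
      rw [← mul_pow]; norm_num
    have h6 : X ^ (-(η / 2)) * X ^ (η / 2) = 1 := by
      rw [← Real.rpow_add hq0]; simp
    have h7 : 8 * C * ℓ * X ^ (η / 2) ≤ (17 / 15 : ℝ) ^ (k + 2) := by
      calc 8 * C * ℓ * X ^ (η / 2) ≤ X ^ (1 / 2 : ℝ) * X ^ (η / 2) := by gcongr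
        _ ≤ X := h2
        _ ≤ _ := h3
    have h8 : (10 / 17 : ℝ) ^ (k + 1) = (17 / 10) * (10 / 17) ^ (k + 2) := by
      rw [pow_succ (10 / 17 : ℝ) (k + 1)]; ring
    rw [h5, h8]
    have h9 : C * (2 * ℓ) * (17 / 10) ≤ 1 / 2 * X ^ (-(η / 2)) * (17 / 15) ^ (k + 2) := by
      calc C * (2 * ℓ) * (17 / 10) ≤ 1 / 2 * (8 * C * ℓ) := by nlinarith
        _ = 1 / 2 * (X ^ (-(η / 2)) * X ^ (η / 2)) * (8 * C * ℓ) := by rw [h6]; ring
        _ = 1 / 2 * X ^ (-(η / 2)) * (8 * C * ℓ * X ^ (η / 2)) := by ring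
        _ ≤ _ := by gcongr
    calc C * (2 * ℓ) * (17 / 10 * (10 / 17) ^ (k + 2))
        = C * (2 * ℓ) * (17 / 10) * (10 / 17) ^ (k + 2) := by ring
      _ ≤ 1 / 2 * X ^ (-(η / 2)) * (17 / 15) ^ (k + 2) * (10 / 17) ^ (k + 2) := by gcongr
      _ = _ := by ring
  have h1 := hρco (k + 1)
  set a : ℂ := iteratedDeriv (k + 1) (logDeriv χ.LFunction) s₀ / ((k + 1).factorial : ℂ) with ha
  set b : ℂ := (-1 : ℂ) ^ (k + 1) * ∑ j, ((s₀ - ρ j)⁻¹) ^ (k + 1 + 1) with hb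
  have h2 : ‖b‖ ≤ ‖a‖ + ‖a - b‖ := by
    calc ‖b‖ = ‖a - (a - b)‖ := by congr 1; ring
      _ ≤ _ := norm_sub_le _ _
  linarith

end Pool.Agent.EM
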