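import Mathlib
import Pool.Agent.Lib.MP_9cfc0a_nt.An3

set_option autoImplicit false

namespace Pool.Agent.EM

open Complex Metric Set MeasureTheory

/-- `ψ(x, χ)` -/
noncomputable def psiC {q : ℕ} (χ : DirichletCharacter ℂ q) (x : ℝ) : ℂ :=
  ∑ n ∈ Finset.Icc 1 ⌊x⌋₊, χ n * ((ArithmeticFunction.vonMangoldt n : ℝ) : ℂ)

/-- the weight -/
noncomputable def Wt (k : ℕ) (x : ℝ) : ℝ :=
  ((Real.log x) ^ (k + 1) / ((k + 1).factorial : ℝ) + (Real.log x) ^ k / (k.factorial : ℝ)) / x ^ 3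

lemma psiC_le (q : ℕ) (χ : DirichletCharacter ℂ q) (x : ℝ) (hx : 0 ≤ x) : ‖psiC χ x‖ ≤ 6 * x := by
  have h1 : ‖psiC χ x‖ ≤ Chebyshev.psi x := by
    unfold psiC Chebyshev.psi
    have hI : Finset.Icc 1 ⌊x⌋₊ = Finset.Ioc 0 ⌊x⌋₊ := by
      ext n; simp [Nat.succ_le_iff]
    rw [hI]
    refine (norm_sum_le _ _).trans (Finset.sum_le_sum fun n _ => ?_)
    rw [norm_mul, Complex.norm_real, Real.norm_eq_abs,
      abs_of_nonneg ArithmeticFunction.vonMangoldt_nonneg]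
    have h2 : ‖χ n‖ ≤ 1 := χ.norm_le_one _
    have h3 : 0 ≤ ArithmeticFunction.vonMangoldt n := ArithmeticFunction.vonMangoldt_nonneg
    nlinarith
  have h2 := Chebyshev.psi_le_const_mul_self hx
  have h3 : Real.log 4 ≤ 2 := by
    have h4 : Real.log 4 = 2 * Real.log 2 := by
      rw [show (4 : ℝ) = 2 ^ 2 by norm_num, Real.log_pow]; norm_num
    rw [h4]
    linarith [Real.log_two_lt_d9]
  nlinarith

lemma psiC_inv (q : ℕ) [NeZero q] (χ : DirichletCharacter ℂ q) (x : ℝ) :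
    ‖psiC χ⁻¹ x‖ = ‖psiC χ x‖ := by
  have h : psiC χ⁻¹ x = (starRingEnd ℂ) (psiC χ x) := by
    unfold psiC
    rw [map_sum]
    refine Finset.sum_congr rfl fun n _ => ?_
    rw [map_mul, Complex.conj_ofReal, ← MulChar.star_apply' χ]
    rfl
  rw [h, Complex.norm_conj]

lemma Wt_nonneg (k : ℕ) (x : ℝ) (hx : 1 ≤ x) : 0 ≤ Wt k x := by
  unfold Wt
  have := Real.log_nonneg hx
  positivity

/-- the primitive -/
noncomputable def O0_F (a : ℝ) : ℕ → ℝ → ℝ
  | 0, x => -(x ^ (-a) / a)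
  | (j + 1), x => -(x ^ (-a) * Real.log x ^ (j + 1) / (((j + 1).factorial : ℝ) * a)) +
      O0_F a j x / a

lemma O0_F_one (a : ℝ) (j : ℕ) : O0_F a j 1 = -(1 / a) ^ (j + 1) := by
  induction j with
  | zero => simp [O0_F]
  | succ j ih =>
    simp only [O0_F, Real.log_one, ih]
    rw [pow_succ (1 / a) (j + 1)]
    simp
    ring

lemma O0_F_deriv (a : ℝ) (ha : 0 < a) (j : ℕ) {x : ℝ} (hx : 0 < x) :
    HasDerivAt (O0_F a j) (Real.log x ^ j / (j.factorial : ℝ) * x ^ (-a - 1)) x := by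
  have h0 : HasDerivAt (fun y : ℝ => y ^ (-a)) (-a * x ^ (-a - 1)) x :=
    Real.hasDerivAt_rpow_const (Or.inl hx.ne')
  induction j with
  | zero =>
    have h1 := (h0.div_const a).neg
    have h2 : Real.log x ^ 0 / ((0 : ℕ).factorial : ℝ) * x ^ (-a - 1) =
        -(-a * x ^ (-a - 1) / a) := by
      simp
      field_simp
    rw [h2]
    exact h1
  | succ j ih =>
    have hl : HasDerivAt (fun y : ℝ => Real.log y ^ (j + 1))
        (((j + 1 : ℕ) : ℝ) * Real.log x ^ j * x⁻¹) x := by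
      have h := HasDerivAt.fun_pow (Real.hasDerivAt_log hx.ne') (j + 1)
      simpa using h
    have h1 := ((h0.mul hl).div_const (((j + 1).factorial : ℝ) * a)).neg.add (ih.div_const a)
    have hx1 : x ^ (-a - 1) = x ^ (-a) / x := by
      rw [Real.rpow_sub hx, Real.rpow_one]
    have hf : ((j + 1).factorial : ℝ) = (j + 1) * (j.factorial : ℝ) := by
      rw [Nat.factorial_succ]; push_cast; ring
    have hf0 : (j.factorial : ℝ) ≠ 0 := by positivity
    have hj : ((j : ℝ) + 1) ≠ 0 := by positivity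
    have h2 : Real.log x ^ (j + 1) / ((j + 1).factorial : ℝ) * x ^ (-a - 1) =
        -((-a * x ^ (-a - 1) * Real.log x ^ (j + 1) +
          x ^ (-a) * (((j + 1 : ℕ) : ℝ) * Real.log x ^ j * x⁻¹)) /
          (((j + 1).factorial : ℝ) * a)) +
        Real.log x ^ j / (j.factorial : ℝ) * x ^ (-a - 1) / a := by
      rw [hx1, hf]
      push_cast
      field_simp
      ring
    rw [h2]
    exact h1

lemma O0_F_tendsto (a : ℝ) (ha : 0 < a) (j : ℕ) :
    Filter.Tendsto (O0_F a j) Filter.atTop (nhds 0) := by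
  have hb : ∀ i : ℕ, Filter.Tendsto (fun x : ℝ => x ^ (-a) * Real.log x ^ i) Filter.atTop
      (nhds 0) := by
    intro i
    have h1 := (isLittleO_log_rpow_rpow_atTop (s := a) (i : ℝ) ha).tendsto_div_nhds_zero
    refine h1.congr' ?_
    filter_upwards [Filter.eventually_gt_atTop 0] with x hx
    rw [Real.rpow_natCast, Real.rpow_neg hx.le]
    field_simp
  induction j with
  | zero =>
    have h1 := ((hb 0).div_const a).neg
    simpa [O0_F] using h1
  | succ j ih =>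
    have h1 := ((hb (j + 1)).div_const (((j + 1).factorial : ℝ) * a)).neg.add (ih.div_const a)
    simpa [O0_F] using h1

lemma O0_key (a : ℝ) (ha : 0 < a) (j : ℕ) :
    IntegrableOn (fun x : ℝ => Real.log x ^ j / (j.factorial : ℝ) * x ^ (-a - 1)) (Ioi 1) ∧
    ∫ x in Ioi (1 : ℝ), Real.log x ^ j / (j.factorial : ℝ) * x ^ (-a - 1) = (1 / a) ^ (j + 1) := by
  have hc : ContinuousWithinAt (O0_F a j) (Ici 1) 1 :=
    (O0_F_deriv a ha j one_pos).continuousAt.continuousWithinAt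
  have hd : ∀ x ∈ Ioi (1 : ℝ), HasDerivAt (O0_F a j)
      (Real.log x ^ j / (j.factorial : ℝ) * x ^ (-a - 1)) x := fun x hx =>
    O0_F_deriv a ha j (one_pos.trans hx)
  have hn : ∀ x ∈ Ioi (1 : ℝ), 0 ≤ Real.log x ^ j / (j.factorial : ℝ) * x ^ (-a - 1) := by
    intro x hx
    have h1 := Real.log_nonneg (le_of_lt (mem_Ioi.mp hx))
    have h2 : (0 : ℝ) < x := one_pos.trans hx
    positivity
  refine ⟨integrableOn_Ioi_deriv_of_nonneg hc hd hn (O0_F_tendsto a ha j), ?_⟩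
  rw [integral_Ioi_of_hasDerivAt_of_nonneg hc hd hn (O0_F_tendsto a ha j), O0_F_one a]
  ring

/-- O0 -/
lemma integrable_mul_Wt (k : ℕ) : IntegrableOn (fun x : ℝ => x * Wt k x) (Ioi 1) := by
  have h1 := (O0_key 1 one_pos (k + 1)).1.add (O0_key 1 one_pos k).1
  refine h1.congr_fun (fun x hx => ?_) measurableSet_Ioi
  have h2 : (0 : ℝ) < x := one_pos.trans hx
  have h3 : x ^ (-1 - 1 : ℝ) = 1 / x ^ 2 := by
    rw [show (-1 - 1 : ℝ) = -((2 : ℕ) : ℝ) by norm_num, Real.rpow_neg h2.le, Real.rpow_natCast,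
      one_div]
  simp only [Pi.add_apply, Wt, h3]
  field_simp

/-- O3 -/
lemma sqrt_part (k : ℕ) : IntegrableOn (fun x : ℝ => Real.sqrt x * Wt k x) (Ioi 1) ∧
    ∫ x in Ioi (1 : ℝ), Real.sqrt x * Wt k x ≤ 2 * (2 / 3 : ℝ) ^ (k + 1) := by
  have e : ∀ x ∈ Ioi (1 : ℝ), Real.log x ^ (k + 1) / ((k + 1).factorial : ℝ) *
      x ^ (-(3 / 2) - 1 : ℝ) + Real.log x ^ k / (k.factorial : ℝ) * x ^ (-(3 / 2) - 1 : ℝ) =
      Real.sqrt x * Wt k x := by
    intro x hx
    have h2 : (0 : ℝ) < x := one_pos.trans hx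
    have h3 : x ^ (-(3 / 2) - 1 : ℝ) = Real.sqrt x / x ^ 3 := by
      rw [show (-(3 / 2) - 1 : ℝ) = 1 / 2 - ((3 : ℕ) : ℝ) by norm_num, Real.rpow_sub h2,
        Real.rpow_natCast, Real.sqrt_eq_rpow]
    rw [h3]
    unfold Wt
    ring
  have h1 := O0_key (3 / 2) (by norm_num) (k + 1)
  have h2 := O0_key (3 / 2) (by norm_num) k
  constructor
  · exact (h1.1.add h2.1).congr_fun e measurableSet_Ioi
  · rw [← setIntegral_congr_fun measurableSet_Ioi e, integral_add h1.1 h2.1, h1.2, h2.2]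
    have h3 : (1 / (3 / 2) : ℝ) = 2 / 3 := by norm_num
    rw [h3, pow_succ (2 / 3 : ℝ) (k + 1)]
    have h4 : (0 : ℝ) < (2 / 3) ^ (k + 1) := by positivity
    linarith

lemma O1_pow (n : ℕ) (U : ℝ) (h0 : 0 ≤ U) (h : 12 * U ≤ n) :
    U ^ n / (n.factorial : ℝ) ≤ (1 / 4) ^ n := by
  have hf : (0 : ℝ) < (n.factorial : ℝ) := by positivity
  have h1 := Real.pow_div_factorial_le_exp (n : ℝ) (Nat.cast_nonneg n) n
  have h2 : Real.exp (n : ℝ) ≤ 3 ^ n := by
    have h3 : Real.exp (n : ℝ) = Real.exp 1 ^ n := by rw [← Real.exp_nat_mul, mul_one]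
    rw [h3]
    have h4 := Real.exp_one_lt_d9
    exact pow_le_pow_left₀ (Real.exp_pos 1).le (by linarith) n
  have h3 : U ≤ (n : ℝ) / 12 := by linarith
  calc U ^ n / (n.factorial : ℝ) ≤ ((n : ℝ) / 12) ^ n / (n.factorial : ℝ) := by gcongr
    _ = (n : ℝ) ^ n / (n.factorial : ℝ) * (1 / 12) ^ n := by
        rw [div_pow, div_pow, one_pow]; ring
    _ ≤ 3 ^ n * (1 / 12) ^ n := by
        gcongr
        exact h1.trans h2
    _ = (1 / 4) ^ n := by rw [← mul_pow]; norm_num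

lemma O1_int (j : ℕ) (X : ℝ) (hX : 1 ≤ X) :
    IntervalIntegrable (fun x : ℝ => Real.log x ^ j / (j.factorial : ℝ) / x) volume 1 X ∧
    ∫ x in (1 : ℝ)..X, Real.log x ^ j / (j.factorial : ℝ) / x =
      Real.log X ^ (j + 1) / ((j + 1).factorial : ℝ) := by
  have hc : ContinuousOn (fun x : ℝ => Real.log x ^ j / (j.factorial : ℝ) / x) (uIcc 1 X) := by
    intro x hx
    rw [uIcc_of_le hX] at hx
    have hx0 : x ≠ 0 := by linarith [hx.1]
    exact ((((Real.continuousAt_log hx0).pow j).div_const _).div continuousAt_id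
      hx0).continuousWithinAt
  have hi : IntervalIntegrable (fun x : ℝ => Real.log x ^ j / (j.factorial : ℝ) / x)
      volume 1 X := hc.intervalIntegrable
  refine ⟨hi, ?_⟩
  have hd : ∀ x ∈ uIcc 1 X, HasDerivAt (fun y : ℝ => Real.log y ^ (j + 1) /
      ((j + 1).factorial : ℝ)) (Real.log x ^ j / (j.factorial : ℝ) / x) x := by
    intro x hx
    rw [uIcc_of_le hX] at hx
    have hx0 : x ≠ 0 := by linarith [hx.1]
    have h1 := (HasDerivAt.fun_pow (Real.hasDerivAt_log hx0) (j + 1)).div_const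
      ((j + 1).factorial : ℝ)
    have h2 : Real.log x ^ j / (j.factorial : ℝ) / x =
        ((j + 1 : ℕ) : ℝ) * Real.log x ^ (j + 1 - 1) * x⁻¹ / ((j + 1).factorial : ℝ) := by
      have hf : ((j + 1).factorial : ℝ) = (j + 1) * (j.factorial : ℝ) := by
        rw [Nat.factorial_succ]; push_cast; ring
      have hf0 : (j.factorial : ℝ) ≠ 0 := by positivity
      have hj : ((j : ℝ) + 1) ≠ 0 := by positivity
      rw [hf, Nat.add_sub_cancel]
      push_cast
      field_simp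
    rw [h2]
    exact h1
  rw [intervalIntegral.integral_eq_sub_of_hasDerivAt hd hi, Real.log_one]
  simp

/-- O1 -/
lemma low_part (k : ℕ) (X : ℝ) (hX : 1 ≤ X) (hk : 12 * Real.log X ≤ k + 1) :
    ∫ x in Ioc (1 : ℝ) X, x * Wt k x ≤ 2 * (1 / 4 : ℝ) ^ (k + 1) := by
  have h1 := O1_int (k + 1) X hX
  have h2 := O1_int k X hX
  have hL := Real.log_nonneg hX
  rw [← intervalIntegral.integral_of_le hX]
  have hc : ContinuousOn (fun x : ℝ => x * Wt k x) (uIcc 1 X) := by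
    intro x hx
    rw [uIcc_of_le hX] at hx
    have hx0 : x ≠ 0 := by linarith [hx.1]
    have hl := Real.continuousAt_log hx0
    unfold Wt
    exact (continuousAt_id.mul ((((hl.pow (k + 1)).div_const _).add
      ((hl.pow k).div_const _)).div (continuousAt_id.pow 3) (pow_ne_zero 3 hx0))).continuousWithinAt
  have h3 : ∫ x in (1 : ℝ)..X, x * Wt k x ≤ ∫ x in (1 : ℝ)..X,
      (Real.log x ^ (k + 1) / ((k + 1).factorial : ℝ) / x +
        Real.log x ^ k / (k.factorial : ℝ) / x) := by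
    apply intervalIntegral.integral_mono_on hX hc.intervalIntegrable (h1.1.add h2.1)
    intro x hx
    have hx0 : 0 < x := by linarith [hx.1]
    have hlx := Real.log_nonneg hx.1
    have e1 : x * Wt k x = (Real.log x ^ (k + 1) / ((k + 1).factorial : ℝ) / x +
        Real.log x ^ k / (k.factorial : ℝ) / x) * (1 / x) := by
      unfold Wt
      field_simp
    have h4 : 0 ≤ Real.log x ^ (k + 1) / ((k + 1).factorial : ℝ) / x +
        Real.log x ^ k / (k.factorial : ℝ) / x := by positivity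
    have h5 : 1 / x ≤ 1 := by rw [div_le_one hx0]; exact hx.1
    rw [e1]
    exact mul_le_of_le_one_right h4 h5
  refine h3.trans ?_
  rw [intervalIntegral.integral_add h1.1 h2.1, h1.2, h2.2]
  have h6 := O1_pow (k + 1 + 1) (Real.log X) hL (by push_cast; linarith)
  have h7 := O1_pow (k + 1) (Real.log X) hL (by push_cast; linarith)
  have h8 : (0 : ℝ) < (1 / 4) ^ (k + 1) := by positivity
  rw [pow_succ (1 / 4 : ℝ) (k + 1)] at h6
  linarith

lemma O2_pow (j : ℕ) (x : ℝ) (hx : 1 ≤ x) :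
    (Real.log x) ^ j / (j.factorial : ℝ) ≤ 2 ^ j * x ^ (1 / 2 : ℝ) := by
  have hL := Real.log_nonneg hx
  have hx0 : 0 < x := by linarith
  have h1 := Real.pow_div_factorial_le_exp (Real.log x / 2) (by linarith) j
  have h2 : Real.exp (Real.log x / 2) = x ^ (1 / 2 : ℝ) := by
    rw [Real.rpow_def_of_pos hx0]; ring_nf
  rw [h2] at h1
  have h3 : (Real.log x) ^ j / (j.factorial : ℝ) =
      2 ^ j * ((Real.log x / 2) ^ j / (j.factorial : ℝ)) := by
    rw [div_pow]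
    field_simp
  rw [h3]
  exact mul_le_mul_of_nonneg_left h1 (by positivity)

lemma O2_bound (k : ℕ) (x : ℝ) (hx : 1 ≤ x) :
    x * Wt k x ≤ 3 * 2 ^ k * x ^ (-(3 / 2) : ℝ) := by
  have hx0 : 0 < x := by linarith
  have h1 := O2_pow (k + 1) x hx
  have h2 := O2_pow k x hx
  have h3 : x ^ (-(3 / 2) : ℝ) = x ^ (1 / 2 : ℝ) / x ^ 2 := by
    rw [← Real.rpow_natCast x 2, ← Real.rpow_sub hx0]
    norm_num
  unfold Wt
  rw [h3]
  have h4 : x * (((Real.log x) ^ (k + 1) / ((k + 1).factorial : ℝ) +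
      (Real.log x) ^ k / (k.factorial : ℝ)) / x ^ 3) =
      ((Real.log x) ^ (k + 1) / ((k + 1).factorial : ℝ) +
      (Real.log x) ^ k / (k.factorial : ℝ)) / x ^ 2 := by
    field_simp
  rw [h4, mul_div_assoc']
  apply div_le_div_of_nonneg_right _ (by positivity)
  calc _ ≤ 2 ^ (k + 1) * x ^ (1 / 2 : ℝ) + 2 ^ k * x ^ (1 / 2 : ℝ) := add_le_add h1 h2
    _ = _ := by ring

/-- O2 -/
lemma high_part (k : ℕ) (X : ℝ) (hX : 1 ≤ X) :
    ∫ x in Ioi X, x * Wt k x ≤ 4 * 2 ^ (k + 1) * X ^ (-(1 / 2) : ℝ) := by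
  have hX0 : 0 < X := by linarith
  have hi : IntegrableOn (fun x : ℝ => 3 * 2 ^ k * x ^ (-(3 / 2) : ℝ)) (Ioi X) :=
    (integrableOn_Ioi_rpow_of_lt (by norm_num) hX0).const_mul _
  have h1 : ∫ x in Ioi X, x * Wt k x ≤ ∫ x in Ioi X, 3 * 2 ^ k * x ^ (-(3 / 2) : ℝ) := by
    apply integral_mono_of_nonneg
    · filter_upwards [self_mem_ae_restrict measurableSet_Ioi] with x hx
      have hx1 : 1 ≤ x := hX.trans (le_of_lt hx)
      exact mul_nonneg (by linarith) (Wt_nonneg k x hx1)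
    · exact hi
    · filter_upwards [self_mem_ae_restrict measurableSet_Ioi] with x hx
      exact O2_bound k x (hX.trans (le_of_lt hx))
  refine h1.trans ?_
  rw [integral_const_mul, integral_Ioi_rpow_of_lt (by norm_num) hX0]
  have h2 : (-(3 / 2) : ℝ) + 1 = -(1 / 2) := by norm_num
  rw [h2]
  have h3 : 0 < X ^ (-(1 / 2) : ℝ) := Real.rpow_pos_of_pos hX0 _
  have h4 : (0 : ℝ) < 2 ^ k := by positivity
  have h5 : 3 * 2 ^ k * (-X ^ (-(1 / 2) : ℝ) / -(1 / 2)) = 6 * (2 ^ k * X ^ (-(1 / 2) : ℝ)) := by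
    ring
  rw [h5, pow_succ]
  nlinarith [mul_pos h4 h3]

lemma W1_deriv (f : ℝ → ℂ) (C σ0 : ℝ) (hf : Measurable f)
    (hb : ∀ t : ℝ, 1 < t → ‖f t‖ ≤ C * t ^ σ0) (s : ℂ) (hs : σ0 < s.re) :
    HasDerivAt (MC.MT f) (-MC.MT (fun t => (Real.log t : ℂ) * f t) s) s := by
  have h0 : MC.MT f = fun z => mellin (indicator (Ioi 1) f) (-z) := by
    ext z
    exact MC.MT_eq_mellin f z
  have h1 := (mellin_hasDerivAt_of_isBigO_rpow (f := indicator (Ioi 1) f) (s := -s) (a := -σ0)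
      (b := (-s).re - 1) (MC.locInt_indicator f C σ0 hf hb) (by
        rw [neg_neg]
        refine Asymptotics.IsBigO.of_bound C ?_
        filter_upwards [Filter.eventually_gt_atTop 1] with t ht
        rw [indicator_of_mem (mem_Ioi.mpr ht), Real.norm_of_nonneg (by positivity)]
        exact hb t ht) (by simp; exact hs) (by
        refine Asymptotics.IsBigO.of_bound 1 ?_
        have : Iio (1 : ℝ) ∈ nhdsWithin (0 : ℝ) (Ioi 0) :=
          mem_nhdsWithin_of_mem_nhds (Iio_mem_nhds one_pos)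
        filter_upwards [this] with t ht
        have ht1 : ¬ (1 < t) := not_lt.mpr (le_of_lt ht)
        rw [indicator_of_notMem (by simpa using ht1), norm_zero]
        positivity) (by linarith)).2
  have h2 : HasDerivAt (fun z : ℂ => mellin (indicator (Ioi 1) f) (-z))
      (mellin (fun t => Real.log t • indicator (Ioi 1) f t) (-s) * (-1)) s :=
    HasDerivAt.comp s h1 (hasDerivAt_neg s)
  rw [h0]
  convert! h2 using 1
  rw [MC.MT_eq_mellin, mul_neg_one]
  congr 2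
  ext t
  by_cases ht : (1 : ℝ) < t
  · rw [indicator_of_mem (mem_Ioi.mpr ht), indicator_of_mem (mem_Ioi.mpr ht)]
    simp
  · rw [indicator_of_notMem (by simpa using ht), indicator_of_notMem (by simpa using ht)]
    simp

lemma W1_log_pow (n : ℕ) (ε : ℝ) (hε : 0 < ε) : ∃ C : ℝ, 0 ≤ C ∧ ∀ t : ℝ, 1 < t →
    (Real.log t) ^ n ≤ C * t ^ ε := by
  set δ : ℝ := ε / (n + 1) with hδ
  have hδ0 : 0 < δ := by positivity
  refine ⟨(1 / δ) ^ n, by positivity, fun t ht => ?_⟩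
  have ht0 : 0 < t := by linarith
  have h1 : Real.log t ≤ t ^ δ / δ := Real.log_le_rpow_div ht0.le hδ0
  have h2 : 0 ≤ Real.log t := Real.log_nonneg ht.le
  calc (Real.log t) ^ n ≤ (t ^ δ / δ) ^ n := pow_le_pow_left₀ h2 h1 n
    _ = (1 / δ) ^ n * t ^ (δ * n) := by
        rw [div_pow, ← Real.rpow_natCast (t ^ δ) n, ← Real.rpow_mul ht0.le, one_div, inv_pow]
        ring
    _ ≤ (1 / δ) ^ n * t ^ ε := by
        gcongr
        · exact ht.le
        · rw [hδ]
          have hn : (0 : ℝ) < n + 1 := by positivity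
          rw [div_mul_eq_mul_div, div_le_iff₀ hn]
          nlinarith

/-- the functions `(log t)^n ψ(t, χ)` -/
noncomputable def W1f {q : ℕ} (χ : DirichletCharacter ℂ q) (n : ℕ) (t : ℝ) : ℂ :=
  (Real.log t : ℂ) ^ n * psiC χ t

lemma W1f_meas {q : ℕ} (χ : DirichletCharacter ℂ q) (n : ℕ) : Measurable (W1f χ n) := by
  have h1 : Measurable (psiC χ) :=
    MC.SumC_measurable (fun n => χ n * ((ArithmeticFunction.vonMangoldt n : ℝ) : ℂ))
  have h2 : Measurable (fun t : ℝ => (Real.log t : ℂ) ^ n) :=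
    (Complex.measurable_ofReal.comp Real.measurable_log).pow_const n
  exact h2.mul h1

lemma W1f_norm {q : ℕ} (χ : DirichletCharacter ℂ q) (n : ℕ) (t : ℝ) (ht : 1 < t) :
    ‖W1f χ n t‖ = (Real.log t) ^ n * ‖psiC χ t‖ := by
  unfold W1f
  rw [norm_mul, norm_pow, Complex.norm_real, Real.norm_of_nonneg (Real.log_nonneg ht.le)]

lemma W1f_bound {q : ℕ} (χ : DirichletCharacter ℂ q) (n : ℕ) (σ : ℝ) (hσ : 1 < σ) :
    ∃ C : ℝ, ∀ t : ℝ, 1 < t → ‖W1f χ n t‖ ≤ C * t ^ σ := by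
  obtain ⟨C, hC, h⟩ := W1_log_pow n (σ - 1) (by linarith)
  refine ⟨C * 6, fun t ht => ?_⟩
  have ht0 : 0 < t := by linarith
  rw [W1f_norm χ n t ht]
  calc (Real.log t) ^ n * ‖psiC χ t‖ ≤ (C * t ^ (σ - 1)) * (6 * t) := by
        gcongr
        · exact h t ht
        · exact psiC_le q χ t ht0.le
    _ = C * 6 * (t ^ (σ - 1) * t) := by ring
    _ = C * 6 * t ^ σ := by
        rw [Real.rpow_sub_one ht0.ne', div_mul_cancel₀ _ ht0.ne']

lemma W1_hasDeriv {q : ℕ} (χ : DirichletCharacter ℂ q) (n : ℕ) (s : ℂ) (hs : 1 < s.re) :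
    HasDerivAt (MC.MT (W1f χ n)) (-MC.MT (W1f χ (n + 1)) s) s := by
  obtain ⟨σ, hσ1, hσ2⟩ := exists_between hs
  obtain ⟨C, hC⟩ := W1f_bound χ n σ hσ1
  have h := W1_deriv (W1f χ n) C σ (W1f_meas χ n) hC s hσ2
  have h2 : (fun t => (Real.log t : ℂ) * W1f χ n t) = W1f χ (n + 1) := by
    ext t
    unfold W1f
    rw [pow_succ]; ring
  rw [h2] at h
  exact h

lemma W1_logDeriv {q : ℕ} [NeZero q] (χ : DirichletCharacter ℂ q) (s : ℂ) (hs : 1 < s.re) :
    logDeriv χ.LFunction s = -(s * MC.MT (W1f χ 0) s) := by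
  have h1 := DirichletCharacter.LSeries_twist_vonMangoldt_eq χ hs
  rw [logDeriv_apply, χ.deriv_LFunction_eq_deriv_LSeries hs, χ.LFunction_eq_LSeries hs]
  have h2 := LSeries_eq_mul_integral (fun n : ℕ => χ n *
    ((ArithmeticFunction.vonMangoldt n : ℝ) : ℂ)) (r := 1) zero_le_one (s := s) hs
    (DirichletCharacter.LSeriesSummable_twist_vonMangoldt χ hs) (by
      refine Asymptotics.IsBigO.of_bound 6 (Filter.Eventually.of_forall fun n => ?_)
      rw [Real.rpow_one, Real.norm_of_nonneg (Nat.cast_nonneg n)]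
      have := psiC_le q χ n (Nat.cast_nonneg n)
      unfold psiC at this
      rwa [Nat.floor_natCast] at this)
  have h3 : MC.MT (W1f χ 0) s = ∫ t in Set.Ioi (1 : ℝ), (∑ k ∈ Finset.Icc 1 ⌊t⌋₊, χ k *
      ((ArithmeticFunction.vonMangoldt k : ℝ) : ℂ)) * (t : ℂ) ^ (-(s + 1)) := by
    unfold MC.MT W1f psiC
    simp only [pow_zero, one_mul]
  rw [h3, ← h2]
  have h4 : LSeries (fun n : ℕ => χ n * ((ArithmeticFunction.vonMangoldt n : ℝ) : ℂ)) s =
      -deriv (LSeries fun n : ℕ => χ n) s / LSeries (fun n : ℕ => χ n) s := h1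
  rw [h4]
  ring

lemma W1_iter {q : ℕ} [NeZero q] (χ : DirichletCharacter ℂ q) (n : ℕ) :
    ∀ s : ℂ, 1 < s.re → iteratedDeriv (n + 1) (logDeriv χ.LFunction) s
      = -(s * ((-1) ^ (n + 1) * MC.MT (W1f χ (n + 1)) s)
          + (n + 1) * ((-1) ^ n * MC.MT (W1f χ n) s)) := by
  have hopen : IsOpen {z : ℂ | 1 < z.re} := isOpen_lt continuous_const Complex.continuous_re
  induction n with
  | zero =>
    intro s hs
    rw [zero_add, iteratedDeriv_one]
    have h1 : logDeriv χ.LFunction =ᶠ[nhds s] fun z => -(z * MC.MT (W1f χ 0) z) := by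
      filter_upwards [hopen.mem_nhds hs] with z hz
      exact W1_logDeriv χ z hz
    rw [h1.deriv_eq]
    have h2 := ((hasDerivAt_id s).mul (W1_hasDeriv χ 0 s hs)).neg
    have h3 : deriv (fun z => -(z * MC.MT (W1f χ 0) z)) s =
        -(1 * MC.MT (W1f χ 0) s + s * -MC.MT (W1f χ (0 + 1)) s) := h2.deriv
    rw [h3]
    push_cast
    ring
  | succ n ih =>
    intro s hs
    rw [iteratedDeriv_succ]
    have h1 : iteratedDeriv (n + 1) (logDeriv χ.LFunction) =ᶠ[nhds s]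
        fun z => -(z * ((-1) ^ (n + 1) * MC.MT (W1f χ (n + 1)) z)
          + (n + 1) * ((-1) ^ n * MC.MT (W1f χ n) z)) := by
      filter_upwards [hopen.mem_nhds hs] with z hz
      exact ih z hz
    rw [h1.deriv_eq]
    have h2 := (((hasDerivAt_id s).mul ((W1_hasDeriv χ (n + 1) s hs).const_mul
      ((-1 : ℂ) ^ (n + 1)))).add (((W1_hasDeriv χ n s hs).const_mul
      ((-1 : ℂ) ^ n)).const_mul ((n : ℂ) + 1))).neg
    have h3 : deriv (fun z => -(z * ((-1) ^ (n + 1) * MC.MT (W1f χ (n + 1)) z)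
          + (n + 1) * ((-1) ^ n * MC.MT (W1f χ n) z))) s =
        -(1 * ((-1) ^ (n + 1) * MC.MT (W1f χ (n + 1)) s) +
          s * ((-1) ^ (n + 1) * -MC.MT (W1f χ (n + 1 + 1)) s) +
          (n + 1) * ((-1) ^ n * -MC.MT (W1f χ (n + 1)) s)) := h2.deriv
    rw [h3]
    push_cast
    ring

lemma W1_norm_eq {q : ℕ} (χ : DirichletCharacter ℂ q) (n : ℕ) (s : ℂ) (hs : s.re = 2) (t : ℝ)
    (ht : t ∈ Ioi (1 : ℝ)) :
    ‖W1f χ n t * (t : ℂ) ^ (-(s + 1))‖ = (Real.log t) ^ n * ‖psiC χ t‖ / t ^ 3 := by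
  have ht1 : 1 < t := ht
  have ht0 : 0 < t := by linarith
  rw [norm_mul, W1f_norm χ n t ht1, Complex.norm_cpow_eq_rpow_re_of_pos ht0]
  have h1 : (-(s + 1)).re = -((3 : ℕ) : ℝ) := by simp [hs]; norm_num
  rw [h1, Real.rpow_neg ht0.le, Real.rpow_natCast]
  rfl

/-- W1 -/
lemma coeff_bound (q : ℕ) [NeZero q] (χ : DirichletCharacter ℂ q) (s₀ : ℂ)
    (hs : s₀.re = 2) (hs3 : ‖s₀‖ ≤ 3) (k : ℕ) :
    ‖iteratedDeriv (k + 1) (logDeriv χ.LFunction) s₀ / ((k + 1).factorial : ℂ)‖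
      ≤ 3 * ∫ x in Ioi (1 : ℝ), ‖psiC χ x‖ * Wt k x := by
  have hs1 : 1 < s₀.re := by rw [hs]; norm_num
  set J : ℕ → ℝ → ℝ := fun n t => (Real.log t) ^ n * ‖psiC χ t‖ / t ^ 3 with hJ
  have hint : ∀ n, IntegrableOn (J n) (Ioi 1) := by
    intro n
    obtain ⟨C, hC⟩ := W1f_bound χ n (3 / 2) (by norm_num)
    have h1 := (MC.MT_integrable (W1f χ n) C (3 / 2) (W1f_meas χ n) hC s₀
      (by rw [hs]; norm_num)).norm
    refine h1.congr ?_
    refine (ae_restrict_iff' measurableSet_Ioi).mpr (ae_of_all _ fun t ht => ?_)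
    exact W1_norm_eq χ n s₀ hs t ht
  have hnorm : ∀ n, ‖MC.MT (W1f χ n) s₀‖ ≤ ∫ x in Ioi (1 : ℝ), J n x := by
    intro n
    unfold MC.MT
    refine (norm_integral_le_integral_norm _).trans (le_of_eq ?_)
    exact setIntegral_congr_fun measurableSet_Ioi fun t ht => W1_norm_eq χ n s₀ hs t ht
  have hfac : (0 : ℝ) < (k + 1).factorial := by exact_mod_cast (k + 1).factorial_pos
  have hfac' : (0 : ℝ) < k.factorial := by exact_mod_cast k.factorial_pos
  have hfs : ((k + 1).factorial : ℝ) = (k + 1) * k.factorial := by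
    rw [Nat.factorial_succ]; push_cast; ring
  have hI : ∫ x in Ioi (1 : ℝ), ‖psiC χ x‖ * Wt k x
      = (∫ x in Ioi (1 : ℝ), J (k + 1) x) / (k + 1).factorial
        + (∫ x in Ioi (1 : ℝ), J k x) / k.factorial := by
    rw [← integral_div, ← integral_div, ← integral_add ((hint (k + 1)).div_const _)
      ((hint k).div_const _)]
    refine setIntegral_congr_fun measurableSet_Ioi fun t ht => ?_
    simp only [hJ, Wt]
    ring
  have hJ0 : ∀ n, 0 ≤ ∫ x in Ioi (1 : ℝ), J n x := fun n =>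
    setIntegral_nonneg measurableSet_Ioi fun t ht => by
      have h1 : (1 : ℝ) < t := ht
      have := Real.log_nonneg h1.le
      simp only [hJ]
      positivity
  rw [W1_iter χ k s₀ hs1, norm_div, norm_neg, Complex.norm_natCast, hI, div_le_iff₀ hfac]
  have h1 : ‖s₀ * ((-1) ^ (k + 1) * MC.MT (W1f χ (k + 1)) s₀)
      + ((k : ℂ) + 1) * ((-1) ^ k * MC.MT (W1f χ k) s₀)‖
      ≤ 3 * (∫ x in Ioi (1 : ℝ), J (k + 1) x) + (k + 1) * ∫ x in Ioi (1 : ℝ), J k x := by
    refine (norm_add_le _ _).trans (add_le_add ?_ ?_)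
    · rw [norm_mul, norm_mul, norm_pow, norm_neg, norm_one, one_pow, one_mul]
      exact mul_le_mul hs3 (hnorm _) (norm_nonneg _) (by norm_num)
    · rw [norm_mul, norm_mul, norm_pow, norm_neg, norm_one, one_pow, one_mul]
      have h2 : ‖(k : ℂ) + 1‖ = (k : ℝ) + 1 := by
        rw [show (k : ℂ) + 1 = ((k + 1 : ℕ) : ℂ) by push_cast; ring, Complex.norm_natCast]
        push_cast; ring
      rw [h2]
      exact mul_le_mul_of_nonneg_left (hnorm _) (by positivity)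
  refine h1.trans ?_
  have h3 : 3 * ((∫ x in Ioi (1 : ℝ), J (k + 1) x) / (k + 1).factorial
        + (∫ x in Ioi (1 : ℝ), J k x) / k.factorial) * (k + 1).factorial
      = 3 * (∫ x in Ioi (1 : ℝ), J (k + 1) x) + 3 * ((k + 1) * ∫ x in Ioi (1 : ℝ), J k x) := by
    rw [hfs]
    field_simp
  rw [h3]
  have h4 : 0 ≤ ((k : ℝ) + 1) * ∫ x in Ioi (1 : ℝ), J k x := mul_nonneg (by positivity) (hJ0 k)
  linarith

end Pool.Agent.EM
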