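import Mathlib
import Pool.Agent.Lib.MP_9cfc0a_nt.EMCoeff
import Pool.Agent.Lib.MP_9cfc0a_nt.EMPsi

set_option autoImplicit false

namespace Pool.Agent.EM

open Complex Metric Set MeasureTheory

lemma psiC_measurable {q : ℕ} (χ : DirichletCharacter ℂ q) : Measurable (psiC χ) := by
  have h1 : psiC χ = (fun n : ℕ => ∑ k ∈ Finset.Icc 1 n,
      χ k * ((ArithmeticFunction.vonMangoldt k : ℝ) : ℂ)) ∘ (fun t : ℝ => ⌊t⌋₊) := rfl
  rw [h1]
  exact (measurable_from_top).comp Nat.measurable_floor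

lemma Wt_measurable (k : ℕ) : Measurable (Wt k) := by
  unfold Wt
  fun_prop

lemma integrable_psiC_Wt {q : ℕ} (χ : DirichletCharacter ℂ q) (k : ℕ) :
    IntegrableOn (fun x : ℝ => ‖psiC χ x‖ * Wt k x) (Ioi 1) := by
  have h1 := (integrable_mul_Wt k).const_mul 6
  refine Integrable.mono' h1
    ((psiC_measurable χ).norm.mul (Wt_measurable k)).aestronglyMeasurable ?_
  refine (ae_restrict_iff' measurableSet_Ioi).mpr (Filter.Eventually.of_forall fun x hx => ?_)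
  rw [mem_Ioi] at hx
  have hW := Wt_nonneg k x hx.le
  rw [Real.norm_of_nonneg (by positivity)]
  calc ‖psiC χ x‖ * Wt k x ≤ (6 * x) * Wt k x := by
        gcongr; exact psiC_le q χ x (by linarith)
    _ = 6 * (x * Wt k x) := by ring

lemma psiC_Wt_le {q : ℕ} (χ : DirichletCharacter ℂ q) (k : ℕ) (s : Set ℝ) (hs : s ⊆ Ioi 1)
    (hsm : MeasurableSet s) :
    ∫ x in s, ‖psiC χ x‖ * Wt k x ≤ 6 * ∫ x in s, x * Wt k x := by
  rw [← integral_const_mul]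
  refine setIntegral_mono_on ((integrable_psiC_Wt χ k).mono_set hs)
    (((integrable_mul_Wt k).mono_set hs).const_mul 6) hsm fun x hx => ?_
  have hx1 : 1 < x := hs hx
  have hW := Wt_nonneg k x hx1.le
  calc ‖psiC χ x‖ * Wt k x ≤ (6 * x) * Wt k x := by
        gcongr; exact psiC_le q χ x (by linarith)
    _ = 6 * (x * Wt k x) := by ring

/-- The main lower bound for a weighted mean of `|ψ(x,χ)|` in a window `(X, X^K]`. -/
lemma key (η : ℝ) (hη : 0 < η) (hη1 : η ≤ 1) :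
    ∃ (K : ℕ) (X₁ : ℝ), 1 ≤ K ∧ ∀ (q : ℕ) [NeZero q] (X : ℝ), (q : ℝ) ≤ X → X₁ ≤ X →
      ∀ χ : DirichletCharacter ℂ q, χ ≠ 1 →
      ∀ ρ₀ : ℂ, χ.LFunction ρ₀ = 0 → 1 / 2 ≤ ρ₀.re → ρ₀.re < 1 → |ρ₀.im| ≤ 19 / 10 →
      ∃ k : ℕ, X ^ (-η) * (2 / 3 : ℝ) ^ k ≤ ∫ x in Ioc X (X ^ K), ‖psiC χ x‖ * Wt k x := by
  obtain ⟨L, X₁, hco⟩ := coeff_lower η hη hη1
  set K : ℕ := 48 * L + 10 with hK
  have hL0 : (0 : ℝ) ≤ L := Nat.cast_nonneg L
  obtain ⟨X₂, hX₂⟩ := Filter.eventually_atTop.mp ((((evX_logC 1).and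
    (evX_const 27 (η / 2) (by positivity))).and (evX_const 162 (1 / 2) (by norm_num))).and
    (evX_const (2592 * Real.exp (6 * L)) (1 / 2) (by norm_num)))
  refine ⟨K, max X₁ X₂, by omega, fun q _ X hqX hX χ hχ ρ₀ h1 h2 h3 h4 => ?_⟩
  obtain ⟨⟨⟨hlog1, hq27⟩, hq162⟩, hqe⟩ := hX₂ X (le_trans (le_max_right _ _) hX)
  obtain ⟨s₀, hs1, hs2, k, hk1, hk2, hk3⟩ :=
    hco q X hqX (le_trans (le_max_left _ _) hX) χ hχ ρ₀ h1 h2 h3 h4
  have hX1 : 1 ≤ X := by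
    have : (1 : ℝ) ≤ (q : ℝ) := by exact_mod_cast Nat.pos_of_ne_zero (NeZero.ne q)
    linarith
  have hq0 : (0 : ℝ) < X := by linarith
  set ℓ : ℝ := Real.log X with hℓ
  refine ⟨k, ?_⟩
  have hW := coeff_bound q χ s₀ hs1 hs2 k
  set Y : ℝ := X ^ K with hY
  have hXY : X ≤ Y := by
    calc X = X ^ 1 := (pow_one X).symm
      _ ≤ X ^ K := pow_le_pow_right₀ hX1 (by omega)
  have hY1 : 1 ≤ Y := hX1.trans hXY
  have hY0 : 0 < Y := by linarith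
  have hlow := low_part k X hX1 (by linarith)
  have hhigh := high_part k Y hY1
  have hI := integrable_psiC_Wt χ k
  have hsplit : ∫ x in Ioi (1 : ℝ), ‖psiC χ x‖ * Wt k x
      = (∫ x in Ioc (1 : ℝ) X, ‖psiC χ x‖ * Wt k x) + (∫ x in Ioc X Y, ‖psiC χ x‖ * Wt k x)
        + ∫ x in Ioi Y, ‖psiC χ x‖ * Wt k x := by
    have e1 : Ioi (1 : ℝ) = Ioc 1 Y ∪ Ioi Y := (Ioc_union_Ioi_eq_Ioi hY1).symm
    have e2 : Ioc (1 : ℝ) Y = Ioc 1 X ∪ Ioc X Y := (Ioc_union_Ioc_eq_Ioc hX1 hXY).symm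
    have d1 : Disjoint (Ioc (1 : ℝ) Y) (Ioi Y) :=
      Set.disjoint_left.mpr fun x hx hx' => not_lt.mpr hx.2 hx'
    have d2 : Disjoint (Ioc (1 : ℝ) X) (Ioc X Y) :=
      Set.disjoint_left.mpr fun x hx hx' => not_lt.mpr hx.2 hx'.1
    rw [e1, setIntegral_union d1 measurableSet_Ioi (hI.mono_set (fun x hx => hx.1))
      (hI.mono_set (fun x hx => lt_of_le_of_lt hY1 hx)), e2,
      setIntegral_union d2 measurableSet_Ioc (hI.mono_set (fun x hx => hx.1))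
      (hI.mono_set (fun x hx => lt_of_le_of_lt hX1 hx.1))]
  have hlow2 : ∫ x in Ioc (1 : ℝ) X, ‖psiC χ x‖ * Wt k x ≤ 6 * (2 * (1 / 4 : ℝ) ^ (k + 1)) :=
    (psiC_Wt_le χ k _ (fun x hx => hx.1) measurableSet_Ioc).trans
      (mul_le_mul_of_nonneg_left hlow (by norm_num))
  have hhigh2 : ∫ x in Ioi Y, ‖psiC χ x‖ * Wt k x
      ≤ 6 * (4 * 2 ^ (k + 1) * Y ^ (-(1 / 2) : ℝ)) :=
    (psiC_Wt_le χ k _ (fun x hx => lt_of_le_of_lt hY1 hx) measurableSet_Ioi).trans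
      (mul_le_mul_of_nonneg_left hhigh (by norm_num))
  -- numerical estimates
  set Z : ℝ := X ^ (-(η / 2)) * (2 / 3 : ℝ) ^ k with hZ
  have hZ0 : 0 < Z := by positivity
  have hqη : X ^ (-(η / 2)) * X ^ (η / 2) = 1 := by
    rw [← Real.rpow_add hq0]; simp
  have hhalf : X ^ (1 / 2 : ℝ) * X ^ (η / 2) ≤ X := by
    rw [← Real.rpow_add hq0]
    calc X ^ (1 / 2 + η / 2) ≤ X ^ (1 : ℝ) := by
          apply Real.rpow_le_rpow_of_exponent_le <;> linarith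
      _ = X := Real.rpow_one _
  have e1 : 3 * (1 / 4 : ℝ) ^ k ≤ 1 / 54 * Z := by
    have h5 : X ≤ (8 / 3 : ℝ) ^ k := by
      have h6 := exp_le_pow (8 / 3) (5 / 8) (by norm_num) (by
        have := Real.one_sub_inv_le_log_of_pos (show (0 : ℝ) < 8 / 3 by norm_num)
        norm_num at this ⊢
        linarith) (12 * ℓ) k (by norm_num) hk1
      refine le_trans ?_ h6
      calc X = Real.exp ℓ := by rw [hℓ, Real.exp_log hq0]
        _ ≤ Real.exp (5 / 8 * (12 * ℓ)) := by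
            rw [Real.exp_le_exp]
            nlinarith
    have h6 : (2 / 3 : ℝ) ^ k = (8 / 3) ^ k * (1 / 4) ^ k := by
      rw [← mul_pow]; norm_num
    have h7 : 162 * X ^ (η / 2) ≤ (8 / 3 : ℝ) ^ k := by
      calc 162 * X ^ (η / 2) ≤ X ^ (1 / 2 : ℝ) * X ^ (η / 2) := by gcongr
        _ ≤ X := hhalf
        _ ≤ _ := h5
    have h8 : 162 ≤ X ^ (-(η / 2)) * (8 / 3 : ℝ) ^ k := by
      calc (162 : ℝ) = X ^ (-(η / 2)) * (162 * X ^ (η / 2)) := by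
            rw [show X ^ (-(η / 2)) * (162 * X ^ (η / 2))
              = 162 * (X ^ (-(η / 2)) * X ^ (η / 2)) by ring, hqη, mul_one]
        _ ≤ _ := by gcongr
    rw [hZ, h6]
    have h9 : (0 : ℝ) < (1 / 4) ^ k := by positivity
    nlinarith
  have e2 : 48 * (2 : ℝ) ^ k * Y ^ (-(1 / 2) : ℝ) ≤ 1 / 54 * Z := by
    have h5 : (3 : ℝ) ^ k ≤ Real.exp (2 * (L * (12 * ℓ + 3))) := by
      have h6 : Real.log 3 ≤ 2 := by
        have := Real.log_le_sub_one_of_pos (show (0 : ℝ) < 3 by norm_num)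
        linarith
      calc (3 : ℝ) ^ k = Real.exp (k * Real.log 3) := by
            rw [← Real.log_pow, Real.exp_log (by positivity)]
        _ ≤ Real.exp (2 * (L * (12 * ℓ + 3))) := by
            rw [Real.exp_le_exp]
            have h7 : (0 : ℝ) ≤ k := Nat.cast_nonneg k
            calc (k : ℝ) * Real.log 3 ≤ k * 2 := by gcongr
              _ ≤ (L * (12 * ℓ + 3)) * 2 := by gcongr; linarith
              _ = _ := by ring
    have hB : ((K : ℕ) : ℝ) / 2 = 24 * L + 5 := by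
      rw [hK]; push_cast; ring
    have h6 : 2592 * Real.exp (6 * L) * X ^ (η / 2) * X ^ (24 * (L : ℝ)) ≤ X ^ ((K : ℝ) / 2) := by
      calc 2592 * Real.exp (6 * L) * X ^ (η / 2) * X ^ (24 * (L : ℝ))
          ≤ (X ^ (1 / 2 : ℝ) * X ^ (η / 2)) * X ^ (24 * (L : ℝ)) := by gcongr
        _ ≤ X ^ (1 : ℝ) * X ^ (24 * (L : ℝ)) := by rw [Real.rpow_one]; gcongr
        _ = X ^ (1 + 24 * (L : ℝ)) := by rw [← Real.rpow_add hq0]
        _ ≤ X ^ ((K : ℝ) / 2) := by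
            apply Real.rpow_le_rpow_of_exponent_le hX1
            rw [hB]
            linarith
    have h7 : Real.exp (2 * (L * (12 * ℓ + 3))) = Real.exp (6 * L) * X ^ (24 * (L : ℝ)) := by
      rw [Real.rpow_def_of_pos hq0, ← Real.exp_add]
      congr 1
      ring
    have h8 : 2592 * (3 : ℝ) ^ k * X ^ (η / 2) ≤ X ^ ((K : ℝ) / 2) := by
      calc 2592 * (3 : ℝ) ^ k * X ^ (η / 2)
          ≤ 2592 * (Real.exp (6 * L) * X ^ (24 * (L : ℝ))) * X ^ (η / 2) := by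
            rw [← h7]; gcongr
        _ = 2592 * Real.exp (6 * L) * X ^ (η / 2) * X ^ (24 * (L : ℝ)) := by ring
        _ ≤ _ := h6
    have h9 : Y ^ (-(1 / 2) : ℝ) * X ^ ((K : ℝ) / 2) = 1 := by
      rw [hY, ← Real.rpow_natCast, ← Real.rpow_mul hq0.le, ← Real.rpow_add hq0]
      rw [show (K : ℝ) * -(1 / 2) + (K : ℝ) / 2 = 0 by ring, Real.rpow_zero]
    have h10 : (2 / 3 : ℝ) ^ k * 3 ^ k = 2 ^ k := by rw [← mul_pow]; norm_num
    have hYp : 0 < Y ^ (-(1 / 2) : ℝ) := by positivity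
    have h11 : Y ^ (-(1 / 2) : ℝ) * (2592 * (3 : ℝ) ^ k) ≤ X ^ (-(η / 2)) := by
      calc Y ^ (-(1 / 2) : ℝ) * (2592 * (3 : ℝ) ^ k)
          = Y ^ (-(1 / 2) : ℝ) * (2592 * (3 : ℝ) ^ k * X ^ (η / 2)) * X ^ (-(η / 2)) := by
            have : Y ^ (-(1 / 2) : ℝ) * (2592 * (3 : ℝ) ^ k * X ^ (η / 2)) * X ^ (-(η / 2))
              = Y ^ (-(1 / 2) : ℝ) * (2592 * (3 : ℝ) ^ k)
                * (X ^ (-(η / 2)) * X ^ (η / 2)) := by ring
            rw [this, hqη, mul_one]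
        _ ≤ Y ^ (-(1 / 2) : ℝ) * (X ^ ((K : ℝ) / 2)) * X ^ (-(η / 2)) := by gcongr
        _ = X ^ (-(η / 2)) := by rw [h9, one_mul]
    calc 48 * (2 : ℝ) ^ k * Y ^ (-(1 / 2) : ℝ)
        = 1 / 54 * ((Y ^ (-(1 / 2) : ℝ) * (2592 * (3 : ℝ) ^ k)) * (2 / 3 : ℝ) ^ k) := by
          rw [← h10]; ring
      _ ≤ 1 / 54 * (X ^ (-(η / 2)) * (2 / 3 : ℝ) ^ k) := by gcongr
      _ = 1 / 54 * Z := by rw [hZ]
  have e3 : X ^ (-η) * (2 / 3 : ℝ) ^ k ≤ 1 / 27 * Z := by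
    have h5 : X ^ (-η) = X ^ (-(η / 2)) * X ^ (-(η / 2)) := by
      rw [← Real.rpow_add hq0]; congr 1; ring
    have h7 : (0 : ℝ) < X ^ (-(η / 2)) := by positivity
    have h6 : X ^ (-(η / 2)) ≤ 1 / 27 := by
      nlinarith
    rw [h5, hZ]
    have h8 : (0 : ℝ) < (2 / 3 : ℝ) ^ k := by positivity
    calc X ^ (-(η / 2)) * X ^ (-(η / 2)) * (2 / 3 : ℝ) ^ k
        ≤ X ^ (-(η / 2)) * (1 / 27) * (2 / 3 : ℝ) ^ k := by gcongr
      _ = _ := by ring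
  have e4 : 1 / 2 * X ^ (-(η / 2)) * (2 / 3 : ℝ) ^ (k + 2) = 2 / 9 * Z := by
    rw [hZ, pow_add]; ring
  rw [e4] at hk3
  have e5 : (1 / 4 : ℝ) ^ (k + 1) = 1 / 4 * (1 / 4) ^ k := by rw [pow_succ]; ring
  have e6 : (2 : ℝ) ^ (k + 1) = 2 * 2 ^ k := by rw [pow_succ]; ring
  rw [e5] at hlow2
  rw [e6] at hhigh2
  have e7 : 6 * (4 * (2 * (2 : ℝ) ^ k) * Y ^ (-(1 / 2) : ℝ)) = 48 * (2 : ℝ) ^ k * Y ^ (-(1 / 2) : ℝ) := by
    ring
  rw [e7] at hhigh2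
  have e8 : 2 / 9 * Z ≤ 3 * ∫ x in Ioi (1 : ℝ), ‖psiC χ x‖ * Wt k x := hk3.trans hW
  rw [hsplit] at e8
  linarith

end Pool.Agent.EM
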