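import Mathlib
import Pool.Agent.Lib.MP_9cfc0a_nt.EMKey

set_option autoImplicit false

namespace Pool.Agent.EM

open Complex Metric Set MeasureTheory

lemma ZD_RC_norm_le (d : ℕ) [NeZero d] (χ : DirichletCharacter ℂ d) (s : ℂ) (hs : 1 / 20 ≤ s.re) :
    ‖MC.MT (MC.RC d χ) s‖ ≤ 40 * d + 20 := by
  have h1 := MC.MT_norm_le (MC.RC d χ) _ 0 (MC.RC_bound d χ) s (by linarith)
  refine h1.trans ?_
  rw [sub_zero, div_le_iff₀ (by linarith)]
  have : (0 : ℝ) ≤ d := Nat.cast_nonneg d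
  nlinarith

lemma FF_growth (q : ℕ) [NeZero q] (χ : DirichletCharacter ℂ q) (s : ℂ) (hs : 1 / 20 ≤ s.re) :
    ‖MC.FF q χ s‖ ≤ (40 * q + 21) * (‖s‖ + 1) ^ 2 := by
  have hdR : (0 : ℝ) ≤ q := Nat.cast_nonneg q
  have hn : 0 ≤ ‖s‖ := norm_nonneg s
  by_cases h : χ = 1
  · subst h
    rw [MC.FF_one_eq_MT q s (by linarith)]
    have h1 := ZD_RC_norm_le q 1 s hs
    have h2 : ‖s - 1‖ ≤ ‖s‖ + 1 := (norm_sub_le _ _).trans (by simp)
    calc _ ≤ ‖s * (s - 1) * MC.MT (MC.RC q 1) s‖ + ‖MC.densC q 1 * s‖ := norm_add_le _ _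
      _ ≤ (‖s‖ + 1) * (‖s‖ + 1) * (40 * q + 20) + 1 * ((‖s‖ + 1) * (‖s‖ + 1)) := by
          rw [norm_mul, norm_mul, norm_mul]
          gcongr
          · linarith
          · exact MC.norm_densC_le q 1
          · nlinarith
      _ = (40 * q + 21) * (‖s‖ + 1) ^ 2 := by ring
  · rw [MC.FF_eq_MT q χ h s (by linarith), norm_mul]
    have h1 := ZD_RC_norm_le q χ s hs
    calc ‖s‖ * ‖MC.MT (MC.RC q χ) s‖ ≤ (‖s‖ + 1) ^ 2 * (40 * q + 21) := by
          gcongr
          · nlinarith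
          · linarith
      _ = _ := by ring

lemma ZD_LFunction_lower (d : ℕ) [NeZero d] (χ : DirichletCharacter ℂ d) (s : ℂ) (hs : 2 ≤ s.re) :
    1 / 3 ≤ ‖χ.LFunction s‖ := by
  rw [DirichletCharacter.LFunction_eq_LSeries χ (by linarith)]
  have hsum := DirichletCharacter.LSeriesSummable_of_one_lt_re χ (s := s) (by linarith)
  set g : ℕ → ℂ := LSeries.term (fun n => χ n) s with hg
  have hs0 : s ≠ 0 := by
    intro h; rw [h] at hs; norm_num at hs
  have h1 : LSeries (fun n => χ n) s = 1 + ∑' n, g (n + 2) := by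
    unfold LSeries
    rw [← hg, ← Summable.sum_add_tsum_nat_add 2 hsum]
    congr 1
    rw [Finset.sum_range_succ, Finset.sum_range_one, LSeries.term_zero,
      LSeries.term_of_ne_zero one_ne_zero]
    simp
  have h2 := hasSum_zeta_two
  have h3 : HasSum (fun n : ℕ => (1 : ℝ) / ((n + 2 : ℕ) : ℝ) ^ 2) (Real.pi ^ 2 / 6 - 1) := by
    have h4 := (hasSum_nat_add_iff' 2).mpr h2
    rw [Finset.sum_range_succ, Finset.sum_range_one] at h4
    norm_num at h4 ⊢
    exact h4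
  have h4 : ‖∑' n, g (n + 2)‖ ≤ Real.pi ^ 2 / 6 - 1 := by
    refine tsum_of_norm_bounded h3 fun n => ?_
    rw [hg, LSeries.term_of_ne_zero (by omega), norm_div]
    have hpos : (0 : ℝ) < ((n + 2 : ℕ) : ℝ) := by positivity
    have hone : (1 : ℝ) ≤ ((n + 2 : ℕ) : ℝ) := by push_cast; linarith [Nat.cast_nonneg (α := ℝ) n]
    have h5 : ((n + 2 : ℕ) : ℝ) ^ 2 ≤ ‖((n + 2 : ℕ) : ℂ) ^ s‖ := by
      rw [← Complex.ofReal_natCast, Complex.norm_cpow_eq_rpow_re_of_pos hpos, ← Real.rpow_natCast]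
      exact Real.rpow_le_rpow_of_exponent_le hone (by push_cast; exact hs)
    gcongr
    exact χ.norm_le_one _
  have hpi : Real.pi ^ 2 ≤ 10 := by
    have h5 := Real.pi_lt_d2
    have h6 := Real.pi_pos
    nlinarith
  rw [h1]
  have h5 : ‖(1 : ℂ)‖ ≤ ‖1 + ∑' n, g (n + 2)‖ + ‖∑' n, g (n + 2)‖ := by
    calc ‖(1 : ℂ)‖ = ‖(1 + ∑' n, g (n + 2)) - ∑' n, g (n + 2)‖ := by rw [add_sub_cancel_right]
      _ ≤ _ := norm_sub_le _ _
  rw [norm_one] at h5
  linarith

lemma ZD_FF_lower (d : ℕ) [NeZero d] (χ : DirichletCharacter ℂ d) (s : ℂ) (hs : 2 ≤ s.re) :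
    1 / 3 ≤ ‖MC.FF d χ s‖ := by
  have h1 := ZD_LFunction_lower d χ s hs
  by_cases h : χ = 1
  · subst h
    have hs1 : s ≠ 1 := by
      intro h; rw [h] at hs; norm_num at hs
    rw [MC.FF_one_apply d s hs1, norm_mul]
    have h2 : 1 ≤ ‖s - 1‖ := by
      have h3 := Complex.re_le_norm (s - 1)
      rw [Complex.sub_re, Complex.one_re] at h3
      linarith
    nlinarith [norm_nonneg ((1 : DirichletCharacter ℂ d).LFunction s)]
  · rw [MC.FF_of_ne d χ h]
    exact h1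

/-- no zeros on `Re s ≥ 1` -/
lemma ZD_FF_ne (d : ℕ) [NeZero d] (χ : DirichletCharacter ℂ d) (s : ℂ) (hs : 1 ≤ s.re) :
    MC.FF d χ s ≠ 0 := by
  by_cases h : χ = 1
  · subst h
    by_cases hs1 : s = 1
    · rw [hs1, MC.FF_one]
      exact DirichletCharacter.LFunctionTrivChar₁_apply_one_ne_zero d
    · rw [MC.FF_one_apply d s hs1]
      refine mul_ne_zero (sub_ne_zero.mpr hs1) ?_
      exact DirichletCharacter.LFunction_ne_zero_of_one_le_re 1 (.inr hs1) hs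
  · rw [MC.FF_of_ne d χ h]
    exact DirichletCharacter.LFunction_ne_zero_of_one_le_re χ (.inl h) hs

/-- zeros of the L-function with `Re s < 1` are zeros of `FF` -/
lemma ZD_FF_zero (d : ℕ) [NeZero d] (χ : DirichletCharacter ℂ d) (s : ℂ) (hs : s.re < 1)
    (h0 : χ.LFunction s = 0) : MC.FF d χ s = 0 := by
  by_cases h : χ = 1
  · subst h
    have hs1 : s ≠ 1 := by
      intro h; rw [h] at hs; norm_num at hs
    rw [MC.FF_one_apply d s hs1, h0, mul_zero]
  · rw [MC.FF_of_ne d χ h]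
    exact h0

open scoped Classical in
/-- `ψ(x, χ)`, minus `x` for the principal character -/
noncomputable def gC {q : ℕ} (χ : DirichletCharacter ℂ q) (x : ℝ) : ℂ :=
  psiC χ x - (if χ = 1 then (x : ℂ) else 0)

lemma gC_le (q : ℕ) (χ : DirichletCharacter ℂ q) (x : ℝ) (hx : 0 ≤ x) : ‖gC χ x‖ ≤ 7 * x := by
  have h1 := psiC_le q χ x hx
  unfold gC
  refine (norm_sub_le _ _).trans ?_
  split_ifs
  · rw [Complex.norm_real, Real.norm_of_nonneg hx]
    linarith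
  · rw [norm_zero]
    linarith

lemma gC_measurable {q : ℕ} (χ : DirichletCharacter ℂ q) : Measurable (gC χ) := by
  unfold gC
  refine (psiC_measurable χ).sub ?_
  split_ifs
  · exact Complex.measurable_ofReal
  · exact measurable_const

/-- the functions `(log t)^n g(t, χ)` -/
noncomputable def ZDf {q : ℕ} (χ : DirichletCharacter ℂ q) (n : ℕ) (t : ℝ) : ℂ :=
  (Real.log t : ℂ) ^ n * gC χ t

lemma ZDf_meas {q : ℕ} (χ : DirichletCharacter ℂ q) (n : ℕ) : Measurable (ZDf χ n) := by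
  have h2 : Measurable (fun t : ℝ => (Real.log t : ℂ) ^ n) :=
    (Complex.measurable_ofReal.comp Real.measurable_log).pow_const n
  exact h2.mul (gC_measurable χ)

lemma ZDf_norm {q : ℕ} (χ : DirichletCharacter ℂ q) (n : ℕ) (t : ℝ) (ht : 1 < t) :
    ‖ZDf χ n t‖ = (Real.log t) ^ n * ‖gC χ t‖ := by
  unfold ZDf
  rw [norm_mul, norm_pow, Complex.norm_real, Real.norm_of_nonneg (Real.log_nonneg ht.le)]

lemma ZDf_bound {q : ℕ} (χ : DirichletCharacter ℂ q) (n : ℕ) (σ : ℝ) (hσ : 1 < σ) :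
    ∃ C : ℝ, ∀ t : ℝ, 1 < t → ‖ZDf χ n t‖ ≤ C * t ^ σ := by
  obtain ⟨C, hC, h⟩ := W1_log_pow n (σ - 1) (by linarith)
  refine ⟨C * 7, fun t ht => ?_⟩
  have ht0 : 0 < t := by linarith
  rw [ZDf_norm χ n t ht]
  calc (Real.log t) ^ n * ‖gC χ t‖ ≤ (C * t ^ (σ - 1)) * (7 * t) := by
        gcongr
        · exact h t ht
        · exact gC_le q χ t ht0.le
    _ = C * 7 * (t ^ (σ - 1) * t) := by ring
    _ = C * 7 * t ^ σ := by
        rw [Real.rpow_sub_one ht0.ne', div_mul_cancel₀ _ ht0.ne']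

lemma ZD_hasDeriv {q : ℕ} (χ : DirichletCharacter ℂ q) (n : ℕ) (s : ℂ) (hs : 1 < s.re) :
    HasDerivAt (MC.MT (ZDf χ n)) (-MC.MT (ZDf χ (n + 1)) s) s := by
  obtain ⟨σ, hσ1, hσ2⟩ := exists_between hs
  obtain ⟨C, hC⟩ := ZDf_bound χ n σ hσ1
  have h := W1_deriv (ZDf χ n) C σ (ZDf_meas χ n) hC s hσ2
  have h2 : (fun t => (Real.log t : ℂ) * ZDf χ n t) = ZDf χ (n + 1) := by
    ext t
    unfold ZDf
    rw [pow_succ]; ring
  rw [h2] at h
  exact h

open scoped Classical in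
lemma ZD_logDeriv {q : ℕ} [NeZero q] (χ : DirichletCharacter ℂ q) (s : ℂ) (hs : 1 < s.re) :
    logDeriv (MC.FF q χ) s = -(s * MC.MT (ZDf χ 0) s) - (if χ = 1 then 1 else 0) := by
  by_cases h : χ = 1
  · rw [if_pos h]
    have h0 := W1_logDeriv χ s hs
    have hs1 : s ≠ 1 := by
      intro h; rw [h] at hs; simp at hs
    have hs2 : s - 1 ≠ 0 := sub_ne_zero.mpr hs1
    have h1 : logDeriv (MC.FF q χ) s = 1 / (s - 1) + logDeriv χ.LFunction s := by
      have hev : MC.FF q χ =ᶠ[nhds s] fun z => (z - 1) * χ.LFunction z := by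
        filter_upwards [isOpen_ne.mem_nhds hs1] with z hz
        rw [h]
        exact MC.FF_one_apply q z hz
      have e1 : logDeriv (MC.FF q χ) s = logDeriv (fun z => (z - 1) * χ.LFunction z) s := by
        rw [logDeriv_apply, logDeriv_apply, hev.deriv_eq, hev.eq_of_nhds]
      rw [e1, logDeriv_mul s hs2
        (DirichletCharacter.LFunction_ne_zero_of_one_le_re χ (.inr hs1) hs.le) (by fun_prop)
        (DirichletCharacter.differentiableAt_LFunction χ s (.inl hs1))]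
      congr 1
      rw [logDeriv_apply]
      have : deriv (fun w : ℂ => w - 1) s = 1 := by
        rw [deriv_sub_const]; simp
      rw [this]
    have h2 : MC.MT (W1f χ 0) s = MC.MT (ZDf χ 0) s + 1 / (s - 1) := by
      obtain ⟨σ, hσ1, hσ2⟩ := exists_between hs
      obtain ⟨C, hC⟩ := ZDf_bound χ 0 σ hσ1
      have i1 := MC.MT_integrable (ZDf χ 0) C σ (ZDf_meas χ 0) hC s hσ2
      have i2 := MC.MT_id_integrable s hs
      rw [← MC.MT_id s hs]
      unfold MC.MT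
      rw [← integral_add i1 i2]
      congr 1
      ext t
      unfold ZDf W1f gC
      rw [if_pos h]
      ring
    rw [h1, h0, h2]
    field_simp
    ring
  · rw [if_neg h, MC.FF_of_ne q χ h, W1_logDeriv χ s hs, sub_zero]
    have : W1f χ 0 = ZDf χ 0 := by
      ext t
      unfold ZDf W1f gC
      rw [if_neg h]
      ring
    rw [this]

lemma ZD_iter {q : ℕ} [NeZero q] (χ : DirichletCharacter ℂ q) (n : ℕ) :
    ∀ s : ℂ, 1 < s.re → iteratedDeriv (n + 1) (logDeriv (MC.FF q χ)) s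
      = -(s * ((-1) ^ (n + 1) * MC.MT (ZDf χ (n + 1)) s)
          + (n + 1) * ((-1) ^ n * MC.MT (ZDf χ n) s)) := by
  classical
  have hopen : IsOpen {z : ℂ | 1 < z.re} := isOpen_lt continuous_const Complex.continuous_re
  induction n with
  | zero =>
    intro s hs
    rw [zero_add, iteratedDeriv_one]
    have h1 : logDeriv (MC.FF q χ) =ᶠ[nhds s] fun z => -(z * MC.MT (ZDf χ 0) z)
        - (if χ = 1 then 1 else 0) := by
      filter_upwards [hopen.mem_nhds hs] with z hz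
      exact ZD_logDeriv χ z hz
    rw [h1.deriv_eq, deriv_sub_const]
    have h2 := ((hasDerivAt_id s).mul (ZD_hasDeriv χ 0 s hs)).neg
    have h3 : deriv (fun z => -(z * MC.MT (ZDf χ 0) z)) s =
        -(1 * MC.MT (ZDf χ 0) s + s * -MC.MT (ZDf χ (0 + 1)) s) := h2.deriv
    rw [h3]
    push_cast
    ring
  | succ n ih =>
    intro s hs
    rw [iteratedDeriv_succ]
    have h1 : iteratedDeriv (n + 1) (logDeriv (MC.FF q χ)) =ᶠ[nhds s]
        fun z => -(z * ((-1) ^ (n + 1) * MC.MT (ZDf χ (n + 1)) z)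
          + (n + 1) * ((-1) ^ n * MC.MT (ZDf χ n) z)) := by
      filter_upwards [hopen.mem_nhds hs] with z hz
      exact ih z hz
    rw [h1.deriv_eq]
    have h2 := (((hasDerivAt_id s).mul ((ZD_hasDeriv χ (n + 1) s hs).const_mul
      ((-1 : ℂ) ^ (n + 1)))).add (((ZD_hasDeriv χ n s hs).const_mul
      ((-1 : ℂ) ^ n)).const_mul ((n : ℂ) + 1))).neg
    have h3 : deriv (fun z => -(z * ((-1) ^ (n + 1) * MC.MT (ZDf χ (n + 1)) z)
          + (n + 1) * ((-1) ^ n * MC.MT (ZDf χ n) z))) s =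
        -(1 * ((-1) ^ (n + 1) * MC.MT (ZDf χ (n + 1)) s) +
          s * ((-1) ^ (n + 1) * -MC.MT (ZDf χ (n + 1 + 1)) s) +
          (n + 1) * ((-1) ^ n * -MC.MT (ZDf χ (n + 1)) s)) := h2.deriv
    rw [h3]
    push_cast
    ring

/-- the weight with a real abscissa -/
noncomputable def Wb (k : ℕ) (b x : ℝ) : ℝ :=
  ((Real.log x) ^ (k + 1) / ((k + 1).factorial : ℝ) + (Real.log x) ^ k / (k.factorial : ℝ))
    * x ^ (-b - 1)

lemma Wb_nonneg (k : ℕ) (b x : ℝ) (hx : 1 ≤ x) : 0 ≤ Wb k b x := by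
  unfold Wb
  have := Real.log_nonneg hx
  positivity

lemma Wb_le_Wt (k : ℕ) (b x : ℝ) (hb : 2 ≤ b) (hx : 1 ≤ x) : Wb k b x ≤ Wt k x := by
  unfold Wb Wt
  rw [div_eq_mul_inv _ (x ^ 3)]
  have := Real.log_nonneg hx
  have h1 : x ^ (-b - 1) ≤ (x ^ 3)⁻¹ := by
    rw [← Real.rpow_natCast, ← Real.rpow_neg (by linarith)]
    exact Real.rpow_le_rpow_of_exponent_le hx (by push_cast; linarith)
  gcongr

lemma ZD_norm_eq {q : ℕ} (χ : DirichletCharacter ℂ q) (n : ℕ) (s : ℂ) (t : ℝ)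
    (ht : t ∈ Ioi (1 : ℝ)) :
    ‖ZDf χ n t * (t : ℂ) ^ (-(s + 1))‖ = (Real.log t) ^ n * ‖gC χ t‖ * t ^ (-s.re - 1) := by
  have ht1 : 1 < t := ht
  have ht0 : 0 < t := by linarith
  rw [norm_mul, ZDf_norm χ n t ht1, Complex.norm_cpow_eq_rpow_re_of_pos ht0]
  have h1 : (-(s + 1)).re = -s.re - 1 := by simp; ring
  rw [h1]

lemma ZD_coeff_bound (q : ℕ) [NeZero q] (χ : DirichletCharacter ℂ q) (s₀ : ℂ)
    (hs : 2 ≤ s₀.re) (k : ℕ) :
    ‖iteratedDeriv (k + 1) (logDeriv (MC.FF q χ)) s₀ / ((k + 1).factorial : ℂ)‖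
      ≤ ‖s₀‖ * ∫ x in Ioi (1 : ℝ), ‖gC χ x‖ * Wb k s₀.re x := by
  have hs1 : 1 < s₀.re := by linarith
  have hn1 : 1 ≤ ‖s₀‖ := by
    have := Complex.re_le_norm s₀
    linarith
  set J : ℕ → ℝ → ℝ := fun n t => (Real.log t) ^ n * ‖gC χ t‖ * t ^ (-s₀.re - 1) with hJ
  have hint : ∀ n, IntegrableOn (J n) (Ioi 1) := by
    intro n
    obtain ⟨C, hC⟩ := ZDf_bound χ n (3 / 2) (by norm_num)
    have h1 := (MC.MT_integrable (ZDf χ n) C (3 / 2) (ZDf_meas χ n) hC s₀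
      (by linarith)).norm
    refine h1.congr ?_
    refine (ae_restrict_iff' measurableSet_Ioi).mpr (ae_of_all _ fun t ht => ?_)
    exact ZD_norm_eq χ n s₀ t ht
  have hnorm : ∀ n, ‖MC.MT (ZDf χ n) s₀‖ ≤ ∫ x in Ioi (1 : ℝ), J n x := by
    intro n
    unfold MC.MT
    refine (norm_integral_le_integral_norm _).trans (le_of_eq ?_)
    exact setIntegral_congr_fun measurableSet_Ioi fun t ht => ZD_norm_eq χ n s₀ t ht
  have hfac : (0 : ℝ) < (k + 1).factorial := by exact_mod_cast (k + 1).factorial_pos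
  have hfac' : (0 : ℝ) < k.factorial := by exact_mod_cast k.factorial_pos
  have hfs : ((k + 1).factorial : ℝ) = (k + 1) * k.factorial := by
    rw [Nat.factorial_succ]; push_cast; ring
  have hI : ∫ x in Ioi (1 : ℝ), ‖gC χ x‖ * Wb k s₀.re x
      = (∫ x in Ioi (1 : ℝ), J (k + 1) x) / (k + 1).factorial
        + (∫ x in Ioi (1 : ℝ), J k x) / k.factorial := by
    rw [← integral_div, ← integral_div, ← integral_add ((hint (k + 1)).div_const _)
      ((hint k).div_const _)]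
    refine setIntegral_congr_fun measurableSet_Ioi fun t ht => ?_
    simp only [hJ, Wb]
    ring
  have hJ0 : ∀ n, 0 ≤ ∫ x in Ioi (1 : ℝ), J n x := fun n =>
    setIntegral_nonneg measurableSet_Ioi fun t ht => by
      have h1 : (1 : ℝ) < t := ht
      have := Real.log_nonneg h1.le
      simp only [hJ]
      positivity
  rw [ZD_iter χ k s₀ hs1, norm_div, norm_neg, Complex.norm_natCast, hI, div_le_iff₀ hfac]
  have h1 : ‖s₀ * ((-1) ^ (k + 1) * MC.MT (ZDf χ (k + 1)) s₀)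
      + ((k : ℂ) + 1) * ((-1) ^ k * MC.MT (ZDf χ k) s₀)‖
      ≤ ‖s₀‖ * (∫ x in Ioi (1 : ℝ), J (k + 1) x) + (k + 1) * ∫ x in Ioi (1 : ℝ), J k x := by
    refine (norm_add_le _ _).trans (add_le_add ?_ ?_)
    · rw [norm_mul, norm_mul, norm_pow, norm_neg, norm_one, one_pow, one_mul]
      exact mul_le_mul le_rfl (hnorm _) (norm_nonneg _) (by positivity)
    · rw [norm_mul, norm_mul, norm_pow, norm_neg, norm_one, one_pow, one_mul]
      have h2 : ‖(k : ℂ) + 1‖ = (k : ℝ) + 1 := by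
        rw [show (k : ℂ) + 1 = ((k + 1 : ℕ) : ℂ) by push_cast; ring, Complex.norm_natCast]
        push_cast; ring
      rw [h2]
      exact mul_le_mul_of_nonneg_left (hnorm _) (by positivity)
  refine h1.trans ?_
  have h3 : ‖s₀‖ * ((∫ x in Ioi (1 : ℝ), J (k + 1) x) / (k + 1).factorial
        + (∫ x in Ioi (1 : ℝ), J k x) / k.factorial) * (k + 1).factorial
      = ‖s₀‖ * (∫ x in Ioi (1 : ℝ), J (k + 1) x)
        + ‖s₀‖ * ((k + 1) * ∫ x in Ioi (1 : ℝ), J k x) := by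
    rw [hfs]
    field_simp
  rw [h3]
  have h4 : 0 ≤ ((k : ℝ) + 1) * ∫ x in Ioi (1 : ℝ), J k x := mul_nonneg (by positivity) (hJ0 k)
  nlinarith

end Pool.Agent.EM
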