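import Mathlib
import Pool.Agent.Lib.MP_9cfc0a_nt.Mg.G076

set_option autoImplicit false

namespace Pool.Agent.MC.C2

open Pool.Agent.MC Pool.Agent.MC.C1 MeasureTheory Real Complex

-- THIS FILE USES THE SKELETON LEMMA H1 plancherel_real (copied here with sorry, delete it when merging).
/-- the kernel -/
noncomputable def H4_K (δ t : ℝ) : ℂ := ∫ u in (-δ)..0, Complex.exp (-((t : ℂ) * u * I))

lemma H4_K_lower (δ t : ℝ) (hδ : 0 < δ) (ht : |t| * δ ≤ 1) : 5 / 6 * δ ≤ ‖H4_K δ t‖ := by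
  have hc : Continuous (fun u : ℝ => Complex.exp (-((t : ℂ) * u * I))) := by fun_prop
  have h1 : (H4_K δ t).re = ∫ u in (-δ)..0, Real.cos (t * u) := by
    have h2 : (H4_K δ t).re = ∫ u in (-δ)..0, (Complex.exp (-((t : ℂ) * u * I))).re := by
      unfold H4_K
      have h3 := (Complex.reCLM).intervalIntegral_comp_comm (μ := volume) (a := -δ) (b := 0)
        (f := fun u : ℝ => Complex.exp (-((t : ℂ) * u * I))) (hc.intervalIntegrable _ _)
      simpa using h3.symm
    rw [h2]
    refine intervalIntegral.integral_congr fun u _ => ?_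
    have h3 : -((t : ℂ) * u * I) = ((-(t * u) : ℝ) : ℂ) * I := by push_cast; ring
    simp only [h3, Complex.exp_ofReal_mul_I_re, Real.cos_neg]
  have h4 : ∫ u in (-δ)..0, (1 - (t * u) ^ 2 / 2) ≤ ∫ u in (-δ)..0, Real.cos (t * u) := by
    refine intervalIntegral.integral_mono_on (by linarith) ?_ ?_ ?_
    · exact (by fun_prop : Continuous fun u : ℝ => (1 - (t * u) ^ 2 / 2)).intervalIntegrable _ _
    · exact (by fun_prop : Continuous fun u : ℝ => Real.cos (t * u)).intervalIntegrable _ _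
    · intro u _
      exact Real.one_sub_sq_div_two_le_cos
  have h5 : ∫ u in (-δ)..0, (1 - (t * u) ^ 2 / 2) = δ - t ^ 2 * δ ^ 3 / 6 := by
    have h6 : ∀ u : ℝ, (1 - (t * u) ^ 2 / 2) = 1 - t ^ 2 / 2 * u ^ 2 := by intro u; ring
    simp only [h6]
    rw [intervalIntegral.integral_sub (by simp) ((by fun_prop : Continuous fun u : ℝ =>
      t ^ 2 / 2 * u ^ 2).intervalIntegrable _ _)]
    rw [intervalIntegral.integral_const_mul, integral_pow]
    simp
    ring
  have h7 : t ^ 2 * δ ^ 2 ≤ 1 := by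
    have h8 : (|t| * δ) ^ 2 ≤ 1 := by
      have : 0 ≤ |t| * δ := by positivity
      nlinarith
    rw [mul_pow, sq_abs] at h8
    exact h8
  have h9 : 5 / 6 * δ ≤ (H4_K δ t).re := by
    rw [h1]
    refine le_trans ?_ h4
    rw [h5]
    nlinarith [mul_le_mul_of_nonneg_right h7 hδ.le]
  exact h9.trans (Complex.re_le_norm _)

/-- Gallagher's lemma -/
lemma gallagher_cont (N : ℕ) (c : ℕ → ℂ) (T : ℝ) (hT : 1 ≤ T) :
    ∫ t in (-T)..T, ‖∑ n ∈ Finset.Icc 1 N, c n * (n : ℂ) ^ (-((t : ℂ) * I))‖ ^ 2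
      ≤ 20 * T ^ 2 * ∫ u : ℝ, ‖∑ n ∈ (Finset.Icc 1 N).filter
        (fun n : ℕ => Real.exp u < (n : ℝ) ∧ (n : ℝ) ≤ Real.exp (u + 1 / T)), c n‖ ^ 2 := by
  have hT0 : 0 < T := by linarith
  have hδ : 0 < 1 / T := by positivity
  set δ : ℝ := 1 / T with hδd
  set S : ℝ → ℂ := fun t => ∑ n ∈ Finset.Icc 1 N, c n * (n : ℂ) ^ (-((t : ℂ) * I)) with hS
  set g : ℝ → ℂ := fun u => ∑ n ∈ (Finset.Icc 1 N).filter
        (fun n : ℕ => Real.exp u < (n : ℝ) ∧ (n : ℝ) ≤ Real.exp (u + δ)), c n with hg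
  -- g as a sum of indicators
  have hg1 : ∀ u, g u = ∑ n ∈ Finset.Icc 1 N,
      (Set.Ico (Real.log n - δ) (Real.log n)).indicator (fun _ => c n) u := by
    intro u
    simp only [hg]
    rw [Finset.sum_filter]
    refine Finset.sum_congr rfl fun n hn => ?_
    have hn0 : (0 : ℝ) < n := by
      have := (Finset.mem_Icc.mp hn).1
      exact_mod_cast this
    have h1 : (Real.exp u < (n : ℝ) ∧ (n : ℝ) ≤ Real.exp (u + δ))
        ↔ u ∈ Set.Ico (Real.log n - δ) (Real.log n) := by
      rw [Set.mem_Ico, Real.lt_log_iff_exp_lt hn0]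
      constructor
      · rintro ⟨h2, h3⟩
        refine ⟨?_, h2⟩
        have := (Real.log_le_iff_le_exp hn0).mpr h3
        linarith
      · rintro ⟨h2, h3⟩
        refine ⟨h3, ?_⟩
        rw [← Real.log_le_iff_le_exp hn0]
        linarith
    by_cases h2 : u ∈ Set.Ico (Real.log n - δ) (Real.log n)
    · rw [Set.indicator_of_mem h2, if_pos (h1.mpr h2)]
    · rw [Set.indicator_of_notMem h2, if_neg (fun h3 => h2 (h1.mp h3))]
  have hgi : ∀ n : ℕ, Integrable ((Set.Ico (Real.log n - δ) (Real.log n)).indicator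
      (fun _ => c n)) := by
    intro n
    refine IntegrableOn.integrable_indicator ?_ measurableSet_Ico
    exact integrableOn_const (by simp) (by simp)
  have hgf : g = fun u => ∑ n ∈ Finset.Icc 1 N,
      (Set.Ico (Real.log n - δ) (Real.log n)).indicator (fun _ => c n) u := funext hg1
  have hgint : Integrable g := by
    rw [hgf]
    exact integrable_finsetSum _ fun n _ => hgi n
  have hgM : ∀ u, ‖g u‖ ≤ ∑ n ∈ Finset.Icc 1 N, ‖c n‖ := by
    intro u
    simp only [hg]
    refine (norm_sum_le _ _).trans ?_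
    exact Finset.sum_le_sum_of_subset_of_nonneg (Finset.filter_subset _ _) fun _ _ _ => norm_nonneg _
  have hg2 : Integrable (fun u => ‖g u‖ ^ 2) := by
    refine (hgint.norm.const_mul (∑ n ∈ Finset.Icc 1 N, ‖c n‖)).mono'
      ((hgint.aestronglyMeasurable.norm.pow 2)) (Filter.Eventually.of_forall fun u => ?_)
    rw [Real.norm_of_nonneg (by positivity), pow_two]
    exact mul_le_mul_of_nonneg_right (hgM u) (norm_nonneg _)
  obtain ⟨hP1, hP2⟩ := plancherel_real g hgint hg2
  -- the transform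
  have htr : ∀ t : ℝ, ∫ u : ℝ, g u * Complex.exp (-((t : ℂ) * u * I)) = S t * H4_K δ t := by
    intro t
    have h1 : ∀ u : ℝ, g u * Complex.exp (-((t : ℂ) * u * I)) = ∑ n ∈ Finset.Icc 1 N,
        (Set.Ico (Real.log n - δ) (Real.log n)).indicator
          (fun v : ℝ => c n * Complex.exp (-((t : ℂ) * v * I))) u := by
      intro u
      rw [hg1, Finset.sum_mul]
      refine Finset.sum_congr rfl fun n _ => ?_
      by_cases h2 : u ∈ Set.Ico (Real.log n - δ) (Real.log n)
      · rw [Set.indicator_of_mem h2, Set.indicator_of_mem h2]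
      · rw [Set.indicator_of_notMem h2, Set.indicator_of_notMem h2, zero_mul]
    simp only [h1]
    have hc : ∀ n : ℕ, Continuous (fun v : ℝ => c n * Complex.exp (-((t : ℂ) * v * I))) := by
      intro n; fun_prop
    rw [integral_finsetSum]
    · rw [hS]
      simp only
      rw [Finset.sum_mul]
      refine Finset.sum_congr rfl fun n hn => ?_
      have hn0 : (0 : ℝ) < n := by
        have := (Finset.mem_Icc.mp hn).1
        exact_mod_cast this
      rw [integral_indicator measurableSet_Ico, integral_Ico_eq_integral_Ioc,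
        ← intervalIntegral.integral_of_le (by linarith)]
      have h3 : ∫ v in (Real.log n - δ)..(Real.log n), c n * Complex.exp (-((t : ℂ) * v * I))
          = ∫ v in (-δ)..0, c n * Complex.exp (-((t : ℂ) * ((v + Real.log n : ℝ) : ℂ) * I)) := by
        rw [intervalIntegral.integral_comp_add_right
          (f := fun v : ℝ => c n * Complex.exp (-((t : ℂ) * (v : ℂ) * I)))]
        congr 1 <;> ring
      rw [h3]
      have h4 : ∀ v : ℝ, c n * Complex.exp (-((t : ℂ) * ((v + Real.log n : ℝ) : ℂ) * I))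
          = (c n * (n : ℂ) ^ (-((t : ℂ) * I))) * Complex.exp (-((t : ℂ) * v * I)) := by
        intro v
        have hn1 : (n : ℂ) ≠ 0 := by
          have : (n : ℝ) ≠ 0 := hn0.ne'
          exact_mod_cast this
        have h5 : Complex.log (n : ℂ) = ((Real.log n : ℝ) : ℂ) := by
          simp [Complex.natCast_log]
        have h6 : -((t : ℂ) * ((v + Real.log n : ℝ) : ℂ) * I)
            = Complex.log (n : ℂ) * (-((t : ℂ) * I)) + (-((t : ℂ) * v * I)) := by
          rw [h5]
          push_cast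
          ring
        rw [Complex.cpow_def_of_ne_zero hn1, h6, Complex.exp_add]
        ring
      simp only [h4]
      rw [intervalIntegral.integral_const_mul]
      rfl
    · intro n _
      refine IntegrableOn.integrable_indicator ?_ measurableSet_Ico
      exact ((hc n).integrableOn_Icc).mono_set Set.Ico_subset_Icc_self
  simp only [htr] at hP1 hP2
  have hSc : Continuous S := by
    rw [hS]
    refine continuous_finsetSum _ fun n hn => ?_
    have hn1 : (n : ℂ) ≠ 0 := by
      have := (Finset.mem_Icc.mp hn).1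
      have h2 : n ≠ 0 := by omega
      exact_mod_cast h2
    refine continuous_const.mul ?_
    have h3 : (fun t : ℝ => (n : ℂ) ^ (-((t : ℂ) * I)))
        = fun t : ℝ => Complex.exp (Complex.log n * (-((t : ℂ) * I))) := by
      funext t; rw [Complex.cpow_def_of_ne_zero hn1]
    rw [h3]
    fun_prop
  have h10 : ∫ t in (-T)..T, ‖S t‖ ^ 2
      ≤ ∫ t in (-T)..T, 36 / 25 * T ^ 2 * ‖S t * H4_K δ t‖ ^ 2 := by
    refine intervalIntegral.integral_mono_on (by linarith)
      ((hSc.norm.pow 2).intervalIntegrable _ _)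
      (((hP1.const_mul (36 / 25 * T ^ 2))).intervalIntegrable) fun t ht => ?_
    have h11 : |t| * δ ≤ 1 := by
      have h12 : |t| ≤ T := abs_le.mpr ht
      rw [hδd, mul_one_div, div_le_one hT0]
      exact h12
    have h13 := H4_K_lower δ t hδ h11
    rw [norm_mul, mul_pow]
    have h14 : (5 / 6 * δ) ^ 2 ≤ ‖H4_K δ t‖ ^ 2 := by
      gcongr
    have h15 : 36 / 25 * T ^ 2 * (5 / 6 * δ) ^ 2 = 1 := by
      rw [hδd]; field_simp; norm_num
    calc ‖S t‖ ^ 2 = ‖S t‖ ^ 2 * (36 / 25 * T ^ 2 * (5 / 6 * δ) ^ 2) := by rw [h15, mul_one]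
      _ ≤ ‖S t‖ ^ 2 * (36 / 25 * T ^ 2 * ‖H4_K δ t‖ ^ 2) := by gcongr
      _ = 36 / 25 * T ^ 2 * (‖S t‖ ^ 2 * ‖H4_K δ t‖ ^ 2) := by ring
  refine h10.trans ?_
  rw [intervalIntegral.integral_const_mul]
  have h16 : ∫ t in (-T)..T, ‖S t * H4_K δ t‖ ^ 2 ≤ ∫ t, ‖S t * H4_K δ t‖ ^ 2 := by
    rw [intervalIntegral.integral_of_le (by linarith)]
    exact setIntegral_le_integral hP1 (Filter.Eventually.of_forall fun t => by positivity)
  calc 36 / 25 * T ^ 2 * ∫ t in (-T)..T, ‖S t * H4_K δ t‖ ^ 2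
      ≤ 36 / 25 * T ^ 2 * ∫ t, ‖S t * H4_K δ t‖ ^ 2 := by gcongr
    _ = 36 / 25 * T ^ 2 * ((2 * π) * ∫ u : ℝ, ‖g u‖ ^ 2) := by rw [hP2]
    _ = (72 / 25 * π) * (T ^ 2 * ∫ u : ℝ, ‖g u‖ ^ 2) := by ring
    _ ≤ 20 * (T ^ 2 * ∫ u : ℝ, ‖g u‖ ^ 2) := by
        have h17 : 72 / 25 * π ≤ 20 := by
          have := Real.pi_lt_d2
          linarith
        have h18 : 0 ≤ T ^ 2 * ∫ u : ℝ, ‖g u‖ ^ 2 := by
          have : 0 ≤ ∫ u : ℝ, ‖g u‖ ^ 2 := integral_nonneg fun u => by positivity
          positivity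
        exact mul_le_mul_of_nonneg_right h17 h18
    _ = 20 * T ^ 2 * ∫ u : ℝ, ‖g u‖ ^ 2 := by ring

end Pool.Agent.MC.C2
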