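import Mathlib
import Pool.Agent.Lib.MP_9cfc0a_nt.C1A

set_option autoImplicit false

namespace Pool.Agent.MC.C2

open Pool.Agent.MC Pool.Agent.MC.C1 MeasureTheory Real Complex

lemma H5_mod_iff (r e : ℕ) [NeZero r] (hd : e ∣ r) (n : ℕ) (a : ZMod r) :
    n % e = a.val % e ↔ (n : ZMod e) = ZMod.castHom hd (ZMod e) a := by
  have h1 : ZMod.castHom hd (ZMod e) a = ((a.val : ℕ) : ZMod e) := by
    conv_lhs => rw [← ZMod.natCast_zmod_val a]
    rw [map_natCast]
  rw [h1, ZMod.natCast_eq_natCast_iff]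
  rfl

lemma H5_zero (r e : ℕ) [NeZero r] (hd : e ∣ r) (he : e < r) (χ : DirichletCharacter ℂ r)
    (hχ : χ.IsPrimitive) (u : ℕ → ℂ) (v H : ℕ) :
    ∑ a : ZMod r, χ a * Zc u v H e a.val = 0 := by
  have h1 : ¬ χ.FactorsThrough e := by
    intro h2
    have h3 : e ∈ DirichletCharacter.conductorSet χ := h2
    have h4 : χ.conductor ≤ e := Nat.sInf_le h3
    have h5 : χ.conductor = r := hχ
    omega
  rw [DirichletCharacter.factorsThrough_iff_ker_unitsMap hd] at h1
  obtain ⟨b, hb1, hb2⟩ := SetLike.not_le_iff_exists.mp h1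
  have hb3 : ZMod.castHom hd (ZMod e) (b : ZMod r) = 1 := by
    have h2 : ZMod.unitsMap hd b = 1 := hb1
    have h3 : ((ZMod.unitsMap hd b : (ZMod e)ˣ) : ZMod e) = 1 := by rw [h2]; rfl
    rw [← h3]
    rfl
  have hb4 : χ (b : ZMod r) ≠ 1 := by
    intro h2
    apply hb2
    rw [MonoidHom.mem_ker]
    ext
    rw [MulChar.coe_toUnitHom, h2]
    rfl
  have h6 : ∀ a : ZMod r, Zc u v H e ((b : ZMod r) * a).val = Zc u v H e a.val := by
    intro a
    unfold Zc
    refine Finset.sum_congr rfl fun n _ => ?_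
    have h7 : (n % e = ((b : ZMod r) * a).val % e) ↔ (n % e = a.val % e) := by
      rw [H5_mod_iff r e hd, H5_mod_iff r e hd, map_mul, hb3, one_mul]
    simp only [h7]
  set A : ℂ := ∑ a : ZMod r, χ a * Zc u v H e a.val with hA
  have h8 : A = χ (b : ZMod r) * A := by
    have h9 : A = ∑ a : ZMod r, χ ((b : ZMod r) * a) * Zc u v H e ((b : ZMod r) * a).val := by
      rw [hA]
      exact (Fintype.sum_bijective (fun a : ZMod r => (b : ZMod r) * a)
        (Units.mulLeft_bijective b) _ _ (fun a => rfl)).symm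
    calc A = ∑ a : ZMod r, χ ((b : ZMod r) * a) * Zc u v H e ((b : ZMod r) * a).val := h9
      _ = ∑ a : ZMod r, χ (b : ZMod r) * (χ a * Zc u v H e a.val) := by
          refine Finset.sum_congr rfl fun a _ => ?_
          rw [h6, map_mul]
          ring
      _ = χ (b : ZMod r) * A := by rw [hA, Finset.mul_sum]
  have h10 : (1 - χ (b : ZMod r)) * A = 0 := by
    rw [sub_mul, one_mul, ← h8, sub_self]
  rcases mul_eq_zero.mp h10 with h11 | h11
  · exact absurd (sub_eq_zero.mp h11).symm hb4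
  · exact h11

lemma H5_full (r : ℕ) [NeZero r] (χ : DirichletCharacter ℂ r) (u : ℕ → ℂ) (v H : ℕ) :
    ∑ a : ZMod r, χ a * Zc u v H r a.val = ∑ n ∈ Finset.Ioc v (v + H), u n * χ n := by
  unfold Zc
  simp only [Finset.mul_sum]
  rw [Finset.sum_comm]
  refine Finset.sum_congr rfl fun n _ => ?_
  have h1 : ∀ a : ZMod r, χ a * (if n % r = a.val % r then u n else 0)
      = if (n : ZMod r) = a then u n * χ n else 0 := by
    intro a
    have h2 : (n % r = a.val % r) ↔ (n : ZMod r) = a := by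
      rw [H5_mod_iff r r dvd_rfl]
      simp
    by_cases h3 : (n : ZMod r) = a
    · rw [if_pos (h2.mpr h3), if_pos h3, h3, mul_comm]
    · rw [if_neg (fun h4 => h3 (h2.mp h4)), if_neg h3, mul_zero]
  simp only [h1]
  rw [Finset.sum_ite_eq]
  simp

lemma H5_newQ (r : ℕ) [NeZero r] (χ : DirichletCharacter ℂ r) (hχ : χ.IsPrimitive)
    (u : ℕ → ℂ) (v H : ℕ) :
    ∑ a : ZMod r, χ a * newQ u v H r a.val = (r : ℂ) * ∑ n ∈ Finset.Ioc v (v + H), u n * χ n := by
  have hr : r ≠ 0 := NeZero.ne r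
  unfold newQ
  simp only [Finset.mul_sum]
  rw [Finset.sum_comm]
  have h1 : ∀ x ∈ r.divisorsAntidiagonal, x ≠ (1, r) →
      ∑ a : ZMod r, χ a * ((ArithmeticFunction.moebius x.1 : ℂ) * ((x.2 : ℂ) * Zc u v H x.2 a.val))
      = 0 := by
    intro x hx hne
    rw [Nat.mem_divisorsAntidiagonal] at hx
    have hd : x.2 ∣ r := Dvd.intro_left _ hx.1
    have he : x.2 < r := by
      have h2 := Nat.le_of_dvd (Nat.pos_of_ne_zero hr) hd
      rcases Nat.lt_or_ge x.2 r with h3 | h3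
      · exact h3
      · exfalso
        have h4 : x.2 = r := le_antisymm h2 h3
        apply hne
        have h5 : x.1 = 1 := by
          have h6 := hx.1
          rw [h4] at h6
          exact Nat.eq_of_mul_eq_mul_right (Nat.pos_of_ne_zero hr) (by rw [h6, one_mul])
        exact Prod.ext h5 h4
    have h3 := H5_zero r x.2 hd he χ hχ u v H
    have h4 : ∀ a : ZMod r,
        χ a * ((ArithmeticFunction.moebius x.1 : ℂ) * ((x.2 : ℂ) * Zc u v H x.2 a.val))
        = ((ArithmeticFunction.moebius x.1 : ℂ) * (x.2 : ℂ)) * (χ a * Zc u v H x.2 a.val) := by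
      intro a; ring
    simp only [h4]
    rw [← Finset.mul_sum, h3, mul_zero]
  rw [Finset.sum_eq_single_of_mem (1, r) (by simp [hr]) h1]
  have h5 : ∀ a : ZMod r,
      χ a * ((ArithmeticFunction.moebius 1 : ℂ) * ((r : ℂ) * Zc u v H r a.val))
      = (r : ℂ) * (χ a * Zc u v H r a.val) := by
    intro a
    simp only [ArithmeticFunction.moebius_apply_one, Int.cast_one]
    ring
  simp only [h5]
  rw [← Finset.mul_sum, H5_full, Finset.mul_sum]

lemma H5_one (r : ℕ) [NeZero r] (u : ℕ → ℂ) (v H : ℕ) :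
    pSum r (fun χ => ‖∑ n ∈ Finset.Ioc v (v + H), u n * χ n‖ ^ 2)
      ≤ (1 / (r : ℝ)) * ∑ c ∈ Finset.range r, ‖newQ u v H r c‖ ^ 2 := by
  classical
  have hr : r ≠ 0 := NeZero.ne r
  have hr0 : (0 : ℝ) < r := by exact_mod_cast Nat.pos_of_ne_zero hr
  rw [P4_pSum]
  have h1 : ∀ χ ∈ Finset.univ.filter (fun χ : DirichletCharacter ℂ r => χ.IsPrimitive),
      ‖∑ n ∈ Finset.Ioc v (v + H), u n * χ n‖ ^ 2
      = (1 / (r : ℝ) ^ 2) * ‖∑ a : ZMod r, χ a * newQ u v H r a.val‖ ^ 2 := by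
    intro χ hχ
    rw [Finset.mem_filter] at hχ
    rw [H5_newQ r χ hχ.2, norm_mul, mul_pow, Complex.norm_natCast]
    field_simp
  rw [Finset.sum_congr rfl h1, ← Finset.mul_sum]
  have h2 : ∑ χ ∈ Finset.univ.filter (fun χ : DirichletCharacter ℂ r => χ.IsPrimitive),
      ‖∑ a : ZMod r, χ a * newQ u v H r a.val‖ ^ 2
      ≤ ∑ χ : DirichletCharacter ℂ r, ‖∑ a : ZMod r, χ a * newQ u v H r a.val‖ ^ 2 :=
    Finset.sum_le_sum_of_subset_of_nonneg (Finset.filter_subset _ _) fun _ _ _ => by positivity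
  rw [plancherel r (fun a => newQ u v H r a.val)] at h2
  have h3 : ∑ a ∈ Finset.univ.filter (fun a : ZMod r => IsUnit a), ‖newQ u v H r a.val‖ ^ 2
      ≤ ∑ c ∈ Finset.range r, ‖newQ u v H r c‖ ^ 2 := by
    have h4 : ∑ a ∈ Finset.univ.filter (fun a : ZMod r => IsUnit a), ‖newQ u v H r a.val‖ ^ 2
        ≤ ∑ a : ZMod r, ‖newQ u v H r a.val‖ ^ 2 :=
      Finset.sum_le_sum_of_subset_of_nonneg (Finset.filter_subset _ _) fun _ _ _ => by positivity
    refine h4.trans (le_of_eq ?_)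
    refine Finset.sum_bij' (fun a _ => a.val) (fun c _ => (c : ZMod r)) ?_ ?_ ?_ ?_ ?_
    · intro a _; exact Finset.mem_range.mpr (ZMod.val_lt a)
    · intro c _; exact Finset.mem_univ _
    · intro a _; rw [ZMod.natCast_val, ZMod.cast_id]
    · intro c hc
      rw [ZMod.val_natCast]
      exact Nat.mod_eq_of_lt (Finset.mem_range.mp hc)
    · intro a _; rfl
  have h5 : (r.totient : ℝ) ≤ r := by exact_mod_cast Nat.totient_le r
  have h6 : 0 ≤ ∑ a ∈ Finset.univ.filter (fun a : ZMod r => IsUnit a),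
      ‖newQ u v H r a.val‖ ^ 2 := Finset.sum_nonneg fun _ _ => by positivity
  calc (1 / (r : ℝ) ^ 2) * ∑ χ ∈ Finset.univ.filter
        (fun χ : DirichletCharacter ℂ r => χ.IsPrimitive),
        ‖∑ a : ZMod r, χ a * newQ u v H r a.val‖ ^ 2
      ≤ (1 / (r : ℝ) ^ 2) * ((r : ℝ) * ∑ c ∈ Finset.range r, ‖newQ u v H r c‖ ^ 2) := by
        refine mul_le_mul_of_nonneg_left ?_ (by positivity)
        refine h2.trans ?_
        exact mul_le_mul h5 h3 h6 hr0.le
    _ = (1 / (r : ℝ)) * ∑ c ∈ Finset.range r, ‖newQ u v H r c‖ ^ 2 := by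
        field_simp

/-- H5. The large sieve for primitive characters. -/
lemma prim_large_sieve (u : ℕ → ℂ) (v H Q : ℕ) (hQ : 1 ≤ Q) :
    ∑ r ∈ Finset.Icc 1 Q, pSum r (fun χ => ‖∑ n ∈ Finset.Ioc v (v + H), u n * χ n‖ ^ 2)
      ≤ π ^ 2 / 4 * ((Q : ℝ) ^ 2 + 2 * H) * ∑ n ∈ Finset.Ioc v (v + H), ‖u n‖ ^ 2 := by
  refine le_trans (Finset.sum_le_sum fun r hr => ?_) (large_sieve_new u v H Q hQ)
  rw [Finset.mem_Icc] at hr
  have : NeZero r := ⟨by omega⟩
  exact H5_one r u v H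

end Pool.Agent.MC.C2
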