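import Mathlib
import Pool.Agent.Lib.MP_9cfc0a_nt.C2H4
import Pool.Agent.Lib.MP_9cfc0a_nt.C2H5

set_option autoImplicit false

namespace Pool.Agent.MC.C2

open Pool.Agent.MC Pool.Agent.MC.C1 MeasureTheory Real Complex

-- This file uses the skeleton lemmas H4 (gallagher_cont) and H5 (prim_large_sieve).
lemma H6_set (N : ℕ) (T : ℝ) (hT : 1 ≤ T) (u : ℝ) :
    ∃ v H : ℕ, (Finset.Icc 1 N).filter
        (fun n : ℕ => Real.exp u < (n : ℝ) ∧ (n : ℝ) ≤ Real.exp (u + 1 / T)) =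
        Finset.Ioc v (v + H) ∧ (H : ℝ) ≤ Real.exp u * (2 / T) + 1 := by
  refine ⟨⌊Real.exp u⌋₊, min N ⌊Real.exp (u + 1 / T)⌋₊ - ⌊Real.exp u⌋₊, ?_, ?_⟩
  · ext n
    rw [Finset.mem_filter, Finset.mem_Icc, Finset.mem_Ioc, ← Nat.floor_lt (Real.exp_pos u).le,
      ← Nat.le_floor_iff (Real.exp_pos (u + 1 / T)).le]
    omega
  · have h1 : ((min N ⌊Real.exp (u + 1 / T)⌋₊ - ⌊Real.exp u⌋₊ : ℕ) : ℝ)
        ≤ max 0 (((min N ⌊Real.exp (u + 1 / T)⌋₊ : ℕ) : ℝ) - (⌊Real.exp u⌋₊ : ℝ)) := by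
      rcases le_total ⌊Real.exp u⌋₊ (min N ⌊Real.exp (u + 1 / T)⌋₊) with h | h
      · rw [Nat.cast_sub h]
        exact le_max_right _ _
      · rw [Nat.sub_eq_zero_of_le h, Nat.cast_zero]
        exact le_max_left _ _
    refine h1.trans (max_le (by positivity) ?_)
    have h2 : ((min N ⌊Real.exp (u + 1 / T)⌋₊ : ℕ) : ℝ) ≤ Real.exp (u + 1 / T) :=
      (Nat.cast_le.mpr (min_le_right _ _)).trans (Nat.floor_le (Real.exp_pos _).le)
    have h3 : Real.exp u < (⌊Real.exp u⌋₊ : ℝ) + 1 := Nat.lt_floor_add_one _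
    have h4 : Real.exp (1 / T) ≤ 1 + 2 / T := by
      have h5 : |1 / T| ≤ 1 := by
        rw [abs_of_nonneg (by positivity), div_le_one (by linarith)]
        exact hT
      have h6 := Real.abs_exp_sub_one_sub_id_le h5
      have h7 := (abs_le.mp h6).2
      have h8 : (1 / T) ^ 2 ≤ 1 / T := by
        rw [abs_of_nonneg (by positivity)] at h5
        have : 0 ≤ 1 / T := by positivity
        nlinarith
      have h9 : 2 / T = 1 / T + 1 / T := by ring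
      linarith
    have h5 := mul_le_mul_of_nonneg_left h4 (Real.exp_pos u).le
    have h6 : Real.exp (u + 1 / T) = Real.exp u * Real.exp (1 / T) := Real.exp_add _ _
    rw [h6] at h2 ⊢
    have h7 : Real.exp u * (1 + 2 / T) = Real.exp u + Real.exp u * (2 / T) := by ring
    linarith

lemma H6_ind (N : ℕ) (c : ℕ → ℂ) (T : ℝ) (hT : 1 ≤ T) (u : ℝ) :
    ∑ n ∈ (Finset.Icc 1 N).filter
        (fun n : ℕ => Real.exp u < (n : ℝ) ∧ (n : ℝ) ≤ Real.exp (u + 1 / T)), c n =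
    ∑ n ∈ Finset.Icc 1 N, (Set.Ico (Real.log n - 1 / T) (Real.log n)).indicator (fun _ => c n) u := by
  rw [Finset.sum_filter]
  refine Finset.sum_congr rfl fun n hn => ?_
  rw [Finset.mem_Icc] at hn
  have hn0 : (0 : ℝ) < n := by exact_mod_cast hn.1
  rw [Set.indicator_apply]
  have h1 : (Real.exp u < (n : ℝ) ∧ (n : ℝ) ≤ Real.exp (u + 1 / T)) ↔
      u ∈ Set.Ico (Real.log n - 1 / T) (Real.log n) := by
    rw [Set.mem_Ico, Real.lt_log_iff_exp_lt hn0, ← Real.log_le_iff_le_exp hn0]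
    constructor
    · rintro ⟨h1, h2⟩
      exact ⟨by linarith, h1⟩
    · rintro ⟨h1, h2⟩
      exact ⟨h2, by linarith⟩
  simp only [h1]

lemma H6_indR (N : ℕ) (c : ℕ → ℝ) (T : ℝ) (hT : 1 ≤ T) (u : ℝ) :
    ∑ n ∈ (Finset.Icc 1 N).filter
        (fun n : ℕ => Real.exp u < (n : ℝ) ∧ (n : ℝ) ≤ Real.exp (u + 1 / T)), c n =
    ∑ n ∈ Finset.Icc 1 N, (Set.Ico (Real.log n - 1 / T) (Real.log n)).indicator (fun _ => c n) u := by
  rw [Finset.sum_filter]
  refine Finset.sum_congr rfl fun n hn => ?_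
  rw [Finset.mem_Icc] at hn
  have hn0 : (0 : ℝ) < n := by exact_mod_cast hn.1
  rw [Set.indicator_apply]
  have h1 : (Real.exp u < (n : ℝ) ∧ (n : ℝ) ≤ Real.exp (u + 1 / T)) ↔
      u ∈ Set.Ico (Real.log n - 1 / T) (Real.log n) := by
    rw [Set.mem_Ico, Real.lt_log_iff_exp_lt hn0, ← Real.log_le_iff_le_exp hn0]
    constructor
    · rintro ⟨h1, h2⟩
      exact ⟨by linarith, h1⟩
    · rintro ⟨h1, h2⟩
      exact ⟨h2, by linarith⟩
  simp only [h1]

lemma H6_indint {E : Type*} [NormedAddCommGroup E] (a b : ℝ) (c : E) :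
    Integrable (fun u : ℝ => (Set.Ico a b).indicator (fun _ => c) u) := by
  refine IntegrableOn.integrable_indicator ?_ measurableSet_Ico
  exact integrableOn_const (by simp) (by simp)

lemma H6_sqint (N : ℕ) (c : ℕ → ℂ) (T : ℝ) (hT : 1 ≤ T) :
    Integrable (fun u : ℝ => ‖∑ n ∈ (Finset.Icc 1 N).filter
        (fun n : ℕ => Real.exp u < (n : ℝ) ∧ (n : ℝ) ≤ Real.exp (u + 1 / T)), c n‖ ^ 2) := by
  have hI : Integrable (fun u : ℝ => ∑ n ∈ Finset.Icc 1 N,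
      (Set.Ico (Real.log n - 1 / T) (Real.log n)).indicator (fun _ => c n) u) :=
    integrable_finsetSum _ fun n _ => H6_indint _ _ _
  have hJ : Integrable (fun u : ℝ => (∑ n ∈ Finset.Icc 1 N, ‖c n‖) * ∑ n ∈ Finset.Icc 1 N,
      (Set.Ico (Real.log n - 1 / T) (Real.log n)).indicator (fun _ => ‖c n‖) u) :=
    (integrable_finsetSum _ fun n _ => H6_indint _ _ _).const_mul _
  simp only [H6_ind N c T hT]
  refine hJ.mono' (hI.aestronglyMeasurable.norm.pow 2) (Filter.Eventually.of_forall fun u => ?_)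
  rw [Real.norm_eq_abs, abs_of_nonneg (by positivity), sq]
  have h1 : ‖∑ n ∈ Finset.Icc 1 N,
      (Set.Ico (Real.log n - 1 / T) (Real.log n)).indicator (fun _ => c n) u‖ ≤
      ∑ n ∈ Finset.Icc 1 N,
      (Set.Ico (Real.log n - 1 / T) (Real.log n)).indicator (fun _ => ‖c n‖) u := by
    refine (norm_sum_le _ _).trans (Finset.sum_le_sum fun n _ => ?_)
    rw [Set.indicator_apply, Set.indicator_apply]
    split_ifs
    · exact le_rfl
    · rw [norm_zero]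
  have h2 : ∑ n ∈ Finset.Icc 1 N,
      (Set.Ico (Real.log n - 1 / T) (Real.log n)).indicator (fun _ => ‖c n‖) u ≤
      ∑ n ∈ Finset.Icc 1 N, ‖c n‖ := by
    refine Finset.sum_le_sum fun n _ => ?_
    rw [Set.indicator_apply]
    split_ifs
    · exact le_rfl
    · exact norm_nonneg _
  exact mul_le_mul (h1.trans h2) h1 (norm_nonneg _) (by positivity)

/-- H6. The hybrid large sieve (uses H4, H5). -/
lemma hybrid_large_sieve (N Q : ℕ) (hQ : 1 ≤ Q) (c : ℕ → ℂ) (T : ℝ) (hT : 1 ≤ T) :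
    ∑ r ∈ Finset.Icc 1 Q, pSum r (fun χ =>
        ∫ t in (-T)..T, ‖∑ n ∈ Finset.Icc 1 N, c n * χ n * (n : ℂ) ^ (-((t : ℂ) * I))‖ ^ 2)
      ≤ 1000 * ∑ n ∈ Finset.Icc 1 N, ‖c n‖ ^ 2 * ((Q : ℝ) ^ 2 * T + n) := by
  classical
  have hT0 : 0 < T := by linarith
  have hQ1 : (1 : ℝ) ≤ Q := by exact_mod_cast hQ
  -- pointwise bound
  have hpt : ∀ u : ℝ, ∑ r ∈ Finset.Icc 1 Q, pSum r (fun χ => ‖∑ n ∈ (Finset.Icc 1 N).filter
        (fun n : ℕ => Real.exp u < (n : ℝ) ∧ (n : ℝ) ≤ Real.exp (u + 1 / T)), c n * χ n‖ ^ 2)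
      ≤ ∑ n ∈ Finset.Icc 1 N, (Set.Ico (Real.log n - 1 / T) (Real.log n)).indicator
        (fun _ => 3 * ((Q : ℝ) ^ 2 + 2 + 4 * n / T) * ‖c n‖ ^ 2) u := by
    intro u
    obtain ⟨v, H, hset, hH⟩ := H6_set N T hT u
    have h5 := prim_large_sieve c v H Q hQ
    rw [← H6_indR N (fun n => 3 * ((Q : ℝ) ^ 2 + 2 + 4 * n / T) * ‖c n‖ ^ 2) T hT u]
    have hmem : ∀ n ∈ Finset.Ioc v (v + H), Real.exp u < (n : ℝ) := by
      intro n hn
      rw [← hset, Finset.mem_filter] at hn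
      exact hn.2.1
    rw [hset]
    refine h5.trans ?_
    rw [Finset.mul_sum]
    refine Finset.sum_le_sum fun n hn => ?_
    refine mul_le_mul_of_nonneg_right ?_ (by positivity)
    have hπ : π ^ 2 / 4 ≤ 3 := by
      have := Real.pi_lt_d2
      have := Real.pi_pos
      nlinarith
    refine mul_le_mul hπ ?_ (by positivity) (by norm_num)
    have h6 := hmem n hn
    have h7 : Real.exp u * (2 / T) ≤ n * (2 / T) :=
      mul_le_mul_of_nonneg_right h6.le (by positivity)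
    have h8 : 4 * (n : ℝ) / T = 2 * (n * (2 / T)) := by ring
    rw [h8]
    linarith
  -- the sum of integrals
  have hsum : ∑ r ∈ Finset.Icc 1 Q, pSum r (fun χ => ∫ u : ℝ, ‖∑ n ∈ (Finset.Icc 1 N).filter
        (fun n : ℕ => Real.exp u < (n : ℝ) ∧ (n : ℝ) ≤ Real.exp (u + 1 / T)), c n * χ n‖ ^ 2)
      = ∫ u : ℝ, ∑ r ∈ Finset.Icc 1 Q, pSum r (fun χ => ‖∑ n ∈ (Finset.Icc 1 N).filter
        (fun n : ℕ => Real.exp u < (n : ℝ) ∧ (n : ℝ) ≤ Real.exp (u + 1 / T)), c n * χ n‖ ^ 2) := by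
    simp only [P4_pSum]
    rw [integral_finsetSum]
    · refine Finset.sum_congr rfl fun r _ => ?_
      rw [integral_finsetSum]
      intro χ _
      exact H6_sqint N (fun n => c n * χ n) T hT
    · intro r _
      refine integrable_finsetSum _ fun χ _ => ?_
      exact H6_sqint N (fun n => c n * χ n) T hT
  have hint : Integrable (fun u : ℝ => ∑ r ∈ Finset.Icc 1 Q,
      pSum r (fun χ => ‖∑ n ∈ (Finset.Icc 1 N).filter
        (fun n : ℕ => Real.exp u < (n : ℝ) ∧ (n : ℝ) ≤ Real.exp (u + 1 / T)), c n * χ n‖ ^ 2)) := by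
    simp only [P4_pSum]
    refine integrable_finsetSum _ fun r _ => integrable_finsetSum _ fun χ _ => ?_
    exact H6_sqint N (fun n => c n * χ n) T hT
  have hint2 : Integrable (fun u : ℝ => ∑ n ∈ Finset.Icc 1 N,
      (Set.Ico (Real.log n - 1 / T) (Real.log n)).indicator
        (fun _ => 3 * ((Q : ℝ) ^ 2 + 2 + 4 * n / T) * ‖c n‖ ^ 2) u) :=
    integrable_finsetSum _ fun n _ => H6_indint _ _ _
  have hle := integral_mono hint hint2 hpt
  have hval : ∫ u : ℝ, ∑ n ∈ Finset.Icc 1 N,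
      (Set.Ico (Real.log n - 1 / T) (Real.log n)).indicator
        (fun _ => 3 * ((Q : ℝ) ^ 2 + 2 + 4 * n / T) * ‖c n‖ ^ 2) u =
      ∑ n ∈ Finset.Icc 1 N, 1 / T * (3 * ((Q : ℝ) ^ 2 + 2 + 4 * n / T) * ‖c n‖ ^ 2) := by
    rw [integral_finsetSum _ fun n _ => H6_indint _ _ _]
    refine Finset.sum_congr rfl fun n _ => ?_
    rw [integral_indicator measurableSet_Ico, setIntegral_const, smul_eq_mul, Real.volume_real_Ico,
      max_eq_left (by have : 0 < 1 / T := by positivity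
                      linarith)]
    ring
  have hstep : ∑ r ∈ Finset.Icc 1 Q, pSum r (fun χ =>
        ∫ t in (-T)..T, ‖∑ n ∈ Finset.Icc 1 N, c n * χ n * (n : ℂ) ^ (-((t : ℂ) * I))‖ ^ 2)
      ≤ 20 * T ^ 2 * ∑ r ∈ Finset.Icc 1 Q, pSum r (fun χ => ∫ u : ℝ,
        ‖∑ n ∈ (Finset.Icc 1 N).filter
        (fun n : ℕ => Real.exp u < (n : ℝ) ∧ (n : ℝ) ≤ Real.exp (u + 1 / T)), c n * χ n‖ ^ 2) := by
    simp only [P4_pSum, Finset.mul_sum]
    refine Finset.sum_le_sum fun r _ => Finset.sum_le_sum fun χ _ => ?_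
    exact gallagher_cont N (fun n => c n * χ n) T hT
  refine hstep.trans ?_
  rw [hsum]
  refine (mul_le_mul_of_nonneg_left hle (by positivity)).trans ?_
  rw [hval, Finset.mul_sum, Finset.mul_sum]
  refine Finset.sum_le_sum fun n _ => ?_
  have h1 : 20 * T ^ 2 * (1 / T * (3 * ((Q : ℝ) ^ 2 + 2 + 4 * n / T) * ‖c n‖ ^ 2)) =
      ‖c n‖ ^ 2 * (60 * ((Q : ℝ) ^ 2 * T + 2 * T + 4 * n)) := by
    field_simp
    ring
  have h4 : 1000 * (‖c n‖ ^ 2 * ((Q : ℝ) ^ 2 * T + n)) =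
      ‖c n‖ ^ 2 * (1000 * ((Q : ℝ) ^ 2 * T + n)) := by ring
  rw [h1, h4]
  refine mul_le_mul_of_nonneg_left ?_ (sq_nonneg _)
  have h2 : T ≤ (Q : ℝ) ^ 2 * T := by
    have : (1 : ℝ) ≤ (Q : ℝ) ^ 2 := by nlinarith
    nlinarith
  have h3 : (0 : ℝ) ≤ n := Nat.cast_nonneg n
  nlinarith

end Pool.Agent.MC.C2
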