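import Mathlib
import Pool.Agent.Lib.MP_9cfc0a_nt.Mg.G078

set_option autoImplicit false

namespace Pool.Agent.MC.C2

open Pool.Agent.MC Pool.Agent.MC.C1 MeasureTheory Real Complex

-- This file uses the skeleton lemmas H9a (approx_abel), H9b (ibp_periodic), H9c (gg_bound, gg_smooth).
lemma H9d_sum_bound (r : ℕ) [NeZero r] (χ : DirichletCharacter ℂ r) (hχ : χ ≠ 1) (t : ℝ) :
    ‖SumC (fun n => χ n) t‖ ≤ 2 * r := by
  have h1 := periodic_sum_bound r (fun a => χ a) (fun a => χ.norm_le_one a) ⌊t⌋₊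
  rw [MulChar.sum_eq_zero_of_ne_one hχ, mul_zero, sub_zero] at h1
  exact h1

lemma H9d_per (r : ℕ) [NeZero r] (χ : DirichletCharacter ℂ r) (hχ : χ ≠ 1) (t : ℝ) (ht : 0 ≤ t) :
    SumC (fun n => χ n) (t + r) = SumC (fun n => χ n) t := by
  unfold SumC
  rw [Nat.floor_add_natCast ht]
  have h3 : Finset.Icc 1 (⌊t⌋₊ + r) = Finset.Ico 1 (⌊t⌋₊ + 1 + r) := by
    ext x; simp only [Finset.mem_Icc, Finset.mem_Ico]; omega
  have h4 : Finset.Icc 1 ⌊t⌋₊ = Finset.Ico 1 (⌊t⌋₊ + 1) := by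
    ext x; simp only [Finset.mem_Icc, Finset.mem_Ico]; omega
  rw [h3, h4, ← Finset.sum_Ico_consecutive _ (show 1 ≤ ⌊t⌋₊ + 1 by omega)
    (show ⌊t⌋₊ + 1 ≤ ⌊t⌋₊ + 1 + r by omega)]
  rw [sum_period r (fun a => χ a) (⌊t⌋₊ + 1), MulChar.sum_eq_zero_of_ne_one hχ, add_zero]

/-- H9d. The smooth approximation of the `L`-function (uses H9a, H9b, H9c). -/
lemma smooth_approx (k : ℕ) : ∃ C : ℝ, 0 ≤ C ∧ ∀ r : ℕ, ∀ [NeZero r],
    ∀ χ : DirichletCharacter ℂ r, χ ≠ 1 → ∀ s : ℂ, 1 / 8 ≤ s.re → s.re ≤ 2 → ∀ U : ℝ, 1 ≤ U →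
    ∀ N : ℕ, 2 * U ≤ N →
    ‖χ.LFunction s - ∑ n ∈ Finset.Icc 1 N, χ n * ((vv (n / U) : ℝ) : ℂ) * (n : ℂ) ^ (-s)‖
      ≤ C * ((r : ℝ) * (‖s‖ + 1)) ^ (k + 1) * U ^ (-(k : ℝ)) := by
  obtain ⟨C, hC0, hC⟩ := gg_bound (k + 1)
  refine ⟨2 ^ (k + 1) * C * 8, by positivity, ?_⟩
  intro r _ χ hχ s hs8 hs2 U hU N hN
  have hs0 : 0 < s.re := by linarith
  have hr0 : (0 : ℝ) < r := by exact_mod_cast Nat.pos_of_ne_zero (NeZero.ne r)
  have hU0 : 0 < U := by linarith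
  -- the basic facts
  have hzero : ∀ j : ℕ, ∀ t : ℝ, t ≤ U → iteratedDeriv j (gg s U) t = 0 := by
    intro j t ht
    obtain ⟨C', -, hC'⟩ := gg_bound j
    exact (hC' s hs0 hs2 U hU).1 t ht
  have hcont : ∀ j : ℕ, Continuous (iteratedDeriv j (gg s U)) := by
    intro j
    exact (gg_smooth s U hU j).continuous_iteratedDeriv j le_rfl
  have hlim : ∀ j : ℕ, Filter.Tendsto (iteratedDeriv j (gg s U)) Filter.atTop (nhds 0) := by
    intro j
    obtain ⟨C', hC'0, hC'⟩ := gg_bound j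
    have h1 := (hC' s hs0 hs2 U hU).2
    have h2 : Filter.Tendsto (fun t : ℝ => C' * (‖s‖ + 1) ^ j * t ^ (-(s.re + (j : ℝ))))
        Filter.atTop (nhds 0) := by
      have h3 := (tendsto_rpow_neg_atTop (show 0 < s.re + (j : ℝ) by positivity)).const_mul
        (C' * (‖s‖ + 1) ^ j)
      rwa [mul_zero] at h3
    refine squeeze_zero_norm' ?_ h2
    filter_upwards [Filter.eventually_gt_atTop U] with t ht
    have h3 := h1 t ht
    rwa [show -s.re - (j : ℝ) = -(s.re + (j : ℝ)) by ring] at h3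
  have hint : ∀ j : ℕ, 1 ≤ j → Integrable (iteratedDeriv j (gg s U)) := by
    intro j hj
    obtain ⟨C', hC'0, hC'⟩ := gg_bound j
    have h1 := (hC' s hs0 hs2 U hU).2
    have hj1 : (1 : ℝ) ≤ j := by exact_mod_cast hj
    have h2 : IntegrableOn (iteratedDeriv j (gg s U)) (Set.Ioi U) := by
      have h3 : IntegrableOn (fun t : ℝ => C' * (‖s‖ + 1) ^ j * t ^ (-s.re - (j : ℝ)))
          (Set.Ioi U) :=
        (integrableOn_Ioi_rpow_of_lt (by linarith) hU0).const_mul _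
      refine h3.mono' (hcont j).aestronglyMeasurable.restrict ?_
      filter_upwards [ae_restrict_mem measurableSet_Ioi] with t ht
      exact h1 t ht
    have h3 : IntegrableOn (iteratedDeriv j (gg s U)) (Set.Iic U) := by
      have h4 : IntegrableOn (fun _ : ℝ => (0 : ℂ)) (Set.Iic U) := integrableOn_zero
      refine h4.congr_fun (fun t ht => ?_) measurableSet_Iic
      exact (hzero j t ht).symm
    rw [← integrableOn_univ, ← Set.Iic_union_Ioi (a := U)]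
    exact h3.union h2
  have hibp := ibp_periodic (SumC (fun n => χ n)) r hr0 (2 * r) (SumC_measurable _)
    (H9d_per r χ hχ) (H9d_sum_bound r χ hχ) (gg s U) (gg_smooth s U hU)
    (fun t ht => by
      have := hzero 0 t (ht.trans hU)
      rwa [iteratedDeriv_zero] at this) k (fun j _ => hlim j) (fun j hj _ => hint j hj)
  rw [approx_abel r χ hχ s hs0 U hU N hN, norm_neg]
  refine hibp.trans ?_
  -- the integral
  have h1 := (hC s hs0 hs2 U hU).2
  have hI : ∫ t in Set.Ioi (0 : ℝ), ‖iteratedDeriv (k + 1) (gg s U) t‖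
      ≤ C * (‖s‖ + 1) ^ (k + 1) * (8 * U ^ (-(k : ℝ))) := by
    have h2 : ∫ t in Set.Ioi (0 : ℝ), ‖iteratedDeriv (k + 1) (gg s U) t‖
        = ∫ t in Set.Ioi U, ‖iteratedDeriv (k + 1) (gg s U) t‖ := by
      refine setIntegral_eq_of_subset_of_forall_sdiff_eq_zero measurableSet_Ioi
        (Set.Ioi_subset_Ioi hU0.le) ?_
      intro t ht
      rw [hzero (k + 1) t (not_lt.mp ht.2), norm_zero]
    rw [h2]
    have h3 : ∫ t in Set.Ioi U, ‖iteratedDeriv (k + 1) (gg s U) t‖ ≤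
        ∫ t in Set.Ioi U, C * (‖s‖ + 1) ^ (k + 1) * t ^ (-s.re - ((k + 1 : ℕ) : ℝ)) := by
      refine setIntegral_mono_on ((hint (k + 1) (by omega)).norm.integrableOn) ?_
        measurableSet_Ioi (fun t ht => h1 t ht)
      refine (integrableOn_Ioi_rpow_of_lt ?_ hU0).const_mul _
      push_cast
      have : (0 : ℝ) ≤ k := Nat.cast_nonneg k
      linarith
    refine h3.trans ?_
    rw [integral_const_mul]
    refine mul_le_mul_of_nonneg_left ?_ (by positivity)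
    have hk0 : (0 : ℝ) ≤ k := Nat.cast_nonneg k
    rw [integral_Ioi_rpow_of_lt (by push_cast; linarith) hU0]
    push_cast
    have h4 : -U ^ (-s.re - ((k : ℝ) + 1) + 1) / (-s.re - ((k : ℝ) + 1) + 1)
        = U ^ (-s.re) * U ^ (-(k : ℝ)) / (s.re + k) := by
      rw [← Real.rpow_add hU0, show -s.re - ((k : ℝ) + 1) + 1 = -(s.re + k) by ring,
        neg_div_neg_eq, show -s.re + -(k : ℝ) = -(s.re + k) by ring]
    rw [h4, div_le_iff₀ (by linarith)]
    have h5 : U ^ (-s.re) ≤ 1 := Real.rpow_le_one_of_one_le_of_nonpos hU (by linarith)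
    have h6 : 0 ≤ U ^ (-(k : ℝ)) := Real.rpow_nonneg hU0.le _
    have h7 : 1 ≤ 8 * (s.re + k) := by linarith
    calc U ^ (-s.re) * U ^ (-(k : ℝ)) ≤ 1 * U ^ (-(k : ℝ)) := mul_le_mul_of_nonneg_right h5 h6
      _ = U ^ (-(k : ℝ)) * 1 := by ring
      _ ≤ U ^ (-(k : ℝ)) * (8 * (s.re + k)) := mul_le_mul_of_nonneg_left h7 h6
      _ = 8 * U ^ (-(k : ℝ)) * (s.re + k) := by ring
  refine (mul_le_mul_of_nonneg_left hI (by positivity)).trans (le_of_eq ?_)
  rw [mul_pow, mul_pow]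
  ring

end Pool.Agent.MC.C2
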