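import Mathlib
import Pool.Agent.Lib.MP_9cfc0a_nt.EMPsi

set_option autoImplicit false

namespace Pool.Agent.EM

open Complex Metric Set MeasureTheory

/-- `ψ(x; q, a)` -/
noncomputable def psi (x : ℝ) (q a : ℕ) : ℝ :=
  ∑ n ∈ (Finset.Icc 1 ⌊x⌋₊).filter (fun n => n % q = a % q), ArithmeticFunction.vonMangoldt n

/-- `V(x; q)` -/
noncomputable def V (x : ℝ) (q : ℕ) : ℝ :=
  ∑ a ∈ (Finset.Icc 1 q).filter (fun a => Nat.Coprime a q), (psi x q a - x / (Nat.totient q : ℝ)) ^ 2

lemma X1_star (q : ℕ) [NeZero q] (χ : DirichletCharacter ℂ q) (c : ZMod q) (hc : IsUnit c) :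
    star (χ c) = χ c⁻¹ := by
  rw [MulChar.star_apply', MulChar.inv_apply_eq_inv']
  symm
  apply eq_inv_of_mul_eq_one_left
  rw [← map_mul, ZMod.inv_mul_of_unit c hc, map_one]

lemma X1_orth (q : ℕ) [NeZero q] (w : ZMod q → ℝ) (hw : ∀ b, ¬ IsUnit b → w b = 0) :
    ∑ χ : DirichletCharacter ℂ q, ‖∑ b, χ b * (w b : ℂ)‖ ^ 2 =
      (Nat.totient q : ℝ) * ∑ b, w b ^ 2 := by
  have key : ((∑ χ : DirichletCharacter ℂ q, ‖∑ b, χ b * (w b : ℂ)‖ ^ 2 : ℝ) : ℂ) =
      (((Nat.totient q : ℝ) * ∑ b, w b ^ 2 : ℝ) : ℂ) := by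
    push_cast
    have h1 : ∀ χ : DirichletCharacter ℂ q, ((‖∑ b, χ b * (w b : ℂ)‖ : ℝ) : ℂ) ^ 2 =
        ∑ c, ∑ b, ((w c : ℂ) * (w b : ℂ)) * (χ c⁻¹ * χ b) := by
      intro χ
      rw [← Complex.conj_mul', map_sum, Finset.sum_mul]
      apply Finset.sum_congr rfl
      intro c _
      rw [Finset.mul_sum]
      apply Finset.sum_congr rfl
      intro b _
      by_cases hc : IsUnit c
      · have h2 := X1_star q χ c hc
        rw [RCLike.star_def] at h2
        rw [map_mul, Complex.conj_ofReal, h2]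
        ring
      · rw [hw c hc]
        simp
    rw [Finset.sum_congr rfl (fun χ _ => h1 χ), Finset.sum_comm, Finset.mul_sum]
    apply Finset.sum_congr rfl
    intro c _
    rw [Finset.sum_comm]
    by_cases hc : IsUnit c
    · have h3 : ∀ b, ∑ χ : DirichletCharacter ℂ q, ((w c : ℂ) * (w b : ℂ)) * (χ c⁻¹ * χ b) =
          if c = b then ((w c : ℂ) * (w b : ℂ)) * (Nat.totient q : ℂ) else 0 := by
        intro b
        rw [← Finset.mul_sum, DirichletCharacter.sum_char_inv_mul_char_eq ℂ hc b]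
        split_ifs <;> simp
      rw [Finset.sum_congr rfl (fun b _ => h3 b), Finset.sum_ite_eq]
      simp only [Finset.mem_univ, if_true]
      ring
    · rw [hw c hc]
      simp
  exact_mod_cast key

lemma X1_psi (x : ℝ) (q : ℕ) [NeZero q] (a : ℕ) : psi x q a = psi x q (a : ZMod q).val := by
  unfold psi
  congr 1
  ext n
  simp only [Finset.mem_filter, ZMod.val_natCast, Nat.mod_mod]

/-- X1 -/
lemma variance_upper (q : ℕ) [NeZero q] (x : ℝ) (S : Finset (DirichletCharacter ℂ q))
    (hS : ∀ χ ∈ S, χ ≠ 1) : ∑ χ ∈ S, ‖psiC χ x‖ ^ 2 ≤ (Nat.totient q : ℝ) * V x q := by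
  classical
  set w : ZMod q → ℝ := fun b => if IsUnit b then psi x q b.val - x / (Nat.totient q : ℝ) else 0
    with hw
  have hV : V x q = ∑ b, w b ^ 2 := by
    unfold V
    rw [Finset.sum_filter]
    refine Finset.sum_bij (fun a _ => (a : ZMod q)) (fun _ _ => Finset.mem_univ _) ?_ ?_ ?_
    · intro a ha b hb hab
      rw [Finset.mem_Icc] at ha hb
      rw [ZMod.natCast_eq_natCast_iff'] at hab
      rcases Nat.lt_or_ge a q with h1 | h1 <;> rcases Nat.lt_or_ge b q with h2 | h2
      · rwa [Nat.mod_eq_of_lt h1, Nat.mod_eq_of_lt h2] at hab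
      · have : b = q := le_antisymm hb.2 h2
        rw [this, Nat.mod_self, Nat.mod_eq_of_lt h1] at hab
        omega
      · have : a = q := le_antisymm ha.2 h1
        rw [this, Nat.mod_self, Nat.mod_eq_of_lt h2] at hab
        omega
      · omega
    · intro b _
      by_cases hb : b.val = 0
      · refine ⟨q, Finset.mem_Icc.mpr ⟨Nat.one_le_iff_ne_zero.mpr (NeZero.ne q), le_rfl⟩, ?_⟩
        rw [ZMod.natCast_self]
        exact ((ZMod.val_eq_zero b).mp hb).symm
      · exact ⟨b.val, Finset.mem_Icc.mpr ⟨Nat.one_le_iff_ne_zero.mpr hb, (ZMod.val_lt b).le⟩,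
          ZMod.natCast_zmod_val b⟩
    · intro a _
      simp only [hw, ZMod.isUnit_iff_coprime]
      split_ifs
      · rw [X1_psi x q a]
      · simp
  have hpsi : ∀ χ ∈ S, psiC χ x = ∑ b, χ b * (w b : ℂ) := by
    intro χ hχ
    have h0 : ∑ b, χ b = 0 := MulChar.sum_eq_zero_of_ne_one (hS χ hχ)
    have h1 : ∑ b, χ b * (w b : ℂ) =
        ∑ b, χ b * ((psi x q b.val - x / (Nat.totient q : ℝ) : ℝ) : ℂ) := by
      apply Finset.sum_congr rfl
      intro b _
      simp only [hw]
      split_ifs with hb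
      · rfl
      · rw [MulChar.map_nonunit χ hb]
        simp
    have h2 : ∑ b, χ b * ((psi x q b.val - x / (Nat.totient q : ℝ) : ℝ) : ℂ) =
        ∑ b, χ b * ((psi x q b.val : ℝ) : ℂ) := by
      simp only [Complex.ofReal_sub, mul_sub, Finset.sum_sub_distrib]
      rw [← Finset.sum_mul, h0, zero_mul, sub_zero]
    rw [h1, h2]
    unfold psiC
    rw [← Finset.sum_fiberwise (Finset.Icc 1 ⌊x⌋₊) (fun n : ℕ => (n : ZMod q))]
    apply Finset.sum_congr rfl
    intro b _
    unfold psi
    rw [Complex.ofReal_sum, Finset.mul_sum]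
    have hf : (Finset.Icc 1 ⌊x⌋₊).filter (fun n : ℕ => (n : ZMod q) = b) =
        (Finset.Icc 1 ⌊x⌋₊).filter (fun n => n % q = b.val % q) := by
      ext n
      simp only [Finset.mem_filter, and_congr_right_iff]
      intro _
      rw [← ZMod.natCast_eq_natCast_iff', ZMod.natCast_zmod_val]
    rw [hf]
    apply Finset.sum_congr rfl
    intro n hn
    rw [← hf, Finset.mem_filter] at hn
    rw [hn.2]
  rw [hV, ← X1_orth q w (fun b hb => by simp only [hw]; rw [if_neg hb])]
  rw [Finset.sum_congr rfl (fun χ hχ => by rw [hpsi χ hχ])]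
  exact Finset.sum_le_sum_of_subset_of_nonneg (Finset.subset_univ _)
    (fun _ _ _ => sq_nonneg _)

/-- X2 -/
lemma small_conductor (q : ℕ) [NeZero q] (Q : ℕ) (S : Finset (DirichletCharacter ℂ q))
    (hS : ∀ χ ∈ S, χ.conductor < Q) : S.card ≤ Q ^ 2 := by
  classical
  rw [Finset.card_eq_sum_card_fiberwise (f := fun χ => χ.conductor) (t := Finset.range Q)
    (fun χ hχ => by simpa using hS χ hχ)]
  have hfib : ∀ d ∈ Finset.range Q, (S.filter (fun χ => χ.conductor = d)).card ≤ Q := by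
    intro d hd
    rw [Finset.mem_range] at hd
    rcases (S.filter (fun χ => χ.conductor = d)).eq_empty_or_nonempty with he | ⟨χ₀, hχ₀⟩
    · rw [he]; simp
    · rw [Finset.mem_filter] at hχ₀
      have hdq : d ∣ q := by
        rw [← hχ₀.2]
        exact χ₀.conductor_dvd_level
      have hd0 : d ≠ 0 := by
        rintro rfl
        exact NeZero.ne q (Nat.eq_zero_of_zero_dvd hdq)
      haveI : NeZero d := ⟨hd0⟩
      have hsub : S.filter (fun χ => χ.conductor = d) ⊆
          (Finset.univ : Finset (DirichletCharacter ℂ d)).image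
            (DirichletCharacter.changeLevel hdq) := by
        intro χ hχ
        rw [Finset.mem_filter] at hχ
        obtain ⟨h1, χ₁, h2⟩ := χ.factorsThrough_conductor
        rw [Finset.mem_image]
        obtain ⟨-, rfl⟩ := hχ
        exact ⟨χ₁, Finset.mem_univ _, h2.symm⟩
      calc (S.filter (fun χ => χ.conductor = d)).card
          ≤ ((Finset.univ : Finset (DirichletCharacter ℂ d)).image
            (DirichletCharacter.changeLevel hdq)).card := Finset.card_le_card hsub
        _ ≤ (Finset.univ : Finset (DirichletCharacter ℂ d)).card := Finset.card_image_le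
        _ = Nat.card (DirichletCharacter ℂ d) := by
            rw [Finset.card_univ, Nat.card_eq_fintype_card]
        _ = d.totient := DirichletCharacter.card_eq_totient_of_hasEnoughRootsOfUnity ℂ d
        _ ≤ d := Nat.totient_le d
        _ ≤ Q := hd.le
  calc ∑ d ∈ Finset.range Q, (S.filter (fun χ => χ.conductor = d)).card
      ≤ ∑ d ∈ Finset.range Q, Q := Finset.sum_le_sum hfib
    _ = Q ^ 2 := by rw [Finset.sum_const, Finset.card_range, smul_eq_mul, sq]

lemma X3_sq (n : ℕ) : (Odd n → n ≤ n.totient ^ 2) ∧ n ≤ 2 * n.totient ^ 2 := by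
  induction n using Nat.recOnPosPrimePosCoprime with
  | zero => exact ⟨fun h => by simp at h, by simp⟩
  | one => exact ⟨fun _ => by simp, by simp⟩
  | prime_pow p k hp hk =>
    obtain ⟨m, rfl⟩ : ∃ m, k = m + 1 := ⟨k - 1, by omega⟩
    rw [Nat.totient_prime_pow hp hk, Nat.add_sub_cancel]
    have hp2 := hp.two_le
    have hpm : 1 ≤ p ^ m := Nat.one_le_pow _ _ (by omega)
    have hodd : Odd (p ^ (m + 1)) → p ^ (m + 1) ≤ (p ^ m * (p - 1)) ^ 2 := by
      intro h
      have hp3 : 3 ≤ p := by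
        rcases Nat.lt_or_ge p 3 with h3 | h3
        · have : p = 2 := by omega
          subst this
          rw [Nat.odd_pow_iff (by omega)] at h
          exact absurd h (by decide)
        · exact h3
      obtain ⟨r, rfl⟩ : ∃ r, p = r + 3 := ⟨p - 3, by omega⟩
      have h1 : r + 3 - 1 = r + 2 := by omega
      rw [h1, pow_succ]
      nlinarith [Nat.mul_le_mul_left ((r + 3) ^ m) hpm, Nat.zero_le r,
        Nat.zero_le ((r + 3) ^ m * r), Nat.zero_le ((r + 3) ^ m * (r * r)),
        Nat.mul_le_mul_right ((r + 2) ^ 2) (Nat.mul_le_mul_left ((r + 3) ^ m) hpm)]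
    refine ⟨hodd, ?_⟩
    rcases Nat.even_or_odd (p ^ (m + 1)) with he | ho
    · have hp' : p = 2 := by
        rw [Nat.even_pow' (by omega)] at he
        exact (hp.even_iff).mp he
      subst hp'
      have : 2 - 1 = 1 := rfl
      rw [this, mul_one, pow_succ]
      nlinarith [Nat.mul_le_mul_left (2 ^ m) hpm]
    · have := hodd ho
      omega
  | coprime a b ha hb hab iha ihb =>
    rw [Nat.totient_mul hab, mul_pow]
    refine ⟨fun h => ?_, ?_⟩
    · rw [Nat.odd_mul] at h
      exact Nat.mul_le_mul (iha.1 h.1) (ihb.1 h.2)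
    · rcases Nat.even_or_odd a with he | ho
      · have hb' : Odd b := by
          rcases Nat.even_or_odd b with hb2 | hb2
          · have h2 : 2 ∣ Nat.gcd a b := Nat.dvd_gcd he.two_dvd hb2.two_dvd
            rw [hab] at h2
            omega
          · exact hb2
        calc a * b ≤ (2 * a.totient ^ 2) * b.totient ^ 2 := Nat.mul_le_mul iha.2 (ihb.1 hb')
          _ = _ := by ring
      · calc a * b ≤ a.totient ^ 2 * (2 * b.totient ^ 2) := Nat.mul_le_mul (iha.1 ho) ihb.2
          _ = _ := by ring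

lemma totient_large (C : ℝ) : ∃ q₁ : ℕ, ∀ q : ℕ, q₁ ≤ q → C ≤ (Nat.totient q : ℝ) := by
  refine ⟨2 * ⌈C⌉₊ ^ 2 + 1, fun q hq => ?_⟩
  have h1 := (X3_sq q).2
  have h2 : ⌈C⌉₊ ≤ q.totient := by
    by_contra h
    have h3 : q.totient ≤ ⌈C⌉₊ := by omega
    have h4 : q.totient ^ 2 ≤ ⌈C⌉₊ ^ 2 := Nat.pow_le_pow_left h3 2
    omega
  calc C ≤ (⌈C⌉₊ : ℝ) := Nat.le_ceil C
    _ ≤ _ := by exact_mod_cast h2

end Pool.Agent.EM
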