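import Mathlib
import Pool.Agent.Lib.MP_9cfc0a_nt.Mg.G006
import Pool.Agent.Lib.MP_9cfc0a_nt.Mg.G078
import Pool.Agent.Lib.MP_9cfc0a_nt.C2H6

-- H12 by helper80. USES the skeleton lemmas hybrid_large_sieve (H6), smooth_approx_deriv (H10),
-- divisor_bound (H11): put them before this file. Tested against C2Skel.

set_option autoImplicit false

namespace Pool.Agent.MC.C2

open Pool.Agent.MC Pool.Agent.MC.C1 MeasureTheory Real Complex

/-- Coefficients of a product of two Dirichlet polynomials. -/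
noncomputable def H12_c (a b : ℕ → ℂ) (L M k : ℕ) : ℂ :=
  ∑ p ∈ (Finset.Icc 1 L ×ˢ Finset.Icc 1 M).filter (fun p => p.1 * p.2 = k), a p.1 * b p.2

lemma H12_prod (a b : ℕ → ℂ) (L M r : ℕ) (χ : DirichletCharacter ℂ r) (s : ℂ) :
    (∑ l ∈ Finset.Icc 1 L, a l * χ l * (l : ℂ) ^ (-s)) *
      (∑ m ∈ Finset.Icc 1 M, b m * χ m * (m : ℂ) ^ (-s))
    = ∑ k ∈ Finset.Icc 1 (L * M), H12_c a b L M k * χ k * (k : ℂ) ^ (-s) := by
  rw [Finset.sum_mul_sum, ← Finset.sum_product']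
  have hmap : ∀ p ∈ Finset.Icc 1 L ×ˢ Finset.Icc 1 M, p.1 * p.2 ∈ Finset.Icc 1 (L * M) := by
    intro p hp
    rw [Finset.mem_product, Finset.mem_Icc, Finset.mem_Icc] at hp
    rw [Finset.mem_Icc]
    exact ⟨Nat.mul_pos hp.1.1 hp.2.1, Nat.mul_le_mul hp.1.2 hp.2.2⟩
  rw [← Finset.sum_fiberwise_of_maps_to hmap]
  refine Finset.sum_congr rfl fun k _ => ?_
  unfold H12_c
  rw [Finset.sum_mul, Finset.sum_mul]
  refine Finset.sum_congr rfl fun p hp => ?_
  rw [Finset.mem_filter, Finset.mem_product] at hp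
  obtain ⟨hp1, hpk⟩ := hp
  rw [← hpk]
  push_cast
  rw [map_mul, Complex.natCast_mul_natCast_cpow]
  ring

lemma H12_norm (a b : ℕ → ℂ) (L M k : ℕ) (hk : 1 ≤ k) (A : ℝ) (hA : 0 ≤ A)
    (hab : ∀ l ∈ Finset.Icc 1 L, ∀ m ∈ Finset.Icc 1 M, ‖a l * b m‖ ≤ A) :
    ‖H12_c a b L M k‖ ≤ (k.divisors.card : ℝ) * A := by
  unfold H12_c
  have h1 : ‖∑ p ∈ (Finset.Icc 1 L ×ˢ Finset.Icc 1 M).filter (fun p => p.1 * p.2 = k),
      a p.1 * b p.2‖ ≤
      ∑ p ∈ (Finset.Icc 1 L ×ˢ Finset.Icc 1 M).filter (fun p => p.1 * p.2 = k), A := by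
    refine norm_sum_le_of_le _ fun p hp => ?_
    rw [Finset.mem_filter, Finset.mem_product] at hp
    exact hab _ hp.1.1 _ hp.1.2
  refine h1.trans ?_
  rw [Finset.sum_const, nsmul_eq_mul]
  refine mul_le_mul_of_nonneg_right ?_ hA
  have h2 : ((Finset.Icc 1 L ×ˢ Finset.Icc 1 M).filter (fun p => p.1 * p.2 = k)).card
      ≤ k.divisors.card := by
    refine Finset.card_le_card_of_injOn (fun p => p.1) ?_ ?_
    · intro p hp
      have hp' := Finset.mem_filter.mp (Finset.mem_coe.mp hp)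
      exact Finset.mem_coe.mpr (Nat.mem_divisors.mpr ⟨⟨p.2, hp'.2.symm⟩, by omega⟩)
    · intro p hp q hq hpq
      have hp' := Finset.mem_filter.mp (Finset.mem_coe.mp hp)
      have hq' := Finset.mem_filter.mp (Finset.mem_coe.mp hq)
      have hp1 := (Finset.mem_Icc.mp (Finset.mem_product.mp hp'.1).1).1
      have h3 : p.1 = q.1 := hpq
      have h4 : p.1 * p.2 = p.1 * q.2 := by
        rw [hp'.2, h3, hq'.2]
      exact Prod.ext h3 (Nat.eq_of_mul_eq_mul_left hp1 h4)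
  exact_mod_cast h2

lemma H12_ne_one (r : ℕ) [NeZero r] (hr : 2 ≤ r) (χ : DirichletCharacter ℂ r) (hχ : χ.IsPrimitive) :
    χ ≠ 1 := by
  intro h
  have h1 : χ.conductor = r := hχ
  rw [h, DirichletCharacter.conductor_one] at h1
  omega

lemma H12_LF (r : ℕ) [NeZero r] (χ : DirichletCharacter ℂ r) : LF r χ = χ.LFunction := by
  funext s
  unfold LF
  rw [dif_neg (NeZero.ne r)]

/-- The number of primitive characters. -/
lemma H12_const (r : ℕ) [NeZero r] (A : ℝ) (hA : 0 ≤ A) : pSum r (fun _ => A) ≤ r * A := by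
  classical
  rw [P4_pSum, Finset.sum_const, nsmul_eq_mul]
  refine mul_le_mul_of_nonneg_right ?_ hA
  have h1 : (Finset.univ.filter (fun χ : DirichletCharacter ℂ r => χ.IsPrimitive)).card ≤ r := by
    refine (Finset.card_filter_le _ _).trans ?_
    have h2 : (Finset.univ : Finset (DirichletCharacter ℂ r)).card = r.totient := by
      rw [Finset.card_univ, ← Nat.card_eq_fintype_card]
      exact DirichletCharacter.card_eq_totient_of_hasEnoughRootsOfUnity ℂ r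
    rw [h2]
    exact Nat.totient_le r
  exact_mod_cast h1

lemma H12_pSum_mono (r : ℕ) (f g : DirichletCharacter ℂ r → ℝ)
    (h : ∀ χ : DirichletCharacter ℂ r, χ.IsPrimitive → f χ ≤ g χ) : pSum r f ≤ pSum r g := by
  classical
  rw [P4_pSum, P4_pSum]
  exact Finset.sum_le_sum fun χ hχ => h χ (Finset.mem_filter.mp hχ).2

lemma H12_pSum_add (r : ℕ) (f g : DirichletCharacter ℂ r → ℝ) (c : ℝ) :
    pSum r (fun χ => c * f χ + g χ) = c * pSum r f + pSum r g := by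
  classical
  rw [P4_pSum, P4_pSum, P4_pSum, Finset.sum_add_distrib, Finset.mul_sum]

lemma H12_pSum_nonneg (r : ℕ) (f : DirichletCharacter ℂ r → ℝ) (h : ∀ χ, 0 ≤ f χ) :
    0 ≤ pSum r f := by
  classical
  rw [P4_pSum]
  exact Finset.sum_nonneg fun χ _ => h χ

lemma H12_Mol (N r : ℕ) (χ : DirichletCharacter ℂ r) (s : ℂ) (hs : 0 ≤ s.re) :
    ‖Mol N r χ s‖ ≤ N := by
  unfold Mol
  have h1 : ∀ m ∈ Finset.Icc 1 N,
      ‖(ArithmeticFunction.moebius m : ℂ) * χ m * (m : ℂ) ^ (-s)‖ ≤ 1 := by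
    intro m hm
    have hm1 : 1 ≤ m := (Finset.mem_Icc.mp hm).1
    rw [norm_mul, norm_mul]
    have h2 : ‖(ArithmeticFunction.moebius m : ℂ)‖ ≤ 1 := by
      rw [Complex.norm_intCast]
      exact_mod_cast ArithmeticFunction.abs_moebius_le_one
    have h3 : ‖(m : ℂ) ^ (-s)‖ ≤ 1 := by
      rw [Complex.norm_natCast_cpow_of_pos (by omega), Complex.neg_re]
      exact Real.rpow_le_one_of_one_le_of_nonpos (by exact_mod_cast hm1) (by linarith)
    calc ‖(ArithmeticFunction.moebius m : ℂ)‖ * ‖χ m‖ * ‖(m : ℂ) ^ (-s)‖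
        ≤ 1 * 1 * 1 := by
          refine mul_le_mul (mul_le_mul h2 (χ.norm_le_one _) (norm_nonneg _) zero_le_one) h3
            (norm_nonneg _) (by norm_num)
      _ = 1 := by norm_num
  refine (norm_sum_le_of_le _ h1).trans ?_
  simp

lemma H12_vv (x : ℝ) : 0 ≤ vv x ∧ vv x ≤ 1 := by
  unfold vv
  exact ⟨Real.smoothTransition.nonneg _, Real.smoothTransition.le_one _⟩

/-- The pointwise bound. -/
lemma H12_point (a b : ℂ) (N E : ℝ) (P : ℂ) (h1 : ‖a + P‖ ≤ E) (h2 : ‖b‖ ≤ N) (hE : 0 ≤ E) :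
    ‖a * b‖ ^ 2 ≤ 2 * ‖P * b‖ ^ 2 + 2 * (E * N) ^ 2 := by
  have h3 : a * b = (a + P) * b - P * b := by ring
  have h4 : ‖a * b‖ ≤ ‖(a + P) * b‖ + ‖P * b‖ := by
    rw [h3]
    exact norm_sub_le _ _
  have h5 : ‖(a + P) * b‖ ≤ E * N := by
    rw [norm_mul]
    exact mul_le_mul h1 h2 (norm_nonneg _) hE
  have h6 := norm_nonneg (a * b)
  have h7 := norm_nonneg (P * b)
  have h8 : ‖a * b‖ ≤ E * N + ‖P * b‖ := by linarith
  have h9 : ‖a * b‖ ^ 2 ≤ (E * N + ‖P * b‖) ^ 2 := pow_le_pow_left₀ h6 h8 2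
  nlinarith [sq_nonneg (E * N - ‖P * b‖)]

lemma H12_cont (L : ℕ) (c : ℕ → ℂ) (s0 : ℂ) :
    Continuous (fun t : ℝ => ∑ n ∈ Finset.Icc 1 L, c n * (n : ℂ) ^ (-(s0 + t * I))) := by
  refine continuous_finsetSum _ fun n hn => ?_
  have hn1 : (n : ℂ) ≠ 0 := by
    have := (Finset.mem_Icc.mp hn).1
    exact_mod_cast (by omega : n ≠ 0)
  refine continuous_const.mul (Continuous.const_cpow ?_ (Or.inl hn1))
  fun_prop

/-- One character. -/
lemma H12_int (r N L : ℕ) [NeZero r] (χ : DirichletCharacter ℂ r) (hχ : χ ≠ 1) (T U E : ℝ)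
    (hT : 0 ≤ T) (hE : 0 ≤ E)
    (hap : ∀ t : ℝ, |t| ≤ T → ‖deriv χ.LFunction ((1 / 2 : ℝ) + t * I) +
      ∑ n ∈ Finset.Icc 1 L, χ n * ((vv (n / U) * Real.log n : ℝ) : ℂ) *
        (n : ℂ) ^ (-(((1 / 2 : ℝ) : ℂ) + t * I))‖ ≤ E) :
    ∫ t in (-T)..T,
      ‖deriv (LF r χ) ((1 / 2 : ℝ) + t * I) * Mol N r χ ((1 / 2 : ℝ) + t * I)‖ ^ 2
    ≤ 2 * (∫ t in (-T)..T, ‖∑ k ∈ Finset.Icc 1 (L * N),
        (H12_c (fun l => ((vv (l / U) * Real.log l : ℝ) : ℂ))
          (fun m => (ArithmeticFunction.moebius m : ℂ)) L N k * (k : ℂ) ^ (-((1 / 2 : ℝ) : ℂ)))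
          * χ k * (k : ℂ) ^ (-((t : ℂ) * I))‖ ^ 2) + 4 * T * (E * N) ^ 2 := by
  set a : ℕ → ℂ := fun l => ((vv (l / U) * Real.log l : ℝ) : ℂ) with ha
  set b : ℕ → ℂ := fun m => (ArithmeticFunction.moebius m : ℂ) with hb
  have hP : ∀ t : ℝ, (∑ n ∈ Finset.Icc 1 L, χ n * ((vv (n / U) * Real.log n : ℝ) : ℂ) *
        (n : ℂ) ^ (-(((1 / 2 : ℝ) : ℂ) + t * I))) * Mol N r χ ((1 / 2 : ℝ) + t * I)
      = ∑ k ∈ Finset.Icc 1 (L * N), (H12_c a b L N k * (k : ℂ) ^ (-((1 / 2 : ℝ) : ℂ)))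
          * χ k * (k : ℂ) ^ (-((t : ℂ) * I)) := by
    intro t
    have h1 : (∑ n ∈ Finset.Icc 1 L, χ n * ((vv (n / U) * Real.log n : ℝ) : ℂ) *
        (n : ℂ) ^ (-(((1 / 2 : ℝ) : ℂ) + t * I)))
        = ∑ l ∈ Finset.Icc 1 L, a l * χ l * (l : ℂ) ^ (-(((1 / 2 : ℝ) : ℂ) + t * I)) := by
      refine Finset.sum_congr rfl fun l _ => ?_
      rw [ha]
      ring
    rw [h1]
    unfold Mol
    rw [H12_prod a b L N r χ (((1 / 2 : ℝ) : ℂ) + t * I)]
    refine Finset.sum_congr rfl fun k hk => ?_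
    have hk0 : (k : ℂ) ≠ 0 := by
      have := (Finset.mem_Icc.mp hk).1
      exact_mod_cast (by omega : k ≠ 0)
    rw [neg_add, Complex.cpow_add _ _ hk0]
    ring
  have hcL : Continuous (fun t : ℝ => deriv (LF r χ) ((1 / 2 : ℝ) + t * I)) := by
    rw [H12_LF]
    have h1 : Differentiable ℂ χ.LFunction := DirichletCharacter.differentiable_LFunction hχ
    have h2 : Continuous (deriv χ.LFunction) := h1.contDiff.continuous_deriv (n := 1) le_rfl
    exact h2.comp (by fun_prop)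
  have hcM : Continuous (fun t : ℝ => Mol N r χ ((1 / 2 : ℝ) + t * I)) := by
    unfold Mol
    exact H12_cont N (fun m => (ArithmeticFunction.moebius m : ℂ) * χ m) _
  have hcQ : Continuous (fun t : ℝ => ∑ k ∈ Finset.Icc 1 (L * N),
      (H12_c a b L N k * (k : ℂ) ^ (-((1 / 2 : ℝ) : ℂ))) * χ k * (k : ℂ) ^ (-((t : ℂ) * I))) := by
    have := H12_cont (L * N) (fun k => (H12_c a b L N k * (k : ℂ) ^ (-((1 / 2 : ℝ) : ℂ))) * χ k) 0
    simpa only [zero_add] using this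
  have h1 : ∫ t in (-T)..T,
      ‖deriv (LF r χ) ((1 / 2 : ℝ) + t * I) * Mol N r χ ((1 / 2 : ℝ) + t * I)‖ ^ 2
      ≤ ∫ t in (-T)..T, (2 * ‖∑ k ∈ Finset.Icc 1 (L * N),
        (H12_c a b L N k * (k : ℂ) ^ (-((1 / 2 : ℝ) : ℂ)))
          * χ k * (k : ℂ) ^ (-((t : ℂ) * I))‖ ^ 2 + 2 * (E * N) ^ 2) := by
    refine intervalIntegral.integral_mono_on (by linarith) ?_ ?_ ?_
    · exact (((hcL.mul hcM).norm.pow 2)).intervalIntegrable _ _
    · exact ((continuous_const.mul (hcQ.norm.pow 2)).add continuous_const).intervalIntegrable _ _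
    · intro t ht
      rw [← hP t]
      refine H12_point _ _ N E _ ?_ ?_ hE
      · rw [H12_LF]
        exact hap t (abs_le.mpr ⟨ht.1, ht.2⟩)
      · refine H12_Mol N r χ _ ?_
        simp
  refine h1.trans (le_of_eq ?_)
  rw [intervalIntegral.integral_add, intervalIntegral.integral_const_mul,
    intervalIntegral.integral_const, smul_eq_mul]
  · ring
  · exact (continuous_const.mul (hcQ.norm.pow 2)).intervalIntegrable _ _
  · exact continuous_const.intervalIntegrable _ _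

lemma H12_half (k : ℕ) (hk : 1 ≤ k) (z : ℂ) :
    ‖z * (k : ℂ) ^ (-((1 / 2 : ℝ) : ℂ))‖ ^ 2 = ‖z‖ ^ 2 * (1 / k) := by
  have hk0 : (0 : ℝ) < k := by exact_mod_cast hk
  rw [norm_mul, mul_pow, Complex.norm_natCast_cpow_of_pos (by omega)]
  congr 1
  rw [Complex.neg_re, Complex.ofReal_re, ← Real.rpow_natCast, ← Real.rpow_mul hk0.le]
  norm_num
  exact Real.rpow_neg_one _

/-- The coefficient sum. -/
lemma H12_coefsum (K : ℕ) (c : ℕ → ℂ) (B G T : ℝ) (hG : 0 ≤ G) (hT : 0 ≤ T)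
    (hc : ∀ k ∈ Finset.Icc 1 K, ‖c k‖ ≤ B) :
    ∑ k ∈ Finset.Icc 1 K, ‖c k * (k : ℂ) ^ (-((1 / 2 : ℝ) : ℂ))‖ ^ 2 * (G * T + k)
      ≤ B ^ 2 * (G * T * ∑ k ∈ Finset.Icc 1 K, 1 / (k : ℝ) + K) := by
  have h1 : ∀ k ∈ Finset.Icc 1 K, ‖c k * (k : ℂ) ^ (-((1 / 2 : ℝ) : ℂ))‖ ^ 2 * (G * T + k)
      ≤ B ^ 2 * (G * T * (1 / k) + 1) := by
    intro k hk
    have hk1 := (Finset.mem_Icc.mp hk).1
    have hk0 : (0 : ℝ) < k := by exact_mod_cast hk1
    rw [H12_half k hk1]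
    have h2 : ‖c k‖ ^ 2 ≤ B ^ 2 := pow_le_pow_left₀ (norm_nonneg _) (hc k hk) 2
    have h3 : ‖c k‖ ^ 2 * (1 / k) * (G * T + k) = ‖c k‖ ^ 2 * (G * T * (1 / k) + 1) := by
      field_simp
    rw [h3]
    exact mul_le_mul_of_nonneg_right h2 (by positivity)
  refine (Finset.sum_le_sum h1).trans (le_of_eq ?_)
  rw [← Finset.mul_sum, Finset.sum_add_distrib, ← Finset.mul_sum]
  simp

/-- The error term of the approximation. -/
lemma H12_err (x e : ℝ) (k : ℕ) (hx : 1 ≤ x) (hk : 3 ≤ e * k) :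
    (5 * x) ^ (k + 1) * (x ^ (1 + e)) ^ (-(k : ℝ)) ≤ 5 ^ (k + 1) * x ^ (-2 : ℝ) := by
  have hx0 : 0 < x := by linarith
  rw [mul_pow, ← Real.rpow_mul hx0.le, ← Real.rpow_natCast x (k + 1), mul_assoc,
    ← Real.rpow_add hx0]
  refine mul_le_mul_of_nonneg_left ?_ (by positivity)
  refine Real.rpow_le_rpow_of_exponent_le hx ?_
  push_cast
  nlinarith

/-- Powers of the length. -/
lemma H12_pow (x e K N : ℝ) (hx : 1 ≤ x) (he : 0 < e) (he1 : e ≤ 1 / 20) (hK : 0 ≤ K)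
    (hKb : K ≤ 3 * x ^ (1 + e) * N) (hN : N ≤ x ^ 2) (hN0 : 0 ≤ N) :
    K ^ e ≤ 3 * x ^ (4 * e) ∧ (K ^ e) ^ 5 ≤ 243 * x ^ (20 * e) ∧
      (K ^ e) ^ 4 * K ≤ 243 * x ^ (20 * e) * (N * x) := by
  have hx0 : 0 < x := by linarith
  have h1 : x ^ (1 + e) * N ≤ x ^ (4 : ℝ) := by
    calc x ^ (1 + e) * N ≤ x ^ (2 : ℝ) * x ^ 2 := by
          refine mul_le_mul (Real.rpow_le_rpow_of_exponent_le hx (by linarith)) hN hN0
            (by positivity)
      _ = x ^ (4 : ℝ) := by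
          rw [← Real.rpow_natCast x 2, ← Real.rpow_add hx0]
          norm_num
  have h2 : K ≤ 3 * x ^ (4 : ℝ) := by
    refine hKb.trans ?_
    rw [mul_assoc]
    linarith
  have h3 : K ^ e ≤ 3 * x ^ (4 * e) := by
    calc K ^ e ≤ (3 * x ^ (4 : ℝ)) ^ e := Real.rpow_le_rpow hK h2 he.le
      _ = 3 ^ e * x ^ (4 * e) := by
          rw [Real.mul_rpow (by norm_num) (by positivity), ← Real.rpow_mul hx0.le]
      _ ≤ 3 * x ^ (4 * e) := by
          refine mul_le_mul_of_nonneg_right ?_ (by positivity)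
          calc (3 : ℝ) ^ e ≤ 3 ^ (1 : ℝ) :=
                Real.rpow_le_rpow_of_exponent_le (by norm_num) (by linarith)
            _ = 3 := Real.rpow_one 3
  have hK0 : 0 ≤ K ^ e := Real.rpow_nonneg hK e
  have h4 : (K ^ e) ^ 4 ≤ 81 * x ^ (16 * e) := by
    calc (K ^ e) ^ 4 ≤ (3 * x ^ (4 * e)) ^ 4 := pow_le_pow_left₀ hK0 h3 4
      _ = 81 * x ^ (16 * e) := by
          rw [mul_pow, ← Real.rpow_natCast (x ^ (4 * e)) 4, ← Real.rpow_mul hx0.le]
          norm_num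
          ring_nf
  refine ⟨h3, ?_, ?_⟩
  · calc (K ^ e) ^ 5 ≤ (3 * x ^ (4 * e)) ^ 5 := pow_le_pow_left₀ hK0 h3 5
      _ = 243 * x ^ (20 * e) := by
          rw [mul_pow, ← Real.rpow_natCast (x ^ (4 * e)) 5, ← Real.rpow_mul hx0.le]
          norm_num
          ring_nf
  · calc (K ^ e) ^ 4 * K ≤ (81 * x ^ (16 * e)) * (3 * x ^ (1 + e) * N) :=
          mul_le_mul h4 hKb hK (by positivity)
      _ = 243 * (x ^ (16 * e) * x ^ e) * (N * x) := by
          rw [Real.rpow_add hx0, Real.rpow_one]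
          ring
      _ ≤ 243 * x ^ (20 * e) * (N * x) := by
          refine mul_le_mul_of_nonneg_right ?_ (by positivity)
          refine mul_le_mul_of_nonneg_left ?_ (by norm_num)
          rw [← Real.rpow_add hx0]
          exact Real.rpow_le_rpow_of_exponent_le hx (by linarith)

/-- H12. Mean square of `L' M` on the line `Re s = 1/2` (uses H6, H10, H11). -/
lemma meanA (κ : ℝ) (hκ : 0 < κ) : ∃ C : ℝ, 0 ≤ C ∧ ∀ F : ℕ, 2 ≤ F → ∀ N : ℕ, 1 ≤ N →
    N ≤ F ^ 2 → ∀ T : ℝ, 1 ≤ T →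
    ∑ r ∈ Finset.Ico F (2 * F), pSum r (fun χ => ∫ t in (-T)..T,
      ‖deriv (LF r χ) ((1 / 2 : ℝ) + t * I) * Mol N r χ ((1 / 2 : ℝ) + t * I)‖ ^ 2)
      ≤ C * (F * T) ^ κ * ((F : ℝ) ^ 2 * T + N * F * T) := by
  set e : ℝ := min κ 1 / 20 with he
  have he0 : 0 < e := by
    have : 0 < min κ 1 := lt_min hκ one_pos
    positivity
  have he1 : e ≤ 1 / 20 := by
    have := min_le_right κ 1
    rw [he]
    linarith
  have he2 : 20 * e ≤ κ := by
    have := min_le_left κ 1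
    rw [he]
    linarith
  set k : ℕ := ⌈3 / e⌉₊ with hk
  have hke : 3 ≤ e * k := by
    have h1 : 3 / e ≤ k := Nat.le_ceil _
    rw [div_le_iff₀ he0] at h1
    linarith
  obtain ⟨C1, hC1, H10⟩ := smooth_approx_deriv k
  obtain ⟨D, hD, H11⟩ := divisor_bound e he0
  obtain ⟨Hc, hHc, hH⟩ := P5_harmonic e he0
  set E : ℝ := C1 * 5 ^ (k + 1) with hE
  have hE0 : 0 ≤ E := by positivity
  refine ⟨8 * E ^ 2 + 2000 * (D / e) ^ 2 * 243 * (4 * Hc + 1), by positivity, ?_⟩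
  intro F hF N hN hNF T hT
  have hF0 : (2 : ℝ) ≤ F := by exact_mod_cast hF
  have hT0 : 0 < T := by linarith
  set x : ℝ := F * T with hx
  have hx2 : 2 ≤ x := by
    rw [hx]
    nlinarith
  have hx0 : 0 < x := by linarith
  have hx1 : 1 ≤ x := by linarith
  have hNx : (N : ℝ) ≤ x ^ 2 := by
    have h1 : (N : ℝ) ≤ (F : ℝ) ^ 2 := by exact_mod_cast hNF
    refine h1.trans ?_
    refine pow_le_pow_left₀ (by linarith) ?_ 2
    rw [hx]
    nlinarith
  set U : ℝ := x ^ (1 + e) with hU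
  have hU1 : 1 ≤ U := Real.one_le_rpow hx1 (by linarith)
  set L : ℕ := ⌈2 * U⌉₊ with hL
  have hL1 : 2 * U ≤ L := Nat.le_ceil _
  have hL2 : (L : ℝ) ≤ 3 * U := by
    have := Nat.ceil_lt_add_one (by linarith : 0 ≤ 2 * U)
    linarith
  have hLpos : 1 ≤ L := by
    have : (1 : ℝ) ≤ L := by linarith
    exact_mod_cast this
  set J : (r : ℕ) → DirichletCharacter ℂ r → ℝ := fun r χ =>
    ∫ t in (-T)..T, ‖∑ k ∈ Finset.Icc 1 (L * N),
        (H12_c (fun l => ((vv (l / U) * Real.log l : ℝ) : ℂ))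
          (fun m => (ArithmeticFunction.moebius m : ℂ)) L N k * (k : ℂ) ^ (-((1 / 2 : ℝ) : ℂ)))
          * χ k * (k : ℂ) ^ (-((t : ℂ) * I))‖ ^ 2 with hJ
  have hJ0 : ∀ r χ, 0 ≤ J r χ := by
    intro r χ
    exact intervalIntegral.integral_nonneg (by linarith) fun t _ => by positivity
  -- one modulus
  have hmod : ∀ r ∈ Finset.Ico F (2 * F), pSum r (fun χ => ∫ t in (-T)..T,
      ‖deriv (LF r χ) ((1 / 2 : ℝ) + t * I) * Mol N r χ ((1 / 2 : ℝ) + t * I)‖ ^ 2)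
      ≤ 2 * pSum r (J r) + 8 * E ^ 2 * F * T := by
    intro r hr
    obtain ⟨hr1, hr2⟩ := Finset.mem_Ico.mp hr
    have : NeZero r := ⟨by omega⟩
    have hrR : (r : ℝ) ≤ 2 * F := by
      have : r ≤ 2 * F := by omega
      exact_mod_cast this
    have h1 : pSum r (fun χ => ∫ t in (-T)..T,
      ‖deriv (LF r χ) ((1 / 2 : ℝ) + t * I) * Mol N r χ ((1 / 2 : ℝ) + t * I)‖ ^ 2)
        ≤ pSum r (fun χ => 2 * J r χ + 4 * T * E ^ 2) := by
      refine H12_pSum_mono r _ _ fun χ hχ => ?_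
      have hne : χ ≠ 1 := H12_ne_one r (by omega) χ hχ
      have h2 := H12_int r N L χ hne T U (E * x ^ (-2 : ℝ)) (by linarith) (by positivity) ?_
      · refine h2.trans ?_
        have h3 : E * x ^ (-2 : ℝ) * N ≤ E := by
          have h4 : x ^ (-2 : ℝ) * N ≤ 1 := by
            rw [Real.rpow_neg hx0.le, Real.rpow_ofNat, inv_mul_le_iff₀ (by positivity), mul_one]
            exact hNx
          calc E * x ^ (-2 : ℝ) * N = E * (x ^ (-2 : ℝ) * N) := by ring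
            _ ≤ E * 1 := mul_le_mul_of_nonneg_left h4 hE0
            _ = E := mul_one _
        have h5 : (E * x ^ (-2 : ℝ) * N) ^ 2 ≤ E ^ 2 := pow_le_pow_left₀ (by positivity) h3 2
        have h6 : 4 * T * (E * x ^ (-2 : ℝ) * N) ^ 2 ≤ 4 * T * E ^ 2 :=
          mul_le_mul_of_nonneg_left h5 (by positivity)
        linarith
      · intro t ht
        have hs1 : (((1 / 2 : ℝ) : ℂ) + t * I).re = 1 / 2 := by simp
        refine (H10 r χ hne (((1 / 2 : ℝ) : ℂ) + t * I) (by rw [hs1]; norm_num)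
          (by rw [hs1]; norm_num) U hU1 L hL1).trans ?_
        have hs2 : ‖((1 / 2 : ℝ) : ℂ) + t * I‖ ≤ 1 / 2 + T := by
          refine (norm_add_le _ _).trans ?_
          rw [norm_mul, Complex.norm_I, mul_one, Complex.norm_real, Complex.norm_real,
            Real.norm_eq_abs, Real.norm_eq_abs]
          have : |(1 / 2 : ℝ)| = 1 / 2 := abs_of_pos (by norm_num)
          rw [this]
          linarith
        have hs3 : (r : ℝ) * (‖((1 / 2 : ℝ) : ℂ) + t * I‖ + 1) ≤ 5 * x := by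
          calc (r : ℝ) * (‖((1 / 2 : ℝ) : ℂ) + t * I‖ + 1) ≤ (2 * F) * (1 / 2 + T + 1) := by
                refine mul_le_mul hrR (by linarith) (by positivity) (by positivity)
            _ ≤ (2 * F) * (5 / 2 * T) := by
                refine mul_le_mul_of_nonneg_left (by linarith) (by positivity)
            _ = 5 * x := by
                rw [hx]
                ring
        calc C1 * ((r : ℝ) * (‖((1 / 2 : ℝ) : ℂ) + t * I‖ + 1)) ^ (k + 1) * U ^ (-(k : ℝ))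
            ≤ C1 * (5 * x) ^ (k + 1) * U ^ (-(k : ℝ)) := by
              refine mul_le_mul_of_nonneg_right ?_ (by positivity)
              refine mul_le_mul_of_nonneg_left ?_ hC1
              exact pow_le_pow_left₀ (by positivity) hs3 _
          _ = C1 * ((5 * x) ^ (k + 1) * U ^ (-(k : ℝ))) := by ring
          _ ≤ C1 * (5 ^ (k + 1) * x ^ (-2 : ℝ)) :=
              mul_le_mul_of_nonneg_left (H12_err x e k hx1 hke) hC1
          _ = E * x ^ (-2 : ℝ) := by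
              rw [hE]
              ring
    refine h1.trans ?_
    rw [H12_pSum_add r (J r) (fun _ => 4 * T * E ^ 2) 2]
    have h2 := H12_const r (4 * T * E ^ 2) (by positivity)
    have h3 : (r : ℝ) * (4 * T * E ^ 2) ≤ (2 * F) * (4 * T * E ^ 2) :=
      mul_le_mul_of_nonneg_right hrR (by positivity)
    have h4 : (2 * (F : ℝ)) * (4 * T * E ^ 2) = 8 * E ^ 2 * F * T := by ring
    linarith
  -- sum over the moduli
  have hsum : ∑ r ∈ Finset.Ico F (2 * F), pSum r (J r)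
      ≤ 1000 * ∑ n ∈ Finset.Icc 1 (L * N),
        ‖H12_c (fun l => ((vv (l / U) * Real.log l : ℝ) : ℂ))
          (fun m => (ArithmeticFunction.moebius m : ℂ)) L N n * (n : ℂ) ^ (-((1 / 2 : ℝ) : ℂ))‖ ^ 2
          * (((2 * F : ℕ) : ℝ) ^ 2 * T + n) := by
    refine le_trans ?_ (hybrid_large_sieve (L * N) (2 * F) (by omega)
      (fun n => H12_c (fun l => ((vv (l / U) * Real.log l : ℝ) : ℂ))
          (fun m => (ArithmeticFunction.moebius m : ℂ)) L N n * (n : ℂ) ^ (-((1 / 2 : ℝ) : ℂ))) T hT)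
    refine Finset.sum_le_sum_of_subset_of_nonneg ?_ ?_
    · intro r hr
      rw [Finset.mem_Ico] at hr
      rw [Finset.mem_Icc]
      omega
    · intro r _ _
      exact H12_pSum_nonneg r _ (hJ0 r)
  set K : ℝ := ((L * N : ℕ) : ℝ) with hK
  have hK1 : 1 ≤ K := by
    have : 1 ≤ L * N := Nat.mul_pos hLpos hN
    rw [hK]
    exact_mod_cast this
  have hKb : K ≤ 3 * x ^ (1 + e) * N := by
    rw [hK, Nat.cast_mul]
    exact mul_le_mul_of_nonneg_right hL2 (Nat.cast_nonneg N)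
  obtain ⟨hp1, hp2, hp3⟩ := H12_pow x e K N hx1 he0 he1 (by linarith) hKb hNx (Nat.cast_nonneg N)
  have hcoef : ∀ n ∈ Finset.Icc 1 (L * N),
      ‖H12_c (fun l => ((vv (l / U) * Real.log l : ℝ) : ℂ))
          (fun m => (ArithmeticFunction.moebius m : ℂ)) L N n‖ ≤ D * K ^ e * (K ^ e / e) := by
    intro n hn
    obtain ⟨hn1, hn2⟩ := Finset.mem_Icc.mp hn
    refine (H12_norm _ _ L N n hn1 (K ^ e / e) (by positivity) ?_).trans ?_
    · intro l hl m hm
      have hl1 := (Finset.mem_Icc.mp hl).1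
      have hl2 := (Finset.mem_Icc.mp hl).2
      have h1 : ‖((ArithmeticFunction.moebius m : ℤ) : ℂ)‖ ≤ 1 := by
        rw [Complex.norm_intCast]
        exact_mod_cast ArithmeticFunction.abs_moebius_le_one
      have h2 : 0 ≤ Real.log l := Real.log_natCast_nonneg l
      have h3 : Real.log l ≤ K ^ e / e := by
        refine (Real.log_le_rpow_div (Nat.cast_nonneg l) he0).trans ?_
        refine div_le_div_of_nonneg_right ?_ he0.le
        refine Real.rpow_le_rpow (Nat.cast_nonneg l) ?_ he0.le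
        rw [hK]
        have h4 : l ≤ L * N := hl2.trans (Nat.le_mul_of_pos_right _ hN)
        exact_mod_cast h4
      have h5 := H12_vv ((l : ℝ) / U)
      rw [norm_mul, Complex.norm_real, Real.norm_eq_abs, abs_of_nonneg (mul_nonneg h5.1 h2)]
      calc vv ((l : ℝ) / U) * Real.log l * ‖((ArithmeticFunction.moebius m : ℤ) : ℂ)‖
          ≤ 1 * (K ^ e / e) * 1 := by
            refine mul_le_mul (mul_le_mul h5.2 h3 h2 zero_le_one) h1 (norm_nonneg _) (by positivity)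
        _ = K ^ e / e := by ring
    · refine mul_le_mul_of_nonneg_right ?_ (by positivity)
      refine (H11 n hn1).trans ?_
      refine mul_le_mul_of_nonneg_left ?_ hD
      refine Real.rpow_le_rpow (Nat.cast_nonneg n) ?_ he0.le
      rw [hK]
      exact_mod_cast hn2
  have hcs := H12_coefsum (L * N) _ (D * K ^ e * (K ^ e / e)) (((2 * F : ℕ) : ℝ) ^ 2) T
    (by positivity) (by linarith) hcoef
  have hHK : ∑ k ∈ Finset.Icc 1 (L * N), 1 / (k : ℝ) ≤ Hc * K ^ e :=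
    hH (L * N) (Nat.mul_pos hLpos hN)
  have hF2 : (((2 * F : ℕ) : ℝ)) ^ 2 = 4 * (F : ℝ) ^ 2 := by
    push_cast
    ring
  have hmain : (D * K ^ e * (K ^ e / e)) ^ 2 *
      ((((2 * F : ℕ) : ℝ)) ^ 2 * T * ∑ k ∈ Finset.Icc 1 (L * N), 1 / (k : ℝ) + ((L * N : ℕ) : ℝ))
      ≤ (D / e) ^ 2 * 243 * x ^ (20 * e) * (4 * Hc * ((F : ℝ) ^ 2 * T) + N * x) := by
    rw [hF2, ← hK]
    calc (D * K ^ e * (K ^ e / e)) ^ 2 *
        (4 * (F : ℝ) ^ 2 * T * ∑ k ∈ Finset.Icc 1 (L * N), 1 / (k : ℝ) + K)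
        ≤ (D * K ^ e * (K ^ e / e)) ^ 2 * (4 * (F : ℝ) ^ 2 * T * (Hc * K ^ e) + K) := by
          refine mul_le_mul_of_nonneg_left ?_ (by positivity)
          have := mul_le_mul_of_nonneg_left hHK (by positivity : 0 ≤ 4 * (F : ℝ) ^ 2 * T)
          linarith
      _ = (D / e) ^ 2 * (4 * Hc * ((F : ℝ) ^ 2 * T) * (K ^ e) ^ 5 + (K ^ e) ^ 4 * K) := by
          ring
      _ ≤ (D / e) ^ 2 * (4 * Hc * ((F : ℝ) ^ 2 * T) * (243 * x ^ (20 * e))
            + 243 * x ^ (20 * e) * (N * x)) := by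
          refine mul_le_mul_of_nonneg_left ?_ (by positivity)
          have := mul_le_mul_of_nonneg_left hp2 (by positivity : 0 ≤ 4 * Hc * ((F : ℝ) ^ 2 * T))
          linarith
      _ = _ := by ring
  have hW : x ^ (20 * e) ≤ x ^ κ := Real.rpow_le_rpow_of_exponent_le hx1 he2
  have hW1 : 1 ≤ x ^ κ := Real.one_le_rpow hx1 hκ.le
  have hFT : (0 : ℝ) ≤ (F : ℝ) ^ 2 * T := by positivity
  have hNx0 : (0 : ℝ) ≤ N * x := by positivity
  calc ∑ r ∈ Finset.Ico F (2 * F), pSum r (fun χ => ∫ t in (-T)..T,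
      ‖deriv (LF r χ) ((1 / 2 : ℝ) + t * I) * Mol N r χ ((1 / 2 : ℝ) + t * I)‖ ^ 2)
      ≤ ∑ r ∈ Finset.Ico F (2 * F), (2 * pSum r (J r) + 8 * E ^ 2 * F * T) :=
        Finset.sum_le_sum hmod
    _ = 2 * ∑ r ∈ Finset.Ico F (2 * F), pSum r (J r) + 8 * E ^ 2 * ((F : ℝ) ^ 2 * T) := by
        rw [Finset.sum_add_distrib, ← Finset.mul_sum, Finset.sum_const, Nat.card_Ico,
          nsmul_eq_mul]
        have : ((2 * F - F : ℕ) : ℝ) = F := by
          congr 1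
          omega
        rw [this]
        ring
    _ ≤ 2 * (1000 * ((D / e) ^ 2 * 243 * x ^ (20 * e) * (4 * Hc * ((F : ℝ) ^ 2 * T) + N * x)))
        + 8 * E ^ 2 * ((F : ℝ) ^ 2 * T) := by
        have := hsum.trans (mul_le_mul_of_nonneg_left (hcs.trans hmain) (by norm_num))
        linarith
    _ ≤ 2 * (1000 * ((D / e) ^ 2 * 243 * x ^ κ * ((4 * Hc + 1) * ((F : ℝ) ^ 2 * T + N * x))))
        + 8 * E ^ 2 * x ^ κ * ((F : ℝ) ^ 2 * T + N * x) := by
        refine add_le_add ?_ ?_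
        · refine mul_le_mul_of_nonneg_left ?_ (by norm_num)
          refine mul_le_mul_of_nonneg_left ?_ (by norm_num)
          refine mul_le_mul (mul_le_mul_of_nonneg_left hW (by positivity)) ?_ (by positivity)
            (by positivity)
          nlinarith [mul_nonneg hHc hNx0]
        · calc 8 * E ^ 2 * ((F : ℝ) ^ 2 * T) = 8 * E ^ 2 * 1 * ((F : ℝ) ^ 2 * T) := by ring
            _ ≤ 8 * E ^ 2 * x ^ κ * ((F : ℝ) ^ 2 * T + N * x) := by
              refine mul_le_mul (mul_le_mul_of_nonneg_left hW1 (by positivity)) (by linarith)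
                hFT (by positivity)
    _ = (8 * E ^ 2 + 2000 * (D / e) ^ 2 * 243 * (4 * Hc + 1)) * x ^ κ *
        ((F : ℝ) ^ 2 * T + N * x) := by ring
    _ = (8 * E ^ 2 + 2000 * (D / e) ^ 2 * 243 * (4 * Hc + 1)) * x ^ κ *
        ((F : ℝ) ^ 2 * T + N * F * T) := by
        rw [hx]
        ring

end Pool.Agent.MC.C2
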