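import Mathlib
import Pool.Agent.Lib.MP_9cfc0a_nt.Mg.G078
import Pool.Agent.Lib.MP_9cfc0a_nt.C2H6
import Pool.Agent.Lib.MP_9cfc0a_nt.C2H9d

/-!
H13 (meanB).  Uses the skeleton lemmas `smooth_approx` (H9d), `hybrid_large_sieve` (H6) and
`divisor_bound` (H11) of the namespace `Pool.Agent.MC.C2` (not copied here).
-/

set_option autoImplicit false

namespace Pool.Agent.MC.C2

open Pool.Agent.MC Pool.Agent.MC.C1 MeasureTheory Real Complex

lemma H13_vv_nonneg (x : ℝ) : 0 ≤ vv x := Real.smoothTransition.nonneg _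

lemma H13_vv_le_one (x : ℝ) : vv x ≤ 1 := Real.smoothTransition.le_one _

lemma H13_vv_one {x : ℝ} (hx : x ≤ 1) : vv x = 1 :=
  Real.smoothTransition.one_of_one_le (by linarith)

lemma H13_vv_zero {x : ℝ} (hx : 2 ≤ x) : vv x = 0 :=
  Real.smoothTransition.zero_of_nonpos (by linarith)

/-- The coefficients of the product `P * M`. -/
noncomputable def H13_b (N : ℕ) (U : ℝ) (k : ℕ) : ℝ :=
  ∑ m ∈ k.divisors.filter (fun m => m ≤ N),
    (ArithmeticFunction.moebius m : ℝ) * vv (((k / m : ℕ) : ℝ) / (U + N / m))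

lemma H13_abs_moebius_le (m : ℕ) : |(ArithmeticFunction.moebius m : ℝ)| ≤ 1 := by
  have h := ArithmeticFunction.abs_moebius_le_one (n := m)
  exact_mod_cast h

lemma H13_b_le (N : ℕ) (U : ℝ) (k : ℕ) : |H13_b N U k| ≤ (k.divisors.card : ℝ) := by
  unfold H13_b
  refine (Finset.abs_sum_le_sum_abs _ _).trans ?_
  calc ∑ m ∈ k.divisors.filter (fun m => m ≤ N),
        |(ArithmeticFunction.moebius m : ℝ) * vv (((k / m : ℕ) : ℝ) / (U + N / m))|
      ≤ ∑ m ∈ k.divisors.filter (fun m => m ≤ N), (1 : ℝ) := by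
        refine Finset.sum_le_sum fun m _ => ?_
        rw [abs_mul, abs_of_nonneg (H13_vv_nonneg _)]
        exact mul_le_one₀ (H13_abs_moebius_le m) (H13_vv_nonneg _) (H13_vv_le_one _)
    _ = ((k.divisors.filter (fun m => m ≤ N)).card : ℝ) := by simp
    _ ≤ (k.divisors.card : ℝ) := by
        exact_mod_cast Finset.card_le_card (Finset.filter_subset _ _)

lemma H13_b_small (N : ℕ) (U : ℝ) (hU : 0 ≤ U) (k : ℕ) (hk1 : 1 ≤ k) (hk : k ≤ N) :
    H13_b N U k = if k = 1 then 1 else 0 := by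
  unfold H13_b
  have h1 : k.divisors.filter (fun m => m ≤ N) = k.divisors := by
    refine Finset.filter_true_of_mem fun m hm => ?_
    exact (Nat.divisor_le hm).trans hk
  rw [h1]
  have h2 : ∀ m ∈ k.divisors, (ArithmeticFunction.moebius m : ℝ) *
      vv (((k / m : ℕ) : ℝ) / (U + N / m)) = (ArithmeticFunction.moebius m : ℝ) := by
    intro m hm
    have hm0 : 0 < m := Nat.pos_of_mem_divisors hm
    have hm0' : (0 : ℝ) < m := by exact_mod_cast hm0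
    have hN : (1 : ℝ) ≤ N := by exact_mod_cast hk1.trans hk
    have h3 : ((k / m : ℕ) : ℝ) / (U + N / m) ≤ 1 := by
      have h4 : 0 < U + N / m := by
        have : 0 < (N : ℝ) / m := by positivity
        linarith
      rw [div_le_one h4]
      have h5 : ((k / m : ℕ) : ℝ) ≤ (k : ℝ) / m := Nat.cast_div_le
      have h6 : (k : ℝ) / m ≤ (N : ℝ) / m := by
        have : (k : ℝ) ≤ N := by exact_mod_cast hk
        gcongr
      linarith
    rw [H13_vv_one h3, mul_one]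
  rw [Finset.sum_congr rfl h2]
  have h7 := ArithmeticFunction.coe_mul_zeta_apply (f := ArithmeticFunction.moebius) (x := k)
  rw [ArithmeticFunction.moebius_mul_coe_zeta, ArithmeticFunction.one_apply] at h7
  have h8 : ((∑ m ∈ k.divisors, ArithmeticFunction.moebius m : ℤ) : ℝ)
      = ((if k = 1 then (1 : ℤ) else 0 : ℤ) : ℝ) := by rw [h7]
  rw [Int.cast_sum] at h8
  rw [h8]
  split_ifs <;> simp

lemma H13_b_large (N : ℕ) (U : ℝ) (hU : 0 < U) (k : ℕ)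
    (hk : 2 * (N * U + N) ≤ k) : H13_b N U k = 0 := by
  unfold H13_b
  refine Finset.sum_eq_zero fun m hm => ?_
  rw [Finset.mem_filter, Nat.mem_divisors] at hm
  obtain ⟨⟨hmk, hk0⟩, hmN⟩ := hm
  have hm0 : 0 < m := Nat.pos_of_dvd_of_pos hmk (Nat.pos_of_ne_zero hk0)
  have hm0' : (0 : ℝ) < m := by exact_mod_cast hm0
  have hmN' : (m : ℝ) ≤ N := by exact_mod_cast hmN
  have h1 : ((k / m : ℕ) : ℝ) = (k : ℝ) / m := Nat.cast_div hmk hm0'.ne'
  have h2 : 0 ≤ (N : ℝ) / m := by positivity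
  have h3 : 0 < U + N / m := by linarith
  rw [H13_vv_zero, mul_zero]
  rw [h1, le_div_iff₀ h3, le_div_iff₀ hm0']
  have h4 : 2 * (U + N / m) * m = 2 * (m * U + N) := by
    field_simp
  rw [h4]
  have h5 : (m : ℝ) * U ≤ N * U := by gcongr
  linarith

lemma H13_prod (N r : ℕ) (χ : DirichletCharacter ℂ r) (s : ℂ) (U : ℝ) (hU : 0 < U)
    (N' : ℕ) (hN' : 2 * (U + N) ≤ N') :
    ∑ m ∈ Finset.Icc 1 N, (ArithmeticFunction.moebius m : ℂ) * χ m * (m : ℂ) ^ (-s) *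
      (∑ l ∈ Finset.Icc 1 N', χ l * ((vv (l / (U + N / m)) : ℝ) : ℂ) * (l : ℂ) ^ (-s))
      = ∑ k ∈ Finset.Icc 1 (N * N'), ((H13_b N U k : ℝ) : ℂ) * χ k * (k : ℂ) ^ (-s) := by
  have hr : ∀ k ∈ Finset.Icc 1 (N * N'), ((H13_b N U k : ℝ) : ℂ) * χ k * (k : ℂ) ^ (-s)
      = ∑ m ∈ Finset.Icc 1 N, if m ∣ k then ((ArithmeticFunction.moebius m : ℝ) *
        vv (((k / m : ℕ) : ℝ) / (U + N / m)) : ℝ) * χ k * (k : ℂ) ^ (-s) else 0 := by
    intro k hk
    rw [Finset.mem_Icc] at hk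
    unfold H13_b
    push_cast
    rw [Finset.sum_mul, Finset.sum_mul, ← Finset.sum_filter]
    refine Finset.sum_congr ?_ fun m _ => rfl
    ext m
    rw [Finset.mem_filter, Finset.mem_filter, Nat.mem_divisors, Finset.mem_Icc]
    constructor
    · rintro ⟨⟨h1, h2⟩, h3⟩
      exact ⟨⟨Nat.pos_of_dvd_of_pos h1 (by omega), h3⟩, h1⟩
    · rintro ⟨⟨h1, h2⟩, h3⟩
      exact ⟨⟨h3, by omega⟩, h2⟩
  rw [Finset.sum_congr rfl hr, Finset.sum_comm]
  refine Finset.sum_congr rfl fun m hm => ?_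
  rw [Finset.mem_Icc] at hm
  have hm0' : (0 : ℝ) < m := by exact_mod_cast hm.1
  rw [← Finset.sum_filter]
  have hN1 : N' ≤ N * N' / m := by
    rw [Nat.le_div_iff_mul_le hm.1, mul_comm]
    exact Nat.mul_le_mul_right _ hm.2
  -- reindex
  have h1 : ∑ k ∈ (Finset.Icc 1 (N * N')).filter (fun k => m ∣ k),
      ((((ArithmeticFunction.moebius m : ℝ) *
        vv (((k / m : ℕ) : ℝ) / (U + N / m)) : ℝ) : ℂ) * χ k * (k : ℂ) ^ (-s))
      = ∑ l ∈ Finset.Icc 1 (N * N' / m), ((((ArithmeticFunction.moebius m : ℝ) *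
        vv ((l : ℝ) / (U + N / m)) : ℝ) : ℂ) * χ ((m * l : ℕ) : ZMod r) *
          ((m * l : ℕ) : ℂ) ^ (-s)) := by
    symm
    refine Finset.sum_bij (fun l _ => m * l) ?_ ?_ ?_ ?_
    · intro l hl
      rw [Finset.mem_Icc] at hl
      rw [Finset.mem_filter, Finset.mem_Icc]
      have h2 : m * l ≤ N * N' := by
        have := (Nat.le_div_iff_mul_le hm.1).1 hl.2
        rwa [mul_comm]
      exact ⟨⟨Nat.mul_pos hm.1 hl.1, h2⟩, Dvd.intro l rfl⟩
    · intro a _ b _ hab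
      exact Nat.eq_of_mul_eq_mul_left hm.1 hab
    · intro k hk
      rw [Finset.mem_filter, Finset.mem_Icc] at hk
      obtain ⟨⟨hk1, hk2⟩, l, rfl⟩ := hk
      refine ⟨l, ?_, rfl⟩
      rw [Finset.mem_Icc]
      refine ⟨Nat.pos_of_ne_zero ?_, ?_⟩
      · rintro rfl
        simp at hk1
      · rw [Nat.le_div_iff_mul_le hm.1, mul_comm]
        exact hk2
    · intro l _
      rw [Nat.mul_div_cancel_left l hm.1]
  have h2 : ∑ l ∈ Finset.Icc 1 N', ((((ArithmeticFunction.moebius m : ℝ) *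
        vv ((l : ℝ) / (U + N / m)) : ℝ) : ℂ) * χ ((m * l : ℕ) : ZMod r) *
          ((m * l : ℕ) : ℂ) ^ (-s))
      = ∑ l ∈ Finset.Icc 1 (N * N' / m), ((((ArithmeticFunction.moebius m : ℝ) *
        vv ((l : ℝ) / (U + N / m)) : ℝ) : ℂ) * χ ((m * l : ℕ) : ZMod r) *
          ((m * l : ℕ) : ℂ) ^ (-s)) := by
    apply Finset.sum_subset
    · intro l hl
      rw [Finset.mem_Icc] at hl ⊢
      exact ⟨hl.1, hl.2.trans hN1⟩
    · intro l hl hl'
      rw [Finset.mem_Icc] at hl hl'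
      have h5 : (N' : ℝ) ≤ l := by
        have : N' < l := by
          by_contra h
          exact hl' ⟨hl.1, by omega⟩
        exact_mod_cast this.le
      have h6 : (N : ℝ) / m ≤ N := by
        have h7 : (1 : ℝ) ≤ m := by exact_mod_cast hm.1
        exact div_le_self (Nat.cast_nonneg N) h7
      have h8 : 0 ≤ (N : ℝ) / m := by positivity
      rw [H13_vv_zero, mul_zero]
      · simp
      · rw [le_div_iff₀ (by linarith)]
        linarith
  rw [h1, ← h2, Finset.mul_sum]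
  refine Finset.sum_congr rfl fun l hl => ?_
  have h3 : ((m * l : ℕ) : ℂ) ^ (-s) = (m : ℂ) ^ (-s) * (l : ℂ) ^ (-s) := by
    rw [Nat.cast_mul, Complex.natCast_mul_natCast_cpow]
  have h4 : χ ((m * l : ℕ) : ZMod r) = χ m * χ l := by
    rw [Nat.cast_mul, map_mul]
  rw [h3, h4]
  push_cast
  ring

lemma H13_norm_cpow_le (m : ℕ) (hm : 1 ≤ m) (s : ℂ) (hs : 0 ≤ s.re) : ‖(m : ℂ) ^ (-s)‖ ≤ 1 := by
  rw [Complex.norm_natCast_cpow_of_pos hm]
  have h1 : (1 : ℝ) ≤ m := by exact_mod_cast hm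
  exact Real.rpow_le_one_of_one_le_of_nonpos h1 (by simpa using hs)

lemma H13_approx (k : ℕ) (C : ℝ) (hC0 : 0 ≤ C) (r : ℕ) [NeZero r] (χ : DirichletCharacter ℂ r)
    (s : ℂ) (hs : 0 ≤ s.re)
    (hC : ∀ U : ℝ, 1 ≤ U → ∀ N : ℕ, 2 * U ≤ N →
      ‖χ.LFunction s - ∑ n ∈ Finset.Icc 1 N, χ n * ((vv (n / U) : ℝ) : ℂ) * (n : ℂ) ^ (-s)‖
      ≤ C * ((r : ℝ) * (‖s‖ + 1)) ^ (k + 1) * U ^ (-(k : ℝ)))
    (U : ℝ) (hU : 1 ≤ U) (N : ℕ) (hN : 1 ≤ N) (N' : ℕ) (hN' : 2 * (U + N) ≤ N') :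
    ‖1 - χ.LFunction s * Mol N r χ s
      + ∑ j ∈ Finset.Ioc N (N * N'), ((H13_b N U j : ℝ) : ℂ) * χ j * (j : ℂ) ^ (-s)‖
      ≤ N * (C * ((r : ℝ) * (‖s‖ + 1)) ^ (k + 1) * U ^ (-(k : ℝ))) := by
  set P : ℕ → ℂ := fun m => ∑ l ∈ Finset.Icc 1 N', χ l * ((vv (l / (U + N / m)) : ℝ) : ℂ) *
    (l : ℂ) ^ (-s) with hP
  set B : ℝ := C * ((r : ℝ) * (‖s‖ + 1)) ^ (k + 1) * U ^ (-(k : ℝ)) with hB
  have hN'1 : 1 ≤ N' := by
    have h1 : (0 : ℝ) < N' := by
      have : (0 : ℝ) ≤ N := Nat.cast_nonneg N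
      linarith
    exact_mod_cast h1
  have hE : ∀ m ∈ Finset.Icc 1 N, ‖χ.LFunction s - P m‖ ≤ B := by
    intro m hm
    rw [Finset.mem_Icc] at hm
    have hm1 : (1 : ℝ) ≤ m := by exact_mod_cast hm.1
    have h1 : (0 : ℝ) ≤ (N : ℝ) / m := by positivity
    have h2 : (N : ℝ) / m ≤ N := div_le_self (Nat.cast_nonneg N) hm1
    refine (hC (U + N / m) (by linarith) N' (by linarith)).trans ?_
    rw [hB]
    have h3 : (U + N / m) ^ (-(k : ℝ)) ≤ U ^ (-(k : ℝ)) := by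
      apply Real.rpow_le_rpow_of_nonpos (by linarith) (by linarith)
      have : (0 : ℝ) ≤ k := Nat.cast_nonneg k
      linarith
    gcongr
  have hprod := H13_prod N r χ s U (by linarith) N' hN'
  have hsplit : ∑ j ∈ Finset.Icc 1 (N * N'), ((H13_b N U j : ℝ) : ℂ) * χ j * (j : ℂ) ^ (-s)
      = 1 + ∑ j ∈ Finset.Ioc N (N * N'), ((H13_b N U j : ℝ) : ℂ) * χ j * (j : ℂ) ^ (-s) := by
    have h1 : Finset.Icc 1 (N * N') = Finset.Icc 1 N ∪ Finset.Ioc N (N * N') := by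
      have h2 : N ≤ N * N' := Nat.le_mul_of_pos_right N hN'1
      ext n
      simp only [Finset.mem_Icc, Finset.mem_union, Finset.mem_Ioc]
      omega
    have h3 : Disjoint (Finset.Icc 1 N) (Finset.Ioc N (N * N')) := by
      rw [Finset.disjoint_left]
      intro n hn hn'
      rw [Finset.mem_Icc] at hn
      rw [Finset.mem_Ioc] at hn'
      omega
    rw [h1, Finset.sum_union h3]
    congr 1
    rw [Finset.sum_eq_single 1]
    · rw [H13_b_small N U (by linarith) 1 le_rfl hN]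
      simp
    · intro j hj hj1
      rw [Finset.mem_Icc] at hj
      rw [H13_b_small N U (by linarith) j hj.1 hj.2, if_neg hj1]
      simp
    · intro h
      exact absurd (Finset.mem_Icc.2 ⟨le_rfl, hN⟩) h
  have hmain : 1 - χ.LFunction s * Mol N r χ s
      + ∑ j ∈ Finset.Ioc N (N * N'), ((H13_b N U j : ℝ) : ℂ) * χ j * (j : ℂ) ^ (-s)
      = - ∑ m ∈ Finset.Icc 1 N, (ArithmeticFunction.moebius m : ℂ) * χ m * (m : ℂ) ^ (-s) *
        (χ.LFunction s - P m) := by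
    have h4 : ∑ m ∈ Finset.Icc 1 N, (ArithmeticFunction.moebius m : ℂ) * χ m * (m : ℂ) ^ (-s) *
        (χ.LFunction s - P m) = χ.LFunction s * Mol N r χ s -
        ∑ m ∈ Finset.Icc 1 N, (ArithmeticFunction.moebius m : ℂ) * χ m * (m : ℂ) ^ (-s) * P m := by
      rw [Mol, Finset.mul_sum, ← Finset.sum_sub_distrib]
      refine Finset.sum_congr rfl fun m _ => ?_
      ring
    rw [h4, hprod, hsplit]
    ring
  rw [hmain, norm_neg]
  refine (norm_sum_le _ _).trans ?_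
  calc ∑ m ∈ Finset.Icc 1 N, ‖(ArithmeticFunction.moebius m : ℂ) * χ m * (m : ℂ) ^ (-s) *
        (χ.LFunction s - P m)‖ ≤ ∑ m ∈ Finset.Icc 1 N, B := by
        refine Finset.sum_le_sum fun m hm => ?_
        have hm' := Finset.mem_Icc.1 hm
        rw [norm_mul, norm_mul, norm_mul]
        have h5 : ‖(ArithmeticFunction.moebius m : ℂ)‖ ≤ 1 := by
          have := H13_abs_moebius_le m
          rw [← Real.norm_eq_abs] at this
          simpa using this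
        have h6 := χ.norm_le_one (m : ZMod r)
        have h7 := H13_norm_cpow_le m hm'.1 s hs
        have h8 := hE m hm
        have h9 : ‖(ArithmeticFunction.moebius m : ℂ)‖ * ‖χ (m : ZMod r)‖ * ‖(m : ℂ) ^ (-s)‖ ≤ 1 := by
          apply mul_le_one₀ (mul_le_one₀ h5 (norm_nonneg _) h6) (norm_nonneg _) h7
        calc _ ≤ 1 * B := mul_le_mul h9 h8 (norm_nonneg _) zero_le_one
          _ = B := one_mul B
    _ = N * B := by simp

lemma H13_sum1 (p : ℝ) (hp : 0 < p) (N : ℕ) (hN : 1 ≤ N) (K : ℕ) :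
    ∑ j ∈ Finset.Ioc N K, (j : ℝ) ^ (-p - 1) ≤ 1 / p * (N : ℝ) ^ (-p) := by
  have hN0 : (0 : ℝ) < N := by exact_mod_cast hN
  rcases le_or_gt N K with h | h
  · have key : ∑ j ∈ Finset.Ioc N K, (j : ℝ) ^ (-p - 1)
        ≤ 1 / p * ((N : ℝ) ^ (-p) - (K : ℝ) ^ (-p)) := by
      induction K, h using Nat.le_induction with
      | base => simp
      | succ K hK ih =>
        rw [Finset.sum_Ioc_succ_top (by omega)]
        have hK0 : (0 : ℝ) < K := by
          have : 1 ≤ K := hN.trans hK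
          exact_mod_cast this
        have h1 : ((K + 1 : ℕ) : ℝ) = (K : ℝ) + 1 := by push_cast; ring
        rw [h1]
        have h2 : p * ((K : ℝ) + 1) ^ (-p - 1) ≤ (K : ℝ) ^ (-p) - ((K : ℝ) + 1) ^ (-p) := by
          have h3 : (K : ℝ) ^ (-p) = ((K : ℝ) + 1) ^ (-p) * ((K : ℝ) / (K + 1)) ^ (-p) := by
            rw [← Real.mul_rpow (by positivity) (by positivity)]
            congr 1
            field_simp
          have h4 : 1 + p / ((K : ℝ) + 1) ≤ ((K : ℝ) / (K + 1)) ^ (-p) := by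
            rw [Real.rpow_def_of_pos (by positivity)]
            have h5 := Real.add_one_le_exp (Real.log ((K : ℝ) / (K + 1)) * -p)
            have h6 := Real.log_le_sub_one_of_pos (x := (K : ℝ) / (K + 1)) (by positivity)
            have h7 : (K : ℝ) / (K + 1) - 1 = - (1 / ((K : ℝ) + 1)) := by
              field_simp
              ring
            rw [h7] at h6
            have h8 : p / ((K : ℝ) + 1) = p * (1 / ((K : ℝ) + 1)) := by ring
            rw [h8]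
            nlinarith
          have h9 : ((K : ℝ) + 1) ^ (-p - 1) = ((K : ℝ) + 1) ^ (-p) / ((K : ℝ) + 1) := by
            rw [Real.rpow_sub_one (by positivity)]
          rw [h3, h9]
          have h10 : 0 < ((K : ℝ) + 1) ^ (-p) := by positivity
          have h11 := mul_le_mul_of_nonneg_left h4 h10.le
          have h12 : p * (((K : ℝ) + 1) ^ (-p) / ((K : ℝ) + 1))
              = ((K : ℝ) + 1) ^ (-p) * (1 + p / ((K : ℝ) + 1)) - ((K : ℝ) + 1) ^ (-p) := by ring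
          rw [h12]
          linarith
        have h3 : ((K : ℝ) + 1) ^ (-p - 1) ≤ 1 / p * ((K : ℝ) ^ (-p) - ((K : ℝ) + 1) ^ (-p)) := by
          rw [one_div, ← div_eq_inv_mul, le_div_iff₀ hp]
          linarith
        calc _ ≤ 1 / p * ((N : ℝ) ^ (-p) - (K : ℝ) ^ (-p))
            + 1 / p * ((K : ℝ) ^ (-p) - ((K : ℝ) + 1) ^ (-p)) := add_le_add ih h3
          _ = _ := by ring
    refine key.trans ?_
    have h1 : 0 ≤ (K : ℝ) ^ (-p) := by positivity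
    have h2 : 0 < 1 / p := by positivity
    nlinarith
  · rw [Finset.Ioc_eq_empty (by omega)]
    simp only [Finset.sum_empty]
    positivity

lemma H13_sum2 (q : ℝ) (hq : 0 < q) (hq1 : q ≤ 1) (K : ℕ) :
    ∑ j ∈ Finset.Icc 1 K, (j : ℝ) ^ (q - 1) ≤ 1 / q * (K : ℝ) ^ q := by
  induction K with
  | zero => simp; positivity
  | succ K ih =>
    rw [Finset.sum_Icc_succ_top (by omega)]
    have h1 : ((K + 1 : ℕ) : ℝ) = (K : ℝ) + 1 := by push_cast; ring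
    rw [h1]
    have hK0 : (0 : ℝ) ≤ K := Nat.cast_nonneg K
    have h2 : q * ((K : ℝ) + 1) ^ (q - 1) ≤ ((K : ℝ) + 1) ^ q - (K : ℝ) ^ q := by
      have h3 : (K : ℝ) ^ q = ((K : ℝ) + 1) ^ q * ((K : ℝ) / (K + 1)) ^ q := by
        rw [← Real.mul_rpow (by positivity) (by positivity)]
        congr 1
        field_simp
      have h4 : ((K : ℝ) / (K + 1)) ^ q ≤ 1 - q / ((K : ℝ) + 1) := by
        have h5 := rpow_one_add_le_one_add_mul_self (s := -(1 / ((K : ℝ) + 1))) (by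
          have : 1 / ((K : ℝ) + 1) ≤ 1 := by
            rw [div_le_one (by positivity)]
            linarith
          linarith) hq.le hq1
        have h6 : 1 + -(1 / ((K : ℝ) + 1)) = (K : ℝ) / (K + 1) := by
          field_simp
          ring
        rw [h6] at h5
        have h7 : 1 + q * -(1 / ((K : ℝ) + 1)) = 1 - q / ((K : ℝ) + 1) := by ring
        rwa [h7] at h5
      have h9 : ((K : ℝ) + 1) ^ (q - 1) = ((K : ℝ) + 1) ^ q / ((K : ℝ) + 1) := by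
        rw [Real.rpow_sub_one (by positivity)]
      rw [h3, h9]
      have h10 : 0 < ((K : ℝ) + 1) ^ q := by positivity
      have h11 := mul_le_mul_of_nonneg_left h4 h10.le
      have h12 : q * (((K : ℝ) + 1) ^ q / ((K : ℝ) + 1))
          = ((K : ℝ) + 1) ^ q - ((K : ℝ) + 1) ^ q * (1 - q / ((K : ℝ) + 1)) := by ring
      rw [h12]
      linarith
    have h3 : ((K : ℝ) + 1) ^ (q - 1) ≤ 1 / q * (((K : ℝ) + 1) ^ q - (K : ℝ) ^ q) := by
      rw [one_div, ← div_eq_inv_mul, le_div_iff₀ hq]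
      linarith
    calc _ ≤ 1 / q * (K : ℝ) ^ q + 1 / q * (((K : ℝ) + 1) ^ q - (K : ℝ) ^ q) := add_le_add ih h3
      _ = _ := by ring

lemma H13_cont_poly (K : ℕ) (a : ℕ → ℂ) (z w : ℂ) :
    Continuous (fun t : ℝ => ∑ n ∈ Finset.Icc 1 K, a n * (n : ℂ) ^ (-(z + (t : ℂ) * w))) := by
  refine continuous_finsetSum _ fun n hn => ?_
  rw [Finset.mem_Icc] at hn
  refine continuous_const.mul ?_
  refine Continuous.const_cpow (by fun_prop) (Or.inl ?_)
  exact_mod_cast (by omega : n ≠ 0)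

lemma H13_char (r : ℕ) [NeZero r] (χ : DirichletCharacter ℂ r) (hχ : χ ≠ 1) (σ T : ℝ)
    (hT : 0 ≤ T) (N K : ℕ) (c : ℕ → ℂ) (τ : ℝ)
    (h : ∀ t : ℝ, |t| ≤ T →
      ‖1 - χ.LFunction ((σ : ℂ) + t * I) * Mol N r χ ((σ : ℂ) + t * I)‖ ≤
      ‖∑ n ∈ Finset.Icc 1 K, c n * χ n * (n : ℂ) ^ (-((t : ℂ) * I))‖ + τ) :
    ∫ t in (-T)..T, ‖1 - LF r χ ((σ : ℂ) + t * I) * Mol N r χ ((σ : ℂ) + t * I)‖ ^ 2
      ≤ 2 * (∫ t in (-T)..T, ‖∑ n ∈ Finset.Icc 1 K, c n * χ n * (n : ℂ) ^ (-((t : ℂ) * I))‖ ^ 2)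
        + 4 * T * τ ^ 2 := by
  have hr : r ≠ 0 := NeZero.ne r
  have hLF : ∀ s : ℂ, LF r χ s = χ.LFunction s := by
    intro s
    unfold LF
    rw [dif_neg hr]
  simp only [hLF]
  have hM : Continuous (fun t : ℝ => Mol N r χ ((σ : ℂ) + t * I)) :=
    H13_cont_poly N (fun m => (ArithmeticFunction.moebius m : ℂ) * χ m) (σ : ℂ) I
  have hL : Continuous (fun t : ℝ => χ.LFunction ((σ : ℂ) + t * I)) :=
    (DirichletCharacter.differentiable_LFunction hχ).continuous.comp (by fun_prop)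
  have hc1 : Continuous (fun t : ℝ =>
      ‖1 - χ.LFunction ((σ : ℂ) + t * I) * Mol N r χ ((σ : ℂ) + t * I)‖ ^ 2) :=
    ((continuous_const.sub (hL.mul hM)).norm).pow 2
  have hc2 : Continuous (fun t : ℝ =>
      ‖∑ n ∈ Finset.Icc 1 K, c n * χ n * (n : ℂ) ^ (-((t : ℂ) * I))‖ ^ 2) := by
    have h1 := H13_cont_poly K (fun n => c n * χ n) 0 I
    simp only [zero_add] at h1
    exact h1.norm.pow 2
  have hint2 : IntervalIntegrable (fun t : ℝ =>
      2 * ‖∑ n ∈ Finset.Icc 1 K, c n * χ n * (n : ℂ) ^ (-((t : ℂ) * I))‖ ^ 2) volume (-T) T :=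
    (continuous_const.mul hc2).intervalIntegrable _ _
  have hint3 : IntervalIntegrable (fun _ : ℝ => 2 * τ ^ 2) volume (-T) T :=
    continuous_const.intervalIntegrable _ _
  calc _ ≤ ∫ t in (-T)..T, (2 * ‖∑ n ∈ Finset.Icc 1 K, c n * χ n *
        (n : ℂ) ^ (-((t : ℂ) * I))‖ ^ 2 + 2 * τ ^ 2) := by
        refine intervalIntegral.integral_mono_on (by linarith) (hc1.intervalIntegrable _ _)
          (hint2.add hint3) fun t ht => ?_
        have h1 := h t (abs_le.2 ⟨ht.1, ht.2⟩)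
        set x := ‖∑ n ∈ Finset.Icc 1 K, c n * χ n * (n : ℂ) ^ (-((t : ℂ) * I))‖
        set y := ‖1 - χ.LFunction ((σ : ℂ) + t * I) * Mol N r χ ((σ : ℂ) + t * I)‖
        have h2 : 0 ≤ y := norm_nonneg _
        calc y ^ 2 ≤ (x + τ) ^ 2 := by gcongr
          _ ≤ 2 * x ^ 2 + 2 * τ ^ 2 := by nlinarith [sq_nonneg (x - τ)]
    _ = _ := by
        rw [intervalIntegral.integral_add hint2 hint3, intervalIntegral.integral_const_mul,
          intervalIntegral.integral_const, smul_eq_mul]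
        ring

/-- The number of primitive characters. -/
lemma H13_pSum_add (r : ℕ) (hr : 1 ≤ r) (f g : DirichletCharacter ℂ r → ℝ) (a b : ℝ) (hb : 0 ≤ b)
    (h : ∀ χ : DirichletCharacter ℂ r, χ.IsPrimitive → f χ ≤ a * g χ + b) :
    pSum r f ≤ a * pSum r g + r * b := by
  classical
  have : NeZero r := ⟨by omega⟩
  rw [P4_pSum, P4_pSum]
  calc _ ≤ ∑ χ ∈ Finset.univ.filter (fun χ : DirichletCharacter ℂ r => χ.IsPrimitive),
        (a * g χ + b) := Finset.sum_le_sum fun χ hχ => h χ (Finset.mem_filter.1 hχ).2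
    _ = a * ∑ χ ∈ Finset.univ.filter (fun χ : DirichletCharacter ℂ r => χ.IsPrimitive), g χ
        + ((Finset.univ.filter (fun χ : DirichletCharacter ℂ r => χ.IsPrimitive)).card : ℝ) * b := by
        rw [Finset.sum_add_distrib, ← Finset.mul_sum, Finset.sum_const, nsmul_eq_mul]
    _ ≤ _ := by
        have h1 : (Finset.univ.filter (fun χ : DirichletCharacter ℂ r => χ.IsPrimitive)).card ≤ r := by
          refine (Finset.card_le_card (Finset.filter_subset _ _)).trans ?_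
          rw [Finset.card_univ, ← Nat.card_eq_fintype_card,
            DirichletCharacter.card_eq_totient_of_hasEnoughRootsOfUnity]
          exact Nat.totient_le r
        have h2 : ((Finset.univ.filter (fun χ : DirichletCharacter ℂ r => χ.IsPrimitive)).card : ℝ)
            ≤ r := by exact_mod_cast h1
        have h3 := mul_le_mul_of_nonneg_right h2 hb
        linarith

lemma H13_prim_ne_one (r : ℕ) (hr : 2 ≤ r) (χ : DirichletCharacter ℂ r) (hχ : χ.IsPrimitive) :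
    χ ≠ 1 := by
  have : NeZero r := ⟨by omega⟩
  intro h
  have h1 := DirichletCharacter.conductor_one (R := ℂ) (n := r)
  rw [DirichletCharacter.isPrimitive_def, h, h1] at hχ
  omega

/-- The coefficients. -/
noncomputable def H13_c (σ : ℝ) (N : ℕ) (U : ℝ) (n : ℕ) : ℂ :=
  if N < n then ((H13_b N U n * (n : ℝ) ^ (-σ) : ℝ) : ℂ) else 0

lemma H13_coeff (σ : ℝ) (hσ : 1 / 2 < σ) (hσ1 : σ < 1) (δ : ℝ) (hδ : 0 < δ) (D : ℝ)
    (hD0 : 0 ≤ D) (hD : ∀ n : ℕ, 1 ≤ n → (n.divisors.card : ℝ) ≤ D * (n : ℝ) ^ δ)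
    (N : ℕ) (hN : 1 ≤ N) (U : ℝ) (hU : 1 ≤ U) (K : ℕ) (Y : ℝ) (hY : 0 ≤ Y) :
    ∑ n ∈ Finset.Icc 1 K, ‖H13_c σ N U n‖ ^ 2 * (Y + n)
      ≤ D ^ 2 * (2 * (N * U + N)) ^ (2 * δ) * (1 / (2 * σ - 1) * (N : ℝ) ^ (1 - 2 * σ) * Y
        + 1 / (2 - 2 * σ) * (2 * (N * U + N)) ^ (2 - 2 * σ)) := by
  set W : ℝ := 2 * (N * U + N) with hW
  have hN1 : (1 : ℝ) ≤ N := by exact_mod_cast hN
  have hW1 : 1 ≤ W := by
    rw [hW]
    nlinarith
  have hW0 : 0 < W := by linarith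
  set K₁ : ℕ := ⌊W⌋₊ with hK₁
  have hK₁W : (K₁ : ℝ) ≤ W := Nat.floor_le hW0.le
  set E : ℝ := D ^ 2 * W ^ (2 * δ) with hE
  have hE0 : 0 ≤ E := by positivity
  have h1 : ∀ n ∈ Finset.Icc 1 K, ‖H13_c σ N U n‖ ^ 2 * (Y + n)
      ≤ if N < n ∧ n ≤ K₁ then E * ((n : ℝ) ^ (-(2 * σ - 1) - 1) * Y + (n : ℝ) ^ ((2 - 2 * σ) - 1))
        else 0 := by
    intro n hn
    rw [Finset.mem_Icc] at hn
    have hn0 : (0 : ℝ) < n := by exact_mod_cast hn.1
    unfold H13_c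
    by_cases hNn : N < n
    · by_cases hnK : n ≤ K₁
      · rw [if_pos hNn, if_pos ⟨hNn, hnK⟩, Complex.norm_real, Real.norm_eq_abs, sq_abs, mul_pow]
        have h2 : (H13_b N U n) ^ 2 ≤ E := by
          have h3 := H13_b_le N U n
          have h4 := hD n hn.1
          have h5 : (n : ℝ) ^ δ ≤ W ^ δ := by
            apply Real.rpow_le_rpow hn0.le _ hδ.le
            have : (n : ℝ) ≤ K₁ := by exact_mod_cast hnK
            linarith
          have h6 : |H13_b N U n| ≤ D * W ^ δ :=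
            h3.trans (h4.trans (mul_le_mul_of_nonneg_left h5 hD0))
          have h7 : (H13_b N U n) ^ 2 ≤ (D * W ^ δ) ^ 2 := by
            rw [← sq_abs]
            exact pow_le_pow_left₀ (abs_nonneg _) h6 2
          refine h7.trans (le_of_eq ?_)
          rw [mul_pow, hE, ← Real.rpow_natCast (W ^ δ), ← Real.rpow_mul hW0.le]
          push_cast
          rw [mul_comm δ 2]
        have h8 : ((n : ℝ) ^ (-σ)) ^ 2 = (n : ℝ) ^ (-(2 * σ - 1) - 1) := by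
          rw [← Real.rpow_natCast, ← Real.rpow_mul hn0.le]
          congr 1
          push_cast
          ring
        have h9 : (n : ℝ) ^ ((2 - 2 * σ) - 1) = (n : ℝ) ^ (-(2 * σ - 1) - 1) * n := by
          rw [← Real.rpow_add_one hn0.ne']
          congr 1
          ring
        rw [h8, h9]
        have h10 : 0 ≤ (n : ℝ) ^ (-(2 * σ - 1) - 1) * (Y + n) := by positivity
        calc (H13_b N U n) ^ 2 * (n : ℝ) ^ (-(2 * σ - 1) - 1) * (Y + n)
            = (H13_b N U n) ^ 2 * ((n : ℝ) ^ (-(2 * σ - 1) - 1) * (Y + n)) := by ring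
          _ ≤ E * ((n : ℝ) ^ (-(2 * σ - 1) - 1) * (Y + n)) :=
              mul_le_mul_of_nonneg_right h2 h10
          _ = _ := by ring
      · rw [if_pos hNn, if_neg (fun h => hnK h.2)]
        have h2 : W ≤ n := by
          have h3 : W < K₁ + 1 := Nat.lt_floor_add_one W
          have h4 : (K₁ : ℝ) + 1 ≤ n := by
            have : K₁ + 1 ≤ n := by omega
            exact_mod_cast this
          linarith
        rw [H13_b_large N U (by linarith) n h2]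
        simp
    · rw [if_neg hNn, if_neg (fun h => hNn h.1)]
      simp
  refine (Finset.sum_le_sum h1).trans ?_
  rw [← Finset.sum_filter]
  have h3 : ∀ n ∈ Finset.Ioc N K₁, 0 ≤ E * ((n : ℝ) ^ (-(2 * σ - 1) - 1) * Y +
      (n : ℝ) ^ ((2 - 2 * σ) - 1)) := fun n _ => by positivity
  have h4 : (Finset.Icc 1 K).filter (fun n => N < n ∧ n ≤ K₁) ⊆ Finset.Ioc N K₁ := by
    intro n hn
    exact Finset.mem_Ioc.2 (Finset.mem_filter.1 hn).2
  refine (Finset.sum_le_sum_of_subset_of_nonneg h4 fun n hn _ => h3 n hn).trans ?_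
  rw [← Finset.mul_sum, Finset.sum_add_distrib, ← Finset.sum_mul]
  have h5 := H13_sum1 (2 * σ - 1) (by linarith) N hN K₁
  have h6 : ∑ j ∈ Finset.Ioc N K₁, (j : ℝ) ^ ((2 - 2 * σ) - 1)
      ≤ 1 / (2 - 2 * σ) * W ^ (2 - 2 * σ) := by
    calc _ ≤ ∑ j ∈ Finset.Icc 1 K₁, (j : ℝ) ^ ((2 - 2 * σ) - 1) := by
          apply Finset.sum_le_sum_of_subset_of_nonneg
          · intro j hj
            rw [Finset.mem_Ioc] at hj
            rw [Finset.mem_Icc]
            omega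
          · intro j _ _
            positivity
      _ ≤ 1 / (2 - 2 * σ) * (K₁ : ℝ) ^ (2 - 2 * σ) :=
          H13_sum2 (2 - 2 * σ) (by linarith) (by linarith) K₁
      _ ≤ _ := by
          have h7 : (K₁ : ℝ) ^ (2 - 2 * σ) ≤ W ^ (2 - 2 * σ) :=
            Real.rpow_le_rpow (Nat.cast_nonneg _) hK₁W (by linarith)
          have h8 : 0 ≤ 1 / (2 - 2 * σ) := by
            apply div_nonneg zero_le_one
            linarith
          exact mul_le_mul_of_nonneg_left h7 h8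
  have h9 : -(2 * σ - 1) = 1 - 2 * σ := by ring
  rw [h9] at h5
  have h10 : -(2 * σ - 1) - 1 = 1 - 2 * σ - 1 := by ring
  rw [h10]
  apply mul_le_mul_of_nonneg_left _ hE0
  exact add_le_add (mul_le_mul_of_nonneg_right h5 hY) h6

/-- The pointwise approximation. -/
lemma H13_point (σ κ₁ : ℝ) (hσ : 1 / 2 < σ) (hσ1 : σ < 1) (hκ : 0 < κ₁) :
    ∃ C : ℝ, 0 ≤ C ∧ ∀ F : ℕ, 2 ≤ F → ∀ N : ℕ, 1 ≤ N → N ≤ F ^ 2 → ∀ T : ℝ, 1 ≤ T →
    ∃ K : ℕ, ∀ r : ℕ, ∀ [NeZero r], r ≤ 2 * F → ∀ χ : DirichletCharacter ℂ r, χ ≠ 1 →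
    ∀ t : ℝ, |t| ≤ T →
      ‖1 - χ.LFunction ((σ : ℂ) + t * I) * Mol N r χ ((σ : ℂ) + t * I)‖ ≤
      ‖∑ n ∈ Finset.Icc 1 K, H13_c σ N ((F * (T + 2)) ^ (1 + κ₁)) n * χ n *
        (n : ℂ) ^ (-((t : ℂ) * I))‖ + C * N * ((F : ℝ) * (T + 2)) ^ (-(3 : ℝ)) := by
  set k : ℕ := ⌈4 / κ₁⌉₊ with hk
  obtain ⟨C, hC0, hC⟩ := smooth_approx k
  refine ⟨C * 2 ^ (k + 1), by positivity, fun F hF N hN hNF T hT => ?_⟩
  set A : ℝ := (F : ℝ) * (T + 2) with hA
  have hF2 : (2 : ℝ) ≤ F := by exact_mod_cast hF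
  have hA1 : 1 ≤ A := by
    rw [hA]
    nlinarith
  have hA0 : 0 < A := by linarith
  set U : ℝ := A ^ (1 + κ₁) with hU
  have hU1 : 1 ≤ U := Real.one_le_rpow hA1 (by linarith)
  set N' : ℕ := ⌈2 * (U + N)⌉₊ with hN'
  have hN'1 : 2 * (U + N) ≤ N' := Nat.le_ceil _
  refine ⟨N * N', fun r _ hr χ hχ t ht => ?_⟩
  set s : ℂ := (σ : ℂ) + t * I with hs
  have hsre : s.re = σ := by simp [hs]
  have hsn : ‖s‖ + 1 ≤ T + 2 := by
    have h1 : ‖s‖ ≤ ‖(σ : ℂ)‖ + ‖(t : ℂ) * I‖ := norm_add_le _ _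
    rw [norm_mul, Complex.norm_I, mul_one, Complex.norm_real, Complex.norm_real,
      Real.norm_eq_abs, Real.norm_eq_abs, abs_of_pos (by linarith : 0 < σ)] at h1
    linarith
  have happ := H13_approx k C hC0 r χ s (by rw [hsre]; linarith)
    (fun U hU N hN => hC r χ hχ s (by rw [hsre]; linarith) (by rw [hsre]; linarith) U hU N hN)
    U hU1 N hN N' hN'1
  have hB : (N : ℝ) * (C * ((r : ℝ) * (‖s‖ + 1)) ^ (k + 1) * U ^ (-(k : ℝ)))
      ≤ C * 2 ^ (k + 1) * N * A ^ (-(3 : ℝ)) := by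
    have h1 : (r : ℝ) * (‖s‖ + 1) ≤ 2 * A := by
      have h2 : (r : ℝ) ≤ 2 * F := by exact_mod_cast hr
      calc (r : ℝ) * (‖s‖ + 1) ≤ (2 * F) * (T + 2) := by gcongr
        _ = 2 * A := by rw [hA]; ring
    have h3 : ((r : ℝ) * (‖s‖ + 1)) ^ (k + 1) ≤ (2 * A) ^ (k + 1) := by gcongr
    have h4 : (2 * A) ^ (k + 1) * U ^ (-(k : ℝ)) ≤ 2 ^ (k + 1) * A ^ (-(3 : ℝ)) := by
      rw [mul_pow, hU, ← Real.rpow_mul hA0.le, ← Real.rpow_natCast A, mul_assoc,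
        ← Real.rpow_add hA0]
      have h5 : 4 / κ₁ ≤ k := Nat.le_ceil _
      rw [div_le_iff₀ hκ] at h5
      have h6 : ((k + 1 : ℕ) : ℝ) + (1 + κ₁) * -(k : ℝ) ≤ -(3 : ℝ) := by
        push_cast
        nlinarith
      have h7 := Real.rpow_le_rpow_of_exponent_le hA1 h6
      gcongr
    calc (N : ℝ) * (C * ((r : ℝ) * (‖s‖ + 1)) ^ (k + 1) * U ^ (-(k : ℝ)))
        ≤ (N : ℝ) * (C * (2 * A) ^ (k + 1) * U ^ (-(k : ℝ))) := by gcongr
      _ = N * C * ((2 * A) ^ (k + 1) * U ^ (-(k : ℝ))) := by ring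
      _ ≤ N * C * (2 ^ (k + 1) * A ^ (-(3 : ℝ))) := by gcongr
      _ = _ := by ring
  have hN'pos : 1 ≤ N' := by
    have h1 : (0 : ℝ) < N' := by
      have : (0 : ℝ) ≤ N := Nat.cast_nonneg N
      linarith
    exact_mod_cast h1
  have hS : ∑ j ∈ Finset.Ioc N (N * N'), ((H13_b N U j : ℝ) : ℂ) * χ j * (j : ℂ) ^ (-s)
      = ∑ n ∈ Finset.Icc 1 (N * N'), H13_c σ N U n * χ n * (n : ℂ) ^ (-((t : ℂ) * I)) := by
    have h1 : ∀ n ∈ Finset.Icc 1 (N * N'), H13_c σ N U n * χ n * (n : ℂ) ^ (-((t : ℂ) * I))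
        = if N < n then ((H13_b N U n : ℝ) : ℂ) * χ n * (n : ℂ) ^ (-s) else 0 := by
      intro n hn
      rw [Finset.mem_Icc] at hn
      unfold H13_c
      split_ifs with h
      · have hn0 : (n : ℂ) ≠ 0 := by exact_mod_cast (by omega : n ≠ 0)
        have h2 : (n : ℂ) ^ (-s) = (((n : ℝ) ^ (-σ) : ℝ) : ℂ) * (n : ℂ) ^ (-((t : ℂ) * I)) := by
          rw [hs, neg_add, Complex.cpow_add _ _ hn0, Complex.ofReal_cpow (Nat.cast_nonneg n)]
          push_cast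
          ring
        rw [h2]
        push_cast
        ring
      · simp
    rw [Finset.sum_congr rfl h1, ← Finset.sum_filter]
    congr 1
    ext n
    rw [Finset.mem_Ioc, Finset.mem_filter, Finset.mem_Icc]
    constructor
    · rintro ⟨h2, h3⟩
      exact ⟨⟨by omega, h3⟩, h2⟩
    · rintro ⟨⟨h2, h3⟩, h4⟩
      exact ⟨h4, h3⟩
  rw [hS] at happ
  have h8 : ∀ x y : ℂ, ‖x‖ ≤ ‖y‖ + ‖x + y‖ := by
    intro x y
    calc ‖x‖ = ‖(x + y) - y‖ := by congr 1; ring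
      _ ≤ ‖x + y‖ + ‖y‖ := norm_sub_le _ _
      _ = _ := add_comm _ _
  exact (h8 _ _).trans (add_le_add le_rfl (happ.trans hB))

/-- H13. (skeleton lemmas used: `smooth_approx` (H9d, in `H13_point`), `hybrid_large_sieve` (H6) and
`divisor_bound` (H11).) Mean square of `1 - L M` on the line `Re s = σ` (uses H6, H9d, H11). -/
lemma meanB (σ κ : ℝ) (hσ : 1 / 2 < σ) (hσ1 : σ < 1) (hκ : 0 < κ) :
    ∃ C : ℝ, 0 ≤ C ∧ ∀ F : ℕ, 2 ≤ F → ∀ N : ℕ, 1 ≤ N → N ≤ F ^ 2 → ∀ T : ℝ, 1 ≤ T →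
    ∑ r ∈ Finset.Ico F (2 * F), pSum r (fun χ => ∫ t in (-T)..T,
      ‖1 - LF r χ ((σ : ℂ) + t * I) * Mol N r χ ((σ : ℂ) + t * I)‖ ^ 2)
      ≤ C * (F * T) ^ κ * ((F : ℝ) ^ 2 * T * (N : ℝ) ^ (1 - 2 * σ)
        + ((N : ℝ) * F * T) ^ (2 - 2 * σ)) := by
  set κ₁ : ℝ := min (κ / 2) 1 with hκ₁
  have hκ₁0 : 0 < κ₁ := lt_min (by linarith) one_pos
  have hκ₁1 : κ₁ ≤ 1 := min_le_right _ _
  have hκ₁κ : κ₁ ≤ κ / 2 := min_le_left _ _
  obtain ⟨C₁, hC₁0, hC₁⟩ := H13_point σ κ₁ hσ hσ1 hκ₁0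
  set δ : ℝ := κ / 16 with hδ
  have hδ0 : 0 < δ := by positivity
  obtain ⟨D, hD0, hD⟩ := divisor_bound δ hδ0
  have hp : 0 < 2 * σ - 1 := by linarith
  have hq : 0 < 2 - 2 * σ := by linarith
  set C₂ : ℝ := D ^ 2 * 36 ^ (2 * δ) * (1 / (2 * σ - 1) * 4 + 1 / (2 - 2 * σ) * 36 ^ (2 - 2 * σ))
    with hC₂
  have hC₂0 : 0 ≤ C₂ := by positivity
  refine ⟨2000 * C₂ + 8 * C₁ ^ 2, by positivity, fun F hF N hN hNF T hT => ?_⟩
  obtain ⟨K, hK⟩ := hC₁ F hF N hN hNF T hT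
  set A : ℝ := (F : ℝ) * (T + 2) with hA
  set U : ℝ := A ^ (1 + κ₁) with hU
  set G : ℝ := (F : ℝ) * T with hG
  have hF2 : (2 : ℝ) ≤ F := by exact_mod_cast hF
  have hF0 : (0 : ℝ) < F := by linarith
  have hT0 : 0 < T := by linarith
  have hN1 : (1 : ℝ) ≤ N := by exact_mod_cast hN
  have hN0 : (0 : ℝ) < N := by linarith
  have hA1 : 1 ≤ A := by
    rw [hA]
    nlinarith
  have hA0 : 0 < A := by linarith
  have hG1 : 1 ≤ G := by
    rw [hG]
    nlinarith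
  have hG0 : 0 < G := by linarith
  have hAG : A ≤ 3 * G := by
    rw [hA, hG]
    nlinarith
  have hFA : (F : ℝ) ≤ A := by
    rw [hA]
    nlinarith
  have hFG : (F : ℝ) ≤ G := by
    rw [hG]
    nlinarith
  have hNF' : (N : ℝ) ≤ (F : ℝ) ^ 2 := by exact_mod_cast hNF
  have hU1 : 1 ≤ U := Real.one_le_rpow hA1 (by linarith)
  have hGκ : 1 ≤ G ^ κ := Real.one_le_rpow hG1 hκ.le
  set τ : ℝ := C₁ * N * A ^ (-(3 : ℝ)) with hτ
  set c : ℕ → ℂ := H13_c σ N U with hc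
  set S : (r : ℕ) → DirichletCharacter ℂ r → ℝ := fun r χ => ∫ t in (-T)..T,
    ‖∑ n ∈ Finset.Icc 1 K, c n * χ n * (n : ℂ) ^ (-((t : ℂ) * I))‖ ^ 2 with hS
  have hS0 : ∀ r, 0 ≤ pSum r (S r) := fun r =>
    finsum_nonneg fun χ => intervalIntegral.integral_nonneg (by linarith) fun _ _ => by positivity
  -- step 1
  have s1 : ∀ r ∈ Finset.Ico F (2 * F), pSum r (fun χ => ∫ t in (-T)..T,
      ‖1 - LF r χ ((σ : ℂ) + t * I) * Mol N r χ ((σ : ℂ) + t * I)‖ ^ 2)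
      ≤ 2 * pSum r (S r) + 2 * F * (4 * T * τ ^ 2) := by
    intro r hr
    rw [Finset.mem_Ico] at hr
    have : NeZero r := ⟨by omega⟩
    have h1 := H13_pSum_add r (by omega) (fun χ => ∫ t in (-T)..T,
      ‖1 - LF r χ ((σ : ℂ) + t * I) * Mol N r χ ((σ : ℂ) + t * I)‖ ^ 2) (S r) 2
      (4 * T * τ ^ 2) (by positivity) (fun χ hχ => by
        have hχ1 := H13_prim_ne_one r (by omega) χ hχ
        exact H13_char r χ hχ1 σ T hT0.le N K c τ (fun t ht => hK r (by omega) χ hχ1 t ht))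
    have h2 : (r : ℝ) ≤ 2 * F := by exact_mod_cast (by omega : r ≤ 2 * F)
    have h3 : (r : ℝ) * (4 * T * τ ^ 2) ≤ 2 * F * (4 * T * τ ^ 2) := by gcongr
    linarith
  refine (Finset.sum_le_sum s1).trans ?_
  rw [Finset.sum_add_distrib, ← Finset.mul_sum, Finset.sum_const, Nat.card_Ico, nsmul_eq_mul]
  have hcard : ((2 * F - F : ℕ) : ℝ) = F := by
    rw [show 2 * F - F = F by omega]
  rw [hcard]
  -- step 2: the large sieve
  have s2 : ∑ r ∈ Finset.Ico F (2 * F), pSum r (S r)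
      ≤ 1000 * ∑ n ∈ Finset.Icc 1 K, ‖c n‖ ^ 2 * (((2 * F : ℕ) : ℝ) ^ 2 * T + n) := by
    refine le_trans ?_ (hybrid_large_sieve K (2 * F) (by omega) c T hT)
    apply Finset.sum_le_sum_of_subset_of_nonneg
    · intro r hr
      rw [Finset.mem_Ico] at hr
      rw [Finset.mem_Icc]
      omega
    · intro r _ _
      exact hS0 r
  have s3 := H13_coeff σ hσ hσ1 δ hδ0 D hD0 hD N hN U hU1 K (((2 * F : ℕ) : ℝ) ^ 2 * T)
    (by positivity)
  -- step 3: sizes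
  set W : ℝ := 2 * (N * U + N) with hW
  have hW0 : 0 < W := by positivity
  have hUG : U ≤ 9 * (G * G ^ κ₁) := by
    calc U ≤ (3 * G) ^ (1 + κ₁) := Real.rpow_le_rpow hA0.le hAG (by linarith)
      _ = 3 ^ (1 + κ₁) * G ^ (1 + κ₁) := Real.mul_rpow (by norm_num) hG0.le
      _ ≤ 9 * G ^ (1 + κ₁) := by
          have h1 : (3 : ℝ) ^ (1 + κ₁) ≤ 3 ^ (2 : ℝ) :=
            Real.rpow_le_rpow_of_exponent_le (by norm_num) (by linarith)
          have h2 : (3 : ℝ) ^ (2 : ℝ) = 9 := by norm_num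
          rw [h2] at h1
          gcongr
      _ = _ := by rw [Real.rpow_add hG0, Real.rpow_one]
  have hWG : W ≤ 36 * ((N * G) * G ^ κ₁) := by
    have h1 : (N : ℝ) ≤ N * U := le_mul_of_one_le_right hN0.le hU1
    have h2 : (N : ℝ) * U ≤ N * (9 * (G * G ^ κ₁)) := by gcongr
    calc W = 2 * (N * U + N) := rfl
      _ ≤ 2 * (N * U + N * U) := by gcongr
      _ = 4 * (N * U) := by ring
      _ ≤ 4 * (N * (9 * (G * G ^ κ₁))) := by gcongr
      _ = _ := by ring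
  have hGκ₁ : G ^ κ₁ ≤ G := by
    calc G ^ κ₁ ≤ G ^ (1 : ℝ) := Real.rpow_le_rpow_of_exponent_le hG1 hκ₁1
      _ = G := Real.rpow_one G
  have hW4 : W ≤ 36 * G ^ (4 : ℝ) := by
    have h4 : G ^ (4 : ℝ) = G ^ 4 := by
      rw [← Real.rpow_natCast]
      norm_num
    rw [h4]
    have h5 : (N : ℝ) ≤ G ^ 2 := hNF'.trans (by gcongr)
    calc W ≤ 36 * ((N * G) * G ^ κ₁) := hWG
      _ ≤ 36 * ((G ^ 2 * G) * G) := by gcongr
      _ = 36 * G ^ 4 := by ring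
  have hWδ : W ^ (2 * δ) ≤ 36 ^ (2 * δ) * G ^ (κ / 2) := by
    calc W ^ (2 * δ) ≤ (36 * G ^ (4 : ℝ)) ^ (2 * δ) := Real.rpow_le_rpow hW0.le hW4 (by positivity)
      _ = 36 ^ (2 * δ) * G ^ (κ / 2) := by
          rw [Real.mul_rpow (by norm_num) (by positivity), ← Real.rpow_mul hG0.le]
          congr 2
          rw [hδ]
          ring
  have hGκ₂ : 1 ≤ G ^ (κ / 2) := Real.one_le_rpow hG1 (by linarith)
  have hWq : W ^ (2 - 2 * σ) ≤ 36 ^ (2 - 2 * σ) * ((N * G) ^ (2 - 2 * σ) * G ^ (κ / 2)) := by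
    calc W ^ (2 - 2 * σ) ≤ (36 * ((N * G) * G ^ κ₁)) ^ (2 - 2 * σ) :=
          Real.rpow_le_rpow hW0.le hWG hq.le
      _ = 36 ^ (2 - 2 * σ) * ((N * G) ^ (2 - 2 * σ) * G ^ (κ₁ * (2 - 2 * σ))) := by
          rw [Real.mul_rpow (by norm_num) (by positivity), Real.mul_rpow (by positivity)
            (by positivity), ← Real.rpow_mul hG0.le]
      _ ≤ _ := by
          have h1 : κ₁ * (2 - 2 * σ) ≤ κ / 2 := by nlinarith
          have h2 := Real.rpow_le_rpow_of_exponent_le hG1 h1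
          gcongr
  have hNG : (N : ℝ) * G = N * F * T := by rw [hG]; ring
  set R : ℝ := (F : ℝ) ^ 2 * T * (N : ℝ) ^ (1 - 2 * σ) + ((N : ℝ) * F * T) ^ (2 - 2 * σ) with hR
  have hR1 : (F : ℝ) ^ 2 * T * (N : ℝ) ^ (1 - 2 * σ) ≤ R := by
    rw [hR]
    have : 0 ≤ ((N : ℝ) * F * T) ^ (2 - 2 * σ) := by positivity
    linarith
  have hR2 : ((N : ℝ) * G) ^ (2 - 2 * σ) ≤ R := by
    rw [hR, hNG]
    have : 0 ≤ (F : ℝ) ^ 2 * T * (N : ℝ) ^ (1 - 2 * σ) := by positivity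
    linarith
  have hR0 : 0 ≤ R := by positivity
  have s4 : ∑ n ∈ Finset.Icc 1 K, ‖c n‖ ^ 2 * (((2 * F : ℕ) : ℝ) ^ 2 * T + n)
      ≤ C₂ * (G ^ κ * R) := by
    refine s3.trans ?_
    have e1 : (1 / (2 * σ - 1)) * (N : ℝ) ^ (1 - 2 * σ) * (((2 * F : ℕ) : ℝ) ^ 2 * T)
        ≤ 1 / (2 * σ - 1) * 4 * (R * G ^ (κ / 2)) := by
      have h1 : (1 / (2 * σ - 1)) * (N : ℝ) ^ (1 - 2 * σ) * (((2 * F : ℕ) : ℝ) ^ 2 * T)
          = 1 / (2 * σ - 1) * 4 * ((F : ℝ) ^ 2 * T * (N : ℝ) ^ (1 - 2 * σ)) := by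
        push_cast
        ring
      rw [h1]
      have h2 : R ≤ R * G ^ (κ / 2) := le_mul_of_one_le_right hR0 hGκ₂
      have h3 : 0 ≤ 1 / (2 * σ - 1) * 4 := by positivity
      exact mul_le_mul_of_nonneg_left (hR1.trans h2) h3
    have e2 : 1 / (2 - 2 * σ) * W ^ (2 - 2 * σ)
        ≤ 1 / (2 - 2 * σ) * 36 ^ (2 - 2 * σ) * (R * G ^ (κ / 2)) := by
      calc 1 / (2 - 2 * σ) * W ^ (2 - 2 * σ)
          ≤ 1 / (2 - 2 * σ) * (36 ^ (2 - 2 * σ) * (R * G ^ (κ / 2))) := by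
            have h3 : 0 ≤ 1 / (2 - 2 * σ) := by positivity
            apply mul_le_mul_of_nonneg_left _ h3
            refine hWq.trans ?_
            gcongr
        _ = _ := by ring
    have e3 : G ^ κ = G ^ (κ / 2) * G ^ (κ / 2) := by
      rw [← Real.rpow_add hG0]
      congr 1
      ring
    calc _ ≤ D ^ 2 * (36 ^ (2 * δ) * G ^ (κ / 2)) * (1 / (2 * σ - 1) * 4 * (R * G ^ (κ / 2))
          + 1 / (2 - 2 * σ) * 36 ^ (2 - 2 * σ) * (R * G ^ (κ / 2))) := by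
          gcongr
      _ = C₂ * (G ^ κ * R) := by
          rw [e3, hC₂]
          ring
  -- step 4: the tiny part
  have s5 : (F : ℝ) * (2 * F * (4 * T * τ ^ 2)) ≤ 8 * C₁ ^ 2 * (G ^ κ * R) := by
    have h1 : (N : ℝ) ^ 2 * (A ^ (-(3 : ℝ))) ^ 2 ≤ (N : ℝ) ^ (1 - 2 * σ) := by
      have h2 : (N : ℝ) ^ (-1 : ℝ) ≤ (N : ℝ) ^ (1 - 2 * σ) :=
        Real.rpow_le_rpow_of_exponent_le hN1 (by linarith)
      refine le_trans ?_ h2
      rw [Real.rpow_neg_one]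
      have h3 : (A ^ (-(3 : ℝ))) ^ 2 = (A ^ 6)⁻¹ := by
        rw [Real.rpow_neg hA0.le, inv_pow]
        congr 1
        rw [← Real.rpow_natCast, ← Real.rpow_mul hA0.le, ← Real.rpow_natCast]
        norm_num
      rw [h3, ← div_eq_mul_inv, inv_eq_one_div, div_le_div_iff₀ (by positivity) hN0, one_mul]
      calc (N : ℝ) ^ 2 * N = (N : ℝ) ^ 3 := by ring
        _ ≤ ((F : ℝ) ^ 2) ^ 3 := by gcongr
        _ = (F : ℝ) ^ 6 := by ring
        _ ≤ A ^ 6 := by gcongr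
    have h4 : R ≤ G ^ κ * R := le_mul_of_one_le_left hR0 hGκ
    calc (F : ℝ) * (2 * F * (4 * T * τ ^ 2))
        = 8 * C₁ ^ 2 * ((F : ℝ) ^ 2 * T * ((N : ℝ) ^ 2 * (A ^ (-(3 : ℝ))) ^ 2)) := by
          rw [hτ]
          ring
      _ ≤ 8 * C₁ ^ 2 * ((F : ℝ) ^ 2 * T * (N : ℝ) ^ (1 - 2 * σ)) := by gcongr
      _ ≤ 8 * C₁ ^ 2 * (G ^ κ * R) := by
          have h5 := hR1.trans h4
          gcongr
  calc _ ≤ 2 * (1000 * (C₂ * (G ^ κ * R))) + 8 * C₁ ^ 2 * (G ^ κ * R) := by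
        have h6 := s2.trans (mul_le_mul_of_nonneg_left s4 (by norm_num : (0 : ℝ) ≤ 1000))
        linarith
    _ = (2000 * C₂ + 8 * C₁ ^ 2) * G ^ κ * R := by ring

end Pool.Agent.MC.C2
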