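import Mathlib
import Pool.Agent.Lib.MP_9cfc0a_nt.C2Base

set_option autoImplicit false

namespace Pool.Agent.MC.C2

open Pool.Agent.MC Pool.Agent.MC.C1 MeasureTheory Real Complex

/-- The coefficients of the mollifier. -/
noncomputable def H14_f (N r : ℕ) (χ : DirichletCharacter ℂ r) (n : ℕ) : ℂ :=
  if n ≤ N then (ArithmeticFunction.moebius n : ℂ) * χ n else 0

/-- The coefficients of `- L'`. -/
noncomputable def H14_g (r : ℕ) (χ : DirichletCharacter ℂ r) : ℕ → ℂ :=
  LSeries.logMul (fun n => χ n)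

lemma H14_conv (N r : ℕ) (χ : DirichletCharacter ℂ r) (n : ℕ) :
    LSeries.convolution (H14_f N r χ) (H14_g r χ) n = χ n * ((aA N n : ℝ) : ℂ) := by
  rw [LSeries.convolution_def]
  simp only
  rw [Nat.sum_divisorsAntidiagonal (fun i j => H14_f N r χ i * H14_g r χ j)]
  unfold aA
  rw [Complex.ofReal_sum, Finset.mul_sum, Finset.sum_filter]
  refine Finset.sum_congr rfl fun d hd => ?_
  have hdn : d ∣ n := Nat.dvd_of_mem_divisors hd
  unfold H14_f H14_g
  by_cases h : d ≤ N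
  · rw [if_pos h, if_pos h]
    have e : (χ n : ℂ) = χ d * χ ((n / d : ℕ) : ZMod r) := by
      rw [← map_mul, ← Nat.cast_mul, Nat.mul_div_cancel' hdn]
    rw [e]
    unfold LSeries.logMul
    rw [Complex.ofReal_mul, Complex.natCast_log, Complex.ofReal_intCast]
    ring
  · rw [if_neg h, if_neg h, zero_mul]

lemma H14_S_bound (r : ℕ) [NeZero r] (χ : DirichletCharacter ℂ r) (hχ : χ ≠ 1) (n : ℕ) :
    ‖∑ k ∈ Finset.Icc 1 n, χ k‖ ≤ 2 * r := by
  have h1 := periodic_sum_bound r (fun a => χ a) (fun a => χ.norm_le_one a) n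
  rw [MulChar.sum_eq_zero_of_ne_one hχ, mul_zero, sub_zero] at h1
  exact h1

lemma H14_T_bound (r : ℕ) [NeZero r] (χ : DirichletCharacter ℂ r) (hχ : χ ≠ 1) (n : ℕ) :
    ‖∑ k ∈ Finset.Icc 1 n, H14_g r χ k‖ ≤ 4 * r * Real.log (n + 1) := by
  have key : ∀ n : ℕ, ‖(∑ k ∈ Finset.Icc 1 n, χ k) * ((Real.log (n + 1) : ℝ) : ℂ)
      - ∑ k ∈ Finset.Icc 1 n, H14_g r χ k‖ ≤ 2 * r * Real.log (n + 1) := by
    intro n
    induction n with
    | zero => simp
    | succ n ih =>
      rw [Finset.sum_Icc_succ_top (by omega), Finset.sum_Icc_succ_top (by omega)]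
      have hS := H14_S_bound r χ hχ (n + 1)
      rw [Finset.sum_Icc_succ_top (by omega)] at hS
      set S : ℂ := ∑ k ∈ Finset.Icc 1 n, χ k with hSdef
      set T : ℂ := ∑ k ∈ Finset.Icc 1 n, H14_g r χ k with hTdef
      have e : H14_g r χ (n + 1) = ((Real.log ((n : ℝ) + 1) : ℝ) : ℂ) * χ ((n + 1 : ℕ) : ZMod r) := by
        unfold H14_g LSeries.logMul
        rw [← Complex.natCast_log]
        push_cast
        rfl
      rw [e]
      have hmono : Real.log ((n : ℝ) + 1) ≤ Real.log (((n + 1 : ℕ) : ℝ) + 1) := by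
        apply Real.log_le_log (by positivity)
        push_cast
        linarith
      have e2 : (S + χ ((n + 1 : ℕ) : ZMod r)) * ((Real.log (((n + 1 : ℕ) : ℝ) + 1) : ℝ) : ℂ)
          - (T + ((Real.log ((n : ℝ) + 1) : ℝ) : ℂ) * χ ((n + 1 : ℕ) : ZMod r))
          = (S * ((Real.log ((n : ℝ) + 1) : ℝ) : ℂ) - T)
            + (S + χ ((n + 1 : ℕ) : ZMod r)) *
              ((Real.log (((n + 1 : ℕ) : ℝ) + 1) - Real.log ((n : ℝ) + 1) : ℝ) : ℂ) := by
        rw [Complex.ofReal_sub]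
        ring
      rw [e2]
      refine (norm_add_le _ _).trans ?_
      have h3 : ‖(S + χ ((n + 1 : ℕ) : ZMod r)) *
              ((Real.log (((n + 1 : ℕ) : ℝ) + 1) - Real.log ((n : ℝ) + 1) : ℝ) : ℂ)‖
          ≤ 2 * r * (Real.log (((n + 1 : ℕ) : ℝ) + 1) - Real.log ((n : ℝ) + 1)) := by
        rw [norm_mul, Complex.norm_real, Real.norm_of_nonneg (by linarith)]
        exact mul_le_mul_of_nonneg_right hS (by linarith)
      linarith
  have h1 := key n
  have h2 := H14_S_bound r χ hχ n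
  have hlog : 0 ≤ Real.log ((n : ℝ) + 1) := Real.log_nonneg (by
    have : (0 : ℝ) ≤ n := Nat.cast_nonneg n
    linarith)
  have h3 : ‖∑ k ∈ Finset.Icc 1 n, H14_g r χ k‖
      ≤ ‖(∑ k ∈ Finset.Icc 1 n, χ k) * ((Real.log (n + 1) : ℝ) : ℂ)‖
        + ‖(∑ k ∈ Finset.Icc 1 n, χ k) * ((Real.log (n + 1) : ℝ) : ℂ)
      - ∑ k ∈ Finset.Icc 1 n, H14_g r χ k‖ := by
    have := norm_sub_le ((∑ k ∈ Finset.Icc 1 n, χ k) * ((Real.log (n + 1) : ℝ) : ℂ))
      ((∑ k ∈ Finset.Icc 1 n, χ k) * ((Real.log (n + 1) : ℝ) : ℂ)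
      - ∑ k ∈ Finset.Icc 1 n, H14_g r χ k)
    rwa [sub_sub_cancel] at this
  have h4 : ‖(∑ k ∈ Finset.Icc 1 n, χ k) * ((Real.log (n + 1) : ℝ) : ℂ)‖
      ≤ 2 * r * Real.log (n + 1) := by
    rw [norm_mul, Complex.norm_real, Real.norm_of_nonneg hlog]
    exact mul_le_mul_of_nonneg_right h2 hlog
  linarith

lemma H14_sum (N r : ℕ) (χ : DirichletCharacter ℂ r) (n : ℕ) :
    ∑ k ∈ Finset.Icc 1 n, χ k * ((aA N k : ℝ) : ℂ)
      = ∑ d ∈ Finset.Icc 1 n, H14_f N r χ d * ∑ k ∈ Finset.Icc 1 (n / d), H14_g r χ k := by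
  have hI : ∀ m : ℕ, Finset.Icc 1 m = Finset.Ioc 0 m := fun m => by
    ext k; simp only [Finset.mem_Icc, Finset.mem_Ioc]; omega
  have h1 := ArithmeticFunction.sum_Ioc_mul_eq_sum_sum (toArithmeticFunction (H14_f N r χ))
    (toArithmeticFunction (H14_g r χ)) n
  have hto : ∀ (f : ℕ → ℂ) (k : ℕ), k ≠ 0 → toArithmeticFunction f k = f k := fun f k hk => by
    change (if k = 0 then 0 else f k) = f k
    rw [if_neg hk]
  rw [hI]
  calc ∑ k ∈ Finset.Ioc 0 n, χ k * ((aA N k : ℝ) : ℂ)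
      = ∑ k ∈ Finset.Ioc 0 n, (toArithmeticFunction (H14_f N r χ) *
          toArithmeticFunction (H14_g r χ)) k := by
        refine Finset.sum_congr rfl fun k _ => ?_
        exact (H14_conv N r χ k).symm
    _ = _ := h1
    _ = _ := by
        refine Finset.sum_congr rfl fun d hd => ?_
        rw [Finset.mem_Ioc] at hd
        rw [hto _ d (by omega), hI]
        congr 1
        refine Finset.sum_congr rfl fun k hk => ?_
        rw [Finset.mem_Ioc] at hk
        exact hto _ k (by omega)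

lemma H14_f_norm (N r : ℕ) (χ : DirichletCharacter ℂ r) (n : ℕ) :
    ‖H14_f N r χ n‖ ≤ if n ≤ N then 1 else 0 := by
  unfold H14_f
  split_ifs with h
  · rw [norm_mul]
    have h1 : ‖((ArithmeticFunction.moebius n : ℤ) : ℂ)‖ ≤ 1 := by
      rw [Complex.norm_intCast]
      exact_mod_cast ArithmeticFunction.abs_moebius_le_one
    calc _ ≤ (1 : ℝ) * 1 := mul_le_mul h1 (χ.norm_le_one _) (norm_nonneg _) zero_le_one
      _ = 1 := one_mul 1
  · rw [norm_zero]

lemma H14_partial (N r : ℕ) [NeZero r] (χ : DirichletCharacter ℂ r) (hχ : χ ≠ 1) (n : ℕ) :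
    ‖∑ k ∈ Finset.Icc 1 n, χ k * ((aA N k : ℝ) : ℂ)‖ ≤ N * (4 * r * Real.log (n + 1)) := by
  rw [H14_sum]
  have hlog : 0 ≤ Real.log ((n : ℝ) + 1) := Real.log_nonneg (by
    have : (0 : ℝ) ≤ n := Nat.cast_nonneg n
    linarith)
  have hB : (0 : ℝ) ≤ 4 * r * Real.log (n + 1) := by positivity
  refine (norm_sum_le _ _).trans ?_
  calc ∑ d ∈ Finset.Icc 1 n, ‖H14_f N r χ d * ∑ k ∈ Finset.Icc 1 (n / d), H14_g r χ k‖
      ≤ ∑ d ∈ Finset.Icc 1 n, (if d ≤ N then 4 * r * Real.log (n + 1) else 0) := by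
        refine Finset.sum_le_sum fun d hd => ?_
        rw [norm_mul]
        have h1 := H14_f_norm N r χ d
        have h2 := H14_T_bound r χ hχ (n / d)
        have h3 : Real.log (((n / d : ℕ) : ℝ) + 1) ≤ Real.log ((n : ℝ) + 1) := by
          apply Real.log_le_log (by positivity)
          have : ((n / d : ℕ) : ℝ) ≤ n := by exact_mod_cast Nat.div_le_self n d
          linarith
        have h4 : ‖∑ k ∈ Finset.Icc 1 (n / d), H14_g r χ k‖ ≤ 4 * r * Real.log (n + 1) :=
          h2.trans (mul_le_mul_of_nonneg_left h3 (by positivity))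
        split_ifs at h1 ⊢ with h
        · calc _ ≤ 1 * (4 * r * Real.log (n + 1)) := mul_le_mul h1 h4 (norm_nonneg _) zero_le_one
            _ = _ := one_mul _
        · have h5 : ‖H14_f N r χ d‖ = 0 := le_antisymm h1 (norm_nonneg _)
          rw [h5, zero_mul]
    _ = ∑ d ∈ (Finset.Icc 1 n).filter (fun d => d ≤ N), 4 * r * Real.log (n + 1) := by
        rw [Finset.sum_filter]
    _ = (((Finset.Icc 1 n).filter (fun d => d ≤ N)).card : ℝ) * (4 * r * Real.log (n + 1)) := by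
        rw [Finset.sum_const, nsmul_eq_mul]
    _ ≤ N * (4 * r * Real.log (n + 1)) := by
        refine mul_le_mul_of_nonneg_right ?_ hB
        have h6 : ((Finset.Icc 1 n).filter (fun d => d ≤ N)).card ≤ (Finset.Icc 1 N).card := by
          refine Finset.card_le_card fun d hd => ?_
          rw [Finset.mem_filter, Finset.mem_Icc] at hd
          rw [Finset.mem_Icc]
          exact ⟨hd.1.1, hd.2⟩
        rw [Nat.card_Icc, Nat.add_sub_cancel] at h6
        exact_mod_cast h6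

/-- H14a. -/
lemma Af_zero (N r : ℕ) (χ : DirichletCharacter ℂ r) (t : ℝ) (ht : t < 2) : Af N r χ t = 0 := by
  unfold Af SumC
  have h1 : ⌊t⌋₊ < 2 := (Nat.floor_lt' (by norm_num)).2 (by exact_mod_cast ht)
  refine Finset.sum_eq_zero fun k hk => ?_
  rw [Finset.mem_Icc] at hk
  have hk1 : k = 1 := by omega
  subst hk1
  have h2 : aA N 1 = 0 := by
    unfold aA
    refine Finset.sum_eq_zero fun d hd => ?_
    rw [Finset.mem_filter, Nat.divisors_one, Finset.mem_singleton] at hd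
    rw [hd.1]
    norm_num
  simp only [h2, Complex.ofReal_zero, mul_zero]

/-- H14b. -/
lemma Af_bound (N r : ℕ) [NeZero r] (χ : DirichletCharacter ℂ r) (hχ : χ ≠ 1) (a : ℝ)
    (ha : 0 < a) : ∃ C : ℝ, ∀ t : ℝ, 1 < t → ‖Af N r χ t‖ ≤ C * t ^ a := by
  refine ⟨N * (4 * r * (2 ^ a / a)), fun t ht => ?_⟩
  unfold Af SumC
  have ht0 : 0 < t := by linarith
  refine (H14_partial N r χ hχ ⌊t⌋₊).trans ?_
  have h1 : ((⌊t⌋₊ : ℕ) : ℝ) ≤ t := Nat.floor_le ht0.le
  have h2 : Real.log (((⌊t⌋₊ : ℕ) : ℝ) + 1) ≤ Real.log (2 * t) := by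
    apply Real.log_le_log (by positivity)
    linarith
  have h3 := Real.log_le_rpow_div (show 0 ≤ 2 * t by linarith) ha
  rw [Real.mul_rpow (by norm_num) ht0.le] at h3
  have h4 : Real.log (((⌊t⌋₊ : ℕ) : ℝ) + 1) ≤ 2 ^ a / a * t ^ a := by
    calc _ ≤ _ := h2.trans h3
      _ = _ := by ring
  calc (N : ℝ) * (4 * r * Real.log (((⌊t⌋₊ : ℕ) : ℝ) + 1))
      ≤ N * (4 * r * (2 ^ a / a * t ^ a)) := by gcongr
    _ = _ := by ring

lemma H14_f_summable (N r : ℕ) (χ : DirichletCharacter ℂ r) (s : ℂ) :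
    LSeriesSummable (H14_f N r χ) s := by
  refine summable_of_ne_finset_zero (s := Finset.Icc 1 N) fun n hn => ?_
  by_cases h0 : n = 0
  · rw [h0, LSeries.term_zero]
  · rw [LSeries.term_of_ne_zero h0]
    have : ¬ n ≤ N := fun h => hn (Finset.mem_Icc.2 ⟨Nat.one_le_iff_ne_zero.2 h0, h⟩)
    unfold H14_f
    rw [if_neg this, zero_div]

lemma H14_f_LSeries (N r : ℕ) (χ : DirichletCharacter ℂ r) (s : ℂ) :
    LSeries (H14_f N r χ) s = Mol N r χ s := by
  unfold LSeries Mol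
  rw [tsum_eq_sum (s := Finset.Icc 1 N)]
  · refine Finset.sum_congr rfl fun n hn => ?_
    rw [Finset.mem_Icc] at hn
    rw [LSeries.term_of_ne_zero (by omega)]
    unfold H14_f
    rw [if_pos hn.2, Complex.cpow_neg, div_eq_mul_inv]
  · intro n hn
    by_cases h0 : n = 0
    · rw [h0, LSeries.term_zero]
    · rw [LSeries.term_of_ne_zero h0]
      have : ¬ n ≤ N := fun h => hn (Finset.mem_Icc.2 ⟨Nat.one_le_iff_ne_zero.2 h0, h⟩)
      unfold H14_f
      rw [if_neg this, zero_div]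

lemma H14_LF (r : ℕ) [NeZero r] (χ : DirichletCharacter ℂ r) : LF r χ = χ.LFunction := by
  funext s
  unfold LF
  rw [dif_neg (NeZero.ne r)]

lemma H14_Mol_diff (N r : ℕ) (χ : DirichletCharacter ℂ r) : Differentiable ℂ (Mol N r χ) := by
  unfold Mol
  refine Differentiable.fun_sum fun m hm => ?_
  rw [Finset.mem_Icc] at hm
  have hm0 : (m : ℂ) ≠ 0 := Nat.cast_ne_zero.2 (by omega)
  refine Differentiable.const_mul ?_ _
  intro s
  exact (differentiableAt_id.neg).const_cpow (Or.inl hm0)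

/-- H14c. (uses H14b) -/
lemma Af_MT (N r : ℕ) [NeZero r] (χ : DirichletCharacter ℂ r) (hχ : χ ≠ 1) (s : ℂ)
    (hs : 0 < s.re) : s * MT (Af N r χ) s = - (deriv (LF r χ) s * Mol N r χ s) := by
  have hr : r ≠ 0 := NeZero.ne r
  have hmeas : Measurable (Af N r χ) := SumC_measurable _
  refine eqOn_halfplane (fun s => s * MT (Af N r χ) s)
    (fun s => - (deriv (LF r χ) s * Mol N r χ s)) 0 1 zero_le_one ?_ ?_ ?_ s hs
  · intro z hz
    have hz' : 0 < z.re := hz
    obtain ⟨C, hC⟩ := Af_bound N r χ hχ (z.re / 2) (by linarith)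
    exact (differentiableAt_id.mul
      (MT_differentiableAt (Af N r χ) C (z.re / 2) hmeas hC z (by linarith))).differentiableWithinAt
  · rw [H14_LF]
    have h1 : Differentiable ℂ χ.LFunction := DirichletCharacter.differentiable_LFunction hχ
    have h2 : Differentiable ℂ (deriv χ.LFunction) := by
      intro z
      exact ((h1.differentiableOn.deriv isOpen_univ).differentiableAt
        (isOpen_univ.mem_nhds (Set.mem_univ z)))
    exact ((h2.mul (H14_Mol_diff N r χ)).neg).differentiableOn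
  · intro z hz
    have hab : LSeries.abscissaOfAbsConv (fun n => χ n) < (z.re : EReal) := by
      have h3 := DirichletCharacter.absicssaOfAbsConv_eq_one hr χ
      rw [h3]
      exact_mod_cast hz
    have hg : LSeriesSummable (H14_g r χ) z := LSeriesSummable_logMul_of_lt_re hab
    have hf := H14_f_summable N r χ z
    have hconv := LSeries_convolution' hf hg
    have hcongr : LSeries.convolution (H14_f N r χ) (H14_g r χ)
        = fun n : ℕ => χ n * ((aA N n : ℝ) : ℂ) := funext fun n => H14_conv N r χ n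
    have hsum := hf.convolution hg
    rw [hcongr] at hconv hsum
    have hLg : LSeries (H14_g r χ) z = - deriv (LF r χ) z := by
      rw [H14_LF, DirichletCharacter.deriv_LFunction_eq_deriv_LSeries χ hz, LSeries_deriv hab,
        neg_neg]
      rfl
    rw [H14_f_LSeries, hLg] at hconv
    have hO : (fun n : ℕ => ∑ k ∈ Finset.Icc 1 n, χ k * ((aA N k : ℝ) : ℂ))
        =O[Filter.atTop] fun n : ℕ => (n : ℝ) ^ (1 : ℝ) := by
      obtain ⟨C, hC⟩ := Af_bound N r χ hχ 1 one_pos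
      refine Asymptotics.IsBigO.of_bound C ?_
      filter_upwards [Filter.eventually_gt_atTop 1] with n hn
      have h5 := hC n (by exact_mod_cast hn)
      unfold Af SumC at h5
      rw [Nat.floor_natCast] at h5
      rw [Real.norm_of_nonneg (by positivity)]
      exact h5
    have hint := LSeries_eq_mul_integral (fun n : ℕ => χ n * ((aA N n : ℝ) : ℂ)) zero_le_one hz hsum hO
    have hMT : MT (Af N r χ) z
        = ∫ t in Set.Ioi (1 : ℝ), (∑ k ∈ Finset.Icc 1 ⌊t⌋₊, χ k * ((aA N k : ℝ) : ℂ))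
          * (t : ℂ) ^ (-(z + 1)) := rfl
    rw [hMT, ← hint, hconv]
    ring

end Pool.Agent.MC.C2
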