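import Mathlib
import Pool.Agent.Lib.MP_9cfc0a_nt.C2H14

set_option autoImplicit false

namespace Pool.Agent.MC.C2

open Pool.Agent.MC Pool.Agent.MC.C1 MeasureTheory Real Complex

-- H15 (helper97): USES the skeleton lemmas `Af_zero`, `Af_bound`, `Af_MT` (H14): put them before this file.

lemma H15_LF (r : ℕ) [NeZero r] (χ : DirichletCharacter ℂ r) : LF r χ = χ.LFunction := by
  funext s
  unfold LF
  rw [dif_neg (NeZero.ne r)]

lemma H15_Af_measurable (N r : ℕ) (χ : DirichletCharacter ℂ r) : Measurable (Af N r χ) := by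
  unfold Af
  exact SumC_measurable _

lemma H15_Bf_measurable (N r : ℕ) (χ : DirichletCharacter ℂ r) : Measurable (Bf N r χ) := by
  unfold Bf
  exact (EX_measurable r χ).sub (H15_Af_measurable N r χ)

lemma H15_EX_bound (r : ℕ) [NeZero r] (χ : DirichletCharacter ℂ r) (θ : ℝ)
    (hθ : 1 / 2 ≤ θ) (hθ1 : θ < 1) (hZ : ZF r θ) (a : ℝ) (ha : θ < a) :
    ∃ C : ℝ, ∀ t : ℝ, 1 < t → ‖EX r χ t‖ ≤ C * t ^ a := by
  obtain ⟨C, hC⟩ := EB_of_ZF r θ hθ hθ1 hZ (a - θ) (by linarith)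
  have e : θ + (a - θ) = a := by ring
  rw [e] at hC
  refine ⟨r * C, fun t ht => ?_⟩
  refine EX_bound r χ C a t (fun b hb => hC t ht.le b hb) ?_
  exact (abs_nonneg _).trans (hC t ht.le 1 (Nat.coprime_one_left r))

/-- H15a. (uses H14) -/
lemma Bf_bound (N r : ℕ) [NeZero r] (χ : DirichletCharacter ℂ r) (hχ : χ ≠ 1) (θ : ℝ)
    (hθ : 1 / 2 ≤ θ) (hθ1 : θ < 1) (hZ : ZF r θ) (a : ℝ) (ha : θ < a) :
    ∃ C : ℝ, ∀ t : ℝ, 1 < t → ‖Bf N r χ t‖ ≤ C * t ^ a := by
  obtain ⟨C1, h1⟩ := H15_EX_bound r χ θ hθ hθ1 hZ a ha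
  obtain ⟨C2, h2⟩ := Af_bound N r χ hχ a (by linarith)
  refine ⟨C1 + C2, fun t ht => ?_⟩
  unfold Bf
  refine (norm_sub_le _ _).trans ?_
  rw [add_mul]
  exact add_le_add (h1 t ht) (h2 t ht)

/-- H15b. (uses H14, H15a) -/
lemma Bf_MT (N r : ℕ) [NeZero r] (χ : DirichletCharacter ℂ r) (hχ : χ ≠ 1) (θ : ℝ)
    (hθ : 1 / 2 ≤ θ) (hθ1 : θ < 1) (hZ : ZF r θ) (s : ℂ) (hs : θ < s.re) :
    s * MT (Bf N r χ) s
      = - (deriv (FF r χ) s / FF r χ s) * (1 - LF r χ s * Mol N r χ s) := by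
  have hLF : LF r χ = χ.LFunction := H15_LF r χ
  have hFF : FF r χ = χ.LFunction := FF_of_ne r χ hχ
  have hdF : Differentiable ℂ (FF r χ) := FF_differentiable r χ
  have hMol : Differentiable ℂ (Mol N r χ) := by
    intro z
    unfold Mol
    refine DifferentiableAt.fun_sum fun m hm => ?_
    have hm0 : (m : ℂ) ≠ 0 := by
      have := (Finset.mem_Icc.mp hm).1
      exact_mod_cast (by omega : m ≠ 0)
    exact (differentiableAt_const _).mul ((differentiableAt_id.neg).const_cpow (Or.inl hm0))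
  refine eqOn_halfplane (fun s => s * MT (Bf N r χ) s)
    (fun s => - (deriv (FF r χ) s / FF r χ s) * (1 - LF r χ s * Mol N r χ s)) θ 1 hθ1.le
    ?_ ?_ ?_ s hs
  · intro z hz
    have hz' : θ < z.re := hz
    obtain ⟨C, hC⟩ := Bf_bound N r χ hχ θ hθ hθ1 hZ ((θ + z.re) / 2) (by linarith)
    exact (differentiableAt_id.mul (MT_differentiableAt (Bf N r χ) C _ (H15_Bf_measurable N r χ)
      hC z (by linarith))).differentiableWithinAt
  · refine DifferentiableOn.mul ?_ ?_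
    · refine (DifferentiableOn.div ?_ hdF.differentiableOn ?_).neg
      · exact (hdF.contDiff.differentiable_deriv_two).differentiableOn
      · exact fun z hz => FF_ne_zero r θ hZ χ z hz
    · rw [hLF, ← hFF]
      exact (differentiableOn_const _).sub (hdF.differentiableOn.mul hMol.differentiableOn)
  · intro z hz
    have hE := logDeriv_eq_MT r χ z hz
    rw [dl_of_ne r χ hχ, zero_mul, add_zero] at hE
    have hA := Af_MT N r χ hχ z (by linarith)
    obtain ⟨C1, h1⟩ := H15_EX_bound r χ θ hθ hθ1 hZ 1 hθ1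
    obtain ⟨C2, h2⟩ := Af_bound N r χ hχ 1 one_pos
    have i1 := MT_integrable (EX r χ) C1 1 (EX_measurable r χ) h1 z hz
    have i2 := MT_integrable (Af N r χ) C2 1 (H15_Af_measurable N r χ) h2 z hz
    have hS : MT (Bf N r χ) z = MT (EX r χ) z - MT (Af N r χ) z :=
      MT_sub (EX r χ) (Af N r χ) z i1 i2
    have hne : χ.LFunction z ≠ 0 := by
      rw [← hFF]
      exact FF_ne_zero r θ hZ χ z (by linarith)
    show z * MT (Bf N r χ) z = - (deriv (FF r χ) z / FF r χ z) * (1 - LF r χ z * Mol N r χ z)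
    rw [hS, mul_sub, ← hE, hA, hLF, hFF]
    field_simp
    ring

/-- H15c. -/
lemma Bf_zero (N r : ℕ) (χ : DirichletCharacter ℂ r) (hχ : χ ≠ 1) (t : ℝ) (ht : t < 2) :
    Bf N r χ t = 0 := by
  unfold Bf EX
  rw [Af_zero N r χ t ht, dl_of_ne r χ hχ, zero_mul, sub_zero, sub_zero]
  unfold SumC
  refine Finset.sum_eq_zero fun k hk => ?_
  have hk' := Finset.mem_Icc.mp hk
  have h2 : ⌊t⌋₊ < 2 := by
    rcases lt_or_ge t 0 with h | h
    · rw [Nat.floor_of_nonpos h.le]; norm_num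
    · exact (Nat.floor_lt h).mpr (by exact_mod_cast ht)
  have hk1 : k = 1 := by omega
  subst hk1
  unfold cL
  simp

end Pool.Agent.MC.C2
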