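import Mathlib
import Pool.Agent.Lib.MP_9cfc0a_nt.C2Base

set_option autoImplicit false

namespace Pool.Agent.MC.C2

open Pool.Agent.MC Pool.Agent.MC.C1 MeasureTheory Real Complex

lemma H2_cont (δ : ℝ) (hδ : 0 < δ) : Continuous (wt δ) := by
  unfold wt
  refine continuous_const.div (by fun_prop) (fun t => ?_)
  have : 0 < max (1 / δ) |t| := lt_max_of_lt_left (by positivity)
  positivity

lemma H2_nonneg (δ t : ℝ) : 0 ≤ wt δ t := by
  unfold wt
  positivity

lemma H2_le (δ a t : ℝ) (ha : 0 < a) (h : a ≤ |t|) : wt δ t ≤ 1 / a ^ 2 := by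
  unfold wt
  apply one_div_le_one_div_of_le (by positivity)
  exact pow_le_pow_left₀ ha.le (h.trans (le_max_right _ _)) 2

lemma H2_le' (δ t : ℝ) (hδ : 0 < δ) : wt δ t ≤ δ ^ 2 := by
  unfold wt
  rw [div_le_iff₀ (by have : 0 < max (1 / δ) |t| := lt_max_of_lt_left (by positivity)
                      positivity)]
  have h1 : 1 / δ ≤ max (1 / δ) |t| := le_max_left _ _
  have h2 : 1 ≤ δ * max (1 / δ) |t| := by
    calc (1 : ℝ) = δ * (1 / δ) := by field_simp
      _ ≤ _ := mul_le_mul_of_nonneg_left h1 hδ.le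
  calc (1 : ℝ) ≤ (δ * max (1 / δ) |t|) ^ 2 := one_le_pow₀ h2
    _ = _ := by ring

lemma H2_int (D : ℝ → ℝ) (hDm : ∀ a b : ℝ, IntervalIntegrable D volume a b) (δ : ℝ) (hδ : 0 < δ)
    (a b : ℝ) : IntervalIntegrable (fun t => D t * wt δ t) volume a b :=
  (hDm a b).mul_continuousOn (H2_cont δ hδ).continuousOn

lemma H2_step (D : ℝ → ℝ) (hD0 : ∀ t, 0 ≤ D t)
    (hDm : ∀ a b : ℝ, IntervalIntegrable D volume a b) (δ : ℝ) (hδ : 0 < δ) (a b : ℝ) (ha : 0 < a)
    (hab : a ≤ b) : ∫ t in (-b)..b, D t * wt δ t ≤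
      (∫ t in (-a)..a, D t * wt δ t) + (1 / a ^ 2) * ∫ t in (-b)..b, D t := by
  have hI := H2_int D hDm δ hδ
  have e1 : ∫ t in (-b)..b, D t * wt δ t = (∫ t in (-b)..(-a), D t * wt δ t) +
      (∫ t in (-a)..a, D t * wt δ t) + ∫ t in a..b, D t * wt δ t := by
    rw [intervalIntegral.integral_add_adjacent_intervals (hI _ _) (hI _ _),
      intervalIntegral.integral_add_adjacent_intervals (hI _ _) (hI _ _)]
  have e2 : ∫ t in (-b)..b, D t = (∫ t in (-b)..(-a), D t) +
      (∫ t in (-a)..a, D t) + ∫ t in a..b, D t := by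
    rw [intervalIntegral.integral_add_adjacent_intervals (hDm _ _) (hDm _ _),
      intervalIntegral.integral_add_adjacent_intervals (hDm _ _) (hDm _ _)]
  have h1 : ∫ t in (-b)..(-a), D t * wt δ t ≤ ∫ t in (-b)..(-a), D t * (1 / a ^ 2) := by
    refine intervalIntegral.integral_mono_on (by linarith) (hI _ _) ((hDm _ _).mul_const _)
      (fun t ht => ?_)
    refine mul_le_mul_of_nonneg_left (H2_le δ a t ha ?_) (hD0 t)
    rw [abs_of_nonpos (by linarith [ht.2])]
    linarith [ht.2]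
  have h2 : ∫ t in a..b, D t * wt δ t ≤ ∫ t in a..b, D t * (1 / a ^ 2) := by
    refine intervalIntegral.integral_mono_on hab (hI _ _) ((hDm _ _).mul_const _)
      (fun t ht => ?_)
    refine mul_le_mul_of_nonneg_left (H2_le δ a t ha ?_) (hD0 t)
    exact ht.1.trans (le_abs_self t)
  rw [intervalIntegral.integral_mul_const] at h1 h2
  have h3 : 0 ≤ ∫ t in (-a)..a, D t :=
    intervalIntegral.integral_nonneg (by linarith) (fun t _ => hD0 t)
  have h4 : 0 ≤ 1 / a ^ 2 := by positivity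
  rw [e1, e2]
  nlinarith [mul_nonneg h4 h3]

/-- H2. The weighted integral. -/
lemma weight_le {ι : Type*} (S : Finset ι) (D : ι → ℝ → ℝ) (hD0 : ∀ i ∈ S, ∀ t, 0 ≤ D i t)
    (hDm : ∀ i ∈ S, ∀ a b : ℝ, IntervalIntegrable (D i) volume a b) (B κ : ℝ) (hB : 0 ≤ B)
    (hκ0 : 0 ≤ κ) (hκ : κ ≤ 1 / 2)
    (h : ∀ T : ℝ, 1 ≤ T → ∑ i ∈ S, ∫ t in (-T)..T, D i t ≤ B * T ^ (1 + κ))
    (δ : ℝ) (hδ0 : 0 < δ) (hδ1 : δ ≤ 1) :
    (∀ i ∈ S, Integrable (fun t => D i t * wt δ t)) ∧
      ∑ i ∈ S, ∫ t, D i t * wt δ t ≤ 16 * B * δ ^ (1 - κ) := by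
  set T : ℕ → ℝ := fun n => 2 ^ n / δ with hT
  have hT1 : ∀ n, 1 ≤ T n := by
    intro n
    rw [hT]
    simp only
    rw [le_div_iff₀ hδ0, one_mul]
    exact hδ1.trans (one_le_pow₀ (by norm_num))
  have hTpos : ∀ n, 0 < T n := fun n => lt_of_lt_of_le one_pos (hT1 n)
  have hTs : ∀ n, T (n + 1) = 2 * T n := fun n => by
    simp only [hT]
    rw [pow_succ]
    ring
  have hT0 : T 0 = 1 / δ := by simp [hT]
  -- numerical facts
  have hq : (2 : ℝ) ^ (κ - 1) ≤ 0.7072 := by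
    have h1 : (2 : ℝ) ^ (κ - 1) ≤ (2 : ℝ) ^ (-(1 / 2) : ℝ) :=
      rpow_le_rpow_of_exponent_le (by norm_num) (by linarith)
    refine h1.trans ?_
    rw [rpow_neg (by norm_num), ← sqrt_eq_rpow, inv_le_comm₀ (by positivity) (by norm_num)]
    rw [le_sqrt (by norm_num) (by norm_num)]
    norm_num
  have hq4 : (2 : ℝ) ^ (1 + κ) = 4 * (2 : ℝ) ^ (κ - 1) := by
    rw [show (1 + κ) = 2 + (κ - 1) by ring, rpow_add (by norm_num)]
    norm_num
  have hbound : ∀ n, ∑ i ∈ S, ∫ t in (-(T n))..(T n), D i t * wt δ t ≤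
      B * (16 * δ ^ (1 - κ) - 10 * T n ^ (κ - 1)) := by
    intro n
    induction n with
    | zero =>
      have h1 : ∀ i ∈ S, ∫ t in (-(T 0))..(T 0), D i t * wt δ t ≤
          (∫ t in (-(T 0))..(T 0), D i t) * δ ^ 2 := by
        intro i hi
        rw [← intervalIntegral.integral_mul_const]
        refine intervalIntegral.integral_mono_on (by linarith [hTpos 0])
          (H2_int _ (hDm i hi) δ hδ0 _ _) ((hDm i hi _ _).mul_const _) (fun t _ => ?_)
        exact mul_le_mul_of_nonneg_left (H2_le' δ t hδ0) (hD0 i hi t)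
      have h2 := Finset.sum_le_sum h1
      rw [← Finset.sum_mul] at h2
      have h3 := mul_le_mul_of_nonneg_right (h (T 0) (hT1 0)) (by positivity : 0 ≤ δ ^ 2)
      refine (h2.trans h3).trans ?_
      have h4 : T 0 ^ (1 + κ) * δ ^ 2 = δ ^ (1 - κ) := by
        rw [hT0, one_div, inv_rpow hδ0.le, ← rpow_neg hδ0.le, ← rpow_natCast, ← rpow_add hδ0]
        congr 1
        push_cast
        ring
      have h5 : T 0 ^ (κ - 1) = δ ^ (1 - κ) := by
        rw [hT0, one_div, inv_rpow hδ0.le, ← rpow_neg hδ0.le]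
        congr 1
        ring
      rw [mul_assoc, h4, h5]
      have h6 : 0 ≤ δ ^ (1 - κ) := by positivity
      nlinarith [mul_nonneg hB h6]
    | succ n ih =>
      have h1 : ∀ i ∈ S, ∫ t in (-(T (n + 1)))..(T (n + 1)), D i t * wt δ t ≤
          (∫ t in (-(T n))..(T n), D i t * wt δ t) +
            (1 / T n ^ 2) * ∫ t in (-(T (n + 1)))..(T (n + 1)), D i t := fun i hi =>
        H2_step (D i) (hD0 i hi) (hDm i hi) δ hδ0 _ _ (hTpos n) (by
          rw [hTs]
          linarith [hTpos n])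
      have h2 := Finset.sum_le_sum h1
      rw [Finset.sum_add_distrib, ← Finset.mul_sum] at h2
      have h3 := mul_le_mul_of_nonneg_left (h (T (n + 1)) (hT1 _))
        (by positivity : 0 ≤ 1 / T n ^ 2)
      have h4 : 1 / T n ^ 2 * (B * T (n + 1) ^ (1 + κ)) =
          B * (4 * (2 : ℝ) ^ (κ - 1)) * T n ^ (κ - 1) := by
        rw [hTs, mul_rpow (by norm_num) (hTpos n).le, hq4]
        have h5 : T n ^ (1 + κ) = T n ^ 2 * T n ^ (κ - 1) := by
          rw [← rpow_natCast, ← rpow_add (hTpos n)]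
          congr 1
          push_cast
          ring
        rw [h5]
        have := (hTpos n).ne'
        field_simp
      have h6 : T (n + 1) ^ (κ - 1) = (2 : ℝ) ^ (κ - 1) * T n ^ (κ - 1) := by
        rw [hTs, mul_rpow (by norm_num) (hTpos n).le]
      rw [h4] at h3
      rw [h6]
      have h7 : 0 ≤ T n ^ (κ - 1) := rpow_nonneg (hTpos n).le _
      have h8 : 0 ≤ B * T n ^ (κ - 1) := mul_nonneg hB h7
      nlinarith [mul_le_mul_of_nonneg_left hq h8]
  have hbound' : ∀ n, ∑ i ∈ S, ∫ t in (-(T n))..(T n), D i t * wt δ t ≤ 16 * B * δ ^ (1 - κ) := by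
    intro n
    have h7 : 0 ≤ T n ^ (κ - 1) := rpow_nonneg (hTpos n).le _
    nlinarith [hbound n, mul_nonneg hB h7]
  have hTtop : Filter.Tendsto T Filter.atTop Filter.atTop := by
    simp only [hT]
    exact (tendsto_pow_atTop_atTop_of_one_lt (by norm_num)).atTop_div_const hδ0
  have hTbot : Filter.Tendsto (fun n => -T n) Filter.atTop Filter.atBot :=
    Filter.tendsto_neg_atTop_atBot.comp hTtop
  have hnn : ∀ i ∈ S, ∀ n, 0 ≤ ∫ t in (-(T n))..(T n), D i t * wt δ t := fun i hi n =>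
    intervalIntegral.integral_nonneg (by linarith [hTpos n])
      (fun t _ => mul_nonneg (hD0 i hi t) (H2_nonneg δ t))
  have hInt : ∀ i ∈ S, Integrable (fun t => D i t * wt δ t) := by
    intro i hi
    refine integrable_of_intervalIntegral_norm_bounded (16 * B * δ ^ (1 - κ)) (fun n => ?_)
      hTbot hTtop (Filter.Eventually.of_forall fun n => ?_)
    · exact (H2_int _ (hDm i hi) δ hδ0 (-(T n)) (T n)).1
    · refine le_trans ?_ (hbound' n)
      have h1 : ∀ t, ‖D i t * wt δ t‖ = D i t * wt δ t := fun t =>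
        Real.norm_of_nonneg (mul_nonneg (hD0 i hi t) (H2_nonneg δ t))
      simp_rw [h1]
      exact Finset.single_le_sum (f := fun i => ∫ t in (-(T n))..(T n), D i t * wt δ t)
        (fun j hj => hnn j hj n) hi
  refine ⟨hInt, ?_⟩
  have hlim := tendsto_finsetSum S (fun i hi =>
    intervalIntegral_tendsto_integral (hInt i hi) hTbot hTtop)
  exact le_of_tendsto' hlim hbound'

end Pool.Agent.MC.C2
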