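import Mathlib
import Pool.Agent.Lib.MP_9cfc0a_nt.C2H2
import Pool.Agent.Lib.MP_9cfc0a_nt.Mg.G076
import Pool.Agent.Lib.MP_9cfc0a_nt.Mg.G072

set_option autoImplicit false

namespace Pool.Agent.MC.C2

open Pool.Agent.MC Pool.Agent.MC.C1 MeasureTheory Real Complex

-- H16 (helper97): USES the skeleton lemmas `weight_le` (H2), `incr_le` (H3), `logDeriv_unif` (H8).

lemma H16_EX_bound (r : ℕ) [NeZero r] (χ : DirichletCharacter ℂ r) (θ : ℝ)
    (hθ : 1 / 2 ≤ θ) (hθ1 : θ < 1) (hZ : ZF r θ) (a : ℝ) (ha : θ < a) :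
    ∃ C : ℝ, ∀ t : ℝ, 1 < t → ‖EX r χ t‖ ≤ C * t ^ a := by
  obtain ⟨C, hC⟩ := EB_of_ZF r θ hθ hθ1 hZ (a - θ) (by linarith)
  have e : θ + (a - θ) = a := by ring
  rw [e] at hC
  refine ⟨r * C, fun t ht => ?_⟩
  refine EX_bound r χ C a t (fun b hb => hC t ht.le b hb) ?_
  exact (abs_nonneg _).trans (hC t ht.le 1 (Nat.coprime_one_left r))

lemma H16_MT (θ : ℝ) (hθ : 1 / 2 ≤ θ) (hθ1 : θ < 1) (hZ : ZF 1 θ) (s : ℂ) (hs : θ < s.re) :
    s * MT (EX 1 1) s = - (deriv (FF 1 1) s / FF 1 1 s) - 1 := by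
  have hdF : Differentiable ℂ (FF 1 1) := FF_differentiable 1 1
  refine eqOn_halfplane (fun s => s * MT (EX 1 1) s)
    (fun s => - (deriv (FF 1 1) s / FF 1 1 s) - 1) θ 1 hθ1.le ?_ ?_ ?_ s hs
  · intro z hz
    have hz' : θ < z.re := hz
    obtain ⟨C, hC⟩ := H16_EX_bound 1 1 θ hθ hθ1 hZ ((θ + z.re) / 2) (by linarith)
    exact (differentiableAt_id.mul (MT_differentiableAt (EX 1 1) C _ (EX_measurable 1 1)
      hC z (by linarith))).differentiableWithinAt
  · refine DifferentiableOn.sub ?_ (differentiableOn_const _)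
    refine (DifferentiableOn.div ?_ hdF.differentiableOn ?_).neg
    · exact (hdF.contDiff.differentiable_deriv_two).differentiableOn
    · exact fun z hz => FF_ne_zero 1 θ hZ 1 z hz
  · intro z hz
    have hz1 : z ≠ 1 := by
      intro h; rw [h] at hz; norm_num at hz
    have hE := logDeriv_eq_MT 1 1 z hz
    rw [dl_one, one_mul] at hE
    have hval : FF 1 1 z = (z - 1) * (1 : DirichletCharacter ℂ 1).LFunction z :=
      FF_one_apply 1 z hz1
    have hne : (1 : DirichletCharacter ℂ 1).LFunction z ≠ 0 := by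
      have := FF_ne_zero 1 θ hZ 1 z (by linarith)
      rw [hval] at this
      exact right_ne_zero_of_mul this
    have hdL : DifferentiableAt ℂ (1 : DirichletCharacter ℂ 1).LFunction z :=
      DirichletCharacter.differentiableAt_LFunction _ z (Or.inl hz1)
    have hev : (FF 1 1) =ᶠ[nhds z] fun w => (w - 1) * (1 : DirichletCharacter ℂ 1).LFunction w := by
      filter_upwards [isOpen_ne.mem_nhds hz1] with w hw
      exact FF_one_apply 1 w hw
    have hder : deriv (FF 1 1) z = (1 : DirichletCharacter ℂ 1).LFunction z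
        + (z - 1) * deriv (1 : DirichletCharacter ℂ 1).LFunction z := by
      rw [hev.deriv_eq]
      have h1 : HasDerivAt (fun w : ℂ => w - 1) 1 z := (hasDerivAt_id z).sub_const 1
      have h2 := h1.mul hdL.hasDerivAt
      have h3 := h2.deriv
      rw [one_mul] at h3
      exact h3
    have hz1' : z - 1 ≠ 0 := sub_ne_zero.mpr hz1
    show z * MT (EX 1 1) z = - (deriv (FF 1 1) z / FF 1 1 z) - 1
    have hE' : z * MT (EX 1 1) z = -(deriv (1 : DirichletCharacter ℂ 1).LFunction z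
        / (1 : DirichletCharacter ℂ 1).LFunction z) - z / (z - 1) := by
      rw [hE]; ring
    rw [hE', hder, hval]
    field_simp
    ring

/-- the function, cut off at one -/
noncomputable def H16f (t : ℝ) : ℂ := if 1 < t then EX 1 1 t else 0

lemma H16f_meas : Measurable H16f := by
  unfold H16f
  exact Measurable.ite measurableSet_Ioi (EX_measurable 1 1) measurable_const

lemma H16f_MT (s : ℂ) : MT H16f s = MT (EX 1 1) s := by
  unfold MT
  refine setIntegral_congr_fun measurableSet_Ioi fun t ht => ?_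
  have ht' : 1 < t := ht
  simp only [H16f, if_pos ht']

/-- H16. The trivial character modulo one (uses H2, H3, H8). -/
lemma inc_one (θ : ℝ) (hθ : 1 / 2 ≤ θ) (hθ1 : θ < 1) (hZ : ZF 1 θ) (ε : ℝ) (hε : 0 < ε) :
    ∃ C : ℝ, 0 ≤ C ∧ ∀ X : ℝ, 2 ≤ X → ∀ h : ℝ, 1 / X ≤ h → h ≤ 1 →
    ∫ u in (Real.log X - 1)..(Real.log X),
      ‖EX 1 1 (Real.exp (u + h)) - EX 1 1 (Real.exp u)‖ ^ 2 ≤ C * h * X ^ (2 * θ + ε) := by
  set δ : ℝ := min (ε / 8) (1 / 4) with hδdef
  have hδ0 : 0 < δ := lt_min (by linarith) (by norm_num)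
  have hδ1 : δ ≤ ε / 8 := min_le_left _ _
  have hδ2 : δ ≤ 1 / 4 := min_le_right _ _
  set σ : ℝ := θ + 2 * δ with hσdef
  set κ : ℝ := δ with hκdef
  obtain ⟨C1, h1⟩ := H16_EX_bound 1 1 θ hθ hθ1 hZ (θ + δ) (by linarith)
  obtain ⟨C8, hC8, h8⟩ := logDeriv_unif θ hθ hθ1 δ κ hδ0 hδ0
  set K : ℝ := ∑ k ∈ Finset.Icc 1 ⌊(9 : ℝ)⌋₊, ArithmeticFunction.vonMangoldt k + ‖dl 1 1‖ * 9
    with hK
  set B : ℝ := 2 * (C8 + 1) ^ 2 * 7 ^ (2 * κ) with hB
  have hB0 : 0 ≤ B := by positivity
  set D : ℝ → ℝ := fun t => ‖((σ : ℂ) + t * I) * MT H16f ((σ : ℂ) + t * I)‖ ^ 2 with hD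
  have hre : ∀ t : ℝ, ((σ : ℂ) + t * I).re = σ := by intro t; simp
  have him : ∀ t : ℝ, ((σ : ℂ) + t * I).im = t := by intro t; simp
  have hDval : ∀ t : ℝ, ((σ : ℂ) + t * I) * MT H16f ((σ : ℂ) + t * I)
      = - (deriv (FF 1 1) ((σ : ℂ) + t * I) / FF 1 1 ((σ : ℂ) + t * I)) - 1 := by
    intro t
    rw [H16f_MT]
    exact H16_MT θ hθ hθ1 hZ _ (by rw [hre]; linarith)
  have hDle : ∀ t : ℝ, D t ≤ (C8 + 1) ^ 2 * (|t| + 6) ^ (2 * κ) := by
    intro t
    have hb := h8 1 hZ 1 ((σ : ℂ) + t * I) (by rw [hre]; linarith) (by rw [hre]; linarith)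
    rw [him, Nat.cast_one, one_mul] at hb
    have hp : 0 < |t| + 6 := by positivity
    have hone : 1 ≤ (|t| + 6) ^ κ := Real.one_le_rpow (by linarith [abs_nonneg t]) hδ0.le
    have hn : ‖((σ : ℂ) + t * I) * MT H16f ((σ : ℂ) + t * I)‖ ≤ (C8 + 1) * (|t| + 6) ^ κ := by
      rw [hDval]
      refine (norm_sub_le _ _).trans ?_
      rw [norm_neg, norm_one]
      nlinarith
    calc D t = ‖((σ : ℂ) + t * I) * MT H16f ((σ : ℂ) + t * I)‖ ^ 2 := rfl
      _ ≤ ((C8 + 1) * (|t| + 6) ^ κ) ^ 2 := by gcongr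
      _ = (C8 + 1) ^ 2 * (|t| + 6) ^ (2 * κ) := by
          rw [mul_pow, ← Real.rpow_natCast ((|t| + 6) ^ κ) 2, ← Real.rpow_mul hp.le]
          congr 2
          push_cast
          ring
  have hDcont : Continuous D := by
    have h0 : D = fun t : ℝ => ‖- (deriv (FF 1 1) ((σ : ℂ) + t * I) / FF 1 1 ((σ : ℂ) + t * I)) - 1‖ ^ 2 := by
      funext t
      show ‖((σ : ℂ) + t * I) * MT H16f ((σ : ℂ) + t * I)‖ ^ 2 = _
      rw [hDval]
    rw [h0]
    have hdF : Differentiable ℂ (FF 1 1) := FF_differentiable 1 1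
    have c1 : Continuous (fun t : ℝ => FF 1 1 ((σ : ℂ) + t * I)) :=
      hdF.continuous.comp (by fun_prop)
    have c2 : Continuous (fun t : ℝ => deriv (FF 1 1) ((σ : ℂ) + t * I)) :=
      (hdF.contDiff.differentiable_deriv_two).continuous.comp (by fun_prop)
    refine ((((c2.div c1 ?_).neg).sub continuous_const).norm).pow 2
    intro t
    exact FF_ne_zero 1 θ hZ 1 _ (by rw [hre]; linarith)
  have hweight : ∀ h : ℝ, 0 < h → h ≤ 1 →
      Integrable (fun t => D t * wt h t) ∧ ∫ t, D t * wt h t ≤ 16 * B * h ^ (1 - 2 * κ) := by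
    intro h hh0 hh1
    have := weight_le ({()} : Finset Unit) (fun _ => D) (fun _ _ t => by positivity)
      (fun _ _ a b => hDcont.intervalIntegrable a b) B (2 * κ) hB0 (by linarith) (by linarith)
      (fun T hT => by
        rw [Finset.sum_singleton]
        have hT0 : 0 < T := by linarith
        have hbd : ∀ t ∈ Set.Icc (-T) T, D t ≤ (C8 + 1) ^ 2 * (7 * T) ^ (2 * κ) := by
          intro t ht
          refine (hDle t).trans ?_
          have : |t| ≤ T := abs_le.mpr ht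
          gcongr
          linarith
        calc ∫ t in (-T)..T, D t ≤ ∫ _t in (-T)..T, (C8 + 1) ^ 2 * (7 * T) ^ (2 * κ) :=
              intervalIntegral.integral_mono_on (by linarith) (hDcont.intervalIntegrable _ _)
                (by simp) hbd
          _ = B * T ^ (1 + 2 * κ) := by
              rw [intervalIntegral.integral_const, smul_eq_mul, Real.mul_rpow (by norm_num) hT0.le,
                Real.rpow_add hT0, Real.rpow_one, hB]
              ring) h hh0 hh1
    rw [Finset.sum_singleton] at this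
    exact ⟨this.1 () (Finset.mem_singleton_self _), this.2⟩
  refine ⟨1600 * B + 3 * (2 * K) ^ 2, by positivity, fun X hX h hh1 hh2 => ?_⟩
  have hX0 : 0 < X := by linarith
  have hh0 : 0 < h := lt_of_lt_of_le (by positivity) hh1
  rcases lt_or_ge X 3 with hX3 | hX3
  · -- small X
    have hlog3 : Real.log X ≤ Real.log 3 := Real.log_le_log hX0 hX3.le
    have he : Real.exp 1 ≤ 3 := (Real.exp_one_lt_d9.le).trans (by norm_num)
    have hle9 : ∀ v : ℝ, v ≤ Real.log X + 1 → Real.exp v ≤ 9 := by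
      intro v hv
      calc Real.exp v ≤ Real.exp (Real.log 3 + 1) := Real.exp_le_exp.mpr (by linarith)
        _ = 3 * Real.exp 1 := by rw [Real.exp_add, Real.exp_log (by norm_num)]
        _ ≤ 9 := by linarith
    have hint : ‖∫ u in (Real.log X - 1)..(Real.log X),
        ‖EX 1 1 (Real.exp (u + h)) - EX 1 1 (Real.exp u)‖ ^ 2‖
        ≤ (2 * K) ^ 2 * |Real.log X - (Real.log X - 1)| := by
      refine intervalIntegral.norm_integral_le_of_norm_le_const fun u hu => ?_
      rw [Set.uIoc_of_le (by linarith)] at hu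
      have b1 := P8_bound 1 1 9 (Real.exp (u + h)) (Real.exp_pos _).le (hle9 _ (by linarith [hu.2]))
      have b2 := P8_bound 1 1 9 (Real.exp u) (Real.exp_pos _).le (hle9 _ (by linarith [hu.2]))
      rw [← hK] at b1 b2
      rw [norm_pow, norm_norm]
      have b3 : ‖EX 1 1 (Real.exp (u + h)) - EX 1 1 (Real.exp u)‖ ≤ 2 * K :=
        (norm_sub_le _ _).trans (by linarith)
      gcongr
    have e1 : |Real.log X - (Real.log X - 1)| = 1 := by
      rw [show Real.log X - (Real.log X - 1) = 1 by ring, abs_one]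
    rw [e1, mul_one] at hint
    have hXp : 1 ≤ X ^ (2 * θ + ε) := Real.one_le_rpow (by linarith) (by linarith)
    have hh3 : 1 / 3 ≤ h := le_trans (one_div_le_one_div_of_le hX0 hX3.le) hh1
    calc ∫ u in (Real.log X - 1)..(Real.log X),
        ‖EX 1 1 (Real.exp (u + h)) - EX 1 1 (Real.exp u)‖ ^ 2 ≤ (2 * K) ^ 2 :=
          (le_abs_self _).trans hint
      _ ≤ (3 * (2 * K) ^ 2) * h := by nlinarith [sq_nonneg (2 * K)]
      _ ≤ (1600 * B + 3 * (2 * K) ^ 2) * h * 1 := by nlinarith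
      _ ≤ (1600 * B + 3 * (2 * K) ^ 2) * h * X ^ (2 * θ + ε) := by gcongr
  · -- large X
    obtain ⟨hI, hW⟩ := hweight h hh0 hh2
    have hbf : ∀ t : ℝ, 1 < t → ‖H16f t‖ ≤ C1 * t ^ (θ + δ) := by
      intro t ht
      simp only [H16f, if_pos ht]
      exact h1 t ht
    have hzf : ∀ t : ℝ, t ≤ 1 → H16f t = 0 := by
      intro t ht
      simp only [H16f, if_neg (not_lt.mpr ht)]
    have hmain := incr_le H16f H16f_meas C1 (θ + δ) σ (by linarith) (by linarith) (by linarith)
      hbf hzf h hh0 hh2 hI X (by linarith)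
    have he3 : Real.exp 1 < 3 := lt_of_lt_of_le Real.exp_one_lt_d9 (by norm_num)
    have hlog1 : 1 < Real.log X := by
      have : Real.log (Real.exp 1) < Real.log X :=
        Real.log_lt_log (Real.exp_pos 1) (by linarith)
      rwa [Real.log_exp] at this
    have heq : ∫ u in (Real.log X - 1)..(Real.log X),
        ‖EX 1 1 (Real.exp (u + h)) - EX 1 1 (Real.exp u)‖ ^ 2
        = ∫ u in (Real.log X - 1)..(Real.log X),
        ‖H16f (Real.exp (u + h)) - H16f (Real.exp u)‖ ^ 2 := by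
      refine intervalIntegral.integral_congr fun u hu => ?_
      rw [Set.uIcc_of_le (by linarith)] at hu
      have hu0 : 0 < u := by linarith [hu.1]
      have p1 : 1 < Real.exp u := by
        rw [← Real.exp_zero]; exact Real.exp_lt_exp.mpr hu0
      have p2 : 1 < Real.exp (u + h) := by
        rw [← Real.exp_zero]; exact Real.exp_lt_exp.mpr (by linarith)
      simp only [H16f, if_pos p1, if_pos p2]
    rw [heq]
    refine hmain.trans ?_
    have hhX : h ^ (1 - 2 * κ) ≤ h * X ^ (2 * κ) := by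
      have e2 : h ^ (1 - 2 * κ) = h * h⁻¹ ^ (2 * κ) := by
        rw [Real.rpow_sub hh0, Real.rpow_one, Real.inv_rpow hh0.le, div_eq_mul_inv]
      have e3 : h⁻¹ ≤ X := by
        rw [inv_le_comm₀ hh0 hX0]
        simpa using hh1
      have e4 : h⁻¹ ^ (2 * κ) ≤ X ^ (2 * κ) :=
        Real.rpow_le_rpow (inv_pos.mpr hh0).le e3 (by linarith)
      rw [e2]
      exact mul_le_mul_of_nonneg_left e4 hh0.le
    calc 100 * X ^ (2 * σ) * ∫ t : ℝ, ‖((σ : ℂ) + t * I) * MT H16f ((σ : ℂ) + t * I)‖ ^ 2 * wt h t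
        ≤ 100 * X ^ (2 * σ) * (16 * B * (h * X ^ (2 * κ))) := by
          gcongr
          exact hW.trans (by gcongr)
      _ = (1600 * B) * h * X ^ (2 * σ + 2 * κ) := by
          rw [Real.rpow_add hX0]; ring
      _ ≤ (1600 * B + 3 * (2 * K) ^ 2) * h * X ^ (2 * θ + ε) := by
          have e5 : 2 * σ + 2 * κ ≤ 2 * θ + ε := by rw [hσdef]; linarith
          have e6 : X ^ (2 * σ + 2 * κ) ≤ X ^ (2 * θ + ε) :=
            Real.rpow_le_rpow_of_exponent_le (by linarith) e5
          have e7 : 1600 * B ≤ 1600 * B + 3 * (2 * K) ^ 2 := by nlinarith [sq_nonneg (2 * K)]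
          have e8 : 0 ≤ X ^ (2 * σ + 2 * κ) := by positivity
          have e9 : (1600 * B) * h ≤ (1600 * B + 3 * (2 * K) ^ 2) * h :=
            mul_le_mul_of_nonneg_right e7 hh0.le
          exact mul_le_mul e9 e6 e8 (by positivity)

end Pool.Agent.MC.C2
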