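import Mathlib
import Pool.Agent.Lib.MP_9cfc0a_nt.C2Base
import Pool.Agent.Lib.MP_9cfc0a_nt.C2H5

set_option autoImplicit false

namespace Pool.Agent.MC.C2

open Pool.Agent.MC Pool.Agent.MC.C1 MeasureTheory Real Complex

-- H7 (helper97): USES the skeleton lemma `prim_large_sieve` (H5).

/-- sum of the squares of the von Mangoldt function -/
noncomputable def H7G (t : ℝ) : ℝ :=
  ∑ n ∈ Finset.Icc 1 ⌊t⌋₊, (ArithmeticFunction.vonMangoldt n) ^ 2

lemma H7G_mono : Monotone H7G := by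
  intro x y hxy
  unfold H7G
  refine Finset.sum_le_sum_of_subset_of_nonneg ?_ (fun _ _ _ => sq_nonneg _)
  exact Finset.Icc_subset_Icc le_rfl (Nat.floor_le_floor hxy)

lemma H7G_nonneg (t : ℝ) : 0 ≤ H7G t := Finset.sum_nonneg fun _ _ => sq_nonneg _

lemma H7G_le (Y : ℝ) (hY : 1 ≤ Y) : H7G Y ≤ Real.log Y * (6 * Y) := by
  have h1 : H7G Y ≤ Real.log Y * psiR Y 1 0 := by
    unfold H7G psiR
    have h0 : (Finset.Icc 1 ⌊Y⌋₊).filter (fun n => n % 1 = 0 % 1) = Finset.Icc 1 ⌊Y⌋₊ := by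
      refine Finset.filter_true_of_mem fun n _ => ?_
      rw [Nat.mod_one]
    rw [h0, Finset.mul_sum]
    refine Finset.sum_le_sum fun n hn => ?_
    have hn' := Finset.mem_Icc.mp hn
    have hn0 : (0 : ℝ) < n := by exact_mod_cast hn'.1
    have hnY : (n : ℝ) ≤ Y := (Nat.cast_le.mpr hn'.2).trans (Nat.floor_le (by linarith))
    have h2 : ArithmeticFunction.vonMangoldt n ≤ Real.log Y :=
      ArithmeticFunction.vonMangoldt_le_log.trans (Real.log_le_log hn0 hnY)
    rw [sq]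
    exact mul_le_mul_of_nonneg_right h2 ArithmeticFunction.vonMangoldt_nonneg
  have h2 := psiR_le_mul Y 1 0
  rw [abs_of_nonneg (by linarith : (0 : ℝ) ≤ Y)] at h2
  exact h1.trans (mul_le_mul_of_nonneg_left h2 (Real.log_nonneg hY))

lemma H7G_exp_int (h a b : ℝ) :
    IntervalIntegrable (fun u => H7G (Real.exp (u + h))) volume a b := by
  apply Monotone.intervalIntegrable
  intro x y hxy
  exact H7G_mono (Real.exp_le_exp.mpr (by linarith))

lemma H7_int (h a b : ℝ) (hh : 0 ≤ h) :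
    ∫ u in a..b, (H7G (Real.exp (u + h)) - H7G (Real.exp u)) ≤ h * H7G (Real.exp (b + h)) := by
  have hI : ∀ x y : ℝ, IntervalIntegrable (fun u => H7G (Real.exp u)) volume x y := by
    intro x y
    have := H7G_exp_int 0 x y
    simpa using this
  rw [intervalIntegral.integral_sub (H7G_exp_int h a b) (hI a b)]
  rw [intervalIntegral.integral_comp_add_right (fun u => H7G (Real.exp u)) h]
  have e1 : (∫ u in (a + h)..(b + h), H7G (Real.exp u)) - ∫ u in a..b, H7G (Real.exp u)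
      = (∫ u in b..(b + h), H7G (Real.exp u)) - ∫ u in a..(a + h), H7G (Real.exp u) := by
    have e2 := intervalIntegral.integral_add_adjacent_intervals (hI a (a + h)) (hI (a + h) (b + h))
    have e3 := intervalIntegral.integral_add_adjacent_intervals (hI a b) (hI b (b + h))
    linarith
  rw [e1]
  have h1 : 0 ≤ ∫ u in a..(a + h), H7G (Real.exp u) :=
    intervalIntegral.integral_nonneg (by linarith) fun u _ => H7G_nonneg _
  have h2 : ∫ u in b..(b + h), H7G (Real.exp u) ≤ ∫ _u in b..(b + h), H7G (Real.exp (b + h)) :=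
    intervalIntegral.integral_mono_on (by linarith) (hI _ _) (by simp)
      fun u hu => H7G_mono (Real.exp_le_exp.mpr hu.2)
  rw [intervalIntegral.integral_const, smul_eq_mul] at h2
  have e4 : b + h - b = h := by ring
  rw [e4] at h2
  linarith

lemma H7_dl (F : ℕ) (hF : 1 ≤ F) :
    ∑ r ∈ Finset.Ico F (2 * F), pSum r (fun χ => ‖dl r χ‖ ^ 2) ≤ 1 := by
  classical
  have h1 : ∀ r ∈ Finset.Ico F (2 * F), pSum r (fun χ => ‖dl r χ‖ ^ 2)
      ≤ if r = 1 then 1 else 0 := by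
    intro r hr
    have hr1 : 1 ≤ r := hF.trans (Finset.mem_Ico.mp hr).1
    rw [P4_pSum]
    by_cases h : r = 1
    · subst h
      rw [if_pos rfl]
      have h2 : ∑ χ ∈ Finset.univ.filter (fun χ : DirichletCharacter ℂ 1 => χ.IsPrimitive),
          ‖dl 1 χ‖ ^ 2 ≤ ∑ χ ∈ ({1} : Finset (DirichletCharacter ℂ 1)), ‖dl 1 χ‖ ^ 2 := by
        refine Finset.sum_le_sum_of_subset_of_nonneg ?_ (fun _ _ _ => by positivity)
        intro χ _
        rw [Finset.mem_singleton]
        exact DirichletCharacter.level_one χ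
      refine h2.trans ?_
      rw [Finset.sum_singleton, dl_one]
      simp
    · rw [if_neg h]
      refine le_of_eq (Finset.sum_eq_zero fun χ hχ => ?_)
      have hp : χ.IsPrimitive := (Finset.mem_filter.mp hχ).2
      have hne : χ ≠ 1 := by
        rintro rfl
        have hc : (1 : DirichletCharacter ℂ r).conductor = r := hp
        have : NeZero r := ⟨by omega⟩
        rw [DirichletCharacter.conductor_one] at hc
        exact h hc.symm
      rw [dl_of_ne r χ hne]
      simp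
  refine (Finset.sum_le_sum h1).trans ?_
  rw [Finset.sum_ite_eq']
  split_ifs <;> norm_num

lemma H7_pi : π ^ 2 / 4 ≤ 5 / 2 := by
  have h1 : π < 3.15 := Real.pi_lt_d2
  have h2 : 0 < π := Real.pi_pos
  nlinarith

lemma H7_pSum_mono (r : ℕ) (g g' : DirichletCharacter ℂ r → ℝ) (h : ∀ χ, g χ ≤ g' χ) :
    pSum r g ≤ pSum r g' := by
  rw [P4_pSum, P4_pSum]
  exact Finset.sum_le_sum fun χ _ => h χ

lemma H7_pSum_nonneg (r : ℕ) (g : DirichletCharacter ℂ r → ℝ) (h : ∀ χ, 0 ≤ g χ) :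
    0 ≤ pSum r g := by
  rw [P4_pSum]
  exact Finset.sum_nonneg fun χ _ => h χ

lemma H7_sumfun {ι : Type*} (S : Finset ι) (f : ι → ℝ → ℝ) :
    ∑ i ∈ S, f i = fun u => ∑ i ∈ S, f i u := by
  ext u
  rw [Finset.sum_apply]

/-- pointwise bound -/
lemma H7_point (F : ℕ) (hF : 1 ≤ F) (h : ℝ) (hh0 : 0 < h) (hh1 : h ≤ 1) (X : ℝ) (hX : 2 ≤ X)
    (u : ℝ) (hu : u ≤ Real.log X) :
    ∑ r ∈ Finset.Ico F (2 * F), pSum r (fun χ =>
      ‖EX r χ (Real.exp (u + h)) - EX r χ (Real.exp u)‖ ^ 2)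
      ≤ 5 * (4 * (F : ℝ) ^ 2 + 6 * (h * X) + 2) * (H7G (Real.exp (u + h)) - H7G (Real.exp u))
        + 18 * (h * X) ^ 2 := by
  have hX0 : 0 < X := by linarith
  have heu : Real.exp u ≤ X := by
    calc Real.exp u ≤ Real.exp (Real.log X) := Real.exp_le_exp.mpr hu
      _ = X := Real.exp_log hX0
  have heu0 : 0 < Real.exp u := Real.exp_pos u
  have hle : Real.exp u ≤ Real.exp (u + h) := Real.exp_le_exp.mpr (by linarith)
  have hdiff : Real.exp (u + h) - Real.exp u ≤ 3 * (h * X) := by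
    have h1 : 1 - h ≤ Real.exp (-h) := by linarith [Real.add_one_le_exp (-h)]
    have h2 : Real.exp h * (1 - h) ≤ 1 := by
      calc Real.exp h * (1 - h) ≤ Real.exp h * Real.exp (-h) :=
            mul_le_mul_of_nonneg_left h1 (Real.exp_pos h).le
        _ = 1 := by rw [← Real.exp_add]; simp
    have h3 : Real.exp h ≤ 3 := by
      calc Real.exp h ≤ Real.exp 1 := Real.exp_le_exp.mpr hh1
        _ ≤ 3 := (Real.exp_one_lt_d9.le).trans (by norm_num)
    have h4 : Real.exp h - 1 ≤ 3 * h := by nlinarith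
    rw [Real.exp_add]
    have h5 : 0 ≤ 3 * h := by linarith
    calc Real.exp u * Real.exp h - Real.exp u = Real.exp u * (Real.exp h - 1) := by ring
      _ ≤ Real.exp u * (3 * h) := mul_le_mul_of_nonneg_left h4 heu0.le
      _ ≤ X * (3 * h) := mul_le_mul_of_nonneg_right heu h5
      _ = 3 * (h * X) := by ring
  set v : ℕ := ⌊Real.exp u⌋₊ with hv
  set w : ℕ := ⌊Real.exp (u + h)⌋₊ with hw
  have hvw : v ≤ w := Nat.floor_le_floor hle
  set H : ℕ := w - v with hH
  have hvH : v + H = w := by omega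
  have hHle : (H : ℝ) ≤ 3 * (h * X) + 1 := by
    have e1 : (H : ℝ) = (w : ℝ) - v := by rw [← hvH]; push_cast; ring
    have e2 : (w : ℝ) ≤ Real.exp (u + h) := Nat.floor_le (Real.exp_pos _).le
    have e3 : Real.exp u < v + 1 := Nat.lt_floor_add_one _
    rw [e1]; linarith
  set L : ℕ → ℂ := fun n => ((ArithmeticFunction.vonMangoldt n : ℝ) : ℂ) with hL
  have hpt : ∀ r : ℕ, ∀ χ : DirichletCharacter ℂ r,
      ‖EX r χ (Real.exp (u + h)) - EX r χ (Real.exp u)‖ ^ 2
        ≤ 2 * ‖∑ n ∈ Finset.Ioc v (v + H), L n * χ n‖ ^ 2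
          + 2 * (3 * (h * X)) ^ 2 * ‖dl r χ‖ ^ 2 := by
    intro r χ
    have e1 : EX r χ (Real.exp (u + h)) - EX r χ (Real.exp u)
        = (∑ n ∈ Finset.Ioc v (v + H), L n * χ n)
          - dl r χ * ((Real.exp (u + h) - Real.exp u : ℝ) : ℂ) := by
      have e2 := P3_sum (cL r χ) (Real.exp u) (Real.exp (u + h)) hle
      unfold EX
      have e3 : ∑ n ∈ Finset.Ioc v (v + H), L n * χ n
          = SumC (cL r χ) (Real.exp (u + h)) - SumC (cL r χ) (Real.exp u) := by
        rw [e2, hvH]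
        refine Finset.sum_congr rfl fun n _ => ?_
        unfold cL
        rw [mul_comm]
      rw [e3]
      push_cast
      ring
    rw [e1]
    set A := ∑ n ∈ Finset.Ioc v (v + H), L n * χ n
    have e4 : ‖A - dl r χ * ((Real.exp (u + h) - Real.exp u : ℝ) : ℂ)‖
        ≤ ‖A‖ + ‖dl r χ‖ * (3 * (h * X)) := by
      refine (norm_sub_le _ _).trans ?_
      rw [norm_mul, Complex.norm_real, Real.norm_of_nonneg (by linarith)]
      have := mul_le_mul_of_nonneg_left hdiff (norm_nonneg (dl r χ))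
      linarith
    have e5 : 0 ≤ ‖A - dl r χ * ((Real.exp (u + h) - Real.exp u : ℝ) : ℂ)‖ := norm_nonneg _
    calc ‖A - dl r χ * ((Real.exp (u + h) - Real.exp u : ℝ) : ℂ)‖ ^ 2
        ≤ (‖A‖ + ‖dl r χ‖ * (3 * (h * X))) ^ 2 := by gcongr
      _ ≤ 2 * ‖A‖ ^ 2 + 2 * (3 * (h * X)) ^ 2 * ‖dl r χ‖ ^ 2 := by
          nlinarith [sq_nonneg (‖A‖ - ‖dl r χ‖ * (3 * (h * X)))]
  have hsieve := prim_large_sieve L v H (2 * F) (by omega)
  have hLG : ∑ n ∈ Finset.Ioc v (v + H), ‖L n‖ ^ 2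
      = H7G (Real.exp (u + h)) - H7G (Real.exp u) := by
    have e0 : Finset.Icc 1 w = Finset.Icc 1 v ∪ Finset.Ioc v w := by
      ext n
      simp only [Finset.mem_union, Finset.mem_Icc, Finset.mem_Ioc]
      omega
    have e00 : Disjoint (Finset.Icc 1 v) (Finset.Ioc v w) := by
      rw [Finset.disjoint_left]
      intro n hn hn'
      have a := (Finset.mem_Icc.mp hn).2
      have b := (Finset.mem_Ioc.mp hn').1
      omega
    unfold H7G
    rw [← hv, ← hw, e0, Finset.sum_union e00, add_sub_cancel_left, hvH]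
    refine Finset.sum_congr rfl fun n _ => ?_
    rw [hL]
    simp only [Complex.norm_real, Real.norm_eq_abs, sq_abs]
  have hsub : ∑ r ∈ Finset.Ico F (2 * F), pSum r (fun χ =>
      ‖∑ n ∈ Finset.Ioc v (v + H), L n * χ n‖ ^ 2)
      ≤ ∑ r ∈ Finset.Icc 1 (2 * F), pSum r (fun χ =>
      ‖∑ n ∈ Finset.Ioc v (v + H), L n * χ n‖ ^ 2) := by
    refine Finset.sum_le_sum_of_subset_of_nonneg ?_ fun r _ _ =>
      H7_pSum_nonneg r _ fun χ => by positivity
    intro r hr
    have := Finset.mem_Ico.mp hr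
    exact Finset.mem_Icc.mpr ⟨by omega, by omega⟩
  have hG0 : 0 ≤ H7G (Real.exp (u + h)) - H7G (Real.exp u) := sub_nonneg.mpr (H7G_mono hle)
  have hsum : ∑ r ∈ Finset.Ico F (2 * F), pSum r (fun χ =>
      ‖EX r χ (Real.exp (u + h)) - EX r χ (Real.exp u)‖ ^ 2)
      ≤ 2 * ∑ r ∈ Finset.Ico F (2 * F), pSum r (fun χ =>
          ‖∑ n ∈ Finset.Ioc v (v + H), L n * χ n‖ ^ 2)
        + 2 * (3 * (h * X)) ^ 2 * ∑ r ∈ Finset.Ico F (2 * F), pSum r (fun χ => ‖dl r χ‖ ^ 2) := by
    rw [Finset.mul_sum, Finset.mul_sum, ← Finset.sum_add_distrib]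
    refine Finset.sum_le_sum fun r _ => ?_
    rw [P4_pSum, P4_pSum, P4_pSum, Finset.mul_sum, Finset.mul_sum, ← Finset.sum_add_distrib]
    exact Finset.sum_le_sum fun χ _ => hpt r χ
  have hdl := H7_dl F hF
  have hcast : ((2 * F : ℕ) : ℝ) = 2 * F := by push_cast; ring
  rw [hcast, hLG] at hsieve
  have hD : 2 * (3 * (h * X)) ^ 2 * ∑ r ∈ Finset.Ico F (2 * F), pSum r (fun χ => ‖dl r χ‖ ^ 2)
      ≤ 18 * (h * X) ^ 2 := by
    calc 2 * (3 * (h * X)) ^ 2 * ∑ r ∈ Finset.Ico F (2 * F), pSum r (fun χ => ‖dl r χ‖ ^ 2)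
        ≤ 2 * (3 * (h * X)) ^ 2 * 1 := mul_le_mul_of_nonneg_left hdl (by positivity)
      _ = 18 * (h * X) ^ 2 := by ring
  have hS : π ^ 2 / 4 * ((2 * (F : ℝ)) ^ 2 + 2 * H) * (H7G (Real.exp (u + h)) - H7G (Real.exp u))
      ≤ 5 / 2 * (4 * (F : ℝ) ^ 2 + 6 * (h * X) + 2)
        * (H7G (Real.exp (u + h)) - H7G (Real.exp u)) := by
    refine mul_le_mul_of_nonneg_right ?_ hG0
    refine mul_le_mul H7_pi ?_ (by positivity) (by norm_num)
    nlinarith
  linarith

/-- H7. The trivial range (uses H5). -/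
lemma inc_trivial (η : ℝ) (hη0 : 0 ≤ η) (hη1 : η ≤ 1 / 4) (ε : ℝ) (hε : 0 < ε) :
    ∃ C : ℝ, 0 ≤ C ∧ ∀ X : ℝ, 2 ≤ X → ∀ F : ℕ, 1 ≤ F → (F : ℝ) ≤ X → ∀ h : ℝ, 0 < h → h ≤ 1 →
    h * X ^ (1 / 2 - 2 * η) ≤ 2 * F →
    ∑ r ∈ Finset.Ico F (2 * F), pSum r (fun χ => ∫ u in (Real.log X - 1)..(Real.log X),
      ‖EX r χ (Real.exp (u + h)) - EX r χ (Real.exp u)‖ ^ 2)
      ≤ C * h * F * (X ^ (1 / 2 : ℝ) + F) * X ^ (1 + 2 * η + ε) := by
  classical
  refine ⟨1080 * (3 ^ ε / ε) + 36, by positivity, fun X hX F hF hFX h hh0 hh1 hyp => ?_⟩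
  have hX0 : 0 < X := by linarith
  have hX1 : 1 ≤ X := by linarith
  have hF1 : (1 : ℝ) ≤ F := by exact_mod_cast hF
  -- interchange
  have hswap : ∑ r ∈ Finset.Ico F (2 * F), pSum r (fun χ => ∫ u in (Real.log X - 1)..(Real.log X),
      ‖EX r χ (Real.exp (u + h)) - EX r χ (Real.exp u)‖ ^ 2)
      = ∫ u in (Real.log X - 1)..(Real.log X), ∑ r ∈ Finset.Ico F (2 * F), pSum r (fun χ =>
      ‖EX r χ (Real.exp (u + h)) - EX r χ (Real.exp u)‖ ^ 2) := by
    simp only [P4_pSum]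
    rw [intervalIntegral.integral_finsetSum]
    · refine Finset.sum_congr rfl fun r _ => ?_
      rw [intervalIntegral.integral_finsetSum]
      exact fun χ _ => EX_int r χ h _ _
    · intro r _
      rw [← H7_sumfun]
      exact IntervalIntegrable.sum _ (fun χ _ => EX_int r χ h (Real.log X - 1) (Real.log X))
  rw [hswap]
  set A : ℝ := 5 * (4 * (F : ℝ) ^ 2 + 6 * (h * X) + 2) with hA
  have hA0 : 0 ≤ A := by positivity
  have hIl : IntervalIntegrable (fun u => ∑ r ∈ Finset.Ico F (2 * F), pSum r (fun χ =>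
      ‖EX r χ (Real.exp (u + h)) - EX r χ (Real.exp u)‖ ^ 2)) volume (Real.log X - 1)
      (Real.log X) := by
    simp only [P4_pSum]
    rw [← H7_sumfun (Finset.Ico F (2 * F))]
    refine IntervalIntegrable.sum _ fun r _ => ?_
    rw [← H7_sumfun]
    exact IntervalIntegrable.sum _ (fun χ _ => EX_int r χ h (Real.log X - 1) (Real.log X))
  have hIG : IntervalIntegrable (fun u => H7G (Real.exp (u + h)) - H7G (Real.exp u)) volume
      (Real.log X - 1) (Real.log X) := by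
    have := H7G_exp_int 0 (Real.log X - 1) (Real.log X)
    simp only [add_zero] at this
    exact (H7G_exp_int h _ _).sub this
  have hmono : ∫ u in (Real.log X - 1)..(Real.log X), ∑ r ∈ Finset.Ico F (2 * F),
      pSum r (fun χ => ‖EX r χ (Real.exp (u + h)) - EX r χ (Real.exp u)‖ ^ 2)
      ≤ ∫ u in (Real.log X - 1)..(Real.log X),
        (A * (H7G (Real.exp (u + h)) - H7G (Real.exp u)) + 18 * (h * X) ^ 2) := by
    refine intervalIntegral.integral_mono_on (by linarith) hIl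
      ((hIG.const_mul A).add (by simp)) fun u hu => ?_
    exact H7_point F hF h hh0 hh1 X hX u hu.2
  refine hmono.trans ?_
  rw [intervalIntegral.integral_add (hIG.const_mul A) (by simp),
    intervalIntegral.integral_const_mul, intervalIntegral.integral_const, smul_eq_mul]
  have e1 : Real.log X - (Real.log X - 1) = 1 := by ring
  rw [e1, one_mul]
  have hG3 : H7G (Real.exp (Real.log X + h)) ≤ 18 * (3 ^ ε / ε) * (X * X ^ ε) := by
    have h1 : Real.exp (Real.log X + h) ≤ 3 * X := by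
      rw [Real.exp_add, Real.exp_log hX0]
      have : Real.exp h ≤ 3 := by
        calc Real.exp h ≤ Real.exp 1 := Real.exp_le_exp.mpr hh1
          _ ≤ 3 := (Real.exp_one_lt_d9.le).trans (by norm_num)
      nlinarith
    have h2 := H7G_le (3 * X) (by linarith)
    have h3 : Real.log (3 * X) ≤ (3 * X) ^ ε / ε := Real.log_le_rpow_div (by linarith) hε
    rw [Real.mul_rpow (by norm_num) hX0.le] at h3
    calc H7G (Real.exp (Real.log X + h)) ≤ H7G (3 * X) := H7G_mono h1
      _ ≤ Real.log (3 * X) * (6 * (3 * X)) := h2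
      _ ≤ (3 ^ ε * X ^ ε / ε) * (6 * (3 * X)) := mul_le_mul_of_nonneg_right h3 (by linarith)
      _ = 18 * (3 ^ ε / ε) * (X * X ^ ε) := by ring
  have hint := H7_int h (Real.log X - 1) (Real.log X) hh0.le
  -- powers
  have hP : X ^ (1 / 2 : ℝ) * X ^ (2 * η) * X ^ (1 / 2 - 2 * η) = X := by
    rw [← Real.rpow_add hX0, ← Real.rpow_add hX0]
    have : (1 / 2 : ℝ) + 2 * η + (1 / 2 - 2 * η) = 1 := by ring
    rw [this, Real.rpow_one]
  set P : ℝ := X ^ (1 / 2 : ℝ) with hPdef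
  set R : ℝ := X ^ (2 * η) with hRdef
  have hP1 : 1 ≤ P := Real.one_le_rpow hX1 (by norm_num)
  have hR1 : 1 ≤ R := Real.one_le_rpow hX1 (by linarith)
  have hhX : h * X ≤ 2 * F * (P * R) := by
    calc h * X = h * (P * R * X ^ (1 / 2 - 2 * η)) := by rw [hP]
      _ = (h * X ^ (1 / 2 - 2 * η)) * (P * R) := by ring
      _ ≤ 2 * F * (P * R) := mul_le_mul_of_nonneg_right hyp (by positivity)
  have hE1 : 1 ≤ X ^ ε := Real.one_le_rpow hX1 hε.le
  have hpow : X ^ (1 + 2 * η + ε) = X * R * X ^ ε := by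
    rw [Real.rpow_add hX0, Real.rpow_add hX0, Real.rpow_one]
  rw [hpow]
  set E : ℝ := X ^ ε with hEdef
  have hA2 : A ≤ 60 * (F * (P + F) * R) := by
    have h1 : (F : ℝ) ^ 2 ≤ F ^ 2 * R := by nlinarith [sq_nonneg (F : ℝ)]
    have h2 : (1 : ℝ) ≤ F ^ 2 * R := by nlinarith
    rw [hA]
    nlinarith
  have hfirst : A * ∫ u in (Real.log X - 1)..(Real.log X),
      (H7G (Real.exp (u + h)) - H7G (Real.exp u))
      ≤ (60 * (F * (P + F) * R)) * (h * (18 * (3 ^ ε / ε) * (X * E))) := by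
    have h0 : 0 ≤ h * H7G (Real.exp (Real.log X + h)) := mul_nonneg hh0.le (H7G_nonneg _)
    calc A * ∫ u in (Real.log X - 1)..(Real.log X),
          (H7G (Real.exp (u + h)) - H7G (Real.exp u))
        ≤ A * (h * H7G (Real.exp (Real.log X + h))) := mul_le_mul_of_nonneg_left hint hA0
      _ ≤ (60 * (F * (P + F) * R)) * (h * H7G (Real.exp (Real.log X + h))) :=
          mul_le_mul_of_nonneg_right hA2 h0
      _ ≤ (60 * (F * (P + F) * R)) * (h * (18 * (3 ^ ε / ε) * (X * E))) := by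
          refine mul_le_mul_of_nonneg_left ?_ (by positivity)
          exact mul_le_mul_of_nonneg_left hG3 hh0.le
  have hsecond : 18 * (h * X) ^ 2 ≤ 36 * (h * F * (P + F) * (X * R * E)) := by
    have h1 : 18 * (h * X) ^ 2 ≤ 18 * (h * X) * (2 * F * (P * R)) := by
      have : 18 * (h * X) ^ 2 = 18 * (h * X) * (h * X) := by ring
      rw [this]
      exact mul_le_mul_of_nonneg_left hhX (by positivity)
    have h2 : 18 * (h * X) * (2 * F * (P * R)) = 36 * (h * F * P * (X * R)) := by ring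
    have h3 : h * F * P * (X * R) ≤ h * F * (P + F) * (X * R * E) := by
      have a1 : h * F * P ≤ h * F * (P + F) :=
        mul_le_mul_of_nonneg_left (by linarith) (by positivity)
      have a2 : X * R ≤ X * R * E := le_mul_of_one_le_right (by positivity) hE1
      exact mul_le_mul a1 a2 (by positivity) (by positivity)
    linarith
  calc A * (∫ u in (Real.log X - 1)..(Real.log X),
      (H7G (Real.exp (u + h)) - H7G (Real.exp u))) + 18 * (h * X) ^ 2
      ≤ (60 * (F * (P + F) * R)) * (h * (18 * (3 ^ ε / ε) * (X * E)))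
        + 36 * (h * F * (P + F) * (X * R * E)) := add_le_add hfirst hsecond
    _ = (1080 * (3 ^ ε / ε) + 36) * h * F * (P + F) * (X * R * E) := by ring

end Pool.Agent.MC.C2
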