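import Mathlib
import Pool.Agent.Lib.MP_9cfc0a_nt.C2H7
import Pool.Agent.Lib.MP_9cfc0a_nt.C2H12
import Pool.Agent.Lib.MP_9cfc0a_nt.C2H13
import Pool.Agent.Lib.MP_9cfc0a_nt.C2H15
import Pool.Agent.Lib.MP_9cfc0a_nt.C2H16

set_option autoImplicit false

namespace Pool.Agent.MC.C2

open Pool.Agent.MC Pool.Agent.MC.C1 MeasureTheory Real Complex

lemma H17_cont (f : ℝ → ℂ) (hf : Measurable f) (C a σ : ℝ) (haσ : a < σ)
    (hb : ∀ t : ℝ, 1 < t → ‖f t‖ ≤ C * t ^ a) :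
    Continuous (fun t : ℝ => ‖((σ : ℂ) + t * I) * MT f ((σ : ℂ) + t * I)‖ ^ 2) := by
  have h1 : Continuous (fun t : ℝ => (σ : ℂ) + t * I) := by fun_prop
  have h2 : Continuous (fun t : ℝ => MT f ((σ : ℂ) + t * I)) := by
    rw [continuous_iff_continuousAt]
    intro t
    have h3 : a < ((σ : ℂ) + t * I).re := by simp [haσ]
    exact ContinuousAt.comp (f := fun t : ℝ => (σ : ℂ) + t * I) (g := MT f)
      (MT_differentiableAt f C a hf hb _ h3).continuousAt h1.continuousAt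
  exact ((h1.mul h2).norm).pow 2

lemma H17_family {ι : Type*} (S : Finset ι) (f : ι → ℝ → ℂ) (σ a : ℝ) (ha : 0 ≤ a) (haσ : a < σ)
    (hσ : σ ≤ 2) (hf : ∀ i ∈ S, Measurable (f i))
    (hb : ∀ i ∈ S, ∃ C : ℝ, ∀ t : ℝ, 1 < t → ‖f i t‖ ≤ C * t ^ a)
    (h0 : ∀ i ∈ S, ∀ t : ℝ, t ≤ 1 → f i t = 0) (B κ : ℝ) (hB : 0 ≤ B) (hκ0 : 0 ≤ κ)
    (hκ : κ ≤ 1 / 2)
    (hm : ∀ T : ℝ, 1 ≤ T → ∑ i ∈ S, ∫ t in (-T)..T,
      ‖((σ : ℂ) + t * I) * MT (f i) ((σ : ℂ) + t * I)‖ ^ 2 ≤ B * T ^ (1 + κ))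
    (δ : ℝ) (hδ0 : 0 < δ) (hδ1 : δ ≤ 1) (X : ℝ) (hX : 1 ≤ X) :
    ∑ i ∈ S, ∫ u in (Real.log X - 1)..(Real.log X),
      ‖f i (Real.exp (u + δ)) - f i (Real.exp u)‖ ^ 2
      ≤ 1600 * X ^ (2 * σ) * B * δ ^ (1 - κ) := by
  have h1 := weight_le S (fun i t => ‖((σ : ℂ) + t * I) * MT (f i) ((σ : ℂ) + t * I)‖ ^ 2)
    (fun i _ t => by positivity)
    (fun i hi a' b' => by
      obtain ⟨C, hC⟩ := hb i hi
      exact (H17_cont (f i) (hf i hi) C a σ haσ hC).intervalIntegrable a' b')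
    B κ hB hκ0 hκ hm δ hδ0 hδ1
  obtain ⟨hI, hsum⟩ := h1
  calc ∑ i ∈ S, ∫ u in (Real.log X - 1)..(Real.log X),
        ‖f i (Real.exp (u + δ)) - f i (Real.exp u)‖ ^ 2
      ≤ ∑ i ∈ S, 100 * X ^ (2 * σ) *
          ∫ t : ℝ, ‖((σ : ℂ) + t * I) * MT (f i) ((σ : ℂ) + t * I)‖ ^ 2 * wt δ t := by
        refine Finset.sum_le_sum fun i hi => ?_
        obtain ⟨C, hC⟩ := hb i hi
        exact incr_le (f i) (hf i hi) C a σ ha haσ hσ hC (h0 i hi) δ hδ0 hδ1 (hI i hi) X hX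
    _ = 100 * X ^ (2 * σ) *
          ∑ i ∈ S, ∫ t : ℝ, ‖((σ : ℂ) + t * I) * MT (f i) ((σ : ℂ) + t * I)‖ ^ 2 * wt δ t := by
        rw [Finset.mul_sum]
    _ ≤ 100 * X ^ (2 * σ) * (16 * B * δ ^ (1 - κ)) := by
        have : 0 ≤ 100 * X ^ (2 * σ) := by positivity
        exact mul_le_mul_of_nonneg_left hsum this
    _ = _ := by ring

open Classical in
/-- the primitive characters with conductor in `[F, 2F)` -/
noncomputable def H17_S (F : ℕ) : Finset ((r : ℕ) × DirichletCharacter ℂ r) :=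
  (Finset.Ico F (2 * F)).sigma fun r =>
    Finset.univ.filter (fun χ : DirichletCharacter ℂ r => χ.IsPrimitive)

lemma H17_sum (F : ℕ) (g : (r : ℕ) → DirichletCharacter ℂ r → ℝ) :
    ∑ r ∈ Finset.Ico F (2 * F), pSum r (g r) = ∑ p ∈ H17_S F, g p.1 p.2 := by
  unfold H17_S
  rw [Finset.sum_sigma]
  refine Finset.sum_congr rfl fun r _ => ?_
  rw [P4_pSum]

open Classical in
lemma H17_mem (F : ℕ) (p : (r : ℕ) × DirichletCharacter ℂ r) (hp : p ∈ H17_S F) :
    F ≤ p.1 ∧ p.1 < 2 * F ∧ p.2.IsPrimitive := by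
  unfold H17_S at hp
  have h1 := Finset.mem_sigma.mp hp
  have h2 := Finset.mem_Ico.mp h1.1
  have h3 := (Finset.mem_filter.mp h1.2).2
  exact ⟨h2.1, h2.2, h3⟩

lemma H17_ne_one (r : ℕ) (hr : 2 ≤ r) (χ : DirichletCharacter ℂ r) (hχ : χ.IsPrimitive) :
    χ ≠ 1 := by
  intro h
  subst h
  have h1 : DirichletCharacter.conductor (1 : DirichletCharacter ℂ r) = r := hχ
  have : NeZero r := ⟨by omega⟩
  rw [DirichletCharacter.conductor_one] at h1
  omega

/-- the first part -/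
lemma H17_A (κ : ℝ) (hκ : 0 < κ) (hκ1 : κ ≤ 1 / 2) : ∃ C : ℝ, 0 ≤ C ∧ ∀ F : ℕ, 2 ≤ F →
    ∀ N : ℕ, 1 ≤ N → N ≤ F ^ 2 → ∀ δ : ℝ, 0 < δ → δ ≤ 1 → ∀ X : ℝ, 1 ≤ X →
    ∑ p ∈ H17_S F, ∫ u in (Real.log X - 1)..(Real.log X),
      ‖Af N p.1 p.2 (Real.exp (u + δ)) - Af N p.1 p.2 (Real.exp u)‖ ^ 2
      ≤ C * X * (F : ℝ) ^ κ * ((F : ℝ) ^ 2 + N * F) * δ ^ (1 - κ) := by
  obtain ⟨C, hC0, hC⟩ := meanA κ hκ
  refine ⟨1600 * C, by positivity, fun F hF N hN hNF δ hδ0 hδ1 X hX => ?_⟩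
  have hF0 : (0 : ℝ) < F := by exact_mod_cast (by omega : 0 < F)
  have h1 := H17_family (H17_S F) (fun p => Af N p.1 p.2) (1 / 2) (1 / 4) (by norm_num)
    (by norm_num) (by norm_num) (fun p _ => SumC_measurable _)
    (fun p hp => by
      obtain ⟨hp1, hp2, hp3⟩ := H17_mem F p hp
      have : NeZero p.1 := ⟨by omega⟩
      exact Af_bound N p.1 p.2 (H17_ne_one p.1 (by omega) p.2 hp3) (1 / 4) (by norm_num))
    (fun p hp t ht => Af_zero N p.1 p.2 t (by linarith))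
    (C * (F : ℝ) ^ κ * ((F : ℝ) ^ 2 + N * F)) κ (by positivity) hκ.le hκ1
    (fun T hT => by
      have h2 := hC F hF N hN hNF T hT
      rw [H17_sum F (fun r χ => ∫ t in (-T)..T,
        ‖deriv (LF r χ) ((1 / 2 : ℝ) + t * I) * Mol N r χ ((1 / 2 : ℝ) + t * I)‖ ^ 2)] at h2
      have hT0 : 0 < T := by linarith
      calc ∑ p ∈ H17_S F, ∫ t in (-T)..T,
            ‖(((1 / 2 : ℝ) : ℂ) + t * I) * MT (Af N p.1 p.2) (((1 / 2 : ℝ) : ℂ) + t * I)‖ ^ 2
          = ∑ p ∈ H17_S F, ∫ t in (-T)..T, ‖deriv (LF p.1 p.2) ((1 / 2 : ℝ) + t * I)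
              * Mol N p.1 p.2 ((1 / 2 : ℝ) + t * I)‖ ^ 2 := by
            refine Finset.sum_congr rfl fun p hp => ?_
            obtain ⟨hp1, hp2, hp3⟩ := H17_mem F p hp
            have : NeZero p.1 := ⟨by omega⟩
            refine intervalIntegral.integral_congr fun t _ => ?_
            have h3 := Af_MT N p.1 p.2 (H17_ne_one p.1 (by omega) p.2 hp3)
              (((1 / 2 : ℝ) : ℂ) + t * I) (by simp)
            show ‖(((1 / 2 : ℝ) : ℂ) + t * I) * MT (Af N p.1 p.2) (((1 / 2 : ℝ) : ℂ) + t * I)‖ ^ 2 = _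
            rw [h3, norm_neg]
        _ ≤ C * (F * T) ^ κ * ((F : ℝ) ^ 2 * T + N * F * T) := h2
        _ = C * (F : ℝ) ^ κ * ((F : ℝ) ^ 2 + N * F) * T ^ (1 + κ) := by
            rw [Real.mul_rpow hF0.le hT0.le, Real.rpow_add hT0, Real.rpow_one]
            ring)
    δ hδ0 hδ1 X hX
  refine h1.trans (le_of_eq ?_)
  have : X ^ (2 * (1 / 2 : ℝ)) = X := by rw [show (2 * (1 / 2 : ℝ)) = 1 by norm_num, Real.rpow_one]
  rw [this]
  ring

/-- the second part -/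
lemma H17_B (θ : ℝ) (hθ : 1 / 2 ≤ θ) (hθ1 : θ < 1) (hZ : ∀ r : ℕ, ∀ [NeZero r], ZF r θ)
    (e κ : ℝ) (he : 0 < e) (he1 : θ + e < 1) (hκ : 0 < κ) (hκ1 : κ ≤ 1 / 6) :
    ∃ C : ℝ, 0 ≤ C ∧ ∀ F : ℕ, 2 ≤ F →
    ∀ N : ℕ, 1 ≤ N → N ≤ F ^ 2 → ∀ δ : ℝ, 0 < δ → δ ≤ 1 → ∀ X : ℝ, 1 ≤ X →
    ∑ p ∈ H17_S F, ∫ u in (Real.log X - 1)..(Real.log X),
      ‖Bf N p.1 p.2 (Real.exp (u + δ)) - Bf N p.1 p.2 (Real.exp u)‖ ^ 2
      ≤ C * X ^ (2 * (θ + e)) * (F : ℝ) ^ (3 * κ) * ((F : ℝ) ^ 2 * (N : ℝ) ^ (1 - 2 * (θ + e))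
        + ((N : ℝ) * F) ^ (2 - 2 * (θ + e))) * δ ^ (1 - 3 * κ) := by
  obtain ⟨C, hC0, hC⟩ := meanB (θ + e) κ (by linarith) he1 hκ
  obtain ⟨L, hL0, hL⟩ := logDeriv_unif θ hθ hθ1 e κ he hκ
  refine ⟨1600 * (L ^ 2 * (14 : ℝ) ^ (2 * κ) * C), by positivity,
    fun F hF N hN hNF δ hδ0 hδ1 X hX => ?_⟩
  have hF0 : (0 : ℝ) < F := by exact_mod_cast (by omega : 0 < F)
  have hN0 : (0 : ℝ) < N := by exact_mod_cast hN
  set σ : ℝ := θ + e with hσ
  set a : ℝ := θ + e / 2 with ha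
  have h1 := H17_family (H17_S F) (fun p => Bf N p.1 p.2) σ a (by rw [ha]; linarith)
    (by rw [ha, hσ]; linarith) (by linarith)
    (fun p hp => (EX_measurable p.1 p.2).sub (SumC_measurable _))
    (fun p hp => by
      obtain ⟨hp1, hp2, hp3⟩ := H17_mem F p hp
      have : NeZero p.1 := ⟨by omega⟩
      exact Bf_bound N p.1 p.2 (H17_ne_one p.1 (by omega) p.2 hp3) θ hθ hθ1 (hZ p.1) a
        (by rw [ha]; linarith))
    (fun p hp t ht => by
      obtain ⟨hp1, hp2, hp3⟩ := H17_mem F p hp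
      exact Bf_zero N p.1 p.2 (H17_ne_one p.1 (by omega) p.2 hp3) t (by linarith))
    (L ^ 2 * (14 : ℝ) ^ (2 * κ) * C * (F : ℝ) ^ (3 * κ) *
      ((F : ℝ) ^ 2 * (N : ℝ) ^ (1 - 2 * σ) + ((N : ℝ) * F) ^ (2 - 2 * σ)))
    (3 * κ) (by positivity) (by positivity) (by linarith)
    (fun T hT => by
      have h2 := hC F hF N hN hNF T hT
      rw [H17_sum F (fun r χ => ∫ t in (-T)..T,
        ‖1 - LF r χ ((σ : ℂ) + t * I) * Mol N r χ ((σ : ℂ) + t * I)‖ ^ 2)] at h2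
      have hT0 : 0 < T := by linarith
      have hFT : (0 : ℝ) < F * T := by positivity
      calc ∑ p ∈ H17_S F, ∫ t in (-T)..T,
            ‖((σ : ℂ) + t * I) * MT (Bf N p.1 p.2) ((σ : ℂ) + t * I)‖ ^ 2
          ≤ ∑ p ∈ H17_S F, (L * (14 * (F * T)) ^ κ) ^ 2 * ∫ t in (-T)..T,
              ‖1 - LF p.1 p.2 ((σ : ℂ) + t * I) * Mol N p.1 p.2 ((σ : ℂ) + t * I)‖ ^ 2 := by
            refine Finset.sum_le_sum fun p hp => ?_
            obtain ⟨hp1, hp2, hp3⟩ := H17_mem F p hp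
            have : NeZero p.1 := ⟨by omega⟩
            have hne := H17_ne_one p.1 (by omega) p.2 hp3
            obtain ⟨Cb, hCb⟩ := Bf_bound N p.1 p.2 hne θ hθ hθ1 (hZ p.1) a (by rw [ha]; linarith)
            rw [← intervalIntegral.integral_const_mul]
            refine intervalIntegral.integral_mono_on (by linarith) ?_ ?_ fun t ht => ?_
            · exact (H17_cont (Bf N p.1 p.2) ((EX_measurable p.1 p.2).sub (SumC_measurable _))
                Cb a σ (by rw [ha, hσ]; linarith) hCb).intervalIntegrable _ _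
            · apply Continuous.intervalIntegrable
              have e1 : LF p.1 p.2 = p.2.LFunction := by
                funext s
                unfold LF
                rw [dif_neg (NeZero.ne p.1)]
              have e2 : Continuous (LF p.1 p.2) := by
                rw [e1]
                exact (DirichletCharacter.differentiable_LFunction hne).continuous
              have e3 : Continuous (fun t : ℝ => Mol N p.1 p.2 ((σ : ℂ) + t * I)) := by
                unfold Mol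
                refine continuous_finsetSum _ fun m hm => ?_
                rw [Finset.mem_Icc] at hm
                have hm0 : (m : ℂ) ≠ 0 := by exact_mod_cast (by omega : m ≠ 0)
                refine Continuous.mul (by fun_prop) ?_
                refine Continuous.const_cpow (by fun_prop) (Or.inl hm0)
              have e4 : Continuous (fun t : ℝ => LF p.1 p.2 ((σ : ℂ) + t * I)) :=
                e2.comp (by fun_prop)
              exact (((continuous_const.sub (e4.mul e3)).norm).pow 2).const_mul _ |>.congr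
                (fun t => rfl)
            · have h3 := Bf_MT N p.1 p.2 hne θ hθ hθ1 (hZ p.1) ((σ : ℂ) + t * I)
                (by simp [hσ, he])
              rw [h3, norm_mul, norm_neg, mul_pow]
              have h4 := hL p.1 (hZ p.1) p.2 ((σ : ℂ) + t * I) (by simp [hσ])
                (by simp; linarith)
              have h5 : |((σ : ℂ) + t * I).im| = |t| := by simp
              rw [h5] at h4
              have h6 : |t| ≤ T := by
                rw [abs_le]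
                exact ⟨ht.1, ht.2⟩
              have h7 : (p.1 : ℝ) * (|t| + 6) ≤ 14 * (F * T) := by
                have : (p.1 : ℝ) ≤ 2 * F := by exact_mod_cast hp2.le
                calc (p.1 : ℝ) * (|t| + 6) ≤ (2 * F) * (7 * T) := by
                      apply mul_le_mul this (by linarith) (by positivity) (by positivity)
                  _ = 14 * (F * T) := by ring
              have h8 : ‖deriv (FF p.1 p.2) ((σ : ℂ) + t * I) / FF p.1 p.2 ((σ : ℂ) + t * I)‖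
                  ≤ L * (14 * (F * T)) ^ κ := by
                refine h4.trans ?_
                apply mul_le_mul_of_nonneg_left _ hL0
                exact Real.rpow_le_rpow (by positivity) h7 hκ.le
              apply mul_le_mul_of_nonneg_right _ (by positivity)
              exact pow_le_pow_left₀ (norm_nonneg _) h8 2
        _ = (L * (14 * (F * T)) ^ κ) ^ 2 * ∑ p ∈ H17_S F, ∫ t in (-T)..T,
              ‖1 - LF p.1 p.2 ((σ : ℂ) + t * I) * Mol N p.1 p.2 ((σ : ℂ) + t * I)‖ ^ 2 := by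
            rw [Finset.mul_sum]
        _ ≤ (L * (14 * (F * T)) ^ κ) ^ 2 * (C * (F * T) ^ κ * ((F : ℝ) ^ 2 * T * (N : ℝ) ^ (1 - 2 * σ)
              + ((N : ℝ) * F * T) ^ (2 - 2 * σ))) := by
            apply mul_le_mul_of_nonneg_left h2 (by positivity)
        _ ≤ _ := by
            have e1 : (L * (14 * (F * T)) ^ κ) ^ 2 = L ^ 2 * (14 : ℝ) ^ (2 * κ) * (F * T) ^ (2 * κ) := by
              have f1 : ((14 : ℝ) ^ κ) ^ 2 = (14 : ℝ) ^ (2 * κ) := by
                rw [← Real.rpow_natCast, ← Real.rpow_mul (by norm_num)]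
                congr 1
                push_cast
                ring
              have f2 : (((F : ℝ) * T) ^ κ) ^ 2 = ((F : ℝ) * T) ^ (2 * κ) := by
                rw [← Real.rpow_natCast, ← Real.rpow_mul hFT.le]
                congr 1
                push_cast
                ring
              rw [Real.mul_rpow (by norm_num) hFT.le, mul_pow, mul_pow, f1, f2]
              ring
            have e2 : ((F : ℝ) * T) ^ (2 * κ) * ((F : ℝ) * T) ^ κ = (F : ℝ) ^ (3 * κ) * T ^ (3 * κ) := by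
              rw [← Real.rpow_add hFT, ← Real.mul_rpow hF0.le hT0.le]
              congr 1
              ring
            have e3 : ((N : ℝ) * F * T) ^ (2 - 2 * σ) ≤ ((N : ℝ) * F) ^ (2 - 2 * σ) * T := by
              rw [Real.mul_rpow (by positivity) hT0.le]
              apply mul_le_mul_of_nonneg_left _ (by positivity)
              calc T ^ (2 - 2 * σ) ≤ T ^ (1 : ℝ) :=
                    Real.rpow_le_rpow_of_exponent_le hT (by linarith)
                _ = T := Real.rpow_one T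
            calc (L * (14 * (F * T)) ^ κ) ^ 2 * (C * (F * T) ^ κ * ((F : ℝ) ^ 2 * T
                  * (N : ℝ) ^ (1 - 2 * σ) + ((N : ℝ) * F * T) ^ (2 - 2 * σ)))
                ≤ (L * (14 * (F * T)) ^ κ) ^ 2 * (C * (F * T) ^ κ * ((F : ℝ) ^ 2 * T
                  * (N : ℝ) ^ (1 - 2 * σ) + ((N : ℝ) * F) ^ (2 - 2 * σ) * T)) := by gcongr
              _ = (L ^ 2 * (14 : ℝ) ^ (2 * κ) * C) * (((F : ℝ) * T) ^ (2 * κ) * ((F : ℝ) * T) ^ κ) *
                  ((F : ℝ) ^ 2 * (N : ℝ) ^ (1 - 2 * σ) + ((N : ℝ) * F) ^ (2 - 2 * σ)) * T := by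
                    rw [e1]; ring
              _ = _ := by
                    rw [e2, Real.rpow_add hT0, Real.rpow_one]
                    ring)
    δ hδ0 hδ1 X hX
  refine h1.trans (le_of_eq ?_)
  ring

lemma H17_int (f : ℝ → ℂ) (hf : Measurable f) (C a : ℝ) (ha : 0 ≤ a)
    (hb : ∀ t : ℝ, 1 < t → ‖f t‖ ≤ C * t ^ a) (h0 : ∀ t : ℝ, t ≤ 1 → f t = 0) (δ x y : ℝ) :
    IntervalIntegrable (fun u => ‖f (Real.exp (u + δ)) - f (Real.exp u)‖ ^ 2) volume x y := by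
  have hC : ∀ M : ℝ, ∀ u : ℝ, u ≤ M → ‖f (Real.exp u)‖ ≤ |C| * Real.exp M ^ a := by
    intro M u hu
    rcases le_or_gt (Real.exp u) 1 with h | h
    · rw [h0 _ h, norm_zero]; positivity
    · refine (hb _ h).trans ?_
      have h1 : Real.exp u ^ a ≤ Real.exp M ^ a :=
        Real.rpow_le_rpow (Real.exp_pos _).le (Real.exp_le_exp.mpr hu) ha
      have h2 : 0 ≤ Real.exp u ^ a := by positivity
      calc C * Real.exp u ^ a ≤ |C| * Real.exp u ^ a :=
            mul_le_mul_of_nonneg_right (le_abs_self C) h2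
        _ ≤ _ := mul_le_mul_of_nonneg_left h1 (abs_nonneg C)
  set M : ℝ := max x y + |δ| with hM
  have hmeas : Measurable (fun u => ‖f (Real.exp (u + δ)) - f (Real.exp u)‖ ^ 2) := by
    have h1 : Measurable (fun u : ℝ => f (Real.exp (u + δ))) :=
      hf.comp (Real.measurable_exp.comp (measurable_id.add_const δ))
    have h2 : Measurable (fun u : ℝ => f (Real.exp u)) := hf.comp Real.measurable_exp
    exact ((h1.sub h2).norm).pow_const 2
  rw [intervalIntegrable_iff]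
  refine Measure.integrableOn_of_bounded (M := (2 * (|C| * Real.exp M ^ a)) ^ 2) ?_
    hmeas.aestronglyMeasurable ?_
  · simp [Set.uIoc]
  · filter_upwards [ae_restrict_mem measurableSet_uIoc] with u hu
    have hu1 : u ≤ max x y := by
      rw [Set.uIoc, Set.mem_Ioc] at hu
      exact hu.2
    have h1 := hC M (u + δ) (by rw [hM]; linarith [le_abs_self δ])
    have h2 := hC M u (by rw [hM]; linarith [abs_nonneg δ])
    rw [Real.norm_of_nonneg (by positivity)]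
    apply pow_le_pow_left₀ (norm_nonneg _)
    calc ‖f (Real.exp (u + δ)) - f (Real.exp u)‖ ≤ ‖f (Real.exp (u + δ))‖ + ‖f (Real.exp u)‖ :=
          norm_sub_le _ _
      _ ≤ _ := by linarith

lemma H17_one (g : DirichletCharacter ℂ 1 → ℝ) (hg : ∀ χ, 0 ≤ g χ) : pSum 1 g ≤ g 1 := by
  classical
  rw [P4_pSum]
  calc ∑ χ ∈ Finset.univ.filter (fun χ : DirichletCharacter ℂ 1 => χ.IsPrimitive), g χ
      ≤ ∑ χ : DirichletCharacter ℂ 1, g χ :=
        Finset.sum_le_sum_of_subset_of_nonneg (Finset.filter_subset _ _) (fun χ _ _ => hg χ)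
    _ = g 1 := by
        have h1 : ∀ χ : DirichletCharacter ℂ 1, χ = 1 := fun χ => Subsingleton.elim _ _
        rw [Finset.sum_eq_single 1 (fun χ _ h => absurd (h1 χ) h)
          (fun h => absurd (Finset.mem_univ _) h)]

/-- the choice of the length of the mollifier -/
lemma H17_N (η e : ℝ) (hη0 : 0 ≤ η) (hη : 1 ≤ 16 * η ^ 2 + 16 * η) (hη1 : η < 1 / 4)
    (he : 0 < e) (he1 : 3 / 4 + η + e < 1) (F : ℕ) (hF : 2 ≤ F) (X : ℝ) (hX : 1 ≤ X)
    (hFX : (F : ℝ) ≤ X ^ (1 / 2 - 2 * η)) : ∃ N : ℕ, 1 ≤ N ∧ N ≤ F ^ 2 ∧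
    (N : ℝ) ≤ X ^ (1 / 2 + 2 * η) ∧
    (F : ℝ) ^ 2 * (N : ℝ) ^ (1 - 2 * (3 / 4 + η + e)) ≤ 4 * F ∧
    ((N : ℝ) * F) ^ (2 - 2 * (3 / 4 + η + e)) ≤ F := by
  have hF1 : (1 : ℝ) ≤ F := by exact_mod_cast (by omega : 1 ≤ F)
  have hF0 : (0 : ℝ) < F := by linarith
  have hX0 : (0 : ℝ) < X := by linarith
  set p : ℝ := 2 / (1 + 4 * η) with hp
  have hw : 0 < 1 + 4 * η := by linarith
  have hp0 : 0 < p := by positivity
  have hp2 : p ≤ 2 := by
    rw [hp, div_le_iff₀ hw]; linarith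
  refine ⟨⌊(F : ℝ) ^ p⌋₊, ?_, ?_, ?_, ?_, ?_⟩
  · exact Nat.le_floor (by push_cast; exact Real.one_le_rpow hF1 hp0.le)
  · have h1 : (⌊(F : ℝ) ^ p⌋₊ : ℝ) ≤ (F : ℝ) ^ p := Nat.floor_le (by positivity)
    have h2 : (F : ℝ) ^ p ≤ (F : ℝ) ^ (2 : ℝ) := Real.rpow_le_rpow_of_exponent_le hF1 hp2
    have h3 : (F : ℝ) ^ (2 : ℝ) = ((F ^ 2 : ℕ) : ℝ) := by push_cast; norm_num
    exact_mod_cast (h1.trans h2).trans (le_of_eq h3)
  · have h1 : (⌊(F : ℝ) ^ p⌋₊ : ℝ) ≤ (F : ℝ) ^ p := Nat.floor_le (by positivity)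
    refine h1.trans ?_
    calc (F : ℝ) ^ p ≤ (X ^ (1 / 2 - 2 * η)) ^ p := Real.rpow_le_rpow hF0.le hFX hp0.le
      _ = X ^ ((1 / 2 - 2 * η) * p) := by rw [← Real.rpow_mul hX0.le]
      _ ≤ X ^ (1 / 2 + 2 * η) := by
          apply Real.rpow_le_rpow_of_exponent_le hX
          rw [hp, ← mul_div_assoc, div_le_iff₀ hw]
          nlinarith
  · set N : ℕ := ⌊(F : ℝ) ^ p⌋₊ with hN
    have hN1 : 1 ≤ N := Nat.le_floor (by push_cast; exact Real.one_le_rpow hF1 hp0.le)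
    have hN1' : (1 : ℝ) ≤ N := by exact_mod_cast hN1
    have h1 : (F : ℝ) ^ p < N + 1 := Nat.lt_floor_add_one _
    have h2 : (F : ℝ) ^ p / 2 ≤ N := by linarith
    set q : ℝ := 2 * (3 / 4 + η + e) - 1 with hq
    have hq0 : 0 < q := by rw [hq]; linarith
    have hq2 : q ≤ 2 := by rw [hq]; linarith
    have h3 : (1 - 2 * (3 / 4 + η + e)) = -q := by rw [hq]; ring
    rw [h3]
    have hFp : 0 < (F : ℝ) ^ p / 2 := by positivity
    have h4 : (N : ℝ) ^ (-q) ≤ ((F : ℝ) ^ p / 2) ^ (-q) :=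
      Real.rpow_le_rpow_of_nonpos hFp h2 (by linarith)
    have h5 : ((F : ℝ) ^ p / 2) ^ (-q) = (F : ℝ) ^ (-(p * q)) * (2 : ℝ) ^ q := by
      rw [Real.div_rpow (by positivity) (by norm_num), ← Real.rpow_mul hF0.le,
        Real.rpow_neg (by norm_num : (0 : ℝ) ≤ 2), div_inv_eq_mul]
      congr 2
      ring
    have h6 : (2 : ℝ) ^ q ≤ 4 := by
      calc (2 : ℝ) ^ q ≤ (2 : ℝ) ^ (2 : ℝ) := Real.rpow_le_rpow_of_exponent_le (by norm_num) hq2
        _ = 4 := by norm_num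
    have h7 : (1 : ℝ) ≤ p * q := by
      rw [hp, hq, div_mul_eq_mul_div, le_div_iff₀ hw]
      linarith
    have h8 : (F : ℝ) ^ (-(p * q)) ≤ (F : ℝ) ^ (-1 : ℝ) :=
      Real.rpow_le_rpow_of_exponent_le hF1 (by linarith)
    have h9 : (F : ℝ) ^ (-1 : ℝ) = (F : ℝ)⁻¹ := Real.rpow_neg_one _
    calc (F : ℝ) ^ 2 * (N : ℝ) ^ (-q) ≤ (F : ℝ) ^ 2 * ((F : ℝ) ^ (-(p * q)) * (2 : ℝ) ^ q) := by
          rw [← h5]
          exact mul_le_mul_of_nonneg_left h4 (by positivity)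
      _ ≤ (F : ℝ) ^ 2 * ((F : ℝ)⁻¹ * 4) := by
          rw [← h9]
          gcongr
      _ = 4 * F := by field_simp
  · set N : ℕ := ⌊(F : ℝ) ^ p⌋₊ with hN
    have h1 : (N : ℝ) ≤ (F : ℝ) ^ p := Nat.floor_le (by positivity)
    set z : ℝ := 2 - 2 * (3 / 4 + η + e) with hz
    have hz0 : 0 < z := by rw [hz]; linarith
    calc ((N : ℝ) * F) ^ z ≤ ((F : ℝ) ^ p * F) ^ z := by
          apply Real.rpow_le_rpow (by positivity) _ hz0.le
          exact mul_le_mul_of_nonneg_right h1 hF0.le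
      _ = (F : ℝ) ^ ((p + 1) * z) := by
          rw [← Real.rpow_add_one hF0.ne', ← Real.rpow_mul hF0.le]
      _ ≤ (F : ℝ) ^ (1 : ℝ) := by
          apply Real.rpow_le_rpow_of_exponent_le hF1
          have h2 : (p + 1) * z ≤ (p + 1) * (1 / 2 - 2 * η) := by
            apply mul_le_mul_of_nonneg_left _ (by positivity)
            rw [hz]; linarith
          refine h2.trans ?_
          have h3 : p + 1 = (3 + 4 * η) / (1 + 4 * η) := by
            rw [hp]; field_simp; ring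
          rw [h3, div_mul_eq_mul_div, div_le_iff₀ hw]
          nlinarith
      _ = F := Real.rpow_one _

/-- H17. The increments. -/
theorem inc_of_zf (η : ℝ) (hη0 : 0 ≤ η) (hη : 1 ≤ 16 * η ^ 2 + 16 * η) (hη1 : η < 1 / 4)
    (hZ : ∀ r : ℕ, ∀ [NeZero r], ZF r (3 / 4 + η)) : Inc η := by
  intro ε hε
  set e : ℝ := min (ε / 8) ((1 / 4 - η) / 2) with he
  have he0 : 0 < e := lt_min (by positivity) (by linarith)
  have heε : e ≤ ε / 8 := min_le_left _ _
  have he1 : 3 / 4 + η + e < 1 := by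
    have : e ≤ (1 / 4 - η) / 2 := min_le_right _ _
    linarith
  set κ : ℝ := min (ε / 12) (1 / 6) with hκ
  have hκ0 : 0 < κ := lt_min (by positivity) (by norm_num)
  have hκε : κ ≤ ε / 12 := min_le_left _ _
  have hκ6 : κ ≤ 1 / 6 := min_le_right _ _
  obtain ⟨CA, hCA0, hCA⟩ := H17_A κ hκ0 (by linarith)
  obtain ⟨CB, hCB0, hCB⟩ := H17_B (3 / 4 + η) (by linarith) (by linarith) hZ e κ he0 he1 hκ0 hκ6
  obtain ⟨C1, hC10, hC1⟩ := inc_one (3 / 4 + η) (by linarith) (by linarith) (hZ 1) ε hε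
  obtain ⟨CT, hCT0, hCT⟩ := inc_trivial η hη0 hη1.le ε hε
  refine ⟨CT + C1 + 4 * CA + 10 * CB, by positivity, fun X hX F hF hFX h hh0 hh1 => ?_⟩
  have hX0 : (0 : ℝ) < X := by linarith
  have hX1 : (1 : ℝ) ≤ X := by linarith
  have hF0 : (0 : ℝ) < F := by exact_mod_cast hF
  have hbase : 0 ≤ h * F * (X ^ (1 / 2 : ℝ) + F) * X ^ (1 + 2 * η + ε) := by positivity
  have hbase2 : h * F * X ^ (3 / 2 + 2 * η + ε)
      ≤ h * F * (X ^ (1 / 2 : ℝ) + F) * X ^ (1 + 2 * η + ε) := by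
    have h1 : X ^ (3 / 2 + 2 * η + ε) = X ^ (1 / 2 : ℝ) * X ^ (1 + 2 * η + ε) := by
      rw [← Real.rpow_add hX0]; congr 1; ring
    rw [h1, mul_assoc (h * (F : ℝ))]
    apply mul_le_mul_of_nonneg_left _ (by positivity)
    apply mul_le_mul_of_nonneg_right _ (by positivity)
    linarith
  rcases le_or_gt (h * X ^ (1 / 2 - 2 * η)) (2 * F) with hcase | hcase
  · refine (hCT X hX F hF hFX h hh0 hh1 hcase).trans ?_
    have e1 : CT * h * F * (X ^ (1 / 2 : ℝ) + F) * X ^ (1 + 2 * η + ε)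
        = CT * (h * F * (X ^ (1 / 2 : ℝ) + F) * X ^ (1 + 2 * η + ε)) := by ring
    have e2 : (CT + C1 + 4 * CA + 10 * CB) * h * F * (X ^ (1 / 2 : ℝ) + F) * X ^ (1 + 2 * η + ε)
        = (CT + C1 + 4 * CA + 10 * CB) * (h * F * (X ^ (1 / 2 : ℝ) + F) * X ^ (1 + 2 * η + ε)) := by
      ring
    rw [e1, e2]
    apply mul_le_mul_of_nonneg_right _ hbase
    linarith
  -- the main case
  have hF1 : (1 : ℝ) ≤ F := by exact_mod_cast hF
  have hFX2 : (F : ℝ) ≤ X ^ (1 / 2 - 2 * η) := by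
    have h1 : h * X ^ (1 / 2 - 2 * η) ≤ X ^ (1 / 2 - 2 * η) := by
      have : 0 ≤ X ^ (1 / 2 - 2 * η) := by positivity
      nlinarith
    linarith
  have hhX : 1 / X ≤ h := by
    have h1 : X ^ (1 / 2 - 2 * η) ≤ X := by
      calc X ^ (1 / 2 - 2 * η) ≤ X ^ (1 : ℝ) := Real.rpow_le_rpow_of_exponent_le hX1 (by linarith)
        _ = X := Real.rpow_one X
    rw [div_le_iff₀ hX0]
    nlinarith
  have hhinv : ∀ z : ℝ, 0 ≤ z → h ^ (1 - z) ≤ h * X ^ z := by
    intro z hz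
    have h1 : h ^ (1 - z) = h * (1 / h) ^ z := by
      rw [Real.rpow_sub hh0, Real.rpow_one, one_div, Real.inv_rpow hh0.le]
      rfl
    rw [h1]
    apply mul_le_mul_of_nonneg_left _ hh0.le
    apply Real.rpow_le_rpow (by positivity) _ hz
    rw [div_le_iff₀ hh0]
    rw [div_le_iff₀ hX0] at hhX
    linarith
  have hFκ : ∀ z : ℝ, 0 ≤ z → (F : ℝ) ^ z ≤ X ^ z := fun z hz =>
    Real.rpow_le_rpow hF0.le hFX hz
  rcases Nat.lt_or_ge F 2 with hF2 | hF2
  · have hFe : F = 1 := by omega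
    subst hFe
    have h1 : Finset.Ico 1 (2 * 1) = {1} := by decide
    rw [h1, Finset.sum_singleton]
    have h2 := hC1 X hX h hhX hh1
    have h3 := H17_one (fun χ => ∫ u in (Real.log X - 1)..(Real.log X),
      ‖EX 1 χ (Real.exp (u + h)) - EX 1 χ (Real.exp u)‖ ^ 2) (fun χ =>
        intervalIntegral.integral_nonneg (by linarith) (fun u _ => by positivity))
    refine h3.trans (h2.trans ?_)
    have e0 : X ^ (2 * (3 / 4 + η) + ε) = X ^ (3 / 2 + 2 * η + ε) := by congr 1; ring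
    rw [e0]
    push_cast at hbase2 hbase ⊢
    have e1 : C1 * h * X ^ (3 / 2 + 2 * η + ε) = C1 * (h * 1 * X ^ (3 / 2 + 2 * η + ε)) := by ring
    rw [e1]
    calc C1 * (h * 1 * X ^ (3 / 2 + 2 * η + ε))
        ≤ C1 * (h * 1 * (X ^ (1 / 2 : ℝ) + 1) * X ^ (1 + 2 * η + ε)) :=
          mul_le_mul_of_nonneg_left hbase2 hC10
      _ ≤ (CT + C1 + 4 * CA + 10 * CB) * (h * 1 * (X ^ (1 / 2 : ℝ) + 1) * X ^ (1 + 2 * η + ε)) := by
          apply mul_le_mul_of_nonneg_right _ hbase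
          linarith
      _ = _ := by ring
  · obtain ⟨N, hN1, hNF, hNX, hNa, hNb⟩ := H17_N η e hη0 hη hη1 he0 he1 F hF2 X hX1 hFX2
    have hN0 : (0 : ℝ) < N := by exact_mod_cast hN1
    rw [H17_sum F (fun r χ => ∫ u in (Real.log X - 1)..(Real.log X),
      ‖EX r χ (Real.exp (u + h)) - EX r χ (Real.exp u)‖ ^ 2)]
    have hA := hCA F hF2 N hN1 hNF h hh0 hh1 X hX1
    have hB := hCB F hF2 N hN1 hNF h hh0 hh1 X hX1
    have hsplit : ∑ p ∈ H17_S F, ∫ u in (Real.log X - 1)..(Real.log X),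
        ‖EX p.1 p.2 (Real.exp (u + h)) - EX p.1 p.2 (Real.exp u)‖ ^ 2
        ≤ 2 * (∑ p ∈ H17_S F, ∫ u in (Real.log X - 1)..(Real.log X),
            ‖Af N p.1 p.2 (Real.exp (u + h)) - Af N p.1 p.2 (Real.exp u)‖ ^ 2)
          + 2 * (∑ p ∈ H17_S F, ∫ u in (Real.log X - 1)..(Real.log X),
            ‖Bf N p.1 p.2 (Real.exp (u + h)) - Bf N p.1 p.2 (Real.exp u)‖ ^ 2) := by
      rw [Finset.mul_sum, Finset.mul_sum, ← Finset.sum_add_distrib]
      refine Finset.sum_le_sum fun p hp => ?_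
      obtain ⟨hp1, hp2, hp3⟩ := H17_mem F p hp
      have : NeZero p.1 := ⟨by omega⟩
      have hne := H17_ne_one p.1 (by omega) p.2 hp3
      obtain ⟨Ca, hCa⟩ := Af_bound N p.1 p.2 hne 1 (by norm_num)
      obtain ⟨Cb, hCb⟩ := Bf_bound N p.1 p.2 hne (3 / 4 + η) (by linarith) (by linarith) (hZ p.1)
        1 (by linarith)
      have i1 := H17_int (Af N p.1 p.2) (SumC_measurable _) Ca 1 (by norm_num) hCa
        (fun t ht => Af_zero N p.1 p.2 t (by linarith)) h (Real.log X - 1) (Real.log X)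
      have i2 := H17_int (Bf N p.1 p.2) ((EX_measurable p.1 p.2).sub (SumC_measurable _)) Cb 1
        (by norm_num) hCb (fun t ht => Bf_zero N p.1 p.2 hne t (by linarith)) h
        (Real.log X - 1) (Real.log X)
      rw [← intervalIntegral.integral_const_mul, ← intervalIntegral.integral_const_mul,
        ← intervalIntegral.integral_add (i1.const_mul 2) (i2.const_mul 2)]
      refine intervalIntegral.integral_mono_on (by linarith) (EX_int p.1 p.2 h _ _)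
        ((i1.const_mul 2).add (i2.const_mul 2)) fun u _ => ?_
      have e1 : EX p.1 p.2 (Real.exp (u + h)) - EX p.1 p.2 (Real.exp u)
          = (Af N p.1 p.2 (Real.exp (u + h)) - Af N p.1 p.2 (Real.exp u))
            + (Bf N p.1 p.2 (Real.exp (u + h)) - Bf N p.1 p.2 (Real.exp u)) := by
        unfold Bf; ring
      rw [e1]
      have e2 := norm_add_le (Af N p.1 p.2 (Real.exp (u + h)) - Af N p.1 p.2 (Real.exp u))
        (Bf N p.1 p.2 (Real.exp (u + h)) - Bf N p.1 p.2 (Real.exp u))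
      have e3 := pow_le_pow_left₀ (norm_nonneg _) e2 2
      refine e3.trans ?_
      nlinarith [sq_nonneg (‖Af N p.1 p.2 (Real.exp (u + h)) - Af N p.1 p.2 (Real.exp u)‖
        - ‖Bf N p.1 p.2 (Real.exp (u + h)) - Bf N p.1 p.2 (Real.exp u)‖)]
    have hA2 : CA * X * (F : ℝ) ^ κ * ((F : ℝ) ^ 2 + N * F) * h ^ (1 - κ)
        ≤ 2 * CA * (h * F * X ^ (3 / 2 + 2 * η + ε)) := by
      have a1 := hhinv κ hκ0.le
      have a2 := hFκ κ hκ0.le
      have a3 : (F : ℝ) ≤ X ^ (1 / 2 + 2 * η) :=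
        hFX2.trans (Real.rpow_le_rpow_of_exponent_le hX1 (by linarith))
      have a4 : (F : ℝ) ^ 2 + N * F ≤ 2 * (F * X ^ (1 / 2 + 2 * η)) := by
        nlinarith [mul_le_mul_of_nonneg_left a3 hF0.le, mul_le_mul_of_nonneg_left hNX hF0.le]
      calc CA * X * (F : ℝ) ^ κ * ((F : ℝ) ^ 2 + N * F) * h ^ (1 - κ)
          ≤ CA * X * X ^ κ * (2 * (F * X ^ (1 / 2 + 2 * η))) * (h * X ^ κ) := by gcongr
        _ = 2 * CA * (h * F * (X * X ^ κ * X ^ (1 / 2 + 2 * η) * X ^ κ)) := by ring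
        _ ≤ 2 * CA * (h * F * X ^ (3 / 2 + 2 * η + ε)) := by
            have a5 : X * X ^ κ * X ^ (1 / 2 + 2 * η) * X ^ κ ≤ X ^ (3 / 2 + 2 * η + ε) := by
              calc X * X ^ κ * X ^ (1 / 2 + 2 * η) * X ^ κ
                  = X ^ (1 + κ + (1 / 2 + 2 * η) + κ) := by
                    rw [Real.rpow_add hX0 (1 + κ + (1 / 2 + 2 * η)) κ,
                      Real.rpow_add hX0 (1 + κ) (1 / 2 + 2 * η), Real.rpow_add hX0 1 κ,
                      Real.rpow_one]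
                _ ≤ _ := Real.rpow_le_rpow_of_exponent_le hX1 (by linarith)
            gcongr
    have hB2 : CB * X ^ (2 * (3 / 4 + η + e)) * (F : ℝ) ^ (3 * κ) *
        ((F : ℝ) ^ 2 * (N : ℝ) ^ (1 - 2 * (3 / 4 + η + e))
          + ((N : ℝ) * F) ^ (2 - 2 * (3 / 4 + η + e))) * h ^ (1 - 3 * κ)
        ≤ 5 * CB * (h * F * X ^ (3 / 2 + 2 * η + ε)) := by
      have a1 := hhinv (3 * κ) (by positivity)
      have a2 := hFκ (3 * κ) (by positivity)
      have a4 : (F : ℝ) ^ 2 * (N : ℝ) ^ (1 - 2 * (3 / 4 + η + e))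
          + ((N : ℝ) * F) ^ (2 - 2 * (3 / 4 + η + e)) ≤ 5 * F := by linarith
      calc CB * X ^ (2 * (3 / 4 + η + e)) * (F : ℝ) ^ (3 * κ) *
            ((F : ℝ) ^ 2 * (N : ℝ) ^ (1 - 2 * (3 / 4 + η + e))
              + ((N : ℝ) * F) ^ (2 - 2 * (3 / 4 + η + e))) * h ^ (1 - 3 * κ)
          ≤ CB * X ^ (2 * (3 / 4 + η + e)) * X ^ (3 * κ) * (5 * F) * (h * X ^ (3 * κ)) := by
            gcongr
        _ = 5 * CB * (h * F * (X ^ (2 * (3 / 4 + η + e)) * X ^ (3 * κ) * X ^ (3 * κ))) := by ring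
        _ ≤ 5 * CB * (h * F * X ^ (3 / 2 + 2 * η + ε)) := by
            have a5 : X ^ (2 * (3 / 4 + η + e)) * X ^ (3 * κ) * X ^ (3 * κ)
                ≤ X ^ (3 / 2 + 2 * η + ε) := by
              calc X ^ (2 * (3 / 4 + η + e)) * X ^ (3 * κ) * X ^ (3 * κ)
                  = X ^ (2 * (3 / 4 + η + e) + 3 * κ + 3 * κ) := by
                    rw [Real.rpow_add hX0 (2 * (3 / 4 + η + e) + 3 * κ) (3 * κ),
                      Real.rpow_add hX0 (2 * (3 / 4 + η + e)) (3 * κ)]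
                _ ≤ _ := Real.rpow_le_rpow_of_exponent_le hX1 (by linarith)
            gcongr
    calc _ ≤ 2 * (CA * X * (F : ℝ) ^ κ * ((F : ℝ) ^ 2 + N * F) * h ^ (1 - κ))
          + 2 * (CB * X ^ (2 * (3 / 4 + η + e)) * (F : ℝ) ^ (3 * κ) *
            ((F : ℝ) ^ 2 * (N : ℝ) ^ (1 - 2 * (3 / 4 + η + e))
              + ((N : ℝ) * F) ^ (2 - 2 * (3 / 4 + η + e))) * h ^ (1 - 3 * κ)) := by
          refine hsplit.trans ?_
          gcongr
      _ ≤ 2 * (2 * CA * (h * F * X ^ (3 / 2 + 2 * η + ε)))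
          + 2 * (5 * CB * (h * F * X ^ (3 / 2 + 2 * η + ε))) := by gcongr
      _ = (4 * CA + 10 * CB) * (h * F * X ^ (3 / 2 + 2 * η + ε)) := by ring
      _ ≤ (4 * CA + 10 * CB) * (h * F * (X ^ (1 / 2 : ℝ) + F) * X ^ (1 + 2 * η + ε)) :=
          mul_le_mul_of_nonneg_left hbase2 (by positivity)
      _ ≤ (CT + C1 + 4 * CA + 10 * CB) * (h * F * (X ^ (1 / 2 : ℝ) + F) * X ^ (1 + 2 * η + ε)) := by
          apply mul_le_mul_of_nonneg_right _ hbase
          linarith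
      _ = _ := by ring

end Pool.Agent.MC.C2
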