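import Mathlib
import Pool.Agent.Lib.MP_9cfc0a_nt.EMLfun

set_option autoImplicit false

namespace Pool.Agent.EM

open Complex Metric Set MeasureTheory

lemma ev_const (C a : ℝ) (ha : 0 < a) : ∀ᶠ q : ℕ in Filter.atTop, C ≤ (q : ℝ) ^ a :=
  ((tendsto_rpow_atTop ha).comp tendsto_natCast_atTop_atTop).eventually_ge_atTop C

lemma ev_logC (C : ℝ) : ∀ᶠ q : ℕ in Filter.atTop, C ≤ Real.log q :=
  (Real.tendsto_log_atTop.comp tendsto_natCast_atTop_atTop).eventually_ge_atTop C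

lemma ev_log (C a : ℝ) (ha : 0 < a) :
    ∀ᶠ q : ℕ in Filter.atTop, C * Real.log q ≤ (q : ℝ) ^ a := by
  have h1 := (isLittleO_log_rpow_atTop ha).bound (show 0 < 1 / (|C| + 1) by positivity)
  have h2 := tendsto_natCast_atTop_atTop (R := ℝ) |>.eventually h1
  filter_upwards [h2, ev_logC 0] with q hq hq0
  rw [Real.norm_eq_abs, Real.norm_eq_abs, abs_of_nonneg hq0,
    abs_of_nonneg (Real.rpow_nonneg (Nat.cast_nonneg q) a)] at hq
  have h3 : (|C| + 1) * Real.log q ≤ (q : ℝ) ^ a := by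
    calc (|C| + 1) * Real.log q ≤ (|C| + 1) * (1 / (|C| + 1) * (q : ℝ) ^ a) := by gcongr
      _ = (q : ℝ) ^ a := by field_simp
  refine le_trans ?_ h3
  have := le_abs_self C
  gcongr
  linarith

lemma exists_zero_primitive : ∃ Q₀ : ℕ, 2 ≤ Q₀ ∧ ∀ (q : ℕ) [NeZero q], Q₀ ≤ q →
    ∀ χ : DirichletCharacter ℂ q, χ.IsPrimitive →
    ∃ χ' : DirichletCharacter ℂ q, (χ' = χ ∨ χ' = χ⁻¹) ∧ ∃ ρ : ℂ, χ'.LFunction ρ = 0 ∧
      1 / 2 ≤ ρ.re ∧ ρ.re < 1 ∧ |ρ.im| ≤ 19 / 10 := by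
  obtain ⟨C₁, hC₁, hU⟩ := L_upper
  obtain ⟨C₃, hC₃, hT⟩ := three_circles
  obtain ⟨c, hc, hF⟩ := funct_ratio
  set C₂ : ℝ := Real.log (3 * C₁) + 1 with hC₂
  have hC₂0 : 0 < C₂ := by
    have := Real.log_nonneg (show 1 ≤ 3 * C₁ by linarith)
    linarith
  set K : ℝ := 2 * (Real.log C₁ + C₃ * C₂) + 2 * (Real.log 3 + C₃ * C₂) - Real.log c
    + 4 / 100 * Real.log 702 with hK
  obtain ⟨Q, hQ⟩ := Filter.eventually_atTop.mp (ev_logC (K / (46 / 100) + 1))
  refine ⟨max Q 3, by omega, fun q _ hq χ hχ => ?_⟩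
  have hq3 : 3 ≤ q := le_trans (le_max_right _ _) hq
  have hqQ := hQ q (le_trans (le_max_left _ _) hq)
  have hq0 : (0 : ℝ) < q := by positivity
  have hχ1 : χ ≠ 1 := by
    intro h
    rw [h, DirichletCharacter.isPrimitive_def, DirichletCharacter.conductor_one] at hχ
    omega
  by_contra hcon
  push Not at hcon
  have hne1 : χ⁻¹ ≠ 1 := fun h => hχ1 (inv_eq_one.mp h)
  have hpinv : χ⁻¹.IsPrimitive := by
    rw [DirichletCharacter.isPrimitive_def, DirichletCharacter.conductor_inv]; exact hχ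
  have hZF : ∀ χ₁ : DirichletCharacter ℂ q, (χ₁ = χ ∨ χ₁ = χ⁻¹) → χ₁ ≠ 1 → χ₁.IsPrimitive →
      ∀ z ∈ ball (2 : ℂ) (19 / 10), χ₁.LFunction z ≠ 0 := by
    intro χ₁ hor h1 hp z hz h0
    rw [mem_ball, dist_eq_norm] at hz
    have hre := Complex.abs_re_le_norm (z - 2)
    have him := Complex.abs_im_le_norm (z - 2)
    simp only [Complex.sub_re, Complex.sub_im, Complex.re_ofNat, Complex.im_ofNat, sub_zero] at hre him
    rw [abs_le] at hre
    have hz1 : z.re < 1 := by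
      by_contra hge
      exact DirichletCharacter.LFunction_ne_zero_of_one_le_re χ₁ (.inl h1) (not_lt.mp hge) h0
    rcases le_or_gt (1 / 2) z.re with h | h
    · have := hcon χ₁ hor z h0 h hz1
      linarith
    · have h2 := reflect_zero q χ₁ h1 hp z (by linarith) hz1 h0
      have h3 : χ₁⁻¹ = χ ∨ χ₁⁻¹ = χ⁻¹ := by
        rcases hor with h | h
        · right; rw [h]
        · left; rw [h, inv_inv]
      have h4 := hcon χ₁⁻¹ h3 (1 - z) h2 (by simp; linarith) (by simp; linarith)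
      simp only [Complex.sub_im, Complex.one_im, zero_sub, abs_neg] at h4
      linarith
  have hlogs : ∀ χ₁ : DirichletCharacter ℂ q, (χ₁ = χ ∨ χ₁ = χ⁻¹) → χ₁ ≠ 1 → χ₁.IsPrimitive →
      (0 < ‖χ₁.LFunction (1 / 4)‖ ∧ 0 < ‖χ₁.LFunction (3 / 4)‖) ∧
      Real.log ‖χ₁.LFunction (1 / 4)‖ ≤ Real.log C₁ + C₃ * C₂ + Real.log (702 * q) / 100 ∧
      -Real.log 3 - C₃ * C₂ - Real.log (702 * q) / 100 ≤ Real.log ‖χ₁.LFunction (3 / 4)‖ := by
    intro χ₁ hor h1 hp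
    have hz := hZF χ₁ hor h1 hp
    have h2 : 1 / 3 ≤ ‖χ₁.LFunction 2‖ := MC.LFunction_lower q χ₁ 2 (by simp)
    have h2' : ‖χ₁.LFunction 2‖ ≤ C₁ := hU q χ₁ 2 (by norm_num)
    have hT1 := hT χ₁.LFunction (Real.log (702 * q)) C₂
      (Real.log_pos (by
        have : (3 : ℝ) ≤ q := by exact_mod_cast hq3
        linarith)) hC₂0
      (DirichletCharacter.differentiable_LFunction h1).differentiableOn hz ?_ ?_
    · have hin1 : (1 / 4 : ℂ) ∈ closedBall (2 : ℂ) (7 / 4) := by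
        rw [mem_closedBall, dist_eq_norm]; norm_num
      have hin2 : (3 / 4 : ℂ) ∈ closedBall (2 : ℂ) (7 / 4) := by
        rw [mem_closedBall, dist_eq_norm]; norm_num
      have hin1' : (1 / 4 : ℂ) ∈ ball (2 : ℂ) (19 / 10) := by
        rw [mem_ball, dist_eq_norm]; norm_num
      have hin2' : (3 / 4 : ℂ) ∈ ball (2 : ℂ) (19 / 10) := by
        rw [mem_ball, dist_eq_norm]; norm_num
      have h3 := hT1 _ hin1
      have h4 := hT1 _ hin2
      rw [abs_le] at h3 h4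
      have h5 : Real.log ‖χ₁.LFunction 2‖ ≤ Real.log C₁ := Real.log_le_log (by linarith) h2'
      have h6 : -Real.log 3 ≤ Real.log ‖χ₁.LFunction 2‖ := by
        rw [← Real.log_inv]
        exact Real.log_le_log (by norm_num) (by rw [← one_div]; exact h2)
      refine ⟨⟨norm_pos_iff.mpr (hz _ hin1'), norm_pos_iff.mpr (hz _ hin2')⟩, ?_, ?_⟩
      · linarith [h3.2]
      · linarith [h4.1]
    · intro z hz'
      rw [Real.exp_log (by positivity)]
      rw [mem_ball, dist_eq_norm] at hz'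
      have hre := Complex.abs_re_le_norm (z - 2)
      simp only [Complex.sub_re, Complex.re_ofNat] at hre
      rw [abs_le] at hre
      have h3 := L_growth q χ₁ h1 z (by linarith)
      have h4 : ‖z‖ ≤ 39 / 10 := by
        calc ‖z‖ = ‖(z - 2) + 2‖ := by ring_nf
          _ ≤ ‖z - 2‖ + ‖(2 : ℂ)‖ := norm_add_le _ _
          _ ≤ 19 / 10 + 2 := by
              have : ‖(2 : ℂ)‖ = 2 := by simp
              rw [this]; linarith
          _ = 39 / 10 := by norm_num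
      have h5 : (1 : ℝ) ≤ q := by
        have : (3 : ℝ) ≤ q := by exact_mod_cast hq3
        linarith
      calc ‖χ₁.LFunction z‖ ≤ 20 * (2 * q + 1) * ‖z‖ := h3
        _ ≤ 20 * (2 * q + 1) * (39 / 10) := by gcongr
        _ ≤ 702 * q * (1 / 3) := by linarith
        _ ≤ 702 * q * ‖χ₁.LFunction 2‖ := by gcongr
    · intro z hz'
      rw [mem_ball, dist_eq_norm] at hz'
      have hre := Complex.abs_re_le_norm (z - 2)
      simp only [Complex.sub_re, Complex.re_ofNat] at hre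
      rw [abs_le] at hre
      have h3 := hU q χ₁ z (by linarith)
      refine h3.trans ?_
      have h4 : C₁ ≤ Real.exp C₂ * (1 / 3) := by
        rw [hC₂, Real.exp_add, Real.exp_log (by positivity)]
        have := Real.add_one_le_exp (1 : ℝ)
        nlinarith
      exact h4.trans (by gcongr)
  obtain ⟨⟨ha1, ha2⟩, ha3, ha4⟩ := hlogs χ (.inl rfl) hχ1 hχ
  obtain ⟨⟨hb1, hb2⟩, hb3, hb4⟩ := hlogs χ⁻¹ (.inr rfl) hne1 hpinv
  have h1 := hF q χ hχ1 hχ
  have h2 := Real.log_le_log (by positivity) h1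
  rw [Real.log_mul ha1.ne' hb1.ne', Real.log_mul (by positivity) (by positivity),
    Real.log_mul hc.ne' (by positivity), Real.log_mul ha2.ne' hb2.ne',
    Real.log_sqrt hq0.le] at h2
  have h3 : Real.log (702 * q) = Real.log 702 + Real.log q :=
    Real.log_mul (by norm_num) hq0.ne'
  rw [h3] at ha3 ha4 hb3 hb4
  have h4 : K / (46 / 100) + 1 ≤ Real.log q := hqQ
  have h5 : 46 / 100 * Real.log q ≤ K := by
    rw [hK]; linarith
  have h6 : K / (46 / 100) * (46 / 100) = K := by field_simp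
  linarith

lemma exists_zero : ∃ Q₀ : ℕ, 2 ≤ Q₀ ∧ ∀ (q : ℕ) [NeZero q],
    ∀ χ : DirichletCharacter ℂ q, Q₀ ≤ χ.conductor →
    ∃ χ' : DirichletCharacter ℂ q, (χ' = χ ∨ χ' = χ⁻¹) ∧ χ' ≠ 1 ∧ ∃ ρ : ℂ, χ'.LFunction ρ = 0 ∧
      1 / 2 ≤ ρ.re ∧ ρ.re < 1 ∧ |ρ.im| ≤ 19 / 10 := by
  obtain ⟨Q₀, hQ₀, h⟩ := exists_zero_primitive
  refine ⟨Q₀, hQ₀, fun q _ χ hχ => ?_⟩
  have hχ1 : χ ≠ 1 := by
    intro h1
    rw [h1, DirichletCharacter.conductor_one] at hχ
    omega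
  haveI : NeZero χ.conductor := ⟨by omega⟩
  obtain ⟨χ', hor, ρ, hρ, h1, h2, h3⟩ := h χ.conductor hχ χ.primitiveCharacter
    χ.primitiveCharacter_isPrimitive
  obtain ⟨hz1, hz2⟩ := zero_of_primitive q χ hχ1 ρ
  rcases hor with h4 | h4
  · exact ⟨χ, .inl rfl, hχ1, ρ, hz1 (h4 ▸ hρ), h1, h2, h3⟩
  · exact ⟨χ⁻¹, .inr rfl, fun h => hχ1 (inv_eq_one.mp h), ρ, hz2 (h4 ▸ hρ), h1, h2, h3⟩

end Pool.Agent.EM
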