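import Mathlib
import Pool.Agent.Lib.MP_9cfc0a_nt.EMChars
import Pool.Agent.Lib.MP_9cfc0a_nt.EMKey
import Pool.Agent.Lib.MP_9cfc0a_nt.EMMain

set_option autoImplicit false

namespace Pool.Agent.EM

open Complex Metric Set MeasureTheory

lemma Wt_le (k : ℕ) (x : ℝ) (hx : 1 < x) :
    Wt k x ≤ 2 * (2 / 3 : ℝ) ^ k * (1 / x ^ (3 / 2 : ℝ)) := by
  have hx0 : 0 < x := by linarith
  have hu : 0 ≤ Real.log x := Real.log_nonneg hx.le
  set u : ℝ := Real.log x with hu'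
  have hexp : Real.exp (3 / 2 * u) = x ^ (3 / 2 : ℝ) := by
    rw [Real.rpow_def_of_pos hx0, mul_comm]
  have h1 : ∀ j : ℕ, u ^ j / (j.factorial : ℝ) ≤ (2 / 3 : ℝ) ^ j * x ^ (3 / 2 : ℝ) := by
    intro j
    have h2 := Real.pow_div_factorial_le_exp (3 / 2 * u) (by positivity) j
    rw [hexp] at h2
    have h3 : u ^ j / (j.factorial : ℝ) = (2 / 3 : ℝ) ^ j * ((3 / 2 * u) ^ j / (j.factorial : ℝ)) := by
      rw [mul_pow]
      have : (2 / 3 : ℝ) ^ j * (3 / 2) ^ j = 1 := by rw [← mul_pow]; norm_num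
      calc u ^ j / (j.factorial : ℝ) = 1 * (u ^ j / (j.factorial : ℝ)) := (one_mul _).symm
        _ = ((2 / 3 : ℝ) ^ j * (3 / 2) ^ j) * (u ^ j / (j.factorial : ℝ)) := by rw [this]
        _ = _ := by ring
    rw [h3]
    gcongr
  have h2 := h1 k
  have h3 := h1 (k + 1)
  have hx3 : x ^ 3 = x ^ (3 / 2 : ℝ) * x ^ (3 / 2 : ℝ) := by
    rw [← Real.rpow_add hx0, ← Real.rpow_natCast]; norm_num
  have hp : 0 < x ^ (3 / 2 : ℝ) := by positivity
  unfold Wt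
  rw [div_le_iff₀ (by positivity), hx3, ← hu']
  have h4 : (2 / 3 : ℝ) ^ (k + 1) ≤ (2 / 3 : ℝ) ^ k := by
    rw [pow_succ]
    have : (0 : ℝ) < (2 / 3) ^ k := by positivity
    linarith
  calc u ^ (k + 1) / ((k + 1).factorial : ℝ) + u ^ k / (k.factorial : ℝ)
      ≤ (2 / 3 : ℝ) ^ k * x ^ (3 / 2 : ℝ) + (2 / 3 : ℝ) ^ k * x ^ (3 / 2 : ℝ) := by
        refine add_le_add (h3.trans ?_) h2
        gcongr
    _ = 2 * (2 / 3 : ℝ) ^ k * (1 / x ^ (3 / 2 : ℝ)) * (x ^ (3 / 2 : ℝ) * x ^ (3 / 2 : ℝ)) := by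
        field_simp
        ring

/-- `|ψ(x,χ)| x^(-3/2)` is integrable on a window -/
lemma integrable_psiC_window {q : ℕ} (χ : DirichletCharacter ℂ q) (X Y : ℝ) (hX : 1 ≤ X) :
    IntegrableOn (fun x : ℝ => ‖psiC χ x‖ / x ^ (3 / 2 : ℝ)) (Ioc X Y) := by
  refine Measure.integrableOn_of_bounded (M := 6 * Y) (by simp) ?_ ?_
  · exact ((psiC_measurable χ).norm.div (by fun_prop)).aestronglyMeasurable
  · refine (ae_restrict_iff' measurableSet_Ioc).mpr (Filter.Eventually.of_forall fun x hx => ?_)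
    have hx1 : 1 ≤ x := by linarith [hx.1]
    have hp : 1 ≤ x ^ (3 / 2 : ℝ) := Real.one_le_rpow hx1 (by norm_num)
    rw [Real.norm_of_nonneg (by positivity)]
    calc ‖psiC χ x‖ / x ^ (3 / 2 : ℝ) ≤ ‖psiC χ x‖ := div_le_self (norm_nonneg _) hp
      _ ≤ 6 * x := psiC_le q χ x (by linarith)
      _ ≤ 6 * Y := by linarith [hx.2]

/-- `|ψ(x,χ)|² x^(-2)` is integrable on a window -/
lemma integrable_psiC_sq_window {q : ℕ} (χ : DirichletCharacter ℂ q) (X Y : ℝ) (hX : 1 ≤ X) :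
    IntegrableOn (fun x : ℝ => ‖psiC χ x‖ ^ 2 / x ^ 2) (Ioc X Y) := by
  refine Measure.integrableOn_of_bounded (M := 36) (by simp) ?_ ?_
  · exact (((psiC_measurable χ).norm.pow_const 2).div (by fun_prop)).aestronglyMeasurable
  · refine (ae_restrict_iff' measurableSet_Ioc).mpr (Filter.Eventually.of_forall fun x hx => ?_)
    have hx1 : 1 ≤ x := by linarith [hx.1]
    rw [Real.norm_of_nonneg (by positivity), div_le_iff₀ (by positivity)]
    have h1 := psiC_le q χ x (by linarith)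
    calc ‖psiC χ x‖ ^ 2 ≤ (6 * x) ^ 2 := by gcongr
      _ = 36 * x ^ 2 := by ring

/-- First moment lower bound in the window `(X, X^K]`. -/
lemma key2 (η : ℝ) (hη : 0 < η) (hη1 : η ≤ 1) :
    ∃ (K : ℕ) (X₁ : ℝ), 1 ≤ K ∧ ∀ (q : ℕ) [NeZero q] (X : ℝ), (q : ℝ) ≤ X → X₁ ≤ X →
      ∀ χ : DirichletCharacter ℂ q, χ ≠ 1 →
      ∀ ρ₀ : ℂ, χ.LFunction ρ₀ = 0 → 1 / 2 ≤ ρ₀.re → ρ₀.re < 1 → |ρ₀.im| ≤ 19 / 10 →
      X ^ (-η) ≤ ∫ x in Ioc X (X ^ K), ‖psiC χ x‖ / x ^ (3 / 2 : ℝ) := by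
  obtain ⟨K, X₁, hK, h⟩ := key (η / 2) (by linarith) (by linarith)
  obtain ⟨X₂, hX₂⟩ := Filter.eventually_atTop.mp (evX_const 2 (η / 2) (by positivity))
  refine ⟨K, max X₁ X₂, hK, fun q _ X hqX hX χ hχ ρ₀ h1 h2 h3 h4 => ?_⟩
  have hq2 := hX₂ X (le_trans (le_max_right _ _) hX)
  obtain ⟨k, hk2⟩ := h q X hqX (le_trans (le_max_left _ _) hX) χ hχ ρ₀ h1 h2 h3 h4
  have hX1 : 1 ≤ X := by
    have : (1 : ℝ) ≤ (q : ℝ) := by exact_mod_cast Nat.pos_of_ne_zero (NeZero.ne q)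
    linarith
  have hq0 : (0 : ℝ) < X := by linarith
  set Y : ℝ := X ^ K
  have h5 : ∫ x in Ioc X Y, ‖psiC χ x‖ * Wt k x
      ≤ (2 * (2 / 3 : ℝ) ^ k) * ∫ x in Ioc X Y, ‖psiC χ x‖ / x ^ (3 / 2 : ℝ) := by
    rw [← integral_const_mul]
    refine setIntegral_mono_on ((integrable_psiC_Wt χ k).mono_set
      (fun x hx => lt_of_le_of_lt hX1 hx.1)) ((integrable_psiC_window χ X Y hX1).const_mul _)
      measurableSet_Ioc fun x hx => ?_
    have hx1 : 1 < x := lt_of_le_of_lt hX1 hx.1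
    calc ‖psiC χ x‖ * Wt k x ≤ ‖psiC χ x‖ * (2 * (2 / 3 : ℝ) ^ k * (1 / x ^ (3 / 2 : ℝ))) := by
          gcongr
          exact Wt_le k x hx1
      _ = _ := by ring
  have h6 := hk2.trans h5
  have h7 : (0 : ℝ) < (2 / 3 : ℝ) ^ k := by positivity
  have h8 : X ^ (-(η / 2)) ≤ 2 * ∫ x in Ioc X Y, ‖psiC χ x‖ / x ^ (3 / 2 : ℝ) := by
    by_contra hcon
    push Not at hcon
    have : (2 * (2 / 3 : ℝ) ^ k) * ∫ x in Ioc X Y, ‖psiC χ x‖ / x ^ (3 / 2 : ℝ)
        < X ^ (-(η / 2)) * (2 / 3 : ℝ) ^ k := by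
      calc (2 * (2 / 3 : ℝ) ^ k) * ∫ x in Ioc X Y, ‖psiC χ x‖ / x ^ (3 / 2 : ℝ)
          = (2 / 3 : ℝ) ^ k * (2 * ∫ x in Ioc X Y, ‖psiC χ x‖ / x ^ (3 / 2 : ℝ)) := by ring
        _ < (2 / 3 : ℝ) ^ k * X ^ (-(η / 2)) := by gcongr
        _ = _ := by ring
    linarith
  have h9 : X ^ (-η) = X ^ (-(η / 2)) * X ^ (-(η / 2)) := by
    rw [← Real.rpow_add hq0]; congr 1; ring
  have h10 : X ^ (-(η / 2)) * X ^ (η / 2) = 1 := by
    rw [← Real.rpow_add hq0]; simp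
  have h11 : (0 : ℝ) < X ^ (-(η / 2)) := by positivity
  rw [h9]
  nlinarith

/-- Lower bound for every character of large conductor. -/
lemma part_two (Q₀ : ℕ)
    (hQ₀ : ∀ (q : ℕ) [NeZero q], ∀ χ : DirichletCharacter ℂ q, Q₀ ≤ χ.conductor →
      ∃ χ' : DirichletCharacter ℂ q, (χ' = χ ∨ χ' = χ⁻¹) ∧ χ' ≠ 1 ∧ ∃ ρ : ℂ, χ'.LFunction ρ = 0 ∧
      1 / 2 ≤ ρ.re ∧ ρ.re < 1 ∧ |ρ.im| ≤ 19 / 10) (η : ℝ) (hη : 0 < η) :
    ∃ (K : ℕ) (X₁ : ℝ), 1 ≤ K ∧ ∀ (q : ℕ) [NeZero q] (X : ℝ), (q : ℝ) ≤ X → X₁ ≤ X →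
      ∀ χ : DirichletCharacter ℂ q, Q₀ ≤ χ.conductor →
      X ^ (-η) ≤ ∫ x in Ioc X (X ^ K), ‖psiC χ x‖ / x ^ (3 / 2 : ℝ) := by
  obtain ⟨K, X₁, hK, h⟩ := key2 (min η 1) (lt_min hη one_pos) (min_le_right _ _)
  refine ⟨K, X₁, hK, fun q _ X hqX hX χ hχ => ?_⟩
  obtain ⟨χ', hor, hne, ρ, h1, h2, h3, h4⟩ := hQ₀ q χ hχ
  have h5 := h q X hqX hX χ' hne ρ h1 h2 h3 h4
  have hX1 : 1 ≤ X := by
    have : (1 : ℝ) ≤ (q : ℝ) := by exact_mod_cast Nat.pos_of_ne_zero (NeZero.ne q)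
    linarith
  have h6 : X ^ (-η) ≤ X ^ (-(min η 1)) :=
    Real.rpow_le_rpow_of_exponent_le hX1 (by linarith [min_le_left η 1])
  refine h6.trans (h5.trans (le_of_eq ?_))
  rcases hor with h7 | h7
  · rw [h7]
  · rw [h7]
    simp only [psiC_inv]

lemma psi_nonneg (x : ℝ) (q a : ℕ) : 0 ≤ psi x q a :=
  Finset.sum_nonneg fun _ _ => ArithmeticFunction.vonMangoldt_nonneg

lemma psi_mono (q a : ℕ) : Monotone (fun x : ℝ => psi x q a) := by
  intro x y hxy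
  refine Finset.sum_le_sum_of_subset_of_nonneg ?_ fun _ _ _ => ArithmeticFunction.vonMangoldt_nonneg
  refine Finset.filter_subset_filter _ (Finset.Icc_subset_Icc le_rfl (Nat.floor_le_floor hxy))

lemma V_nonneg (x : ℝ) (q : ℕ) : 0 ≤ V x q := Finset.sum_nonneg fun _ _ => sq_nonneg _

lemma integrable_V_window (q : ℕ) (X Y : ℝ) (hX : 1 ≤ X) :
    IntegrableOn (fun x : ℝ => V x q / x ^ 2) (Ioc X Y) := by
  have h1 : (fun x : ℝ => V x q / x ^ 2) = fun x : ℝ =>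
      ∑ a ∈ (Finset.Icc 1 q).filter (fun a => Nat.Coprime a q),
        (psi x q a - x / (Nat.totient q : ℝ)) ^ 2 / x ^ 2 := by
    funext x
    unfold V
    rw [Finset.sum_div]
  rw [h1]
  refine integrable_finsetSum _ fun a _ => ?_
  refine Measure.integrableOn_of_bounded (M := (psi Y q a + Y / (Nat.totient q : ℝ)) ^ 2) (by simp) ?_ ?_
  · have := (psi_mono q a).measurable
    exact (((this.sub (by fun_prop)).pow_const 2).div (by fun_prop)).aestronglyMeasurable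
  · refine (ae_restrict_iff' measurableSet_Ioc).mpr (Filter.Eventually.of_forall fun x hx => ?_)
    have hx1 : 1 ≤ x := by linarith [hx.1]
    have hx2 : (1 : ℝ) ≤ x ^ 2 := one_le_pow₀ hx1
    rw [Real.norm_of_nonneg (by positivity)]
    refine (div_le_self (sq_nonneg _) hx2).trans ?_
    have h2 := psi_nonneg x q a
    have h3 : psi x q a ≤ psi Y q a := psi_mono q a hx.2
    have h4 : x / (Nat.totient q : ℝ) ≤ Y / (Nat.totient q : ℝ) := by
      have := hx.2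
      gcongr
    have h5 : 0 ≤ x / (Nat.totient q : ℝ) := by positivity
    apply sq_le_sq'
    · linarith
    · linarith

lemma part_one (Q₀ : ℕ) (hQ2 : 2 ≤ Q₀)
    (hQ₀ : ∀ (q : ℕ) [NeZero q], ∀ χ : DirichletCharacter ℂ q, Q₀ ≤ χ.conductor →
      ∃ χ' : DirichletCharacter ℂ q, (χ' = χ ∨ χ' = χ⁻¹) ∧ χ' ≠ 1 ∧ ∃ ρ : ℂ, χ'.LFunction ρ = 0 ∧
      1 / 2 ≤ ρ.re ∧ ρ.re < 1 ∧ |ρ.im| ≤ 19 / 10) (q₃ : ℕ)
    (hq₃ : ∀ q : ℕ, q₃ ≤ q → 2 * (Q₀ : ℝ) ^ 2 ≤ (Nat.totient q : ℝ)) (η : ℝ) (hη : 0 < η) :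
    ∃ (K : ℕ) (X₁ : ℝ), 1 ≤ K ∧ ∀ (q : ℕ) [NeZero q] (X : ℝ), (q : ℝ) ≤ X → X₁ ≤ X →
      (q₃ ≤ q → X ^ (-η) ≤ ∫ x in Ioc X (X ^ K), V x q / x ^ 2) ∧
      ∀ χ : DirichletCharacter ℂ q, Q₀ ≤ χ.conductor →
      X ^ (-η) ≤ ∫ x in Ioc X (X ^ K), ‖psiC χ x‖ / x ^ (3 / 2 : ℝ) := by
  obtain ⟨K, X₁, hK, h⟩ := part_two Q₀ hQ₀ (η / 4) (by linarith)
  obtain ⟨X₂, hX₂⟩ := Filter.eventually_atTop.mp ((evX_log (4 * (K - 1)) (η / 4) (by linarith)).and
    ((evX_const 2 (η / 4) (by linarith)).and (evX_const 4 (η / 4) (by linarith))))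
  refine ⟨K, max X₁ X₂, hK, fun q _ X hqX hX => ?_⟩
  obtain ⟨hqlog, hqc, hqc4⟩ := hX₂ X (le_trans (le_max_right _ _) hX)
  have hX1 : 1 ≤ X := by
    have : (1 : ℝ) ≤ (q : ℝ) := by exact_mod_cast Nat.pos_of_ne_zero (NeZero.ne q)
    linarith
  have hq0 : (0 : ℝ) < X := by linarith
  have hT := h q X hqX (le_trans (le_max_left _ _) hX)
  have hXY : X ≤ X ^ K := by
    calc X = X ^ 1 := (pow_one X).symm
      _ ≤ X ^ K := pow_le_pow_right₀ hX1 (by omega)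
  have hlogY : Real.log (X ^ K) = K * Real.log X := Real.log_pow X K
  set ℓ : ℝ := Real.log X with hℓ
  have hℓ0 : 0 ≤ ℓ := Real.log_nonneg hX1
  set Y : ℝ := X ^ K
  have hX0 : 0 < X := by linarith
  have hY0 : 0 < Y := by linarith
  refine ⟨fun hqq3 => ?_, fun χ hχ => ?_⟩
  swap
  · refine le_trans ?_ (hT χ hχ)
    exact Real.rpow_le_rpow_of_exponent_le hX1 (by linarith)
  have hq4 : (0 : ℝ) < X ^ (-(η / 4)) := by positivity
  have hinv : X ^ (-(η / 4)) * X ^ (η / 4) = 1 := by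
    rw [← Real.rpow_add hq0]; simp
  -- the weight
  have hinvint : ∫ x in Ioc X Y, 1 / x = (K - 1) * ℓ := by
    rw [← intervalIntegral.integral_of_le hXY, integral_one_div_of_pos hX0 hY0,
      Real.log_div hY0.ne' hX0.ne', hlogY]
    ring
  have hinvI : IntegrableOn (fun x : ℝ => 1 / x) (Ioc X Y) := by
    rw [← intervalIntegrable_iff_integrableOn_Ioc_of_le hXY]
    refine intervalIntegral.intervalIntegrable_one_div (fun x hx => ?_) continuousOn_id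
    rw [uIcc_of_le hXY] at hx
    have := hx.1
    exact ne_of_gt (by linarith : 0 < x)
  set M : ℝ := ((K : ℝ) - 1) * ℓ with hM
  have hK1 : (1 : ℝ) ≤ K := by exact_mod_cast hK
  have hM0 : 0 ≤ M := mul_nonneg (by linarith) hℓ0
  have hMle : M + 1 ≤ 1 / 2 * X ^ (η / 4) := by
    linarith
  -- lower bound for a single character
  have hsingle : ∀ χ : DirichletCharacter ℂ q, Q₀ ≤ χ.conductor →
      2 * (X ^ (-(η / 4)) * X ^ (-(η / 4)) * X ^ (-(η / 4)))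
        ≤ ∫ x in Ioc X Y, ‖psiC χ x‖ ^ 2 / x ^ 2 := by
    intro χ hχ
    have h1 := hT χ hχ
    set lam : ℝ := 2 * (X ^ (-(η / 4)) * X ^ (-(η / 4))) with hlam
    have hlam0 : 0 < lam := by positivity
    have h2 : ∫ x in Ioc X Y, ‖psiC χ x‖ / x ^ (3 / 2 : ℝ)
        ≤ ∫ x in Ioc X Y, (lam / 2 * (1 / x) + 1 / (2 * lam) * (‖psiC χ x‖ ^ 2 / x ^ 2)) := by
      refine setIntegral_mono_on (integrable_psiC_window χ X Y hX1)
        ((hinvI.const_mul _).add ((integrable_psiC_sq_window χ X Y hX1).const_mul _))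
        measurableSet_Ioc fun x hx => ?_
      have hx1 : 1 ≤ x := by linarith [hx.1]
      have hx0 : 0 < x := by linarith
      set t : ℝ := ‖psiC χ x‖
      have h3 : x ^ (3 / 2 : ℝ) = x * Real.sqrt x := by
        rw [Real.sqrt_eq_rpow]
        nth_rewrite 2 [← Real.rpow_one x]
        rw [← Real.rpow_add hx0]
        norm_num
      have hs : Real.sqrt x * Real.sqrt x = x := Real.mul_self_sqrt hx0.le
      have hs0 : 0 < Real.sqrt x := Real.sqrt_pos.mpr hx0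
      rw [h3]
      have h4 : 0 ≤ (lam * Real.sqrt x - t) ^ 2 := sq_nonneg _
      have h5 : lam / 2 * (1 / x) + 1 / (2 * lam) * (t ^ 2 / x ^ 2) - t / (x * Real.sqrt x)
          = (lam * Real.sqrt x - t) ^ 2 / (2 * lam * x ^ 2) := by
        have h6 : t / (x * Real.sqrt x) = t * Real.sqrt x / x ^ 2 := by
          rw [div_eq_div_iff (by positivity) (by positivity)]
          calc t * x ^ 2 = t * x * x := by ring
            _ = t * x * (Real.sqrt x * Real.sqrt x) := by rw [hs]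
            _ = _ := by ring
        have h7 : (lam * Real.sqrt x - t) ^ 2 = lam ^ 2 * x - 2 * lam * (t * Real.sqrt x) + t ^ 2 := by
          calc (lam * Real.sqrt x - t) ^ 2
              = lam ^ 2 * (Real.sqrt x * Real.sqrt x) - 2 * lam * (t * Real.sqrt x) + t ^ 2 := by ring
            _ = _ := by rw [hs]
        rw [h6, h7]
        field_simp
        ring
      have h6 : 0 ≤ (lam * Real.sqrt x - t) ^ 2 / (2 * lam * x ^ 2) := by positivity
      linarith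
    rw [integral_add (hinvI.const_mul _) ((integrable_psiC_sq_window χ X Y hX1).const_mul _),
      integral_const_mul, integral_const_mul, hinvint] at h2
    set J : ℝ := ∫ x in Ioc X Y, ‖psiC χ x‖ ^ 2 / x ^ 2 with hJ
    have h3 : lam / 2 * M ≤ 1 / 2 * X ^ (-(η / 4)) := by
      calc lam / 2 * M ≤ lam / 2 * (1 / 2 * X ^ (η / 4)) := by gcongr; linarith
        _ = 1 / 2 * X ^ (-(η / 4)) * (X ^ (-(η / 4)) * X ^ (η / 4)) := by
            rw [hlam]; ring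
        _ = _ := by rw [hinv, mul_one]
    have h4 : 1 / 2 * X ^ (-(η / 4)) ≤ 1 / (2 * lam) * J := by linarith
    have h5 : 1 / (2 * lam) * J = J / (2 * lam) := by ring
    rw [h5, le_div_iff₀ (by positivity)] at h4
    calc _ = 1 / 2 * X ^ (-(η / 4)) * (2 * lam) := by rw [hlam]; ring
      _ ≤ J := h4
  -- summation over the characters of large conductor
  classical
  set S : Finset (DirichletCharacter ℂ q) := Finset.univ.filter (fun χ => Q₀ ≤ χ.conductor) with hS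
  have hScard : (Nat.totient q : ℝ) / 2 ≤ S.card := by
    have h1 := small_conductor q Q₀ (Finset.univ.filter (fun χ => ¬ Q₀ ≤ χ.conductor))
      (fun χ hχ => not_le.mp (Finset.mem_filter.mp hχ).2)
    have h2 : S.card + (Finset.univ.filter (fun χ : DirichletCharacter ℂ q =>
        ¬ Q₀ ≤ χ.conductor)).card = Nat.totient q := by
      rw [hS, Finset.card_filter_add_card_filter_not, Finset.card_univ, ← Nat.card_eq_fintype_card,
        DirichletCharacter.card_eq_totient_of_hasEnoughRootsOfUnity]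
    have h3 := hq₃ q hqq3
    have h4 : ((Finset.univ.filter (fun χ : DirichletCharacter ℂ q =>
        ¬ Q₀ ≤ χ.conductor)).card : ℝ) ≤ (Q₀ : ℝ) ^ 2 := by exact_mod_cast h1
    have h5 : (S.card : ℝ) + ((Finset.univ.filter (fun χ : DirichletCharacter ℂ q =>
        ¬ Q₀ ≤ χ.conductor)).card : ℝ) = Nat.totient q := by exact_mod_cast h2
    linarith
  have hsum : ∑ χ ∈ S, ∫ x in Ioc X Y, ‖psiC χ x‖ ^ 2 / x ^ 2
      ≤ (Nat.totient q : ℝ) * ∫ x in Ioc X Y, V x q / x ^ 2 := by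
    rw [← integral_finsetSum _ (fun χ _ => integrable_psiC_sq_window χ X Y hX1), ← integral_const_mul]
    refine setIntegral_mono_on (integrable_finsetSum _ fun χ _ => integrable_psiC_sq_window χ X Y hX1)
      ((integrable_V_window q X Y hX1).const_mul _) measurableSet_Ioc fun x hx => ?_
    have hx1 : 1 ≤ x := by linarith [hx.1]
    have h1 := variance_upper q x S (by
      intro χ hχ h1
      have h2 := (Finset.mem_filter.mp hχ).2
      rw [h1, DirichletCharacter.conductor_one] at h2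
      omega)
    rw [← Finset.sum_div, ← mul_div_assoc]
    gcongr
  have hlow : (S.card : ℝ) * (2 * (X ^ (-(η / 4)) * X ^ (-(η / 4)) * X ^ (-(η / 4))))
      ≤ ∑ χ ∈ S, ∫ x in Ioc X Y, ‖psiC χ x‖ ^ 2 / x ^ 2 := by
    rw [← nsmul_eq_mul]
    exact Finset.card_nsmul_le_sum _ _ _ fun χ hχ => hsingle χ (Finset.mem_filter.mp hχ).2
  have htot : (0 : ℝ) < Nat.totient q := by
    exact_mod_cast Nat.totient_pos.mpr (Nat.pos_of_ne_zero (NeZero.ne q))
  have h1 : (Nat.totient q : ℝ) * (X ^ (-(η / 4)) * X ^ (-(η / 4)) * X ^ (-(η / 4)))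
      ≤ (Nat.totient q : ℝ) * ∫ x in Ioc X Y, V x q / x ^ 2 := by
    calc _ = (Nat.totient q : ℝ) / 2 * (2 * (X ^ (-(η / 4)) * X ^ (-(η / 4))
          * X ^ (-(η / 4)))) := by ring
      _ ≤ (S.card : ℝ) * (2 * (X ^ (-(η / 4)) * X ^ (-(η / 4))
          * X ^ (-(η / 4)))) := by gcongr
      _ ≤ _ := hlow.trans hsum
  have h2 := le_of_mul_le_mul_left h1 htot
  refine le_trans ?_ h2
  rw [← Real.rpow_add hq0, ← Real.rpow_add hq0]
  exact Real.rpow_le_rpow_of_exponent_le hX1 (by linarith)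

/-- The main theorem. -/
theorem main : ∃ N : ℕ, ∀ ε : ℝ, 0 < ε → ∃ (K : ℕ) (X₀ : ℝ),
    ∀ (q : ℕ) [NeZero q] (X : ℝ), (q : ℝ) ≤ X → X₀ ≤ X →
      (N ≤ q → X ^ (-ε) ≤ ∫ x in X..(X ^ K), V x q / x ^ 2) ∧
      (N ≤ q → ∃ x : ℝ, X ≤ x ∧ x ≤ X ^ K ∧ ∃ a : ℕ, 1 ≤ a ∧ a ≤ q ∧ Nat.Coprime a q ∧
        (x / q) ^ (1 / 2 : ℝ) * X ^ (-ε) ≤ |psi x q a - x / (Nat.totient q : ℝ)|) ∧
      (∀ χ : DirichletCharacter ℂ q, N ≤ χ.conductor →
        X ^ (-ε) ≤ ∫ x in X..(X ^ K), ‖psiC χ x‖ / x ^ (3 / 2 : ℝ)) := by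
  obtain ⟨Q₀, hQ2, hQ₀⟩ := exists_zero
  obtain ⟨q₃, hq₃⟩ := totient_large (2 * (Q₀ : ℝ) ^ 2)
  refine ⟨max Q₀ q₃, fun ε hε => ?_⟩
  obtain ⟨K, X₁, hK, h⟩ := part_one Q₀ hQ2 hQ₀ q₃ hq₃ ε hε
  obtain ⟨X₂, hX₂⟩ := Filter.eventually_atTop.mp ((evX_log (K - 1) (ε / 2) (by linarith)).and
    (Filter.eventually_ge_atTop 2))
  refine ⟨K, max X₁ X₂, fun q _ X hqX hX => ?_⟩
  obtain ⟨hqlog, hX2⟩ := hX₂ X (le_trans (le_max_right _ _) hX)
  obtain ⟨h1, h2⟩ := h q X hqX (le_trans (le_max_left _ _) hX)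
  have hqn1 : 1 ≤ q := Nat.pos_of_ne_zero (NeZero.ne q)
  have hq0 : (0 : ℝ) < q := by exact_mod_cast hqn1
  have hX1 : 1 ≤ X := by linarith
  have hX0 : 0 < X := by linarith
  have hXY : X ≤ X ^ K := by
    calc X = X ^ 1 := (pow_one X).symm
      _ ≤ X ^ K := pow_le_pow_right₀ hX1 (by omega)
  have hlogY : Real.log (X ^ K) = K * Real.log X := Real.log_pow X K
  refine ⟨fun hN => ?_, fun hN => ?_, fun χ hχ => ?_⟩
  · rw [intervalIntegral.integral_of_le hXY]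
    exact h1 (le_trans (le_max_right _ _) hN)
  swap
  · rw [intervalIntegral.integral_of_le hXY]
    exact h2 χ (le_trans (le_max_left _ _) hχ)
  have h1' := h1 (le_trans (le_max_right _ _) hN)
  by_contra hcon
  push Not at hcon
  set Y : ℝ := X ^ K
  have hY0 : 0 < Y := by linarith
  have hinvint : ∫ x in Ioc X Y, 1 / x = (K - 1) * Real.log X := by
    rw [← intervalIntegral.integral_of_le hXY, integral_one_div_of_pos hX0 hY0,
      Real.log_div hY0.ne' hX0.ne', hlogY]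
    ring
  have hinvI : IntegrableOn (fun x : ℝ => 1 / x) (Ioc X Y) := by
    rw [← intervalIntegrable_iff_integrableOn_Ioc_of_le hXY]
    refine intervalIntegral.intervalIntegrable_one_div (fun x hx => ?_) continuousOn_id
    rw [uIcc_of_le hXY] at hx
    have := hx.1
    exact ne_of_gt (by linarith : 0 < x)
  have hVle : ∀ x ∈ Ioc X Y, V x q / x ^ 2 ≤ X ^ (-(2 * ε)) * (1 / x) := by
    intro x hx
    have hx0 : 0 < x := by linarith [hx.1]
    have h3 : V x q ≤ ∑ a ∈ (Finset.Icc 1 q).filter (fun a => Nat.Coprime a q),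
        (x / q * X ^ (-(2 * ε))) := by
      refine Finset.sum_le_sum fun a ha => ?_
      rw [Finset.mem_filter, Finset.mem_Icc] at ha
      have h4 := hcon x hx.1.le hx.2 a ha.1.1 ha.1.2 ha.2
      have h5 : (psi x q a - x / (Nat.totient q : ℝ)) ^ 2
          ≤ ((x / q) ^ (1 / 2 : ℝ) * X ^ (-ε)) ^ 2 := by
        rw [← sq_abs]
        gcongr
      refine h5.trans (le_of_eq ?_)
      have e1 : ((x / q) ^ (1 / 2 : ℝ)) ^ 2 = x / q := by
        rw [← Real.sqrt_eq_rpow, Real.sq_sqrt (by positivity)]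
      have e2 : (X ^ (-ε)) ^ 2 = X ^ (-(2 * ε)) := by
        rw [← Real.rpow_natCast, ← Real.rpow_mul hX0.le]
        congr 1
        push_cast
        ring
      rw [mul_pow, e1, e2]
    rw [Finset.sum_const, nsmul_eq_mul] at h3
    have h4 : (((Finset.Icc 1 q).filter (fun a => Nat.Coprime a q)).card : ℝ) ≤ q := by
      have h5 := Finset.card_filter_le (Finset.Icc 1 q) (fun a => Nat.Coprime a q)
      rw [Nat.card_Icc, Nat.add_sub_cancel] at h5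
      exact_mod_cast h5
    have h5 : V x q ≤ x * X ^ (-(2 * ε)) := by
      calc V x q ≤ _ := h3
        _ ≤ q * (x / q * X ^ (-(2 * ε))) := by gcongr
        _ = x * X ^ (-(2 * ε)) := by field_simp
    rw [div_le_iff₀ (by positivity)]
    calc V x q ≤ x * X ^ (-(2 * ε)) := h5
      _ = X ^ (-(2 * ε)) * (1 / x) * x ^ 2 := by field_simp
  have h3 : ∫ x in Ioc X Y, V x q / x ^ 2 ≤ X ^ (-(2 * ε)) * ((K - 1) * Real.log X) := by
    rw [← hinvint, ← integral_const_mul]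
    exact setIntegral_mono_on (integrable_V_window q X Y hX1) (hinvI.const_mul _) measurableSet_Ioc hVle
  have h4 : X ^ (-(2 * ε)) * ((K - 1) * Real.log X) < X ^ (-ε) := by
    calc X ^ (-(2 * ε)) * ((K - 1) * Real.log X)
        ≤ X ^ (-(2 * ε)) * X ^ (ε / 2) := by gcongr
      _ = X ^ (-(2 * ε) + ε / 2) := by rw [← Real.rpow_add hX0]
      _ < X ^ (-ε) := by
          apply Real.rpow_lt_rpow_of_exponent_lt
          · linarith
          · linarith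
  linarith

end Pool.Agent.EM
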