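import Mathlib
import Pool.Agent.Lib.MP_9cfc0a_nt.An9

set_option autoImplicit false

namespace Pool.Agent.MC

open Complex MeasureTheory Set Filter Topology Asymptotics Metric
open scoped ComplexOrder

/-- complete monotonicity at a point -/
def CMat (H : ℂ → ℂ) (c : ℂ) : Prop := ∀ n : ℕ, 0 ≤ (-1 : ℂ) ^ n * iteratedDeriv n H c

lemma differentiableOn_iteratedDeriv (H : ℂ → ℂ) (U : Set ℂ) (hU : IsOpen U)
    (hH : DifferentiableOn ℂ H U) (n : ℕ) : DifferentiableOn ℂ (iteratedDeriv n H) U := by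
  induction n with
  | zero => rwa [iteratedDeriv_zero]
  | succ n ih => rw [iteratedDeriv_succ]; exact ih.deriv hU

lemma iteratedDeriv_iteratedDeriv' (m n : ℕ) (H : ℂ → ℂ) (c : ℂ) :
    iteratedDeriv m (iteratedDeriv n H) c = iteratedDeriv (m + n) H c := by
  rw [iteratedDeriv_eq_iterate, iteratedDeriv_eq_iterate, iteratedDeriv_eq_iterate,
    Function.iterate_add_apply]

/-- complete monotonicity propagates to the left -/
lemma CMat_step (H : ℂ → ℂ) (c z : ℂ) (r : ℝ) (hH : DifferentiableOn ℂ H (ball c r))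
    (hc : CMat H c) (hz : z ≤ c) (hzr : z ∈ ball c r) : CMat H z := by
  intro n
  set g : ℂ → ℂ := fun w => (-1 : ℂ) ^ n * iteratedDeriv n H (-w) with hg
  have hgd : DifferentiableOn ℂ g (ball (-c) r) := by
    have h1 := differentiableOn_iteratedDeriv H _ isOpen_ball hH n
    have h2 : DifferentiableOn ℂ (fun w : ℂ => iteratedDeriv n H (-w)) (ball (-c) r) := by
      refine h1.comp differentiable_neg.differentiableOn fun w hw => ?_
      rw [mem_ball, dist_eq_norm] at hw ⊢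
      rw [show -w - c = -(w - -c) by ring, norm_neg]
      exact hw
    exact h2.const_mul _
  have hgn : ∀ m, 0 ≤ iteratedDeriv m g (-c) := by
    intro m
    rw [hg, iteratedDeriv_const_mul_field, iteratedDeriv_comp_neg, neg_neg,
      iteratedDeriv_iteratedDeriv', smul_eq_mul, ← mul_assoc, ← pow_add, add_comm n m]
    exact hc (m + n)
  have h1 := hgd.nonneg_of_iteratedDeriv_nonneg hgn (z := -z) (neg_le_neg hz) (by
    rw [mem_ball, dist_eq_norm] at hzr ⊢
    rw [show -z - -c = -(z - c) by ring, norm_neg]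
    exact hzr)
  rw [hg] at h1
  simp only [neg_neg] at h1
  exact h1

/-- propagation along a real segment -/
lemma CMat_segment (H : ℂ → ℂ) (U : Set ℂ) (hU : IsOpen U) (hH : DifferentiableOn ℂ H U)
    (σ1 σ2 : ℝ) (hsub : ∀ σ : ℝ, σ1 ≤ σ → σ ≤ σ2 → (σ : ℂ) ∈ U) (hc : CMat H (σ2 : ℂ)) :
    ∀ σ : ℝ, σ1 ≤ σ → σ ≤ σ2 → CMat H (σ : ℂ) := by
  -- a uniform radius
  have hK : IsCompact ((fun σ : ℝ => (σ : ℂ)) '' Icc σ1 σ2) :=
    isCompact_Icc.image Complex.continuous_ofReal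
  have hKU : ((fun σ : ℝ => (σ : ℂ)) '' Icc σ1 σ2) ⊆ U := by
    rintro _ ⟨σ, hσ, rfl⟩
    exact hsub σ hσ.1 hσ.2
  obtain ⟨δ, hδ, hδU⟩ := hK.exists_thickening_subset_open hU hKU
  have hball : ∀ σ : ℝ, σ1 ≤ σ → σ ≤ σ2 → ball (σ : ℂ) δ ⊆ U := by
    intro σ h1 h2 z hz
    apply hδU
    rw [mem_thickening_iff]
    exact ⟨σ, ⟨σ, ⟨h1, h2⟩, rfl⟩, hz⟩
  have key : ∀ n : ℕ, ∀ σ : ℝ, σ1 ≤ σ → σ ≤ σ2 → σ2 - n * (δ / 2) ≤ σ → CMat H (σ : ℂ) := by
    intro n
    induction n with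
    | zero =>
      intro σ h1 h2 h3
      have : σ = σ2 := by
        push_cast at h3
        linarith
      rw [this]
      exact hc
    | succ n ih =>
      intro σ h1 h2 h3
      rcases le_or_gt (σ2 - n * (δ / 2)) σ with h4 | h4
      · exact ih σ h1 h2 h4
      · set c : ℝ := σ2 - n * (δ / 2) with hcdef
        have hn : 0 ≤ (n : ℝ) * (δ / 2) := by positivity
        have hc1 : σ1 ≤ c := by linarith
        have hc2 : c ≤ σ2 := by rw [hcdef]; linarith
        have hcm := ih c hc1 hc2 le_rfl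
        refine CMat_step H (c : ℂ) (σ : ℂ) δ (hH.mono (hball c hc1 hc2)) hcm ?_ ?_
        · exact_mod_cast h4.le
        · rw [mem_ball, dist_eq_norm, ← Complex.ofReal_sub, Complex.norm_real, Real.norm_eq_abs,
            abs_lt]
          push_cast at h3
          constructor <;> linarith
  intro σ h1 h2
  obtain ⟨n, hn⟩ := exists_nat_ge ((σ2 - σ1) / (δ / 2))
  rw [div_le_iff₀ (by positivity)] at hn
  exact key n σ h1 h2 (by linarith)

/-- growth class -/
def Gr (f : ℝ → ℂ) : Prop := Measurable f ∧ ∀ σ : ℝ, 1 < σ → ∃ C : ℝ, ∀ t : ℝ, 1 < t → ‖f t‖ ≤ C * t ^ σ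

lemma Gr_of_linear (f : ℝ → ℂ) (K : ℝ) (hK : 0 ≤ K) (hf : Measurable f) (hb : ∀ t : ℝ, 1 < t → ‖f t‖ ≤ K * t) :
    Gr f := by
  refine ⟨hf, fun σ hσ => ⟨K, fun t ht => (hb t ht).trans ?_⟩⟩
  gcongr
  nth_rewrite 1 [← Real.rpow_one t]
  exact Real.rpow_le_rpow_of_exponent_le ht.le hσ.le

lemma Gr_log (f : ℝ → ℂ) (hf : Gr f) : Gr (fun t => -((Real.log t : ℝ) : ℂ) * f t) := by
  refine ⟨(by fun_prop : Measurable fun t : ℝ => -((Real.log t : ℝ) : ℂ)).mul hf.1, fun σ hσ => ?_⟩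
  obtain ⟨C, hC⟩ := hf.2 ((1 + σ) / 2) (by linarith)
  refine ⟨2 / (σ - 1) * C, fun t ht => ?_⟩
  have ht0 : 0 < t := by linarith
  have hlog : 0 ≤ Real.log t := Real.log_nonneg ht.le
  have h1 : Real.log t ≤ t ^ ((σ - 1) / 2) / ((σ - 1) / 2) :=
    Real.log_le_rpow_div ht0.le (by linarith)
  have h2 := hC t ht
  have hσ1 : 0 < σ - 1 := by linarith
  have hC0 : 0 ≤ C * t ^ ((1 + σ) / 2) := (norm_nonneg _).trans h2
  rw [norm_mul, norm_neg, Complex.norm_real, Real.norm_of_nonneg hlog]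
  calc Real.log t * ‖f t‖ ≤ (t ^ ((σ - 1) / 2) / ((σ - 1) / 2)) * (C * t ^ ((1 + σ) / 2)) := by gcongr
    _ = 2 / (σ - 1) * C * (t ^ ((σ - 1) / 2) * t ^ ((1 + σ) / 2)) := by field_simp
    _ = 2 / (σ - 1) * C * t ^ σ := by
        rw [← Real.rpow_add ht0]
        congr 2
        ring

lemma MT_hasDerivAt (f : ℝ → ℂ) (hf : Gr f) (s : ℂ) (hs : 1 < s.re) :
    HasDerivAt (MT f) (MT (fun t => -((Real.log t : ℝ) : ℂ) * f t) s) s := by
  obtain ⟨C, hC⟩ := hf.2 ((1 + s.re) / 2) (by linarith)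
  have h0 : MT f = fun z => mellin (indicator (Ioi 1) f) (-z) := by
    ext z
    exact MT_eq_mellin f z
  have h1 : HasDerivAt (mellin (indicator (Ioi 1) f))
      (mellin (fun t => Real.log t • indicator (Ioi 1) f t) (-s)) (-s) := by
    refine (mellin_hasDerivAt_of_isBigO_rpow (a := -((1 + s.re) / 2)) (b := (-s).re - 1)
      (locInt_indicator f C _ hf.1 hC) ?_ (by simp; linarith) ?_ (by linarith)).2
    · rw [neg_neg]
      refine IsBigO.of_bound C ?_
      filter_upwards [eventually_gt_atTop 1] with t ht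
      rw [indicator_of_mem (mem_Ioi.mpr ht), Real.norm_of_nonneg (by positivity)]
      exact hC t ht
    · refine IsBigO.of_bound 1 ?_
      have : Iio (1 : ℝ) ∈ 𝓝[>] (0 : ℝ) := mem_nhdsWithin_of_mem_nhds (Iio_mem_nhds one_pos)
      filter_upwards [this] with t ht
      have ht1 : ¬ (1 < t) := not_lt.mpr (le_of_lt ht)
      rw [indicator_of_notMem (by simpa using ht1), norm_zero]
      positivity
  have h2 : HasDerivAt (fun z : ℂ => mellin (indicator (Ioi 1) f) (-z))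
      (mellin (fun t => Real.log t • indicator (Ioi 1) f t) (-s) * (-1)) s :=
    HasDerivAt.comp s h1 (hasDerivAt_neg s)
  rw [h0]
  convert! h2 using 1
  have h3 : mellin (fun t => Real.log t • indicator (Ioi 1) f t) (-s)
      = MT (fun t => ((Real.log t : ℝ) : ℂ) * f t) s := by
    rw [MT_eq_mellin]
    congr 1
    ext t
    by_cases ht : (1 : ℝ) < t
    · rw [indicator_of_mem (mem_Ioi.mpr ht), indicator_of_mem (mem_Ioi.mpr ht), Complex.real_smul]
    · rw [indicator_of_notMem (by simpa using ht), indicator_of_notMem (by simpa using ht), smul_zero]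
  rw [h3]
  have h4 : (fun t : ℝ => -((Real.log t : ℝ) : ℂ) * f t)
      = fun t => (-1 : ℂ) * (((Real.log t : ℝ) : ℂ) * f t) := by
    ext t; ring
  rw [h4, MT_const_mul]
  ring

lemma Gr_iter (f : ℝ → ℂ) (hf : Gr f) (n : ℕ) : Gr (fun t => (-((Real.log t : ℝ) : ℂ)) ^ n * f t) := by
  induction n with
  | zero => simpa using hf
  | succ n ih =>
    have := Gr_log _ ih
    convert! this using 2
    ring

lemma iteratedDeriv_MT (f : ℝ → ℂ) (hf : Gr f) (n : ℕ) : ∀ s : ℂ, 1 < s.re →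
    iteratedDeriv n (MT f) s = MT (fun t => (-((Real.log t : ℝ) : ℂ)) ^ n * f t) s := by
  induction n with
  | zero => intro s _; simp
  | succ n ih =>
    intro s hs
    rw [iteratedDeriv_succ]
    have hopen : IsOpen {z : ℂ | 1 < z.re} := isOpen_lt continuous_const Complex.continuous_re
    have h1 : iteratedDeriv n (MT f) =ᶠ[𝓝 s] MT (fun t => (-((Real.log t : ℝ) : ℂ)) ^ n * f t) :=
      Filter.eventually_of_mem (hopen.mem_nhds hs) fun z hz => ih z hz
    rw [h1.deriv_eq, (MT_hasDerivAt _ (Gr_iter f hf n) s hs).deriv]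
    congr 1
    ext t
    ring

/-- complete monotonicity of the transform of a nonnegative function -/
lemma CMat_MT (r : ℝ → ℝ) (hr : Gr (fun t => (r t : ℂ))) (hpos : ∀ t : ℝ, 1 < t → 0 ≤ r t) :
    CMat (MT (fun t => (r t : ℂ))) ((2 : ℝ) : ℂ) := by
  intro n
  rw [iteratedDeriv_MT _ hr n _ (by simp), ← MT_const_mul]
  unfold MT
  have h1 : ∫ t in Ioi (1 : ℝ), (-1 : ℂ) ^ n * ((-((Real.log t : ℝ) : ℂ)) ^ n * (r t : ℂ)) *
      (t : ℂ) ^ (-(((2 : ℝ) : ℂ) + 1))
      = ∫ t in Ioi (1 : ℝ), (((Real.log t) ^ n * r t * t ^ (-3 : ℝ) : ℝ) : ℂ) := by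
    refine setIntegral_congr_fun measurableSet_Ioi fun t ht => ?_
    have ht1 : (1 : ℝ) < t := ht
    have ht0 : 0 ≤ t := by linarith
    have h2 : (t : ℂ) ^ (-(((2 : ℝ) : ℂ) + 1)) = ((t ^ (-3 : ℝ) : ℝ) : ℂ) := by
      rw [Complex.ofReal_cpow ht0]
      congr 1
      push_cast
      ring
    rw [h2]
    have h3 : (-1 : ℂ) ^ n * ((-((Real.log t : ℝ) : ℂ)) ^ n * (r t : ℂ))
        = ((Real.log t : ℝ) : ℂ) ^ n * (r t : ℂ) := by
      rw [neg_pow ((Real.log t : ℝ) : ℂ) n, ← mul_assoc, ← mul_assoc, ← mul_pow]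
      norm_num
    rw [h3]
    push_cast
    ring
  rw [h1, integral_complex_ofReal]
  have h4 : 0 ≤ ∫ t in Ioi (1 : ℝ), (Real.log t) ^ n * r t * t ^ (-3 : ℝ) := by
    refine setIntegral_nonneg measurableSet_Ioi fun t ht => ?_
    have ht1 : (1 : ℝ) < t := ht
    have ht0 : 0 ≤ t := by linarith
    have h5 := hpos t ht1
    have h6 : 0 ≤ Real.log t := Real.log_nonneg ht1.le
    positivity
  exact_mod_cast h4

/-- Landau's lemma: a lower bound on the real axis for the continuation of the transform of a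
function that is nonnegative from some point on. -/
theorem landau (r : ℝ → ℝ) (hr : Measurable r) (K X0 : ℝ) (hX0 : 1 ≤ X0)
    (hK : ∀ t : ℝ, 1 < t → |r t| ≤ K * t) (hpos : ∀ t : ℝ, X0 ≤ t → 0 ≤ r t)
    (H : ℂ → ℂ) (U : Set ℂ) (hU : IsOpen U) (hH : DifferentiableOn ℂ H U)
    (σ1 : ℝ) (hσ0 : 0 < σ1) (hσ1 : σ1 ≤ 2) (hsub : ∀ σ : ℝ, σ1 ≤ σ → σ ≤ 2 → (σ : ℂ) ∈ U)
    (hHeq : ∀ s : ℂ, 1 < s.re → H s = MT (fun t => (r t : ℂ)) s) :
    - (K * X0 ^ 2) ≤ (H (σ1 : ℂ)).re := by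
  have hK0 : 0 ≤ K := by
    have h1 := (abs_nonneg _).trans (hK 2 (by norm_num))
    linarith
  set r0 : ℝ → ℝ := indicator (Iio X0) r with hr0
  have hr0m : Measurable r0 := hr.indicator measurableSet_Iio
  have hr0b : ∀ t : ℝ, 1 < t → ‖((r0 t : ℝ) : ℂ)‖ ≤ (K * X0 ^ 2) * t ^ (-1 : ℝ) := by
    intro t ht
    have ht0 : 0 < t := by linarith
    rw [Complex.norm_real, Real.norm_eq_abs, Real.rpow_neg_one]
    by_cases h : t < X0
    · rw [hr0, indicator_of_mem (mem_Iio.mpr h)]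
      refine (hK t ht).trans ?_
      rw [← div_eq_mul_inv, le_div_iff₀ ht0]
      calc K * t * t = K * (t * t) := by ring
        _ ≤ K * (X0 * X0) := by gcongr
        _ = K * X0 ^ 2 := by ring
    · rw [hr0, indicator_of_notMem (by simpa using h), abs_zero]
      positivity
  set r1 : ℝ → ℝ := fun t => r t - r0 t with hr1
  have hr1m : Measurable r1 := hr.sub hr0m
  have hr1pos : ∀ t : ℝ, 1 < t → 0 ≤ r1 t := by
    intro t _
    simp only [hr1]
    by_cases h : t < X0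
    · rw [hr0, indicator_of_mem (mem_Iio.mpr h), sub_self]
    · rw [hr0, indicator_of_notMem (by simpa using h), sub_zero]
      exact hpos t (by linarith)
  have hr1b : ∀ t : ℝ, 1 < t → ‖((r1 t : ℝ) : ℂ)‖ ≤ K * t := by
    intro t ht
    rw [Complex.norm_real, Real.norm_eq_abs]
    simp only [hr1]
    by_cases h : t < X0
    · rw [hr0, indicator_of_mem (mem_Iio.mpr h), sub_self, abs_zero]
      positivity
    · rw [hr0, indicator_of_notMem (by simpa using h), sub_zero]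
      exact hK t ht
  have hGr : Gr (fun t => ((r1 t : ℝ) : ℂ)) :=
    Gr_of_linear _ K hK0 (Complex.measurable_ofReal.comp hr1m) hr1b
  have hMT0 : DifferentiableOn ℂ (MT (fun t => ((r0 t : ℝ) : ℂ))) {s | -1 < s.re} := fun s hs =>
    (MT_differentiableAt _ _ (-1) (Complex.measurable_ofReal.comp hr0m) hr0b s hs).differentiableWithinAt
  have hopen : IsOpen {s : ℂ | -1 < s.re} := isOpen_lt continuous_const Complex.continuous_re
  set H1 : ℂ → ℂ := fun s => H s - MT (fun t => ((r0 t : ℝ) : ℂ)) s with hH1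
  have hH1d : DifferentiableOn ℂ H1 (U ∩ {s : ℂ | -1 < s.re}) :=
    (hH.mono inter_subset_left).sub (hMT0.mono inter_subset_right)
  have hH1eq : ∀ s : ℂ, 1 < s.re → H1 s = MT (fun t => ((r1 t : ℝ) : ℂ)) s := by
    intro s hs
    simp only [hH1]
    rw [hHeq s hs, ← MT_sub]
    · congr 1
      ext t
      simp only [hr1]
      push_cast
      ring
    · refine MT_integrable _ K 1 (Complex.measurable_ofReal.comp hr) (fun t ht => ?_) s hs
      rw [Real.rpow_one]
      change ‖((r t : ℝ) : ℂ)‖ ≤ K * t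
      rw [Complex.norm_real, Real.norm_eq_abs]
      exact hK t ht
    · exact MT_integrable _ _ (-1) (Complex.measurable_ofReal.comp hr0m) hr0b s (by linarith)
  have hCM2 : CMat H1 ((2 : ℝ) : ℂ) := by
    intro n
    have h1 := CMat_MT r1 hGr hr1pos n
    have hopen1 : IsOpen {z : ℂ | 1 < z.re} := isOpen_lt continuous_const Complex.continuous_re
    have h2 : H1 =ᶠ[𝓝 ((2 : ℝ) : ℂ)] MT (fun t => ((r1 t : ℝ) : ℂ)) :=
      Filter.eventually_of_mem (hopen1.mem_nhds (by simp)) fun z hz => hH1eq z hz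
    rw [h2.iteratedDeriv_eq]
    exact h1
  have hCM := CMat_segment H1 (U ∩ {s : ℂ | -1 < s.re}) (hU.inter hopen) hH1d σ1 2
    (fun σ h1 h2 => ⟨hsub σ h1 h2, by
      change (-1 : ℝ) < ((σ : ℂ)).re
      rw [Complex.ofReal_re]; linarith⟩) hCM2 σ1 le_rfl hσ1 0
  rw [pow_zero, one_mul, iteratedDeriv_zero, Complex.le_def] at hCM
  have h1 := hCM.1
  simp only [hH1, Complex.zero_re, Complex.sub_re] at h1
  have h2 := MT_norm_le (fun t => ((r0 t : ℝ) : ℂ)) (K * X0 ^ 2) (-1) hr0b (σ1 : ℂ) (by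
    rw [Complex.ofReal_re]; linarith)
  have h3 : K * X0 ^ 2 / (((σ1 : ℂ)).re - -1) ≤ K * X0 ^ 2 := by
    rw [Complex.ofReal_re]
    apply div_le_self (by positivity)
    linarith
  have h4 := Complex.abs_re_le_norm (MT (fun t => ((r0 t : ℝ) : ℂ)) (σ1 : ℂ))
  have h5 := neg_abs_le (MT (fun t => ((r0 t : ℝ) : ℂ)) (σ1 : ℂ)).re
  linarith

end Pool.Agent.MC
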