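import Mathlib
import Pool.Agent.Lib.MP_9cfc0a_nt.L1

set_option autoImplicit false

namespace Pool.Agent.MC

open Complex MeasureTheory Set Filter Topology Asymptotics Metric

lemma MT_rpow (κ : ℝ) (s : ℂ) (hs : κ < s.re) :
    MT (fun t => ((t ^ κ : ℝ) : ℂ)) s = 1 / (s - κ) := by
  unfold MT
  have h1 : ∫ t in Ioi (1 : ℝ), ((t ^ κ : ℝ) : ℂ) * (t : ℂ) ^ (-(s + 1))
      = ∫ t in Ioi (1 : ℝ), (t : ℂ) ^ (κ - s - 1) := by
    refine setIntegral_congr_fun measurableSet_Ioi fun t ht => ?_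
    have ht1 : (1 : ℝ) < t := ht
    have ht0 : (t : ℂ) ≠ 0 := by
      have : t ≠ 0 := by linarith
      exact_mod_cast this
    have h2 : ((t ^ κ : ℝ) : ℂ) = (t : ℂ) ^ (κ : ℂ) := Complex.ofReal_cpow (by linarith) κ
    rw [h2, ← Complex.cpow_add _ _ ht0]
    congr 1
    ring
  rw [h1, integral_Ioi_cpow_of_lt (by simp; linarith) one_pos, Complex.ofReal_one, Complex.one_cpow]
  have h3 : s - κ ≠ 0 := by
    intro h
    have h4 : s = κ := by linear_combination h
    rw [h4] at hs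
    simp at hs
  have h4 : (κ : ℂ) - s - 1 + 1 ≠ 0 := by
    intro h
    apply h3
    linear_combination -h
  field_simp
  ring

lemma densC_one : densC 1 1 = 1 := by
  unfold densC
  rw [sum_char, dl_one]
  simp

lemma RC_one (t : ℝ) : RC 1 1 t = (((⌊t⌋₊ : ℝ) - t : ℝ) : ℂ) := by
  unfold RC SumC
  rw [densC_one]
  have h1 : ∀ n ∈ Finset.Icc 1 ⌊t⌋₊, (1 : DirichletCharacter ℂ 1) (n : ZMod 1) = 1 := by
    intro n _
    apply MulChar.one_apply
    exact (isUnit_of_subsingleton _)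
  rw [Finset.sum_congr rfl h1]
  simp

/-- the function has no zeros on the positive real axis -/
lemma FF_real_ne_zero (σ : ℝ) (hσ : 0 < σ) : FF 1 1 (σ : ℂ) ≠ 0 := by
  rcases lt_trichotomy σ 1 with h | h | h
  · rw [FF_one_eq_MT 1 (σ : ℂ) (by simpa using hσ), densC_one, one_mul]
    set m : ℝ := ∫ t in Ioi (1 : ℝ), ((⌊t⌋₊ : ℝ) - t) * t ^ (-(σ + 1)) with hm
    have h1 : MT (RC 1 1) (σ : ℂ) = (m : ℂ) := by
      unfold MT
      rw [hm, ← integral_complex_ofReal]
      refine setIntegral_congr_fun measurableSet_Ioi fun t ht => ?_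
      have ht1 : (1 : ℝ) < t := ht
      have h2 : (t : ℂ) ^ (-((σ : ℂ) + 1)) = ((t ^ (-(σ + 1)) : ℝ) : ℂ) := by
        rw [Complex.ofReal_cpow (by linarith)]
        congr 1
        push_cast
        ring
      rw [h2, RC_one]
      push_cast
      ring
    have hm0 : m ≤ 0 := by
      rw [hm]
      refine setIntegral_nonpos measurableSet_Ioi fun t ht => ?_
      have ht1 : (1 : ℝ) < t := ht
      have ht0 : 0 ≤ t := by linarith
      have h3 := Nat.floor_le ht0
      have h4 : 0 ≤ t ^ (-(σ + 1)) := by positivity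
      nlinarith
    rw [h1]
    have h5 : (σ : ℂ) * ((σ : ℂ) - 1) * (m : ℂ) + (σ : ℂ) = ((σ * ((σ - 1) * m + 1) : ℝ) : ℂ) := by
      push_cast; ring
    rw [h5]
    have h6 : 0 < σ * ((σ - 1) * m + 1) := by
      have : 0 ≤ (σ - 1) * m := mul_nonneg_of_nonpos_of_nonpos (by linarith) hm0
      positivity
    exact_mod_cast h6.ne'
  · rw [h, FF_one]
    exact DirichletCharacter.LFunctionTrivChar₁_apply_one_ne_zero 1
  · have hs1 : (σ : ℂ) ≠ 1 := by
      intro h'
      have : σ = 1 := by exact_mod_cast h'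
      linarith
    rw [FF_one_apply 1 (σ : ℂ) hs1]
    refine mul_ne_zero (sub_ne_zero.mpr hs1) ?_
    exact DirichletCharacter.LFunction_ne_zero_of_one_le_re 1 (.inr hs1) (by simpa using h.le)

/-- continuation of the transform of `ψ(t) - t` -/
noncomputable def GG (s : ℂ) : ℂ := (-(deriv (FF 1 1) s / FF 1 1 s) - 1) / s

lemma GG_eq (s : ℂ) (hs : 1 < s.re) : MT (EC 1 1) s = GG s := by
  have h1 := HA_eq_MT 1 1 (Nat.coprime_one_left 1) s hs
  rw [HA_eq] at h1
  have h2 : ({1}ᶜ : Finset (DirichletCharacter ℂ 1)) = ∅ := by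
    ext χ
    simp only [Finset.mem_compl, Finset.mem_singleton, Finset.notMem_empty, iff_false, not_not]
    exact DirichletCharacter.level_one χ
  rw [h2, Finset.sum_empty, Nat.totient_one, Nat.cast_one, inv_one, one_mul, sub_zero] at h1
  have hs0 : s ≠ 0 := by
    intro h; rw [h] at hs; simp at hs; linarith
  unfold GG
  rw [h1]
  field_simp
  ring

lemma GG_differentiableOn : DifferentiableOn ℂ GG {s | FF 1 1 s ≠ 0 ∧ s ≠ 0} := by
  unfold GG
  refine DifferentiableOn.div ?_ differentiableOn_id fun s hs => hs.2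
  refine DifferentiableOn.sub_const ?_ _
  refine (DifferentiableOn.div ?_ (FF_differentiable 1 1).differentiableOn fun s hs => hs.1).neg
  exact ((FF_differentiable 1 1).differentiableOn.deriv isOpen_univ).mono (subset_univ _)

lemma isOpen_GGset : IsOpen {s : ℂ | FF 1 1 s ≠ 0 ∧ s ≠ 0} := by
  have h1 : {s : ℂ | FF 1 1 s ≠ 0 ∧ s ≠ 0} = (FF 1 1) ⁻¹' {0}ᶜ ∩ {0}ᶜ := by
    ext s; simp
  rw [h1]
  exact (isOpen_compl_singleton.preimage (FF_differentiable 1 1).continuous).inter
    isOpen_compl_singleton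

/-- bound on the real segment -/
lemma GG_bound : ∃ B : ℝ, ∀ σ : ℝ, 1 / 2 ≤ σ → σ ≤ 2 → ‖GG (σ : ℂ)‖ ≤ B := by
  have hK : IsCompact ((fun σ : ℝ => (σ : ℂ)) '' Icc (1 / 2) 2) :=
    isCompact_Icc.image Complex.continuous_ofReal
  have hc : ContinuousOn GG ((fun σ : ℝ => (σ : ℂ)) '' Icc (1 / 2) 2) := by
    refine GG_differentiableOn.continuousOn.mono ?_
    rintro _ ⟨σ, hσ, rfl⟩
    refine ⟨FF_real_ne_zero σ (by linarith [hσ.1]), ?_⟩
    have h0 : σ ≠ 0 := by linarith [hσ.1]
    change (σ : ℂ) ≠ 0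
    exact_mod_cast h0
  obtain ⟨B, hB⟩ := hK.exists_bound_of_continuousOn hc
  exact ⟨B, fun σ h1 h2 => hB _ ⟨σ, ⟨h1, h2⟩, rfl⟩⟩

/-- one sided statement: `e (ψ(t) - t) - t^(1/2)` cannot be eventually nonnegative -/
lemma not_eventually (e : ℝ) (he : e = 1 ∨ e = -1) (X0 : ℝ) (hX0 : 1 ≤ X0)
    (h : ∀ t : ℝ, X0 ≤ t → 0 ≤ e * (psiR t 1 1 - t) - t ^ (1 / 2 : ℝ)) : False := by
  obtain ⟨B, hB⟩ := GG_bound
  have he1 : |e| = 1 := by rcases he with h | h <;> rw [h] <;> simp
  set r : ℝ → ℝ := fun t => e * (psiR t 1 1 - t) - t ^ (1 / 2 : ℝ) with hr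
  have hrm : Measurable r := by
    refine ((psiR_measurable 1 1).sub measurable_id |>.const_mul e).sub ?_
    exact Measurable.pow_const measurable_id _
  have hrK : ∀ t : ℝ, 1 < t → |r t| ≤ 8 * t := by
    intro t ht
    have ht0 : 0 < t := by linarith
    have h1 := EC_bound 1 1 one_pos t
    unfold EC at h1
    rw [Complex.norm_real, Real.norm_eq_abs, Nat.totient_one, Nat.cast_one, div_one,
      abs_of_pos ht0] at h1
    have h2 : t ^ (1 / 2 : ℝ) ≤ t := by
      nth_rewrite 2 [← Real.rpow_one t]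
      exact Real.rpow_le_rpow_of_exponent_le ht.le (by norm_num)
    have h3 : 0 ≤ t ^ (1 / 2 : ℝ) := by positivity
    calc |r t| ≤ |e * (psiR t 1 1 - t)| + |t ^ (1 / 2 : ℝ)| := abs_sub _ _
      _ ≤ 7 * t + t := by
          rw [abs_mul, he1, one_mul, abs_of_nonneg h3]
          exact add_le_add h1 h2
      _ = 8 * t := by ring
  have hECm := EC_measurable 1 1
  -- contradiction point
  set δ : ℝ := 1 / (|B| + 8 * X0 ^ 2 + 2) with hδ
  have hδ0 : 0 < δ := by positivity
  have hδ1 : δ ≤ 1 / 2 := by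
    rw [hδ]
    apply one_div_le_one_div_of_le (by norm_num)
    have := abs_nonneg B
    nlinarith
  set σ : ℝ := 1 / 2 + δ with hσ
  set U : Set ℂ := {s | FF 1 1 s ≠ 0 ∧ s ≠ 0} ∩ {(((1 / 2 : ℝ) : ℝ) : ℂ)}ᶜ with hU
  have hUo : IsOpen U := isOpen_GGset.inter isOpen_compl_singleton
  have hHd : DifferentiableOn ℂ (fun s => (e : ℂ) * GG s - 1 / (s - ((1 / 2 : ℝ) : ℂ))) U := by
    refine ((GG_differentiableOn.mono inter_subset_left).const_mul _).sub ?_
    refine DifferentiableOn.div (by fun_prop) (by fun_prop) fun s hs => ?_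
    exact sub_ne_zero.mpr hs.2
  have key := landau r hrm 8 X0 hX0 hrK h (fun s => (e : ℂ) * GG s - 1 / (s - ((1 / 2 : ℝ) : ℂ)))
    U hUo hHd σ (by rw [hσ]; linarith) (by rw [hσ]; linarith) (fun σ' h1 h2 => by
      have h3 : 1 / 2 < σ' := by linarith
      refine ⟨⟨FF_real_ne_zero σ' (by linarith), ?_⟩, ?_⟩
      · have : σ' ≠ 0 := by linarith
        exact_mod_cast this
      · rw [mem_compl_singleton_iff]
        intro h4
        have h5 : σ' = 1 / 2 := by exact_mod_cast h4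
        linarith) (fun s hs => by
      rw [← GG_eq s hs, ← MT_rpow (1 / 2) s (by linarith), ← MT_const_mul, ← MT_sub]
      · congr 1
        ext t
        simp only [hr, EC, Nat.totient_one, Nat.cast_one, div_one]
        push_cast
        ring
      · have h1 := (MT_integrable (EC 1 1) 7 1 hECm (EC_bound_rpow 1 1 one_pos) s hs).const_mul (e : ℂ)
        refine h1.congr (ae_of_all _ fun t => ?_)
        simp only
        ring
      · refine MT_integrable _ 1 (1 / 2) ?_ (fun t ht => ?_) s (by linarith)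
        · exact Complex.measurable_ofReal.comp (Measurable.pow_const measurable_id _)
        · rw [Complex.norm_real, Real.norm_of_nonneg (by positivity), one_mul])
  have h1 := hB σ (by rw [hσ]; linarith) (by rw [hσ]; linarith)
  have h2 : (1 / ((σ : ℂ) - ((1 / 2 : ℝ) : ℂ))).re = 1 / δ := by
    have h3 : (σ : ℂ) - ((1 / 2 : ℝ) : ℂ) = ((δ : ℝ) : ℂ) := by
      rw [hσ]; push_cast; ring
    rw [h3, ← Complex.ofReal_one, ← Complex.ofReal_div, Complex.ofReal_re]
  rw [Complex.sub_re, h2, Complex.re_ofReal_mul] at key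
  have h3 := (Complex.abs_re_le_norm (GG (σ : ℂ))).trans h1
  have h4 : e * (GG (σ : ℂ)).re ≤ B := by
    calc e * (GG (σ : ℂ)).re ≤ |e * (GG (σ : ℂ)).re| := le_abs_self _
      _ = |(GG (σ : ℂ)).re| := by rw [abs_mul, he1, one_mul]
      _ ≤ B := h3
  have h5 : 1 / δ = |B| + 8 * X0 ^ 2 + 2 := by
    rw [hδ, one_div_one_div]
  rw [h5] at key
  have h6 := le_abs_self B
  linarith

/-- There are arbitrarily large `x` with `|ψ(x) - x| ≤ x^(1/2)`. -/
theorem exists_small_error (X : ℝ) : ∃ x : ℝ, X ≤ x ∧ |psiR x 1 1 - x| ≤ x ^ (1 / 2 : ℝ) := by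
  by_contra hcon
  push Not at hcon
  set X0 : ℝ := max X 1 with hX0
  have hX01 : 1 ≤ X0 := le_max_right _ _
  have hbig : ∀ x : ℝ, X0 ≤ x → x ^ (1 / 2 : ℝ) < |psiR x 1 1 - x| := fun x hx =>
    hcon x ((le_max_left _ _).trans hx)
  by_cases hpos : ∃ x1 : ℝ, X0 ≤ x1 ∧ 0 < psiR x1 1 1 - x1
  · obtain ⟨x1, hx1, hp1⟩ := hpos
    have hall : ∀ x2 : ℝ, x1 ≤ x2 → 0 < psiR x2 1 1 - x2 := by
      intro x2 hx2
      by_contra hneg
      push Not at hneg
      set S : Set ℝ := {y | x1 ≤ y ∧ y ≤ x2 ∧ 0 < psiR y 1 1 - y} with hS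
      have hS1 : x1 ∈ S := ⟨le_rfl, hx2, hp1⟩
      have hSb : BddAbove S := ⟨x2, fun y hy => hy.2.1⟩
      set m : ℝ := sSup S with hm
      have hm1 : x1 ≤ m := le_csSup hSb hS1
      have hm2 : m ≤ x2 := csSup_le ⟨x1, hS1⟩ fun y hy => hy.2.1
      have hmX : X0 ≤ m := hx1.trans hm1
      rcases lt_or_ge 0 (psiR m 1 1 - m) with h | h
      · -- extend beyond m
        have hmx2 : m < x2 := by
          rcases hm2.lt_or_eq with h' | h'
          · exact h'
          · rw [h'] at h; linarith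
        set y : ℝ := min x2 (m + (psiR m 1 1 - m) / 2) with hy
        have hy1 : m < y := lt_min hmx2 (by linarith)
        have hy2 : y ≤ x2 := min_le_left _ _
        have hy3 : y ≤ m + (psiR m 1 1 - m) / 2 := min_le_right _ _
        have hyS : y ∈ S := by
          refine ⟨by linarith, hy2, ?_⟩
          have := psiR_mono 1 1 m y hy1.le
          linarith
        have := le_csSup hSb hyS
        linarith
      · -- m is a limit of points of S
        have hb := hbig m hmX
        rw [abs_of_nonpos h] at hb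
        have hpw : 0 < m ^ (1 / 2 : ℝ) := Real.rpow_pos_of_pos (by linarith) _
        obtain ⟨y, hyS, hy⟩ := exists_lt_of_lt_csSup ⟨x1, hS1⟩
          (show m - m ^ (1 / 2 : ℝ) < sSup S by rw [← hm]; linarith)
        have hym : y ≤ m := le_csSup hSb hyS
        have h1 := psiR_mono 1 1 y m hym
        have h2 := hyS.2.2
        linarith
    refine not_eventually 1 (Or.inl rfl) x1 (hX01.trans hx1) fun t ht => ?_
    have h1 := hall t ht
    have h2 := hbig t (hx1.trans ht)
    rw [abs_of_pos h1] at h2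
    linarith
  · push Not at hpos
    refine not_eventually (-1) (Or.inr rfl) X0 hX01 fun t ht => ?_
    have h1 := hpos t ht
    have h2 := hbig t ht
    rw [abs_of_nonpos h1] at h2
    linarith

end Pool.Agent.MC
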