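import Mathlib
import Pool.Agent.Lib.MP_9cfc0a_nt.PrimeMult

set_option autoImplicit false

namespace Pool.Agent.MC

open Finset MeasureTheory Real

/-- pairs `(p, a)`, `p ≤ x^(1/2)` prime, `1 ≤ a < p`, with a large error at `x` -/
def excP (x lam : ℝ) : Set (ℕ × ℕ) :=
  {y | y.1.Prime ∧ (y.1 : ℝ) ≤ Real.sqrt x ∧ 1 ≤ y.2 ∧ y.2 < y.1 ∧
    lam * Real.sqrt (x / y.1) < |psiR x y.1 y.2 - x / (Nat.totient y.1 : ℝ)|}

lemma excP_subset (x lam : ℝ) :
    excP x lam ⊆ ((Icc 1 ⌊Real.sqrt x⌋₊) ×ˢ (Icc 1 ⌊Real.sqrt x⌋₊) : Finset (ℕ × ℕ)) := by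
  rintro ⟨p, a⟩ ⟨h1, h2, h3, h4, _⟩
  simp only at h1 h2 h3 h4
  have h5 : p ≤ ⌊Real.sqrt x⌋₊ := Nat.le_floor h2
  rw [Finset.mem_coe, Finset.mem_product, Finset.mem_Icc, Finset.mem_Icc]
  exact ⟨⟨h1.one_le, h5⟩, ⟨h3, by simp only; omega⟩⟩

lemma excP_finite (x lam : ℝ) : (excP x lam).Finite :=
  Set.Finite.subset (Finset.finite_toSet _) (excP_subset x lam)

lemma ncard_excP_le (x lam : ℝ) (hx : 0 ≤ x) : ((excP x lam).ncard : ℝ) ≤ x := by
  have h1 := Set.ncard_le_ncard (excP_subset x lam) (Finset.finite_toSet _)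
  rw [Set.ncard_coe_finset, Finset.card_product, Nat.card_Icc, Nat.add_sub_cancel] at h1
  have h2 : ((⌊Real.sqrt x⌋₊ : ℕ) : ℝ) ≤ Real.sqrt x := Nat.floor_le (Real.sqrt_nonneg x)
  calc ((excP x lam).ncard : ℝ) ≤ ((⌊Real.sqrt x⌋₊ * ⌊Real.sqrt x⌋₊ : ℕ) : ℝ) := by
        exact_mod_cast h1
    _ = (⌊Real.sqrt x⌋₊ : ℝ) * ⌊Real.sqrt x⌋₊ := by push_cast; ring
    _ ≤ Real.sqrt x * Real.sqrt x := by gcongr
    _ = x := Real.mul_self_sqrt hx

/-- large sieve bound for one `x` -/
lemma large_sieve_fixed (x : ℝ) (hx : 2 ≤ x) :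
    ∑ q ∈ Icc 1 ⌊Real.sqrt x⌋₊, (1 / (q : ℝ)) * ∑ c ∈ range q, ‖newQ uL 0 ⌊x⌋₊ q c‖ ^ 2
      ≤ 42 * x ^ 2 * Real.log x := by
  have hx0 : 0 < x := by linarith
  have hs1 : 1 ≤ Real.sqrt x := by
    rw [Real.one_le_sqrt]; linarith
  have hQ1 : 1 ≤ ⌊Real.sqrt x⌋₊ := Nat.le_floor (by exact_mod_cast hs1)
  refine (large_sieve_new uL 0 ⌊x⌋₊ ⌊Real.sqrt x⌋₊ hQ1).trans ?_
  have hQ2 : ((⌊Real.sqrt x⌋₊ : ℕ) : ℝ) ^ 2 ≤ x := by
    have h2 : ((⌊Real.sqrt x⌋₊ : ℕ) : ℝ) ≤ Real.sqrt x := Nat.floor_le (Real.sqrt_nonneg x)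
    calc ((⌊Real.sqrt x⌋₊ : ℕ) : ℝ) ^ 2 ≤ Real.sqrt x ^ 2 := by gcongr
      _ = x := Real.sq_sqrt hx0.le
  have hfl : ((⌊x⌋₊ : ℕ) : ℝ) ≤ x := Nat.floor_le hx0.le
  have hfl1 : (1 : ℝ) ≤ ((⌊x⌋₊ : ℕ) : ℝ) := by
    have : 1 ≤ ⌊x⌋₊ := Nat.le_floor (by push_cast; linarith)
    exact_mod_cast this
  have hlog : 0 ≤ Real.log x := Real.log_nonneg (by linarith)
  have hpi : π ^ 2 ≤ 9.9 := by
    have := Real.pi_lt_d4
    have := Real.pi_pos
    nlinarith
  have h7 : Real.log 4 ≤ 1.4 := by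
    have : Real.log 4 = 2 * Real.log 2 := by
      rw [show (4 : ℝ) = 2 ^ 2 by norm_num, Real.log_pow]
      norm_num
    have := Real.log_two_lt_d9
    linarith
  have h8 : 0 ≤ Real.log 4 := Real.log_nonneg (by norm_num)
  have h3 : ∑ n ∈ Ioc 0 (0 + ⌊x⌋₊), ‖uL n‖ ^ 2 ≤ 5.4 * x * Real.log x := by
    rw [zero_add]
    have h4 := sum_vonMangoldt_sq_le ⌊x⌋₊
    have h5 : ∀ n ∈ Ioc 0 ⌊x⌋₊, ‖uL n‖ ^ 2 = (ArithmeticFunction.vonMangoldt n) ^ 2 := by
      intro n _
      unfold uL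
      rw [Complex.norm_real, Real.norm_eq_abs, sq_abs]
    rw [Finset.sum_congr rfl h5]
    refine h4.trans ?_
    have h6 : Real.log ((⌊x⌋₊ : ℕ) : ℝ) ≤ Real.log x := Real.log_le_log (by linarith) hfl
    have h9 : 0 ≤ Real.log ((⌊x⌋₊ : ℕ) : ℝ) := Real.log_nonneg hfl1
    calc Real.log ((⌊x⌋₊ : ℕ) : ℝ) * ((Real.log 4 + 4) * ((⌊x⌋₊ : ℕ) : ℝ))
        ≤ Real.log x * (5.4 * x) := by
          gcongr
          linarith
      _ = 5.4 * x * Real.log x := by ring
  calc π ^ 2 / 4 * (((⌊Real.sqrt x⌋₊ : ℕ) : ℝ) ^ 2 + 2 * ((⌊x⌋₊ : ℕ) : ℝ)) * ∑ n ∈ Ioc 0 (0 + ⌊x⌋₊), ‖uL n‖ ^ 2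
      ≤ 9.9 / 4 * (x + 2 * x) * (5.4 * x * Real.log x) := by gcongr
    _ = 40.095 * (x ^ 2 * Real.log x) := by ring
    _ ≤ 42 * (x ^ 2 * Real.log x) := by
        have : 0 ≤ x ^ 2 * Real.log x := by positivity
        nlinarith
    _ = 42 * x ^ 2 * Real.log x := by ring

/-- For `x` with a small error at level one, almost all classes to prime moduli have a small error. -/
theorem excP_bound (x : ℝ) (hx : 2 ≤ x) (hsmall : |psiR x 1 1 - x| ≤ x ^ (3 / 4 : ℝ)) (lam : ℝ)
    (hlam : 0 < lam) : ((excP x lam).ncard : ℝ) ≤ 250 * x * Real.log x / lam ^ 2 := by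
  classical
  have hx0 : 0 < x := by linarith
  have hlog2 : Real.log 2 ≤ Real.log x := Real.log_le_log (by norm_num) hx
  have hl2 := Real.log_two_gt_d9
  have hlogx : 0.69 ≤ Real.log x := by linarith
  rcases le_or_gt lam 6 with h6 | h6
  · refine (ncard_excP_le x lam hx0.le).trans ?_
    rw [le_div_iff₀ (by positivity)]
    have h1 : lam ^ 2 ≤ 36 := by nlinarith
    have h2 : 36 ≤ 250 * Real.log x := by linarith
    calc x * lam ^ 2 ≤ x * 36 := by gcongr
      _ ≤ x * (250 * Real.log x) := by gcongr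
      _ = 250 * x * Real.log x := by ring
  · set N : ℕ := ⌊x⌋₊ with hN
    set Q : ℕ := ⌊Real.sqrt x⌋₊ with hQ
    set Y : ℝ := 36 * x / lam ^ 2 with hY
    have hY0 : 0 < Y := by positivity
    set B : ℕ := ⌊Real.sqrt Y⌋₊ with hB
    set T1 : Finset ((_ : ℕ) × ℕ) := ((Icc 1 Q).sigma (fun q => range q)).filter
      (fun y => lam ^ 2 / 4 * x < (1 / (y.1 : ℝ)) * ‖newQ uL 0 N y.1 y.2‖ ^ 2) with hT1
    have hfin := excP_finite x lam
    set S : Finset (ℕ × ℕ) := hfin.toFinset with hS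
    have hcard : (excP x lam).ncard = S.card := Set.ncard_eq_toFinset_card _ hfin
    set S2 := S.filter (fun y => (y.1 : ℝ) ≤ Real.sqrt Y) with hS2
    set S1 := S.filter (fun y => ¬ (y.1 : ℝ) ≤ Real.sqrt Y) with hS1
    have hsplit : S.card = S2.card + S1.card := by
      rw [hS1, hS2]
      exact (Finset.card_filter_add_card_filter_not _).symm
    have hc2 : (S2.card : ℝ) ≤ Y := by
      have h1 : S2 ⊆ (Icc 1 B) ×ˢ (Icc 1 B) := by
        rintro ⟨p, a⟩ hy
        rw [hS2, Finset.mem_filter, hS, Set.Finite.mem_toFinset] at hy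
        obtain ⟨⟨hp, _, ha1, ha2, _⟩, hsm⟩ := hy
        simp only at hp ha1 ha2 hsm
        have h5 : p ≤ B := Nat.le_floor hsm
        rw [Finset.mem_product, Finset.mem_Icc, Finset.mem_Icc]
        exact ⟨⟨hp.one_le, h5⟩, ⟨ha1, by simp only; omega⟩⟩
      have h2 := Finset.card_le_card h1
      rw [Finset.card_product, Nat.card_Icc, Nat.add_sub_cancel] at h2
      have h3 : (B : ℝ) ≤ Real.sqrt Y := Nat.floor_le (Real.sqrt_nonneg Y)
      calc (S2.card : ℝ) ≤ ((B * B : ℕ) : ℝ) := by exact_mod_cast h2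
        _ = (B : ℝ) * B := by push_cast; ring
        _ ≤ Real.sqrt Y * Real.sqrt Y := by gcongr
        _ = Y := Real.mul_self_sqrt hY0.le
    have hc1' : S1.card ≤ T1.card := by
      apply Finset.card_le_card_of_injOn (fun y => (⟨y.1, y.2⟩ : (_ : ℕ) × ℕ))
      · rintro ⟨p, a⟩ hy
        rw [Finset.mem_coe, hS1, Finset.mem_filter, hS, Set.Finite.mem_toFinset] at hy
        obtain ⟨⟨hp, hpx, ha1, ha2, hbad⟩, hla⟩ := hy
        simp only at hp hpx ha1 ha2 hbad hla
        push Not at hla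
        rw [Finset.mem_coe, hT1, Finset.mem_filter, Finset.mem_sigma, Finset.mem_Icc,
          Finset.mem_range]
        refine ⟨⟨⟨hp.one_le, Nat.le_floor hpx⟩, ha2⟩, ?_⟩
        simp only
        have hp2 : (2 : ℝ) ≤ p := by exact_mod_cast hp.two_le
        have hp0 : (0 : ℝ) < p := by linarith
        have hφ : (Nat.totient p : ℝ) = (p : ℝ) - 1 := by
          rw [Nat.totient_prime hp, Nat.cast_sub hp.one_le, Nat.cast_one]
        -- the new part
        have hnew : newQ uL 0 N p a = (((p : ℝ) * psiR x p a - psiR x 1 1 : ℝ) : ℂ) := by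
          rw [newQ_prime _ _ _ _ _ hp]
          have h1 : Zc uL 0 N 1 a = ((psiR x 1 1 : ℝ) : ℂ) := by
            rw [psiR_eq_Zc]
            unfold Zc
            refine Finset.sum_congr rfl fun n _ => ?_
            simp [Nat.mod_one]
          rw [h1, ← psiR_eq_Zc]
          push_cast
          ring
        rw [hnew, Complex.norm_real, Real.norm_eq_abs, sq_abs]
        set ν : ℝ := (p : ℝ) * psiR x p a - psiR x 1 1 with hν
        set r : ℝ := Real.sqrt (x / p) with hr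
        have hr2 : r ^ 2 = x / p := Real.sq_sqrt (by positivity)
        have hr0 : 0 < r := Real.sqrt_pos.mpr (by positivity)
        have hE : psiR x p a - x / (Nat.totient p : ℝ)
            = ν / p + (psiR x 1 1 - x) / p - x / (p * ((p : ℝ) - 1)) := by
          rw [hφ, hν]
          have : (p : ℝ) - 1 ≠ 0 := by linarith
          field_simp
          ring
        have h2 : |psiR x 1 1 - x| / p ≤ lam / 6 * r := by
          refine le_trans (div_le_div_of_nonneg_right hsmall hp0.le) ?_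
          have h3 : (x ^ (3 / 4 : ℝ) / p) ^ 2 ≤ (lam / 6 * r) ^ 2 := by
            rw [mul_pow, hr2, div_pow, div_pow]
            have h4 : (x ^ (3 / 4 : ℝ)) ^ 2 = x * Real.sqrt x := by
              rw [Real.sqrt_eq_rpow, ← Real.rpow_natCast, ← Real.rpow_mul hx0.le]
              nth_rewrite 2 [← Real.rpow_one x]
              rw [← Real.rpow_add hx0]
              norm_num
            have h5 : Real.sqrt Y = 6 * Real.sqrt x / lam := by
              have h6 : Y = (6 * Real.sqrt x / lam) ^ 2 := by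
                rw [hY, div_pow, mul_pow, Real.sq_sqrt hx0.le]
                norm_num
              rw [h6, Real.sqrt_sq (by positivity)]
            have h6 : 36 * Real.sqrt x ≤ lam ^ 2 * p := by
              rw [h5, div_lt_iff₀ hlam] at hla
              have h7 : 0 ≤ Real.sqrt x := Real.sqrt_nonneg x
              calc 36 * Real.sqrt x = 6 * (6 * Real.sqrt x) := by ring
                _ ≤ lam * (p * lam) := by gcongr
                _ = lam ^ 2 * p := by ring
            rw [h4]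
            have h8 : lam ^ 2 / 6 ^ 2 * (x / p) = lam ^ 2 * x / (36 * p) := by
              field_simp
              norm_num
            rw [h8, div_le_div_iff₀ (by positivity) (by positivity)]
            calc x * Real.sqrt x * (36 * p) = (36 * Real.sqrt x) * (x * p) := by ring
              _ ≤ (lam ^ 2 * p) * (x * p) := by gcongr
              _ = lam ^ 2 * x * (p : ℝ) ^ 2 := by ring
          exact le_of_sq_le_sq h3 (by positivity)
        have h3 : x / (p * ((p : ℝ) - 1)) ≤ lam / 3 * r := by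
          have hp1 : 0 < (p : ℝ) - 1 := by linarith
          have h4 : x / (p * ((p : ℝ) - 1)) ≤ 2 * x / (p : ℝ) ^ 2 := by
            rw [div_le_div_iff₀ (by positivity) (by positivity)]
            have h5 : (p : ℝ) ^ 2 ≤ 2 * (p * ((p : ℝ) - 1)) := by nlinarith
            calc x * (p : ℝ) ^ 2 ≤ x * (2 * (p * ((p : ℝ) - 1))) := by gcongr
              _ = 2 * x * (p * ((p : ℝ) - 1)) := by ring
          refine h4.trans ?_
          have h5 : (2 * x / (p : ℝ) ^ 2) ^ 2 ≤ (lam / 3 * r) ^ 2 := by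
            rw [mul_pow, hr2, div_pow, mul_pow, div_pow]
            have h6 : Y < (p : ℝ) ^ 2 := by
              have h7 : Real.sqrt Y ^ 2 < (p : ℝ) ^ 2 := by
                gcongr
              rwa [Real.sq_sqrt hY0.le] at h7
            have h7 : 36 * x ≤ lam ^ 2 * (p : ℝ) ^ 3 := by
              rw [hY, div_lt_iff₀ (by positivity)] at h6
              have h8 : (p : ℝ) ^ 2 ≤ (p : ℝ) ^ 3 := by
                have : (0 : ℝ) ≤ (p : ℝ) ^ 2 := by positivity
                nlinarith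
              calc 36 * x ≤ (p : ℝ) ^ 2 * lam ^ 2 := h6.le
                _ ≤ (p : ℝ) ^ 3 * lam ^ 2 := by gcongr
                _ = lam ^ 2 * (p : ℝ) ^ 3 := by ring
            have h8 : lam ^ 2 / 3 ^ 2 * (x / p) = (lam ^ 2 * x) / (9 * p) := by
              field_simp
              norm_num
            rw [h8, div_le_div_iff₀ (by positivity) (by positivity)]
            calc 2 ^ 2 * x ^ 2 * (9 * (p : ℝ)) = (36 * x) * (x * p) := by ring
              _ ≤ (lam ^ 2 * (p : ℝ) ^ 3) * (x * p) := by gcongr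
              _ = lam ^ 2 * x * ((p : ℝ) ^ 2) ^ 2 := by ring
          exact le_of_sq_le_sq h5 (by positivity)
        have h4 : lam / 2 * r < |ν / p| := by
          rw [hE] at hbad
          have h5 : |ν / p + (psiR x 1 1 - x) / p - x / (p * ((p : ℝ) - 1))|
              ≤ |ν / p| + |psiR x 1 1 - x| / p + x / (p * ((p : ℝ) - 1)) := by
            have hp1 : 0 < (p : ℝ) - 1 := by linarith
            refine (abs_sub _ _).trans ?_
            rw [abs_of_nonneg (show 0 ≤ x / (p * ((p : ℝ) - 1)) by positivity)]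
            have h6 := abs_add_le (ν / p) ((psiR x 1 1 - x) / p)
            rw [abs_div (psiR x 1 1 - x), abs_of_pos hp0] at h6
            linarith
          linarith
        have h5 : (lam / 2 * r) ^ 2 < |ν / p| ^ 2 := by gcongr
        rw [mul_pow, hr2, sq_abs, div_pow, div_pow] at h5
        have h6 : lam ^ 2 / 2 ^ 2 * (x / p) * p < ν ^ 2 / (p : ℝ) ^ 2 * p := by gcongr
        have h7 : lam ^ 2 / 2 ^ 2 * (x / p) * p = lam ^ 2 / 4 * x := by
          field_simp
          norm_num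
        have h8 : ν ^ 2 / (p : ℝ) ^ 2 * p = 1 / p * ν ^ 2 := by
          field_simp
        rw [h7, h8] at h6
        exact h6
      · rintro ⟨p, a⟩ _ ⟨p', a'⟩ _ h
        simp only [Sigma.mk.injEq, heq_eq_eq] at h
        exact Prod.ext h.1 h.2
    have hc1 : (S1.card : ℝ) * (lam ^ 2 / 4 * x) ≤ 42 * x ^ 2 * Real.log x := by
      have h1 : (S1.card : ℝ) ≤ (T1.card : ℝ) := by exact_mod_cast hc1'
      calc (S1.card : ℝ) * (lam ^ 2 / 4 * x) ≤ (T1.card : ℝ) * (lam ^ 2 / 4 * x) := by gcongr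
        _ = ∑ _y ∈ T1, lam ^ 2 / 4 * x := by rw [Finset.sum_const, nsmul_eq_mul]
        _ ≤ ∑ y ∈ T1, (1 / (y.1 : ℝ)) * ‖newQ uL 0 N y.1 y.2‖ ^ 2 := by
            refine Finset.sum_le_sum fun y hy => ?_
            rw [hT1, Finset.mem_filter] at hy
            exact hy.2.le
        _ ≤ ∑ y ∈ (Icc 1 Q).sigma (fun q => range q), (1 / (y.1 : ℝ)) * ‖newQ uL 0 N y.1 y.2‖ ^ 2 := by
            refine Finset.sum_le_sum_of_subset_of_nonneg (Finset.filter_subset _ _)
              (fun _ _ _ => by positivity)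
        _ = ∑ q ∈ Icc 1 Q, (1 / (q : ℝ)) * ∑ c ∈ range q, ‖newQ uL 0 N q c‖ ^ 2 := by
            rw [Finset.sum_sigma]
            refine Finset.sum_congr rfl fun q _ => ?_
            rw [Finset.mul_sum]
        _ ≤ 42 * x ^ 2 * Real.log x := large_sieve_fixed x hx
    have hc1'' : (S1.card : ℝ) ≤ 168 * x * Real.log x / lam ^ 2 := by
      rw [le_div_iff₀ (by positivity)]
      have h1 : (S1.card : ℝ) * lam ^ 2 * (x / 4) ≤ 168 * x * Real.log x * (x / 4) := by
        calc (S1.card : ℝ) * lam ^ 2 * (x / 4) = (S1.card : ℝ) * (lam ^ 2 / 4 * x) := by ring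
          _ ≤ 42 * x ^ 2 * Real.log x := hc1
          _ = 168 * x * Real.log x * (x / 4) := by ring
      exact le_of_mul_le_mul_right h1 (by positivity)
    have h1 : ((excP x lam).ncard : ℝ) = S2.card + S1.card := by
      rw [hcard, hsplit]
      push_cast
      ring
    have h2 : Y ≤ 60 * x * Real.log x / lam ^ 2 := by
      rw [hY]
      have h3 : 36 * x ≤ 60 * x * Real.log x := by nlinarith
      exact div_le_div_of_nonneg_right h3 (by positivity)
    rw [h1]
    calc (S2.card : ℝ) + S1.card ≤ 60 * x * Real.log x / lam ^ 2 + 168 * x * Real.log x / lam ^ 2 := by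
          linarith
      _ = 228 * (x * Real.log x / lam ^ 2) := by ring
      _ ≤ 250 * (x * Real.log x / lam ^ 2) := by
          have : 0 ≤ x * Real.log x / lam ^ 2 := by positivity
          linarith
      _ = 250 * x * Real.log x / lam ^ 2 := by ring

end Pool.Agent.MC
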