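import Mathlib
import Pool.Agent.Lib.MP_9cfc0a_nt.L2

set_option autoImplicit false

namespace Pool.Agent.MC

open Complex MeasureTheory Set Filter Topology Asymptotics Metric

lemma frac_integrable (σ : ℝ) (hσ : 0 < σ) :
    IntegrableOn (fun t : ℝ => (t - (⌊t⌋₊ : ℝ)) * t ^ (-(σ + 1))) (Ioi 1) := by
  have h1 : IntegrableOn (fun t : ℝ => t ^ (-(σ + 1))) (Ioi 1) :=
    integrableOn_Ioi_rpow_of_lt (by linarith) one_pos
  refine Integrable.mono' h1 ?_ ?_
  · refine Measurable.aestronglyMeasurable ?_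
    refine (measurable_id.sub (measurable_from_nat.comp Nat.measurable_floor)).mul ?_
    exact Measurable.pow_const measurable_id _
  · filter_upwards [ae_restrict_mem measurableSet_Ioi] with t ht
    have ht1 : (1 : ℝ) < t := ht
    have ht0 : 0 ≤ t := by linarith
    have h2 := Nat.floor_le ht0
    have h3 := Nat.lt_floor_add_one t
    have h4 : 0 ≤ t ^ (-(σ + 1)) := by positivity
    rw [norm_mul, Real.norm_of_nonneg h4, Real.norm_of_nonneg (by linarith)]
    nlinarith

lemma frac_step (σ : ℝ) (hσ : 0 < σ) (k : ℕ) (hk : 1 ≤ k) :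
    ∫ t in (k : ℝ)..((k + 1 : ℕ) : ℝ), (t - (⌊t⌋₊ : ℝ)) * t ^ (-(σ + 1))
      ≤ ∫ t in (k : ℝ)..((k + 1 : ℕ) : ℝ), (1 / 2) * t ^ (-(σ + 1)) := by
  have hkR : (1 : ℝ) ≤ k := by exact_mod_cast hk
  have hle : (k : ℝ) ≤ ((k + 1 : ℕ) : ℝ) := by push_cast; linarith
  set m : ℝ := (k : ℝ) + 1 / 2 with hm
  have hm0 : 0 < m := by rw [hm]; linarith
  have hcont : ContinuousOn (fun t : ℝ => t ^ (-(σ + 1))) (uIcc (k : ℝ) ((k + 1 : ℕ) : ℝ)) := by
    intro t ht
    rw [uIcc_of_le hle] at ht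
    have : t ≠ 0 := by linarith [ht.1]
    exact (Real.continuousAt_rpow_const _ _ (Or.inl this)).continuousWithinAt
  have hi1 : IntervalIntegrable (fun t : ℝ => (1 / 2) * t ^ (-(σ + 1))) volume (k : ℝ) ((k + 1 : ℕ) : ℝ) :=
    (hcont.const_mul (1 / 2 : ℝ)).intervalIntegrable
  have hi2 : IntervalIntegrable (fun t : ℝ => (t - m) * m ^ (-(σ + 1))) volume (k : ℝ) ((k + 1 : ℕ) : ℝ) :=
    (Continuous.intervalIntegrable (by fun_prop) _ _)
  have hi3 : IntervalIntegrable (fun t : ℝ => (t - (⌊t⌋₊ : ℝ)) * t ^ (-(σ + 1))) volume (k : ℝ)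
      ((k + 1 : ℕ) : ℝ) := by
    rw [intervalIntegrable_iff_integrableOn_Ioc_of_le hle]
    refine (frac_integrable σ hσ).mono_set fun t ht => ?_
    exact lt_of_le_of_lt hkR ht.1
  have hzero : ∫ t in (k : ℝ)..((k + 1 : ℕ) : ℝ), (t - m) * m ^ (-(σ + 1)) = 0 := by
    rw [intervalIntegral.integral_mul_const, intervalIntegral.integral_sub (by simp) (by simp)]
    simp only [integral_id, intervalIntegral.integral_const, smul_eq_mul]
    push_cast
    rw [hm]
    ring
  calc ∫ t in (k : ℝ)..((k + 1 : ℕ) : ℝ), (t - (⌊t⌋₊ : ℝ)) * t ^ (-(σ + 1))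
      ≤ ∫ t in (k : ℝ)..((k + 1 : ℕ) : ℝ), ((1 / 2) * t ^ (-(σ + 1)) + (t - m) * m ^ (-(σ + 1))) := by
        refine intervalIntegral.integral_mono_on hle hi3 (hi1.add hi2) fun t ht => ?_
        have ht0 : 0 < t := by linarith [ht.1]
        have hp : 0 < t ^ (-(σ + 1)) := by positivity
        have hpm : 0 < m ^ (-(σ + 1)) := by positivity
        rcases ht.2.lt_or_eq with h | h
        · have hfl : ⌊t⌋₊ = k := by
            rw [Nat.floor_eq_iff ht0.le]
            push_cast at h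
            exact ⟨ht.1, h⟩
          rw [hfl]
          have h1 : (t - m) * t ^ (-(σ + 1)) ≤ (t - m) * m ^ (-(σ + 1)) := by
            rcases le_total t m with h2 | h2
            · have h3 : m ^ (-(σ + 1)) ≤ t ^ (-(σ + 1)) :=
                Real.rpow_le_rpow_of_nonpos ht0 h2 (by linarith)
              nlinarith
            · have h3 : t ^ (-(σ + 1)) ≤ m ^ (-(σ + 1)) :=
                Real.rpow_le_rpow_of_nonpos hm0 h2 (by linarith)
              nlinarith
          rw [hm] at h1 ⊢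
          nlinarith
        · have hfl : ⌊t⌋₊ = k + 1 := by rw [h, Nat.floor_natCast]
          rw [hfl, h, sub_self, zero_mul]
          have h2 : 0 ≤ ((k + 1 : ℕ) : ℝ) - m := by push_cast; rw [hm]; linarith
          positivity
    _ = _ := by
        rw [intervalIntegral.integral_add hi1 hi2, hzero, add_zero]

lemma frac_int (σ : ℝ) (hσ : 0 < σ) :
    ∫ t in Ioi (1 : ℝ), (t - (⌊t⌋₊ : ℝ)) * t ^ (-(σ + 1)) ≤ 1 / (2 * σ) := by
  have hI : IntegrableOn (fun t : ℝ => (1 / 2) * t ^ (-(σ + 1))) (Ioi 1) :=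
    (integrableOn_Ioi_rpow_of_lt (by linarith) one_pos).const_mul _
  have hval : ∫ t in Ioi (1 : ℝ), (1 / 2) * t ^ (-(σ + 1)) = 1 / (2 * σ) := by
    rw [integral_const_mul, integral_Ioi_rpow_of_lt (by linarith) one_pos, Real.one_rpow]
    have : -(σ + 1) + 1 ≠ 0 := by linarith
    field_simp
    ring
  rw [← hval]
  have ht : Tendsto (fun n : ℕ => ((n + 1 : ℕ) : ℝ)) atTop atTop :=
    tendsto_natCast_atTop_atTop.comp (tendsto_add_atTop_nat 1)
  refine le_of_tendsto_of_tendsto' (intervalIntegral_tendsto_integral_Ioi 1 (frac_integrable σ hσ) ht)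
    (intervalIntegral_tendsto_integral_Ioi 1 hI ht) fun n => ?_
  have hint : ∀ f : ℝ → ℝ, IntegrableOn f (Ioi 1) → ∀ a b : ℕ, 1 ≤ a → a ≤ b →
      IntervalIntegrable f volume (a : ℝ) (b : ℝ) := by
    intro f hf a b ha hab
    rw [intervalIntegrable_iff_integrableOn_Ioc_of_le (by exact_mod_cast hab)]
    refine hf.mono_set fun t ht => ?_
    have : (1 : ℝ) ≤ a := by exact_mod_cast ha
    exact lt_of_le_of_lt this ht.1
  induction n with
  | zero => simp
  | succ n ih =>
    have h1 := frac_step σ hσ (n + 1) (by omega)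
    have hc : (1 : ℝ) = ((1 : ℕ) : ℝ) := by norm_num
    have e1 := intervalIntegral.integral_add_adjacent_intervals (f := fun t : ℝ => (t - (⌊t⌋₊ : ℝ)) * t ^ (-(σ + 1)))
      (a := ((1 : ℕ) : ℝ)) (b := ((n + 1 : ℕ) : ℝ)) (c := ((n + 1 + 1 : ℕ) : ℝ)) (μ := volume)
      (hint _ (frac_integrable σ hσ) 1 (n + 1) le_rfl (by omega))
      (hint _ (frac_integrable σ hσ) (n + 1) (n + 1 + 1) (by omega) (by omega))
    have e2 := intervalIntegral.integral_add_adjacent_intervals (f := fun t : ℝ => (1 / 2) * t ^ (-(σ + 1)))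
      (a := ((1 : ℕ) : ℝ)) (b := ((n + 1 : ℕ) : ℝ)) (c := ((n + 1 + 1 : ℕ) : ℝ)) (μ := volume)
      (hint _ hI 1 (n + 1) le_rfl (by omega)) (hint _ hI (n + 1) (n + 1 + 1) (by omega) (by omega))
    rw [← hc] at e1 e2
    rw [← e1, ← e2]
    exact add_le_add ih h1

/-- a zero-free region near the real axis -/
lemma FF_ne_zero_of_near (s : ℂ) (hs : 0 < s.re) (hnear : ‖s - 1‖ < 2 * s.re) : FF 1 1 s ≠ 0 := by
  have hs0 : s ≠ 0 := by
    intro h
    rw [h] at hs
    simp at hs
  rw [FF_one_eq_MT 1 s hs, densC_one]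
  have h1 : ‖MT (RC 1 1) s‖ ≤ 1 / (2 * s.re) := by
    unfold MT
    refine (norm_integral_le_integral_norm _).trans ?_
    refine le_trans (le_of_eq ?_) (frac_int s.re hs)
    refine setIntegral_congr_fun measurableSet_Ioi fun t ht => ?_
    have ht1 : (1 : ℝ) < t := ht
    have ht0 : 0 < t := by linarith
    have h2 := Nat.floor_le ht0.le
    rw [norm_mul, RC_one, Complex.norm_real, Real.norm_eq_abs, abs_of_nonpos (by linarith),
      Complex.norm_cpow_eq_rpow_re_of_pos ht0]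
    simp only [Complex.neg_re, Complex.add_re, Complex.one_re]
    ring
  intro h
  have h2 : s * ((s - 1) * MT (RC 1 1) s + 1) = 0 := by
    linear_combination h
  rcases mul_eq_zero.mp h2 with h3 | h3
  · exact hs0 h3
  · have h4 : (s - 1) * MT (RC 1 1) s = -1 := by linear_combination h3
    have h5 : ‖(s - 1) * MT (RC 1 1) s‖ = 1 := by rw [h4]; simp
    rw [norm_mul] at h5
    have h6 : ‖s - 1‖ * ‖MT (RC 1 1) s‖ ≤ ‖s - 1‖ * (1 / (2 * s.re)) := by gcongr
    have h7 : ‖s - 1‖ * (1 / (2 * s.re)) < 1 := by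
      rw [mul_one_div, div_lt_one (by positivity)]
      exact hnear
    linarith

/-- the disc used for the Cauchy estimate -/
lemma disc_subset : closedBall (((15 / 2 : ℝ) : ℝ) : ℂ) (34 / 5) ⊆ {s : ℂ | FF 1 1 s ≠ 0 ∧ s ≠ 0} := by
  intro s hs
  rw [mem_closedBall, dist_eq_norm] at hs
  have h1 := (Complex.abs_re_le_norm _).trans hs
  rw [Complex.sub_re, Complex.ofReal_re, abs_le] at h1
  have hre : 7 / 10 ≤ s.re := by linarith [h1.1]
  have hs0 : s ≠ 0 := by
    intro h
    rw [h] at hre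
    simp at hre
    linarith
  refine ⟨?_, hs0⟩
  rcases lt_or_ge s.re 1 with h | h
  · refine FF_ne_zero_of_near s (by linarith) ?_
    have h2 : ‖s - (((15 / 2 : ℝ) : ℝ) : ℂ)‖ ^ 2 ≤ (34 / 5) ^ 2 := by gcongr
    rw [← Complex.normSq_eq_norm_sq, Complex.normSq_apply] at h2
    simp only [Complex.sub_re, Complex.sub_im, Complex.ofReal_re, Complex.ofReal_im, sub_zero] at h2
    have h3 : ‖s - 1‖ ^ 2 < (2 * s.re) ^ 2 := by
      rw [← Complex.normSq_eq_norm_sq, Complex.normSq_apply]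
      simp only [Complex.sub_re, Complex.sub_im, Complex.one_re, Complex.one_im, sub_zero]
      nlinarith [mul_pos (show 0 < 1 - s.re by linarith) (show 0 < 9 - 4 * s.re by linarith)]
    exact lt_of_pow_lt_pow_left₀ 2 (by linarith) h3
  · rcases eq_or_ne s 1 with h2 | h2
    · rw [h2, FF_one]
      exact DirichletCharacter.LFunctionTrivChar₁_apply_one_ne_zero 1
    · rw [FF_one_apply 1 s h2]
      refine mul_ne_zero (sub_ne_zero.mpr h2) ?_
      exact DirichletCharacter.LFunction_ne_zero_of_one_le_re 1 (.inr h2) h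

end Pool.Agent.MC
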