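import Mathlib
import Pool.Agent.Lib.MP_9cfc0a_nt.L4

set_option autoImplicit false

namespace Pool.Agent.MC

open Complex MeasureTheory Set Filter Topology Asymptotics Metric

/-- the kernel of the `n`-th derivative of the transform -/
noncomputable def gker (e : ℝ) (n : ℕ) (t : ℝ) : ℝ :=
  e * (psiR t 1 1 - t) * (Real.log t) ^ n * t ^ (-(17 / 2) : ℝ)

lemma EC_Gr : Gr (EC 1 1) := by
  refine Gr_of_linear _ 7 (by norm_num) (EC_measurable 1 1) fun t ht => ?_
  have h1 := EC_bound 1 1 one_pos t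
  rwa [abs_of_pos (by linarith)] at h1

/-- Cauchy's estimate for the moments -/
lemma cauchy_GG : ∃ M : ℝ, 0 ≤ M ∧ ∀ n : ℕ,
    ‖iteratedDeriv n GG (((15 / 2 : ℝ) : ℝ) : ℂ)‖ ≤ n.factorial * M / (34 / 5) ^ n := by
  have hdiff : DifferentiableOn ℂ GG (closedBall (((15 / 2 : ℝ) : ℝ) : ℂ) (34 / 5)) :=
    GG_differentiableOn.mono disc_subset
  obtain ⟨B, hB⟩ := (isCompact_closedBall (((15 / 2 : ℝ) : ℝ) : ℂ) (34 / 5)).exists_bound_of_continuousOn
    hdiff.continuousOn
  refine ⟨max B 0, le_max_right _ _, fun n => ?_⟩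
  refine Complex.norm_iteratedDeriv_le_of_forall_mem_sphere_norm_le n (by norm_num)
    (DifferentiableOn.diffContOnCl_ball GG_differentiableOn disc_subset) fun z hz => ?_
  exact (hB z (sphere_subset_closedBall hz)).trans (le_max_left _ _)

lemma gker_integrable (e : ℝ) (n : ℕ) : IntegrableOn (gker e n) (Ioi 1) := by
  have h1 := Gr_iter (EC 1 1) EC_Gr n
  obtain ⟨C, hC⟩ := h1.2 2 (by norm_num)
  have h2 := MT_integrable _ C 2 h1.1 hC (((15 / 2 : ℝ) : ℝ) : ℂ) (by
    rw [Complex.ofReal_re]; norm_num)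
  have h3 := h2.norm
  have hm : AEStronglyMeasurable (gker e n) (volume.restrict (Ioi (1 : ℝ))) := by
    refine Measurable.aestronglyMeasurable ?_
    unfold gker
    refine ((((psiR_measurable 1 1).sub measurable_id).const_mul e).mul
      (Real.measurable_log.pow_const n)).mul ?_
    exact Measurable.pow_const measurable_id _
  refine Integrable.mono' (h3.const_mul |e|) hm ?_
  filter_upwards [ae_restrict_mem measurableSet_Ioi] with t ht
  have ht1 : (1 : ℝ) < t := ht
  have ht0 : 0 < t := by linarith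
  have hlog : 0 ≤ Real.log t := Real.log_nonneg ht1.le
  unfold gker EC
  rw [norm_mul, norm_mul, norm_mul, norm_mul, norm_mul, norm_pow, norm_pow, norm_neg,
    Complex.norm_real, Complex.norm_real, Complex.norm_cpow_eq_rpow_re_of_pos ht0,
    Nat.totient_one, Nat.cast_one, div_one, Real.norm_eq_abs e,
    Real.norm_of_nonneg (show 0 ≤ t ^ (-(17 / 2) : ℝ) by positivity)]
  have h4 : (-((((15 / 2 : ℝ) : ℝ) : ℂ) + 1)).re = -(17 / 2) := by
    simp only [Complex.neg_re, Complex.add_re, Complex.ofReal_re, Complex.one_re]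
    norm_num
  rw [h4]
  apply le_of_eq
  ring

lemma gker_int_norm (e : ℝ) (he : e = 1 ∨ e = -1) (n : ℕ) :
    |∫ t in Ioi (1 : ℝ), gker e n t| = ‖iteratedDeriv n GG (((15 / 2 : ℝ) : ℝ) : ℂ)‖ := by
  have he1 : |e| = 1 := by rcases he with h | h <;> rw [h] <;> simp
  have hopen : IsOpen {z : ℂ | 1 < z.re} := isOpen_lt continuous_const Complex.continuous_re
  have hc1 : 1 < ((((15 / 2 : ℝ) : ℝ) : ℂ)).re := by rw [Complex.ofReal_re]; norm_num
  have h1 : GG =ᶠ[𝓝 (((15 / 2 : ℝ) : ℝ) : ℂ)] MT (EC 1 1) :=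
    Filter.eventually_of_mem (hopen.mem_nhds hc1) fun z hz => (GG_eq z hz).symm
  rw [h1.iteratedDeriv_eq, iteratedDeriv_MT _ EC_Gr n _ hc1]
  have h2 : MT (fun t => (-((Real.log t : ℝ) : ℂ)) ^ n * EC 1 1 t) (((15 / 2 : ℝ) : ℝ) : ℂ)
      = (-1) ^ n * ((∫ t in Ioi (1 : ℝ), gker 1 n t : ℝ) : ℂ) := by
    rw [← integral_complex_ofReal, ← integral_const_mul]
    unfold MT
    refine setIntegral_congr_fun measurableSet_Ioi fun t ht => ?_
    have ht1 : (1 : ℝ) < t := ht
    have ht0 : 0 ≤ t := by linarith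
    have h3 : (t : ℂ) ^ (-((((15 / 2 : ℝ) : ℝ) : ℂ) + 1)) = ((t ^ (-(17 / 2) : ℝ) : ℝ) : ℂ) := by
      rw [Complex.ofReal_cpow ht0]
      congr 1
      push_cast
      ring
    rw [h3]
    unfold gker EC
    simp only [Nat.totient_one, Nat.cast_one, div_one]
    rw [neg_pow ((Real.log t : ℝ) : ℂ) n]
    push_cast
    ring
  rw [h2, norm_mul, norm_pow, norm_neg, norm_one, one_pow, one_mul, Complex.norm_real,
    Real.norm_eq_abs]
  have h4 : ∫ t in Ioi (1 : ℝ), gker e n t = e * ∫ t in Ioi (1 : ℝ), gker 1 n t := by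
    rw [← integral_const_mul]
    congr 1
    ext t
    unfold gker
    ring
  rw [h4, abs_mul, he1, one_mul]

lemma log_pow_le (θ : ℝ) (hθ : 0 < θ) (n : ℕ) (t : ℝ) (ht : 1 ≤ t) :
    (Real.log t) ^ n ≤ (n / (Real.exp 1 * θ)) ^ n * t ^ θ := by
  have hlog : 0 ≤ Real.log t := Real.log_nonneg ht
  rcases Nat.eq_zero_or_pos n with h0 | h0
  · subst h0
    simp only [pow_zero, one_mul]
    exact Real.one_le_rpow ht hθ.le
  · have hn : (0 : ℝ) < n := by exact_mod_cast h0
    have h1 : θ * Real.log t / n ≤ Real.exp (θ * Real.log t / n - 1) := by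
      have := Real.add_one_le_exp (θ * Real.log t / n - 1)
      linarith
    have h2 : Real.log t ≤ n / (Real.exp 1 * θ) * Real.exp (θ * Real.log t / n) := by
      rw [Real.exp_sub, div_le_div_iff₀ hn (Real.exp_pos _)] at h1
      rw [div_mul_eq_mul_div, le_div_iff₀ (by positivity)]
      nlinarith [Real.exp_pos 1]
    calc (Real.log t) ^ n ≤ (n / (Real.exp 1 * θ) * Real.exp (θ * Real.log t / n)) ^ n := by gcongr
      _ = (n / (Real.exp 1 * θ)) ^ n * t ^ θ := by
          rw [mul_pow, ← Real.exp_nat_mul, Real.rpow_def_of_pos (by linarith)]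
          congr 2
          field_simp

lemma fact_le (n : ℕ) (hn : 1 ≤ n) :
    (n.factorial : ℝ) ≤ Real.exp 1 * n * (n / Real.exp 1) ^ n := by
  induction n, hn using Nat.le_induction with
  | base => simp
  | succ k hk ih =>
    have hk0 : (0 : ℝ) < k := by exact_mod_cast hk
    have he := Real.exp_pos 1
    have h1 : ((k : ℝ) / (k + 1)) ^ (k + 1) ≤ Real.exp (-1) := by
      have h2 : (k : ℝ) / (k + 1) ≤ Real.exp (-(1 / ((k : ℝ) + 1))) := by
        have := Real.add_one_le_exp (-(1 / ((k : ℝ) + 1)))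
        have h3 : (k : ℝ) / (k + 1) = -(1 / ((k : ℝ) + 1)) + 1 := by field_simp; ring
        linarith
      calc ((k : ℝ) / (k + 1)) ^ (k + 1) ≤ (Real.exp (-(1 / ((k : ℝ) + 1)))) ^ (k + 1) := by gcongr
        _ = Real.exp (-1) := by
            rw [← Real.exp_nat_mul]
            congr 1
            push_cast
            field_simp
    have h4 : (k : ℝ) ^ (k + 1) * Real.exp 1 ≤ ((k : ℝ) + 1) ^ (k + 1) := by
      rw [div_pow, div_le_iff₀ (by positivity)] at h1
      calc (k : ℝ) ^ (k + 1) * Real.exp 1 ≤ (Real.exp (-1) * ((k : ℝ) + 1) ^ (k + 1)) * Real.exp 1 := by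
            gcongr
        _ = ((k : ℝ) + 1) ^ (k + 1) := by
            rw [Real.exp_neg]
            field_simp
    rw [Nat.factorial_succ]
    push_cast
    have h5 : Real.exp 1 * k * (k / Real.exp 1) ^ k = (k : ℝ) ^ (k + 1) * Real.exp 1 / (Real.exp 1) ^ k := by
      rw [div_pow, pow_succ]
      ring
    have h6 : Real.exp 1 * ((k : ℝ) + 1) * (((k : ℝ) + 1) / Real.exp 1) ^ (k + 1)
        = ((k : ℝ) + 1) * (((k : ℝ) + 1) ^ (k + 1) / (Real.exp 1) ^ k) := by
      rw [div_pow, pow_succ (Real.exp 1)]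
      field_simp
    rw [h6]
    rw [h5] at ih
    calc ((k : ℝ) + 1) * (k.factorial : ℝ) ≤ ((k : ℝ) + 1) * ((k : ℝ) ^ (k + 1) * Real.exp 1 / (Real.exp 1) ^ k) := by
          gcongr
      _ ≤ ((k : ℝ) + 1) * (((k : ℝ) + 1) ^ (k + 1) / (Real.exp 1) ^ k) := by gcongr

/-- lower bound for the moment when the sign is constant on `[X, Y]` -/
lemma moment_lower (e : ℝ) (he : e = 1 ∨ e = -1) (n : ℕ) (X Y : ℝ) (hX : 1 ≤ X) (hXY : X ≤ Y)
    (hpos : ∀ t : ℝ, X ≤ t → t ≤ Y → t ^ (3 / 4 : ℝ) ≤ e * (psiR t 1 1 - t))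
    (hJ1 : X ≤ Real.exp (n / (27 / 4))) (hJ2 : Real.exp (n / (27 / 4) + 1) ≤ Y) :
    (n / (27 / 4) : ℝ) ^ n * (4 / 27 * (Real.exp (-n) * (1 - Real.exp (-(27 / 4)))))
      - 7 * (n / (Real.exp 1 * (49 / 5))) ^ n * (10 / 33 * X ^ (33 / 10 : ℝ))
      - 7 * (n / (Real.exp 1 * (49 / 10))) ^ n * (5 / 8 * Y ^ (-(8 / 5) : ℝ))
      ≤ ∫ t in Ioi (1 : ℝ), gker e n t := by
  have he1 : |e| = 1 := by rcases he with h | h <;> rw [h] <;> simp
  have hX0 : 0 < X := by linarith
  have hY0 : 0 < Y := by linarith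
  set u : ℝ := Real.exp (n / (27 / 4)) with hu
  set v : ℝ := Real.exp (n / (27 / 4) + 1) with hv
  have hu0 : 0 < u := Real.exp_pos _
  have huv : u ≤ v := Real.exp_le_exp.mpr (by linarith)
  have hu1 : 1 ≤ u := hX.trans hJ1
  set f1 : ℝ → ℝ := fun t => (n / (27 / 4) : ℝ) ^ n * t ^ (-(31 / 4) : ℝ) with hf1
  set f2 : ℝ → ℝ := fun t => 7 * (n / (Real.exp 1 * (49 / 5))) ^ n * t ^ (23 / 10 : ℝ) with hf2
  set f3 : ℝ → ℝ := fun t => 7 * (n / (Real.exp 1 * (49 / 10))) ^ n * t ^ (-(13 / 5) : ℝ) with hf3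
  have hcont : ∀ (r : ℝ) (a b : ℝ), 0 < a → a ≤ b → IntegrableOn (fun t : ℝ => t ^ r) (Ioc a b) := by
    intro r a b ha hab
    rw [← intervalIntegrable_iff_integrableOn_Ioc_of_le hab]
    refine ContinuousOn.intervalIntegrable fun t ht => ?_
    rw [uIcc_of_le hab] at ht
    have : t ≠ 0 := by linarith [ht.1]
    exact (Real.continuousAt_rpow_const _ _ (Or.inl this)).continuousWithinAt
  -- integrability
  have hI1 : IntegrableOn f1 (Ioc u v) := (hcont _ u v hu0 huv).const_mul _
  have hI2 : IntegrableOn f2 (Ioc 1 X) := (hcont _ 1 X one_pos hX).const_mul _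
  have hI3 : IntegrableOn f3 (Ioi Y) := (integrableOn_Ioi_rpow_of_lt (by norm_num) hY0).const_mul _
  -- the values
  have hv1 : ∫ t in Ioc u v, f1 t = (n / (27 / 4) : ℝ) ^ n * (4 / 27 * (Real.exp (-n) *
      (1 - Real.exp (-(27 / 4))))) := by
    rw [hf1, integral_const_mul, ← intervalIntegral.integral_of_le huv, integral_rpow (by
      right
      refine ⟨by norm_num, ?_⟩
      rw [uIcc_of_le huv]
      intro h
      linarith [h.1])]
    have e1 : u ^ (-(31 / 4) + 1 : ℝ) = Real.exp (-n) := by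
      rw [hu, ← Real.exp_mul]
      congr 1
      ring
    have e2 : v ^ (-(31 / 4) + 1 : ℝ) = Real.exp (-n) * Real.exp (-(27 / 4)) := by
      rw [hv, ← Real.exp_mul, ← Real.exp_add]
      congr 1
      ring
    rw [e1, e2]
    ring
  have hv2 : ∫ t in Ioc 1 X, f2 t ≤ 7 * (n / (Real.exp 1 * (49 / 5))) ^ n * (10 / 33 * X ^ (33 / 10 : ℝ)) := by
    rw [hf2, integral_const_mul, ← intervalIntegral.integral_of_le hX, integral_rpow (by
      left; norm_num)]
    gcongr
    rw [Real.one_rpow, show (23 / 10 + 1 : ℝ) = 33 / 10 by norm_num]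
    linarith
  have hv3 : ∫ t in Ioi Y, f3 t = 7 * (n / (Real.exp 1 * (49 / 10))) ^ n * (5 / 8 * Y ^ (-(8 / 5) : ℝ)) := by
    rw [hf3, integral_const_mul, integral_Ioi_rpow_of_lt (by norm_num) hY0,
      show (-(13 / 5) + 1 : ℝ) = -(8 / 5) by norm_num]
    ring
  -- sets
  have hs1 : Ioi (1 : ℝ) ∩ Ioc u v = Ioc u v := by
    rw [inter_eq_right]
    intro t ht
    exact lt_of_le_of_lt hu1 ht.1
  have hs2 : Ioi (1 : ℝ) ∩ Iic X = Ioc 1 X := Ioi_inter_Iic
  have hs3 : Ioi (1 : ℝ) ∩ Ioi Y = Ioi Y := by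
    rw [inter_eq_right]
    intro t ht
    have : (1 : ℝ) ≤ Y := by linarith
    exact lt_of_le_of_lt this ht
  have i1 : IntegrableOn (indicator (Ioc u v) f1) (Ioi 1) := by
    rw [IntegrableOn, integrable_indicator_iff measurableSet_Ioc, IntegrableOn,
      Measure.restrict_restrict measurableSet_Ioc, inter_comm, hs1]
    exact hI1
  have i2 : IntegrableOn (indicator (Iic X) f2) (Ioi 1) := by
    rw [IntegrableOn, integrable_indicator_iff measurableSet_Iic, IntegrableOn,
      Measure.restrict_restrict measurableSet_Iic, inter_comm, hs2]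
    exact hI2
  have i3 : IntegrableOn (indicator (Ioi Y) f3) (Ioi 1) := by
    rw [IntegrableOn, integrable_indicator_iff measurableSet_Ioi, IntegrableOn,
      Measure.restrict_restrict measurableSet_Ioi, inter_comm, hs3]
    exact hI3
  have key : ∫ t in Ioi (1 : ℝ), (indicator (Ioc u v) f1 t - indicator (Iic X) f2 t
      - indicator (Ioi Y) f3 t) ≤ ∫ t in Ioi (1 : ℝ), gker e n t := by
    refine setIntegral_mono_on ((i1.sub i2).sub i3) (gker_integrable e n) measurableSet_Ioi
      fun t ht => ?_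
    have ht1 : (1 : ℝ) < t := ht
    have ht0 : 0 < t := by linarith
    have hlog : 0 ≤ Real.log t := Real.log_nonneg ht1.le
    have hpw : 0 < t ^ (-(17 / 2) : ℝ) := by positivity
    have habs : |e * (psiR t 1 1 - t)| ≤ 7 * t := by
      rw [abs_mul, he1, one_mul]
      have h1 := EC_bound 1 1 one_pos t
      unfold EC at h1
      rwa [Complex.norm_real, Real.norm_eq_abs, Nat.totient_one, Nat.cast_one, div_one,
        abs_of_pos ht0] at h1
    have hlow : - (7 * t * (Real.log t) ^ n * t ^ (-(17 / 2) : ℝ)) ≤ gker e n t := by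
      unfold gker
      have h1 := (abs_le.mp habs).1
      have h2 : 0 ≤ (Real.log t) ^ n * t ^ (-(17 / 2) : ℝ) := by positivity
      have h3 := mul_le_mul_of_nonneg_right h1 h2
      calc - (7 * t * (Real.log t) ^ n * t ^ (-(17 / 2) : ℝ))
          = -(7 * t) * ((Real.log t) ^ n * t ^ (-(17 / 2) : ℝ)) := by ring
        _ ≤ e * (psiR t 1 1 - t) * ((Real.log t) ^ n * t ^ (-(17 / 2) : ℝ)) := h3
        _ = _ := by ring
    rcases lt_or_ge t X with h | h
    · -- below the window
      have n1 : t ∉ Ioc u v := fun h' => by linarith [h'.1]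
      have n3 : t ∉ Ioi Y := fun h' => by
        have : Y < t := h'
        linarith
      rw [indicator_of_notMem n1, indicator_of_mem (mem_Iic.mpr h.le), indicator_of_notMem n3]
      refine le_trans ?_ hlow
      have h1 := log_pow_le (49 / 5) (by norm_num) n t ht1.le
      have h2 : 7 * t * (Real.log t) ^ n * t ^ (-(17 / 2) : ℝ) ≤ f2 t := by
        calc 7 * t * (Real.log t) ^ n * t ^ (-(17 / 2) : ℝ)
            ≤ 7 * t * ((n / (Real.exp 1 * (49 / 5))) ^ n * t ^ (49 / 5 : ℝ)) * t ^ (-(17 / 2) : ℝ) := by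
              gcongr
          _ = 7 * (n / (Real.exp 1 * (49 / 5))) ^ n * (t ^ (1 : ℝ) * t ^ (49 / 5 : ℝ) *
                t ^ (-(17 / 2) : ℝ)) := by rw [Real.rpow_one]; ring
          _ = f2 t := by
              rw [hf2, ← Real.rpow_add ht0, ← Real.rpow_add ht0]
              congr 2
              norm_num
      linarith
    · rcases le_or_gt t Y with h' | h'
      · -- inside
        have hp := hpos t h h'
        have n3 : t ∉ Ioi Y := fun h'' => by
          have : Y < t := h''
          linarith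
        rw [indicator_of_notMem n3]
        have hg : t ^ (3 / 4 : ℝ) * (Real.log t) ^ n * t ^ (-(17 / 2) : ℝ) ≤ gker e n t := by
          unfold gker
          gcongr
        have hf20 : 0 ≤ indicator (Iic X) f2 t := by
          apply indicator_nonneg
          intro y hy
          rw [hf2]
          by_cases hy0 : 0 ≤ y
          · positivity
          · have : 0 ≤ y ^ (23 / 10 : ℝ) := by
              push Not at hy0
              rw [Real.rpow_def_of_neg hy0]
              have hc : 0 ≤ Real.cos (23 / 10 * Real.pi) := by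
                rw [show (23 / 10 : ℝ) * Real.pi = 3 / 10 * Real.pi + 2 * Real.pi by ring,
                  Real.cos_add_two_pi]
                apply Real.cos_nonneg_of_mem_Icc
                constructor <;> nlinarith [Real.pi_pos]
              positivity
            positivity
        by_cases hJ : t ∈ Ioc u v
        · rw [indicator_of_mem hJ]
          have hl : (n / (27 / 4) : ℝ) ≤ Real.log t := by
            rw [Real.le_log_iff_exp_le ht0]
            exact hJ.1.le
          have h5 : f1 t ≤ t ^ (3 / 4 : ℝ) * (Real.log t) ^ n * t ^ (-(17 / 2) : ℝ) := by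
            calc f1 t = (n / (27 / 4) : ℝ) ^ n * (t ^ (3 / 4 : ℝ) * t ^ (-(17 / 2) : ℝ)) := by
                  rw [hf1, ← Real.rpow_add ht0]
                  congr 2
                  norm_num
              _ ≤ (Real.log t) ^ n * (t ^ (3 / 4 : ℝ) * t ^ (-(17 / 2) : ℝ)) := by gcongr
              _ = _ := by ring
          linarith
        · rw [indicator_of_notMem hJ]
          have h6 : 0 ≤ t ^ (3 / 4 : ℝ) * (Real.log t) ^ n * t ^ (-(17 / 2) : ℝ) := by positivity
          linarith
      · -- above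
        have n1 : t ∉ Ioc u v := fun h'' => by linarith [h''.2]
        rw [indicator_of_notMem n1, indicator_of_mem (mem_Ioi.mpr h')]
        have hX' : indicator (Iic X) f2 t = 0 := by
          rw [indicator_of_notMem]
          intro h''
          have : t ≤ X := h''
          linarith
        rw [hX']
        refine le_trans ?_ hlow
        have h1 := log_pow_le (49 / 10) (by norm_num) n t ht1.le
        have h2 : 7 * t * (Real.log t) ^ n * t ^ (-(17 / 2) : ℝ) ≤ f3 t := by
          calc 7 * t * (Real.log t) ^ n * t ^ (-(17 / 2) : ℝ)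
              ≤ 7 * t * ((n / (Real.exp 1 * (49 / 10))) ^ n * t ^ (49 / 10 : ℝ)) * t ^ (-(17 / 2) : ℝ) := by
                gcongr
            _ = 7 * (n / (Real.exp 1 * (49 / 10))) ^ n * (t ^ (1 : ℝ) * t ^ (49 / 10 : ℝ) *
                  t ^ (-(17 / 2) : ℝ)) := by rw [Real.rpow_one]; ring
            _ = f3 t := by
                rw [hf3, ← Real.rpow_add ht0, ← Real.rpow_add ht0]
                congr 2
                norm_num
        linarith
  have hsplit : ∫ t in Ioi (1 : ℝ), (indicator (Ioc u v) f1 t - indicator (Iic X) f2 t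
      - indicator (Ioi Y) f3 t) = (∫ t in Ioc u v, f1 t) - (∫ t in Ioc 1 X, f2 t)
        - ∫ t in Ioi Y, f3 t := by
    have i12 : IntegrableOn (fun t => indicator (Ioc u v) f1 t - indicator (Iic X) f2 t) (Ioi 1) :=
      i1.sub i2
    rw [integral_sub i12 i3, integral_sub i1 i2, setIntegral_indicator measurableSet_Ioc,
      setIntegral_indicator measurableSet_Iic, setIntegral_indicator measurableSet_Ioi, hs1, hs2, hs3]
  rw [hsplit, hv1, hv3] at key
  linarith

end Pool.Agent.MC
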