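import Mathlib
import Pool.Agent.Lib.MP_9cfc0a_nt.L5

set_option autoImplicit false

namespace Pool.Agent.MC

open Complex MeasureTheory Set Filter Topology Asymptotics Metric

lemma jump_le (u v : ℝ) (hu : 1 ≤ u) (huv : u ≤ v) (hv : v ≤ u + 1) :
    psiR v 1 1 - psiR u 1 1 ≤ Real.log v := by
  have hu0 : 0 ≤ u := by linarith
  have hv0 : 0 ≤ v := by linarith
  have hlog : 0 ≤ Real.log v := Real.log_nonneg (by linarith)
  have h1 : ⌊u⌋₊ ≤ ⌊v⌋₊ := Nat.floor_le_floor huv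
  have h2 : ⌊v⌋₊ ≤ ⌊u⌋₊ + 1 := by
    rw [← Nat.floor_add_one hu0]
    exact Nat.floor_le_floor hv
  have hpsi : ∀ x : ℝ, psiR x 1 1 = ∑ n ∈ Finset.Icc 1 ⌊x⌋₊, ArithmeticFunction.vonMangoldt n := by
    intro x
    unfold psiR
    congr 1
    rw [Finset.filter_eq_self]
    intro n _
    rw [Nat.mod_one, Nat.mod_one]
  rw [hpsi, hpsi]
  rcases Nat.lt_or_ge ⌊u⌋₊ ⌊v⌋₊ with h3 | h3
  · have h4 : ⌊v⌋₊ = ⌊u⌋₊ + 1 := by omega
    rw [h4, Finset.sum_Icc_succ_top (by omega)]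
    have h5 : (ArithmeticFunction.vonMangoldt (⌊u⌋₊ + 1) : ℝ) ≤ Real.log ((⌊u⌋₊ + 1 : ℕ) : ℝ) :=
      ArithmeticFunction.vonMangoldt_le_log
    have h6 : Real.log ((⌊u⌋₊ + 1 : ℕ) : ℝ) ≤ Real.log v := by
      rw [← h4]
      have h7 : (0 : ℝ) < ((⌊v⌋₊ : ℕ) : ℝ) := by
        have : 0 < ⌊v⌋₊ := by omega
        exact_mod_cast this
      exact Real.log_le_log h7 (Nat.floor_le hv0)
    linarith
  · have h4 : ⌊v⌋₊ = ⌊u⌋₊ := by omega
    rw [h4, sub_self]
    exact hlog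

lemma log_le_pow (t : ℝ) (ht : 1 ≤ t) : Real.log t ≤ t ^ (3 / 4 : ℝ) := by
  have ht0 : 0 < t := by linarith
  have h1 := Real.add_one_le_exp (3 / 4 * Real.log t - 1)
  have h2 : Real.exp (3 / 4 * Real.log t - 1) = t ^ (3 / 4 : ℝ) / Real.exp 1 := by
    rw [Real.exp_sub, Real.rpow_def_of_pos ht0, mul_comm (Real.log t)]
  rw [h2] at h1
  have h3 : 3 / 4 * Real.log t ≤ t ^ (3 / 4 : ℝ) / Real.exp 1 := by linarith
  rw [le_div_iff₀ (Real.exp_pos 1)] at h3
  have h4 := Real.exp_one_gt_d9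
  have hlog : 0 ≤ Real.log t := Real.log_nonneg ht
  nlinarith

lemma sign_const (X : ℝ) (hX : 1 ≤ X)
    (h : ∀ t : ℝ, X ≤ t → t ≤ X ^ 2 → t ^ (3 / 4 : ℝ) < |psiR t 1 1 - t|) :
    ∃ e : ℝ, (e = 1 ∨ e = -1) ∧ ∀ t : ℝ, X ≤ t → t ≤ X ^ 2 →
      t ^ (3 / 4 : ℝ) ≤ e * (psiR t 1 1 - t) := by
  have hXX : X ≤ X ^ 2 := by nlinarith
  have hstart : ∃ e : ℝ, (e = 1 ∨ e = -1) ∧ 0 < e * (psiR X 1 1 - X) := by
    have h1 := h X le_rfl hXX
    have h2 : 0 < X ^ (3 / 4 : ℝ) := by positivity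
    rcases lt_trichotomy (psiR X 1 1 - X) 0 with h3 | h3 | h3
    · exact ⟨-1, Or.inr rfl, by linarith⟩
    · rw [h3, abs_zero] at h1; linarith
    · exact ⟨1, Or.inl rfl, by linarith⟩
  obtain ⟨e, he, hstart⟩ := hstart
  have hpos_imp : ∀ t : ℝ, X ≤ t → t ≤ X ^ 2 → 0 < e * (psiR t 1 1 - t) →
      t ^ (3 / 4 : ℝ) < e * (psiR t 1 1 - t) := by
    intro t h1 h2 h3
    have h4 := h t h1 h2
    have h5 : |psiR t 1 1 - t| = e * (psiR t 1 1 - t) := by
      rcases he with he | he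
      · rw [he] at h3 ⊢
        rw [abs_of_pos (by linarith), one_mul]
      · rw [he] at h3 ⊢
        rw [abs_of_neg (by linarith)]
        ring
    rwa [h5] at h4
  have hneg_imp : ∀ t : ℝ, X ≤ t → t ≤ X ^ 2 → e * (psiR t 1 1 - t) ≤ 0 →
      t ^ (3 / 4 : ℝ) < -(e * (psiR t 1 1 - t)) := by
    intro t h1 h2 h3
    have h4 := h t h1 h2
    have h5 : |psiR t 1 1 - t| = -(e * (psiR t 1 1 - t)) := by
      rcases he with he | he
      · rw [he] at h3 ⊢
        rw [abs_of_nonpos (by linarith), one_mul]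
      · rw [he] at h3 ⊢
        rw [abs_of_nonneg (by linarith)]
        ring
    rwa [h5] at h4
  have key : ∀ n : ℕ, ∀ t : ℝ, X ≤ t → t ≤ X ^ 2 → t ≤ X + n → 0 < e * (psiR t 1 1 - t) := by
    intro n
    induction n with
    | zero =>
      intro t h1 _ h3
      have : t = X := by push_cast at h3; linarith
      rw [this]
      exact hstart
    | succ n ih =>
      intro t h1 h2 h3
      set u : ℝ := max X (t - 1) with hu
      have hu1 : X ≤ u := le_max_left _ _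
      have hu2 : u ≤ t := max_le h1 (by linarith)
      have hu3 : t ≤ u + 1 := by
        have := le_max_right X (t - 1)
        rw [← hu] at this
        linarith
      have hn0 : (0 : ℝ) ≤ n := Nat.cast_nonneg n
      have hu4 : u ≤ X + n := by
        apply max_le
        · linarith
        · push_cast at h3; linarith
      have h4 := ih u hu1 (hu2.trans h2) hu4
      have h5 := hpos_imp u hu1 (hu2.trans h2) h4
      by_contra hcon
      push Not at hcon
      have h6 := hneg_imp t h1 h2 hcon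
      have h7 := jump_le u t (hX.trans hu1) hu2 hu3
      have h8 := psiR_mono 1 1 u t hu2
      have h9 := log_le_pow t (hX.trans h1)
      have h10 : 1 ≤ u ^ (3 / 4 : ℝ) := Real.one_le_rpow (hX.trans hu1) (by norm_num)
      rcases he with he | he
      · rw [he] at h5 h6
        linarith
      · rw [he] at h5 h6
        linarith
  refine ⟨e, he, fun t h1 h2 => ?_⟩
  obtain ⟨n, hn⟩ := exists_nat_ge (t - X)
  exact (hpos_imp t h1 h2 (key n t h1 h2 (by linarith))).le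

/-- The asymptotic comparison. -/
lemma growth (M : ℝ) : ∃ X₀ : ℝ, 1 ≤ X₀ ∧ ∀ X : ℝ, X₀ ≤ X → ∃ n : ℕ, 1 ≤ n ∧
    X ≤ Real.exp (n / (27 / 4)) ∧ Real.exp (n / (27 / 4) + 1) ≤ X ^ 2 ∧
    Real.exp 1 * n * M * (135 / 136) ^ n + 70 / 33 * ((135 / 196) ^ n * X ^ (33 / 10 : ℝ))
      + 35 / 8 * ((135 / 98) ^ n * (X ^ 2) ^ (-(8 / 5) : ℝ))
      < 4 / 27 * (1 - Real.exp (-(27 / 4))) := by
  have hpos : 0 < 4 / 27 * (1 - Real.exp (-(27 / 4))) := by
    have : Real.exp (-(27 / 4)) < 1 := by rw [Real.exp_lt_one_iff]; norm_num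
    linarith
  set N : ℝ → ℕ := fun X => ⌈49 / 5 * Real.log X⌉₊ with hN
  have hNt : Tendsto N atTop atTop :=
    tendsto_nat_ceil_atTop.comp (Real.tendsto_log_atTop.const_mul_atTop (by norm_num))
  have t1 : Tendsto (fun X : ℝ => ((N X : ℕ) : ℝ) * (135 / 136 : ℝ) ^ (N X)) atTop (𝓝 0) :=
    (tendsto_self_mul_const_pow_of_lt_one (by norm_num) (by norm_num)).comp hNt
  have t2 : Tendsto (fun X : ℝ => X ^ (-(4 / 125) : ℝ)) atTop (𝓝 0) :=
    tendsto_rpow_neg_atTop (by norm_num)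
  have t3 : Tendsto (fun X : ℝ => X ^ (-(3 / 200) : ℝ)) atTop (𝓝 0) :=
    tendsto_rpow_neg_atTop (by norm_num)
  have t4 : Tendsto (fun X : ℝ => Real.exp 1 * M * (((N X : ℕ) : ℝ) * (135 / 136 : ℝ) ^ (N X))
      + 70 / 33 * X ^ (-(4 / 125) : ℝ) + 35 / 8 * Real.exp (13 / 40) * X ^ (-(3 / 200) : ℝ)) atTop (𝓝 0) := by
    have := ((t1.const_mul (Real.exp 1 * M)).add (t2.const_mul (70 / 33))).add
      (t3.const_mul (35 / 8 * Real.exp (13 / 40)))
    simpa using this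
  have hev := t4.eventually (gt_mem_nhds hpos)
  obtain ⟨X1, hX1⟩ := eventually_atTop.mp hev
  refine ⟨max X1 (Real.exp 3), le_trans (by
    have := Real.add_one_le_exp 3
    linarith) (le_max_right _ _), fun X hX => ⟨N X, ?_, ?_, ?_, ?_⟩⟩
  · have h1 : Real.exp 3 ≤ X := (le_max_right _ _).trans hX
    have h2 : 3 ≤ Real.log X := by
      rw [Real.le_log_iff_exp_le (by linarith [Real.exp_pos 3])]
      exact h1
    exact Nat.one_le_ceil_iff.mpr (by linarith)
  · have h1 : Real.exp 3 ≤ X := (le_max_right _ _).trans hX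
    have hX0 : 0 < X := by linarith [Real.exp_pos 3]
    have h2 : 3 ≤ Real.log X := by
      rw [Real.le_log_iff_exp_le hX0]
      exact h1
    have h3 : 49 / 5 * Real.log X ≤ ((N X : ℕ) : ℝ) := Nat.le_ceil _
    rw [← Real.log_le_iff_le_exp hX0, le_div_iff₀ (by norm_num)]
    linarith
  · have h1 : Real.exp 3 ≤ X := (le_max_right _ _).trans hX
    have hX0 : 0 < X := by linarith [Real.exp_pos 3]
    have h2 : 3 ≤ Real.log X := by
      rw [Real.le_log_iff_exp_le hX0]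
      exact h1
    have h3 : ((N X : ℕ) : ℝ) < 49 / 5 * Real.log X + 1 := Nat.ceil_lt_add_one (by linarith)
    rw [← Real.le_log_iff_exp_le (by positivity), Real.log_pow]
    push_cast
    have h4 : ((N X : ℕ) : ℝ) / (27 / 4) ≤ 2 * Real.log X - 1 := by
      rw [div_le_iff₀ (by norm_num)]
      linarith
    linarith
  · have h1 : Real.exp 3 ≤ X := (le_max_right _ _).trans hX
    have hX0 : 0 < X := by linarith [Real.exp_pos 3]
    have h2 : 3 ≤ Real.log X := by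
      rw [Real.le_log_iff_exp_le hX0]
      exact h1
    have h3 : 49 / 5 * Real.log X ≤ ((N X : ℕ) : ℝ) := Nat.le_ceil _
    have h4 : ((N X : ℕ) : ℝ) < 49 / 5 * Real.log X + 1 := Nat.ceil_lt_add_one (by linarith)
    have h5 := hX1 X ((le_max_left _ _).trans hX)
    refine lt_of_le_of_lt ?_ h5
    have b1 : (135 / 196 : ℝ) ^ (N X) * X ^ (33 / 10 : ℝ) ≤ X ^ (-(4 / 125) : ℝ) := by
      have e1 : (135 / 196 : ℝ) ≤ Real.exp (-(17 / 50)) := by
        have h6 : (83 / 100 : ℝ) ≤ Real.exp (-(17 / 100)) := by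
          have := Real.add_one_le_exp (-(17 / 100) : ℝ)
          linarith
        have h7 : Real.exp (-(17 / 50)) = Real.exp (-(17 / 100)) ^ 2 := by
          rw [← Real.exp_nat_mul]
          congr 1
          norm_num
        rw [h7]
        calc (135 / 196 : ℝ) ≤ (83 / 100) ^ 2 := by norm_num
          _ ≤ _ := by gcongr
      calc (135 / 196 : ℝ) ^ (N X) * X ^ (33 / 10 : ℝ)
          ≤ (Real.exp (-(17 / 50))) ^ (N X) * X ^ (33 / 10 : ℝ) := by gcongr
        _ = Real.exp (((N X : ℕ) : ℝ) * -(17 / 50)) * X ^ (33 / 10 : ℝ) := by rw [← Real.exp_nat_mul]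
        _ ≤ Real.exp (Real.log X * (-(833 / 250))) * X ^ (33 / 10 : ℝ) := by
            gcongr ?_ * _
            apply Real.exp_le_exp.mpr
            linarith
        _ = X ^ (-(833 / 250) : ℝ) * X ^ (33 / 10 : ℝ) := by rw [Real.rpow_def_of_pos hX0 (-(833 / 250))]
        _ = X ^ (-(4 / 125) : ℝ) := by
            rw [← Real.rpow_add hX0]
            norm_num
    have b2 : (135 / 98 : ℝ) ^ (N X) * (X ^ 2) ^ (-(8 / 5) : ℝ) ≤ Real.exp (13 / 40) * X ^ (-(3 / 200) : ℝ) := by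
      have e1 : (135 / 98 : ℝ) ≤ Real.exp (13 / 40) := by
        have := Real.quadratic_le_exp_of_nonneg (show (0 : ℝ) ≤ 13 / 40 by norm_num)
        refine le_trans ?_ this
        norm_num
      have e2 : (X ^ 2) ^ (-(8 / 5) : ℝ) = X ^ (-(16 / 5) : ℝ) := by
        rw [← Real.rpow_natCast X 2, ← Real.rpow_mul hX0.le]
        norm_num
      calc (135 / 98 : ℝ) ^ (N X) * (X ^ 2) ^ (-(8 / 5) : ℝ)
          ≤ (Real.exp (13 / 40)) ^ (N X) * X ^ (-(16 / 5) : ℝ) := by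
            rw [e2]
            gcongr
        _ = Real.exp (((N X : ℕ) : ℝ) * (13 / 40)) * X ^ (-(16 / 5) : ℝ) := by rw [← Real.exp_nat_mul]
        _ ≤ Real.exp (13 / 40 + Real.log X * (637 / 200)) * X ^ (-(16 / 5) : ℝ) := by
            gcongr ?_ * _
            apply Real.exp_le_exp.mpr
            linarith
        _ = Real.exp (13 / 40) * (X ^ (637 / 200 : ℝ) * X ^ (-(16 / 5) : ℝ)) := by
            rw [Real.exp_add, Real.rpow_def_of_pos hX0 (637 / 200)]
            ring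
        _ = Real.exp (13 / 40) * X ^ (-(3 / 200) : ℝ) := by
            rw [← Real.rpow_add hX0]
            norm_num
    have b3 : Real.exp 1 * ((N X : ℕ) : ℝ) * M * (135 / 136) ^ (N X)
        = Real.exp 1 * M * (((N X : ℕ) : ℝ) * (135 / 136 : ℝ) ^ (N X)) := by ring
    rw [b3]
    linarith

/-- In every interval `[X, X ^ 2]` with `X` large there is `x` with `|ψ(x) - x| ≤ x ^ (3/4)`. -/
theorem exists_small_error_sq : ∃ X₀ : ℝ, 1 ≤ X₀ ∧ ∀ X : ℝ, X₀ ≤ X → ∃ x : ℝ, X ≤ x ∧ x ≤ X ^ 2 ∧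
    |psiR x 1 1 - x| ≤ x ^ (3 / 4 : ℝ) := by
  obtain ⟨M, hM0, hM⟩ := cauchy_GG
  obtain ⟨X₀, hX₀, hg⟩ := growth M
  refine ⟨X₀, hX₀, fun X hX => ?_⟩
  by_contra hcon
  push Not at hcon
  have hX1 : 1 ≤ X := hX₀.trans hX
  obtain ⟨e, he, hsign⟩ := sign_const X hX1 hcon
  obtain ⟨n, hn1, hJ1, hJ2, hn⟩ := hg X hX
  have hlow := moment_lower e he n X (X ^ 2) hX1 (by nlinarith) hsign hJ1 hJ2
  have hup : ∫ t in Ioi (1 : ℝ), gker e n t ≤ n.factorial * M / (34 / 5) ^ n := by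
    refine (le_abs_self _).trans ?_
    rw [gker_int_norm e he n]
    exact hM n
  have hn0 : (0 : ℝ) < n := by exact_mod_cast hn1
  set P : ℝ := (n / (27 / 4) : ℝ) ^ n * Real.exp (-n) with hP
  have hP0 : 0 < P := by positivity
  have hPe : P = (n / (Real.exp 1 * (27 / 4))) ^ n := by
    rw [hP, Real.exp_neg, ← Real.exp_one_pow, ← inv_pow, ← mul_pow]
    congr 1
    field_simp
  have q1 : (n / Real.exp 1 : ℝ) ^ n / (34 / 5) ^ n = P * (135 / 136) ^ n := by
    rw [hPe, ← div_pow, ← mul_pow]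
    congr 1
    field_simp
    norm_num
  have q2 : (n / (Real.exp 1 * (49 / 5)) : ℝ) ^ n = P * (135 / 196) ^ n := by
    rw [hPe, ← mul_pow]
    congr 1
    field_simp
    norm_num
  have q3 : (n / (Real.exp 1 * (49 / 10)) : ℝ) ^ n = P * (135 / 98) ^ n := by
    rw [hPe, ← mul_pow]
    congr 1
    field_simp
    norm_num
  have hf : n.factorial * M / (34 / 5) ^ n ≤ P * (Real.exp 1 * n * M * (135 / 136) ^ n) := by
    have h1 := fact_le n hn1
    calc n.factorial * M / (34 / 5) ^ n ≤ (Real.exp 1 * n * (n / Real.exp 1) ^ n) * M / (34 / 5) ^ n := by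
          gcongr
      _ = Real.exp 1 * n * M * ((n / Real.exp 1) ^ n / (34 / 5) ^ n) := by ring
      _ = P * (Real.exp 1 * n * M * (135 / 136) ^ n) := by rw [q1]; ring
  rw [q2, q3] at hlow
  have h1 : P * (4 / 27 * (1 - Real.exp (-(27 / 4)))) ≤ P * (Real.exp 1 * n * M * (135 / 136) ^ n
      + 70 / 33 * ((135 / 196) ^ n * X ^ (33 / 10 : ℝ))
      + 35 / 8 * ((135 / 98) ^ n * (X ^ 2) ^ (-(8 / 5) : ℝ))) := by
    have h2 := hlow.trans (hup.trans hf)
    rw [hP] at h2 ⊢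
    linarith
  have h2 := le_of_mul_le_mul_left h1 hP0
  linarith

end Pool.Agent.MC
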