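import Mathlib
import Pool.Agent.Lib.MP_9cfc0a_nt.Assembly

set_option autoImplicit false

namespace Pool.Agent.MC

open Finset Real ArithmeticFunction Filter

/-- weighted sum of variances over moduli -/
noncomputable def TT (D N k : ℕ) : ℝ := ∑ q ∈ Ioc D N, varN k q / q

lemma TT_nonneg (D N k : ℕ) : 0 ≤ TT D N k :=
  Finset.sum_nonneg fun q _ => div_nonneg (varN_nonneg k q) (Nat.cast_nonneg q)

lemma sum_clamp (T : ℕ → ℝ) (X1 X2 : ℕ) (hX : X1 ≤ X2) :
    ∑ m ∈ range (X2 + 1), T (clamp X1 X2 m) = X1 * T X1 + ∑ k ∈ Icc X1 X2, T k := by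
  have h1 : X2 + 1 = X1 + (X2 + 1 - X1) := by omega
  rw [h1, Finset.sum_range_add]
  congr 1
  · have h2 : ∀ i ∈ range X1, T (clamp X1 X2 i) = T X1 := by
      intro i hi
      rw [Finset.mem_range] at hi
      have : clamp X1 X2 i = X1 := by unfold clamp; omega
      rw [this]
    rw [Finset.sum_congr rfl h2, Finset.sum_const, Finset.card_range, nsmul_eq_mul]
  · have h3 : Icc X1 X2 = Ico X1 (X2 + 1) := by
      ext k; simp only [Finset.mem_Icc, Finset.mem_Ico]; omega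
    rw [h3, Finset.sum_Ico_eq_sum_range]
    refine Finset.sum_congr rfl fun i hi => ?_
    rw [Finset.mem_range] at hi
    have : clamp X1 X2 (X1 + i) = X1 + i := by unfold clamp; omega
    rw [this]

lemma sum_avgV (X1 X2 D N : ℕ) (hX : X1 ≤ X2) (hX2 : 1 ≤ X2) :
    ∑ q ∈ Ioc D N, avgV X1 X2 q / q
      ≤ 1 / (2 * X2) * (∑ k ∈ Icc X1 X2, TT D N k) + TT D N X1 + TT D N X2 := by
  have hX2R : (1 : ℝ) ≤ X2 := by exact_mod_cast hX2
  have hX1R : (X1 : ℝ) ≤ X2 := by exact_mod_cast hX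
  have h1 : ∑ q ∈ Ioc D N, avgV X1 X2 q / q
      = (2 * ∑ m ∈ range (X2 + 1), TT D N (clamp X1 X2 m) + X2 * TT D N X1 + X2 * TT D N X2)
        / (4 * X2) := by
    unfold avgV TT
    rw [Finset.sum_comm (s := range (X2 + 1)), Finset.mul_sum, Finset.mul_sum, Finset.mul_sum,
      ← Finset.sum_add_distrib, ← Finset.sum_add_distrib, Finset.sum_div]
    refine Finset.sum_congr rfl fun q _ => ?_
    rw [← Finset.sum_div]
    ring
  rw [h1, sum_clamp (TT D N) X1 X2 hX, div_le_iff₀ (by linarith)]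
  have h2 := TT_nonneg D N X1
  have h3 := TT_nonneg D N X2
  have h4 : 1 / (2 * (X2 : ℝ)) * (∑ k ∈ Icc X1 X2, TT D N k) * (4 * X2)
      = 2 * ∑ k ∈ Icc X1 X2, TT D N k := by
    field_simp
    ring
  have h5 : (X1 : ℝ) * TT D N X1 ≤ X2 * TT D N X1 := mul_le_mul_of_nonneg_right hX1R h2
  have h6 : 0 ≤ (X2 : ℝ) * TT D N X1 := by positivity
  have h7 : 0 ≤ (X2 : ℝ) * TT D N X2 := by positivity
  have h8 : (1 / (2 * (X2 : ℝ)) * (∑ k ∈ Icc X1 X2, TT D N k) + TT D N X1 + TT D N X2) * (4 * X2)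
      = 2 * ∑ k ∈ Icc X1 X2, TT D N k + 4 * (X2 * TT D N X1) + 4 * (X2 * TT D N X2) := by
    rw [← h4]; ring
  rw [h8]
  linarith

/-- The mean value lower bound. -/
theorem mean_lower : ∃ c : ℝ, 0 < c ∧ ∃ X₀ : ℝ, 1 ≤ X₀ ∧ ∀ x : ℝ, X₀ ≤ x →
    c * (x ^ 2 * Real.log x) ≤ ∑ k ∈ Icc ⌈x⌉₊ ⌊1000 * x⌋₊,
      ∑ q ∈ Ioc ⌊x ^ (1 / 1000 : ℝ)⌋₊ ⌊Real.sqrt x⌋₊, varN k q / q := by
  obtain ⟨c, hc, X₀, hX₀⟩ := roth_core
  refine ⟨c / 12, by linarith, max X₀ 100, le_trans (by norm_num) (le_max_right _ _), ?_⟩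
  intro x hx
  have hx0 : X₀ ≤ x := (le_max_left _ _).trans hx
  have hx100 : 100 ≤ x := (le_max_right _ _).trans hx
  have hxpos : 0 < x := by linarith
  have hcore := hX₀ x hx0
  generalize ⌊x ^ (1 / 1000 : ℝ)⌋₊ = D at *
  generalize ⌊Real.sqrt x⌋₊ = N at *
  have hX1l : x ≤ (⌈x⌉₊ : ℝ) := Nat.le_ceil x
  have hX1u : (⌈x⌉₊ : ℝ) ≤ x + 1 := (Nat.ceil_lt_add_one hxpos.le).le
  have hX2u : ((⌊1000 * x⌋₊ : ℕ) : ℝ) ≤ 1000 * x := Nat.floor_le (by positivity)
  have hX2l : 1000 * x - 1 ≤ ((⌊1000 * x⌋₊ : ℕ) : ℝ) := by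
    have := Nat.lt_floor_add_one (1000 * x)
    linarith
  obtain ⟨J, hJu, hJl⟩ : ∃ J : ℕ, (J : ℝ) ≤ x / 2 ∧ x / 3 ≤ J := by
    refine ⟨⌊x / 2⌋₊, Nat.floor_le (by positivity), ?_⟩
    have := Nat.lt_floor_add_one (x / 2)
    linarith
  generalize ⌈x⌉₊ = Y1 at *
  generalize ⌊1000 * x⌋₊ = Y2 at *
  have hJY : Y1 + J ≤ Y2 := by
    have : (Y1 : ℝ) + J ≤ Y2 := by linarith
    exact_mod_cast this
  set A : ℝ := ∑ k ∈ Icc Y1 Y2, TT D N k with hA
  have hA0 : 0 ≤ A := Finset.sum_nonneg fun k _ => TT_nonneg D N k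
  have h1 : ∀ j ∈ range J, c * (x * Real.log x)
      ≤ 1 / x * A + TT D N (Y1 + j) + TT D N (Y2 - j) := by
    intro j hj
    rw [Finset.mem_range] at hj
    have hjR : (j : ℝ) + 1 ≤ J := by exact_mod_cast hj
    have hjY2 : j ≤ Y2 := by omega
    have hcast : ((Y2 - j : ℕ) : ℝ) = Y2 - j := by rw [Nat.cast_sub hjY2]
    have h2 := hcore (Y1 + j) (Y2 - j) (by push_cast; linarith [Nat.cast_nonneg (α := ℝ) j])
      (by push_cast; linarith) (by rw [hcast]; linarith) (by rw [hcast]; linarith [Nat.cast_nonneg (α := ℝ) j])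
    refine h2.trans ?_
    have hle : Y1 + j ≤ Y2 - j := by
      have : (Y1 : ℝ) + j + j ≤ Y2 := by linarith
      have : Y1 + j + j ≤ Y2 := by exact_mod_cast this
      omega
    have h1' : 1 ≤ Y2 - j := by
      have : (1 : ℝ) ≤ ((Y2 - j : ℕ) : ℝ) := by rw [hcast]; linarith
      exact_mod_cast this
    refine (sum_avgV (Y1 + j) (Y2 - j) D N hle h1').trans ?_
    have h3 : ∑ k ∈ Icc (Y1 + j) (Y2 - j), TT D N k ≤ A := by
      refine Finset.sum_le_sum_of_subset_of_nonneg ?_ (fun k _ _ => TT_nonneg D N k)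
      intro k hk
      rw [Finset.mem_Icc] at hk ⊢
      omega
    have h4 : 1 / (2 * ((Y2 - j : ℕ) : ℝ)) ≤ 1 / x := by
      apply one_div_le_one_div_of_le hxpos
      rw [hcast]
      linarith
    have h5 : 1 / (2 * ((Y2 - j : ℕ) : ℝ)) * ∑ k ∈ Icc (Y1 + j) (Y2 - j), TT D N k ≤ 1 / x * A := by
      apply mul_le_mul h4 h3 (Finset.sum_nonneg fun k _ => TT_nonneg D N k) (by positivity)
    linarith
  have h2 := Finset.sum_le_sum h1
  rw [Finset.sum_const, Finset.card_range, nsmul_eq_mul, Finset.sum_add_distrib,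
    Finset.sum_add_distrib, Finset.sum_const, Finset.card_range, nsmul_eq_mul] at h2
  have h3 : ∑ j ∈ range J, TT D N (Y1 + j) ≤ A := by
    have h4 : ∑ j ∈ range J, TT D N (Y1 + j) = ∑ k ∈ Ico Y1 (Y1 + J), TT D N k := by
      rw [Finset.sum_Ico_eq_sum_range, Nat.add_sub_cancel_left]
    rw [h4]
    refine Finset.sum_le_sum_of_subset_of_nonneg ?_ (fun k _ _ => TT_nonneg D N k)
    intro k hk
    rw [Finset.mem_Ico] at hk
    rw [Finset.mem_Icc]
    omega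
  have h4 : ∑ j ∈ range J, TT D N (Y2 - j) ≤ A := by
    have hinj : Set.InjOn (fun j => Y2 - j) (range J : Finset ℕ) := by
      intro a ha b hb hab
      rw [Finset.mem_coe, Finset.mem_range] at ha hb
      simp only at hab
      omega
    rw [← Finset.sum_image (f := fun k => TT D N k) hinj]
    refine Finset.sum_le_sum_of_subset_of_nonneg ?_ (fun k _ _ => TT_nonneg D N k)
    intro k hk
    rw [Finset.mem_image] at hk
    obtain ⟨j, hj, rfl⟩ := hk
    rw [Finset.mem_range] at hj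
    rw [Finset.mem_Icc]
    omega
  have h5 : (J : ℝ) * (1 / x * A) ≤ A := by
    have h6 : (J : ℝ) * (1 / x) ≤ 1 := by
      rw [mul_one_div, div_le_one hxpos]
      linarith
    calc (J : ℝ) * (1 / x * A) = (J : ℝ) * (1 / x) * A := by ring
      _ ≤ 1 * A := by gcongr
      _ = A := one_mul A
  have h6 : (x / 3) * (c * (x * Real.log x)) ≤ (J : ℝ) * (c * (x * Real.log x)) := by
    have : 0 ≤ Real.log x := Real.log_nonneg (by linarith)
    gcongr
  have h7 : (x / 3) * (c * (x * Real.log x)) ≤ 3 * A := by linarith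
  have h8 : 0 ≤ c * (x ^ 2 * Real.log x) := by
    have : 0 ≤ Real.log x := Real.log_nonneg (by linarith)
    positivity
  have h9 : (x / 3) * (c * (x * Real.log x)) = c * (x ^ 2 * Real.log x) / 3 := by ring
  rw [h9] at h7
  have h10 : c / 12 * (x ^ 2 * Real.log x) = c * (x ^ 2 * Real.log x) / 12 := by ring
  rw [h10]
  show c * (x ^ 2 * Real.log x) / 12 ≤ A
  linarith

end Pool.Agent.MC
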