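import Mathlib
import Pool.Agent.Lib.MP_9cfc0a_nt.QuasiA

set_option autoImplicit false

namespace Pool.Agent.MC

open Finset MeasureTheory Real Filter

lemma ncard_le_of_subset_finset (A : Set (ℕ × ℕ)) (S : Finset (ℕ × ℕ)) (h : A ⊆ (S : Set (ℕ × ℕ))) :
    A.ncard ≤ S.card := by
  have := Set.ncard_le_ncard h (Finset.finite_toSet _)
  rwa [Set.ncard_coe_finset] at this

lemma log_cube_le (X : ℝ) (hX : 1 ≤ X) (e : ℝ) (he : 0 < e) :
    (Real.log X) ^ 3 ≤ (3 / e) ^ 3 * X ^ e := by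
  have hX0 : 0 < X := by linarith
  have h1 : Real.log X ≤ X ^ (e / 3) / (e / 3) := Real.log_le_rpow_div hX0.le (by positivity)
  have h2 : 0 ≤ Real.log X := Real.log_nonneg hX
  calc (Real.log X) ^ 3 ≤ (X ^ (e / 3) / (e / 3)) ^ 3 := by gcongr
    _ = (3 / e) ^ 3 * (X ^ (e / 3)) ^ 3 := by
        rw [div_pow]
        field_simp
    _ = (3 / e) ^ 3 * X ^ e := by
        rw [← Real.rpow_natCast (X ^ (e / 3)), ← Real.rpow_mul hX0.le]
        congr 2
        push_cast
        ring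

/-- A bound for the error at level `d` gives a power saving for the number of exceptional pairs. -/
theorem excMax_bound (d : ℕ) (hd : 1 ≤ d) (η : ℝ) (hη : 0 ≤ η) (hEB : EB d (3 / 4 + η)) :
    ∀ ε : ℝ, 0 < ε → ∃ δ : ℝ, 0 < δ ∧ ∃ C : ℝ, ∀ X : ℝ, 1 ≤ X →
      ((excMax d (1 / 2 + η + ε) X).ncard : ℝ) ≤ C * X ^ (1 - δ) := by
  classical
  intro ε hε
  have hdR : (1 : ℝ) ≤ d := by exact_mod_cast hd
  obtain ⟨C₀, hC₀⟩ := hEB (ε / 8) (by positivity)
  set C : ℝ := max C₀ 0 with hC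
  have hC0 : 0 ≤ C := le_max_right _ _
  set δ : ℝ := min (1 / 8) (min (ε / 4) (ε / (4 * (1 / 2 + η + ε)))) with hδ
  have hτ0 : 0 < 1 / 2 + η + ε := by linarith
  have hδ0 : 0 < δ := by
    rw [hδ]
    refine lt_min (by norm_num) (lt_min (by positivity) (by positivity))
  have hδ1 : δ ≤ 1 / 8 := min_le_left _ _
  have hδ2 : δ ≤ ε / 4 := (min_le_right _ _).trans (min_le_left _ _)
  have hδ3 : δ * (1 / 2 + η + ε) ≤ ε / 4 := by
    have h1 : δ ≤ ε / (4 * (1 / 2 + η + ε)) := (min_le_right _ _).trans (min_le_right _ _)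
    calc δ * (1 / 2 + η + ε) ≤ ε / (4 * (1 / 2 + η + ε)) * (1 / 2 + η + ε) := by gcongr
      _ = ε / 4 := by field_simp
  -- the threshold
  have ht1 : Tendsto (fun X : ℝ => X ^ (ε / 2)) atTop atTop := tendsto_rpow_atTop (by positivity)
  have ht2 : Tendsto (fun X : ℝ => X ^ (1 / 8 : ℝ)) atTop atTop := tendsto_rpow_atTop (by norm_num)
  obtain ⟨X₁, hX₁⟩ := Filter.eventually_atTop.mp
    ((ht1.eventually_ge_atTop (3 * C * d)).and (ht2.eventually_ge_atTop (6 * (d : ℝ) ^ 2)))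
  set X₂ : ℝ := max X₁ 2 with hX₂
  set C' : ℝ := max X₂ (1 + d * (2200 * (9 * d) * (3 / (ε / 2)) ^ 3)) with hC'
  refine ⟨δ, hδ0, C', ?_⟩
  intro X hX1
  have hX0 : 0 < X := by linarith
  have hXδ : 1 ≤ X ^ (1 - δ) := Real.one_le_rpow hX1 (by linarith)
  by_cases hXX : X < X₂
  · calc ((excMax d (1 / 2 + η + ε) X).ncard : ℝ) ≤ X := ncard_excMax_le d _ X hX0.le
      _ ≤ X₂ := hXX.le
      _ ≤ C' := le_max_left _ _
      _ = C' * 1 := (mul_one _).symm
      _ ≤ C' * X ^ (1 - δ) := by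
          have : 0 ≤ C' := le_trans (by rw [hX₂]; exact le_trans (by norm_num) (le_max_right _ _))
            (le_max_left X₂ _)
          gcongr
  · push Not at hXX
    have hX2 : 2 ≤ X := (le_max_right _ _).trans hXX
    obtain ⟨hXC, hXd⟩ := hX₁ X ((le_max_left _ _).trans hXX)
    set M : ℕ := ⌊X ^ (1 / 2 - δ / 2)⌋₊ with hM
    set t : ℝ := X ^ (1 + ε) / (9 * d) with ht
    set K : ℕ := Nat.log 2 ⌊X⌋₊ + 1 with hK
    set Q : ℕ := ⌊Real.sqrt X⌋₊ with hQ
    have hfin := excMax_finite d (1 / 2 + η + ε) X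
    set S : Finset (ℕ × ℕ) := hfin.toFinset with hS
    have hcard : (excMax d (1 / 2 + η + ε) X).ncard = S.card := Set.ncard_eq_toFinset_card _ hfin
    rw [hcard]
    set S1 := S.filter (fun y => ((d * y.1 : ℕ) : ℝ) ≤ X ^ (1 / 2 - δ / 2)) with hS1
    set S2 := S.filter (fun y => ¬ ((d * y.1 : ℕ) : ℝ) ≤ X ^ (1 / 2 - δ / 2)) with hS2
    have hsplit : S.card = S1.card + S2.card := by
      rw [hS1, hS2]
      exact (Finset.card_filter_add_card_filter_not _).symm
    -- small pairs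
    have hc1 : (S1.card : ℝ) ≤ X ^ (1 - δ) := by
      have h1 : S1 ⊆ (Icc 1 M) ×ˢ (Icc 1 M) := by
        rintro ⟨p, a⟩ hy
        rw [hS1, Finset.mem_filter, hS, Set.Finite.mem_toFinset] at hy
        obtain ⟨⟨hp, _, ha1, ha2, _⟩, hsm⟩ := hy
        simp only at hp ha1 ha2 hsm
        have h5 : d * p ≤ M := Nat.le_floor hsm
        have h6 : p ≤ d * p := Nat.le_mul_of_pos_left p hd
        have hp1 := hp.one_le
        rw [Finset.mem_product, Finset.mem_Icc, Finset.mem_Icc]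
        exact ⟨⟨hp1, by simp only; omega⟩, ⟨ha1, by simp only; omega⟩⟩
      have h2 := Finset.card_le_card h1
      rw [Finset.card_product, Nat.card_Icc, Nat.add_sub_cancel] at h2
      have h3 : (M : ℝ) ≤ X ^ (1 / 2 - δ / 2) := Nat.floor_le (by positivity)
      calc (S1.card : ℝ) ≤ ((M * M : ℕ) : ℝ) := by exact_mod_cast h2
        _ = (M : ℝ) * M := by push_cast; ring
        _ ≤ X ^ (1 / 2 - δ / 2) * X ^ (1 / 2 - δ / 2) := by gcongr
        _ = X ^ (1 - δ) := by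
            rw [← Real.rpow_add hX0]
            congr 1
            ring
    -- large pairs
    have hc2' : S2.card ≤ ∑ r ∈ range d, (badPairs (uC d r) K Q t).card := by
      apply card_le_sum_badPairs d K Q t (by omega)
      rintro ⟨p, a⟩ hy
      rw [hS2, Finset.mem_filter, hS, Set.Finite.mem_toFinset] at hy
      obtain ⟨⟨hp, hq, ha1, ha2, hcop, x, hx1, hx2, hx3⟩, hla⟩ := hy
      simp only at hp hq ha1 ha2 hcop hx1 hx3 hla
      push Not at hla
      have hp1 := hp.one_le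
      have hdp1 : (1 : ℝ) ≤ ((d * p : ℕ) : ℝ) := by
        exact_mod_cast Nat.mul_pos (by omega : 0 < d) hp.pos
      have hx1' : 1 ≤ x := le_trans (by nlinarith) hx1
      have hcopd : Nat.Coprime a d := Nat.Coprime.coprime_mul_right_right hcop
      have hE : |psiR x d a - x / (Nat.totient d : ℝ)| ≤ C * x ^ (3 / 4 + η + ε / 8) := by
        refine (hC₀ x hx1' a hcopd).trans ?_
        gcongr
        exact le_max_left _ _
      obtain ⟨h7, h8⟩ := large_newQ_of_exc d hd η ε δ C X x hη hδ0 hδ1 hδ2 hδ3 hC0 hX1 hXC hXd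
        p a hp hq hla hx1 hx2 hE hx3
      have h9 : p ≤ Q := by
        have h10 : d * p ≤ Q := Nat.le_floor hq
        have h6 : p ≤ d * p := Nat.le_mul_of_pos_left p hd
        omega
      refine ⟨hp, h7, h9, ha1, ha2, ⌊x⌋₊, ?_, h8⟩
      calc ⌊x⌋₊ ≤ ⌊X⌋₊ := Nat.floor_mono hx2
        _ < 2 ^ K := Nat.lt_pow_succ_log_self (by norm_num) _
    have ht0 : 0 < t := by positivity
    have hc2 : (S2.card : ℝ) * t ≤ d * (2200 * X ^ 2 * (Real.log X) ^ 3) := by
      have h1 : (S2.card : ℝ) ≤ ∑ r ∈ range d, ((badPairs (uC d r) K Q t).card : ℝ) := by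
        exact_mod_cast hc2'
      calc (S2.card : ℝ) * t ≤ (∑ r ∈ range d, ((badPairs (uC d r) K Q t).card : ℝ)) * t := by gcongr
        _ = ∑ r ∈ range d, ((badPairs (uC d r) K Q t).card : ℝ) * t := by rw [Finset.sum_mul]
        _ ≤ ∑ _r ∈ range d, 2200 * X ^ 2 * (Real.log X) ^ 3 :=
            Finset.sum_le_sum fun r _ => card_badPairs_uC d r X t hX2 ht0.le
        _ = d * (2200 * X ^ 2 * (Real.log X) ^ 3) := by
            rw [Finset.sum_const, Finset.card_range, nsmul_eq_mul]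
    have hc3 : (S2.card : ℝ) ≤ d * (2200 * (9 * d) * (3 / (ε / 2)) ^ 3) * X ^ (1 - δ) := by
      rw [← mul_le_mul_iff_left₀ ht0]
      refine hc2.trans ?_
      have h1 := log_cube_le X hX1 (ε / 2) (by positivity)
      have h2 : X ^ 2 * X ^ (ε / 2) ≤ X ^ (1 - δ) * X ^ (1 + ε) := by
        rw [← Real.rpow_natCast, ← Real.rpow_add hX0, ← Real.rpow_add hX0]
        apply Real.rpow_le_rpow_of_exponent_le hX1
        push_cast
        linarith
      have hd0 : (d : ℝ) ≠ 0 := by linarith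
      calc (d : ℝ) * (2200 * X ^ 2 * (Real.log X) ^ 3)
          ≤ d * (2200 * X ^ 2 * ((3 / (ε / 2)) ^ 3 * X ^ (ε / 2))) := by gcongr
        _ = d * (2200 * (3 / (ε / 2)) ^ 3) * (X ^ 2 * X ^ (ε / 2)) := by ring
        _ ≤ d * (2200 * (3 / (ε / 2)) ^ 3) * (X ^ (1 - δ) * X ^ (1 + ε)) := by gcongr
        _ = d * (2200 * (9 * d) * (3 / (ε / 2)) ^ 3) * X ^ (1 - δ) * t := by
            rw [ht]
            field_simp
    have h1 : (S.card : ℝ) = S1.card + S2.card := by exact_mod_cast hsplit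
    calc (S.card : ℝ) ≤ X ^ (1 - δ) + d * (2200 * (9 * d) * (3 / (ε / 2)) ^ 3) * X ^ (1 - δ) := by
          linarith
      _ = (1 + d * (2200 * (9 * d) * (3 / (ε / 2)) ^ 3)) * X ^ (1 - δ) := by ring
      _ ≤ C' * X ^ (1 - δ) := by
          gcongr
          exact le_max_right _ _

end Pool.Agent.MC
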