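import Mathlib
import Pool.Agent.Lib.MP_9cfc0a_nt.QuasiB

set_option autoImplicit false

namespace Pool.Agent.MC

open Finset MeasureTheory Real Filter Asymptotics

/-- primes in `(y/8, y]` -/
noncomputable def PP (y : ℝ) : Finset ℕ := (Ioc ⌊y / 8⌋₊ ⌊y⌋₊).filter Nat.Prime

lemma eventually_card_PP : ∀ᶠ y : ℝ in atTop,
    y ^ 2 / (32 * Real.log y) ≤ ∑ p ∈ PP y, ((p : ℝ) - 1) := by
  have h0 : Tendsto (fun x : ℝ => x ^ (1 / 4 : ℝ)) atTop atTop :=
    tendsto_rpow_atTop (by norm_num)
  filter_upwards [h0.eventually_ge_atTop 8000, eventually_ge_atTop 2000] with y hy hy100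
  have hy0 : 0 < y := by linarith
  have h1 := Chebyshev.theta_ge' (x := y) (by linarith)
  have h2 := Chebyshev.theta_le_log4_mul_x (x := y / 8) (by positivity)
  have hlog4 : Real.log 4 = 2 * Real.log 2 := by
    rw [show (4 : ℝ) = 2 ^ 2 by norm_num, Real.log_pow]
    norm_num
  have hl2 := Real.log_two_gt_d9
  have hl2' := Real.log_two_lt_d9
  have hlogy : Real.log y ≤ 4 * y ^ (1 / 4 : ℝ) := by
    have := Real.log_le_rpow_div hy0.le (show (0 : ℝ) < 1 / 4 by norm_num)
    linarith
  have hysq : Real.sqrt y = y ^ (1 / 2 : ℝ) := Real.sqrt_eq_rpow y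
  have h34 : y ^ (1 / 2 : ℝ) * y ^ (1 / 4 : ℝ) * y ^ (1 / 4 : ℝ) = y := by
    rw [← Real.rpow_add hy0, ← Real.rpow_add hy0]
    norm_num
  have hsq0 : 0 < y ^ (1 / 2 : ℝ) := Real.rpow_pos_of_pos hy0 _
  have h5 : 2 * Real.sqrt y * Real.log y ≤ y / 1000 := by
    rw [hysq]
    have h6 : 2 * y ^ (1 / 2 : ℝ) * Real.log y ≤ 8 * (y ^ (1 / 2 : ℝ) * y ^ (1 / 4 : ℝ)) := by
      nlinarith
    have h7 : y ^ (1 / 2 : ℝ) * y ^ (1 / 4 : ℝ) * 8000 ≤ y := by
      calc y ^ (1 / 2 : ℝ) * y ^ (1 / 4 : ℝ) * 8000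
          ≤ y ^ (1 / 2 : ℝ) * y ^ (1 / 4 : ℝ) * y ^ (1 / 4 : ℝ) := by gcongr
        _ = y := h34
    linarith
  have hlogy2 : Real.log y ≤ y / 2000 := by
    have h11 : y ^ (1 / 4 : ℝ) * 8000 ≤ y := by
      have h12 : 1 ≤ y ^ (1 / 2 : ℝ) := Real.one_le_rpow (by linarith) (by norm_num)
      calc y ^ (1 / 4 : ℝ) * 8000 ≤ y ^ (1 / 4 : ℝ) * y ^ (1 / 4 : ℝ) := by gcongr
        _ = 1 * y ^ (1 / 4 : ℝ) * y ^ (1 / 4 : ℝ) := by ring
        _ ≤ y ^ (1 / 2 : ℝ) * y ^ (1 / 4 : ℝ) * y ^ (1 / 4 : ℝ) := by gcongr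
        _ = y := h34
    linarith
  have h8 : Real.log (y + 2) ≤ y / 1000 := by
    have h9 : Real.log (y + 2) ≤ Real.log (2 * y) := Real.log_le_log (by linarith) (by linarith)
    rw [Real.log_mul (by norm_num) hy0.ne'] at h9
    linarith
  have hθ : y / 2 ≤ Chebyshev.theta y - Chebyshev.theta (y / 8) := by
    rw [hlog4] at h2
    have h14 : 0.6931 * y ≤ y * Real.log 2 := by nlinarith only [hl2, hy0]
    have h15 : (y - 1) * Real.log 2 = y * Real.log 2 - Real.log 2 := by ring
    have h16 : 2 * Real.log 2 * (y / 8) ≤ 0.18 * y := by nlinarith only [hl2', hy0]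
    linarith
  -- θ difference as a sum over primes
  have hdiff : Chebyshev.theta y - Chebyshev.theta (y / 8) = ∑ p ∈ PP y, Real.log p := by
    unfold Chebyshev.theta PP
    rw [Finset.sum_filter, Finset.sum_filter, Finset.sum_filter,
      ← Finset.sum_Ioc_consecutive _ (Nat.zero_le ⌊y / 8⌋₊)
      (Nat.floor_mono (by linarith : y / 8 ≤ y))]
    ring
  have hlogpos : 0 < Real.log y := Real.log_pos (by linarith)
  have hcount : y / 2 ≤ ((PP y).card : ℝ) * Real.log y := by
    rw [hdiff] at hθ
    refine hθ.trans ?_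
    rw [← nsmul_eq_mul, ← Finset.sum_const]
    refine Finset.sum_le_sum fun p hp => ?_
    unfold PP at hp
    rw [Finset.mem_filter, Finset.mem_Ioc] at hp
    apply Real.log_le_log (by exact_mod_cast hp.2.pos)
    calc (p : ℝ) ≤ (⌊y⌋₊ : ℝ) := by exact_mod_cast hp.1.2
      _ ≤ y := Nat.floor_le hy0.le
  have hsum : ((PP y).card : ℝ) * (y / 16) ≤ ∑ p ∈ PP y, ((p : ℝ) - 1) := by
    rw [← nsmul_eq_mul, ← Finset.sum_const]
    refine Finset.sum_le_sum fun p hp => ?_
    unfold PP at hp
    rw [Finset.mem_filter, Finset.mem_Ioc] at hp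
    have h9 : y / 8 < p := (Nat.floor_lt (by positivity)).mp hp.1.1
    linarith
  refine le_trans ?_ hsum
  rw [div_le_iff₀ (by positivity)]
  calc y ^ 2 = 32 * (y / 2) * (y / 16) := by ring
    _ ≤ 32 * (((PP y).card : ℝ) * Real.log y) * (y / 16) := by gcongr
    _ = ((PP y).card : ℝ) * (y / 16) * (32 * Real.log y) := by ring

/-- If the number of exceptional pairs is `o(x / log x)` then the error at level `d` is small. -/
theorem EB_of_exc (d : ℕ) (hd : 1 ≤ d) (η : ℝ) (hη : 0 ≤ η)
    (h : ∀ ε : ℝ, 0 < ε → (fun x : ℝ => ((exc d (1 / 2 + η + ε) x).ncard : ℝ))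
      =o[atTop] (fun x : ℝ => x / Real.log x)) : EB d (3 / 4 + η) := by
  classical
  intro ε hε
  have hdR : (1 : ℝ) ≤ d := by exact_mod_cast hd
  have hd0 : (0 : ℝ) < d := by linarith
  set τ : ℝ := 1 / 2 + η + ε with hτ
  have key : ∀ᶠ x : ℝ in atTop, ∀ a : ℕ, Nat.Coprime a d →
      |psiR x d a - x / (Nat.totient d : ℝ)| ≤ (2 + 16 * d) * x ^ (3 / 4 + η + ε) := by
    have ho := h ε hε
    have hbound := ho.def (show (0 : ℝ) < 1 / (128 * d ^ 2) by positivity)
    have hy : Tendsto (fun x : ℝ => Real.sqrt x / d) atTop atTop :=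
      (Real.tendsto_sqrt_atTop).atTop_div_const hd0
    have hcard := hy.eventually eventually_card_PP
    have hpow : Tendsto (fun x : ℝ => x ^ (ε / 2)) atTop atTop := tendsto_rpow_atTop (by positivity)
    filter_upwards [hbound, hcard, hpow.eventually_ge_atTop (2200 * (3 / (ε / 8)) ^ 3 * (128 * d ^ 2) * (4 / ε) + 1),
      eventually_ge_atTop (10 : ℝ), hy.eventually_ge_atTop (16 * d)] with x hx1 hx2 hx3 hx10 hx4
    intro a ha
    have hx0 : 0 < x := by linarith
    have hlogx : 0 < Real.log x := Real.log_pos (by linarith)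
    set y : ℝ := Real.sqrt x / d with hydef
    have hy0 : 0 < y := by positivity
    have hy16 : 16 ≤ y := by nlinarith
    have hdy : (d : ℝ) * y = Real.sqrt x := by rw [hydef]; field_simp
    have hylog : Real.log y ≤ Real.log x := by
      apply Real.log_le_log hy0
      rw [hydef, div_le_iff₀ hd0]
      have h1 : Real.sqrt x ≤ x := by
        have h2 : 1 ≤ Real.sqrt x := by rw [Real.one_le_sqrt]; linarith
        calc Real.sqrt x = Real.sqrt x * 1 := (mul_one _).symm
          _ ≤ Real.sqrt x * Real.sqrt x := by gcongr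
          _ = x := Real.mul_self_sqrt hx0.le
      nlinarith
    have hlogy : 0 < Real.log y := Real.log_pos (by linarith)
    -- the set of candidate pairs
    set PC : Finset ((_ : ℕ) × ℕ) := (PP y).sigma (fun p => Icc 1 (p - 1)) with hPC
    have hPCcard : x / (32 * d ^ 2 * Real.log x) ≤ (PC.card : ℝ) := by
      rw [hPC, Finset.card_sigma]
      have h1 : ((∑ p ∈ PP y, (Icc 1 (p - 1)).card : ℕ) : ℝ) = ∑ p ∈ PP y, ((p : ℝ) - 1) := by
        push_cast
        refine Finset.sum_congr rfl fun p hp => ?_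
        unfold PP at hp
        rw [Finset.mem_filter] at hp
        rw [Nat.card_Icc, Nat.add_sub_cancel, Nat.cast_sub hp.2.one_le, Nat.cast_one]
      rw [h1]
      refine le_trans ?_ hx2
      have h3 : y ^ 2 = x / d ^ 2 := by
        rw [hydef, div_pow, Real.sq_sqrt hx0.le]
      rw [h3, div_le_div_iff₀ (by positivity) (by positivity)]
      calc x * (32 * Real.log y) ≤ x * (32 * Real.log x) := by gcongr
        _ = x / d ^ 2 * (32 * d ^ 2 * Real.log x) := by field_simp
    set t : ℝ := x ^ (1 + ε) with ht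
    have ht0 : 0 < t := by positivity
    set K : ℕ := Nat.log 2 ⌊x⌋₊ + 1 with hK
    set Q : ℕ := ⌊Real.sqrt x⌋₊ with hQ
    have hPPprop : ∀ p ∈ PP y, p.Prime ∧ y / 8 < p ∧ (p : ℝ) ≤ y := by
      intro p hp
      unfold PP at hp
      rw [Finset.mem_filter, Finset.mem_Ioc] at hp
      refine ⟨hp.2, (Nat.floor_lt (by positivity)).mp hp.1.1, ?_⟩
      calc (p : ℝ) ≤ (⌊y⌋₊ : ℝ) := by exact_mod_cast hp.1.2
        _ ≤ y := Nat.floor_le hy0.le
    have hcopP : ∀ p ∈ PP y, Nat.Coprime d p := by
      intro p hp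
      obtain ⟨hpp, hp8, _⟩ := hPPprop p hp
      rw [Nat.coprime_comm, Nat.Prime.coprime_iff_not_dvd hpp]
      intro hdiv
      have h1 := Nat.le_of_dvd (by omega) hdiv
      have h2 : (p : ℝ) ≤ d := by exact_mod_cast h1
      linarith
    -- existence of a good pair
    have hgood : ∃ p ∈ PP y, ∃ b : ℕ, 1 ≤ b ∧ b ≤ d * p ∧ b % d = a % d ∧ Nat.Coprime b (d * p) ∧
        ¬ (x ^ τ / Real.sqrt ((d * p : ℕ) : ℝ) <
          |psiR x (d * p) b - x / (Nat.totient (d * p) : ℝ)|) ∧
        ¬ (t * p < ‖newQ (uC d a) 0 ⌊x⌋₊ p b‖ ^ 2) := by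
      by_contra hcon
      push Not at hcon
      -- every pair is bad
      set b : ((_ : ℕ) × ℕ) → ℕ := fun z =>
        if hz : Nat.Coprime d z.1 then (Nat.chineseRemainder hz a z.2 : ℕ) else 0 with hb
      have hbprop : ∀ z ∈ PC, 1 ≤ b z ∧ b z ≤ d * z.1 ∧ b z % d = a % d ∧
          b z % z.1 = z.2 ∧ Nat.Coprime (b z) (d * z.1) ∧ b z < d * z.1 := by
        rintro ⟨p, c⟩ hz
        rw [hPC, Finset.mem_sigma, Finset.mem_Icc] at hz
        obtain ⟨hp, hc1, hc2⟩ := hz
        simp only at hp hc1 hc2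
        obtain ⟨hpp, _, _⟩ := hPPprop p hp
        have hcop := hcopP p hp
        have hbz : b ⟨p, c⟩ = (Nat.chineseRemainder hcop a c : ℕ) := by
          simp only [hb]
          rw [dif_pos hcop]
        have hprop := (Nat.chineseRemainder hcop a c).2
        have hlt := Nat.chineseRemainder_lt_mul hcop a c (by omega) hpp.ne_zero
        simp only
        rw [hbz]
        set w : ℕ := (Nat.chineseRemainder hcop a c : ℕ) with hw
        have h1 : w % d = a % d := hprop.1
        have h2 : w % p = c := by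
          have h3 : w % p = c % p := hprop.2
          rw [h3, Nat.mod_eq_of_lt (by omega)]
        have h3 : w ≠ 0 := by
          intro h0
          rw [h0, Nat.zero_mod] at h2
          omega
        have h4 : Nat.Coprime w d := by
          have h5 : Nat.gcd w d = Nat.gcd a d := by
            rw [Nat.gcd_comm w d, Nat.gcd_rec d w, h1, ← Nat.gcd_rec, Nat.gcd_comm]
          rw [Nat.coprime_iff_gcd_eq_one, h5]
          exact ha
        have h5 : Nat.Coprime w p := by
          rw [Nat.coprime_comm, Nat.Prime.coprime_iff_not_dvd hpp]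
          intro hdiv
          rw [Nat.mod_eq_zero_of_dvd hdiv] at h2
          omega
        exact ⟨by omega, hlt.le, h1, h2, Nat.Coprime.mul_right h4 h5, hlt⟩
      have hfin := exc_finite d τ x
      have hle : PC.card ≤ (exc d τ x).ncard + (badPairs (uC d a) K Q t).card := by
        set A := PC.filter (fun z => (z.1, b z) ∈ exc d τ x) with hA
        set B := PC.filter (fun z => ¬ (z.1, b z) ∈ exc d τ x) with hB
        have h1 : PC.card = A.card + B.card := by
          rw [hA, hB]
          exact (Finset.card_filter_add_card_filter_not _).symm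
        have h2 : A.card ≤ (exc d τ x).ncard := by
          rw [Set.ncard_eq_toFinset_card _ hfin]
          apply Finset.card_le_card_of_injOn (fun z => (z.1, b z))
          · intro z hz
            rw [Finset.mem_coe, hA, Finset.mem_filter] at hz
            rw [Finset.mem_coe, Set.Finite.mem_toFinset]
            exact hz.2
          · rintro ⟨p, c⟩ hz ⟨p', c'⟩ hz' heq
            rw [Finset.mem_coe, hA, Finset.mem_filter] at hz hz'
            have e1 := hbprop _ hz.1
            have e2 := hbprop _ hz'.1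
            simp only [Prod.mk.injEq] at heq
            obtain ⟨h3, h4⟩ := heq
            subst h3
            have h5 := e1.2.2.2.1
            have h6 := e2.2.2.2.1
            simp only at h5 h6
            rw [h4] at h5
            congr 1
            exact h5.symm.trans h6
        have h3 : B.card ≤ (badPairs (uC d a) K Q t).card := by
          apply Finset.card_le_card
          rintro ⟨p, c⟩ hz
          rw [hB, Finset.mem_filter] at hz
          obtain ⟨hz1, hz2⟩ := hz
          obtain ⟨f1, f2, f3, f4, f5, f6⟩ := hbprop _ hz1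
          simp only at f1 f2 f3 f4 f5 f6 hz2
          have hz1' := hz1
          rw [hPC, Finset.mem_sigma, Finset.mem_Icc] at hz1'
          obtain ⟨hp, hc1, hc2⟩ := hz1'
          simp only at hp hc1 hc2
          obtain ⟨hpp, hp8, hpy⟩ := hPPprop p hp
          have hdp : ((d * p : ℕ) : ℝ) ≤ Real.sqrt x := by
            push_cast
            rw [← hdy]
            gcongr
          have h4 : ¬ (x ^ τ / Real.sqrt ((d * p : ℕ) : ℝ) <
              |psiR x (d * p) (b ⟨p, c⟩) - x / (Nat.totient (d * p) : ℝ)|) := by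
            intro hlt
            exact hz2 ⟨hpp, hdp, f1, f2, f5, hlt⟩
          push Not at h4
          have h5 := hcon p hp (b ⟨p, c⟩) f1 f2 f3 f5 h4
          unfold badPairs
          rw [Finset.mem_filter, Finset.mem_sigma, Finset.mem_Icc, Finset.mem_range]
          simp only
          refine ⟨⟨⟨hpp.one_le, ?_⟩, by omega⟩, ⌊x⌋₊, Nat.lt_pow_succ_log_self (by norm_num) _, ?_⟩
          · rw [hQ]
            apply Nat.le_floor
            refine le_trans ?_ hdp
            push_cast
            nlinarith [hpp.pos, (Nat.cast_nonneg p : (0 : ℝ) ≤ p)]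
          · have h6 : newQ (uC d a) 0 ⌊x⌋₊ p c = newQ (uC d a) 0 ⌊x⌋₊ p (b ⟨p, c⟩) := by
              rw [← newQ_mod (uC d a) 0 ⌊x⌋₊ p (b ⟨p, c⟩), f4]
            rw [h6]
            exact h5
        omega
      have hbp := card_badPairs_uC d a x t (by linarith) ht0.le
      have h1 : (PC.card : ℝ) ≤ ((exc d τ x).ncard : ℝ) + (badPairs (uC d a) K Q t).card := by
        exact_mod_cast hle
      have h2 : ((exc d τ x).ncard : ℝ) ≤ 1 / (128 * d ^ 2) * (x / Real.log x) := by
        have h3 := hx1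
        rw [Real.norm_eq_abs, Real.norm_eq_abs, abs_of_nonneg (by positivity),
          abs_of_nonneg (by positivity)] at h3
        exact h3
      have h3 : ((badPairs (uC d a) K Q t).card : ℝ) < 1 / (128 * d ^ 2) * (x / Real.log x) := by
        rw [← mul_lt_mul_iff_left₀ ht0]
        refine lt_of_le_of_lt hbp ?_
        have h4 := log_cube_le x (by linarith) (ε / 8) (by positivity)
        have h5 : Real.log x ≤ x ^ (ε / 4) / (ε / 4) := Real.log_le_rpow_div hx0.le (by positivity)
        have h6 : x ^ 2 * x ^ (ε / 8) * x ^ (ε / 4) * x ^ (ε / 2) ≤ x * t := by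
          rw [ht]
          nth_rewrite 5 [← Real.rpow_one x]
          rw [← Real.rpow_natCast, ← Real.rpow_add hx0, ← Real.rpow_add hx0, ← Real.rpow_add hx0,
            ← Real.rpow_add hx0]
          apply Real.rpow_le_rpow_of_exponent_le (by linarith)
          push_cast
          linarith
        have h7 : 1 / (128 * (d : ℝ) ^ 2) * (x / Real.log x) * t
            = x * t / (128 * d ^ 2 * Real.log x) := by
          field_simp
        rw [h7, lt_div_iff₀ (by positivity)]
        calc 2200 * x ^ 2 * (Real.log x) ^ 3 * (128 * d ^ 2 * Real.log x)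
            ≤ 2200 * x ^ 2 * ((3 / (ε / 8)) ^ 3 * x ^ (ε / 8)) * (128 * d ^ 2 * (x ^ (ε / 4) / (ε / 4))) := by
              gcongr
          _ = (2200 * (3 / (ε / 8)) ^ 3 * (128 * d ^ 2) * (4 / ε)) * (x ^ 2 * x ^ (ε / 8) * x ^ (ε / 4)) := by
              field_simp
          _ < x ^ (ε / 2) * (x ^ 2 * x ^ (ε / 8) * x ^ (ε / 4)) := by
              apply mul_lt_mul_of_pos_right _ (by positivity)
              linarith
          _ = x ^ 2 * x ^ (ε / 8) * x ^ (ε / 4) * x ^ (ε / 2) := by ring
          _ ≤ x * t := h6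
      have h4 : x / (32 * d ^ 2 * Real.log x) = 4 * (1 / (128 * d ^ 2) * (x / Real.log x)) := by
        field_simp
        norm_num
      have h5 : 0 < 1 / (128 * d ^ 2) * (x / Real.log x) := by positivity
      linarith
    -- use the good pair
    obtain ⟨p, hp, b, hb1, hb2, hba, hbc, hb3, hb4⟩ := hgood
    push Not at hb3 hb4
    obtain ⟨hpp, hp8, hpy⟩ := hPPprop p hp
    have hcop := hcopP p hp
    have hp0 : (0 : ℝ) < p := by linarith
    have hp2 : (2 : ℝ) ≤ p := by exact_mod_cast hpp.two_le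
    have huC : uC d a = uC d b := by
      rw [← uC_mod d a, ← hba, uC_mod]
    have hpsi : psiR x d a = psiR x d b := by
      unfold psiR
      rw [hba]
    rw [huC, norm_newQ_uC d p b x hpp hcop] at hb4
    have hφ : (Nat.totient (d * p) : ℝ) = Nat.totient d * ((p : ℝ) - 1) := by
      rw [Nat.totient_mul hcop, Nat.totient_prime hpp]
      push_cast
      rw [Nat.cast_sub hpp.one_le, Nat.cast_one]
    have hφd : (1 : ℝ) ≤ Nat.totient d := by
      exact_mod_cast Nat.totient_pos.mpr (by omega : 0 < d)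
    have hpx : (p : ℝ) ≤ Real.sqrt x := by
      calc (p : ℝ) ≤ y := hpy
        _ = 1 * y := (one_mul y).symm
        _ ≤ d * y := by gcongr
        _ = Real.sqrt x := hdy
    have hpx2 : Real.sqrt p ≤ x ^ (1 / 4 : ℝ) := by
      have h1 : Real.sqrt p ≤ Real.sqrt (Real.sqrt x) := Real.sqrt_le_sqrt hpx
      refine h1.trans (le_of_eq ?_)
      rw [Real.sqrt_eq_rpow, Real.sqrt_eq_rpow, ← Real.rpow_mul hx0.le]
      norm_num
    -- bound 1
    have hA : |(p : ℝ) * psiR x (d * p) b - psiR x d b| ≤ x ^ (3 / 4 + η + ε) := by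
      have h1 : |(p : ℝ) * psiR x (d * p) b - psiR x d b| ^ 2 ≤ (x ^ (3 / 4 + η + ε)) ^ 2 := by
        refine hb4.trans ?_
        have h2 : (x ^ (3 / 4 + η + ε)) ^ 2 = x ^ (3 / 2 + 2 * η + 2 * ε) := by
          rw [← Real.rpow_natCast, ← Real.rpow_mul hx0.le]
          congr 1
          push_cast
          ring
        rw [h2]
        calc t * p ≤ x ^ (1 + ε) * x ^ (1 / 2 : ℝ) := by
              rw [ht]
              rw [Real.sqrt_eq_rpow] at hpx
              gcongr
          _ = x ^ (1 + ε + 1 / 2) := by rw [← Real.rpow_add hx0]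
          _ ≤ x ^ (3 / 2 + 2 * η + 2 * ε) := by
              apply Real.rpow_le_rpow_of_exponent_le (by linarith)
              linarith
      exact le_of_sq_le_sq h1 (by positivity)
    -- bound 2
    have hB : |(p : ℝ) * psiR x (d * p) b - p * (x / (Nat.totient (d * p) : ℝ))| ≤ x ^ (3 / 4 + η + ε) := by
      rw [← mul_sub, abs_mul, abs_of_pos hp0]
      have hsq : 0 < Real.sqrt ((d * p : ℕ) : ℝ) := by
        apply Real.sqrt_pos.mpr
        push_cast
        positivity
      have h1 : Real.sqrt p ≤ Real.sqrt ((d * p : ℕ) : ℝ) := by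
        apply Real.sqrt_le_sqrt
        push_cast
        nlinarith
      have h2 : (p : ℝ) = Real.sqrt p * Real.sqrt p := (Real.mul_self_sqrt hp0.le).symm
      have hsp : 0 < Real.sqrt p := Real.sqrt_pos.mpr hp0
      calc (p : ℝ) * |psiR x (d * p) b - x / (Nat.totient (d * p) : ℝ)|
          ≤ p * (x ^ τ / Real.sqrt ((d * p : ℕ) : ℝ)) := by gcongr
        _ ≤ p * (x ^ τ / Real.sqrt p) := by gcongr
        _ = Real.sqrt p * x ^ τ := by
            nth_rewrite 1 [h2]
            field_simp
        _ ≤ x ^ (1 / 4 : ℝ) * x ^ τ := by gcongr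
        _ = x ^ (3 / 4 + η + ε) := by
            rw [← Real.rpow_add hx0]
            congr 1
            rw [hτ]
            ring
    -- bound 3
    have hC : |(p : ℝ) * (x / (Nat.totient (d * p) : ℝ)) - x / (Nat.totient d : ℝ)|
        ≤ 16 * d * x ^ (3 / 4 + η + ε) := by
      rw [hφ]
      have hp1 : (0 : ℝ) < (p : ℝ) - 1 := by linarith
      have h1 : (p : ℝ) * (x / (Nat.totient d * ((p : ℝ) - 1))) - x / (Nat.totient d : ℝ)
          = x / (Nat.totient d * ((p : ℝ) - 1)) := by
        have : (Nat.totient d : ℝ) ≠ 0 := by linarith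
        field_simp
        ring
      rw [h1, abs_of_nonneg (by positivity)]
      have h2 : x / (Nat.totient d * ((p : ℝ) - 1)) ≤ x / (y / 16) := by
        apply div_le_div_of_nonneg_left hx0.le (by positivity)
        have h3 : y / 16 ≤ (p : ℝ) - 1 := by linarith
        nlinarith
      refine h2.trans ?_
      have h3 : x / (y / 16) = 16 * d * Real.sqrt x := by
        rw [hydef]
        have hsx : Real.sqrt x * Real.sqrt x = x := Real.mul_self_sqrt hx0.le
        have hsx0 : 0 < Real.sqrt x := Real.sqrt_pos.mpr hx0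
        rw [div_div_eq_mul_div, div_div_eq_mul_div, div_eq_iff (by positivity)]
        linear_combination (-16 * (d : ℝ)) * hsx
      rw [h3]
      have h4 : Real.sqrt x ≤ x ^ (3 / 4 + η + ε) := by
        rw [Real.sqrt_eq_rpow]
        apply Real.rpow_le_rpow_of_exponent_le (by linarith)
        linarith
      gcongr
    rw [hpsi]
    have hfinal : psiR x d b - x / (Nat.totient d : ℝ)
        = -((p : ℝ) * psiR x (d * p) b - psiR x d b)
          + ((p : ℝ) * psiR x (d * p) b - p * (x / (Nat.totient (d * p) : ℝ)))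
          + ((p : ℝ) * (x / (Nat.totient (d * p) : ℝ)) - x / (Nat.totient d : ℝ)) := by ring
    rw [hfinal]
    have h1 := abs_add_three (-((p : ℝ) * psiR x (d * p) b - psiR x d b))
      ((p : ℝ) * psiR x (d * p) b - p * (x / (Nat.totient (d * p) : ℝ)))
      ((p : ℝ) * (x / (Nat.totient (d * p) : ℝ)) - x / (Nat.totient d : ℝ))
    rw [abs_neg] at h1
    calc _ ≤ _ := h1
      _ ≤ x ^ (3 / 4 + η + ε) + x ^ (3 / 4 + η + ε) + 16 * d * x ^ (3 / 4 + η + ε) := by gcongr
      _ = (2 + 16 * d) * x ^ (3 / 4 + η + ε) := by ring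
  obtain ⟨x₁, hx₁⟩ := Filter.eventually_atTop.mp key
  set x₂ : ℝ := max x₁ 1 with hx₂
  refine ⟨max (2 + 16 * d) ((Real.log 4 + 4) * x₂ + x₂), ?_⟩
  intro x hx a ha
  have hx0 : 0 < x := by linarith
  by_cases hxx : x₂ ≤ x
  · refine (hx₁ x ((le_max_left _ _).trans hxx) a ha).trans ?_
    gcongr
    exact le_max_left _ _
  · push Not at hxx
    have h1 : psiR x d a ≤ (Real.log 4 + 4) * x := by
      have h2 := Chebyshev.psi_le_const_mul_self (x := x) hx0.le
      refine le_trans ?_ h2
      unfold psiR Chebyshev.psi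
      have h3 : Icc 1 ⌊x⌋₊ = Ioc 0 ⌊x⌋₊ := by
        ext n; simp only [Finset.mem_Icc, Finset.mem_Ioc]; omega
      rw [h3]
      exact Finset.sum_le_sum_of_subset_of_nonneg (Finset.filter_subset _ _)
        (fun _ _ _ => ArithmeticFunction.vonMangoldt_nonneg)
    have h2 : 0 ≤ psiR x d a := Finset.sum_nonneg fun _ _ => ArithmeticFunction.vonMangoldt_nonneg
    have hφd : (1 : ℝ) ≤ Nat.totient d := by
      exact_mod_cast Nat.totient_pos.mpr (by omega : 0 < d)
    have h3 : x / (Nat.totient d : ℝ) ≤ x := div_le_self hx0.le hφd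
    have h4 : 0 ≤ x / (Nat.totient d : ℝ) := by positivity
    have h5 : 1 ≤ x ^ (3 / 4 + η + ε) := Real.one_le_rpow hx (by linarith)
    have hlog4 : 0 ≤ Real.log 4 := Real.log_nonneg (by norm_num)
    have hx21 : 1 ≤ x₂ := le_max_right _ _
    calc |psiR x d a - x / (Nat.totient d : ℝ)| ≤ (Real.log 4 + 4) * x + x := by
          rw [abs_le]
          constructor
          · have : 0 ≤ (Real.log 4 + 4) * x := by positivity
            linarith
          · linarith
      _ ≤ (Real.log 4 + 4) * x₂ + x₂ := by gcongr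
      _ = ((Real.log 4 + 4) * x₂ + x₂) * 1 := (mul_one _).symm
      _ ≤ max (2 + 16 * (d : ℝ)) ((Real.log 4 + 4) * x₂ + x₂) * x ^ (3 / 4 + η + ε) := by
          gcongr
          exact le_max_right _ _

end Pool.Agent.MC
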