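import Mathlib
import Pool.Agent.Lib.MP_9cfc0a_nt.QuasiC

set_option autoImplicit false

namespace Pool.Agent.MC

open Finset MeasureTheory Real Filter Asymptotics

/-- pairs `(p, b)` in the class of `a` mod `d` -/
def prs (d a : ℕ) (x : ℝ) : Set (ℕ × ℕ) :=
  {y | y.1.Prime ∧ ((d * y.1 : ℕ) : ℝ) ≤ Real.sqrt x ∧ 1 ≤ y.2 ∧ y.2 ≤ d * y.1 ∧
    Nat.Coprime y.2 (d * y.1) ∧ y.2 % d = a % d}

/-- pairs in the class of `a` mod `d` that satisfy the bound -/
def good (d a : ℕ) (τ x : ℝ) : Set (ℕ × ℕ) :=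
  {y | y ∈ prs d a x ∧ |psiR x (d * y.1) y.2 - x / (Nat.totient (d * y.1) : ℝ)|
    ≤ x ^ τ / Real.sqrt ((d * y.1 : ℕ) : ℝ)}

lemma prs_subset (d a : ℕ) (X : ℝ) :
    prs d a X ⊆ ((Icc 1 ⌊Real.sqrt X⌋₊) ×ˢ (Icc 1 ⌊Real.sqrt X⌋₊) : Finset (ℕ × ℕ)) := by
  rintro ⟨p, b⟩ ⟨h1, h2, h3, h4, _⟩
  simp only at h1 h2 h3 h4
  have hd : 1 ≤ d := by
    rcases Nat.eq_zero_or_pos d with h | h
    · subst h; omega
    · exact h
  have h5 : d * p ≤ ⌊Real.sqrt X⌋₊ := Nat.le_floor h2
  have h6 : p ≤ d * p := Nat.le_mul_of_pos_left p hd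
  rw [Finset.mem_coe, Finset.mem_product, Finset.mem_Icc, Finset.mem_Icc]
  exact ⟨⟨h1.one_le, by simp only; omega⟩, ⟨h3, by simp only; omega⟩⟩

lemma prs_finite (d a : ℕ) (x : ℝ) : (prs d a x).Finite :=
  Set.Finite.subset (Finset.finite_toSet _) (prs_subset d a x)

lemma good_finite (d a : ℕ) (τ x : ℝ) : (good d a τ x).Finite :=
  (prs_finite d a x).subset (fun _ h => h.1)

/-- lower bound for the number of pairs in a class -/
lemma eventually_card_prs (d : ℕ) (hd : 1 ≤ d) :
    ∀ᶠ x : ℝ in atTop, ∀ a : ℕ, Nat.Coprime a d →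
      x / (32 * d ^ 2 * Real.log x) ≤ ((prs d a x).ncard : ℝ) := by
  classical
  have hdR : (1 : ℝ) ≤ d := by exact_mod_cast hd
  have hd0 : (0 : ℝ) < d := by linarith
  have hy : Tendsto (fun x : ℝ => Real.sqrt x / d) atTop atTop :=
    (Real.tendsto_sqrt_atTop).atTop_div_const hd0
  have hcard := hy.eventually eventually_card_PP
  filter_upwards [hcard, eventually_ge_atTop (10 : ℝ), hy.eventually_ge_atTop (16 * d)]
    with x hx2 hx10 hx4
  intro a ha
  have hx0 : 0 < x := by linarith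
  have hlogx : 0 < Real.log x := Real.log_pos (by linarith)
  set y : ℝ := Real.sqrt x / d with hydef
  have hy0 : 0 < y := by positivity
  have hy16 : 16 ≤ y := by nlinarith
  have hdy : (d : ℝ) * y = Real.sqrt x := by rw [hydef]; field_simp
  have hylog : Real.log y ≤ Real.log x := by
    apply Real.log_le_log hy0
    rw [hydef, div_le_iff₀ hd0]
    have h1 : Real.sqrt x ≤ x := by
      have h2 : 1 ≤ Real.sqrt x := by rw [Real.one_le_sqrt]; linarith
      calc Real.sqrt x = Real.sqrt x * 1 := (mul_one _).symm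
        _ ≤ Real.sqrt x * Real.sqrt x := by gcongr
        _ = x := Real.mul_self_sqrt hx0.le
    nlinarith
  have hlogy : 0 < Real.log y := Real.log_pos (by linarith)
  set PC : Finset ((_ : ℕ) × ℕ) := (PP y).sigma (fun p => Icc 1 (p - 1)) with hPC
  have hPCcard : x / (32 * d ^ 2 * Real.log x) ≤ (PC.card : ℝ) := by
    rw [hPC, Finset.card_sigma]
    have h1 : ((∑ p ∈ PP y, (Icc 1 (p - 1)).card : ℕ) : ℝ) = ∑ p ∈ PP y, ((p : ℝ) - 1) := by
      push_cast
      refine Finset.sum_congr rfl fun p hp => ?_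
      unfold PP at hp
      rw [Finset.mem_filter] at hp
      rw [Nat.card_Icc, Nat.add_sub_cancel, Nat.cast_sub hp.2.one_le, Nat.cast_one]
    rw [h1]
    refine le_trans ?_ hx2
    have h3 : y ^ 2 = x / d ^ 2 := by
      rw [hydef, div_pow, Real.sq_sqrt hx0.le]
    rw [h3, div_le_div_iff₀ (by positivity) (by positivity)]
    calc x * (32 * Real.log y) ≤ x * (32 * Real.log x) := by gcongr
      _ = x / d ^ 2 * (32 * d ^ 2 * Real.log x) := by field_simp
  have hPPprop : ∀ p ∈ PP y, p.Prime ∧ y / 8 < p ∧ (p : ℝ) ≤ y := by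
    intro p hp
    unfold PP at hp
    rw [Finset.mem_filter, Finset.mem_Ioc] at hp
    refine ⟨hp.2, (Nat.floor_lt (by positivity)).mp hp.1.1, ?_⟩
    calc (p : ℝ) ≤ (⌊y⌋₊ : ℝ) := by exact_mod_cast hp.1.2
      _ ≤ y := Nat.floor_le hy0.le
  have hcopP : ∀ p ∈ PP y, Nat.Coprime d p := by
    intro p hp
    obtain ⟨hpp, hp8, _⟩ := hPPprop p hp
    rw [Nat.coprime_comm, Nat.Prime.coprime_iff_not_dvd hpp]
    intro hdiv
    have h1 := Nat.le_of_dvd (by omega) hdiv
    have h2 : (p : ℝ) ≤ d := by exact_mod_cast h1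
    linarith
  set b : ((_ : ℕ) × ℕ) → ℕ := fun z =>
    if hz : Nat.Coprime d z.1 then (Nat.chineseRemainder hz a z.2 : ℕ) else 0 with hb
  have hbprop : ∀ z ∈ PC, 1 ≤ b z ∧ b z ≤ d * z.1 ∧ b z % d = a % d ∧
      b z % z.1 = z.2 ∧ Nat.Coprime (b z) (d * z.1) ∧ b z < d * z.1 := by
    rintro ⟨p, c⟩ hz
    rw [hPC, Finset.mem_sigma, Finset.mem_Icc] at hz
    obtain ⟨hp, hc1, hc2⟩ := hz
    simp only at hp hc1 hc2
    obtain ⟨hpp, _, _⟩ := hPPprop p hp
    have hcop := hcopP p hp
    have hbz : b ⟨p, c⟩ = (Nat.chineseRemainder hcop a c : ℕ) := by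
      simp only [hb]
      rw [dif_pos hcop]
    have hprop := (Nat.chineseRemainder hcop a c).2
    have hlt := Nat.chineseRemainder_lt_mul hcop a c (by omega) hpp.ne_zero
    simp only
    rw [hbz]
    set w : ℕ := (Nat.chineseRemainder hcop a c : ℕ) with hw
    have h1 : w % d = a % d := hprop.1
    have h2 : w % p = c := by
      have h3 : w % p = c % p := hprop.2
      rw [h3, Nat.mod_eq_of_lt (by omega)]
    have h3 : w ≠ 0 := by
      intro h0
      rw [h0, Nat.zero_mod] at h2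
      omega
    have h4 : Nat.Coprime w d := by
      have h5 : Nat.gcd w d = Nat.gcd a d := by
        rw [Nat.gcd_comm w d, Nat.gcd_rec d w, h1, ← Nat.gcd_rec, Nat.gcd_comm]
      rw [Nat.coprime_iff_gcd_eq_one, h5]
      exact ha
    have h5 : Nat.Coprime w p := by
      rw [Nat.coprime_comm, Nat.Prime.coprime_iff_not_dvd hpp]
      intro hdiv
      rw [Nat.mod_eq_zero_of_dvd hdiv] at h2
      omega
    exact ⟨by omega, hlt.le, h1, h2, Nat.Coprime.mul_right h4 h5, hlt⟩
  refine hPCcard.trans ?_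
  have hfin := prs_finite d a x
  have h2 : PC.card ≤ (prs d a x).ncard := by
    rw [Set.ncard_eq_toFinset_card _ hfin]
    apply Finset.card_le_card_of_injOn (fun z => (z.1, b z))
    · rintro ⟨p, c⟩ hz
      rw [Finset.mem_coe] at hz
      rw [Finset.mem_coe, Set.Finite.mem_toFinset]
      obtain ⟨f1, f2, f3, f4, f5, f6⟩ := hbprop _ hz
      rw [hPC, Finset.mem_sigma] at hz
      obtain ⟨hpp, hp8, hpy⟩ := hPPprop p hz.1
      refine ⟨hpp, ?_, f1, f2, f5, f3⟩
      simp only
      push_cast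
      rw [← hdy]
      gcongr
    · rintro ⟨p, c⟩ hz ⟨p', c'⟩ hz' heq
      rw [Finset.mem_coe] at hz hz'
      have e1 := hbprop _ hz
      have e2 := hbprop _ hz'
      simp only [Prod.mk.injEq] at heq
      obtain ⟨h3, h4⟩ := heq
      subst h3
      have h5 := e1.2.2.2.1
      have h6 := e2.2.2.2.1
      simp only at h5 h6
      rw [h4] at h5
      congr 1
      exact h5.symm.trans h6
  exact_mod_cast h2

/-- power saving for the exceptional pairs gives many good pairs in each class -/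
theorem good_of_excMax (d : ℕ) (hd : 1 ≤ d) (τ δ₀ C : ℝ) (hδ₀ : 0 < δ₀)
    (h : ∀ X : ℝ, 1 ≤ X → ((excMax d τ X).ncard : ℝ) ≤ C * X ^ (1 - δ₀)) (δ : ℝ) (hδ : 0 < δ) :
    ∀ᶠ x : ℝ in atTop, ∀ a : ℕ, Nat.Coprime a d → x ^ (1 - δ) ≤ ((good d a τ x).ncard : ℝ) := by
  have hdR : (1 : ℝ) ≤ d := by exact_mod_cast hd
  set e : ℝ := min δ δ₀ / 2 with he
  have he0 : 0 < e := by rw [he]; positivity
  have he1 : 2 * e ≤ δ := by rw [he]; linarith [min_le_left δ δ₀]
  have he2 : 2 * e ≤ δ₀ := by rw [he]; linarith [min_le_right δ δ₀]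
  have hpow : Tendsto (fun x : ℝ => x ^ (e / 2)) atTop atTop := tendsto_rpow_atTop (by positivity)
  filter_upwards [eventually_card_prs d hd, eventually_ge_atTop (10 : ℝ),
    hpow.eventually_ge_atTop (32 * d ^ 2 * (2 / e)), hpow.eventually_ge_atTop (|C| + 1)]
    with x hx1 hx10 hx3 hx4
  intro a ha
  have hx0 : 0 < x := by linarith
  have hlogx : 0 < Real.log x := Real.log_pos (by linarith)
  have h1 := hx1 a ha
  have h2 : prs d a x ⊆ good d a τ x ∪ excMax d τ x := by
    rintro ⟨p, b⟩ hy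
    by_cases hb : |psiR x (d * p) b - x / (Nat.totient (d * p) : ℝ)|
        ≤ x ^ τ / Real.sqrt ((d * p : ℕ) : ℝ)
    · exact Or.inl ⟨hy, hb⟩
    · push Not at hb
      obtain ⟨g1, g2, g3, g4, g5, g6⟩ := hy
      exact Or.inr (exc_subset_excMax d τ x ⟨g1, g2, g3, g4, g5, hb⟩)
  have h3 : (prs d a x).ncard ≤ (good d a τ x).ncard + (excMax d τ x).ncard :=
    (Set.ncard_le_ncard h2 ((good_finite d a τ x).union (excMax_finite d τ x))).trans
      (Set.ncard_union_le _ _)
  have h4 : ((prs d a x).ncard : ℝ) ≤ ((good d a τ x).ncard : ℝ) + ((excMax d τ x).ncard : ℝ) := by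
    exact_mod_cast h3
  have h5 := h x (by linarith)
  have h6 : C * x ^ (1 - δ₀) ≤ |C| * x ^ (1 - 2 * e) := by
    calc C * x ^ (1 - δ₀) ≤ |C| * x ^ (1 - δ₀) := by
          gcongr
          exact le_abs_self C
      _ ≤ |C| * x ^ (1 - 2 * e) := by
          gcongr
          · linarith
  have h7 : x ^ (1 - e) ≤ x / (32 * d ^ 2 * Real.log x) := by
    rw [le_div_iff₀ (by positivity)]
    have h8 : Real.log x ≤ x ^ (e / 2) / (e / 2) := Real.log_le_rpow_div hx0.le (by positivity)
    calc x ^ (1 - e) * (32 * d ^ 2 * Real.log x)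
        ≤ x ^ (1 - e) * (32 * d ^ 2 * (x ^ (e / 2) / (e / 2))) := by gcongr
      _ = x ^ (1 - e) * x ^ (e / 2) * (32 * d ^ 2 * (2 / e)) := by field_simp
      _ ≤ x ^ (1 - e) * x ^ (e / 2) * x ^ (e / 2) := by gcongr
      _ = x ^ (1 - e + e / 2 + e / 2) := by
          rw [← Real.rpow_add hx0, ← Real.rpow_add hx0]
      _ = x := by
          rw [show 1 - e + e / 2 + e / 2 = 1 by ring, Real.rpow_one]
  have h8 : x ^ (1 - δ) ≤ x ^ (1 - 2 * e) :=
    Real.rpow_le_rpow_of_exponent_le (by linarith) (by linarith)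
  have h9 : (|C| + 1) * x ^ (1 - 2 * e) ≤ x ^ (1 - e) := by
    calc (|C| + 1) * x ^ (1 - 2 * e) ≤ x ^ (e / 2) * x ^ (1 - 2 * e) := by gcongr
      _ = x ^ (e / 2 + (1 - 2 * e)) := by rw [← Real.rpow_add hx0]
      _ ≤ x ^ (1 - e) := Real.rpow_le_rpow_of_exponent_le (by linarith) (by linarith)
  nlinarith

/-- Few good pairs in every class suffice for the bound of the error term at level `d`. -/
theorem EB_of_good (d : ℕ) (hd : 1 ≤ d) (η : ℝ) (hη : 0 ≤ η)
    (h : ∀ ε : ℝ, 0 < ε → ∀ δ : ℝ, 0 < δ → ∀ᶠ x : ℝ in atTop, ∀ a : ℕ, Nat.Coprime a d →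
      x ^ (1 - δ) ≤ ((good d a (1 / 2 + η + ε) x).ncard : ℝ)) : EB d (3 / 4 + η) := by
  classical
  intro ε hε
  have hdR : (1 : ℝ) ≤ d := by exact_mod_cast hd
  have hd0 : (0 : ℝ) < d := by linarith
  set τ : ℝ := 1 / 2 + η + ε with hτ
  set δ : ℝ := min (ε / 8) (1 / 8) with hδ
  have hδ0 : 0 < δ := by positivity
  have hδ1 : δ ≤ ε / 8 := min_le_left _ _
  have hδ2 : δ ≤ 1 / 8 := min_le_right _ _
  have key : ∀ᶠ x : ℝ in atTop, ∀ a : ℕ, Nat.Coprime a d →
      |psiR x d a - x / (Nat.totient d : ℝ)| ≤ (2 + 4 * d) * x ^ (3 / 4 + η + ε) := by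
    have hpow : Tendsto (fun x : ℝ => x ^ (δ / 2)) atTop atTop := tendsto_rpow_atTop (by positivity)
    have hpow2 : Tendsto (fun x : ℝ => x ^ (1 / 8 : ℝ)) atTop atTop := tendsto_rpow_atTop (by norm_num)
    filter_upwards [h ε hε δ hδ0, hpow.eventually_ge_atTop (2200 * (3 / (ε / 8)) ^ 3 + 2),
      eventually_ge_atTop (10 : ℝ), hpow2.eventually_ge_atTop (2 * (d : ℝ) ^ 2)] with x hx1 hx3 hx10 hx4
    intro a ha
    have hx0 : 0 < x := by linarith
    have hx1' : (1 : ℝ) ≤ x := by linarith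
    set t : ℝ := x ^ (1 + ε) with ht
    have ht0 : 0 < t := by positivity
    set K : ℕ := Nat.log 2 ⌊x⌋₊ + 1 with hK
    set Q : ℕ := ⌊Real.sqrt x⌋₊ with hQ
    set M : ℕ := ⌊x ^ (1 / 2 - δ)⌋₊ with hM
    have hMle : (M : ℝ) ≤ x ^ (1 / 2 - δ) := Nat.floor_le (by positivity)
    have hlarge : ∀ p : ℕ, x ^ (1 / 2 - δ) < ((d * p : ℕ) : ℝ) → d < p := by
      intro p hp
      have h1 : x ^ (1 / 8 : ℝ) ≤ x ^ (1 / 2 - δ) :=
        Real.rpow_le_rpow_of_exponent_le hx1' (by linarith)
      push_cast at hp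
      have h2 : 2 * (d : ℝ) ^ 2 < d * p := by linarith
      have h3 : (d : ℝ) < p := by nlinarith
      exact_mod_cast h3
    -- existence of a good pair
    have hgood : ∃ p b : ℕ, (p, b) ∈ good d a τ x ∧ x ^ (1 / 2 - δ) < ((d * p : ℕ) : ℝ) ∧
        ¬ (t * p < ‖newQ (uC d a) 0 ⌊x⌋₊ p b‖ ^ 2) := by
      by_contra hcon
      push Not at hcon
      have hfin := good_finite d a τ x
      set G : Finset (ℕ × ℕ) := hfin.toFinset with hG
      have hcard : (good d a τ x).ncard = G.card := Set.ncard_eq_toFinset_card _ hfin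
      set G1 := G.filter (fun y => ((d * y.1 : ℕ) : ℝ) ≤ x ^ (1 / 2 - δ)) with hG1
      set G2 := G.filter (fun y => ¬ ((d * y.1 : ℕ) : ℝ) ≤ x ^ (1 / 2 - δ)) with hG2
      have hsplit : G.card = G1.card + G2.card := by
        rw [hG1, hG2]
        exact (Finset.card_filter_add_card_filter_not _).symm
      have hc1 : (G1.card : ℝ) ≤ x ^ (1 - 2 * δ) := by
        have h1 : G1 ⊆ (Icc 1 M) ×ˢ (Icc 1 M) := by
          rintro ⟨p, b⟩ hy
          rw [hG1, Finset.mem_filter, hG, Set.Finite.mem_toFinset] at hy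
          obtain ⟨⟨⟨hp, _, ha1, ha2, _⟩, _⟩, hsm⟩ := hy
          simp only at hp ha1 ha2 hsm
          have h5 : d * p ≤ M := Nat.le_floor hsm
          have h6 : p ≤ d * p := Nat.le_mul_of_pos_left p hd
          have hp1 := hp.one_le
          rw [Finset.mem_product, Finset.mem_Icc, Finset.mem_Icc]
          exact ⟨⟨hp1, by simp only; omega⟩, ⟨ha1, by simp only; omega⟩⟩
        have h2 := Finset.card_le_card h1
        rw [Finset.card_product, Nat.card_Icc, Nat.add_sub_cancel] at h2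
        calc (G1.card : ℝ) ≤ ((M * M : ℕ) : ℝ) := by exact_mod_cast h2
          _ = (M : ℝ) * M := by push_cast; ring
          _ ≤ x ^ (1 / 2 - δ) * x ^ (1 / 2 - δ) := by gcongr
          _ = x ^ (1 - 2 * δ) := by
              rw [← Real.rpow_add hx0]
              congr 1
              ring
      have hc2' : G2.card ≤ (badPairs (uC d a) K Q t).card := by
        set F : ℕ × ℕ → (_ : ℕ) × ℕ := fun y => ⟨y.1, y.2 % y.1⟩ with hF
        apply Finset.card_le_card_of_injOn F
        · rintro ⟨p, b⟩ hy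
          rw [Finset.mem_coe, hG2, Finset.mem_filter, hG, Set.Finite.mem_toFinset] at hy
          obtain ⟨hgd, hla⟩ := hy
          simp only at hla
          push Not at hla
          have h1 := hcon p b hgd hla
          obtain ⟨⟨hp, hq, ha1, ha2, hcop, hcl⟩, _⟩ := hgd
          simp only at hp hq ha1 ha2 hcop hcl
          rw [Finset.mem_coe]
          simp only [hF]
          unfold badPairs
          rw [Finset.mem_filter, Finset.mem_sigma, Finset.mem_Icc, Finset.mem_range]
          simp only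
          have h9 : p ≤ Q := by
            have h10 : d * p ≤ Q := Nat.le_floor hq
            have h6 : p ≤ d * p := Nat.le_mul_of_pos_left p hd
            omega
          refine ⟨⟨⟨hp.one_le, h9⟩, Nat.mod_lt _ hp.pos⟩, ⌊x⌋₊,
            Nat.lt_pow_succ_log_self (by norm_num) _, ?_⟩
          rw [newQ_mod]
          exact h1
        · rintro ⟨p, b⟩ hy ⟨p', b'⟩ hy' heq
          rw [Finset.mem_coe, hG2, Finset.mem_filter, hG, Set.Finite.mem_toFinset] at hy hy'
          obtain ⟨⟨⟨hp, hq, hb1, hb2, hcop, hcl⟩, _⟩, hla⟩ := hy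
          obtain ⟨⟨⟨hp', hq', hb1', hb2', hcop', hcl'⟩, _⟩, hla'⟩ := hy'
          simp only at hp hq hb1 hb2 hcop hcl hla hp' hq' hb1' hb2' hcop' hcl' hla'
          push Not at hla
          simp only [hF, Sigma.mk.injEq, heq_eq_eq] at heq
          obtain ⟨h3, h4⟩ := heq
          subst h3
          have hdp' : d < p := hlarge p hla
          have hcop : Nat.Coprime d p := by
            rw [Nat.coprime_comm, Nat.Prime.coprime_iff_not_dvd hp]
            intro hdiv
            have := Nat.le_of_dvd (by omega) hdiv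
            omega
          have h2 : b % d = b' % d := by rw [hcl, hcl']
          have h5 : b % (d * p) = b' % (d * p) :=
            (Nat.modEq_and_modEq_iff_modEq_mul hcop).mp ⟨h2, h4⟩
          congr 1
          have hdp0 : 0 < d * p := Nat.mul_pos (by omega) hp.pos
          rcases Nat.lt_or_ge b (d * p) with h6 | h6
          · rcases Nat.lt_or_ge b' (d * p) with h7 | h7
            · rwa [Nat.mod_eq_of_lt h6, Nat.mod_eq_of_lt h7] at h5
            · have h8 : b' = d * p := by omega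
              rw [Nat.mod_eq_of_lt h6, h8, Nat.mod_self] at h5
              omega
          · have h8 : b = d * p := by omega
            rcases Nat.lt_or_ge b' (d * p) with h7 | h7
            · rw [h8, Nat.mod_self, Nat.mod_eq_of_lt h7] at h5
              omega
            · omega
      have hbp := card_badPairs_uC d a x t (by linarith) ht0.le
      set K₀ : ℝ := 2200 * (3 / (ε / 8)) ^ 3 with hK₀
      have hK₀0 : 0 ≤ K₀ := by positivity
      have hc2 : (G2.card : ℝ) ≤ K₀ * x ^ (1 - 2 * δ) := by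
        have h0 : (G2.card : ℝ) ≤ ((badPairs (uC d a) K Q t).card : ℝ) := by exact_mod_cast hc2'
        refine h0.trans ?_
        rw [← mul_le_mul_iff_left₀ ht0]
        refine hbp.trans ?_
        have h4 := log_cube_le x (by linarith) (ε / 8) (by positivity)
        have h5 : x ^ 2 * x ^ (ε / 8) ≤ x ^ (1 - 2 * δ) * t := by
          rw [ht, ← Real.rpow_natCast, ← Real.rpow_add hx0, ← Real.rpow_add hx0]
          apply Real.rpow_le_rpow_of_exponent_le hx1'
          push_cast
          linarith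
        calc 2200 * x ^ 2 * (Real.log x) ^ 3 ≤ 2200 * x ^ 2 * ((3 / (ε / 8)) ^ 3 * x ^ (ε / 8)) := by
              gcongr
          _ = K₀ * (x ^ 2 * x ^ (ε / 8)) := by rw [hK₀]; ring
          _ ≤ K₀ * (x ^ (1 - 2 * δ) * t) := by gcongr
          _ = K₀ * x ^ (1 - 2 * δ) * t := by ring
      have h1 : ((good d a τ x).ncard : ℝ) = G1.card + G2.card := by
        rw [hcard, hsplit]
        push_cast
        ring
      have h2 := hx1 a ha
      rw [h1] at h2
      have h3 : x ^ (δ / 2) * x ^ (1 - 2 * δ) ≤ x ^ (1 - δ) := by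
        rw [← Real.rpow_add hx0]
        apply Real.rpow_le_rpow_of_exponent_le hx1'
        linarith
      have h4 : 0 < x ^ (1 - 2 * δ) := by positivity
      have h5 : (K₀ + 2) * x ^ (1 - 2 * δ) ≤ x ^ (δ / 2) * x ^ (1 - 2 * δ) := by gcongr
      nlinarith
    -- use the good pair
    obtain ⟨p, b, ⟨⟨hpp, hpq, hb1, hb2, hbc, hba⟩, hb3⟩, hla, hb4⟩ := hgood
    simp only at hpp hpq hb1 hb2 hbc hba hb3 hla
    push Not at hb4
    have hdp' := hlarge p hla
    have hcop : Nat.Coprime d p := by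
      rw [Nat.coprime_comm, Nat.Prime.coprime_iff_not_dvd hpp]
      intro hdiv
      have := Nat.le_of_dvd (by omega) hdiv
      omega
    have hp2 : (2 : ℝ) ≤ p := by exact_mod_cast hpp.two_le
    have hp0 : (0 : ℝ) < p := by linarith
    have huC : uC d a = uC d b := by
      rw [← uC_mod d a, ← hba, uC_mod]
    have hpsi : psiR x d a = psiR x d b := by
      unfold psiR
      rw [hba]
    rw [huC, norm_newQ_uC d p b x hpp hcop] at hb4
    have hφ : (Nat.totient (d * p) : ℝ) = Nat.totient d * ((p : ℝ) - 1) := by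
      rw [Nat.totient_mul hcop, Nat.totient_prime hpp]
      push_cast
      rw [Nat.cast_sub hpp.one_le, Nat.cast_one]
    have hφd : (1 : ℝ) ≤ Nat.totient d := by
      exact_mod_cast Nat.totient_pos.mpr (by omega : 0 < d)
    have hpx : (p : ℝ) ≤ Real.sqrt x := by
      refine le_trans ?_ hpq
      push_cast
      nlinarith
    have hpx2 : Real.sqrt p ≤ x ^ (1 / 4 : ℝ) := by
      have h1 : Real.sqrt p ≤ Real.sqrt (Real.sqrt x) := Real.sqrt_le_sqrt hpx
      refine h1.trans (le_of_eq ?_)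
      rw [Real.sqrt_eq_rpow, Real.sqrt_eq_rpow, ← Real.rpow_mul hx0.le]
      norm_num
    -- bound 1
    have hA : |(p : ℝ) * psiR x (d * p) b - psiR x d b| ≤ x ^ (3 / 4 + η + ε) := by
      have h1 : |(p : ℝ) * psiR x (d * p) b - psiR x d b| ^ 2 ≤ (x ^ (3 / 4 + η + ε)) ^ 2 := by
        refine hb4.trans ?_
        have h2 : (x ^ (3 / 4 + η + ε)) ^ 2 = x ^ (3 / 2 + 2 * η + 2 * ε) := by
          rw [← Real.rpow_natCast, ← Real.rpow_mul hx0.le]
          congr 1
          push_cast
          ring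
        rw [h2]
        calc t * p ≤ x ^ (1 + ε) * x ^ (1 / 2 : ℝ) := by
              rw [ht]
              rw [Real.sqrt_eq_rpow] at hpx
              gcongr
          _ = x ^ (1 + ε + 1 / 2) := by rw [← Real.rpow_add hx0]
          _ ≤ x ^ (3 / 2 + 2 * η + 2 * ε) := by
              apply Real.rpow_le_rpow_of_exponent_le (by linarith)
              linarith
      exact le_of_sq_le_sq h1 (by positivity)
    -- bound 2
    have hB : |(p : ℝ) * psiR x (d * p) b - p * (x / (Nat.totient (d * p) : ℝ))| ≤ x ^ (3 / 4 + η + ε) := by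
      rw [← mul_sub, abs_mul, abs_of_pos hp0]
      have hsq : 0 < Real.sqrt ((d * p : ℕ) : ℝ) := by
        apply Real.sqrt_pos.mpr
        push_cast
        positivity
      have h1 : Real.sqrt p ≤ Real.sqrt ((d * p : ℕ) : ℝ) := by
        apply Real.sqrt_le_sqrt
        push_cast
        nlinarith
      have h2 : (p : ℝ) = Real.sqrt p * Real.sqrt p := (Real.mul_self_sqrt hp0.le).symm
      have hsp : 0 < Real.sqrt p := Real.sqrt_pos.mpr hp0
      calc (p : ℝ) * |psiR x (d * p) b - x / (Nat.totient (d * p) : ℝ)|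
          ≤ p * (x ^ τ / Real.sqrt ((d * p : ℕ) : ℝ)) := by gcongr
        _ ≤ p * (x ^ τ / Real.sqrt p) := by gcongr
        _ = Real.sqrt p * x ^ τ := by
            nth_rewrite 1 [h2]
            field_simp
        _ ≤ x ^ (1 / 4 : ℝ) * x ^ τ := by gcongr
        _ = x ^ (3 / 4 + η + ε) := by
            rw [← Real.rpow_add hx0]
            congr 1
            rw [hτ]
            ring
    -- bound 3
    have hC : |(p : ℝ) * (x / (Nat.totient (d * p) : ℝ)) - x / (Nat.totient d : ℝ)|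
        ≤ 4 * d * x ^ (3 / 4 + η + ε) := by
      rw [hφ]
      have hp1 : (0 : ℝ) < (p : ℝ) - 1 := by linarith
      have h1 : (p : ℝ) * (x / (Nat.totient d * ((p : ℝ) - 1))) - x / (Nat.totient d : ℝ)
          = x / (Nat.totient d * ((p : ℝ) - 1)) := by
        have : (Nat.totient d : ℝ) ≠ 0 := by linarith
        field_simp
        ring
      rw [h1, abs_of_nonneg (by positivity)]
      have hdp1 : x ^ (1 / 2 - δ) < d * p := by
        have := hla
        push_cast at this
        exact this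
      have h2 : x / (Nat.totient d * ((p : ℝ) - 1)) ≤ 4 * d * (x / x ^ (1 / 2 - δ)) := by
        have hpd : 0 < x ^ (1 / 2 - δ) := by positivity
        rw [mul_div_assoc', div_le_div_iff₀ (by positivity) hpd]
        calc x * x ^ (1 / 2 - δ) ≤ x * (d * p) := by gcongr
          _ ≤ x * (d * (2 * ((p : ℝ) - 1))) := by gcongr; linarith
          _ = 2 * (d * x * (1 * ((p : ℝ) - 1))) := by ring
          _ ≤ 2 * (d * x * (Nat.totient d * ((p : ℝ) - 1))) := by gcongr
          _ ≤ 4 * d * x * (Nat.totient d * ((p : ℝ) - 1)) := by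
              have : 0 ≤ d * x * (Nat.totient d * ((p : ℝ) - 1)) := by positivity
              linarith
      refine h2.trans ?_
      have h3 : x / x ^ (1 / 2 - δ) = x ^ (1 / 2 + δ) := by
        rw [div_eq_iff (by positivity), ← Real.rpow_add hx0]
        rw [show 1 / 2 + δ + (1 / 2 - δ) = 1 by ring, Real.rpow_one]
      rw [h3]
      have h4 : x ^ (1 / 2 + δ) ≤ x ^ (3 / 4 + η + ε) :=
        Real.rpow_le_rpow_of_exponent_le hx1' (by linarith)
      gcongr
    rw [hpsi]
    have hfinal : psiR x d b - x / (Nat.totient d : ℝ)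
        = -((p : ℝ) * psiR x (d * p) b - psiR x d b)
          + ((p : ℝ) * psiR x (d * p) b - p * (x / (Nat.totient (d * p) : ℝ)))
          + ((p : ℝ) * (x / (Nat.totient (d * p) : ℝ)) - x / (Nat.totient d : ℝ)) := by ring
    rw [hfinal]
    have h1 := abs_add_three (-((p : ℝ) * psiR x (d * p) b - psiR x d b))
      ((p : ℝ) * psiR x (d * p) b - p * (x / (Nat.totient (d * p) : ℝ)))
      ((p : ℝ) * (x / (Nat.totient (d * p) : ℝ)) - x / (Nat.totient d : ℝ))
    rw [abs_neg] at h1
    calc _ ≤ _ := h1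
      _ ≤ x ^ (3 / 4 + η + ε) + x ^ (3 / 4 + η + ε) + 4 * d * x ^ (3 / 4 + η + ε) := by gcongr
      _ = (2 + 4 * d) * x ^ (3 / 4 + η + ε) := by ring
  obtain ⟨x₁, hx₁⟩ := Filter.eventually_atTop.mp key
  set x₂ : ℝ := max x₁ 1 with hx₂
  refine ⟨max (2 + 4 * d) ((Real.log 4 + 4) * x₂ + x₂), ?_⟩
  intro x hx a ha
  have hx0 : 0 < x := by linarith
  by_cases hxx : x₂ ≤ x
  · refine (hx₁ x ((le_max_left _ _).trans hxx) a ha).trans ?_
    gcongr
    exact le_max_left _ _
  · push Not at hxx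
    have h1 : psiR x d a ≤ (Real.log 4 + 4) * x := by
      have h2 := Chebyshev.psi_le_const_mul_self (x := x) hx0.le
      refine le_trans ?_ h2
      unfold psiR Chebyshev.psi
      have h3 : Icc 1 ⌊x⌋₊ = Ioc 0 ⌊x⌋₊ := by
        ext n; simp only [Finset.mem_Icc, Finset.mem_Ioc]; omega
      rw [h3]
      exact Finset.sum_le_sum_of_subset_of_nonneg (Finset.filter_subset _ _)
        (fun _ _ _ => ArithmeticFunction.vonMangoldt_nonneg)
    have h2 : 0 ≤ psiR x d a := Finset.sum_nonneg fun _ _ => ArithmeticFunction.vonMangoldt_nonneg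
    have hφd : (1 : ℝ) ≤ Nat.totient d := by
      exact_mod_cast Nat.totient_pos.mpr (by omega : 0 < d)
    have h3 : x / (Nat.totient d : ℝ) ≤ x := div_le_self hx0.le hφd
    have h4 : 0 ≤ x / (Nat.totient d : ℝ) := by positivity
    have h5 : 1 ≤ x ^ (3 / 4 + η + ε) := Real.one_le_rpow hx (by linarith)
    have hlog4 : 0 ≤ Real.log 4 := Real.log_nonneg (by norm_num)
    have hx21 : 1 ≤ x₂ := le_max_right _ _
    calc |psiR x d a - x / (Nat.totient d : ℝ)| ≤ (Real.log 4 + 4) * x + x := by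
          rw [abs_le]
          constructor
          · have : 0 ≤ (Real.log 4 + 4) * x := by positivity
            linarith
          · linarith
      _ ≤ (Real.log 4 + 4) * x₂ + x₂ := by gcongr
      _ = ((Real.log 4 + 4) * x₂ + x₂) * 1 := (mul_one _).symm
      _ ≤ max (2 + 4 * (d : ℝ)) ((Real.log 4 + 4) * x₂ + x₂) * x ^ (3 / 4 + η + ε) := by
          gcongr
          exact le_max_right _ _

end Pool.Agent.MC
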