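import Mathlib
import Pool.Agent.Lib.MP_9cfc0a_nt.An8

set_option autoImplicit false

namespace Pool.Agent.MC

open Complex MeasureTheory Set Filter Topology Asymptotics Metric

/-- uniform version of `logDeriv_FF_bound` -/
lemma logDeriv_FF_boundU (θ : ℝ) (hθ : 1 / 2 ≤ θ) (hθ1 : θ < 1) (ε κ : ℝ) (hε : 0 < ε) (hκ : 0 < κ) :
    ∃ C : ℝ, 0 ≤ C ∧ ∀ d : ℕ, ∀ [NeZero d], ZF d θ → ∀ χ : DirichletCharacter ℂ d, ∀ s : ℂ,
      θ + ε ≤ s.re → s.re ≤ 2 → ‖deriv (FF d χ) s / FF d χ s‖ ≤ C * d * (|s.im| + 6) ^ κ := by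
  refine ⟨8 * (21 + 2 / κ) * 2 / ε ^ 2, by positivity, fun d _ hZ χ s hs1 hs2 => ?_⟩
  have hdR : (1 : ℝ) ≤ d := by exact_mod_cast Nat.one_le_iff_ne_zero.mpr (NeZero.ne d)
  set K : ℝ := 3 * (4 * d + 3) with hK
  have hK1 : 1 < K := by rw [hK]; linarith
  have hlogK : 0 < Real.log K := Real.log_pos hK1
  set T : ℝ := |s.im| + 6 with hT
  have hT6 : 6 ≤ T := by rw [hT]; linarith [abs_nonneg s.im]
  have hT1 : 1 < T := by linarith
  set s0 : ℂ := ⟨2, s.im⟩ with hs0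
  set R : ℝ := 2 - θ with hR
  have hR1 : R ≤ 2 := by rw [hR]; linarith
  have hR0 : 0 < R := by rw [hR]; linarith
  have hs0n : ‖s0‖ ≤ 2 + |s.im| := by
    have := Complex.norm_le_abs_re_add_abs_im s0
    rw [hs0] at this ⊢
    simpa using this
  have hball : ∀ z ∈ ball s0 R, θ < z.re ∧ ‖z‖ + 1 ≤ T := by
    intro z hz
    rw [mem_ball, dist_eq_norm] at hz
    constructor
    · have h1 := (Complex.abs_re_le_norm (z - s0)).trans_lt hz
      rw [Complex.sub_re, abs_lt] at h1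
      have h2 : s0.re = 2 := rfl
      rw [h2] at h1
      linarith [h1.1]
    · have h1 : ‖z‖ ≤ ‖z - s0‖ + ‖s0‖ := by
        calc ‖z‖ = ‖(z - s0) + s0‖ := by rw [sub_add_cancel]
          _ ≤ _ := norm_add_le _ _
      rw [hT]
      linarith
  set M : ℝ := Real.log (K * T ^ 2) with hM
  have hM0 : 0 < M := Real.log_pos (by nlinarith)
  have hexpM : Real.exp M = K * T ^ 2 := Real.exp_log (by positivity)
  have hεR : ε ≤ R := by rw [hR]; linarith
  have hlow := FF_lower d χ s0 rfl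
  have hdist : dist s s0 ≤ R - ε := by
    rw [dist_eq_norm]
    have h1 : s - s0 = ((s.re - 2 : ℝ) : ℂ) := by
      apply Complex.ext
      · simp [hs0]
      · simp [hs0]
    rw [h1, Complex.norm_real, Real.norm_eq_abs, abs_of_nonpos (by linarith)]
    rw [hR]
    linarith
  have key := logDeriv_bound (FF d χ) s0 R M ε hM0 hε hεR (FF_differentiable d χ).differentiableOn
    (fun z hz => FF_ne_zero d θ hZ χ z (hball z hz).1) (fun z hz => by
      obtain ⟨h1, h2⟩ := hball z hz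
      have h3 := FF_bound d χ z (by linarith)
      rw [hexpM]
      calc ‖FF d χ z‖ ≤ (4 * d + 3) * (‖z‖ + 1) ^ 2 := h3
        _ ≤ (4 * d + 3) * T ^ 2 := by gcongr
        _ = K * T ^ 2 * (1 / 3) := by rw [hK]; ring
        _ ≤ K * T ^ 2 * ‖FF d χ s0‖ := by gcongr) s hdist
  refine key.trans ?_
  have hTκ : 1 ≤ T ^ κ := Real.one_le_rpow hT1.le hκ.le
  have hlogK2 : Real.log K ≤ 21 * d := by
    refine (Real.log_le_self (by linarith)).trans ?_
    rw [hK]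
    linarith
  have hM2 : M ≤ (21 + 2 / κ) * d * T ^ κ := by
    rw [hM, Real.log_mul (by positivity) (by positivity), Real.log_pow]
    have h1 := Real.log_le_rpow_div (show 0 ≤ T by linarith) hκ
    have h2 : Real.log K ≤ 21 * d * T ^ κ := by nlinarith
    have h3 : 2 * Real.log T ≤ 2 / κ * T ^ κ := by
      calc 2 * Real.log T ≤ 2 * (T ^ κ / κ) := by gcongr
        _ = 2 / κ * T ^ κ := by ring
    have h4 : 2 / κ * T ^ κ ≤ 2 / κ * d * T ^ κ := by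
      have : 0 ≤ 2 / κ * T ^ κ := by positivity
      nlinarith
    push_cast
    linarith
  calc 8 * M * R / ε ^ 2 ≤ 8 * ((21 + 2 / κ) * d * T ^ κ) * 2 / ε ^ 2 := by gcongr
    _ = 8 * (21 + 2 / κ) * 2 / ε ^ 2 * d * T ^ κ := by ring

lemma card_compl_le (d : ℕ) [NeZero d] :
    ((({1}ᶜ : Finset (DirichletCharacter ℂ d)).card : ℕ) : ℝ) ≤ d := by
  have h1 : ({1}ᶜ : Finset (DirichletCharacter ℂ d)).card ≤ Fintype.card (DirichletCharacter ℂ d) :=
    Finset.card_le_univ _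
  have h2 : Fintype.card (DirichletCharacter ℂ d) = d.totient := by
    rw [← Nat.card_eq_fintype_card]
    exact DirichletCharacter.card_eq_totient_of_hasEnoughRootsOfUnity ℂ d
  have h3 : d.totient ≤ d := Nat.totient_le d
  exact_mod_cast (h1.trans (h2.le.trans h3))

lemma HA_boundU (θ : ℝ) (hθ : 1 / 2 ≤ θ) (hθ1 : θ < 1) (ε κ : ℝ) (hε : 0 < ε) (hκ : 0 < κ) :
    ∃ C : ℝ, 0 ≤ C ∧ ∀ d : ℕ, ∀ [NeZero d], ZF d θ → ∀ a : ZMod d, ∀ s : ℂ,
      θ + ε ≤ s.re → s.re ≤ 2 → ‖HA d a s‖ ≤ C * d ^ 2 * (|s.im| + 6) ^ κ := by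
  obtain ⟨C, hC, h⟩ := logDeriv_FF_boundU θ hθ hθ1 ε κ hε hκ
  refine ⟨2 * C, by positivity, fun d _ hZ a s h1 h2 => ?_⟩
  have hdR : (1 : ℝ) ≤ d := by exact_mod_cast Nat.one_le_iff_ne_zero.mpr (NeZero.ne d)
  set N : ℝ := ((({1}ᶜ : Finset (DirichletCharacter ℂ d)).card : ℕ) : ℝ) with hN
  have hN0 : 0 ≤ N := Nat.cast_nonneg _
  have hNd : N ≤ d := card_compl_le d
  rw [HA_eq, norm_mul, norm_inv, Complex.norm_natCast]
  have hφ : (1 : ℝ) ≤ d.totient := by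
    exact_mod_cast Nat.totient_pos.mpr (Nat.pos_of_ne_zero (NeZero.ne d))
  have hT : 0 ≤ (|s.im| + 6) ^ κ := by positivity
  have hinv : ((d.totient : ℝ))⁻¹ ≤ 1 := inv_le_one_of_one_le₀ hφ
  have h3 : ‖-(deriv (FF d 1) s / FF d 1 s) -
      ∑ χ ∈ ({1}ᶜ : Finset (DirichletCharacter ℂ d)), χ a⁻¹ * (deriv (FF d χ) s / FF d χ s)‖
      ≤ (1 + N) * (C * d) * (|s.im| + 6) ^ κ := by
    calc _ ≤ ‖-(deriv (FF d 1) s / FF d 1 s)‖ +
          ‖∑ χ ∈ ({1}ᶜ : Finset (DirichletCharacter ℂ d)), χ a⁻¹ * (deriv (FF d χ) s / FF d χ s)‖ :=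
            norm_sub_le _ _
      _ ≤ C * d * (|s.im| + 6) ^ κ + ∑ _χ ∈ ({1}ᶜ : Finset (DirichletCharacter ℂ d)),
            C * d * (|s.im| + 6) ^ κ := by
          rw [norm_neg]
          refine add_le_add (h d hZ 1 s h1 h2)
            ((norm_sum_le _ _).trans (Finset.sum_le_sum fun χ _ => ?_))
          rw [norm_mul]
          calc ‖χ a⁻¹‖ * ‖deriv (FF d χ) s / FF d χ s‖ ≤ 1 * (C * d * (|s.im| + 6) ^ κ) := by
                gcongr
                · exact χ.norm_le_one _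
                · exact h d hZ χ s h1 h2
            _ = _ := one_mul _
      _ = (1 + N) * (C * d) * (|s.im| + 6) ^ κ := by
          rw [Finset.sum_const, nsmul_eq_mul, hN]
          ring
  calc _ ≤ 1 * ((1 + N) * (C * d) * (|s.im| + 6) ^ κ) := by gcongr
    _ ≤ 1 * ((2 * d) * (C * d) * (|s.im| + 6) ^ κ) := by
        gcongr
        linarith
    _ = _ := by ring

lemma Phi_boundU (θ : ℝ) (hθ : 1 / 2 ≤ θ) (hθ1 : θ < 1) (ε κ : ℝ) (hε : 0 < ε) (hκ : 0 < κ) :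
    ∃ C : ℝ, 0 ≤ C ∧ ∀ d : ℕ, ∀ [NeZero d], ZF d θ → ∀ a : ZMod d, ∀ s : ℂ,
      θ + ε ≤ s.re → s.re ≤ 2 → ‖Phi d a s‖ ≤ C * d ^ 2 * (|s.im| + 6) ^ (κ - 2) := by
  obtain ⟨C, hC, h⟩ := HA_boundU θ hθ hθ1 ε κ hε hκ
  refine ⟨169 * (C + 1), by positivity, fun d _ hZ a s h1 h2 => ?_⟩
  have hdR : (1 : ℝ) ≤ d := by exact_mod_cast Nat.one_le_iff_ne_zero.mpr (NeZero.ne d)
  set T : ℝ := |s.im| + 6 with hT
  have hT6 : 6 ≤ T := by rw [hT]; linarith [abs_nonneg s.im]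
  have hT0 : 0 < T := by linarith
  obtain ⟨h3, h4⟩ := T_le s (by linarith)
  rw [← hT] at h3 h4
  have hTκ : 1 ≤ T ^ κ := Real.one_le_rpow (by linarith) hκ.le
  have hφ : (1 : ℝ) ≤ d.totient := by
    exact_mod_cast Nat.totient_pos.mpr (Nat.pos_of_ne_zero (NeZero.ne d))
  have hnum : ‖HA d a s - (d.totient : ℂ)⁻¹‖ ≤ (C + 1) * d ^ 2 * T ^ κ := by
    refine (norm_sub_le _ _).trans ?_
    rw [norm_inv, Complex.norm_natCast]
    have hinv : ((d.totient : ℝ))⁻¹ ≤ 1 := inv_le_one_of_one_le₀ hφ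
    have h5 := h d hZ a s h1 h2
    have h6 : (1 : ℝ) ≤ (d : ℝ) ^ 2 * T ^ κ := one_le_mul_of_one_le_of_one_le (by nlinarith) hTκ
    nlinarith
  unfold Phi
  rw [norm_div, norm_mul]
  have hs0 : 0 < ‖s‖ := by linarith
  have hs1 : 0 < ‖s + 1‖ := by linarith
  rw [div_le_iff₀ (by positivity)]
  have h5 : T ^ (κ - 2) * T ^ 2 = T ^ κ := by
    rw [← Real.rpow_natCast, ← Real.rpow_add hT0]
    congr 1
    push_cast
    ring
  have h6 : T ^ 2 ≤ 169 * (‖s‖ * ‖s + 1‖) := by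
    calc T ^ 2 = T * T := by ring
      _ ≤ (13 * ‖s‖) * (13 * ‖s + 1‖) := by gcongr
      _ = 169 * (‖s‖ * ‖s + 1‖) := by ring
  calc ‖HA d a s - (d.totient : ℂ)⁻¹‖ ≤ (C + 1) * d ^ 2 * T ^ κ := hnum
    _ = (C + 1) * d ^ 2 * T ^ (κ - 2) * T ^ 2 := by rw [← h5]; ring
    _ ≤ (C + 1) * d ^ 2 * T ^ (κ - 2) * (169 * (‖s‖ * ‖s + 1‖)) := by gcongr
    _ = 169 * (C + 1) * d ^ 2 * T ^ (κ - 2) * (‖s‖ * ‖s + 1‖) := by ring

/-- power saving for the averaged error term, uniform version -/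
lemma FP_diff_boundU (θ : ℝ) (hθ : 1 / 2 ≤ θ) (hθ1 : θ < 1) (ε : ℝ) (hε : 0 < ε) :
    ∃ C : ℝ, 0 ≤ C ∧ ∀ d : ℕ, ∀ [NeZero d], ZF d θ → ∀ a : ℕ, Nat.Coprime a d → ∀ x : ℝ, 1 < x →
      ‖FP d a (x + 1) - FP d a x‖ ≤ C * d ^ 2 * (x + 1) ^ (θ + ε) := by
  set ε' : ℝ := min (ε / 2) 1 with hε'
  have hε'0 : 0 < ε' := by positivity
  have hε'1 : ε' ≤ 1 := min_le_right _ _
  have hε'2 : ε' ≤ ε / 2 := min_le_left _ _
  set k : ℝ := min (ε / 2) (1 / 2) with hk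
  have hk0 : 0 < k := by positivity
  have hk1 : k ≤ 1 / 2 := min_le_right _ _
  have hk2 : k ≤ ε / 2 := min_le_left _ _
  set σ : ℝ := θ + ε' with hσ
  have hσ2 : σ ≤ 2 := by rw [hσ]; linarith
  have hσθ : θ < σ := by rw [hσ]; linarith
  obtain ⟨C₀, hC₀, hΦ₀⟩ := Phi_boundU θ hθ hθ1 ε' (k / 2) hε'0 (by positivity)
  set J : ℝ := ∫ y : ℝ, (|y| + 6) ^ (-(1 + k / 2)) with hJ
  have hJ0 : 0 ≤ J := integral_nonneg fun y => by positivity
  refine ⟨2 * C₀ * J, by positivity, fun d _ hZ a ha x hx => ?_⟩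
  have hΦ := hΦ₀ d hZ
  set C : ℝ := C₀ * d ^ 2 with hCdef
  have hC : 0 ≤ C := by positivity
  have hx0 : 0 < x := by linarith
  have hx1 : 0 < x + 1 := by linarith
  rw [FP_diff d a ha θ hθ hθ1 hZ x hx]
  -- bound in the strip
  have hstrip : ∀ s : ℂ, σ ≤ s.re → s.re ≤ 2 →
      ‖Gx d (a : ZMod d) x s‖ ≤ 2 * (x + 1) ^ (3 : ℝ) * C * (|s.im| + 6) ^ (k / 2 - 2) := by
    intro s h1 h2
    unfold Gx
    rw [norm_mul]
    have h3 := cpow_diff_bound1 x hx0 s (by linarith)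
    have h4 := hΦ (a : ZMod d) s h1 h2
    have h5 : (x + 1) ^ (s.re + 1) ≤ (x + 1) ^ (3 : ℝ) :=
      Real.rpow_le_rpow_of_exponent_le (by linarith) (by linarith)
    calc _ ≤ (2 * (x + 1) ^ (s.re + 1)) * (C * (|s.im| + 6) ^ (k / 2 - 2)) := by gcongr
      _ ≤ (2 * (x + 1) ^ (3 : ℝ)) * (C * (|s.im| + 6) ^ (k / 2 - 2)) := by gcongr
      _ = _ := by ring
  have hline : ∀ τ : ℝ, σ ≤ τ → τ ≤ 2 → Integrable (fun y : ℝ => Gx d (a : ZMod d) x (τ + y * I)) := by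
    intro τ h1 h2
    refine Gx_integrable_line d θ hθ hZ (a : ZMod d) x hx0 τ (by linarith)
      (2 * (x + 1) ^ (3 : ℝ) * C) (2 - k / 2) (by linarith) fun y => ?_
    have h3 := hstrip ((τ : ℂ) + y * I) (by simpa using h1) (by simpa using h2)
    have h4 : ((τ : ℂ) + y * I).im = y := by simp
    rw [h4] at h3
    rw [show -(2 - k / 2) = k / 2 - 2 by ring]
    exact h3
  have hshift := contour_shift (Gx d (a : ZMod d) x) σ 2 hσ2
    ((Gx_differentiableOn d θ hθ hZ (a : ZMod d) x hx0).mono fun s hs => lt_of_lt_of_le hσθ hs.1)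
    (fun u => 2 * (x + 1) ^ (3 : ℝ) * C * (u + 6) ^ (k / 2 - 2)) (by
      have h1 : Tendsto (fun u : ℝ => (u + 6) ^ (-(2 - k / 2))) atTop (𝓝 0) :=
        (tendsto_rpow_neg_atTop (show 0 < 2 - k / 2 by linarith)).comp
          (tendsto_atTop_add_const_right _ _ tendsto_id)
      have h2 := h1.const_mul (2 * (x + 1) ^ (3 : ℝ) * C)
      rw [mul_zero] at h2
      refine h2.congr fun u => ?_
      congr 2
      ring) hstrip (hline σ le_rfl hσ2) (hline 2 hσ2 le_rfl)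
  rw [← hshift, norm_mul, Complex.norm_real]
  have hpi : ‖(1 / (2 * Real.pi) : ℝ)‖ ≤ 1 := by
    rw [Real.norm_of_nonneg (by positivity)]
    rw [div_le_one (by positivity)]
    have := Real.pi_gt_three
    linarith
  have hmain : ‖∫ y : ℝ, Gx d (a : ZMod d) x (σ + y * I)‖ ≤ 2 * C * J * (x + 1) ^ (σ + k) := by
    have h1 : ‖∫ y : ℝ, Gx d (a : ZMod d) x (σ + y * I)‖
        ≤ ∫ y : ℝ, (2 * C * (x + 1) ^ (σ + k)) * (|y| + 6) ^ (-(1 + k / 2)) := by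
      refine norm_integral_le_of_norm_le ((integrable_T (1 + k / 2) (by linarith)).const_mul _)
        (ae_of_all _ fun y => ?_)
      have h2 := cpow_diff_bound x hx0 ((σ : ℂ) + y * I) (by simp; linarith) (by simpa using hσ2)
        k hk0.le (by linarith)
      have h3 := hΦ (a : ZMod d) ((σ : ℂ) + y * I) (by simp [hσ]) (by simpa using hσ2)
      have h4 : ((σ : ℂ) + y * I).im = y := by simp
      have h5 : ((σ : ℂ) + y * I).re = σ := by simp
      rw [h4, h5] at h2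
      rw [h4] at h3
      unfold Gx
      rw [norm_mul]
      have hT0 : 0 < |y| + 6 := by positivity
      calc _ ≤ (2 * (|y| + 6) ^ (1 - k) * (x + 1) ^ (σ + k)) * (C * (|y| + 6) ^ (k / 2 - 2)) := by
            gcongr
        _ = (2 * C * (x + 1) ^ (σ + k)) * ((|y| + 6) ^ (1 - k) * (|y| + 6) ^ (k / 2 - 2)) := by ring
        _ = (2 * C * (x + 1) ^ (σ + k)) * (|y| + 6) ^ (-(1 + k / 2)) := by
            rw [← Real.rpow_add hT0]
            congr 2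
            ring
    refine h1.trans (le_of_eq ?_)
    rw [integral_const_mul, ← hJ]
    ring
  have hfin : (x + 1) ^ (σ + k) ≤ (x + 1) ^ (θ + ε) :=
    Real.rpow_le_rpow_of_exponent_le (by linarith) (by rw [hσ]; linarith)
  calc _ ≤ 1 * (2 * C * J * (x + 1) ^ (σ + k)) := by gcongr
    _ ≤ 2 * C * J * (x + 1) ^ (θ + ε) := by
        rw [one_mul]
        gcongr
    _ = 2 * C₀ * J * d ^ 2 * (x + 1) ^ (θ + ε) := by rw [hCdef]; ring

/-- Zero-free half planes imply the bound for the error term, with polynomial dependence on the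
modulus. -/
theorem EBU_of_ZF (θ : ℝ) (hθ : 1 / 2 ≤ θ) (hθ1 : θ < 1) (ε : ℝ) (hε : 0 < ε) :
    ∃ C : ℝ, 0 ≤ C ∧ ∀ d : ℕ, ∀ [NeZero d], ZF d θ → ∀ x : ℝ, 1 ≤ x → ∀ a : ℕ, Nat.Coprime a d →
      |psiR x d a - x / (Nat.totient d : ℝ)| ≤ C * d ^ 2 * x ^ (θ + ε) := by
  obtain ⟨C₀, hC₀, h₀⟩ := FP_diff_boundU θ hθ hθ1 ε hε
  refine ⟨C₀ * 2 ^ (θ + ε) + 14, by positivity, fun d _ hZ x hx a ha => ?_⟩
  have h := h₀ d hZ
  have hd : 0 < d := Nat.pos_of_ne_zero (NeZero.ne d)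
  have hdR : (1 : ℝ) ≤ (d : ℝ) ^ 2 := by
    have : (1 : ℝ) ≤ d := by exact_mod_cast Nat.one_le_iff_ne_zero.mpr (NeZero.ne d)
    nlinarith
  set C : ℝ := C₀ * d ^ 2 with hCdef
  have hC : 0 ≤ C := by positivity
  have hx0 : 0 < x := by linarith
  have hθε : 0 ≤ θ + ε := by linarith
  have hxp : 1 ≤ x ^ (θ + ε) := Real.one_le_rpow hx hθε
  have h2p : (1 : ℝ) ≤ 2 ^ (θ + ε) := Real.one_le_rpow (by norm_num) hθε
  have hgoal : |psiR x d a - x / (Nat.totient d : ℝ)| ≤ (C * 2 ^ (θ + ε) + 14) * x ^ (θ + ε) := by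
    rcases le_or_gt x 2 with hx2 | hx2
    · have h1 := EC_bound d a hd x
      unfold EC at h1
      rw [Complex.norm_real, Real.norm_eq_abs, abs_of_pos hx0] at h1
      calc |psiR x d a - x / (Nat.totient d : ℝ)| ≤ 7 * x := h1
        _ ≤ 14 := by linarith
        _ ≤ (C * 2 ^ (θ + ε) + 14) * x ^ (θ + ε) := by
            have : 0 ≤ C * 2 ^ (θ + ε) := by positivity
            nlinarith
    · have hup : psiR x d a - x / (Nat.totient d : ℝ) ≤ C * (x + 1) ^ (θ + ε) + 1 := by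
        have h1 := int_lower d a hd x
        have h2 := h a ha x (by linarith)
        rw [FP_sub d a hd x, Complex.norm_real, Real.norm_eq_abs] at h2
        linarith [le_abs_self (∫ t in x..(x + 1), (psiR t d a - t / (Nat.totient d : ℝ)))]
      have hlo : -(C * x ^ (θ + ε) + 1) ≤ psiR x d a - x / (Nat.totient d : ℝ) := by
        have h1 := int_upper d a hd (x - 1)
        have h2 := h a ha (x - 1) (by linarith)
        rw [FP_sub d a hd (x - 1), Complex.norm_real, Real.norm_eq_abs] at h2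
        rw [sub_add_cancel] at h1 h2
        linarith [neg_abs_le (∫ t in (x - 1)..x, (psiR t d a - t / (Nat.totient d : ℝ)))]
      have h3 : (x + 1) ^ (θ + ε) ≤ 2 ^ (θ + ε) * x ^ (θ + ε) := by
        rw [← Real.mul_rpow (by norm_num) hx0.le]
        apply Real.rpow_le_rpow (by linarith) (by linarith) hθε
      rw [abs_le]
      constructor
      · have h4 : C * x ^ (θ + ε) ≤ C * 2 ^ (θ + ε) * x ^ (θ + ε) := by
          have : 0 ≤ C * x ^ (θ + ε) := by positivity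
          nlinarith
        nlinarith
      · have h4 : C * (x + 1) ^ (θ + ε) ≤ C * (2 ^ (θ + ε) * x ^ (θ + ε)) :=
          mul_le_mul_of_nonneg_left h3 hC
        nlinarith
  refine hgoal.trans ?_
  rw [hCdef]
  gcongr
  calc C₀ * (d : ℝ) ^ 2 * 2 ^ (θ + ε) + 14 ≤ C₀ * (d : ℝ) ^ 2 * 2 ^ (θ + ε) + 14 * (d : ℝ) ^ 2 := by
        linarith
    _ = (C₀ * 2 ^ (θ + ε) + 14) * (d : ℝ) ^ 2 := by ring

end Pool.Agent.MC
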