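import Mathlib
import Pool.Agent.Lib.MP_9cfc0a_nt.QuasiD
import Pool.Agent.Lib.MP_9cfc0a_nt.U1

set_option autoImplicit false

namespace Pool.Agent.MC

open Finset MeasureTheory Real Filter

/-- Count of the exceptional pairs for one `d` with explicit dependence on `d`. -/
theorem excMax_core (d : ℕ) (hd : 1 ≤ d) (η ε δ C X : ℝ) (hη : 0 ≤ η) (hε : 0 < ε)
    (hδ0 : 0 < δ) (hδ1 : δ ≤ 1 / 8) (hδ2 : δ ≤ ε / 4) (hδ3 : δ * (1 / 2 + η + ε) ≤ ε / 4)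
    (hC0 : 0 ≤ C) (hX2 : 2 ≤ X) (hXC : 3 * C * d ≤ X ^ (ε / 2)) (hXd : 6 * (d : ℝ) ^ 2 ≤ X ^ (1 / 8 : ℝ))
    (hEB : ∀ x : ℝ, 1 ≤ x → ∀ a : ℕ, Nat.Coprime a d →
      |psiR x d a - x / (Nat.totient d : ℝ)| ≤ C * x ^ (3 / 4 + η + ε / 8)) :
    ((excMax d (1 / 2 + η + ε) X).ncard : ℝ)
      ≤ (1 + d * (2200 * (9 * d) * (3 / (ε / 2)) ^ 3)) * X ^ (1 - δ) := by
  classical
  have hdR : (1 : ℝ) ≤ d := by exact_mod_cast hd
  have hX0 : 0 < X := by linarith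
  have hX1 : 1 ≤ X := by linarith
  set M : ℕ := ⌊X ^ (1 / 2 - δ / 2)⌋₊ with hM
  set t : ℝ := X ^ (1 + ε) / (9 * d) with ht
  set K : ℕ := Nat.log 2 ⌊X⌋₊ + 1 with hK
  set Q : ℕ := ⌊Real.sqrt X⌋₊ with hQ
  have hfin := excMax_finite d (1 / 2 + η + ε) X
  set S : Finset (ℕ × ℕ) := hfin.toFinset with hS
  have hcard : (excMax d (1 / 2 + η + ε) X).ncard = S.card := Set.ncard_eq_toFinset_card _ hfin
  rw [hcard]
  set S1 := S.filter (fun y => ((d * y.1 : ℕ) : ℝ) ≤ X ^ (1 / 2 - δ / 2)) with hS1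
  set S2 := S.filter (fun y => ¬ ((d * y.1 : ℕ) : ℝ) ≤ X ^ (1 / 2 - δ / 2)) with hS2
  have hsplit : S.card = S1.card + S2.card := by
    rw [hS1, hS2]
    exact (Finset.card_filter_add_card_filter_not _).symm
  -- small pairs
  have hc1 : (S1.card : ℝ) ≤ X ^ (1 - δ) := by
    have h1 : S1 ⊆ (Icc 1 M) ×ˢ (Icc 1 M) := by
      rintro ⟨p, a⟩ hy
      rw [hS1, Finset.mem_filter, hS, Set.Finite.mem_toFinset] at hy
      obtain ⟨⟨hp, _, ha1, ha2, _⟩, hsm⟩ := hy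
      simp only at hp ha1 ha2 hsm
      have h5 : d * p ≤ M := Nat.le_floor hsm
      have h6 : p ≤ d * p := Nat.le_mul_of_pos_left p hd
      have hp1 := hp.one_le
      rw [Finset.mem_product, Finset.mem_Icc, Finset.mem_Icc]
      exact ⟨⟨hp1, by simp only; omega⟩, ⟨ha1, by simp only; omega⟩⟩
    have h2 := Finset.card_le_card h1
    rw [Finset.card_product, Nat.card_Icc, Nat.add_sub_cancel] at h2
    have h3 : (M : ℝ) ≤ X ^ (1 / 2 - δ / 2) := Nat.floor_le (by positivity)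
    calc (S1.card : ℝ) ≤ ((M * M : ℕ) : ℝ) := by exact_mod_cast h2
      _ = (M : ℝ) * M := by push_cast; ring
      _ ≤ X ^ (1 / 2 - δ / 2) * X ^ (1 / 2 - δ / 2) := by gcongr
      _ = X ^ (1 - δ) := by
          rw [← Real.rpow_add hX0]
          congr 1
          ring
  -- large pairs
  have hc2' : S2.card ≤ ∑ r ∈ range d, (badPairs (uC d r) K Q t).card := by
    apply card_le_sum_badPairs d K Q t (by omega)
    rintro ⟨p, a⟩ hy
    rw [hS2, Finset.mem_filter, hS, Set.Finite.mem_toFinset] at hy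
    obtain ⟨⟨hp, hq, ha1, ha2, hcop, x, hx1, hx2, hx3⟩, hla⟩ := hy
    simp only at hp hq ha1 ha2 hcop hx1 hx3 hla
    push Not at hla
    have hp1 := hp.one_le
    have hdp1 : (1 : ℝ) ≤ ((d * p : ℕ) : ℝ) := by
      exact_mod_cast Nat.mul_pos (by omega : 0 < d) hp.pos
    have hx1' : 1 ≤ x := le_trans (by nlinarith) hx1
    have hcopd : Nat.Coprime a d := Nat.Coprime.coprime_mul_right_right hcop
    have hE := hEB x hx1' a hcopd
    obtain ⟨h7, h8⟩ := large_newQ_of_exc d hd η ε δ C X x hη hδ0 hδ1 hδ2 hδ3 hC0 hX1 hXC hXd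
      p a hp hq hla hx1 hx2 hE hx3
    have h9 : p ≤ Q := by
      have h10 : d * p ≤ Q := Nat.le_floor hq
      have h6 : p ≤ d * p := Nat.le_mul_of_pos_left p hd
      omega
    refine ⟨hp, h7, h9, ha1, ha2, ⌊x⌋₊, ?_, h8⟩
    calc ⌊x⌋₊ ≤ ⌊X⌋₊ := Nat.floor_mono hx2
      _ < 2 ^ K := Nat.lt_pow_succ_log_self (by norm_num) _
  have ht0 : 0 < t := by positivity
  have hc2 : (S2.card : ℝ) * t ≤ d * (2200 * X ^ 2 * (Real.log X) ^ 3) := by
    have h1 : (S2.card : ℝ) ≤ ∑ r ∈ range d, ((badPairs (uC d r) K Q t).card : ℝ) := by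
      exact_mod_cast hc2'
    calc (S2.card : ℝ) * t ≤ (∑ r ∈ range d, ((badPairs (uC d r) K Q t).card : ℝ)) * t := by gcongr
      _ = ∑ r ∈ range d, ((badPairs (uC d r) K Q t).card : ℝ) * t := by rw [Finset.sum_mul]
      _ ≤ ∑ _r ∈ range d, 2200 * X ^ 2 * (Real.log X) ^ 3 :=
          Finset.sum_le_sum fun r _ => card_badPairs_uC d r X t hX2 ht0.le
      _ = d * (2200 * X ^ 2 * (Real.log X) ^ 3) := by
          rw [Finset.sum_const, Finset.card_range, nsmul_eq_mul]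
  have hc3 : (S2.card : ℝ) ≤ d * (2200 * (9 * d) * (3 / (ε / 2)) ^ 3) * X ^ (1 - δ) := by
    rw [← mul_le_mul_iff_left₀ ht0]
    refine hc2.trans ?_
    have h1 := log_cube_le X hX1 (ε / 2) (by positivity)
    have h2 : X ^ 2 * X ^ (ε / 2) ≤ X ^ (1 - δ) * X ^ (1 + ε) := by
      rw [← Real.rpow_natCast, ← Real.rpow_add hX0, ← Real.rpow_add hX0]
      apply Real.rpow_le_rpow_of_exponent_le hX1
      push_cast
      linarith
    have hd0 : (d : ℝ) ≠ 0 := by linarith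
    calc (d : ℝ) * (2200 * X ^ 2 * (Real.log X) ^ 3)
        ≤ d * (2200 * X ^ 2 * ((3 / (ε / 2)) ^ 3 * X ^ (ε / 2))) := by gcongr
      _ = d * (2200 * (3 / (ε / 2)) ^ 3) * (X ^ 2 * X ^ (ε / 2)) := by ring
      _ ≤ d * (2200 * (3 / (ε / 2)) ^ 3) * (X ^ (1 - δ) * X ^ (1 + ε)) := by gcongr
      _ = d * (2200 * (9 * d) * (3 / (ε / 2)) ^ 3) * X ^ (1 - δ) * t := by
          rw [ht]
          field_simp
  have h1 : (S.card : ℝ) = S1.card + S2.card := by exact_mod_cast hsplit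
  calc (S.card : ℝ) ≤ X ^ (1 - δ) + d * (2200 * (9 * d) * (3 / (ε / 2)) ^ 3) * X ^ (1 - δ) := by
        linarith
    _ = (1 + d * (2200 * (9 * d) * (3 / (ε / 2)) ^ 3)) * X ^ (1 - δ) := by ring

/-- reduced classes `b` modulo `q = d p ≤ X^(1/2)` with `d ∈ D`, `d ≤ X^δ`, `p` prime, violating the
bound with exponent `τ` at some `x` with `q^2 ≤ x ≤ X` -/
def excU (D : Set ℕ) (δ τ X : ℝ) : Set (ℕ × ℕ) :=
  {y | (∃ d ∈ D, (d : ℝ) ≤ X ^ δ ∧ ∃ p : ℕ, p.Prime ∧ y.1 = d * p) ∧ (y.1 : ℝ) ≤ Real.sqrt X ∧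
    1 ≤ y.2 ∧ y.2 ≤ y.1 ∧ Nat.Coprime y.2 y.1 ∧ ∃ x : ℝ, (y.1 : ℝ) ^ 2 ≤ x ∧ x ≤ X ∧
    x ^ τ / Real.sqrt (y.1 : ℝ) < |psiR x y.1 y.2 - x / (Nat.totient y.1 : ℝ)|}

lemma excU_finite (D : Set ℕ) (δ τ X : ℝ) : (excU D δ τ X).Finite := by
  refine Set.Finite.subset (Finset.finite_toSet
    ((Finset.Icc 0 ⌊Real.sqrt X⌋₊) ×ˢ (Finset.Icc 0 ⌊Real.sqrt X⌋₊))) ?_
  rintro ⟨q, b⟩ ⟨_, h2, _, h4, _⟩
  simp only at h2 h4
  have h5 : q ≤ ⌊Real.sqrt X⌋₊ := Nat.le_floor h2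
  rw [Finset.mem_coe, Finset.mem_product, Finset.mem_Icc, Finset.mem_Icc]
  exact ⟨⟨Nat.zero_le _, h5⟩, ⟨Nat.zero_le _, by simp only; omega⟩⟩

lemma ncard_excU_le (D : Set ℕ) (δ τ X : ℝ) (hX : 0 ≤ X) : ((excU D δ τ X).ncard : ℝ) ≤ X := by
  have hsub : excU D δ τ X ⊆ ((Icc 1 ⌊Real.sqrt X⌋₊) ×ˢ (Icc 1 ⌊Real.sqrt X⌋₊) : Finset (ℕ × ℕ)) := by
    rintro ⟨q, b⟩ ⟨_, h2, h3, h4, _⟩
    simp only at h2 h3 h4
    have h5 : q ≤ ⌊Real.sqrt X⌋₊ := Nat.le_floor h2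
    rw [Finset.mem_coe, Finset.mem_product, Finset.mem_Icc, Finset.mem_Icc]
    exact ⟨⟨by simp only; omega, h5⟩, ⟨h3, by simp only; omega⟩⟩
  have h1 := Set.ncard_le_ncard hsub (Finset.finite_toSet _)
  rw [Set.ncard_coe_finset, Finset.card_product, Nat.card_Icc, Nat.add_sub_cancel] at h1
  have h2 : ((⌊Real.sqrt X⌋₊ : ℕ) : ℝ) ≤ Real.sqrt X := Nat.floor_le (Real.sqrt_nonneg X)
  calc ((excU D δ τ X).ncard : ℝ) ≤ ((⌊Real.sqrt X⌋₊ * ⌊Real.sqrt X⌋₊ : ℕ) : ℝ) := by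
        exact_mod_cast h1
    _ = (⌊Real.sqrt X⌋₊ : ℝ) * ⌊Real.sqrt X⌋₊ := by push_cast; ring
    _ ≤ Real.sqrt X * Real.sqrt X := by gcongr
    _ = X := Real.mul_self_sqrt hX

open Classical in
/-- the exceptional classes are covered by those of the individual `d` -/
lemma excU_ncard_le_sum (D : Set ℕ) (hD : ∀ d ∈ D, 0 < d) (δ τ X : ℝ) :
    (excU D δ τ X).ncard ≤ ∑ d ∈ (Icc 1 ⌊X ^ δ⌋₊).filter (fun d => d ∈ D), (excMax d τ X).ncard := by
  set I := (Icc 1 ⌊X ^ δ⌋₊).filter (fun d => d ∈ D) with hI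
  have hsub : excU D δ τ X ⊆ ((I.biUnion (fun d =>
      ((excMax_finite d τ X).toFinset).image (fun y => (d * y.1, y.2))) : Finset (ℕ × ℕ)) : Set (ℕ × ℕ)) := by
    rintro ⟨q, b⟩ ⟨⟨d, hdD, hdX, p, hp, hq⟩, h2, h3, h4, h5, h6⟩
    simp only at hq h2 h3 h4 h5 h6
    subst hq
    rw [Finset.mem_coe, Finset.mem_biUnion]
    refine ⟨d, ?_, ?_⟩
    · rw [hI, Finset.mem_filter, Finset.mem_Icc]
      exact ⟨⟨hD d hdD, Nat.le_floor hdX⟩, hdD⟩
    · rw [Finset.mem_image]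
      refine ⟨(p, b), ?_, rfl⟩
      rw [Set.Finite.mem_toFinset]
      exact ⟨hp, h2, h3, h4, h5, h6⟩
  have h1 := Set.ncard_le_ncard hsub (Finset.finite_toSet _)
  rw [Set.ncard_coe_finset] at h1
  refine h1.trans (Finset.card_biUnion_le.trans (Finset.sum_le_sum fun d _ => ?_))
  refine Finset.card_image_le.trans (le_of_eq ?_)
  rw [Set.ncard_eq_toFinset_card _ (excMax_finite d τ X)]

/-- uniform bound for the exceptional classes -/
theorem excU_bound (D : Set ℕ) (hD : ∀ d ∈ D, 0 < d) (η : ℝ) (hη : 0 ≤ η) (hη1 : η < 1 / 4)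
    (hZ : ∀ d ∈ D, ∀ [NeZero d], ZF d (3 / 4 + η)) :
    ∀ ε : ℝ, 0 < ε → ∃ δ : ℝ, 0 < δ ∧ ∃ C : ℝ, ∀ X : ℝ, 1 ≤ X →
      ((excU D δ (1 / 2 + η + ε) X).ncard : ℝ) ≤ C * X ^ (1 - δ) := by
  classical
  intro ε hε
  obtain ⟨C, hC0, hC⟩ := EBU_of_ZF (3 / 4 + η) (by linarith) (by linarith) (ε / 8) (by positivity)
  set δ : ℝ := min (1 / 8) (min (ε / 4) (ε / (4 * (1 / 2 + η + ε)))) with hδ
  have hτ0 : 0 < 1 / 2 + η + ε := by linarith
  have hδ0 : 0 < δ := by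
    rw [hδ]
    refine lt_min (by norm_num) (lt_min (by positivity) (by positivity))
  have hδ1 : δ ≤ 1 / 8 := min_le_left _ _
  have hδ2 : δ ≤ ε / 4 := (min_le_right _ _).trans (min_le_left _ _)
  have hδ3 : δ * (1 / 2 + η + ε) ≤ ε / 4 := by
    have h1 : δ ≤ ε / (4 * (1 / 2 + η + ε)) := (min_le_right _ _).trans (min_le_right _ _)
    calc δ * (1 / 2 + η + ε) ≤ ε / (4 * (1 / 2 + η + ε)) * (1 / 2 + η + ε) := by gcongr
      _ = ε / 4 := by field_simp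
  set δ' : ℝ := δ / 4 with hδ'
  have hδ'0 : 0 < δ' := by positivity
  -- the threshold
  have ht1 : Tendsto (fun X : ℝ => X ^ (ε / 4)) atTop atTop := tendsto_rpow_atTop (by positivity)
  have ht2 : Tendsto (fun X : ℝ => X ^ (1 / 16 : ℝ)) atTop atTop := tendsto_rpow_atTop (by norm_num)
  obtain ⟨X₁, hX₁⟩ := Filter.eventually_atTop.mp
    ((ht1.eventually_ge_atTop (3 * C)).and (ht2.eventually_ge_atTop 6))
  set X₂ : ℝ := max X₁ 2 with hX₂
  set C₂ : ℝ := 1 + 2200 * 9 * (3 / (ε / 2)) ^ 3 with hC₂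
  have hC₂0 : 0 ≤ C₂ := by positivity
  refine ⟨δ', hδ'0, max X₂ C₂, ?_⟩
  intro X hX1
  have hX0 : 0 < X := by linarith
  have hXδ : 1 ≤ X ^ (1 - δ') := Real.one_le_rpow hX1 (by linarith)
  by_cases hXX : X < X₂
  · calc ((excU D δ' (1 / 2 + η + ε) X).ncard : ℝ) ≤ X := ncard_excU_le D _ _ X hX0.le
      _ ≤ X₂ := hXX.le
      _ ≤ max X₂ C₂ := le_max_left _ _
      _ = max X₂ C₂ * 1 := (mul_one _).symm
      _ ≤ max X₂ C₂ * X ^ (1 - δ') := by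
          have : 0 ≤ max X₂ C₂ := le_trans hC₂0 (le_max_right _ _)
          gcongr
  · push Not at hXX
    have hX2 : 2 ≤ X := (le_max_right _ _).trans hXX
    obtain ⟨hXC, hXd⟩ := hX₁ X ((le_max_left _ _).trans hXX)
    have hterm : ∀ d ∈ (Icc 1 ⌊X ^ δ'⌋₊).filter (fun d => d ∈ D),
        ((excMax d (1 / 2 + η + ε) X).ncard : ℝ) ≤ C₂ * X ^ (2 * δ') * X ^ (1 - δ) := by
      intro d hd
      rw [Finset.mem_filter, Finset.mem_Icc] at hd
      obtain ⟨⟨hd1, hd2⟩, hdD⟩ := hd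
      have : NeZero d := ⟨by omega⟩
      have hdR : (1 : ℝ) ≤ d := by exact_mod_cast hd1
      have hdX : (d : ℝ) ≤ X ^ δ' := (Nat.cast_le.mpr hd2).trans (Nat.floor_le (by positivity))
      have hd2X : (d : ℝ) ^ 2 ≤ X ^ (2 * δ') := by
        calc (d : ℝ) ^ 2 ≤ (X ^ δ') ^ 2 := by gcongr
          _ = X ^ (2 * δ') := by
              rw [← Real.rpow_natCast, ← Real.rpow_mul hX0.le]
              congr 1
              push_cast
              ring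
      have h3 : 3 * (C * d ^ 2) * d ≤ X ^ (ε / 2) := by
        calc 3 * (C * (d : ℝ) ^ 2) * d = (3 * C) * ((d : ℝ) ^ 2 * d) := by ring
          _ ≤ X ^ (ε / 4) * (X ^ (2 * δ') * X ^ δ') := by gcongr
          _ = X ^ (ε / 4 + (2 * δ' + δ')) := by
              rw [← Real.rpow_add hX0, ← Real.rpow_add hX0]
          _ ≤ X ^ (ε / 2) := by
              apply Real.rpow_le_rpow_of_exponent_le hX1
              linarith
      have h4 : 6 * (d : ℝ) ^ 2 ≤ X ^ (1 / 8 : ℝ) := by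
        calc 6 * (d : ℝ) ^ 2 ≤ X ^ (1 / 16 : ℝ) * X ^ (2 * δ') := by gcongr
          _ = X ^ (1 / 16 + 2 * δ') := by rw [← Real.rpow_add hX0]
          _ ≤ X ^ (1 / 8 : ℝ) := by
              apply Real.rpow_le_rpow_of_exponent_le hX1
              linarith
      have h5 := excMax_core d hd1 η ε δ (C * d ^ 2) X hη hε hδ0 hδ1 hδ2 hδ3 (by positivity) hX2
        h3 h4 (fun x hx a ha => hC d (hZ d hdD) x hx a ha)
      refine h5.trans ?_
      gcongr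
      calc 1 + (d : ℝ) * (2200 * (9 * d) * (3 / (ε / 2)) ^ 3)
          ≤ (d : ℝ) ^ 2 + (d : ℝ) * (2200 * (9 * d) * (3 / (ε / 2)) ^ 3) := by nlinarith
        _ = C₂ * (d : ℝ) ^ 2 := by rw [hC₂]; ring
        _ ≤ C₂ * X ^ (2 * δ') := by gcongr
    have h1 : ((excU D δ' (1 / 2 + η + ε) X).ncard : ℝ)
        ≤ ∑ d ∈ (Icc 1 ⌊X ^ δ'⌋₊).filter (fun d => d ∈ D),
          ((excMax d (1 / 2 + η + ε) X).ncard : ℝ) := by
      exact_mod_cast excU_ncard_le_sum D hD δ' (1 / 2 + η + ε) X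
    have hcardI : ((((Icc 1 ⌊X ^ δ'⌋₊).filter (fun d => d ∈ D)).card : ℕ) : ℝ) ≤ X ^ δ' := by
      have h2 : ((Icc 1 ⌊X ^ δ'⌋₊).filter (fun d => d ∈ D)).card ≤ ⌊X ^ δ'⌋₊ := by
        refine (Finset.card_filter_le _ _).trans ?_
        rw [Nat.card_Icc, Nat.add_sub_cancel]
      exact (Nat.cast_le.mpr h2).trans (Nat.floor_le (by positivity))
    calc ((excU D δ' (1 / 2 + η + ε) X).ncard : ℝ)
        ≤ ∑ d ∈ (Icc 1 ⌊X ^ δ'⌋₊).filter (fun d => d ∈ D), C₂ * X ^ (2 * δ') * X ^ (1 - δ) :=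
          h1.trans (Finset.sum_le_sum hterm)
      _ = ((((Icc 1 ⌊X ^ δ'⌋₊).filter (fun d => d ∈ D)).card : ℕ) : ℝ) *
            (C₂ * X ^ (2 * δ') * X ^ (1 - δ)) := by rw [Finset.sum_const, nsmul_eq_mul]
      _ ≤ X ^ δ' * (C₂ * X ^ (2 * δ') * X ^ (1 - δ)) := by gcongr
      _ = C₂ * (X ^ δ' * X ^ (2 * δ') * X ^ (1 - δ)) := by ring
      _ = C₂ * X ^ (1 - δ') := by
          rw [← Real.rpow_add hX0, ← Real.rpow_add hX0]
          congr 2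
          rw [hδ']
          ring
      _ ≤ max X₂ C₂ * X ^ (1 - δ') := by
          gcongr
          exact le_max_right _ _

/-- the exceptional pairs of one `d` inject into the uniform set -/
lemma excMax_le_excU (D : Set ℕ) (δ τ : ℝ) (hδ : 0 < δ) (d : ℕ) (hdD : d ∈ D) (hd : 0 < d) :
    ∀ᶠ X : ℝ in atTop, (excMax d τ X).ncard ≤ (excU D δ τ X).ncard := by
  have ht : Tendsto (fun X : ℝ => X ^ δ) atTop atTop := tendsto_rpow_atTop hδ
  filter_upwards [ht.eventually_ge_atTop (d : ℝ)] with X hX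
  apply Set.ncard_le_ncard_of_injOn (fun y => (d * y.1, y.2)) _ _ (excU_finite D δ τ X)
  · rintro ⟨p, b⟩ ⟨h1, h2, h3, h4, h5, h6⟩
    exact ⟨⟨d, hdD, hX, p, h1, rfl⟩, h2, h3, h4, h5, h6⟩
  · rintro ⟨p, b⟩ _ ⟨p', b'⟩ _ h
    simp only [Prod.mk.injEq] at h
    obtain ⟨h1, h2⟩ := h
    have h3 : p = p' := Nat.eq_of_mul_eq_mul_left hd h1
    rw [h3, h2]

/-- power saving for the exceptional pairs gives many good pairs in each class -/
theorem good_of_excMax' (d : ℕ) (hd : 1 ≤ d) (τ δ₀ C : ℝ) (hδ₀ : 0 < δ₀)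
    (h : ∀ᶠ X : ℝ in atTop, ((excMax d τ X).ncard : ℝ) ≤ C * X ^ (1 - δ₀)) (δ : ℝ) (hδ : 0 < δ) :
    ∀ᶠ x : ℝ in atTop, ∀ a : ℕ, Nat.Coprime a d → x ^ (1 - δ) ≤ ((good d a τ x).ncard : ℝ) := by
  have hdR : (1 : ℝ) ≤ d := by exact_mod_cast hd
  set e : ℝ := min δ δ₀ / 2 with he
  have he0 : 0 < e := by rw [he]; positivity
  have he1 : 2 * e ≤ δ := by rw [he]; linarith [min_le_left δ δ₀]
  have he2 : 2 * e ≤ δ₀ := by rw [he]; linarith [min_le_right δ δ₀]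
  have hpow : Tendsto (fun x : ℝ => x ^ (e / 2)) atTop atTop := tendsto_rpow_atTop (by positivity)
  filter_upwards [eventually_card_prs d hd, eventually_ge_atTop (10 : ℝ),
    hpow.eventually_ge_atTop (32 * d ^ 2 * (2 / e)), hpow.eventually_ge_atTop (|C| + 1), h]
    with x hx1 hx10 hx3 hx4 h5
  intro a ha
  have hx0 : 0 < x := by linarith
  have hlogx : 0 < Real.log x := Real.log_pos (by linarith)
  have h1 := hx1 a ha
  have h2 : prs d a x ⊆ good d a τ x ∪ excMax d τ x := by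
    rintro ⟨p, b⟩ hy
    by_cases hb : |psiR x (d * p) b - x / (Nat.totient (d * p) : ℝ)|
        ≤ x ^ τ / Real.sqrt ((d * p : ℕ) : ℝ)
    · exact Or.inl ⟨hy, hb⟩
    · push Not at hb
      obtain ⟨g1, g2, g3, g4, g5, g6⟩ := hy
      exact Or.inr (exc_subset_excMax d τ x ⟨g1, g2, g3, g4, g5, hb⟩)
  have h3 : (prs d a x).ncard ≤ (good d a τ x).ncard + (excMax d τ x).ncard :=
    (Set.ncard_le_ncard h2 ((good_finite d a τ x).union (excMax_finite d τ x))).trans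
      (Set.ncard_union_le _ _)
  have h4 : ((prs d a x).ncard : ℝ) ≤ ((good d a τ x).ncard : ℝ) + ((excMax d τ x).ncard : ℝ) := by
    exact_mod_cast h3
  have h6 : C * x ^ (1 - δ₀) ≤ |C| * x ^ (1 - 2 * e) := by
    calc C * x ^ (1 - δ₀) ≤ |C| * x ^ (1 - δ₀) := by
          gcongr
          exact le_abs_self C
      _ ≤ |C| * x ^ (1 - 2 * e) := by
          gcongr
          · linarith
  have h7 : x ^ (1 - e) ≤ x / (32 * d ^ 2 * Real.log x) := by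
    rw [le_div_iff₀ (by positivity)]
    have h8 : Real.log x ≤ x ^ (e / 2) / (e / 2) := Real.log_le_rpow_div hx0.le (by positivity)
    calc x ^ (1 - e) * (32 * d ^ 2 * Real.log x)
        ≤ x ^ (1 - e) * (32 * d ^ 2 * (x ^ (e / 2) / (e / 2))) := by gcongr
      _ = x ^ (1 - e) * x ^ (e / 2) * (32 * d ^ 2 * (2 / e)) := by field_simp
      _ ≤ x ^ (1 - e) * x ^ (e / 2) * x ^ (e / 2) := by gcongr
      _ = x ^ (1 - e + e / 2 + e / 2) := by
          rw [← Real.rpow_add hx0, ← Real.rpow_add hx0]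
      _ = x := by
          rw [show 1 - e + e / 2 + e / 2 = 1 by ring, Real.rpow_one]
  have h8 : x ^ (1 - δ) ≤ x ^ (1 - 2 * e) :=
    Real.rpow_le_rpow_of_exponent_le (by linarith) (by linarith)
  have h9 : (|C| + 1) * x ^ (1 - 2 * e) ≤ x ^ (1 - e) := by
    calc (|C| + 1) * x ^ (1 - 2 * e) ≤ x ^ (e / 2) * x ^ (1 - 2 * e) := by gcongr
      _ = x ^ (e / 2 + (1 - 2 * e)) := by rw [← Real.rpow_add hx0]
      _ ≤ x ^ (1 - e) := Real.rpow_le_rpow_of_exponent_le (by linarith) (by linarith)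
  nlinarith

end Pool.Agent.MC
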