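import Mathlib
import Pool.Agent.Lib.MP_9cfc0a_nt.QuasiD

set_option autoImplicit false

namespace Pool.Agent.MC

open Finset MeasureTheory Real Filter Asymptotics

/-- Few good pairs in the class of `a` at one point `x` bound the error term at level `d` there. -/
theorem E_of_good_pt (d : ℕ) (hd : 1 ≤ d) (η : ℝ) (hη : 0 ≤ η) (ε : ℝ) (hε : 0 < ε) :
    ∀ᶠ x : ℝ in atTop, ∀ a : ℕ, Nat.Coprime a d →
      x ^ (1 - min (ε / 8) (1 / 8)) ≤ ((good d a (1 / 2 + η + ε) x).ncard : ℝ) →
      |psiR x d a - x / (Nat.totient d : ℝ)| ≤ (2 + 4 * d) * x ^ (3 / 4 + η + ε) := by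
  classical
  have hdR : (1 : ℝ) ≤ d := by exact_mod_cast hd
  have hd0 : (0 : ℝ) < d := by linarith
  set τ : ℝ := 1 / 2 + η + ε with hτ
  set δ : ℝ := min (ε / 8) (1 / 8) with hδ
  have hδ0 : 0 < δ := by positivity
  have hδ1 : δ ≤ ε / 8 := min_le_left _ _
  have hδ2 : δ ≤ 1 / 8 := min_le_right _ _
  have key : ∀ᶠ x : ℝ in atTop, ∀ a : ℕ, Nat.Coprime a d →
      x ^ (1 - δ) ≤ ((good d a τ x).ncard : ℝ) →
      |psiR x d a - x / (Nat.totient d : ℝ)| ≤ (2 + 4 * d) * x ^ (3 / 4 + η + ε) := by
    have hpow : Tendsto (fun x : ℝ => x ^ (δ / 2)) atTop atTop := tendsto_rpow_atTop (by positivity)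
    have hpow2 : Tendsto (fun x : ℝ => x ^ (1 / 8 : ℝ)) atTop atTop := tendsto_rpow_atTop (by norm_num)
    filter_upwards [hpow.eventually_ge_atTop (2200 * (3 / (ε / 8)) ^ 3 + 2),
      eventually_ge_atTop (10 : ℝ), hpow2.eventually_ge_atTop (2 * (d : ℝ) ^ 2)] with x hx3 hx10 hx4
    intro a ha hx1
    have hx0 : 0 < x := by linarith
    have hx1' : (1 : ℝ) ≤ x := by linarith
    set t : ℝ := x ^ (1 + ε) with ht
    have ht0 : 0 < t := by positivity
    set K : ℕ := Nat.log 2 ⌊x⌋₊ + 1 with hK
    set Q : ℕ := ⌊Real.sqrt x⌋₊ with hQ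
    set M : ℕ := ⌊x ^ (1 / 2 - δ)⌋₊ with hM
    have hMle : (M : ℝ) ≤ x ^ (1 / 2 - δ) := Nat.floor_le (by positivity)
    have hlarge : ∀ p : ℕ, x ^ (1 / 2 - δ) < ((d * p : ℕ) : ℝ) → d < p := by
      intro p hp
      have h1 : x ^ (1 / 8 : ℝ) ≤ x ^ (1 / 2 - δ) :=
        Real.rpow_le_rpow_of_exponent_le hx1' (by linarith)
      push_cast at hp
      have h2 : 2 * (d : ℝ) ^ 2 < d * p := by linarith
      have h3 : (d : ℝ) < p := by nlinarith
      exact_mod_cast h3
    -- existence of a good pair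
    have hgood : ∃ p b : ℕ, (p, b) ∈ good d a τ x ∧ x ^ (1 / 2 - δ) < ((d * p : ℕ) : ℝ) ∧
        ¬ (t * p < ‖newQ (uC d a) 0 ⌊x⌋₊ p b‖ ^ 2) := by
      by_contra hcon
      push Not at hcon
      have hfin := good_finite d a τ x
      set G : Finset (ℕ × ℕ) := hfin.toFinset with hG
      have hcard : (good d a τ x).ncard = G.card := Set.ncard_eq_toFinset_card _ hfin
      set G1 := G.filter (fun y => ((d * y.1 : ℕ) : ℝ) ≤ x ^ (1 / 2 - δ)) with hG1
      set G2 := G.filter (fun y => ¬ ((d * y.1 : ℕ) : ℝ) ≤ x ^ (1 / 2 - δ)) with hG2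
      have hsplit : G.card = G1.card + G2.card := by
        rw [hG1, hG2]
        exact (Finset.card_filter_add_card_filter_not _).symm
      have hc1 : (G1.card : ℝ) ≤ x ^ (1 - 2 * δ) := by
        have h1 : G1 ⊆ (Icc 1 M) ×ˢ (Icc 1 M) := by
          rintro ⟨p, b⟩ hy
          rw [hG1, Finset.mem_filter, hG, Set.Finite.mem_toFinset] at hy
          obtain ⟨⟨⟨hp, _, ha1, ha2, _⟩, _⟩, hsm⟩ := hy
          simp only at hp ha1 ha2 hsm
          have h5 : d * p ≤ M := Nat.le_floor hsm
          have h6 : p ≤ d * p := Nat.le_mul_of_pos_left p hd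
          have hp1 := hp.one_le
          rw [Finset.mem_product, Finset.mem_Icc, Finset.mem_Icc]
          exact ⟨⟨hp1, by simp only; omega⟩, ⟨ha1, by simp only; omega⟩⟩
        have h2 := Finset.card_le_card h1
        rw [Finset.card_product, Nat.card_Icc, Nat.add_sub_cancel] at h2
        calc (G1.card : ℝ) ≤ ((M * M : ℕ) : ℝ) := by exact_mod_cast h2
          _ = (M : ℝ) * M := by push_cast; ring
          _ ≤ x ^ (1 / 2 - δ) * x ^ (1 / 2 - δ) := by gcongr
          _ = x ^ (1 - 2 * δ) := by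
              rw [← Real.rpow_add hx0]
              congr 1
              ring
      have hc2' : G2.card ≤ (badPairs (uC d a) K Q t).card := by
        set F : ℕ × ℕ → (_ : ℕ) × ℕ := fun y => ⟨y.1, y.2 % y.1⟩ with hF
        apply Finset.card_le_card_of_injOn F
        · rintro ⟨p, b⟩ hy
          rw [Finset.mem_coe, hG2, Finset.mem_filter, hG, Set.Finite.mem_toFinset] at hy
          obtain ⟨hgd, hla⟩ := hy
          simp only at hla
          push Not at hla
          have h1 := hcon p b hgd hla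
          obtain ⟨⟨hp, hq, ha1, ha2, hcop, hcl⟩, _⟩ := hgd
          simp only at hp hq ha1 ha2 hcop hcl
          rw [Finset.mem_coe]
          simp only [hF]
          unfold badPairs
          rw [Finset.mem_filter, Finset.mem_sigma, Finset.mem_Icc, Finset.mem_range]
          simp only
          have h9 : p ≤ Q := by
            have h10 : d * p ≤ Q := Nat.le_floor hq
            have h6 : p ≤ d * p := Nat.le_mul_of_pos_left p hd
            omega
          refine ⟨⟨⟨hp.one_le, h9⟩, Nat.mod_lt _ hp.pos⟩, ⌊x⌋₊,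
            Nat.lt_pow_succ_log_self (by norm_num) _, ?_⟩
          rw [newQ_mod]
          exact h1
        · rintro ⟨p, b⟩ hy ⟨p', b'⟩ hy' heq
          rw [Finset.mem_coe, hG2, Finset.mem_filter, hG, Set.Finite.mem_toFinset] at hy hy'
          obtain ⟨⟨⟨hp, hq, hb1, hb2, hcop, hcl⟩, _⟩, hla⟩ := hy
          obtain ⟨⟨⟨hp', hq', hb1', hb2', hcop', hcl'⟩, _⟩, hla'⟩ := hy'
          simp only at hp hq hb1 hb2 hcop hcl hla hp' hq' hb1' hb2' hcop' hcl' hla'
          push Not at hla
          simp only [hF, Sigma.mk.injEq, heq_eq_eq] at heq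
          obtain ⟨h3, h4⟩ := heq
          subst h3
          have hdp' : d < p := hlarge p hla
          have hcop : Nat.Coprime d p := by
            rw [Nat.coprime_comm, Nat.Prime.coprime_iff_not_dvd hp]
            intro hdiv
            have := Nat.le_of_dvd (by omega) hdiv
            omega
          have h2 : b % d = b' % d := by rw [hcl, hcl']
          have h5 : b % (d * p) = b' % (d * p) :=
            (Nat.modEq_and_modEq_iff_modEq_mul hcop).mp ⟨h2, h4⟩
          congr 1
          have hdp0 : 0 < d * p := Nat.mul_pos (by omega) hp.pos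
          rcases Nat.lt_or_ge b (d * p) with h6 | h6
          · rcases Nat.lt_or_ge b' (d * p) with h7 | h7
            · rwa [Nat.mod_eq_of_lt h6, Nat.mod_eq_of_lt h7] at h5
            · have h8 : b' = d * p := by omega
              rw [Nat.mod_eq_of_lt h6, h8, Nat.mod_self] at h5
              omega
          · have h8 : b = d * p := by omega
            rcases Nat.lt_or_ge b' (d * p) with h7 | h7
            · rw [h8, Nat.mod_self, Nat.mod_eq_of_lt h7] at h5
              omega
            · omega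
      have hbp := card_badPairs_uC d a x t (by linarith) ht0.le
      set K₀ : ℝ := 2200 * (3 / (ε / 8)) ^ 3 with hK₀
      have hK₀0 : 0 ≤ K₀ := by positivity
      have hc2 : (G2.card : ℝ) ≤ K₀ * x ^ (1 - 2 * δ) := by
        have h0 : (G2.card : ℝ) ≤ ((badPairs (uC d a) K Q t).card : ℝ) := by exact_mod_cast hc2'
        refine h0.trans ?_
        rw [← mul_le_mul_iff_left₀ ht0]
        refine hbp.trans ?_
        have h4 := log_cube_le x (by linarith) (ε / 8) (by positivity)
        have h5 : x ^ 2 * x ^ (ε / 8) ≤ x ^ (1 - 2 * δ) * t := by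
          rw [ht, ← Real.rpow_natCast, ← Real.rpow_add hx0, ← Real.rpow_add hx0]
          apply Real.rpow_le_rpow_of_exponent_le hx1'
          push_cast
          linarith
        calc 2200 * x ^ 2 * (Real.log x) ^ 3 ≤ 2200 * x ^ 2 * ((3 / (ε / 8)) ^ 3 * x ^ (ε / 8)) := by
              gcongr
          _ = K₀ * (x ^ 2 * x ^ (ε / 8)) := by rw [hK₀]; ring
          _ ≤ K₀ * (x ^ (1 - 2 * δ) * t) := by gcongr
          _ = K₀ * x ^ (1 - 2 * δ) * t := by ring
      have h1 : ((good d a τ x).ncard : ℝ) = G1.card + G2.card := by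
        rw [hcard, hsplit]
        push_cast
        ring
      have h2 := hx1
      rw [h1] at h2
      have h3 : x ^ (δ / 2) * x ^ (1 - 2 * δ) ≤ x ^ (1 - δ) := by
        rw [← Real.rpow_add hx0]
        apply Real.rpow_le_rpow_of_exponent_le hx1'
        linarith
      have h4 : 0 < x ^ (1 - 2 * δ) := by positivity
      have h5 : (K₀ + 2) * x ^ (1 - 2 * δ) ≤ x ^ (δ / 2) * x ^ (1 - 2 * δ) := by gcongr
      nlinarith
    -- use the good pair
    obtain ⟨p, b, ⟨⟨hpp, hpq, hb1, hb2, hbc, hba⟩, hb3⟩, hla, hb4⟩ := hgood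
    simp only at hpp hpq hb1 hb2 hbc hba hb3 hla
    push Not at hb4
    have hdp' := hlarge p hla
    have hcop : Nat.Coprime d p := by
      rw [Nat.coprime_comm, Nat.Prime.coprime_iff_not_dvd hpp]
      intro hdiv
      have := Nat.le_of_dvd (by omega) hdiv
      omega
    have hp2 : (2 : ℝ) ≤ p := by exact_mod_cast hpp.two_le
    have hp0 : (0 : ℝ) < p := by linarith
    have huC : uC d a = uC d b := by
      rw [← uC_mod d a, ← hba, uC_mod]
    have hpsi : psiR x d a = psiR x d b := by
      unfold psiR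
      rw [hba]
    rw [huC, norm_newQ_uC d p b x hpp hcop] at hb4
    have hφ : (Nat.totient (d * p) : ℝ) = Nat.totient d * ((p : ℝ) - 1) := by
      rw [Nat.totient_mul hcop, Nat.totient_prime hpp]
      push_cast
      rw [Nat.cast_sub hpp.one_le, Nat.cast_one]
    have hφd : (1 : ℝ) ≤ Nat.totient d := by
      exact_mod_cast Nat.totient_pos.mpr (by omega : 0 < d)
    have hpx : (p : ℝ) ≤ Real.sqrt x := by
      refine le_trans ?_ hpq
      push_cast
      nlinarith
    have hpx2 : Real.sqrt p ≤ x ^ (1 / 4 : ℝ) := by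
      have h1 : Real.sqrt p ≤ Real.sqrt (Real.sqrt x) := Real.sqrt_le_sqrt hpx
      refine h1.trans (le_of_eq ?_)
      rw [Real.sqrt_eq_rpow, Real.sqrt_eq_rpow, ← Real.rpow_mul hx0.le]
      norm_num
    -- bound 1
    have hA : |(p : ℝ) * psiR x (d * p) b - psiR x d b| ≤ x ^ (3 / 4 + η + ε) := by
      have h1 : |(p : ℝ) * psiR x (d * p) b - psiR x d b| ^ 2 ≤ (x ^ (3 / 4 + η + ε)) ^ 2 := by
        refine hb4.trans ?_
        have h2 : (x ^ (3 / 4 + η + ε)) ^ 2 = x ^ (3 / 2 + 2 * η + 2 * ε) := by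
          rw [← Real.rpow_natCast, ← Real.rpow_mul hx0.le]
          congr 1
          push_cast
          ring
        rw [h2]
        calc t * p ≤ x ^ (1 + ε) * x ^ (1 / 2 : ℝ) := by
              rw [ht]
              rw [Real.sqrt_eq_rpow] at hpx
              gcongr
          _ = x ^ (1 + ε + 1 / 2) := by rw [← Real.rpow_add hx0]
          _ ≤ x ^ (3 / 2 + 2 * η + 2 * ε) := by
              apply Real.rpow_le_rpow_of_exponent_le (by linarith)
              linarith
      exact le_of_sq_le_sq h1 (by positivity)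
    -- bound 2
    have hB : |(p : ℝ) * psiR x (d * p) b - p * (x / (Nat.totient (d * p) : ℝ))| ≤ x ^ (3 / 4 + η + ε) := by
      rw [← mul_sub, abs_mul, abs_of_pos hp0]
      have hsq : 0 < Real.sqrt ((d * p : ℕ) : ℝ) := by
        apply Real.sqrt_pos.mpr
        push_cast
        positivity
      have h1 : Real.sqrt p ≤ Real.sqrt ((d * p : ℕ) : ℝ) := by
        apply Real.sqrt_le_sqrt
        push_cast
        nlinarith
      have h2 : (p : ℝ) = Real.sqrt p * Real.sqrt p := (Real.mul_self_sqrt hp0.le).symm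
      have hsp : 0 < Real.sqrt p := Real.sqrt_pos.mpr hp0
      calc (p : ℝ) * |psiR x (d * p) b - x / (Nat.totient (d * p) : ℝ)|
          ≤ p * (x ^ τ / Real.sqrt ((d * p : ℕ) : ℝ)) := by gcongr
        _ ≤ p * (x ^ τ / Real.sqrt p) := by gcongr
        _ = Real.sqrt p * x ^ τ := by
            nth_rewrite 1 [h2]
            field_simp
        _ ≤ x ^ (1 / 4 : ℝ) * x ^ τ := by gcongr
        _ = x ^ (3 / 4 + η + ε) := by
            rw [← Real.rpow_add hx0]
            congr 1
            rw [hτ]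
            ring
    -- bound 3
    have hC : |(p : ℝ) * (x / (Nat.totient (d * p) : ℝ)) - x / (Nat.totient d : ℝ)|
        ≤ 4 * d * x ^ (3 / 4 + η + ε) := by
      rw [hφ]
      have hp1 : (0 : ℝ) < (p : ℝ) - 1 := by linarith
      have h1 : (p : ℝ) * (x / (Nat.totient d * ((p : ℝ) - 1))) - x / (Nat.totient d : ℝ)
          = x / (Nat.totient d * ((p : ℝ) - 1)) := by
        have : (Nat.totient d : ℝ) ≠ 0 := by linarith
        field_simp
        ring
      rw [h1, abs_of_nonneg (by positivity)]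
      have hdp1 : x ^ (1 / 2 - δ) < d * p := by
        have := hla
        push_cast at this
        exact this
      have h2 : x / (Nat.totient d * ((p : ℝ) - 1)) ≤ 4 * d * (x / x ^ (1 / 2 - δ)) := by
        have hpd : 0 < x ^ (1 / 2 - δ) := by positivity
        rw [mul_div_assoc', div_le_div_iff₀ (by positivity) hpd]
        calc x * x ^ (1 / 2 - δ) ≤ x * (d * p) := by gcongr
          _ ≤ x * (d * (2 * ((p : ℝ) - 1))) := by gcongr; linarith
          _ = 2 * (d * x * (1 * ((p : ℝ) - 1))) := by ring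
          _ ≤ 2 * (d * x * (Nat.totient d * ((p : ℝ) - 1))) := by gcongr
          _ ≤ 4 * d * x * (Nat.totient d * ((p : ℝ) - 1)) := by
              have : 0 ≤ d * x * (Nat.totient d * ((p : ℝ) - 1)) := by positivity
              linarith
      refine h2.trans ?_
      have h3 : x / x ^ (1 / 2 - δ) = x ^ (1 / 2 + δ) := by
        rw [div_eq_iff (by positivity), ← Real.rpow_add hx0]
        rw [show 1 / 2 + δ + (1 / 2 - δ) = 1 by ring, Real.rpow_one]
      rw [h3]
      have h4 : x ^ (1 / 2 + δ) ≤ x ^ (3 / 4 + η + ε) :=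
        Real.rpow_le_rpow_of_exponent_le hx1' (by linarith)
      gcongr
    rw [hpsi]
    have hfinal : psiR x d b - x / (Nat.totient d : ℝ)
        = -((p : ℝ) * psiR x (d * p) b - psiR x d b)
          + ((p : ℝ) * psiR x (d * p) b - p * (x / (Nat.totient (d * p) : ℝ)))
          + ((p : ℝ) * (x / (Nat.totient (d * p) : ℝ)) - x / (Nat.totient d : ℝ)) := by ring
    rw [hfinal]
    have h1 := abs_add_three (-((p : ℝ) * psiR x (d * p) b - psiR x d b))
      ((p : ℝ) * psiR x (d * p) b - p * (x / (Nat.totient (d * p) : ℝ)))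
      ((p : ℝ) * (x / (Nat.totient (d * p) : ℝ)) - x / (Nat.totient d : ℝ))
    rw [abs_neg] at h1
    calc _ ≤ _ := h1
      _ ≤ x ^ (3 / 4 + η + ε) + x ^ (3 / 4 + η + ε) + 4 * d * x ^ (3 / 4 + η + ε) := by gcongr
      _ = (2 + 4 * d) * x ^ (3 / 4 + η + ε) := by ring
  exact key

end Pool.Agent.MC
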