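import Mathlib
import Pool.Agent.Lib.MP_9cfc0a_nt.W1
import Pool.Agent.Lib.MP_9cfc0a_nt.Mg.G077
import Pool.Agent.Lib.MP_9cfc0a_nt.An9

set_option autoImplicit false

namespace Pool.Agent.MC

open MeasureTheory Real Filter

/-- The error bound in arbitrarily late windows gives the zero-free half plane. -/
theorem ZF_of_windows (d : ℕ) [NeZero d] (θ : ℝ) (hθ : 1 / 2 ≤ θ)
    (h : ∀ ε : ℝ, 0 < ε → ∀ K : ℕ, ∃ C : ℝ, ∃ᶠ X : ℝ in atTop, ∀ x : ℝ, X ≤ x → x ≤ X ^ K →
      ∀ a : ℕ, Nat.Coprime a d →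
        |psiR x d a - x / (Nat.totient d : ℝ)| ≤ C * x ^ (θ + ε)) : ZF d θ := by
  intro χ ρ hρ hρ1 hzero
  set β : ℝ := ρ.re with hβ
  set T : ℝ := max 1 |ρ.im| with hT
  set ε : ℝ := (β - θ) / 4 with hε
  have hε0 : 0 < ε := by rw [hε]; linarith
  have hT1 : 1 ≤ T := le_max_left _ _
  obtain ⟨K, X₀, hK, hZ⟩ := Pool.Agent.EM.zero_density 1 ε hε0
  obtain ⟨C, hC⟩ := h ε hε0 K
  have hd1 : 1 ≤ d := Nat.one_le_iff_ne_zero.mpr (NeZero.ne d)
  have hφ0 : (0 : ℝ) ≤ Nat.totient d := Nat.cast_nonneg _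
  set B : ℝ := T ^ 2 * (Nat.totient d : ℝ) * (d * C ^ 2 / (6 * ε)) with hB
  have hB0 : 0 ≤ B := by positivity
  have hlim : Tendsto (fun X : ℝ => X ^ (5 * ε)) atTop atTop := tendsto_rpow_atTop (by positivity)
  obtain ⟨X, hX, hXX₀, hXd, hXT, hX2, hXB⟩ := (hC.and_eventually
    ((eventually_ge_atTop X₀).and ((eventually_ge_atTop (d : ℝ)).and
      ((eventually_ge_atTop T).and ((eventually_ge_atTop 2).and
        (hlim.eventually_ge_atTop (B + 1))))))).exists
  have hX0 : 0 < X := by linarith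
  have hXK : X ≤ X ^ K := by
    calc X = X ^ 1 := (pow_one X).symm
      _ ≤ X ^ K := pow_le_pow_right₀ (by linarith) hK
  have h1 := hZ d X T β hXd hXX₀ hT1 (by rw [pow_one]; exact hXT) (by linarith)
  have hcard : (1 : ℝ) ≤ (Nat.card {χ : DirichletCharacter ℂ d //
      ∃ ρ : ℂ, χ.LFunction ρ = 0 ∧ β ≤ ρ.re ∧ ρ.re < 1 ∧ |ρ.im| ≤ T} : ℝ) := by
    have : Nonempty {χ : DirichletCharacter ℂ d //
      ∃ ρ : ℂ, χ.LFunction ρ = 0 ∧ β ≤ ρ.re ∧ ρ.re < 1 ∧ |ρ.im| ≤ T} :=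
      ⟨⟨χ, ρ, hzero, le_rfl, hρ1, le_max_right _ _⟩⟩
    exact_mod_cast Nat.card_pos
  -- the variance on the window
  have hV : ∀ x : ℝ, X ≤ x → x ≤ X ^ K →
      ‖Pool.Agent.EM.V x d * x ^ (-1 - 2 * β)‖ ≤ d * C ^ 2 * x ^ (-1 - 6 * ε) := by
    intro x hx1 hx2
    have hx0 : 0 < x := by linarith
    have hV0 : 0 ≤ Pool.Agent.EM.V x d := Finset.sum_nonneg fun _ _ => sq_nonneg _
    have hV1 : Pool.Agent.EM.V x d ≤ d * (C ^ 2 * x ^ (2 * (θ + ε))) := by
      unfold Pool.Agent.EM.V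
      calc ∑ a ∈ (Finset.Icc 1 d).filter (fun a => Nat.Coprime a d),
            (Pool.Agent.EM.psi x d a - x / (Nat.totient d : ℝ)) ^ 2
          ≤ ∑ a ∈ (Finset.Icc 1 d).filter (fun a => Nat.Coprime a d),
              C ^ 2 * x ^ (2 * (θ + ε)) := by
            refine Finset.sum_le_sum fun a ha => ?_
            rw [Finset.mem_filter] at ha
            have h2 := hX x hx1 hx2 a ha.2
            have h3 : (Pool.Agent.EM.psi x d a - x / (Nat.totient d : ℝ)) ^ 2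
                ≤ (C * x ^ (θ + ε)) ^ 2 := by
              rw [← sq_abs (Pool.Agent.EM.psi x d a - x / (Nat.totient d : ℝ))]
              exact pow_le_pow_left₀ (abs_nonneg _) h2 2
            refine h3.trans (le_of_eq ?_)
            rw [mul_pow, ← Real.rpow_natCast (x ^ (θ + ε)), ← Real.rpow_mul hx0.le]
            congr 2
            push_cast
            ring
        _ = (((Finset.Icc 1 d).filter (fun a => Nat.Coprime a d)).card : ℝ)
              * (C ^ 2 * x ^ (2 * (θ + ε))) := by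
            rw [Finset.sum_const, nsmul_eq_mul]
        _ ≤ d * (C ^ 2 * x ^ (2 * (θ + ε))) := by
            apply mul_le_mul_of_nonneg_right _ (by positivity)
            have := Finset.card_filter_le (Finset.Icc 1 d) (fun a => Nat.Coprime a d)
            rw [Nat.card_Icc, Nat.add_sub_cancel] at this
            exact_mod_cast this
    rw [Real.norm_of_nonneg (by positivity)]
    calc Pool.Agent.EM.V x d * x ^ (-1 - 2 * β)
        ≤ (d * (C ^ 2 * x ^ (2 * (θ + ε)))) * x ^ (-1 - 2 * β) := by gcongr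
      _ = d * C ^ 2 * (x ^ (2 * (θ + ε)) * x ^ (-1 - 2 * β)) := by ring
      _ = d * C ^ 2 * x ^ (-1 - 6 * ε) := by
          rw [← Real.rpow_add hx0]
          congr 2
          rw [hε]
          ring
  have hint : IntervalIntegrable (fun x : ℝ => d * C ^ 2 * x ^ (-1 - 6 * ε)) volume X (X ^ K) := by
    apply IntervalIntegrable.const_mul
    apply intervalIntegral.intervalIntegrable_rpow
    right
    rw [Set.uIcc_of_le hXK, Set.mem_Icc]
    push Not
    intro hcon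
    linarith
  have hI : ‖∫ x in X..(X ^ K), Pool.Agent.EM.V x d * x ^ (-1 - 2 * β)‖
      ≤ ∫ x in X..(X ^ K), d * C ^ 2 * x ^ (-1 - 6 * ε) := by
    refine intervalIntegral.norm_integral_le_of_norm_le hXK ?_ hint
    filter_upwards with x hx
    exact hV x hx.1.le hx.2
  have hI2 : ∫ x in X..(X ^ K), d * C ^ 2 * x ^ (-1 - 6 * ε)
      ≤ d * C ^ 2 * (X ^ (-(6 * ε)) / (6 * ε)) := by
    rw [intervalIntegral.integral_const_mul, integral_rpow]
    · apply mul_le_mul_of_nonneg_left _ (by positivity)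
      have e1 : -1 - 6 * ε + 1 = -(6 * ε) := by ring
      rw [e1]
      have h2 : 0 ≤ (X ^ K) ^ (-(6 * ε)) := by positivity
      rw [div_neg, ← neg_div, neg_sub]
      apply div_le_div_of_nonneg_right _ (by positivity)
      linarith
    · right
      refine ⟨by intro hcon; linarith, ?_⟩
      rw [Set.uIcc_of_le hXK, Set.mem_Icc]
      push Not
      intro hcon
      linarith
  have h2 : (1 : ℝ) ≤ X ^ ε * T ^ 2 * (Nat.totient d : ℝ)
      * (d * C ^ 2 * (X ^ (-(6 * ε)) / (6 * ε))) := by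
    refine hcard.trans (h1.trans ?_)
    apply mul_le_mul_of_nonneg_left _ (by positivity)
    exact (le_abs_self _).trans (hI.trans hI2)
  have h3 : X ^ ε * T ^ 2 * (Nat.totient d : ℝ) * (d * C ^ 2 * (X ^ (-(6 * ε)) / (6 * ε)))
      = B * X ^ (-(5 * ε)) := by
    have e1 : X ^ (-(5 * ε)) = X ^ ε * X ^ (-(6 * ε)) := by
      rw [← Real.rpow_add hX0]; congr 1; ring
    rw [e1, hB]
    ring
  rw [h3, Real.rpow_neg hX0.le] at h2
  have h4 : 0 < X ^ (5 * ε) := by positivity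
  have h5 : B * (X ^ (5 * ε))⁻¹ < 1 := by
    rw [← div_eq_mul_inv, div_lt_one h4]
    linarith
  linarith

/-- Few good pairs in every class, in arbitrarily late windows, give the zero-free half plane. -/
theorem ZF_of_good_windows (d : ℕ) [NeZero d] (η : ℝ) (hη : 0 ≤ η)
    (h : ∀ ε : ℝ, 0 < ε → ∀ δ : ℝ, 0 < δ → ∀ K : ℕ, ∃ᶠ X : ℝ in atTop, ∀ x : ℝ, X ≤ x → x ≤ X ^ K →
      ∀ a : ℕ, Nat.Coprime a d → x ^ (1 - δ) ≤ ((good d a (1 / 2 + η + ε) x).ncard : ℝ)) :
    ZF d (3 / 4 + η) := by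
  have hd1 : 1 ≤ d := Nat.one_le_iff_ne_zero.mpr (NeZero.ne d)
  refine ZF_of_windows d (3 / 4 + η) (by linarith) fun ε hε K => ⟨2 + 4 * d, ?_⟩
  have h1 := h ε hε (min (ε / 8) (1 / 8)) (by positivity) K
  obtain ⟨x₁, hx₁⟩ := Filter.eventually_atTop.mp (E_of_good_pt d hd1 η hη ε hε)
  refine (h1.and_eventually (eventually_ge_atTop x₁)).mono ?_
  rintro X ⟨hX, hXx⟩ x hx1 hx2 a ha
  exact hx₁ x (by linarith) a ha (hX x hx1 hx2 a ha)

end Pool.Agent.MC
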